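import Pool.Agent.H77.AB.ADat
import Pool.Agent.H63.BU.UKum

/-!
# H77-AB-LDAT: definitions for the Galois part

`Dg : GX p d M l N₀ G` (ADat), `D : RD0 K p ζ` the reciprocity data (`S0` a finite set of primes), `L : LDs D Ω` (chosen primes over the `v ∉ S0`; `inr L v` the inertia group, `L.t v` its generator), `kk p ζ a σ` the value of the Kummer character of `a` (in `ZMod p`), `D.LL v a` the residue symbol.
* `UR D U`: `U` is a finite set of representatives of the `S0`-units modulo `p`-th powers.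
* `Stb Dg V`: `V ≤ W` is stable under conjugation by `s`.
* `Crd V V' c`: `c` is a coordinate map of `V / V'`.
* `Ux L x y`: the homomorphism `y` is of finite type and unramified outside `S0 ∪ x`.
* `Nr Dg L x V φ₀ φ`: `φ` is of finite type, `φ φ₀⁻¹ ∈ V`, `φ = φ₀` on the inertia groups outside `S0 ∪ x`, and `φ (inertia)` has exponent `p` at the primes of `x`.
* `rf X l M f η κ`: the refined family attached to the family `f`, the labels `η v ∈ F_p^l` and the copies `κ v < p^M` (`v` in the union of the `f i`, `i ∈ isx`).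
-/

set_option autoImplicit false

open scoped NumberField
open IsDedekindDomain
open scoped Classical

noncomputable section

namespace H77.AB

open H63.MA H38.BB H38.BG H63.BU

/-- a finite set of representatives of the `S0`-units modulo `p`-th powers -/
def UR {K : Type} [Field K] [NumberField K] {p : ℕ} {ζ : K} (D : RD0 K p ζ) (U : Finset Kˣ) :
    Prop :=
  (∀ x ∈ U, TUnit D.S0 x) ∧ ∀ x, TUnit D.S0 x → ∃ x' ∈ U, ∃ y : Kˣ, x = x' * y ^ p

/-- subgroups of `W` stable under conjugation by `s` -/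
def Stb {p d M l N₀ : ℕ} {G : Type} [Group G] (Dg : GX p d M l N₀ G) (V : Subgroup G) : Prop :=
  V ≤ Dg.W ∧ ∀ w ∈ V, Dg.s * w * Dg.s⁻¹ ∈ V

/-- coordinates of `V` modulo `V'` -/
def Crd {p e : ℕ} {G : Type} [Group G] (V V' : Subgroup G) (c : G → Fin e → ZMod p) : Prop :=
  (∀ a ∈ V, ∀ b ∈ V, c (a * b) = c a + c b) ∧ (∀ a ∈ V, c a = 0 ↔ a ∈ V') ∧
    ∀ x, ∃ a ∈ V, c a = x

section loc

variable {K : Type} [Field K] [NumberField K] {p : ℕ} {ζ : K} {D : RD0 K p ζ} {Ω : Type}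
  [Field Ω] [Algebra K Ω]

/-- unramified outside `S0 ∪ x` -/
def Ux (L : LDs D Ω) (x : Finset (Pl K)) {H : Type} [Group H] (y : Gal(Ω/K) →* H) : Prop :=
  H38.ML.FT y ∧ ∀ v, v ∉ D.S0 → v ∉ x → ∀ τ ∈ inr L v, y τ = 1

/-- the homomorphisms close to `φ₀` -/
def Nr {d M l N₀ : ℕ} {G : Type} [Group G] (_ : GX p d M l N₀ G) (L : LDs D Ω)
    (x : Finset (Pl K)) (V : Subgroup G) (φ₀ φ : Gal(Ω/K) →* G) : Prop :=
  H38.ML.FT φ ∧ (∀ σ, φ σ * (φ₀ σ)⁻¹ ∈ V) ∧
    (∀ v, v ∉ D.S0 → v ∉ x → ∀ τ ∈ inr L v, φ τ = φ₀ τ) ∧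
    ∀ v ∈ x, ∀ τ ∈ inr L v, φ τ ^ p = 1

end loc

/-- the refined family -/
def rf {K : Type} [Field K] [NumberField K] {p d N₀ : ℕ} [NeZero p] (X : XC p d N₀) (l M : ℕ)
    (f : Fin N₀ → Finset (Pl K)) (η : Pl K → Fin l → ZMod p) (κ : Pl K → Fin (p ^ M)) :
    Fin (NX X l M) → Finset (Pl K) := fun k =>
  match eX X l M k with
  | Sum.inl q => (f q.1.1).filter fun v => η v = q.2.1 ∧ κ v = q.2.2
  | Sum.inr i => f i.1

end H77.AB
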