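import Pool.Agent.H77.AB.ADat

/-!
# [H77 AB GAX] the abelian normal subgroup and the element s, 80-140 lines (finite group theory)

`G` finite nilpotent, `M` of index `p`, `T = closure {g : g^p = 1}`, `M` centralises `A = M ∩ T`, `s ∉ M`, `s^p = 1`. Then there is `ax : AX p A G` (ADat) with `ax.s = s`, `ker ax.χ = M` and `j(A) = M ∩ T`, and `A` is a `p`-group.

Proof. `M` is normal (maximal because its index is prime; in a nilpotent group maximal subgroups are normal: `Group.normalizerCondition_of_isNilpotent` with `NormalizerCondition.normal_of_coatom`, or: a subgroup of index `p` in a nilpotent group is normal as its normalizer is larger). `G ⧸ M` has prime order `p`, generated by the class of `s`; let `χ : G → Multiplicative (ZMod p)` be the homomorphism with kernel `M` and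
`χ s = ofAdd 1` (e.g. `zmodCyclicMulEquiv`/`mulEquivOfPrimeCardEq` to `Multiplicative (ZMod p)` gives some `χ'` with kernel `M`, `χ' s = ofAdd c`, `c ≠ 0`; compose with multiplication by `c⁻¹`). `T` is normal (the generating set is invariant under conjugation). `A := ↥(M ⊓ T)` with the commutative group structure (`M` centralises it, so it is commutative; `{ (inferInstance : Group _) with mul_comm := … }`), `j` the subtype homomorphism.
`θ` := conjugation by `s` on `M ⊓ T` (normal subgroup; `MulAut.conjNormal s`). `cj`: hypothesis. `com`: `s h s⁻¹ h⁻¹ ∈ M` for `h ∈ M` (normal), and `= s (h s⁻¹ h⁻¹) ∈ T` (`T` normal, `s ∈ T`). `tor`: `g ∈ T`; let `k = (χ g).val`; `g s^{-k} ∈ T ∩ ker χ = T ∩ M`. `IsPGroup p A`: `G` is nilpotent, so its Sylow `p`-subgroup `P` is normal and unique (`Sylow.normal_of_…`/`Group.isNilpotent_of_finite_tfae`),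
every `g` with `g^p = 1` generates a `p`-group, so lies in `P` (`IsPGroup.exists_le_sylow`, unique Sylow subgroup), so `T ≤ P`.
-/

set_option autoImplicit false

open scoped Classical

noncomputable section

namespace H77.AB

theorem gax_normal {G : Type} [Group G] [Finite G] (hnil : Group.IsNilpotent G) {p : ℕ}
    (hp : p.Prime) (M : Subgroup G) (hi : M.index = p) : M.Normal := by
  have := hnil
  have hnc : NormalizerCondition G := Group.normalizerCondition_of_isNilpotent
  have hlt : M < ⊤ := by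
    rw [lt_top_iff_ne_top]
    intro h
    rw [h, Subgroup.index_top] at hi
    exact hp.one_lt.ne hi
  have h1 := hnc M hlt
  have h2 := Subgroup.relIndex_mul_index h1.le
  rw [hi] at h2
  have h3 : (Subgroup.normalizer (M : Set G)).index ∣ p := Dvd.intro_left _ h2
  rcases (Nat.dvd_prime hp).1 h3 with h4 | h4
  · rw [← Subgroup.normalizer_eq_top_iff]
    exact Subgroup.index_eq_one.1 h4
  · exfalso
    rw [h4] at h2
    have h5 : M.relIndex (Subgroup.normalizer (M : Set G)) = 1 := by
      have := hp.pos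
      nlinarith
    exact (not_le_of_gt h1) (Subgroup.relIndex_eq_one.1 h5)

theorem gax_chi {G : Type} [Group G] [Finite G] {p : ℕ} (hp : p.Prime) (M : Subgroup G)
    [M.Normal] (hi : M.index = p) (s : G) (hsM : s ∉ M) :
    ∃ χ : G →* Multiplicative (ZMod p), χ s = Multiplicative.ofAdd 1 ∧
      ∀ g, χ g = 1 ↔ g ∈ M := by
  have : Fact p.Prime := ⟨hp⟩
  have hc : Nat.card (G ⧸ M) = p := hi
  have hz : Nat.card (Multiplicative (ZMod p)) = p := Nat.card_zmod p
  let e : G ⧸ M ≃* Multiplicative (ZMod p) := mulEquivOfPrimeCardEq hc hz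
  let χ' : G →* Multiplicative (ZMod p) := e.toMonoidHom.comp (QuotientGroup.mk' M)
  have hχ' : ∀ g, χ' g = 1 ↔ g ∈ M := by
    intro g
    show e ((QuotientGroup.mk' M) g) = 1 ↔ g ∈ M
    rw [EmbeddingLike.map_eq_one_iff]
    exact QuotientGroup.eq_one_iff g
  set c : ZMod p := Multiplicative.toAdd (χ' s) with hcdef
  have hc0 : c ≠ 0 := by
    intro h
    exact hsM ((hχ' s).1 (Multiplicative.toAdd.injective h))
  refine ⟨(AddMonoidHom.toMultiplicative (AddMonoidHom.mulLeft c⁻¹)).comp χ', ?_, fun g => ?_⟩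
  · show Multiplicative.ofAdd (c⁻¹ * Multiplicative.toAdd (χ' s)) = Multiplicative.ofAdd 1
    rw [← hcdef, inv_mul_cancel₀ hc0]
  · rw [← hχ' g]
    show Multiplicative.ofAdd (c⁻¹ * Multiplicative.toAdd (χ' g)) = Multiplicative.ofAdd 0 ↔ _
    rw [Multiplicative.ofAdd.injective.eq_iff, mul_eq_zero, or_iff_right (inv_ne_zero hc0)]
    constructor
    · intro h
      exact Multiplicative.toAdd.injective h
    · intro h
      rw [h]
      rfl

theorem gax_T {G : Type} [Group G] (p : ℕ) :
    (Subgroup.closure {g : G | g ^ p = 1}).Normal := by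
  constructor
  intro n hn g
  induction hn using Subgroup.closure_induction with
  | mem x hx =>
    apply Subgroup.subset_closure
    show (g * x * g⁻¹) ^ p = 1
    rw [conj_pow, show x ^ p = 1 from hx, mul_one, mul_inv_cancel]
  | one => simp
  | mul x y _ _ hx hy =>
    have e : g * (x * y) * g⁻¹ = (g * x * g⁻¹) * (g * y * g⁻¹) := by group
    rw [e]
    exact mul_mem hx hy
  | inv x _ hx =>
    have e : g * x⁻¹ * g⁻¹ = (g * x * g⁻¹)⁻¹ := by group
    rw [e]
    exact inv_mem hx

theorem gax_pT {G : Type} [Group G] [Finite G] (hnil : Group.IsNilpotent G) {p : ℕ}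
    (hp : p.Prime) : IsPGroup p (Subgroup.closure {g : G | g ^ p = 1}) := by
  have := hnil
  have : Fact p.Prime := ⟨hp⟩
  obtain ⟨P⟩ : Nonempty (Sylow p G) := inferInstance
  have hPn : (P : Subgroup G).Normal := inferInstance
  have hu := Sylow.unique_of_normal P hPn
  refine IsPGroup.to_le P.isPGroup' ?_
  rw [Subgroup.closure_le]
  intro g hg
  have h1 : IsPGroup p (Subgroup.zpowers g) := by
    rintro ⟨x, hx⟩
    obtain ⟨k, rfl⟩ := Subgroup.mem_zpowers_iff.1 hx
    refine ⟨1, ?_⟩
    ext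
    show (g ^ k) ^ (p ^ 1) = 1
    rw [pow_one, ← zpow_natCast, ← zpow_mul, mul_comm, zpow_mul, zpow_natCast,
      show g ^ p = 1 from hg, one_zpow]
  obtain ⟨Q, hQ⟩ := h1.exists_le_sylow
  have hQP : Q = P := hu.uniq Q |>.trans (hu.uniq P).symm
  rw [← hQP]
  exact hQ (Subgroup.mem_zpowers g)

theorem gax {G : Type} [Group G] [Finite G] (hnil : Group.IsNilpotent G) {p : ℕ} (hp : p.Prime)
    (M : Subgroup G) (hi : M.index = p)
    (hM : ∀ m ∈ M, ∀ a ∈ M, a ∈ Subgroup.closure {g : G | g ^ p = 1} → m * a = a * m) (s : G)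
    (hs : s ^ p = 1) (hsM : s ∉ M) :
    ∃ (A : Type) (_ : CommGroup A) (_ : Finite A) (ax : AX p A G), ax.s = s ∧
      ax.χ.ker = M ∧ IsPGroup p A ∧
      ∀ g, g ∈ ax.j.range ↔ g ∈ M ∧ g ∈ Subgroup.closure {g : G | g ^ p = 1} := by
  have hMn : M.Normal := gax_normal hnil hp M hi
  have hTn : (Subgroup.closure {g : G | g ^ p = 1}).Normal := gax_T p
  set T : Subgroup G := Subgroup.closure {g : G | g ^ p = 1} with hT
  obtain ⟨χ, hχs, hχ⟩ := gax_chi hp M hi s hsM
  have : (M ⊓ T).Normal := inferInstance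
  have : Fact p.Prime := ⟨hp⟩
  have hcomm : ∀ a b : ↥(M ⊓ T), a * b = b * a := by
    rintro ⟨a, ha⟩ ⟨b, hb⟩
    ext
    exact hM a ha.1 b hb.1 hb.2
  let cg : CommGroup ↥(M ⊓ T) := { (inferInstance : Group ↥(M ⊓ T)) with mul_comm := hcomm }
  have hsT : s ∈ T := Subgroup.subset_closure hs
  let ax : AX p ↥(M ⊓ T) G :=
    { j := (M ⊓ T).subtype
      jinj := Subtype.val_injective
      θ := MulAut.conjNormal s
      s := s
      sp := hs
      χ := χ
      χs := hχs
      χj := fun a => (hχ _).2 a.2.1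
      cj := by
        intro h a hh
        show h * (a : G) * h⁻¹ = (a : G)
        rw [hM h ((hχ h).1 hh) a a.2.1 a.2.2, mul_assoc, mul_inv_cancel, mul_one]
      cs := fun a => rfl
      com := by
        intro h hh
        have hhM : h ∈ M := (hχ h).1 hh
        have h1 : s * h * s⁻¹ * h⁻¹ ∈ M := mul_mem (hMn.conj_mem h hhM s) (inv_mem hhM)
        have h2 : s * h * s⁻¹ * h⁻¹ ∈ T := by
          have e : s * h * s⁻¹ * h⁻¹ = s * (h * s⁻¹ * h⁻¹) := by group
          rw [e]
          exact mul_mem hsT (hTn.conj_mem _ (inv_mem hsT) h)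
        exact ⟨⟨s * h * s⁻¹ * h⁻¹, Subgroup.mem_inf.2 ⟨h1, h2⟩⟩, rfl⟩
      tor := by
        intro g hg
        have hgT : g ∈ T := Subgroup.subset_closure hg
        set k : ℕ := (Multiplicative.toAdd (χ g)).val with hk
        have h1 : g * (s ^ k)⁻¹ ∈ M := by
          rw [← hχ, map_mul, map_inv, map_pow, hχs, ← ofAdd_nsmul, nsmul_eq_mul,
            mul_one, hk, ZMod.natCast_val, ZMod.cast_id, ofAdd_toAdd, mul_inv_cancel]
        have h2 : g * (s ^ k)⁻¹ ∈ T := mul_mem hgT (inv_mem (pow_mem hsT k))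
        refine ⟨⟨g * (s ^ k)⁻¹, Subgroup.mem_inf.2 ⟨h1, h2⟩⟩, k, ?_⟩
        show g = g * (s ^ k)⁻¹ * s ^ k
        group }
  refine ⟨↥(M ⊓ T), cg, inferInstance, ax, rfl, ?_, ?_, ?_⟩
  · ext g
    rw [MonoidHom.mem_ker]
    exact hχ g
  · exact IsPGroup.to_le (gax_pT hnil hp) inf_le_right
  · intro g
    constructor
    · rintro ⟨a, rfl⟩
      exact a.2
    · intro hg
      exact ⟨⟨g, hg⟩, rfl⟩

end H77.AB
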