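import Pool.Agent.H77.AB.ADat

/-!
# [H77 AB GXR] the group data if all elements of order p lie in M, 50-90 lines (finite group theory)

`G` finite nilpotent, `M` of index `p`, all `g` with `g^p = 1` lie in `M` and commute with `M`. Then there is `Dg : GX p 0 0 0 N₀ G` with `isx = ∅`.

Proof. `M` is normal (as in GAX), `χ : G → Multiplicative (ZMod p)` with kernel `M` (`G ⧸ M` has prime order: `mulEquivOfPrimeCardEq`), surjective. `τ`, `ψ` trivial (`Fin 0 → ZMod p` is a subsingleton; `ψ` is surjective). `isx = ∅`, `cen = {i : g i commutes with all elements}`, `W = ⊥`, `s = 1`: `act`, `nm`, `wc`, `wn`, `wχ` are trivial (`JS 1 ⊥ = ⊥`; all conjugates of `1` are `1`), `cW`, `cJ`: `1 = p^0`.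
`rz`: `g i ∈ M`. `rc`: clear (`τ` is trivial). `rnc`: `M ≤ centralizer of g i`, so the class has at most `[G : M] = p` elements (`Subgroup.index_le_of_le`/orbit-stabilizer: the class of `g i` is in bijection with `G ⧸ centralizer`; e.g. the map `G ⧸ M → class` is surjective). If `F` commutes with `t`, `t` conjugate to `g i`, and `F ∉ M`, then the centralizer of `t` contains `M` (`t^p = 1`) and `F`, so it is larger than `M`, of index
a proper divisor of `p`, so it is `G`; `t` is central, `t = g i` is central, contradiction to `i ∉ cen`.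
-/

set_option autoImplicit false

open scoped Classical

noncomputable section

namespace H77.AB

theorem gxr {G : Type} [Group G] [Finite G] (hnil : Group.IsNilpotent G) {p : ℕ} (hp : p.Prime)
    [NeZero p] (M : Subgroup G) (hi : M.index = p)
    (hM : ∀ a : G, a ^ p = 1 → a ∈ M ∧ ∀ m ∈ M, m * a = a * m) {N₀ : ℕ} (g : Fin N₀ → G)
    (pow : ∀ i, g i ^ p = 1) (ne : ∀ i, g i ≠ 1) (uni : ∀ i j, IsConj (g i) (g j) → i = j) :
    ∃ Dg : GX p 0 0 0 N₀ G, Dg.g = g ∧ Dg.isx = ∅ := by
  have : Fact p.Prime := ⟨hp⟩
  have hco : IsCoatom M := by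
    constructor
    · rintro rfl
      rw [Subgroup.index_top] at hi
      exact hp.one_lt.ne hi
    · intro K hK
      have h1 := Subgroup.relIndex_mul_index hK.le
      rw [hi] at h1
      rcases (Nat.dvd_prime hp).1 (Dvd.intro_left _ h1) with h2 | h2
      · exact Subgroup.index_eq_one.1 h2
      · exfalso
        rw [h2] at h1
        have h3 : M.relIndex K = 1 := by
          have h4 : M.relIndex K * p = 1 * p := by rw [h1, one_mul]
          exact Nat.eq_of_mul_eq_mul_right hp.pos h4
        exact hK.not_ge (Subgroup.relIndex_eq_one.1 h3)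
  have hMn : M.Normal := Subgroup.NormalizerCondition.normal_of_coatom M
    (Group.normalizerCondition_of_isNilpotent (h := hnil)) hco
  have hc1 : Nat.card (G ⧸ M) = p := hi
  have hc2 : Nat.card (Multiplicative (ZMod p)) = p := by
    rw [Nat.card_congr Multiplicative.toAdd, Nat.card_zmod]
  let e : (G ⧸ M) ≃* Multiplicative (ZMod p) := mulEquivOfPrimeCardEq hc1 hc2
  have hk : ∀ x : G, (e.toMonoidHom.comp (QuotientGroup.mk' M)) x = 1 ↔ x ∈ M := by
    intro x
    have h1 : (e.toMonoidHom.comp (QuotientGroup.mk' M)) x = e (QuotientGroup.mk x) := rfl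
    rw [h1, EmbeddingLike.map_eq_one_iff, QuotientGroup.eq_one_iff]
  have hsub : Subsingleton (Multiplicative (Fin 0 → ZMod p)) :=
    ⟨fun a b => by
      have h : Multiplicative.toAdd a = Multiplicative.toAdd b := Subsingleton.elim _ _
      exact h⟩
  have hconj : ∀ (i : Fin N₀) (t : G), IsConj t (g i) → t ^ p = 1 := by
    intro i t ht
    obtain ⟨c, hc⟩ := isConj_iff.1 ht.symm
    rw [← hc, conj_pow, pow i, mul_one, mul_inv_cancel]
  refine ⟨{ χ := e.toMonoidHom.comp (QuotientGroup.mk' M)
            τ := 1
            ψ := 1
            χs := e.surjective.comp (QuotientGroup.mk'_surjective M)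
            ψs := fun b => ⟨1, Subsingleton.elim _ _⟩
            g := g
            pow := pow
            ne := ne
            uni := uni
            isx := ∅
            cen := Finset.univ.filter fun i => ∀ h, h * g i = g i * h
            xne := fun i hi => absurd hi (Finset.notMem_empty i)
            rz := fun i _ => (hk (g i)).2 (hM (g i) (pow i)).1
            pz := fun i => rfl
            W := ⊥
            wn := inferInstance
            wc := ?_
            wχ := ?_
            s := 1
            act := ?_
            nm := ?_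
            cls := fun i hi => absurd hi (Finset.notMem_empty i)
            rel := fun i hi => absurd hi (Finset.notMem_empty i)
            rc := ?_
            rnc := ?_
            cW := ?_
            cJ := ?_ }, rfl, rfl⟩
  · intro a ha b hb
    rw [Subgroup.mem_bot.1 ha, Subgroup.mem_bot.1 hb]
  · intro a ha
    rw [Subgroup.mem_bot.1 ha, map_one]
  · intro h w hw
    rw [Subgroup.mem_bot.1 hw, mul_one, mul_inv_cancel, one_pow, one_mul, inv_one, one_mul]
  · intro w hw
    rw [Subgroup.mem_bot.1 hw]
    refine List.prod_eq_one ?_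
    intro x hx
    obtain ⟨k, _, rfl⟩ := List.mem_map.1 hx
    rw [mul_one, mul_inv_cancel]
  · intro i hi
    refine ⟨Finset.notMem_empty i, Subsingleton.elim _ _, ?_⟩
    intro h hh
    obtain ⟨c, hc⟩ := isConj_iff.1 hh.symm
    rw [← hc, (Finset.mem_filter.1 hi).2 c, mul_assoc, mul_inv_cancel, mul_one]
  · intro i _ hic
    constructor
    · have hw : ∀ a b : G, QuotientGroup.leftRel M a b → a * g i * a⁻¹ = b * g i * b⁻¹ := by
        intro a b hab
        have h1 := (hM (g i) (pow i)).2 _ (QuotientGroup.leftRel_apply.1 hab)
        have h2 : b * g i = a * (a⁻¹ * b * g i) := by group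
        rw [h2, h1]
        group
      let F : G ⧸ M → {h : G // IsConj h (g i)} :=
        Quotient.lift (fun a => (⟨a * g i * a⁻¹, (isConj_iff.2 ⟨a, rfl⟩ : IsConj (g i) _).symm⟩ :
          {h : G // IsConj h (g i)})) (fun a b hab => Subtype.ext (hw a b hab))
      have hF : Function.Surjective F := by
        rintro ⟨h, hh⟩
        obtain ⟨c, hc⟩ := isConj_iff.1 hh.symm
        exact ⟨QuotientGroup.mk c, Subtype.ext hc⟩
      have h3 := Nat.card_le_card_of_surjective F hF
      rwa [hc1] at h3
    · intro F t ht hFt
      rw [hk]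
      by_contra hFM
      have hlt : M < Subgroup.centralizer {t} := by
        refine lt_of_le_of_ne ?_ ?_
        · intro m hm
          rw [Subgroup.mem_centralizer_singleton_iff]
          exact (hM t (hconj i t ht)).2 m hm
        · intro he
          apply hFM
          rw [he, Subgroup.mem_centralizer_singleton_iff]
          exact hFt
      have htop := hco.2 _ hlt
      have hall : ∀ x : G, x * t = t * x := by
        intro x
        rw [← Subgroup.mem_centralizer_singleton_iff, htop]
        exact Subgroup.mem_top x
      apply hic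
      rw [Finset.mem_filter]
      refine ⟨Finset.mem_univ i, ?_⟩
      obtain ⟨c, hc⟩ := isConj_iff.1 ht
      rw [hall c, mul_assoc, mul_inv_cancel, mul_one] at hc
      rw [← hc]
      exact hall
  · rw [Subgroup.card_bot, add_zero, add_zero, pow_zero]
  · have h1 : JS (1 : G) ⊥ = ⊥ := by
      rw [JS, eq_bot_iff, Subgroup.closure_le]
      rintro x ⟨v, hv, rfl⟩
      rw [Subgroup.mem_bot.1 hv]
      simp
    rw [h1, Subgroup.card_bot, pow_zero]

end H77.AB
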