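import Pool.Agent.H77.AB.GWb

/-!
# [H77 AB GCG] counting the classes inside ker χ, 100-160 lines (finite group theory)

`g : Fin N₀ → G` representatives of the classes of the elements `h ≠ 1` with `h^p = 1`; `τ : G → F_p^d` a homomorphism with `τ (j a) = 1` if `θ a = a`; `D` a subspace of `F_p^d`, `r` the number of the `i` with `χ (g i) = 1` and `τ (g i) ∈ D`. Then `p r + p = #{a : a^p = 1, τ (j a) ∈ D} + (p-1) k₁`, `k₁ = #(fx θ ⊓ tp A p)`.

Proof. The elements `h` with `h^p = 1`, `χ h = 1` are the `j a`, `a^p = 1` (`ax.tor`: `h = j a s^k`, `χ h = ofAdd k = 1`, so `p ∣ k`, `s^k = 1`). The class of `j a` is `{j (θ^k a)}` (`gwb_act`; `χ` is surjective because `χ s = ofAdd 1`), it has one element if `θ a = a` and `p` elements otherwise (`θ^p = 1`: `gwb_tp`; if `θ^k a = a` with `0 < k < p` then `θ a = a`: `grpa_fix_of_pow` in H38/TD/Grp1.lean). `τ` is constant on classes.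
Let `D^ = {a : a^p = 1, τ (j a) ∈ D}`, `a = 1` is in it. `D^ \ {1}` is the disjoint union of the (images of the) classes of the `g i`, `χ (g i) = 1`, `τ (g i) ∈ D` (`uni`, `all`): `#D^ - 1 = c + p n`, `c` the number of these `i` with class of size `1`, `n` of the others, `r = c + n`. The fixed `a ≠ 1`, `a^p = 1` all have `τ (j a) = 1`, so they are in `D^`, and each is a class by itself: `c = k₁ - 1`.
So `p r = p c + p n = p c + #D^ - 1 - c = #D^ - 1 + (p - 1)(k₁ - 1)`.
-/

set_option autoImplicit false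

open scoped Classical

noncomputable section

namespace H77.AB

open H38.TD

theorem gcg_chis {A G : Type} [CommGroup A] [Group G] {p : ℕ} (ax : AX p A G) (k : ℕ) :
    ax.χ (ax.s ^ k) = Multiplicative.ofAdd (k : ZMod p) := by
  rw [map_pow, ax.χs, ← ofAdd_nsmul, nsmul_eq_mul, mul_one]

theorem gcg_conj {H V : Type} [Group H] [CommGroup V] (f : H →* V) {x y : H} (h : IsConj x y) :
    f x = f y := by
  obtain ⟨c, hc⟩ := isConj_iff.1 h
  rw [← hc, map_mul, map_mul, map_inv, mul_comm (f c), mul_assoc, mul_inv_cancel, mul_one]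

theorem gcg_pow {H : Type} [Group H] {x y : H} (h : IsConj x y) (p : ℕ) (hy : y ^ p = 1) :
    x ^ p = 1 := by
  obtain ⟨c, hc⟩ := isConj_iff.1 h.symm
  rw [← hc, conj_pow, hy, mul_one, mul_inv_cancel]

theorem gcg_one {A G : Type} [CommGroup A] [Finite A] [Group G] {p : ℕ} (hp : p.Prime)
    [NeZero p] (ax : AX p A G) [Fintype A] (a₀ : A) :
    p = (Finset.univ.filter fun a : A => IsConj (ax.j a) (ax.j a₀)).card +
      (p - 1) * ((Finset.univ.filter fun a : A => IsConj (ax.j a) (ax.j a₀)).filter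
        fun a => ax.θ a = a).card := by
  have hval : ∀ x : ZMod p, x.val < p := fun x => ZMod.val_lt x
  have hmem : ∀ a : A, IsConj (ax.j a) (ax.j a₀) ↔
      ∃ k < p, (ax.θ ^ k : MulAut A) a₀ = a := by
    intro a
    constructor
    · intro h
      obtain ⟨c, hc⟩ := isConj_iff.1 h.symm
      rw [gwb_act] at hc
      exact ⟨_, hval _, ax.jinj hc⟩
    · rintro ⟨k, hk, rfl⟩
      refine (isConj_iff.2 ⟨ax.s ^ k, ?_⟩).symm
      rw [gwb_act, gcg_chis, toAdd_ofAdd, ZMod.val_natCast_of_lt hk]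
  by_cases hfix : ax.θ a₀ = a₀
  · have hk : ∀ k : ℕ, (ax.θ ^ k : MulAut A) a₀ = a₀ := by
      intro k
      rw [grpa_it_pow]
      exact Function.iterate_fixed hfix k
    have h1 : (Finset.univ.filter fun a : A => IsConj (ax.j a) (ax.j a₀)) = {a₀} := by
      ext a
      rw [Finset.mem_filter, Finset.mem_singleton, hmem]
      constructor
      · rintro ⟨-, k, -, hk'⟩
        rw [← hk', hk]
      · rintro rfl
        exact ⟨Finset.mem_univ _, 0, hp.pos, hk 0⟩
    have h2 : ({a₀} : Finset A).filter (fun a => ax.θ a = a) = {a₀} := by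
      rw [Finset.filter_singleton, if_pos hfix]
    rw [h1, h2, Finset.card_singleton, mul_one]
    have := hp.pos
    omega
  · have h1 : (Finset.univ.filter fun a : A => IsConj (ax.j a) (ax.j a₀)) =
        (Finset.range p).image fun k => (ax.θ ^ k : MulAut A) a₀ := by
      ext a
      rw [Finset.mem_filter, Finset.mem_image, hmem]
      constructor
      · rintro ⟨-, k, hk, hk'⟩
        exact ⟨k, Finset.mem_range.2 hk, hk'⟩
      · rintro ⟨k, hk, hk'⟩
        exact ⟨Finset.mem_univ _, k, Finset.mem_range.1 hk, hk'⟩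
    have hne : ∀ k l : ℕ, k < l → l < p → (ax.θ ^ k : MulAut A) a₀ ≠ (ax.θ ^ l : MulAut A) a₀ := by
      intro k l hkl hl h
      apply hfix
      refine grpa_fix_of_pow hp ax.θ a₀ (gwb_tp ax a₀) (l - k)
        (Nat.not_dvd_of_pos_of_lt (by omega) (by omega)) ?_
      have e1 : (ax.θ ^ l : MulAut A) a₀ =
          (ax.θ ^ k : MulAut A) ((ax.θ ^ (l - k) : MulAut A) a₀) := by
        rw [← MulAut.mul_apply, ← pow_add]
        congr 2
        omega
      rw [e1] at h
      exact ((ax.θ ^ k : MulAut A).injective h).symm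
    have hinj : Set.InjOn (fun k : ℕ => (ax.θ ^ k : MulAut A) a₀) (Finset.range p : Set ℕ) := by
      intro k hk l hl h
      have hk' := Finset.mem_range.1 (Finset.mem_coe.1 hk)
      have hl' := Finset.mem_range.1 (Finset.mem_coe.1 hl)
      rcases lt_trichotomy k l with hlt | heq | hgt
      · exact absurd h (hne k l hlt hl')
      · exact heq
      · exact absurd h.symm (hne l k hgt hk')
    have h2 : ((Finset.range p).image fun k => (ax.θ ^ k : MulAut A) a₀).filter
        (fun a => ax.θ a = a) = ∅ := by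
      rw [Finset.filter_eq_empty_iff]
      intro a ha hθ
      obtain ⟨k, -, rfl⟩ := Finset.mem_image.1 ha
      apply hfix
      have e1 : ax.θ ((ax.θ ^ k : MulAut A) a₀) = (ax.θ ^ k : MulAut A) (ax.θ a₀) := by
        have e2 : (ax.θ * ax.θ ^ k : MulAut A) = ax.θ ^ k * ax.θ :=
          (Commute.refl (ax.θ : MulAut A)).pow_right k
        exact congrArg (fun f : MulAut A => f a₀) e2
      rw [e1] at hθ
      exact (ax.θ ^ k : MulAut A).injective hθ
    rw [h1, h2, Finset.card_image_of_injOn hinj, Finset.card_range, Finset.card_empty, mul_zero,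
      add_zero]

theorem gcg {A G : Type} [CommGroup A] [Finite A] [Group G] [Finite G] {p : ℕ} (hp : p.Prime)
    [NeZero p] (ax : AX p A G) {N₀ d : ℕ} (g : Fin N₀ → G)
    (pow : ∀ i, g i ^ p = 1) (ne : ∀ i, g i ≠ 1) (uni : ∀ i j, IsConj (g i) (g j) → i = j)
    (all : ∀ h : G, h ≠ 1 → h ^ p = 1 → ∃ i, IsConj h (g i))
    (τ : G →* Multiplicative (Fin d → ZMod p)) (hf : ∀ a : A, ax.θ a = a → τ (ax.j a) = 1)
    (D : Submodule (ZMod p) (Fin d → ZMod p)) :
    p * (Finset.univ.filter fun i : Fin N₀ => ax.χ (g i) = 1 ∧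
        Multiplicative.toAdd (τ (g i)) ∈ D).card + p =
      Nat.card {a : A // a ^ p = 1 ∧ Multiplicative.toAdd (τ (ax.j a)) ∈ D} +
        (p - 1) * Nat.card (fx ax.θ ⊓ tp A p : Subgroup A) := by
  haveI : Fintype A := Fintype.ofFinite A
  obtain ⟨I, hI⟩ : ∃ I : Finset (Fin N₀), I = Finset.univ.filter fun i : Fin N₀ =>
      ax.χ (g i) = 1 ∧ Multiplicative.toAdd (τ (g i)) ∈ D := ⟨_, rfl⟩
  obtain ⟨F, hF⟩ : ∃ F : Fin N₀ → Finset A, F = fun i =>
      Finset.univ.filter fun a : A => IsConj (ax.j a) (g i) := ⟨_, rfl⟩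
  have hmF : ∀ i a, a ∈ F i ↔ IsConj (ax.j a) (g i) := by
    intro i a
    rw [hF, Finset.mem_filter]
    exact ⟨fun h => h.2, fun h => ⟨Finset.mem_univ _, h⟩⟩
  have hmI : ∀ i, i ∈ I ↔ ax.χ (g i) = 1 ∧ Multiplicative.toAdd (τ (g i)) ∈ D := by
    intro i
    rw [hI, Finset.mem_filter]
    exact ⟨fun h => h.2, fun h => ⟨Finset.mem_univ _, h⟩⟩
  rw [← hI]
  -- one class
  have hone : ∀ i ∈ I, p = (F i).card + (p - 1) * ((F i).filter fun a => ax.θ a = a).card := by
    intro i hi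
    obtain ⟨a, k, hak⟩ := ax.tor (g i) (pow i)
    have h1 := ((hmI i).1 hi).1
    rw [hak, map_mul, ax.χj, one_mul, gcg_chis] at h1
    have h2 : (k : ZMod p) = 0 := h1
    obtain ⟨l, rfl⟩ := (ZMod.natCast_eq_zero_iff k p).1 h2
    rw [pow_mul, ax.sp, one_pow, mul_one] at hak
    rw [hF]
    simp only
    rw [hak]
    exact gcg_one hp ax a
  have hdisj : ∀ i ∈ I, ∀ i' ∈ I, i ≠ i' → Disjoint (F i) (F i') := by
    intro i _ i' _ hii
    rw [Finset.disjoint_left]
    intro a ha ha'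
    exact hii (uni i i' (((hmF i a).1 ha).symm.trans ((hmF i' a).1 ha')))
  -- the nontrivial elements
  obtain ⟨SF, hSF⟩ : ∃ SF : Finset A, SF = Finset.univ.filter fun a : A => a ≠ 1 ∧ a ^ p = 1 ∧
      Multiplicative.toAdd (τ (ax.j a)) ∈ D := ⟨_, rfl⟩
  have hmS : ∀ a, a ∈ SF ↔ a ≠ 1 ∧ a ^ p = 1 ∧ Multiplicative.toAdd (τ (ax.j a)) ∈ D := by
    intro a
    rw [hSF, Finset.mem_filter]
    exact ⟨fun h => h.2, fun h => ⟨Finset.mem_univ _, h⟩⟩
  have hSFb : SF = I.biUnion F := by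
    ext a
    rw [hmS, Finset.mem_biUnion]
    constructor
    · rintro ⟨h1, h2, h3⟩
      have h4 : ax.j a ≠ 1 := fun h => h1 (ax.jinj (h.trans (map_one ax.j).symm))
      have h5 : ax.j a ^ p = 1 := by rw [← map_pow, h2, map_one]
      obtain ⟨i, hi⟩ := all (ax.j a) h4 h5
      refine ⟨i, (hmI i).2 ⟨?_, ?_⟩, (hmF i a).2 hi⟩
      · rw [← gcg_conj ax.χ hi, ax.χj]
      · rw [← gcg_conj τ hi]
        exact h3
    · rintro ⟨i, hi, ha⟩
      have h1 := (hmF i a).1 ha
      refine ⟨?_, ?_, ?_⟩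
      · rintro rfl
        rw [map_one] at h1
        exact ne i (isConj_one_right.1 h1)
      · apply ax.jinj
        rw [map_pow, map_one]
        exact gcg_pow h1 p (pow i)
      · rw [gcg_conj τ h1]
        exact ((hmI i).1 hi).2
  obtain ⟨Fx, hFx⟩ : ∃ Fx : Finset A, Fx = Finset.univ.filter fun a : A =>
      a ≠ 1 ∧ a ^ p = 1 ∧ ax.θ a = a := ⟨_, rfl⟩
  have hmX : ∀ a, a ∈ Fx ↔ a ≠ 1 ∧ a ^ p = 1 ∧ ax.θ a = a := by
    intro a
    rw [hFx, Finset.mem_filter]
    exact ⟨fun h => h.2, fun h => ⟨Finset.mem_univ _, h⟩⟩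
  have hFxb : Fx = I.biUnion fun i => (F i).filter fun a => ax.θ a = a := by
    ext a
    rw [hmX, Finset.mem_biUnion]
    constructor
    · rintro ⟨h1, h2, h3⟩
      have h4 : a ∈ SF := by
        rw [hmS]
        refine ⟨h1, h2, ?_⟩
        rw [hf a h3, toAdd_one]
        exact D.zero_mem
      rw [hSFb, Finset.mem_biUnion] at h4
      obtain ⟨i, hi, ha⟩ := h4
      exact ⟨i, hi, Finset.mem_filter.2 ⟨ha, h3⟩⟩
    · rintro ⟨i, hi, ha⟩
      rw [Finset.mem_filter] at ha
      have h4 : a ∈ SF := by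
        rw [hSFb, Finset.mem_biUnion]
        exact ⟨i, hi, ha.1⟩
      rw [hmS] at h4
      exact ⟨h4.1, h4.2.1, ha.2⟩
  have hc1 : SF.card = ∑ i ∈ I, (F i).card := by
    rw [hSFb]
    exact Finset.card_biUnion hdisj
  have hc2 : Fx.card = ∑ i ∈ I, ((F i).filter fun a => ax.θ a = a).card := by
    rw [hFxb]
    refine Finset.card_biUnion fun i hi i' hi' hii => ?_
    exact Finset.disjoint_filter_filter (hdisj i hi i' hi' hii)
  have hmain : p * I.card = SF.card + (p - 1) * Fx.card := by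
    rw [hc1, hc2, Finset.mul_sum, ← Finset.sum_add_distrib, mul_comm, ← smul_eq_mul,
      ← Finset.sum_const]
    exact Finset.sum_congr rfl hone
  have hS1 : Nat.card {a : A // a ^ p = 1 ∧ Multiplicative.toAdd (τ (ax.j a)) ∈ D} =
      SF.card + 1 := by
    rw [Nat.card_eq_fintype_card, Fintype.card_subtype]
    have h1 : (1 : A) ∉ SF := fun h => ((hmS 1).1 h).1 rfl
    rw [← Finset.card_insert_of_notMem h1]
    congr 1
    ext a
    rw [Finset.mem_filter, Finset.mem_insert, hmS]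
    constructor
    · rintro ⟨-, h2⟩
      by_cases h : a = 1
      · exact Or.inl h
      · exact Or.inr ⟨h, h2⟩
    · rintro (rfl | h2)
      · refine ⟨Finset.mem_univ _, one_pow p, ?_⟩
        rw [map_one, map_one, toAdd_one]
        exact D.zero_mem
      · exact ⟨Finset.mem_univ _, h2.2⟩
  have hX1 : Nat.card (fx ax.θ ⊓ tp A p : Subgroup A) = Fx.card + 1 := by
    have h0 : Nat.card (fx ax.θ ⊓ tp A p : Subgroup A) =
        Nat.card {a : A // a ^ p = 1 ∧ ax.θ a = a} := by
      refine Nat.card_congr (Equiv.subtypeEquivRight fun a => ?_)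
      rw [Subgroup.mem_inf]
      exact ⟨fun h => ⟨h.2, h.1⟩, fun h => ⟨h.2, h.1⟩⟩
    rw [h0, Nat.card_eq_fintype_card, Fintype.card_subtype]
    have h1 : (1 : A) ∉ Fx := fun h => ((hmX 1).1 h).1 rfl
    rw [← Finset.card_insert_of_notMem h1]
    congr 1
    ext a
    rw [Finset.mem_filter, Finset.mem_insert, hmX]
    constructor
    · rintro ⟨-, h2⟩
      by_cases h : a = 1
      · exact Or.inl h
      · exact Or.inr ⟨h, h2⟩
    · rintro (rfl | h2)
      · exact ⟨Finset.mem_univ _, one_pow p, map_one ax.θ⟩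
      · exact ⟨Finset.mem_univ _, h2.2⟩
  rw [hS1, hX1, hmain]
  obtain ⟨q, hq⟩ : ∃ q, p = q + 1 := ⟨p - 1, by have := hp.pos; omega⟩
  have hq' : p - 1 = q := by omega
  rw [hq', hq]
  ring

end H77.AB
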