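import Pool.Agent.H38.TD.Grp3

/-!
# [H77 AB GI] two inequalities for an automorphism of order p of an abelian p-group, 120-180 lines

`A` a finite abelian group, `θ^p = 1`, `N = nh θ p`, `F = fx θ`, `V = tp A p = {a : a^p = 1}`, `k₁ = #(F ⊓ V)`, `W ≤ A` with `θ a * a⁻¹ ∈ W` for all `a`.
* `gi1`: `[V : V ∩ (ker N ⊔ F)] * #ker N ≤ k₁ * #W`.
  Proof. Let `ρ₀ = [V : V ∩ (ker N ⊔ F)] = (ker N ⊔ F).relIndex V`. `N` maps `V` to `N(V)`, and for `v ∈ V`: `v ∈ ker N ⊔ F` iff `N v ∈ N(F)`. So `V / (V ∩ (ker N ⊔ F))` embeds in `N(A) / N(F)`, `ρ₀ #N(F) ≤ #N(A)`. `N f = f^p` for `f ∈ F`, so `N(F) = F^p` is the image of the `p`-th power map on `F`, whose kernel is `F ⊓ V`: `#N(F) k₁ = #F`. `#ker N #N(A) = #A`. `#A = #F #J(A) ≤ #F #W`, `J a = θ a * a⁻¹`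
  with kernel `F`. So `ρ₀ #ker N #N(F) ≤ #N(A) #ker N = #A ≤ #W #F = #W #N(F) k₁`; cancel `#N(F) > 0`.
* `gi2`: if `V` is not contained in `ker N ⊔ F`, then `p (p-1) k₁ ≤ #V`.
  Proof. Then there is `v₀ ∈ V` with `N v₀ ≠ 1`. On `V`: `N v = t^{p-1} v`, `t = grpa_dk θ 1 = (v ↦ θ v / v)` (`grpc_N` in H38/TD/Grp3.lean). Let `V_k = {v ∈ V : t^k v = 1}`, `V_1 = F ⊓ V`. `V_1 < V_2 < … < V_p ≤ V` strictly increasing: `t^{p-k} v₀ ∈ V_k \ V_{k-1}` for `k ≤ p` (`t^{k} t^{p-k} v₀ = t^p v₀ = 1`: `t^p v₀ = t (N v₀) = 1` because `N v₀ ∈ F`; `t^{k-1} t^{p-k} v₀ = t^{p-1} v₀ = N v₀ ≠ 1`).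
  All orders are powers of `p` (exponent `p`), so `#V ≥ p^{p-1} #V_1 = p^{p-1} k₁ ≥ p (p-1) k₁` (`p^{p-2} ≥ p - 1`; `p = 2`: `2 ≥ 2`). (Compare (2) in `grp3`, whose auxiliary lemmas `grpc_chain`, `grpc_card_map` may help.)
-/

set_option autoImplicit false

open scoped Classical

noncomputable section

namespace H77.AB

open H38.TD

theorem gi_nf {A : Type} [CommGroup A] {p : ℕ} (θ : A ≃* A) (f : A) (hf : θ f = f) :
    nh θ p f = f ^ p := by
  show ∏ k ∈ Finset.range p, (θ ^ k : MulAut A) f = f ^ p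
  rw [Finset.prod_congr rfl (fun k _ => by
    rw [grpa_it_pow, Function.iterate_fixed hf k]), Finset.prod_const, Finset.card_range]

theorem gi_nfix {A : Type} [CommGroup A] {p : ℕ} (θ : A ≃* A)
    (hθ : ∀ a, (θ ^ p : MulAut A) a = a) (a : A) : θ (nh θ p a) = nh θ p a := by
  have e : θ (nh θ p a) = nh θ p (θ a) := by
    show θ (∏ k ∈ Finset.range p, (θ ^ k : MulAut A) a) =
      ∏ k ∈ Finset.range p, (θ ^ k : MulAut A) (θ a)
    rw [map_prod]
    refine Finset.prod_congr rfl fun k _ => ?_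
    show (θ * θ ^ k : MulAut A) a = (θ ^ k * θ : MulAut A) a
    rw [← pow_succ', ← pow_succ]
  rw [e, grpa_nh_theta θ hθ a]

theorem gi_rel {A : Type} [CommGroup A] [Finite A] (H K : Subgroup A) (h : H ≤ K) :
    H.relIndex K * Nat.card H = Nat.card K := by
  have h1 := Subgroup.relIndex_mul_index h
  have h2 := Subgroup.card_mul_index H
  have h3 := Subgroup.card_mul_index K
  have h4 : 0 < K.index := Nat.pos_of_ne_zero K.index_ne_zero_of_finite
  apply Nat.eq_of_mul_eq_mul_right h4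
  calc H.relIndex K * Nat.card H * K.index = Nat.card H * (H.relIndex K * K.index) := by ring
    _ = Nat.card K * K.index := by rw [h1, h2, h3]

theorem gi1 {A : Type} [CommGroup A] [Finite A] {p : ℕ} (hp : p.Prime) (θ : A ≃* A)
    (hθ : ∀ a, (θ ^ p : MulAut A) a = a) (W : Subgroup A) (hW : ∀ a, θ a * a⁻¹ ∈ W) :
    ((nh θ p).ker ⊔ fx θ).relIndex (tp A p) * Nat.card (nh θ p).ker ≤
      Nat.card (fx θ ⊓ tp A p : Subgroup A) * Nat.card W := by
  have hB : (nh θ p).ker ⊔ fx θ = Subgroup.comap (nh θ p) ((fx θ).map (nh θ p)) := by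
    rw [Subgroup.comap_map_eq, sup_comm]
  have h1 : ((nh θ p).ker ⊔ fx θ).relIndex (tp A p) =
      ((fx θ).map (nh θ p)).relIndex ((tp A p).map (nh θ p)) := by
    rw [hB, Subgroup.relIndex_comap]
  have hle : (fx θ).map (nh θ p) ≤ (nh θ p).range := Subgroup.map_le_range _ _
  have h2 : ((fx θ).map (nh θ p)).relIndex ((tp A p).map (nh θ p)) ≤
      ((fx θ).map (nh θ p)).relIndex (nh θ p).range := by
    apply Subgroup.relIndex_le_of_le_right (Subgroup.map_le_range _ _)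
    exact Subgroup.index_ne_zero_of_finite
  have h3 := gi_rel _ _ hle
  have h4 : Nat.card (nh θ p).ker * Nat.card (nh θ p).range = Nat.card A := by
    rw [← Subgroup.index_ker]
    exact Subgroup.card_mul_index _
  have h5 : Nat.card (fx θ) = Nat.card (fx θ ⊓ tp A p : Subgroup A) *
      Nat.card ((fx θ).map (powMonoidHom p : A →* A)) :=
    grpc_card_map (powMonoidHom p : A →* A) (fx θ)
  have h6 : (fx θ).map (powMonoidHom p : A →* A) = (fx θ).map (nh θ p) := by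
    ext x
    constructor
    · rintro ⟨f, hf, rfl⟩
      exact ⟨f, hf, gi_nf θ f hf⟩
    · rintro ⟨f, hf, rfl⟩
      exact ⟨f, hf, (gi_nf θ f hf).symm⟩
  have hker : (grpa_dk θ 1).ker = fx θ :=
    grpa_dk_ker hp θ hθ 1 (fun h => hp.one_lt.ne' (Nat.dvd_one.1 h))
  have h7 : Nat.card (fx θ) * Nat.card (grpa_dk θ 1).range = Nat.card A := by
    rw [← hker, ← Subgroup.index_ker]
    exact Subgroup.card_mul_index _
  have h8 : (grpa_dk θ 1).range ≤ W := by
    rintro x ⟨a, rfl⟩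
    show (θ ^ 1 : MulAut A) a / a ∈ W
    rw [pow_one, div_eq_mul_inv]
    exact hW a
  have h9 : Nat.card (grpa_dk θ 1).range ≤ Nat.card W := Subgroup.card_le_of_le h8
  rw [h6] at h5
  have hpos : 0 < Nat.card ((fx θ).map (nh θ p)) := Nat.card_pos
  apply Nat.le_of_mul_le_mul_right _ hpos
  calc ((nh θ p).ker ⊔ fx θ).relIndex (tp A p) * Nat.card (nh θ p).ker *
        Nat.card ((fx θ).map (nh θ p))
      ≤ ((fx θ).map (nh θ p)).relIndex (nh θ p).range * Nat.card (nh θ p).ker *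
        Nat.card ((fx θ).map (nh θ p)) := by
        rw [h1]
        exact Nat.mul_le_mul_right _ (Nat.mul_le_mul_right _ h2)
    _ = Nat.card (nh θ p).ker * (((fx θ).map (nh θ p)).relIndex (nh θ p).range *
        Nat.card ((fx θ).map (nh θ p))) := by ring
    _ = Nat.card (fx θ) * Nat.card (grpa_dk θ 1).range := by rw [h3, h4, h7]
    _ ≤ Nat.card (fx θ) * Nat.card W := Nat.mul_le_mul_left _ h9
    _ = Nat.card (fx θ ⊓ tp A p : Subgroup A) * Nat.card W *
        Nat.card ((fx θ).map (nh θ p)) := by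
        rw [h5]
        ring

theorem gi2 {A : Type} [CommGroup A] [Finite A] {p : ℕ} (hp : p.Prime) (θ : A ≃* A)
    (hθ : ∀ a, (θ ^ p : MulAut A) a = a) (h : ¬ tp A p ≤ (nh θ p).ker ⊔ fx θ) :
    p * (p - 1) * Nat.card (fx θ ⊓ tp A p : Subgroup A) ≤ Nat.card (tp A p) := by
  obtain ⟨v, hv, hvB⟩ := SetLike.not_le_iff_exists.1 h
  have mem_tp : ∀ x : A, x ∈ tp A p ↔ x ^ p = 1 := by
    intro x
    show x ∈ (powMonoidHom p : A →* A).ker ↔ _
    rw [MonoidHom.mem_ker, powMonoidHom_apply]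
  have hvp : v ^ p = 1 := (mem_tp v).1 hv
  obtain ⟨t, ht⟩ : ∃ t, t = grpa_dk θ 1 := ⟨_, rfl⟩
  have htker : t.ker = fx θ := by
    rw [ht]
    exact grpa_dk_ker hp θ hθ 1 (fun h => hp.one_lt.ne' (Nat.dvd_one.1 h))
  have htfix : ∀ x, θ x = x → t x = 1 := by
    intro x hx
    rw [← MonoidHom.mem_ker, htker]
    exact hx
  obtain ⟨w, hw⟩ : ∃ w, w = nh θ p v := ⟨_, rfl⟩
  have hwt : w = t^[p - 1] v := by
    rw [hw, ht]
    exact grpc_N hp θ v hvp
  have hw1 : w ≠ 1 := by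
    intro h1
    apply hvB
    apply Subgroup.mem_sup_left
    rw [MonoidHom.mem_ker, ← hw, h1]
  have hwp : w ^ p = 1 := by rw [hw, ← map_pow, hvp, map_one]
  have htw : t w = 1 := htfix w (by rw [hw]; exact gi_nfix θ hθ v)
  have hp2 : 2 ≤ p := hp.two_le
  have htpstab : ∀ x ∈ tp A p, t x ∈ tp A p := by
    intro x hx
    rw [mem_tp] at hx ⊢
    rw [← map_pow, hx, map_one]
  have e1 : p - 1 = (p - 2) + 1 := by omega
  have hmap : p ^ (p - 1) ≤ Nat.card ((tp A p).map t) := by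
    have hc := grpc_chain hp t (p - 2) ((tp A p).map t) (t v) (by
      rintro x ⟨y, hy, rfl⟩
      exact ⟨t y, htpstab y hy, rfl⟩) ⟨v, hv, rfl⟩
      (by rw [← Function.iterate_succ_apply, Nat.succ_eq_add_one, ← e1, ← hwt]; exact hw1)
      (by rw [← Function.iterate_succ_apply, Nat.succ_eq_add_one, ← e1, ← hwt]; exact hwp)
      (by rw [← Function.iterate_succ_apply, Function.iterate_succ_apply', ← e1, ← hwt]; exact htw)
    rw [← e1] at hc
    exact hc
  have hstep2 : p ^ (p - 1) * Nat.card (fx θ ⊓ tp A p : Subgroup A) ≤ Nat.card (tp A p) := by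
    rw [grpc_card_map t (tp A p), htker, inf_comm, mul_comm]
    exact Nat.mul_le_mul_left _ hmap
  have hpp : p * (p - 1) ≤ p ^ (p - 1) := by
    rw [e1, pow_succ, mul_comm p]
    apply Nat.mul_le_mul_right
    have h2 : p - 2 < p ^ (p - 2) := Nat.lt_pow_self hp.one_lt
    omega
  exact (Nat.mul_le_mul_right _ hpp).trans hstep2

end H77.AB
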