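import Pool.Agent.H77.AB.GCa
import Pool.Agent.H77.AB.GCg
import Pool.Agent.H77.AB.GI

/-!
# [H77 AB GHD] the numerical hypothesis of H1X, 120-180 lines (finite group theory, counting)

Notation: `N = nh θ p`, `F = fx θ`, `V = tp A p`, `k₁ = #(F ⊓ V)`, `I` = the image of `ker N` under `a ↦ toAdd (τ (j a))` (a subspace of `F_p^d`), `D` a subspace, `D^ = {a ∈ V : τ (j a) ∈ D}`, `r_D = #{i : χ (g i) = 1, τ (g i) ∈ D}`, `n_x = #{i : χ (g i) ≠ 1}`. Claim: `(p-1) h₀ #(ann D) #(I ∩ D) + r_D ≤ N₀`, where `h₀ #W = #{a ∈ ker N : τ (j a) = 1}`.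

Proof. (1) `#(ann D) #D = p^d` (`dt` is a perfect pairing; e.g. `ann D` is the kernel of `F_p^d → Dual D`, which is surjective; or `Subspace.finrank_add_finrank_dualAnnihilator_eq`) and `#(I ∩ D) #(I ⊔ D) = #I #D`. Let `ρ = [F_p^d : I ⊔ D] = p^d / #(I ⊔ D)`: so `#(ann D) #(I ∩ D) = #I ρ`. `#ker N = #I #{a ∈ ker N : τ (j a) = 1} = #I h₀ #W`. So `(p-1) h₀ #(ann D) #(I ∩ D) #W = (p-1) #ker N ρ`, and by `gca` `n_x #W = (p-1) #ker N`.
So with `h := h₀ #I` (`#ker N = h #W`): the first summand is `(p-1) h ρ` and `n_x = (p-1) h`. `N₀ = n_x + r_⊤` (`D = ⊤`: all `i` with `χ (g i) = 1`).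
(2) `gcg` for `D` and for `⊤`: `p r_D + p = #D^ + (p-1) k₁`, `p r_⊤ + p = #V + (p-1) k₁`. So the claim (multiplied by `p`) is: `p(p-1) h ρ + #D^ ≤ p(p-1) h + #V`.
(3) Let `X^ = {a ∈ V : τ (j a) ∈ I ⊔ D} ⊇ D^`. `V → F_p^d / (I ⊔ D)` is surjective, because the `τ (j a)`, `a ∈ ker N` or `a ∈ V`, generate `F_p^d` (`hcl`): `[V : X^] = ρ`, so `ρ #D^ ≤ #V`. `V ∩ (ker N ⊔ F) ≤ X^` (`τ (j f) = 1` for `f ∈ F`), so `ρ ≤ ρ₀ := (ker N ⊔ F).relIndex V`.
(4) `ρ = 1`: `D^ ⊆ V`. `ρ ≥ 2`: then `ρ₀ ≥ 2`, so `V` is not contained in `ker N ⊔ F`; `gi1`: `ρ₀ #ker N ≤ k₁ #W`, so `ρ₀ h ≤ k₁`, `ρ h ≤ k₁`; `gi2`: `p(p-1) k₁ ≤ #V`. So with `x = p(p-1) h`: `ρ x ≤ #V`, `ρ #D^ ≤ #V`, hence `(ρ-1) x + #D^ ≤ (ρ-1) #V/ρ + #V/ρ = #V`.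
-/

set_option autoImplicit false

open scoped Classical

noncomputable section

namespace H77.AB

open H38.TD

theorem ghd_natCard {p d : ℕ} (hp : p.Prime) (D : Submodule (ZMod p) (Fin d → ZMod p)) :
    Nat.card D = p ^ Module.finrank (ZMod p) D := by
  have := Fact.mk hp
  have h := Module.natCard_eq_pow_finrank (K := ZMod p) (V := D)
  rwa [Nat.card_zmod] at h

theorem ghd_ann {p d : ℕ} (hp : p.Prime) (D : Submodule (ZMod p) (Fin d → ZMod p)) :
    Module.finrank (ZMod p) D + Module.finrank (ZMod p) (ann D) = d := by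
  have := Fact.mk hp
  have h1 : ann D = (Submodule.dualAnnihilator D).comap
      (dotProductEquiv (ZMod p) (Fin d)).toLinearMap := by
    ext θ
    rw [Submodule.mem_comap, Submodule.mem_dualAnnihilator]
    rfl
  have h2 : Module.finrank (ZMod p) (ann D) =
      Module.finrank (ZMod p) (Submodule.dualAnnihilator D) := by
    rw [h1, Submodule.comap_equiv_eq_map_symm]
    exact LinearEquiv.finrank_map_eq (dotProductEquiv (ZMod p) (Fin d)).symm _
  rw [h2, Subspace.finrank_add_finrank_dualAnnihilator_eq, Module.finrank_fin_fun]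

theorem ghd_card_map {A B : Type} [CommGroup A] [Group B] [Finite A] (t : A →* B)
    (W : Subgroup A) : Nat.card W = Nat.card (W ⊓ t.ker : Subgroup A) * Nat.card (W.map t) := by
  rw [← Subgroup.relIndex_ker]
  have h1 := Subgroup.card_mul_index (t.ker.subgroupOf W)
  rw [← h1]
  congr 1
  rw [← Subgroup.inf_subgroupOf_left]
  exact Nat.card_congr (Subgroup.subgroupOfEquivOfLe inf_le_left).toEquiv

theorem ghd_arith {p h ρ dd vv : ℕ} (hρ : 1 ≤ ρ) (h1 : ρ * dd ≤ vv)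
    (h2 : 2 ≤ ρ → p * (p - 1) * (ρ * h) ≤ vv) :
    p * (p - 1) * (h * ρ) + dd ≤ p * (p - 1) * h + vv := by
  obtain ⟨c, hc⟩ : ∃ c, c = p * (p - 1) := ⟨_, rfl⟩
  rw [← hc] at h2 ⊢
  obtain ⟨r, rfl⟩ : ∃ r, ρ = r + 1 := ⟨ρ - 1, by omega⟩
  rcases Nat.eq_zero_or_pos r with h0 | h0
  · subst h0
    simp only [zero_add, one_mul, mul_one] at *
    omega
  · have h3 := h2 (by omega)
    have h4 : (r + 1) * (c * (h * (r + 1)) + dd) ≤ (r + 1) * (c * h + vv) := by
      nlinarith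
    exact Nat.le_of_mul_le_mul_left h4 (by omega)

theorem ghd {A G : Type} [CommGroup A] [Finite A] [Group G] [Finite G] {p : ℕ} (hp : p.Prime)
    [NeZero p] (hA : IsPGroup p A) (ax : AX p A G) {N₀ d : ℕ} (g : Fin N₀ → G)
    (pow : ∀ i, g i ^ p = 1) (ne : ∀ i, g i ≠ 1) (uni : ∀ i j, IsConj (g i) (g j) → i = j)
    (all : ∀ h : G, h ≠ 1 → h ^ p = 1 → ∃ i, IsConj h (g i))
    (τ : G →* Multiplicative (Fin d → ZMod p)) (hs : τ ax.s = 1)
    (hw : ∀ w ∈ ax.W, τ (ax.j w) = 1) (hf : ∀ a : A, ax.θ a = a → τ (ax.j a) = 1)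
    (hcl : Subgroup.closure {v | ∃ a : A, (nh ax.θ p a = 1 ∨ a ^ p = 1) ∧ τ (ax.j a) = v} = ⊤) :
    ∃ (h₀ : ℕ) (I : Submodule (ZMod p) (Fin d → ZMod p)),
      (∀ i, ax.χ (g i) ≠ 1 → Multiplicative.toAdd (τ (g i)) ∈ I) ∧
      (∀ (j : ZMod p) (b : Fin d → ZMod p),
        (Finset.univ.filter fun i : Fin N₀ => ax.χ (g i) ≠ 1 ∧
          Multiplicative.toAdd (ax.χ (g i)) = j ∧ Multiplicative.toAdd (τ (g i)) = b).card ≤ h₀) ∧
      ∀ D : Submodule (ZMod p) (Fin d → ZMod p),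
        (p - 1) * h₀ * Nat.card (ann D) *
            Nat.card (I ⊓ D : Submodule (ZMod p) (Fin d → ZMod p)) +
          (Finset.univ.filter fun i : Fin N₀ => ax.χ (g i) = 1 ∧
            Multiplicative.toAdd (τ (g i)) ∈ D).card ≤ N₀ := by
  have hF := Fact.mk hp
  obtain ⟨f, hfd⟩ : ∃ f : A →* Multiplicative (Fin d → ZMod p), f = τ.comp ax.j := ⟨_, rfl⟩
  have hfa : ∀ a, f a = τ (ax.j a) := fun a => by rw [hfd]; rfl
  obtain ⟨I, hI⟩ : ∃ I : Submodule (ZMod p) (Fin d → ZMod p),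
      I = AddSubgroup.toZModSubmodule p (Subgroup.toAddSubgroup' ((nh ax.θ p).ker.map f)) :=
    ⟨_, rfl⟩
  have hImem : ∀ v, v ∈ I ↔ Multiplicative.ofAdd v ∈ (nh ax.θ p).ker.map f := by
    intro v
    rw [hI]
    rfl
  have hIcard : Nat.card I = Nat.card ((nh ax.θ p).ker.map f) :=
    Nat.card_congr (Equiv.subtypeEquiv Multiplicative.ofAdd hImem)
  obtain ⟨h₀, g1, g2, g3⟩ := gca hp hA ax g pow ne uni all τ hs hw
  have hWpos : 0 < Nat.card ax.W := Nat.card_pos
  -- the kernel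
  have hK1 : Nat.card {a : A // nh ax.θ p a = 1 ∧ τ (ax.j a) = 1} =
      Nat.card ((nh ax.θ p).ker ⊓ f.ker : Subgroup A) := by
    refine Nat.card_congr (Equiv.subtypeEquiv (Equiv.refl A) fun a => ?_)
    rw [Subgroup.mem_inf, MonoidHom.mem_ker, MonoidHom.mem_ker, hfa]
    rfl
  have hkerN : Nat.card (nh ax.θ p).ker = h₀ * Nat.card I * Nat.card ax.W := by
    rw [ghd_card_map f (nh ax.θ p).ker, ← hK1, ← g1, ← hIcard]
    ring
  have hnx : (Finset.univ.filter fun i : Fin N₀ => ax.χ (g i) ≠ 1).card =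
      (p - 1) * (h₀ * Nat.card I) := by
    refine Nat.eq_of_mul_eq_mul_right hWpos ?_
    rw [g3, hkerN]
    ring
  refine ⟨h₀, I, ?_, g2, ?_⟩
  · intro i hi
    obtain ⟨a, k, hak⟩ := ax.tor (g i) (pow i)
    have hχ : ax.χ (g i) = Multiplicative.ofAdd (k : ZMod p) := by
      rw [hak, map_mul, ax.χj, one_mul, map_pow, ax.χs, ← ofAdd_nsmul, nsmul_eq_mul, mul_one]
    have hk : ¬ p ∣ k := by
      intro hd
      apply hi
      rw [hχ, (ZMod.natCast_eq_zero_iff k p).2 hd]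
      rfl
    have h1 := gwb_pow hp ax a k hk
    rw [← hak, pow i] at h1
    have h2 : nh ax.θ p a = 1 := by
      apply ax.jinj
      rw [← h1, map_one]
    rw [hImem]
    refine ⟨a, h2, ?_⟩
    rw [hfa, hak, map_mul, map_pow, hs, one_pow, mul_one]
    rfl
  · intro D
    have hD := gcg hp ax g pow ne uni all τ hf D
    have hT := gcg hp ax g pow ne uni all τ hf ⊤
    obtain ⟨k₁, hk₁⟩ : ∃ k₁, k₁ = Nat.card (fx ax.θ ⊓ tp A p : Subgroup A) := ⟨_, rfl⟩
    rw [← hk₁] at hD hT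
    obtain ⟨dd, hdd⟩ : ∃ dd, dd = Nat.card {a : A // a ^ p = 1 ∧
      Multiplicative.toAdd (τ (ax.j a)) ∈ D} := ⟨_, rfl⟩
    rw [← hdd] at hD
    have hVc : Nat.card {a : A // a ^ p = 1 ∧ Multiplicative.toAdd (τ (ax.j a)) ∈
        (⊤ : Submodule (ZMod p) (Fin d → ZMod p))} = Nat.card (tp A p) := by
      refine Nat.card_congr (Equiv.subtypeEquiv (Equiv.refl A) fun a => ?_)
      constructor
      · intro h
        exact h.1
      · intro h
        exact ⟨h, Submodule.mem_top⟩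
    rw [hVc] at hT
    obtain ⟨vv, hvv⟩ : ∃ vv, vv = Nat.card (tp A p) := ⟨_, rfl⟩
    rw [← hvv] at hT
    have hrT : (Finset.univ.filter fun i : Fin N₀ => ax.χ (g i) = 1 ∧
        Multiplicative.toAdd (τ (g i)) ∈ (⊤ : Submodule (ZMod p) (Fin d → ZMod p))) =
        Finset.univ.filter fun i : Fin N₀ => ax.χ (g i) = 1 := by
      refine Finset.filter_congr fun i _ => ?_
      simp only [Submodule.mem_top, and_true]
    rw [hrT] at hT
    have hN : (Finset.univ.filter fun i : Fin N₀ => ax.χ (g i) = 1).card +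
        (Finset.univ.filter fun i : Fin N₀ => ax.χ (g i) ≠ 1).card = N₀ := by
      rw [Finset.card_filter_add_card_filter_not, Finset.card_univ, Fintype.card_fin]
    rw [hnx] at hN
    obtain ⟨rT, hrTd⟩ : ∃ rT, rT = (Finset.univ.filter fun i : Fin N₀ => ax.χ (g i) = 1).card :=
      ⟨_, rfl⟩
    rw [← hrTd] at hN hT
    obtain ⟨rD, hrDd⟩ : ∃ rD, rD = (Finset.univ.filter fun i : Fin N₀ => ax.χ (g i) = 1 ∧
            Multiplicative.toAdd (τ (g i)) ∈ D).card := ⟨_, rfl⟩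
    rw [← hrDd] at hD ⊢
    -- dimensions
    obtain ⟨σ, hσ⟩ : ∃ σ, σ = Module.finrank (ZMod p) (I ⊔ D : Submodule (ZMod p) (Fin d → ZMod p)) :=
      ⟨_, rfl⟩
    have hσd : σ ≤ d := by
      rw [hσ]
      have := Submodule.finrank_le (I ⊔ D : Submodule (ZMod p) (Fin d → ZMod p))
      rwa [Module.finrank_fin_fun] at this
    have hdim : Nat.card (ann D) * Nat.card (I ⊓ D : Submodule (ZMod p) (Fin d → ZMod p)) =
        Nat.card I * p ^ (d - σ) := by
      rw [ghd_natCard hp, ghd_natCard hp, ghd_natCard hp, ← pow_add, ← pow_add]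
      congr 1
      have h1 := ghd_ann hp D
      have h2 := Submodule.finrank_sup_add_finrank_inf_eq I D
      omega
    obtain ⟨ρ, hρ⟩ : ∃ ρ, ρ = p ^ (d - σ) := ⟨_, rfl⟩
    rw [← hρ] at hdim
    have hρ1 : 1 ≤ ρ := by
      rw [hρ]
      exact Nat.one_le_pow _ _ hp.pos
    -- the subgroup of F_p^d
    obtain ⟨S, hS⟩ : ∃ S : Subgroup (Multiplicative (Fin d → ZMod p)),
        S = AddSubgroup.toSubgroup (I ⊔ D : Submodule (ZMod p) (Fin d → ZMod p)).toAddSubgroup :=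
      ⟨_, rfl⟩
    have hSmem : ∀ x, x ∈ S ↔ Multiplicative.toAdd x ∈ I ⊔ D := by
      intro x
      rw [hS]
      rfl
    have hScard : Nat.card S = p ^ σ := by
      rw [hσ, ← ghd_natCard hp]
      exact Nat.card_congr (Equiv.subtypeEquiv Multiplicative.toAdd hSmem)
    have hSidx : S.index = ρ := by
      have h1 := Subgroup.card_mul_index S
      have h2 : Nat.card (Multiplicative (Fin d → ZMod p)) = p ^ d := by
        rw [Nat.card_congr Multiplicative.toAdd, Nat.card_fun, Nat.card_zmod, Nat.card_fin]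
      rw [h2, hScard] at h1
      have h3 : p ^ d = p ^ σ * p ^ (d - σ) := by
        rw [← pow_add]
        congr 1
        omega
      rw [h3] at h1
      rw [hρ]
      exact Nat.eq_of_mul_eq_mul_left (pow_pos hp.pos σ) h1
    have hsup : S ⊔ (tp A p).map f = ⊤ := by
      rw [eq_top_iff, ← hcl, Subgroup.closure_le]
      rintro v ⟨a, ha, rfl⟩
      rcases ha with ha | ha
      · refine Subgroup.mem_sup_left ?_
        rw [hSmem]
        refine Submodule.mem_sup_left ?_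
        rw [hImem]
        exact ⟨a, ha, hfa a⟩
      · refine Subgroup.mem_sup_right ?_
        exact ⟨a, ha, hfa a⟩
    have hrel : (S.comap f).relIndex (tp A p) = ρ := by
      rw [Subgroup.relIndex_comap, ← Subgroup.relIndex_sup_left, hsup, Subgroup.relIndex_top_right,
        hSidx]
    have hle : (nh ax.θ p).ker ⊔ fx ax.θ ≤ S.comap f := by
      refine sup_le ?_ ?_
      · intro a ha
        rw [Subgroup.mem_comap, hSmem]
        refine Submodule.mem_sup_left ?_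
        rw [hImem]
        exact ⟨a, ha, rfl⟩
      · intro a ha
        rw [Subgroup.mem_comap, hSmem, hfa, hf a ha]
        exact Submodule.zero_mem _
    have hρ₀ : ρ ≤ ((nh ax.θ p).ker ⊔ fx ax.θ).relIndex (tp A p) := by
      rw [← hrel]
      refine Nat.le_of_dvd ?_ (Subgroup.relIndex_dvd_of_le_left _ hle)
      exact Nat.pos_of_ne_zero Subgroup.index_ne_zero_of_finite
    have hb1 : ρ * dd ≤ vv := by
      have h1 := Subgroup.card_mul_index ((S.comap f).subgroupOf (tp A p))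
      change _ * (S.comap f).relIndex (tp A p) = _ at h1
      rw [hrel, ← hvv] at h1
      rw [← h1, mul_comm]
      refine Nat.mul_le_mul_right _ ?_
      rw [hdd]
      refine Nat.card_le_card_of_injective
        (fun a => (⟨⟨a.1, a.2.1⟩, ?_⟩ : (S.comap f).subgroupOf (tp A p))) ?_
      · rw [Subgroup.mem_subgroupOf, Subgroup.mem_comap, hSmem, hfa]
        exact Submodule.mem_sup_right a.2.2
      · intro a b hab
        apply Subtype.ext
        exact congrArg (fun c => (c.1.1 : A)) hab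
    have hb2 : 2 ≤ ρ → p * (p - 1) * (ρ * (h₀ * Nat.card I)) ≤ vv := by
      intro h2
      have hnle : ¬ tp A p ≤ (nh ax.θ p).ker ⊔ fx ax.θ := by
        intro hc
        rw [Subgroup.relIndex_eq_one.2 hc] at hρ₀
        omega
      have hθ := gwb_tp ax
      have h3 := gi1 hp ax.θ hθ ax.W (gwb_J ax)
      have h4 := gi2 hp ax.θ hθ hnle
      rw [← hk₁] at h3 h4
      rw [← hvv] at h4
      refine le_trans (Nat.mul_le_mul_left _ ?_) h4
      have h5 : ρ * (h₀ * Nat.card I) * Nat.card ax.W ≤ k₁ * Nat.card ax.W := by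
        calc ρ * (h₀ * Nat.card I) * Nat.card ax.W = ρ * Nat.card (nh ax.θ p).ker := by
              rw [hkerN]
              ring
          _ ≤ ((nh ax.θ p).ker ⊔ fx ax.θ).relIndex (tp A p) * Nat.card (nh ax.θ p).ker :=
              Nat.mul_le_mul_right _ hρ₀
          _ ≤ _ := h3
      exact Nat.le_of_mul_le_mul_right h5 hWpos
    have hfin := ghd_arith hρ1 hb1 hb2
    obtain ⟨hh, hhd⟩ : ∃ hh, hh = h₀ * Nat.card I := ⟨_, rfl⟩
    rw [← hhd] at hfin hN
    have e1 : (p - 1) * h₀ * Nat.card (ann D) *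
            Nat.card (I ⊓ D : Submodule (ZMod p) (Fin d → ZMod p)) = (p - 1) * (hh * ρ) := by
      rw [hhd, mul_assoc _ (Nat.card (ann D)), hdim]
      ring
    rw [e1, ← hN]
    refine Nat.le_of_mul_le_mul_left ?_ hp.pos
    have e2 : p * ((p - 1) * (hh * ρ) + rD) = p * (p - 1) * (hh * ρ) + p * rD := by ring
    have e3 : p * (rT + (p - 1) * hh) = p * (p - 1) * hh + p * rT := by ring
    rw [e2, e3]
    omega

end H77.AB
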