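import Mathlib

/-!
# [H77 AB GV] coordinates of an elementary abelian group with a subgroup, 60-110 lines

`Q` a finite commutative group of exponent `p`, `B ≤ Q`. There are homomorphisms `f : Q → F_p^d`, `h : Q → F_p^M` such that `(f, h)` is bijective, `h` is trivial on `B`, `f` maps `B` onto `F_p^d`, `#Q = p^(d+M)`, `#B = p^d`.

Proof. `Additive Q` is a `ZMod p`-module (`AddCommGroup.zmodModule`, from `p • q = 0`), finite dimensional; `B` gives a submodule `B'` (`AddSubgroup.toZModSubmodule`); let `C` be a complement (`Submodule.exists_isCompl`), `d = finrank B'`, `M = finrank C`, choose bases (`Module.finBasis`, `Module.Basis.equivFun`), and the projections (`Submodule.linearProjOfIsCompl` or `Submodule.prodEquivOfIsCompl`).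
`f`, `h` are the additive maps turned into homomorphisms to `Multiplicative (Fin d → ZMod p)` (`AddMonoidHom.toMultiplicative''` or written by hand). Cardinalities: `Module.card_eq_pow_finrank`, `ZMod.card`, `Submodule.finrank_add_eq_of_isCompl`.
-/

set_option autoImplicit false

open scoped Classical

noncomputable section

namespace H77.AB

theorem gv_add {V : Type} [AddCommGroup V] [Finite V] {p : ℕ} [Module (ZMod p) V] (hp : p.Prime)
    (B : AddSubgroup V) :
    ∃ (d M : ℕ) (f : V →+ (Fin d → ZMod p)) (h : V →+ (Fin M → ZMod p)),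
      Nat.card V = p ^ (d + M) ∧ Nat.card B = p ^ d ∧ (∀ q, f q = 0 → h q = 0 → q = 0) ∧
      (∀ (x : Fin d → ZMod p) (y : Fin M → ZMod p), ∃ q, f q = x ∧ h q = y) ∧
      (∀ b ∈ B, h b = 0) ∧ ∀ x : Fin d → ZMod p, ∃ b ∈ B, f b = x := by
  haveI : Fact p.Prime := ⟨hp⟩
  haveI : Module.Finite (ZMod p) V := Module.Finite.of_finite
  let B' : Submodule (ZMod p) V := AddSubgroup.toZModSubmodule p B
  have hB' : ∀ q : V, q ∈ B' ↔ q ∈ B := fun q => AddSubgroup.mem_toZModSubmodule p
  obtain ⟨C, hC⟩ := Submodule.exists_isCompl B'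
  let E := Submodule.prodEquivOfIsCompl B' C hC
  let bB := (Module.finBasis (ZMod p) B').equivFun
  let bC := (Module.finBasis (ZMod p) C).equivFun
  let f : V →ₗ[ZMod p] (Fin (Module.finrank (ZMod p) B') → ZMod p) :=
    (bB.toLinearMap.comp (LinearMap.fst (ZMod p) B' C)).comp E.symm.toLinearMap
  let h : V →ₗ[ZMod p] (Fin (Module.finrank (ZMod p) C) → ZMod p) :=
    (bC.toLinearMap.comp (LinearMap.snd (ZMod p) B' C)).comp E.symm.toLinearMap
  have hf : ∀ q, f q = bB (E.symm q).1 := fun q => rfl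
  have hh : ∀ q, h q = bC (E.symm q).2 := fun q => rfl
  refine ⟨Module.finrank (ZMod p) B', Module.finrank (ZMod p) C, f.toAddMonoidHom,
    h.toAddMonoidHom, ?_, ?_, ?_, ?_, ?_, ?_⟩
  · rw [Module.natCard_eq_pow_finrank (K := ZMod p) (V := V), Nat.card_zmod,
      Submodule.finrank_add_eq_of_isCompl hC]
  · have h1 : Nat.card B = Nat.card B' :=
      Nat.card_congr (Equiv.subtypeEquivRight fun q => (hB' q).symm)
    rw [h1, Module.natCard_eq_pow_finrank (K := ZMod p), Nat.card_zmod]
  · intro q h1 h2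
    have e1 : bB (E.symm q).1 = 0 := h1
    have e2 : bC (E.symm q).2 = 0 := h2
    have e3 := (LinearEquiv.map_eq_zero_iff bB).1 e1
    have e4 := (LinearEquiv.map_eq_zero_iff bC).1 e2
    have e5 : E.symm q = 0 := Prod.ext e3 e4
    exact (LinearEquiv.map_eq_zero_iff E.symm).1 e5
  · intro x y
    refine ⟨E (bB.symm x, bC.symm y), ?_, ?_⟩
    · change f _ = x
      rw [hf, E.symm_apply_apply]
      exact bB.apply_symm_apply x
    · change h _ = y
      rw [hh, E.symm_apply_apply]
      exact bC.apply_symm_apply y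
  · intro q hq
    change h q = 0
    rw [hh]
    have e1 : E.symm q = (⟨q, (hB' q).2 hq⟩, 0) :=
      Submodule.prodEquivOfIsCompl_symm_apply_left B' C hC ⟨q, (hB' q).2 hq⟩
    rw [e1]
    exact map_zero bC
  · intro x
    refine ⟨(bB.symm x : B'), (hB' _).1 (bB.symm x).2, ?_⟩
    change f _ = x
    rw [hf]
    have e1 : E.symm (bB.symm x : B') = (bB.symm x, 0) :=
      Submodule.prodEquivOfIsCompl_symm_apply_left B' C hC (bB.symm x)
    rw [e1]
    exact bB.apply_symm_apply x

theorem gv {Q : Type} [CommGroup Q] [Finite Q] {p : ℕ} (hp : p.Prime) (hQ : ∀ q : Q, q ^ p = 1)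
    (B : Subgroup Q) :
    ∃ (d M : ℕ) (f : Q →* Multiplicative (Fin d → ZMod p))
      (h : Q →* Multiplicative (Fin M → ZMod p)),
      Nat.card Q = p ^ (d + M) ∧ Nat.card B = p ^ d ∧ (∀ q, f q = 1 → h q = 1 → q = 1) ∧
      (∀ (x : Multiplicative (Fin d → ZMod p)) (y : Multiplicative (Fin M → ZMod p)),
        ∃ q, f q = x ∧ h q = y) ∧
      (∀ b ∈ B, h b = 1) ∧ ∀ x : Multiplicative (Fin d → ZMod p), ∃ b ∈ B, f b = x := by
  have hV : ∀ x : Additive Q, p • x = 0 := by
    intro x
    have h := hQ x.toMul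
    exact congrArg Additive.ofMul h
  obtain ⟨d, M, f, h, h1, h2, h3, h4, h5, h6⟩ := @gv_add (Additive Q) _ _ p
    (AddCommGroup.zmodModule hV) hp (Subgroup.toAddSubgroup B)
  let f' : Q →* Multiplicative (Fin d → ZMod p) :=
    { toFun := fun q => Multiplicative.ofAdd (f (Additive.ofMul q))
      map_one' := congrArg Multiplicative.ofAdd (map_zero f)
      map_mul' := fun x y => congrArg Multiplicative.ofAdd
        (map_add f (Additive.ofMul x) (Additive.ofMul y)) }
  let h' : Q →* Multiplicative (Fin M → ZMod p) :=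
    { toFun := fun q => Multiplicative.ofAdd (h (Additive.ofMul q))
      map_one' := congrArg Multiplicative.ofAdd (map_zero h)
      map_mul' := fun x y => congrArg Multiplicative.ofAdd
        (map_add h (Additive.ofMul x) (Additive.ofMul y)) }
  refine ⟨d, M, f', h', ?_, ?_, ?_, ?_, ?_, ?_⟩
  · rw [← h1]
    exact Nat.card_congr Additive.ofMul
  · rw [← h2]
    exact Nat.card_congr (Equiv.subtypeEquiv Additive.ofMul fun q => Iff.rfl)
  · intro q e1 e2
    exact h3 (Additive.ofMul q) e1 e2
  · intro x y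
    obtain ⟨q, e1, e2⟩ := h4 x.toAdd y.toAdd
    exact ⟨q.toMul, e1, e2⟩
  · intro b hb
    exact h5 (Additive.ofMul b) hb
  · intro x
    obtain ⟨b, hb, e1⟩ := h6 x.toAdd
    exact ⟨b.toMul, hb, e1⟩

end H77.AB
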