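import Pool.Agent.H77.AB.GWb
import Pool.Agent.H77.AB.GV

/-!
# [H77 AB GTA] the homomorphisms τ and ψ, 180-260 lines (finite group theory)

`ax : AX p A G`, `A` a finite `p`-group, `W = ax.W`, `J a = θ a * a⁻¹` (a homomorphism `A → A`), `V₂ := J(W) ≤ W` (`gwb_th`). Facts in `GWb`.

Proof. (1) `Q := W ⧸ V₂` (as a quotient of `↥W`) has exponent `p`: `N w = 1` for `w ∈ W` (`gwb_N`) and `N w = ∏_{k<p} θ^k w ≡ w^p` modulo `V₂` (`θ^k w * w⁻¹ ∈ V₂`).
(2) `τ₀ : G → Q`: for `g ∈ G` let `k = (χ g).val`, `m = s^{-k} g ∈ ker χ`, `τ₀ g` = the class of the `w ∈ W` with `j w = [s, m] = s m s⁻¹ m⁻¹` (exists by `ax.com` and is in `W` by definition; unique by `jinj`). It is a homomorphism: for `g = s^k m`, `g' = s^{k'} m'`: `g g' = s^{k+k'} (s^{-k'} m s^{k'}) m'` and modulo `s^p = 1` (the exponent `(k + k') mod p`): `[s, m₁ m₂] = [s, m₁] · m₁ [s, m₂] m₁⁻¹ = [s, m₁][s, m₂]` for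
`m₁, m₂ ∈ ker χ` (`ax.cj`), and `[s, s^{-k'} m s^{k'}] = s^{-k'} [s, m] s^{k'} ≡ [s, m]` modulo `j(V₂)` (`θ w ≡ w`). (Alternatively: `τ₀ g` = class of `[s, g]`, which is in `j(W)`: `[s, s^k m] = s^k [s, m] s^{-k}`, `[s, g g'] = [s,g] g [s,g'] g⁻¹ ≡ [s,g][s,g']` modulo `j(V₂)` because `g j(w) g⁻¹ = j(θ^k w) ≡ j w` by `gwb_act`. This is shorter.)
It is surjective (definition of `W`), `τ₀ s = 1`, `τ₀ (j w) = class of J w = 1` for `w ∈ W`; `τ₀ (j a) = class of J a`, trivial if `θ a = a`.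
(3) Commutators: if `F, t ∈ G`, `t^p = 1`, `F t = t F`, then `τ₀(F)^{χ t} = τ₀(t)^{χ F}`: write `t = j a s^i` (`ax.tor`), `F = s^f m`. In `G` modulo `j(V₂)` (normal by `gwb_act`): `j(A)` modulo `j(V₂)`… compute `1 = [F, t] = F t F⁻¹ t⁻¹`: `F j(a) F⁻¹ = j(θ^f a) = j(a) j(x)` with `x = θ^f a * a⁻¹ ≡ (J a)^f` modulo `V₂` (`θ^f a * a⁻¹ = ∏_{k<f} θ^k (J a)`, `J a ∈ W` by `gwb_J`, `θ ≡ 1` on `W` modulo `V₂`), and
`F s^i F⁻¹ s^{-i} = s^f [m, s^i] s^{-f}`, `[m, s^i] = [s^i, m]⁻¹`, `[s^i, m] = ∏_{k<i} s^k [s, m] s^{-k} ≡ [s,m]^i`. So `1 = [F, t] ≡ j((J a)^f) * [s, m]^{-i}` modulo `j(V₂)`, i.e. `τ₀(j a)^f = τ₀(m)^i`, and `τ₀ t = τ₀(j a)`, `τ₀ F = τ₀ m`, `f ≡ χ F`, `i ≡ χ t` modulo `p` (exponent `p`).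
(4) `gv` for `Q` and `B` = the subgroup generated by the `τ₀ g`, `g^p = 1`: `f : Q → F_p^d`, `h : Q → F_p^M`. `τ = f ∘ τ₀`, `ψ = h ∘ τ₀` (surjective). `ψ g = 1` for `g^p = 1` (`τ₀ g ∈ B`). The closure statement: `f(B) = F_p^d`, `B` is generated by the `τ₀ g`, `g^p = 1`, `g = j a s^k`, `τ₀ g = τ₀ (j a)`, with `N a = 1` if `¬ p ∣ k` (`gwb_pow`, `jinj`), and `a^p = 1` if `p ∣ k` (`s^k = 1`).
`#W = #Q #V₂ = p^{d+M} #V₂`; `V₂` is a `p`-group: `#V₂ = p^l`; `JS s (W.map j)` is the image of `V₂` under `j` (the generating set is `j(V₂)`, a subgroup). The last statement is (3) in coordinates (additively `χ t * τ F k = χ F * τ t k`, the same for `ψ`; `ψ t = 1`, so `χ t * ψ F j = 0`, and `χ t ≠ 1` gives `ψ F = 1`, `ZMod p` is a field).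
-/

set_option autoImplicit false

open scoped Classical

noncomputable section

namespace H77.AB

open H38.TD

/-- `a ↦ θ a * a⁻¹` -/
def gtaJ {A : Type} [CommGroup A] (θ : A ≃* A) : A →* A where
  toFun a := θ a * a⁻¹
  map_one' := by simp
  map_mul' a b := by
    rw [map_mul, mul_inv, mul_mul_mul_comm]

theorem gtaJ_apply {A : Type} [CommGroup A] (θ : A ≃* A) (a : A) : gtaJ θ a = θ a * a⁻¹ := rfl

section

variable {A G : Type} [CommGroup A] [Group G] {p : ℕ}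

/-- the group `J(W)` -/
def gtaV (ax : AX p A G) : Subgroup A := ax.W.map (gtaJ ax.θ)

theorem gtaV_mem (ax : AX p A G) {w : A} (hw : w ∈ ax.W) : ax.θ w * w⁻¹ ∈ gtaV ax :=
  ⟨w, hw, rfl⟩

theorem gtaV_le (ax : AX p A G) : gtaV ax ≤ ax.W := by
  rintro _ ⟨w, _, rfl⟩
  exact gwb_J ax w

theorem gta_th_pow (ax : AX p A G) {w : A} (hw : w ∈ ax.W) (k : ℕ) :
    (ax.θ ^ k : MulAut A) w ∈ ax.W := by
  induction k with
  | zero => simpa using hw
  | succ k ih =>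
    rw [pow_succ', MulAut.mul_apply]
    exact gwb_th ax _ ih

theorem gta_th_sub (ax : AX p A G) {w : A} (hw : w ∈ ax.W) (k : ℕ) :
    (ax.θ ^ k : MulAut A) w * w⁻¹ ∈ gtaV ax := by
  induction k with
  | zero =>
    rw [pow_zero, MulAut.one_apply, mul_inv_cancel]
    exact one_mem _
  | succ k ih =>
    have h1 := gtaV_mem ax (gta_th_pow ax hw k)
    have h2 := mul_mem h1 ih
    rw [pow_succ', MulAut.mul_apply]
    have h3 : ax.θ ((ax.θ ^ k : MulAut A) w) * ((ax.θ ^ k : MulAut A) w)⁻¹ *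
        ((ax.θ ^ k : MulAut A) w * w⁻¹) = ax.θ ((ax.θ ^ k : MulAut A) w) * w⁻¹ := by group
    rwa [h3] at h2

/-- the quotient `W / J(W)` -/
abbrev gtaQ (ax : AX p A G) : Type := ax.W ⧸ ((gtaV ax).subgroupOf ax.W)

/-- the projection -/
def gtaK (ax : AX p A G) : ax.W →* gtaQ ax := QuotientGroup.mk' _

theorem gtaK_eq (ax : AX p A G) (w w' : ax.W) :
    gtaK ax w = gtaK ax w' ↔ (w : A) * (w' : A)⁻¹ ∈ gtaV ax := by
  rw [gtaK, QuotientGroup.mk'_eq_mk']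
  constructor
  · rintro ⟨z, hz, h⟩
    rw [Subgroup.mem_subgroupOf] at hz
    have h1 : (w' : A) = (w : A) * (z : A) := by rw [← h]; rfl
    rw [h1, mul_inv, mul_inv_cancel_left]
    exact inv_mem hz
  · intro h
    refine ⟨w⁻¹ * w', ?_, by group⟩
    rw [Subgroup.mem_subgroupOf]
    have h1 := inv_mem h
    have h2 : ((w : A) * (w' : A)⁻¹)⁻¹ = ((w⁻¹ * w' : ax.W) : A) := by
      rw [mul_inv, inv_inv]
      rfl
    rwa [h2] at h1

theorem gtaK_surj (ax : AX p A G) : Function.Surjective (gtaK ax) :=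
  QuotientGroup.mk'_surjective _

theorem gtaK_th (ax : AX p A G) (w : ax.W) (k : ℕ) :
    gtaK ax ⟨(ax.θ ^ k : MulAut A) w, gta_th_pow ax w.2 k⟩ = gtaK ax w := by
  rw [gtaK_eq]
  exact gta_th_sub ax w.2 k

/-- `∏ θ^k w` -/
theorem gtaK_prod (ax : AX p A G) (w : ax.W) (n : ℕ)
    (h : ∏ k ∈ Finset.range n, (ax.θ ^ k : MulAut A) (w : A) ∈ ax.W) :
    gtaK ax ⟨∏ k ∈ Finset.range n, (ax.θ ^ k : MulAut A) (w : A), h⟩ = gtaK ax w ^ n := by
  have h1 : (⟨∏ k ∈ Finset.range n, (ax.θ ^ k : MulAut A) (w : A), h⟩ : ax.W) =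
      ∏ k ∈ Finset.range n, (⟨(ax.θ ^ k : MulAut A) w, gta_th_pow ax w.2 k⟩ : ax.W) := by
    apply Subtype.ext
    rw [Subgroup.val_finsetProd]
  rw [h1, map_prod, Finset.prod_congr rfl fun k _ => gtaK_th ax w k, Finset.prod_const,
    Finset.card_range]

theorem gta_prod_mem (ax : AX p A G) {w : A} (hw : w ∈ ax.W) (n : ℕ) :
    ∏ k ∈ Finset.range n, (ax.θ ^ k : MulAut A) w ∈ ax.W :=
  Subgroup.prod_mem _ fun k _ => gta_th_pow ax hw k

theorem gtaQ_pow (ax : AX p A G) (q : gtaQ ax) : q ^ p = 1 := by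
  obtain ⟨w, rfl⟩ := gtaK_surj ax q
  rw [← gtaK_prod ax w p (gta_prod_mem ax w.2 p)]
  have h1 : ∏ k ∈ Finset.range p, (ax.θ ^ k : MulAut A) (w : A) = 1 := gwb_N ax w.2
  have h2 : (⟨∏ k ∈ Finset.range p, (ax.θ ^ k : MulAut A) (w : A),
      gta_prod_mem ax w.2 p⟩ : ax.W) = 1 := Subtype.ext h1
  rw [h2, map_one]

theorem gta_cm (ax : AX p A G) [NeZero p] (g : G) :
    ∃ w : ax.W, ax.s * g * ax.s⁻¹ * g⁻¹ = ax.j w := by
  obtain ⟨k, hk⟩ : ∃ k : ℕ, ax.χ (ax.s ^ k) = ax.χ g := by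
    refine ⟨(Multiplicative.toAdd (ax.χ g)).val, ?_⟩
    rw [map_pow, ax.χs, ← ofAdd_nsmul, nsmul_eq_mul, mul_one, ZMod.natCast_zmod_val]
    rfl
  have hm : ax.χ ((ax.s ^ k)⁻¹ * g) = 1 := by
    rw [map_mul, map_inv, hk, inv_mul_cancel]
  obtain ⟨w, hw⟩ := ax.com _ hm
  have hwW : w ∈ ax.W := ⟨_, hm, hw⟩
  refine ⟨⟨(ax.θ ^ k : MulAut A) w, gta_th_pow ax hwW k⟩, ?_⟩
  have hsk : ∀ (k : ℕ) (a : A), ax.s ^ k * ax.j a * (ax.s ^ k)⁻¹ =
      ax.j ((ax.θ ^ k : MulAut A) a) := by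
    intro k a
    induction k with
    | zero => simp
    | succ k ih =>
      rw [pow_succ', pow_succ', MulAut.mul_apply, ← ax.cs, ← ih]
      group
  rw [← hsk k w, ← hw]
  group

/-- the commutator with `s` -/
def gtaC (ax : AX p A G) [NeZero p] (g : G) : ax.W := (gta_cm ax g).choose

theorem gtaC_spec (ax : AX p A G) [NeZero p] (g : G) :
    ax.s * g * ax.s⁻¹ * g⁻¹ = ax.j (gtaC ax g) := (gta_cm ax g).choose_spec

theorem gtaC_eq (ax : AX p A G) [NeZero p] (g : G) (w : ax.W)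
    (h : ax.s * g * ax.s⁻¹ * g⁻¹ = ax.j w) : gtaC ax g = w := by
  apply Subtype.ext
  apply ax.jinj
  rw [← h, gtaC_spec]

/-- the homomorphism `τ₀` -/
def gtaT (ax : AX p A G) [NeZero p] : G →* gtaQ ax where
  toFun g := gtaK ax (gtaC ax g)
  map_one' := by
    rw [gtaC_eq ax 1 1 (by rw [Subgroup.coe_one, map_one]; group), map_one]
  map_mul' g g' := by
    have h1 : gtaC ax (g * g') = gtaC ax g *
        ⟨(ax.θ ^ (Multiplicative.toAdd (ax.χ g)).val : MulAut A) (gtaC ax g'),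
          gta_th_pow ax (gtaC ax g').2 _⟩ := by
      apply gtaC_eq
      have h2 := gwb_act ax g (gtaC ax g' : A)
      rw [Subgroup.coe_mul, map_mul, ← h2, ← gtaC_spec, ← gtaC_spec]
      group
    rw [h1, map_mul, gtaK_th]

theorem gtaT_apply (ax : AX p A G) [NeZero p] (g : G) : gtaT ax g = gtaK ax (gtaC ax g) := rfl

theorem gtaT_s (ax : AX p A G) [NeZero p] : gtaT ax ax.s = 1 := by
  rw [gtaT_apply, gtaC_eq ax ax.s 1 (by rw [Subgroup.coe_one, map_one]; group), map_one]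

theorem gtaT_j (ax : AX p A G) [NeZero p] (a : A) :
    gtaT ax (ax.j a) = gtaK ax ⟨ax.θ a * a⁻¹, gwb_J ax a⟩ := by
  rw [gtaT_apply, gtaC_eq ax (ax.j a) ⟨ax.θ a * a⁻¹, gwb_J ax a⟩ (by
    rw [ax.cs, ← map_inv, ← map_mul])]

theorem gtaT_surj (ax : AX p A G) [NeZero p] : Function.Surjective (gtaT ax) := by
  intro q
  obtain ⟨w, rfl⟩ := gtaK_surj ax q
  obtain ⟨m, _, hm⟩ := w.2
  exact ⟨m, by rw [gtaT_apply, gtaC_eq ax m w hm]⟩

theorem gta_tel {A : Type} [CommGroup A] (θ : A ≃* A) (a : A) (n : ℕ) :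
    (θ ^ n : MulAut A) a * a⁻¹ = ∏ k ∈ Finset.range n, (θ ^ k : MulAut A) (θ a * a⁻¹) := by
  induction n with
  | zero => simp
  | succ n ih =>
    rw [Finset.prod_range_succ, ← ih, map_mul, map_inv, ← MulAut.mul_apply, ← pow_succ]
    rw [mul_comm ((θ ^ n : MulAut A) a * a⁻¹), mul_assoc]
    congr 1
    rw [inv_mul_cancel_left]

theorem gta_pw (ax : AX p A G) (x : A) (n : ℕ) :
    (ax.j x * ax.s) ^ n = ax.j (∏ k ∈ Finset.range n, (ax.θ ^ k : MulAut A) x) * ax.s ^ n := by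
  have hsk : ∀ (k : ℕ) (a : A), ax.s ^ k * ax.j a =
      ax.j ((ax.θ ^ k : MulAut A) a) * ax.s ^ k := by
    intro k a
    induction k with
    | zero => simp
    | succ k ih =>
      have h1 : ax.s * ax.j ((ax.θ ^ k : MulAut A) a) =
          ax.j (ax.θ ((ax.θ ^ k : MulAut A) a)) * ax.s := by
        rw [← ax.cs, inv_mul_cancel_right]
      rw [pow_succ', mul_assoc, ih, ← mul_assoc, h1, pow_succ', MulAut.mul_apply, mul_assoc]
  induction n with
  | zero => simp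
  | succ n ih =>
    rw [pow_succ, ih, Finset.prod_range_succ, map_mul, pow_succ]
    calc ax.j (∏ k ∈ Finset.range n, (ax.θ ^ k : MulAut A) x) * ax.s ^ n * (ax.j x * ax.s)
        = ax.j (∏ k ∈ Finset.range n, (ax.θ ^ k : MulAut A) x) * (ax.s ^ n * ax.j x) * ax.s := by
          group
      _ = _ := by rw [hsk]; group

/-- the relation for commuting elements -/
theorem gta_rel (ax : AX p A G) [NeZero p] (F : G) (a : A) (i : ℕ)
    (hF : F * (ax.j a * ax.s ^ i) = ax.j a * ax.s ^ i * F) :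
    gtaT ax (ax.j a) ^ (Multiplicative.toAdd (ax.χ F)).val = gtaT ax F ^ i := by
  obtain ⟨n, hn⟩ : ∃ n, n = (Multiplicative.toAdd (ax.χ F)).val := ⟨_, rfl⟩
  rw [← hn]
  obtain ⟨u, hu⟩ : ∃ u : ax.W, u = gtaC ax F := ⟨_, rfl⟩
  have h1 : F * ax.s * F⁻¹ = ax.j ((u : A)⁻¹) * ax.s := by
    have h2 := gtaC_spec ax F
    rw [← hu] at h2
    rw [map_inv, ← h2]
    group
  have h3 : F * ax.s ^ i * F⁻¹ = ax.j (∏ k ∈ Finset.range i,
      (ax.θ ^ k : MulAut A) ((u : A)⁻¹)) * ax.s ^ i := by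
    rw [← gta_pw, ← h1, conj_pow]
  have h4 : F * ax.j a * F⁻¹ = ax.j ((ax.θ ^ n : MulAut A) a) := by
    rw [hn]
    exact gwb_act ax F a
  have h5 : (F * ax.j a * F⁻¹) * (F * ax.s ^ i * F⁻¹) = ax.j a * ax.s ^ i := by
    have h6 : (F * ax.j a * F⁻¹) * (F * ax.s ^ i * F⁻¹) =
        F * (ax.j a * ax.s ^ i) * F⁻¹ := by group
    rw [h6, hF]
    group
  rw [h4, h3, ← mul_assoc] at h5
  have h7 := mul_right_cancel h5
  rw [← map_mul] at h7
  have h8 := ax.jinj h7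
  have h9 : ∏ k ∈ Finset.range n, (ax.θ ^ k : MulAut A) (ax.θ a * a⁻¹) =
      ∏ k ∈ Finset.range i, (ax.θ ^ k : MulAut A) (u : A) := by
    rw [← gta_tel]
    have h10 : ∏ k ∈ Finset.range i, (ax.θ ^ k : MulAut A) ((u : A)⁻¹) =
        (∏ k ∈ Finset.range i, (ax.θ ^ k : MulAut A) (u : A))⁻¹ := by
      rw [← Finset.prod_inv_distrib]
      exact Finset.prod_congr rfl fun k _ => map_inv _ _
    rw [h10, mul_inv_eq_iff_eq_mul] at h8
    rw [h8, mul_comm a, mul_inv_cancel_right]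
  have h12 := gtaK_prod ax ⟨ax.θ a * a⁻¹, gwb_J ax a⟩ n (gta_prod_mem ax (gwb_J ax a) n)
  have h13 := gtaK_prod ax u i (gta_prod_mem ax u.2 i)
  rw [gtaT_j, gtaT_apply, ← hu, ← h12, ← h13]
  congr 1
  exact Subtype.ext h9

end

theorem gta {A G : Type} [CommGroup A] [Finite A] [Group G] [Finite G] {p : ℕ} (hp : p.Prime)
    [NeZero p] (hA : IsPGroup p A) (ax : AX p A G) :
    ∃ (d M l : ℕ) (τ : G →* Multiplicative (Fin d → ZMod p))
      (ψ : G →* Multiplicative (Fin M → ZMod p)), Function.Surjective ψ ∧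
      (∀ g : G, g ^ p = 1 → ψ g = 1) ∧ τ ax.s = 1 ∧ (∀ w ∈ ax.W, τ (ax.j w) = 1) ∧
      (∀ a : A, ax.θ a = a → τ (ax.j a) = 1) ∧
      Subgroup.closure {v | ∃ a : A, (nh ax.θ p a = 1 ∨ a ^ p = 1) ∧ τ (ax.j a) = v} = ⊤ ∧
      Nat.card ax.W = p ^ (d + M + l) ∧ Nat.card (JS ax.s (ax.W.map ax.j)) = p ^ l ∧
      ∀ F t : G, t ^ p = 1 → F * t = t * F →
        (∀ k, Multiplicative.toAdd (ax.χ t) * Multiplicative.toAdd (τ F) k =
          Multiplicative.toAdd (ax.χ F) * Multiplicative.toAdd (τ t) k) ∧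
        (ax.χ t ≠ 1 → ψ F = 1) := by
  have : Fact p.Prime := ⟨hp⟩
  obtain ⟨T, hT⟩ : ∃ T, T = gtaT ax := ⟨_, rfl⟩
  obtain ⟨d, M, f, h, hcQ, -, -, hfh, hhB, hfB⟩ := gv (Q := gtaQ ax) hp (gtaQ_pow ax)
    (Subgroup.closure {q | ∃ g : G, g ^ p = 1 ∧ gtaT ax g = q})
  obtain ⟨l, hl⟩ := (IsPGroup.iff_card (p := p) (G := gtaV ax)).mp (hA.to_subgroup _)
  refine ⟨d, M, l, f.comp (gtaT ax), h.comp (gtaT ax), ?_, ?_, ?_, ?_, ?_, ?_, ?_, ?_, ?_⟩
  · intro y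
    obtain ⟨q, -, hq⟩ := hfh 1 y
    obtain ⟨g, rfl⟩ := gtaT_surj ax q
    exact ⟨g, hq⟩
  · intro g hg
    exact hhB _ (Subgroup.subset_closure ⟨g, hg, rfl⟩)
  · rw [MonoidHom.comp_apply, gtaT_s, map_one]
  · intro w hw
    have h1 : gtaT ax (ax.j w) = 1 := by
      rw [gtaT_j, ← map_one (gtaK ax), gtaK_eq, Subgroup.coe_one, inv_one, mul_one]
      exact gtaV_mem ax hw
    rw [MonoidHom.comp_apply, h1, map_one]
  · intro a ha
    have h1 : gtaT ax (ax.j a) = 1 := by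
      rw [gtaT_j, ← map_one (gtaK ax), gtaK_eq, Subgroup.coe_one, inv_one, mul_one]
      show ax.θ a * a⁻¹ ∈ gtaV ax
      rw [ha, mul_inv_cancel]
      exact one_mem _
    rw [MonoidHom.comp_apply, h1, map_one]
  · rw [eq_top_iff]
    intro x _
    obtain ⟨b, hb, rfl⟩ := hfB x
    have h1 : f b ∈ (Subgroup.closure {q | ∃ g : G, g ^ p = 1 ∧ gtaT ax g = q}).map f :=
      ⟨b, hb, rfl⟩
    rw [MonoidHom.map_closure] at h1
    refine Subgroup.closure_mono ?_ h1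
    rintro _ ⟨_, ⟨g, hg, rfl⟩, rfl⟩
    obtain ⟨a, k, rfl⟩ := ax.tor g hg
    refine ⟨a, ?_, ?_⟩
    · by_cases hk : p ∣ k
      · right
        obtain ⟨r, rfl⟩ := hk
        rw [pow_mul, ax.sp, one_pow, mul_one, ← map_pow] at hg
        exact ax.jinj (by rw [hg, map_one])
      · left
        rw [gwb_pow hp ax a k hk] at hg
        exact ax.jinj (by rw [hg, map_one])
    · rw [MonoidHom.comp_apply]
      congr 1
      rw [map_mul, map_pow, gtaT_s, one_pow, mul_one]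
  · have h1 := Subgroup.card_eq_card_quotient_mul_card_subgroup ((gtaV ax).subgroupOf ax.W)
    have h2 : Nat.card ((gtaV ax).subgroupOf ax.W) = Nat.card (gtaV ax) :=
      Nat.card_congr (Subgroup.subgroupOfEquivOfLe (gtaV_le ax)).toEquiv
    rw [h1, h2, hl]
    have h3 : Nat.card (ax.W ⧸ ((gtaV ax).subgroupOf ax.W)) = p ^ (d + M) := hcQ
    rw [h3, ← pow_add]
  · have h1 : JS ax.s (ax.W.map ax.j) = (gtaV ax).map ax.j := by
      unfold JS
      have h2 : {w | ∃ v ∈ ax.W.map ax.j, w = ax.s * v * ax.s⁻¹ * v⁻¹} =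
          (((gtaV ax).map ax.j : Subgroup G) : Set G) := by
        ext w
        constructor
        · rintro ⟨_, ⟨v, hv, rfl⟩, rfl⟩
          refine ⟨ax.θ v * v⁻¹, gtaV_mem ax hv, ?_⟩
          rw [ax.cs, ← map_inv, ← map_mul]
        · rintro ⟨_, ⟨v, hv, rfl⟩, rfl⟩
          refine ⟨ax.j v, ⟨v, hv, rfl⟩, ?_⟩
          rw [ax.cs, ← map_inv, ← map_mul]
          rfl
      rw [h2, Subgroup.closure_eq]
    rw [h1, ← hl]
    exact (Nat.card_congr ((gtaV ax).equivMapOfInjective ax.j ax.jinj).toEquiv).symm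
  · intro F t ht hFt
    obtain ⟨a, i, rfl⟩ := ax.tor t ht
    have h1 := gta_rel ax F a i hFt
    have hχ : ax.χ (ax.j a * ax.s ^ i) = Multiplicative.ofAdd ((i : ℕ) : ZMod p) := by
      rw [map_mul, ax.χj, one_mul, map_pow, ax.χs, ← ofAdd_nsmul, nsmul_eq_mul, mul_one]
    have ht0 : gtaT ax (ax.j a * ax.s ^ i) = gtaT ax (ax.j a) := by
      rw [map_mul, map_pow, gtaT_s, one_pow, mul_one]
    have hcast : (((Multiplicative.toAdd (ax.χ F)).val : ℕ) : ZMod p) =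
        Multiplicative.toAdd (ax.χ F) := ZMod.natCast_zmod_val _
    constructor
    · intro k
      rw [MonoidHom.comp_apply, MonoidHom.comp_apply, ht0, hχ, toAdd_ofAdd, ← hcast]
      have h2 := congrArg f h1
      rw [map_pow, map_pow] at h2
      have h3 := congrFun (congrArg Multiplicative.toAdd h2) k
      rw [toAdd_pow, toAdd_pow, Pi.smul_apply, Pi.smul_apply, nsmul_eq_mul, nsmul_eq_mul] at h3
      exact h3.symm
    · intro hne
      rw [MonoidHom.comp_apply]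
      have h2 := congrArg h h1
      have h4 : h (gtaT ax (ax.j a)) = 1 := by
        rw [← ht0]
        exact hhB _ (Subgroup.subset_closure ⟨_, ht, rfl⟩)
      rw [map_pow, map_pow, h4, one_pow] at h2
      have h5 : Multiplicative.toAdd (h (gtaT ax F)) = 0 := by
        funext k
        have h3 := congrFun (congrArg Multiplicative.toAdd h2) k
        rw [toAdd_pow, Pi.smul_apply, nsmul_eq_mul, toAdd_one, Pi.zero_apply] at h3
        have h6 : ((i : ℕ) : ZMod p) ≠ 0 := by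
          intro h7
          apply hne
          rw [hχ, h7]
          rfl
        rcases mul_eq_zero.mp h3.symm with h8 | h8
        · exact absurd h8 h6
        · exact h8
      exact h5

end H77.AB
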