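import Pool.Agent.H77.AB.H1X
import Pool.Agent.H77.AB.GTa
import Pool.Agent.H77.AB.GHd

/-!
# [H77 AB GXX] the group data in the case of an element of order p outside M, 120-180 lines (assembly)

`ax : AX p A G`, `A` a nontrivial finite `p`-group, `g : Fin N₀ → G` representatives of the classes of the elements `h ≠ 1`, `h^p = 1`. There is `Dg : GX p d M l N₀ G` (ADat) with `Dg.g = g`, a central class, and (H1).

Proof. `d, M, l, τ, ψ` from `gta`. `χ = ax.χ` (surjective: `χ s = ofAdd 1`); `isx = {i : χ (g i) ≠ 1}`; `cen = {i : i ∉ isx, g i commutes with all elements}`; `W = ax.W.map ax.j`, `s = ax.s`. Fields: `wn`: `h j(w) h⁻¹ = j (θ^k w)`, `gwb_act`, `gwb_th`. `wc`: `A` is commutative. `wχ`: `ax.χj`. `act`: `gwb_act` (both sides are `j (θ^k w)`, `s^k j(w) s^{-k} = j (θ^k w)` by `ax.cs`). `nm`: `gwb_N`: the product over `List.range p` of `j (θ^k w)` is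
`j (nh θ p w)` (`nh θ p w = ∏_{k<p} θ^k w`; `List.prod_map_hom`, `Finset.prod_range` / `List.prod_range_…`). `cls`: `g i = j a s^k` with `¬ p ∣ k` (`ax.tor`, `χ (g i) ≠ 1`), `gwb_cls` (`IsConj` symmetric). `rel`: the last statement of `gta` (`t^p = 1` because `t` is conjugate to `g i`; `χ t = χ (g i) ≠ 1`). `pz`: `gta`. `rc`: `g i` is central, in `j(A)` (`χ (g i) = 1`, `ax.tor`): `g i = j a`, `θ a = a`, so `τ (g i) = 1`;
`IsConj h (g i)` implies `h = g i`. `rnc`: `g i = j a`; the class is `{j (θ^k a) : k < p}`, at most `p` elements; if `F` commutes with `t = j (θ^k a)` and `χ F ≠ 1`, then `θ^f` fixes `θ^k a`, `f = (χ F).val`, `¬ p ∣ f`, so `θ a = a` (`grpa_fix_of_pow` in H38/TD/Grp1, `gwb_tp`), and `g i` commutes with `s` and `ker χ`, so with all of `G`; contradiction. `cW`, `cJ`: `gta` (`Nat.card (W.map j) = Nat.card W` by `jinj`).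
Central class: `θ` acts on the nontrivial finite `p`-group `tp A p` (`A ≠ 1` is a `p`-group, Cauchy) through a group of order `p` (or `1`), so there is `a ≠ 1`, `a^p = 1`, `θ a = a` (number of fixed points divisible by `p`: `IsPGroup.card_modEq_card_fixedPoints`; or: take `a ≠ 1` in `tp A p` and the largest `k` with `t^k a ≠ 1`, `t a = θ a / a`, `t^p a = 1` by `grpc_N`-like arguments). `j a` is central; it is conjugate to some `g i₀`, so `g i₀ = j a`, `i₀ ∈ cen`.
`#{i ∉ isx} + 1 ≤ N₀`: `s ≠ 1`, `s^p = 1` is conjugate to some `g i`, `i ∈ isx`. (H1): `h1X` for `Dg.xc` (`xc.a i = toAdd (χ (g i))`, `xc.t i = toAdd (τ (g i))`) with `h₀`, `I` from `ghd`; `hD` is the last statement of `ghd` for `D` = the span (`i ∉ isx` iff `χ (g i) = 1`), `hc` from `rc`.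
-/

set_option autoImplicit false

open scoped Classical

noncomputable section

namespace H77.AB

open H38.TD H38.BB

private theorem gxx_it {A : Type} [CommGroup A] (θ : A ≃* A) (k : ℕ) (a : A) :
    (θ ^ (k + 1) : MulAut A) a = θ ((θ ^ k : MulAut A) a) := by
  rw [pow_succ', MulAut.mul_apply]

private theorem gxx_sj {A G : Type} [CommGroup A] [Group G] {p : ℕ} (ax : AX p A G) (k : ℕ)
    (a : A) : ax.s ^ k * ax.j a * (ax.s ^ k)⁻¹ = ax.j ((ax.θ ^ k : MulAut A) a) := by
  induction k with
  | zero => simp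
  | succ k ih =>
    rw [gxx_it, ← ax.cs, ← ih, pow_succ', mul_inv_rev]
    simp only [mul_assoc]

private theorem gxx_wth {A G : Type} [CommGroup A] [Group G] {p : ℕ} (ax : AX p A G) (k : ℕ)
    (w : A) (hw : w ∈ ax.W) : (ax.θ ^ k : MulAut A) w ∈ ax.W := by
  induction k with
  | zero => simpa using hw
  | succ k ih =>
    rw [gxx_it]
    exact gwb_th ax _ ih

private theorem gxx_surj {A G : Type} [CommGroup A] [Group G] {p : ℕ} [NeZero p]
    (ax : AX p A G) : Function.Surjective ax.χ := by
  intro x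
  refine ⟨ax.s ^ (Multiplicative.toAdd x).val, ?_⟩
  rw [map_pow, ax.χs]
  apply Multiplicative.toAdd.injective
  rw [toAdd_pow, toAdd_ofAdd, nsmul_eq_mul, mul_one, ZMod.natCast_zmod_val]

private theorem gxx_chi {A G : Type} [CommGroup A] [Group G] {p : ℕ} (ax : AX p A G) (a : A)
    (k : ℕ) : ax.χ (ax.j a * ax.s ^ k) = 1 ↔ p ∣ k := by
  rw [map_mul, ax.χj, one_mul, map_pow, ax.χs, ← ZMod.natCast_eq_zero_iff]
  constructor
  · intro h
    have h1 := congrArg Multiplicative.toAdd h
    rw [toAdd_pow, toAdd_ofAdd, nsmul_eq_mul, mul_one, toAdd_one] at h1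
    exact h1
  · intro h
    apply Multiplicative.toAdd.injective
    rw [toAdd_pow, toAdd_ofAdd, nsmul_eq_mul, mul_one, toAdd_one]
    exact h

private theorem gxx_inner {A G : Type} [CommGroup A] [Group G] {p : ℕ} (ax : AX p A G) {g : G}
    (hg : g ^ p = 1) (h : ax.χ g = 1) : ∃ a, g = ax.j a := by
  obtain ⟨a, k, hk⟩ := ax.tor g hg
  rw [hk, gxx_chi] at h
  obtain ⟨c, rfl⟩ := h
  refine ⟨a, ?_⟩
  rw [hk, pow_mul, ax.sp, one_pow, mul_one]

private theorem gxx_conj {A G : Type} [CommGroup A] [Group G] {p : ℕ} [NeZero p]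
    (ax : AX p A G) {h : G} {a : A} (hc : IsConj h (ax.j a)) :
    ∃ k : ZMod p, h = ax.j ((ax.θ ^ k.val : MulAut A) a) := by
  obtain ⟨c, hc⟩ := isConj_iff.1 hc
  refine ⟨Multiplicative.toAdd (ax.χ c⁻¹), ?_⟩
  rw [← gwb_act ax c⁻¹ a, ← hc]
  group

private theorem gxx_fix {A : Type} [CommGroup A] [Finite A] [Nontrivial A] {p : ℕ}
    (hp : p.Prime) (hA : IsPGroup p A) (θ : A ≃* A) (hθ : ∀ a, (θ ^ p : MulAut A) a = a) :
    ∃ a : A, a ≠ 1 ∧ a ^ p = 1 ∧ θ a = a := by
  haveI : Fact p.Prime := ⟨hp⟩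
  have hθp : (θ : MulAut A) ^ p = 1 := by
    ext a
    exact hθ a
  have hH : IsPGroup p (Subgroup.zpowers (θ : MulAut A)) := by
    rintro ⟨x, hx⟩
    obtain ⟨n, rfl⟩ := Subgroup.mem_zpowers_iff.1 hx
    refine ⟨1, ?_⟩
    rw [pow_one]
    apply Subtype.ext
    change ((θ : MulAut A) ^ n) ^ p = 1
    rw [← zpow_natCast, ← zpow_mul, mul_comm, zpow_mul, zpow_natCast, hθp, one_zpow]
  have hdvd : p ∣ Nat.card A := by
    obtain ⟨n, hn⟩ := IsPGroup.iff_card.1 hA
    rw [hn]
    apply dvd_pow_self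
    rintro rfl
    rw [pow_zero] at hn
    have := Finite.one_lt_card (α := A)
    omega
  have h1 : (1 : A) ∈ MulAction.fixedPoints (Subgroup.zpowers (θ : MulAut A)) A := by
    rintro ⟨x, hx⟩
    change x 1 = 1
    exact map_one x
  obtain ⟨b, hb, hb1⟩ := hH.exists_fixed_point_of_prime_dvd_card_of_fixed_point A hdvd h1
  have hθb : θ b = b := hb ⟨θ, Subgroup.mem_zpowers _⟩
  have hord : p ∣ orderOf b := by
    obtain ⟨n, hn⟩ := hA b
    have h2 := orderOf_dvd_of_pow_eq_one hn
    obtain ⟨m, -, hm⟩ := (Nat.dvd_prime_pow hp).1 h2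
    rw [hm]
    apply dvd_pow_self
    rintro rfl
    rw [pow_zero, orderOf_eq_one_iff] at hm
    exact hb1 hm.symm
  obtain ⟨c, hc⟩ := hord
  have hpos := orderOf_pos b
  have hc0 : 0 < c := by
    rcases Nat.eq_zero_or_pos c with h0 | h0
    · rw [h0, mul_zero] at hc
      omega
    · exact h0
  refine ⟨b ^ c, ?_, ?_, ?_⟩
  · intro h0
    have h2 := Nat.le_of_dvd hc0 (orderOf_dvd_of_pow_eq_one h0)
    rw [hc] at h2
    have := hp.two_le
    nlinarith
  · rw [← pow_mul, mul_comm, ← hc, pow_orderOf_eq_one]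
  · rw [map_pow, hθb]

private theorem gxx_lp {A : Type} [CommGroup A] (f : ℕ → A) (n : ℕ) :
    ((List.range n).map f).prod = ∏ k ∈ Finset.range n, f k := by
  induction n with
  | zero => simp
  | succ n ih =>
    rw [List.range_succ, List.map_append, List.prod_append, ih, Finset.prod_range_succ]
    simp

private theorem gxx_cen {A G : Type} [CommGroup A] [Group G] {p : ℕ} [NeZero p]
    (ax : AX p A G) {a : A} (ha : ax.θ a = a) (h : G) : h * ax.j a = ax.j a * h := by
  have h1 := gwb_act ax h a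
  have h2 : ∀ k : ℕ, (ax.θ ^ k : MulAut A) a = a := by
    intro k
    induction k with
    | zero => simp
    | succ k ih => rw [gxx_it, ih, ha]
  rw [h2] at h1
  calc h * ax.j a = h * ax.j a * h⁻¹ * h := by group
    _ = ax.j a * h := by rw [h1]

theorem gxx {A G : Type} [CommGroup A] [Finite A] [Nontrivial A] [Group G] [Finite G] {p : ℕ}
    (hp : p.Prime) [NeZero p] (hA : IsPGroup p A) (ax : AX p A G) {N₀ : ℕ} (g : Fin N₀ → G)
    (pow : ∀ i, g i ^ p = 1) (ne : ∀ i, g i ≠ 1) (uni : ∀ i j, IsConj (g i) (g j) → i = j)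
    (all : ∀ h : G, h ≠ 1 → h ^ p = 1 → ∃ i, IsConj h (g i)) :
    ∃ (d M l : ℕ) (Dg : GX p d M l N₀ G), Dg.g = g ∧ (∃ i₀, i₀ ∈ Dg.cen) ∧
      (Finset.univ.filter fun i => i ∉ Dg.isx).card + 1 ≤ N₀ ∧
      H1 (cX Dg.xc l M) (XsX Dg.xc l M) (((p : ℝ) ^ l)⁻¹) M N₀ := by
  haveI : Fact p.Prime := ⟨hp⟩
  have htp : ∀ a, (ax.θ ^ p : MulAut A) a = a := gwb_tp ax
  obtain ⟨d, M, l, τ, ψ, ψs, hψ, hτs, hτw, hτf, hcl, cW, cJ, hrel⟩ := gta hp hA ax
  obtain ⟨h₀, I, hI, hf, hD⟩ := ghd hp hA ax g pow ne uni all τ hτs hτw hτf hcl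
  have hcenf : ∀ i, ax.χ (g i) = 1 → (∀ h, h * g i = g i * h) →
      ∃ a, g i = ax.j a ∧ ax.θ a = a := by
    intro i hi hc
    obtain ⟨a, ha⟩ := gxx_inner ax (pow i) hi
    refine ⟨a, ha, ax.jinj ?_⟩
    rw [← ax.cs, ← ha, hc, mul_inv_cancel_right]
  have hχ0 : ∀ {x : G}, ax.χ x ≠ 1 → (Multiplicative.toAdd (ax.χ x)) ≠ 0 := by
    intro x hx h0
    apply hx
    apply Multiplicative.toAdd.injective
    rw [h0, toAdd_one]
  let Dg : GX p d M l N₀ G :=
    { χ := ax.χ
      τ := τ
      ψ := ψ
      χs := gxx_surj ax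
      ψs := ψs
      g := g
      pow := pow
      ne := ne
      uni := uni
      isx := Finset.univ.filter fun i => ax.χ (g i) ≠ 1
      cen := Finset.univ.filter fun i => ax.χ (g i) = 1 ∧ ∀ h, h * g i = g i * h
      xne := fun i hi => (Finset.mem_filter.1 hi).2
      rz := fun i hi => by
        by_contra h0
        exact hi (Finset.mem_filter.2 ⟨Finset.mem_univ _, h0⟩)
      pz := fun i => hψ (g i) (pow i)
      W := ax.W.map ax.j
      wn := by
        constructor
        rintro x ⟨w, hw, rfl⟩ h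
        rw [gwb_act ax h w]
        exact ⟨_, gxx_wth ax _ w hw, rfl⟩
      wc := by
        rintro x ⟨a, _, rfl⟩ y ⟨b, _, rfl⟩
        rw [← map_mul, mul_comm, map_mul]
      wχ := by
        rintro x ⟨w, _, rfl⟩
        exact ax.χj w
      s := ax.s
      act := by
        rintro h x ⟨w, _, rfl⟩
        rw [gxx_sj, gwb_act]
      nm := by
        rintro x ⟨w, hw, rfl⟩
        simp only [gxx_sj]
        have h1 : ((List.range p).map fun k => ax.j ((ax.θ ^ k : MulAut A) w)).prod =
            ax.j (nh ax.θ p w) := by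
          have h2 : ((List.range p).map fun k => ax.j ((ax.θ ^ k : MulAut A) w)) =
              ((List.range p).map fun k => (ax.θ ^ k : MulAut A) w).map ax.j := by
            rw [List.map_map]
            rfl
          rw [h2, ← map_list_prod, gxx_lp]
          rfl
        rw [h1, MonoidHom.mem_ker.1 (gwb_N ax hw), map_one]
      cls := by
        intro i hi h hc
        have hi' : ax.χ (g i) ≠ 1 := (Finset.mem_filter.1 hi).2
        obtain ⟨a, k, hk⟩ := ax.tor (g i) (pow i)
        have hpk : ¬ p ∣ k := by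
          intro h0
          apply hi'
          rw [hk, gxx_chi]
          exact h0
        rw [hk] at hc ⊢
        obtain ⟨w, hw, hw'⟩ := (gwb_cls hp hA ax a k hpk h).1 hc.symm
        refine ⟨w, hw, ?_⟩
        rw [hw', mul_inv_cancel_right]
      rel := by
        intro i hi F t hc hFt
        have hi' : ax.χ (g i) ≠ 1 := (Finset.mem_filter.1 hi).2
        obtain ⟨c, hc'⟩ := isConj_iff.1 hc
        have htpw : t ^ p = 1 := by
          have h1 : (c * t * c⁻¹) ^ p = 1 := by
            rw [hc']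
            exact pow i
          rw [conj_pow] at h1
          have h2 : c * t ^ p * c⁻¹ = c * 1 * c⁻¹ := by
            rw [h1]
            group
          exact mul_left_cancel (mul_right_cancel h2)
        have hχt : ax.χ t ≠ 1 := by
          intro h0
          apply hi'
          rw [← hc', map_mul, map_mul, h0, mul_one, map_inv, mul_inv_cancel]
        obtain ⟨h1, h2⟩ := hrel F t htpw hFt
        exact ⟨h2 hχt, h1⟩
      rc := by
        intro i hi
        obtain ⟨hi1, hi2⟩ := (Finset.mem_filter.1 hi).2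
        refine ⟨?_, ?_, ?_⟩
        · intro h0
          exact (Finset.mem_filter.1 h0).2 hi1
        · obtain ⟨a, ha, hθ⟩ := hcenf i hi1 hi2
          rw [ha]
          exact hτf a hθ
        · intro h hc
          obtain ⟨c, hc'⟩ := isConj_iff.1 hc
          have h1 : c * h = g i * c := by
            rw [← hc']
            group
          rw [← hi2 c] at h1
          exact mul_left_cancel h1
      rnc := by
        intro i hi hic
        have hi1 : ax.χ (g i) = 1 := by
          by_contra h0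
          exact hi (Finset.mem_filter.2 ⟨Finset.mem_univ _, h0⟩)
        obtain ⟨a, ha⟩ := gxx_inner ax (pow i) hi1
        constructor
        · have hch : ∀ h : {h : G // IsConj h (g i)}, ∃ k : ZMod p,
              h.1 = ax.j ((ax.θ ^ k.val : MulAut A) a) := by
            rintro ⟨h, hc⟩
            rw [ha] at hc
            exact gxx_conj ax hc
          choose κ hκ using hch
          have hinj : Function.Injective κ := by
            intro x y hxy
            apply Subtype.ext
            rw [hκ x, hκ y, hxy]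
          have h1 := Nat.card_le_card_of_injective κ hinj
          rwa [Nat.card_zmod] at h1
        · intro F t hc hFt
          by_contra hχF
          rw [ha] at hc
          obtain ⟨k, hk⟩ := gxx_conj ax hc
          have h1 := gwb_act ax F ((ax.θ ^ k.val : MulAut A) a)
          rw [← hk, hFt, mul_inv_cancel_right, hk] at h1
          have h2 := ax.jinj h1
          have hndvd : ¬ p ∣ (Multiplicative.toAdd (ax.χ F)).val := by
            intro h0
            have h3 := Nat.eq_zero_of_dvd_of_lt h0 (ZMod.val_lt _)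
            exact hχ0 hχF ((ZMod.val_eq_zero _).1 h3)
          have h3 := grpa_fix_of_pow hp ax.θ _ (htp _) _ hndvd h2.symm
          have h4 : ax.θ a = a := by
            have h5 : (ax.θ ^ k.val : MulAut A) (ax.θ a) = (ax.θ ^ k.val : MulAut A) a := by
              rw [← MulAut.mul_apply, ← pow_succ, gxx_it]
              exact h3
            exact (ax.θ ^ k.val : MulAut A).injective h5
          apply hic
          refine Finset.mem_filter.2 ⟨Finset.mem_univ _, hi1, fun h => ?_⟩
          rw [ha]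
          exact gxx_cen ax h4 h
      cW := by
        rw [← cW]
        exact Nat.card_congr (ax.W.equivMapOfInjective ax.j ax.jinj).toEquiv.symm
      cJ := cJ }
  refine ⟨d, M, l, Dg, rfl, ?_, ?_, ?_⟩
  · obtain ⟨a, ha1, hap, hθa⟩ := gxx_fix hp hA ax.θ htp
    have hja : ax.j a ≠ 1 := by
      intro h0
      apply ha1
      apply ax.jinj
      rw [h0, map_one]
    obtain ⟨i₀, hi₀⟩ := all (ax.j a) hja (by rw [← map_pow, hap, map_one])
    have heq : g i₀ = ax.j a := by
      obtain ⟨c, hc⟩ := isConj_iff.1 hi₀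
      rw [← hc, gxx_cen ax hθa c, mul_inv_cancel_right]
    refine ⟨i₀, Finset.mem_filter.2 ⟨Finset.mem_univ _, ?_, ?_⟩⟩
    · rw [heq]
      exact ax.χj a
    · intro h
      rw [heq]
      exact gxx_cen ax hθa h
  · have hs1 : ax.χ ax.s ≠ 1 := by
      rw [ax.χs]
      intro h0
      have h1 := congrArg Multiplicative.toAdd h0
      rw [toAdd_ofAdd, toAdd_one] at h1
      exact one_ne_zero h1
    have hs0 : ax.s ≠ 1 := by
      intro h0
      apply hs1
      rw [h0, map_one]
    obtain ⟨i, hi⟩ := all ax.s hs0 ax.sp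
    have hix : i ∈ Dg.isx := by
      refine Finset.mem_filter.2 ⟨Finset.mem_univ _, ?_⟩
      obtain ⟨c, hc⟩ := isConj_iff.1 hi
      rw [← hc, map_mul, map_mul, map_inv, mul_comm (ax.χ c), mul_inv_cancel_right]
      exact hs1
    have h1 : (Finset.univ.filter fun i => i ∉ Dg.isx) ⊂ (Finset.univ : Finset (Fin N₀)) := by
      refine Finset.filter_ssubset.2 ⟨i, Finset.mem_univ _, ?_⟩
      exact not_not.2 hix
    have h2 := Finset.card_lt_card h1
    rw [Finset.card_univ, Fintype.card_fin] at h2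
    exact h2
  · refine h1X hp Dg.xc l M h₀ I ?_ ?_ ?_ ?_ ?_
    · intro i hi
      exact hχ0 (Finset.mem_filter.1 hi).2
    · intro i hi
      exact hI i (Finset.mem_filter.1 hi).2
    · intro j b
      refine le_trans (Finset.card_le_card ?_) (hf j b)
      intro i hi
      obtain ⟨hi1, hi2⟩ := Finset.mem_filter.1 hi
      exact Finset.mem_filter.2 ⟨Finset.mem_univ _, (Finset.mem_filter.1 hi1).2, hi2⟩
    · intro i hi
      have h1 := (Dg.rc i hi).2.1
      change Multiplicative.toAdd (Dg.τ (Dg.g i)) = 0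
      rw [h1, toAdd_one]
    · intro R hR
      have h1 := hD (Submodule.span (ZMod p) (Dg.xc.t '' (R : Set (Fin N₀))))
      refine le_trans (Nat.add_le_add_left (Finset.card_le_card ?_) _) h1
      intro i hi
      obtain ⟨_, hi1, hi2⟩ := Finset.mem_filter.1 hi
      exact Finset.mem_filter.2 ⟨Finset.mem_univ _, Dg.rz i hi1, hi2⟩

end H77.AB
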