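import Pool.Agent.H77.AB.ADat
import Pool.Agent.H38.BG.ABet

/-!
# H77-AB-LCL: the classes of the elements of order `p`

* `lcl`: representatives of the classes of the elements `h ≠ 1`, `h ^ p = 1`.
* `lbet`: if these are the elements of least index and `K` contains a primitive `#G`-th root of unity, their number is `betaAll K QBar G`.
-/

set_option autoImplicit false

open scoped NumberField
open IsDedekindDomain H38.ML

noncomputable section

namespace H77.AB

open H63.MA H38.BB

theorem lcl (G : Type) [Group G] [Finite G] (p : ℕ) :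
    ∃ (N₀ : ℕ) (g : Fin N₀ → G), (∀ i, g i ^ p = 1) ∧ (∀ i, g i ≠ 1) ∧
      (∀ i j, IsConj (g i) (g j) → i = j) ∧
      ∀ h : G, h ≠ 1 → h ^ p = 1 → ∃ i, IsConj h (g i) := by
  classical
  let S := {c : ConjClasses G // ∃ h : G, h ≠ 1 ∧ h ^ p = 1 ∧ ConjClasses.mk h = c}
  have hfin : Finite S := inferInstance
  have hft : Fintype S := Fintype.ofFinite S
  have e := Fintype.equivFin S
  choose r hr using fun c : S => c.2
  refine ⟨Fintype.card S, fun i => r (e.symm i), fun i => (hr _).2.1, fun i => (hr _).1, ?_, ?_⟩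
  · intro i j hij
    have h1 : ConjClasses.mk (r (e.symm i)) = ConjClasses.mk (r (e.symm j)) :=
      ConjClasses.mk_eq_mk_iff_isConj.2 hij
    have h2 := ((hr (e.symm i)).2.2).symm.trans (h1.trans (hr (e.symm j)).2.2)
    exact e.symm.injective (Subtype.ext h2)
  · intro h h1 h2
    obtain ⟨c, hc⟩ : ∃ c : S, c.1 = ConjClasses.mk h := ⟨⟨ConjClasses.mk h, h, h1, h2, rfl⟩, rfl⟩
    refine ⟨e c, ?_⟩
    have h4 : e.symm (e c) = c := e.symm_apply_apply c
    have h3 := (hr c).2.2
    rw [hc] at h3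
    show IsConj h (r (e.symm (e c)))
    rw [h4]
    exact (ConjClasses.mk_eq_mk_iff_isConj.1 h3).symm

theorem lbet {n : ℕ} (G : Subgroup (Equiv.Perm (Fin n))) (K : IntermediateField ℚ QBar) (z : K)
    (hz : IsPrimitiveRoot z (Nat.card G)) {N : ℕ} (g : Fin N → G)
    (uni : ∀ i j, IsConj (g i) (g j) → i = j)
    (hI : ∀ h : G, (h ≠ 1 ∧ ind (h : Equiv.Perm (Fin n)) = indG G) ↔ ∃ i, IsConj h (g i)) :
    Spec.betaAll K QBar G = N := by
  have hk : ∀ g h : G, Spec.KConj K QBar G g h ↔ IsConj g h := by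
    intro g h
    have h1 : Spec.KConj K QBar G g h ↔ H38.ML.KConj G K g h := Iff.rfl
    rw [h1, kconj_iff G K z hz g h, isConj_iff]
    constructor
    · rintro ⟨x, hx⟩
      exact ⟨x, hx.symm⟩
    · rintro ⟨x, hx⟩
      exact ⟨x, hx.symm⟩
  have hmem : ∀ i, g i ≠ 1 ∧ Spec.ind ((g i : G) : Equiv.Perm (Fin n)) = Spec.indG G :=
    fun i => (hI (g i)).2 ⟨i, IsConj.refl _⟩
  unfold Spec.betaAll
  have hcard : Nat.card (Fin N) = Nat.card (Quot fun g h : {g : G // g ≠ 1 ∧
      Spec.ind (g : Equiv.Perm (Fin n)) = Spec.indG G} => Spec.KConj K QBar G g.1 h.1) := by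
    refine Nat.card_eq_of_bijective (fun i => Quot.mk _ ⟨g i, hmem i⟩) ⟨?_, ?_⟩
    · intro i j hij
      let P : Quot (fun g h : {g : G // g ≠ 1 ∧
          Spec.ind (g : Equiv.Perm (Fin n)) = Spec.indG G} => Spec.KConj K QBar G g.1 h.1) → Prop :=
        Quot.lift (fun x => IsConj (g i) x.1) (by
          intro x y hxy
          have hxy' : IsConj x.1 y.1 := (hk _ _).1 hxy
          exact propext ⟨fun h => h.trans hxy', fun h => h.trans hxy'.symm⟩)
      have h1 : P (Quot.mk _ ⟨g i, hmem i⟩) := IsConj.refl _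
      have h2 : P (Quot.mk _ ⟨g j, hmem j⟩) := by
        have h3 : P (Quot.mk _ ⟨g i, hmem i⟩) = P (Quot.mk _ ⟨g j, hmem j⟩) :=
          congrArg P hij
        exact h3.mp h1
      exact uni i j h2
    · intro q
      induction q using Quot.ind with
      | mk x =>
        obtain ⟨i, hi⟩ := (hI x.1).1 x.2
        exact ⟨i, Quot.sound ((hk _ _).2 hi.symm)⟩
  rw [← hcard, Nat.card_eq_fintype_card, Fintype.card_fin]

end H77.AB
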