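import Pool.Agent.H77.AB.LDat

/-!
# [H77 AB LKUM] the Kummer data of a surjective homomorphism, 150-220 lines (adaptation of UKum)

`φ : Γ → G` surjective of finite type, `f i` the primes of type `i` (`TyX`), `E` the other ramified primes outside `S0`. There are `b ∈ Bb D U E (d+1)`, `c₂ ∈ Bb D U E M` with `BS2 D b E`, `BS2 D c₂ E`, `Ind p c₂`, `kk (akR D Dg.c0 b f 0) σ = χ (φ σ)`, `akR D Dg.c0 b f 0` not a `p`-th power, and the local conditions `LocC D Dg b c₂ f` (ADat).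

Proof: as `ukum` in Pool/Agent/H63/BU/UKum.lean (copy; `lkum_aux` below is the common part, to be used twice). `lkum_aux`: let `θ : G → F_p^n` be a homomorphism (to `Multiplicative (Fin n → ZMod p)`); there is `b ∈ Bb D U E n` with `BS2 D b E` and `θ (φ σ) k = kk (b k * ∏_i ∏_{w ∈ f i} pi w ^ (θ (g i) k).val) σ`. Its proof is the first half of the proof of `ukum` (with `θ (g i) k` in place of `Dg.cr.x i k`): `σ ↦ θ (φ σ) k` is a character, `= kc (a' k)`; for `v ∉ S0` the order of `a' k` at `v` modulo `p` is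
`θ (φ (t v)) k` (`ld_kk_t`): it is `θ (g i) k` if `v ∈ f i` (conjugate elements have the same image in a commutative group; `v` is in at most one `f i`: `Dg.uni`), `0` if `v` is unramified; `E` and the `f i` are disjoint and outside `S0`. `b k = ε k * ∏_{v ∈ E} pi v ^ (θ (φ (t v)) k).val`, `ε k ∈ U`.
`lkum`: apply `lkum_aux` to `θ = (χ, τ)` (`n = d + 1`, `k = 0` is `χ`: `Fin.cons (toAdd χ) (toAdd τ)`; it is a homomorphism) — then `b k * ∏ … = akR D Dg.c0 b f k` (`Dg.c0.x i = Fin.cons (χ (g i)) (τ (g i))`) — and to `θ = ψ` (`n = M`): `ψ (g i) = 1` (`Dg.pz`), so `(ψ (g i) k).val = 0` and `kk (c₂ j) σ = ψ (φ σ) j`.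
`Ind p c₂`: if `z ≠ 0` and `bp c₂ z = ∏_j c₂ j ^ (z j).val` is a `p`-th power then `∑_j z j ψ (φ σ) j = 0` for all `σ` (`kk_eq_zero_iff`, `kk_prod_arg`, `kk_zpow_arg`, as in `ukum`), but `ψ ∘ φ` is surjective (`Dg.ψs`): `z = 0`. `akR 0` is not a `p`-th power: otherwise `χ (φ σ) = 1` for all `σ` (`kk_eq_zero_iff`), but `χ ∘ φ` is surjective (`Dg.χs`) and `Multiplicative (ZMod p)` has an element `≠ 1`.
`LocC`: let `v ∈ f i`. `tfrob_z` (exponent `p` from `TyX`) for the family `Fin.append (akR D Dg.c0 b f) c₂` (or any indexing) gives `F` with `φ F`, `t = φ (L.t v)` commuting, `kk a F = LL v a` for all these `a`; `IsConj t (g i)`. If `i ∈ isx`: `Dg.rel i _ (φ F) t`: `ψ (φ F) = 1`, so `LL v (c₂ j) = kk (c₂ j) F = ψ (φ F) j = 0`; and `χ(t) τ(φ F) k = χ(φ F) τ(t) k` with `χ t = χ (g i)`, `τ t = τ (g i)`, `τ (φ F) k = kk (akR k.succ) F = LL v (akR k.succ)`, `χ (φ F) = LL v (akR 0)`.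
If `i ∉ isx`, `i ∉ cen`: `Dg.rnc i _ _` gives `χ (φ F) = 1`, so `LL v (akR 0) = 0`.
-/

set_option autoImplicit false

open scoped NumberField
open IsDedekindDomain
open scoped Classical

noncomputable section

namespace H77.AB

open H63.MA H38.BB H38.BG H63.BU

/-- the image of conjugate elements in a commutative group -/
theorem lkum_conj {G H : Type} [Group G] [CommGroup H] (θ : G →* H) {a b : G} (h : IsConj a b) :
    θ a = θ b := by
  have h1 : IsConj (θ a) (θ b) := MonoidHom.map_isConj θ h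
  exact isConj_iff_eq.1 h1

theorem lkum_aux {K : Type} [Field K] [NumberField K] {Ω : Type} [Field Ω] [Algebra K Ω]
    [IsAlgClosure K Ω] {p : ℕ} [NeZero p] {ζ : K} {d M l N₀ : ℕ} {G : Type} [Group G] [Finite G]
    (hp : p.Prime) (hζ : IsPrimitiveRoot ζ p) (D : RD0 K p ζ) (L : LDs D Ω)
    (Dg : GX p d M l N₀ G) (U : Finset Kˣ) (hU : UR D U) (φ : Gal(Ω/K) →* G)
    (hφ : H38.ML.FT φ) (f : Fin N₀ → Finset (Pl K)) (E : Finset (Pl K))
    (hf : ∀ i v, v ∈ f i ↔ TyX Dg L φ i v)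
    (hE : ∀ v, v ∈ E ↔ Rm L φ v ∧ ∀ i, ¬ TyX Dg L φ i v) {n : ℕ}
    (θ : G →* Multiplicative (Fin n → ZMod p)) :
    ∃ b ∈ Bb D U E n, BS2 D b E ∧ ∀ (σ : Gal(Ω/K)) (k : Fin n),
      kk p ζ (b k * ∏ i, ∏ w ∈ f i, D.pi w ^ (Multiplicative.toAdd (θ (Dg.g i)) k).val) σ =
        Multiplicative.toAdd (θ (φ σ)) k := by
  have hpz : (((p : ℕ) : ℤ) : ZMod p) = 0 := by
    rw [Int.cast_natCast, ZMod.natCast_self]
  have hab : ∀ v, v ∉ D.S0 → ¬ Above p v := fun v hv h => hv (D.above v h)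
  -- the characters
  have hch : ∀ k : Fin n, ∃ a' : Kˣ, ∀ σ : Gal(Ω/K),
      kk p ζ a' σ = Multiplicative.toAdd (θ (φ σ)) k := by
    intro k
    let ev : Multiplicative (Fin n → ZMod p) →* Multiplicative (ZMod p) :=
      AddMonoidHom.toMultiplicative (Pi.evalAddMonoidHom (fun _ : Fin n => ZMod p) k)
    obtain ⟨a', ha'⟩ := kc_all hp hζ (ev.comp (θ.comp φ)) (by
      obtain ⟨E, hE, hle⟩ := hφ
      refine ⟨E, hE, fun σ hσ => ?_⟩
      have h1 : φ σ = 1 := hle hσ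
      rw [MonoidHom.mem_ker, MonoidHom.comp_apply, MonoidHom.comp_apply, h1, map_one, map_one])
    refine ⟨a', fun σ => ?_⟩
    unfold kk
    rw [← ha']
    rfl
  choose a' ha' using hch
  -- the orders of the `a' k`
  have hord : ∀ v, v ∉ D.S0 → ∀ k, ((ord v (a' k) : ℤ) : ZMod p) =
      Multiplicative.toAdd (θ (φ (L.t v))) k := by
    intro v hv k
    rw [← ha' k, gupb_t L hv]
    exact (ld_kk_t hp hζ (hab v hv) (D.pi_self v hv) (L.ld v hv) (a' k)).symm
  have hfS : ∀ i, ∀ w ∈ f i, w ∉ D.S0 := fun i w hw => ((hf i w).1 hw).1.1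
  have hES : ∀ w ∈ E, w ∉ D.S0 := fun w hw => ((hE w).1 hw).1.1
  -- the product of the generators
  have hdvd : ∀ k v, v ∉ D.S0 → (p : ℤ) ∣ ord v (a' k *
      ((∏ w : ↥E, D.pi w.1 ^ (Multiplicative.toAdd (θ (φ (L.t w.1))) k).val) *
        ∏ i, ∏ w ∈ f i, D.pi w ^ (Multiplicative.toAdd (θ (Dg.g i)) k).val)⁻¹) := by
    intro k v hv
    rw [ord_mul, ord_inv, ord_mul, gupb_ord D f hfS _ v hv,
      ukum_ordE D E hES (fun w => (Multiplicative.toAdd (θ (φ (L.t w))) k).val) v hv,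
      ← sub_eq_add_neg, ← ZMod.intCast_zmod_eq_zero_iff_dvd, Int.cast_sub, hord v hv k,
      Int.cast_add, Int.cast_sum, sub_eq_zero]
    by_cases hvE : v ∈ E
    · have h0 : ∀ i, v ∉ f i := fun i h => ((hE v).1 hvE).2 i ((hf i v).1 h)
      rw [if_pos hvE, Int.cast_natCast, ZMod.natCast_zmod_val, Finset.sum_eq_zero, add_zero]
      intro i _
      rw [if_neg (h0 i), Int.cast_zero]
    · rw [if_neg hvE, Int.cast_zero, zero_add]
      by_cases h1 : ∃ i, v ∈ f i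
      · obtain ⟨i₀, hi₀⟩ := h1
        have hc₀ := ((hf i₀ v).1 hi₀).2.1
        rw [Finset.sum_eq_single i₀]
        · rw [if_pos hi₀, lkum_conj θ hc₀, Int.cast_natCast, ZMod.natCast_zmod_val]
        · intro i _ hi
          have h2 : v ∉ f i := by
            intro h
            have h3 := ((hf i v).1 h).2.1
            exact hi (Dg.uni i i₀ (h3.symm.trans hc₀))
          rw [if_neg h2, Int.cast_zero]
        · intro h
          exact absurd (Finset.mem_univ _) h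
      · have h0 : ∀ i, v ∉ f i := fun i h => h1 ⟨i, h⟩
        have h2 : ¬ Rm L φ v := fun h => hvE ((hE v).2 ⟨h, fun i hi => h0 i ((hf i v).2 hi)⟩)
        have h3 : φ (L.t v) = 1 := by
          by_contra h
          exact h2 ⟨hv, L.t v, ukum_t L hv, h⟩
        rw [h3, map_one]
        symm
        apply Finset.sum_eq_zero
        intro i _
        rw [if_neg (h0 i), Int.cast_zero]
  have hε : ∀ k, ∃ u ∈ U, ∃ z : Kˣ, a' k *
      ((∏ w : ↥E, D.pi w.1 ^ (Multiplicative.toAdd (θ (φ (L.t w.1))) k).val) *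
        ∏ i, ∏ w ∈ f i, D.pi w ^ (Multiplicative.toAdd (θ (Dg.g i)) k).val)⁻¹ = u * z ^ p := by
    intro k
    obtain ⟨u', y, hu, hy⟩ := unit_of_ord hp D _ (hdvd k)
    obtain ⟨u'', hu', y', hy'⟩ := hU.2 u' hu
    refine ⟨u'', hu', y' * y, ?_⟩
    rw [hy, hy', mul_pow, mul_assoc]
  choose ε hεU z hz using hε
  let b : Fin n → Kˣ := fun k => ε k *
    ∏ w : ↥E, D.pi w.1 ^ (Multiplicative.toAdd (θ (φ (L.t w.1))) k).val
  have hak : ∀ k, a' k = (b k * ∏ i, ∏ w ∈ f i,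
      D.pi w ^ (Multiplicative.toAdd (θ (Dg.g i)) k).val) * z k ^ ((p : ℕ) : ℤ) := by
    intro k
    have h1 := hz k
    rw [mul_inv_eq_iff_eq_mul] at h1
    rw [h1, zpow_natCast]
    show _ = (ε k * ∏ w : ↥E, D.pi w.1 ^ (Multiplicative.toAdd (θ (φ (L.t w.1))) k).val) *
      (∏ i, ∏ w ∈ f i, D.pi w ^ (Multiplicative.toAdd (θ (Dg.g i)) k).val) * z k ^ p
    rw [mul_assoc, mul_comm (z k ^ p), mul_assoc, mul_assoc, mul_assoc]
  have hbB : b ∈ Bb D U E n := by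
    unfold Bb
    rw [Fintype.mem_piFinset]
    intro k
    unfold XE
    rw [Finset.mem_image]
    refine ⟨(ε k, fun w => Multiplicative.toAdd (θ (φ (L.t w.1))) k), ?_, rfl⟩
    rw [Finset.mem_product]
    exact ⟨hεU k, Finset.mem_univ _⟩
  refine ⟨b, hbB, ⟨hES, ?_⟩, ?_⟩
  · intro k v hv hvE
    show ord v (ε k * _) = 0
    rw [ord_mul, hU.1 _ (hεU k) v hv,
      ukum_ordE D E hES (fun w => (Multiplicative.toAdd (θ (φ (L.t w))) k).val) v hv,
      if_neg hvE, add_zero]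
  · intro σ k
    rw [← ha' k σ, hak k, kk_mul_arg hp hζ (b k * ∏ i, ∏ w ∈ f i,
      D.pi w ^ (Multiplicative.toAdd (θ (Dg.g i)) k).val) (z k ^ ((p : ℕ) : ℤ)) σ,
      kk_zpow_arg hp hζ, hpz, zero_mul, add_zero]

theorem lkum {K : Type} [Field K] [NumberField K] {Ω : Type} [Field Ω] [Algebra K Ω]
    [IsAlgClosure K Ω] {p : ℕ} [NeZero p] {ζ : K} {d M l N₀ : ℕ} {G : Type} [Group G] [Finite G]
    (hp : p.Prime) (hζ : IsPrimitiveRoot ζ p) (D : RD0 K p ζ) (L : LDs D Ω)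
    (Dg : GX p d M l N₀ G) (U : Finset Kˣ) (hU : UR D U) (φ : Gal(Ω/K) →* G)
    (hφ : H38.ML.FT φ) (hs : Function.Surjective φ) (f : Fin N₀ → Finset (Pl K))
    (E : Finset (Pl K)) (hf : ∀ i v, v ∈ f i ↔ TyX Dg L φ i v)
    (hE : ∀ v, v ∈ E ↔ Rm L φ v ∧ ∀ i, ¬ TyX Dg L φ i v) :
    ∃ b ∈ Bb D U E (d + 1), ∃ c₂ ∈ Bb D U E M, BS2 D b E ∧ BS2 D c₂ E ∧ Ind p c₂ ∧
      (∀ σ : Gal(Ω/K), kk p ζ (akR D Dg.c0 b f 0) σ = Multiplicative.toAdd (Dg.χ (φ σ))) ∧
      ¬ IsPow p (akR D Dg.c0 b f 0) ∧ LocC D Dg b c₂ f := by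
  -- the homomorphism `(χ, τ)`
  let θ : G →* Multiplicative (Fin (d + 1) → ZMod p) :=
    { toFun := fun g => Multiplicative.ofAdd (Fin.cons (Multiplicative.toAdd (Dg.χ g))
        (Multiplicative.toAdd (Dg.τ g)) : Fin (d + 1) → ZMod p)
      map_one' := by
        apply congrArg Multiplicative.ofAdd
        funext k
        refine Fin.cases ?_ (fun j => ?_) k
        · show Multiplicative.toAdd (Dg.χ 1) = 0
          rw [map_one]
          rfl
        · show Multiplicative.toAdd (Dg.τ 1) j = 0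
          rw [map_one]
          rfl
      map_mul' := by
        intro x y
        apply congrArg Multiplicative.ofAdd
        funext k
        refine Fin.cases ?_ (fun j => ?_) k
        · show Multiplicative.toAdd (Dg.χ (x * y)) =
            Multiplicative.toAdd (Dg.χ x) + Multiplicative.toAdd (Dg.χ y)
          rw [map_mul]
          rfl
        · show Multiplicative.toAdd (Dg.τ (x * y)) j =
            Multiplicative.toAdd (Dg.τ x) j + Multiplicative.toAdd (Dg.τ y) j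
          rw [map_mul]
          rfl }
  obtain ⟨b, hb, hbE, hbk⟩ := lkum_aux hp hζ D L Dg U hU φ hφ f E hf hE θ
  obtain ⟨c₂, hc, hcE, hck⟩ := lkum_aux hp hζ D L Dg U hU φ hφ f E hf hE Dg.ψ
  have hk0 : ∀ σ : Gal(Ω/K), kk p ζ (akR D Dg.c0 b f 0) σ =
      Multiplicative.toAdd (Dg.χ (φ σ)) := fun σ => hbk σ 0
  have hk1 : ∀ (σ : Gal(Ω/K)) (k : Fin d), kk p ζ (akR D Dg.c0 b f k.succ) σ =
      Multiplicative.toAdd (Dg.τ (φ σ)) k := fun σ k => hbk σ k.succ
  have hk2 : ∀ (σ : Gal(Ω/K)) (j : Fin M), kk p ζ (c₂ j) σ =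
      Multiplicative.toAdd (Dg.ψ (φ σ)) j := by
    intro σ j
    have h1 := hck σ j
    have h2 : ∏ i, ∏ w ∈ f i, D.pi w ^ (Multiplicative.toAdd (Dg.ψ (Dg.g i)) j).val = 1 := by
      refine Finset.prod_eq_one fun i _ => Finset.prod_eq_one fun w _ => ?_
      rw [Dg.pz, toAdd_one, Pi.zero_apply, ZMod.val_zero, pow_zero]
    rw [h2, mul_one] at h1
    exact h1
  refine ⟨b, hb, c₂, hc, hbE, hcE, ?_, hk0, ?_, ?_, ?_⟩
  · intro z hz hpow
    apply hz
    funext k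
    obtain ⟨g, hg⟩ := Dg.ψs (Multiplicative.ofAdd (Pi.single k (1 : ZMod p)))
    obtain ⟨σ, rfl⟩ := hs g
    have h1 := (kk_eq_zero_iff (Ω := Ω) hp hζ _).2 hpow σ
    unfold bp at h1
    rw [kk_prod_arg hp hζ] at h1
    have h8 : ∑ j, z j * Multiplicative.toAdd (Dg.ψ (φ σ)) j = 0 := by
      rw [← h1]
      refine Finset.sum_congr rfl fun j _ => ?_
      have h3 := kk_zpow_arg hp hζ (c₂ j) ((z j).val : ℤ) σ
      rw [zpow_natCast] at h3
      rw [h3, Int.cast_natCast, ZMod.natCast_zmod_val, hk2]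
    rw [hg, toAdd_ofAdd, Finset.sum_eq_single k] at h8
    · rwa [Pi.single_eq_same, mul_one] at h8
    · intro j _ hj
      rw [Pi.single_eq_of_ne hj, mul_zero]
    · intro h
      exact absurd (Finset.mem_univ _) h
  · intro hpow
    haveI : Fact p.Prime := ⟨hp⟩
    obtain ⟨g, hg⟩ := Dg.χs (Multiplicative.ofAdd (1 : ZMod p))
    obtain ⟨σ, rfl⟩ := hs g
    have h1 := (kk_eq_zero_iff (Ω := Ω) hp hζ _).2 hpow σ
    rw [hk0, hg, toAdd_ofAdd] at h1
    exact one_ne_zero h1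
  · intro i hi v hv
    obtain ⟨⟨hvS, -⟩, hconj, he⟩ := (hf i v).1 hv
    obtain ⟨F, hFt, hFk⟩ := tfrob_z hp hζ L φ hφ v hvS he (Fin.append (akR D Dg.c0 b f) c₂)
    have hF1 : ∀ k, kk p ζ (akR D Dg.c0 b f k) F = D.LL v (akR D Dg.c0 b f k) := by
      intro k
      have h1 := hFk (Fin.castAdd M k)
      rwa [Fin.append_left] at h1
    have hF2 : ∀ j, kk p ζ (c₂ j) F = D.LL v (c₂ j) := by
      intro j
      have h1 := hFk (Fin.natAdd (d + 1) j)
      rwa [Fin.append_right] at h1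
    obtain ⟨h1, h2⟩ := Dg.rel i hi (φ F) (φ (L.t v)) hconj hFt
    refine ⟨fun j => ?_, fun k => ?_⟩
    · rw [← hF2, hk2, h1]
      rfl
    · rw [← hF1, ← hF1, hk1, hk0, ← lkum_conj Dg.χ hconj, ← lkum_conj Dg.τ hconj, h2 k,
        mul_comm]
  · intro i hi hc' v hv
    obtain ⟨⟨hvS, -⟩, hconj, he⟩ := (hf i v).1 hv
    obtain ⟨F, hFt, hFk⟩ := tfrob_z hp hζ L φ hφ v hvS he (akR D Dg.c0 b f)
    have h1 := (Dg.rnc i hi hc').2 (φ F) (φ (L.t v)) hconj hFt
    rw [← hFk, hk0, h1]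
    rfl

end H77.AB
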