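import Pool.Agent.H77.AB.LSum
import Pool.Agent.H77.AB.LKum
import Pool.Agent.H63.BU.UMain

/-!
# [H77 AB LGUP] the upper bound for the homomorphisms, 150-200 lines (as gup)

As `gup` in Pool/Agent/H63/BU/UMain.lean (copy and adapt its proof). `hub` is the analytic bound: `SWU ≤ C (nr E)^η Y (1 + log Y)^{β-1}` for `BS2 b' E`, `BS2 c₂ E`, `Ind p c₂`, `Y ≥ 1`.
Changes: the data attached to `φ ∈ Rs` are `(E, (b, c₂))`, `b ∈ Bb D U E (d+1)`, `c₂ ∈ Bb D U E M` (`lsets`, `lkum`, `lcnt_nr`); `U` from `unit_reps` (`UR D U := ⟨hU1, hU2⟩`); `C₁` from `lsum`; `η = 1/(4a)`, `C₂` from `hub η`; `q = #G * p^((d+1)+M)` in `usum`. For given `(E, b, c₂)`: `#fibre ≤ C₁ (#G)^{#E} ∑_{ε ∈ U^l} SWU(bx b ε) ≤ C₁ (#G)^{#E} (#U)^l C₂ (nr E)^η UY (1 + log UY)^{β-1}`: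
`BS2 D (bx b ε) E` holds because `BS2 D b E` and the `ε j ∈ U` are `S0`-units (`lgup_bs`; `Fin.cases`, `Fin.addCases` on the coordinate; `bx` in ADat), `1 + log UY ≤ 2 log B`. The number of the `(b, c₂)` is at most `(#U p^{#E})^{d+1} (#U p^{#E})^M` (`ubb_card` twice). Sum over `E` by `usum`.
-/

set_option autoImplicit false

open scoped NumberField
open IsDedekindDomain
open scoped Classical

noncomputable section

namespace H77.AB

open H63.MA H38.BB H38.BG H63.BU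

theorem lgup_bs {K : Type} [Field K] [NumberField K] {p : ℕ} {ζ : K} {d l : ℕ}
    (D : RD0 K p ζ) (U : Finset Kˣ) (hU : UR D U) (E : Finset (Pl K)) (b : Fin (d + 1) → Kˣ)
    (hb : BS2 D b E) (ε : Fin l → Kˣ) (hε : ∀ j, ε j ∈ U) : BS2 D (bx b ε) E := by
  refine ⟨hb.1, fun k v hv hvE => ?_⟩
  unfold bx
  refine Fin.cases ?_ (fun j => ?_) k
  · rw [Fin.cons_zero]
    exact hb.2 0 v hv hvE
  · rw [Fin.cons_succ]
    refine Fin.addCases (fun i => ?_) (fun i => ?_) j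
    · rw [Fin.append_left]
      exact hb.2 i.succ v hv hvE
    · rw [Fin.append_right]
      exact hU.1 _ (hε i) v hv

theorem lgup {K : Type} [Field K] [NumberField K] {Ω : Type} [Field Ω] [Algebra K Ω]
    [IsAlgClosure K Ω] {p : ℕ} [NeZero p] {ζ : K} {d M l N₀ : ℕ} {G : Type} [Group G] [Finite G]
    (hp : p.Prime) (hζ : IsPrimitiveRoot ζ p) (D : RD K p ζ) (L : LDs D.toRD0 Ω)
    (hnil : Group.IsNilpotent G) (Dg : GX p d M l N₀ G) (z : K)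
    (hz : IsPrimitiveRoot z (Nat.card G))
    (hS : ∀ v : Pl K, ((Nat.card G : ℕ) : 𝓞 K) ∈ v.asIdeal → v ∈ D.S0) (a : ℕ) (ha : 0 < a)
    (ix : Subgroup G → ℕ) (h1 : ∀ H, H ≠ ⊥ → a ≤ ix H)
    (h2 : ∀ g : G, g ≠ 1 → ix (Subgroup.zpowers g) ≤ a → ∃ i, IsConj g (Dg.g i)) (β : ℕ)
    (hub : ∀ η : ℝ, 0 < η → ∃ C : ℝ, 0 < C ∧ ∀ (b' : Fin (d + l + 1) → Kˣ) (E : Finset (Pl K))
      (c₂ : Fin M → Kˣ), BS2 D.toRD0 b' E → BS2 D.toRD0 c₂ E → Ind p c₂ → ∀ Y : ℝ, 1 ≤ Y →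
        SWU D.toRD0 (cX Dg.xc l M) (XsX Dg.xc l M) c₂ (((p : ℝ) ^ l)⁻¹) b' E Y ≤
          C * nr E ^ η * Y * (1 + Real.log Y) ^ (β - 1)) :
    ∃ C B₀ : ℝ, 0 < C ∧ ∀ B : ℝ, B₀ ≤ B → ∀ Rs : Finset (Gal(Ω/K) →* G),
      (∀ φ ∈ Rs, H38.ML.FT φ ∧ Function.Surjective φ ∧ ∀ T : Finset (Pl K),
        (∀ v ∈ T, v ∉ D.S0) → ∏ v ∈ T, (nm v : ℝ) ^ ix ((inr L v).map φ) ≤ B) →
      (Rs.card : ℝ) ≤ C * B ^ (1 / (a : ℝ)) * Real.log B ^ (β - 1) := by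
  have haR : (0 : ℝ) < (a : ℝ) := by exact_mod_cast ha
  have ha1 : (1 : ℝ) ≤ (a : ℝ) := by exact_mod_cast ha
  obtain ⟨U, hU1, hU2⟩ := unit_reps hp D.S0
  have hU : UR D.toRD0 U := ⟨hU1, hU2⟩
  obtain ⟨C₁, hcnt⟩ := lsum hp hζ D.toRD0 L hnil Dg U hU z hz hS a ha ix h1 h2
  obtain ⟨η, hη⟩ : ∃ η : ℝ, η = 1 / (4 * (a : ℝ)) := ⟨_, rfl⟩
  have hη0 : 0 < η := by
    rw [hη]
    positivity
  obtain ⟨C₂, hC₂, hub⟩ := hub η hη0
  obtain ⟨m, hm⟩ : ∃ m : ℕ, m = (d + 1) + M := ⟨_, rfl⟩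
  obtain ⟨q, hq⟩ : ∃ q : ℝ, q = (Nat.card G : ℝ) * (p : ℝ) ^ m := ⟨_, rfl⟩
  have hq0 : 0 ≤ q := by
    rw [hq]
    positivity
  obtain ⟨C₃, hC₃, hsum⟩ := usum K a ha q hq0
  rw [← hη] at hsum
  obtain ⟨C₁', hC₁'⟩ : ∃ C₁' : ℝ, C₁' = (C₁ : ℝ) * (U.card : ℝ) ^ l := ⟨_, rfl⟩
  have hC₁0 : 0 ≤ C₁' := by
    rw [hC₁']
    positivity
  refine ⟨C₁' * (U.card : ℝ) ^ m * C₂ * C₃ * 2 ^ (β - 1) + 1, 3, by positivity, ?_⟩
  intro B hB Rs hRs
  have hB1 : 1 ≤ B := by linarith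
  have hB0 : 0 < B := by linarith
  have hlog1 : 1 ≤ Real.log B := by
    rw [Real.le_log_iff_exp_le hB0]
    exact Real.exp_one_lt_three.le.trans hB
  obtain ⟨X, hX⟩ : ∃ X : ℝ, X = B ^ (1 / (a : ℝ)) := ⟨_, rfl⟩
  have hX1 : 1 ≤ X := by
    rw [hX]
    exact Real.one_le_rpow hB1 (by positivity)
  have hX0 : 0 < X := by linarith
  -- the data
  have hex : ∀ φ : Gal(Ω/K) →* G, ∃ (e : Finset (Pl K) × ((Fin (d + 1) → Kˣ) × (Fin M → Kˣ))),
      φ ∈ Rs →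
      (∀ v, v ∈ e.1 ↔ Rm L φ v ∧ ∀ i, ¬ TyX Dg L φ i v) ∧
      (e.2.1 ∈ Bb D.toRD0 U e.1 (d + 1) ∧ e.2.2 ∈ Bb D.toRD0 U e.1 M) ∧
      BS2 D.toRD0 e.2.1 e.1 ∧ BS2 D.toRD0 e.2.2 e.1 ∧ Ind p e.2.2 ∧
      1 ≤ UY B a e.1 ∧ nr e.1 ≤ B ∧
      ∀ f : Fin N₀ → Finset (Pl K), (∀ i v, v ∈ f i ↔ TyX Dg L φ i v) →
          (∀ σ : Gal(Ω/K), kk p ζ (akR D.toRD0 Dg.c0 e.2.1 f 0) σ =
            Multiplicative.toAdd (Dg.χ (φ σ))) ∧
          ¬ IsPow p (akR D.toRD0 Dg.c0 e.2.1 f 0) ∧ LocC D.toRD0 Dg e.2.1 e.2.2 f := by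
    intro φ
    by_cases hφ : φ ∈ Rs
    · obtain ⟨hft, hs, hT⟩ := hRs φ hφ
      obtain ⟨f, E, hf, hE⟩ := lsets L Dg φ hft
      obtain ⟨b, hb, c₂, hc₂, hbs, hcs, hind, hk, hnp, hloc⟩ :=
        lkum hp hζ D.toRD0 L Dg U hU φ hft hs f E hf hE
      obtain ⟨-, -, -, h3, h4, -⟩ :=
        lcnt_nr hp hζ D.toRD0 L Dg hS a ha ix h1 h2 φ hft B hT f E hf hE
      refine ⟨(E, (b, c₂)), fun _ => ⟨hE, ⟨hb, hc₂⟩, hbs, hcs, hind, h3, h4, fun f' hf' => ?_⟩⟩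
      have hff : f' = f := by
        funext i
        ext v
        rw [hf' i v, hf i v]
      rw [hff]
      exact ⟨hk, hnp, hloc⟩
    · exact ⟨(∅, (fun _ => 1, fun _ => 1)), fun h => absurd h hφ⟩
  choose e he using hex
  -- the fibres
  have hfib : ∀ (E : Finset (Pl K)) (bc : (Fin (d + 1) → Kˣ) × (Fin M → Kˣ)),
      (((Rs.filter fun φ => (e φ).1 = E).filter fun φ => (e φ).2 = bc).card : ℝ) ≤
        C₁' * (Nat.card G : ℝ) ^ E.card *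
          (C₂ * nr E ^ η * UY B a E * (2 * Real.log B) ^ (β - 1)) := by
    intro E bc
    have hnr := one_le_nr E
    have hUY := uy_le B hB1 a E
    have hUY0 : 0 ≤ UY B a E := hUY.1
    have hrhs : 0 ≤ C₁' * (Nat.card G : ℝ) ^ E.card *
          (C₂ * nr E ^ η * UY B a E * (2 * Real.log B) ^ (β - 1)) := by
      positivity
    rcases ((Rs.filter fun φ => (e φ).1 = E).filter fun φ => (e φ).2 = bc).eq_empty_or_nonempty
      with h0 | ⟨φ₀, hφ₀⟩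
    · rw [h0, Finset.card_empty, Nat.cast_zero]
      exact hrhs
    rw [Finset.mem_filter, Finset.mem_filter] at hφ₀
    obtain ⟨⟨hφ₀, hE₀⟩, hb₀⟩ := hφ₀
    obtain ⟨-, -, hbs, hcs, hind, hUY1, -, -⟩ := he φ₀ hφ₀
    rw [hE₀] at hUY1
    rw [hE₀, hb₀] at hbs hcs
    rw [hb₀] at hind
    have h3 := hcnt B E bc.1 bc.2
      ((Rs.filter fun φ => (e φ).1 = E).filter fun φ => (e φ).2 = bc) hbs (by
      intro φ hφ
      rw [Finset.mem_filter, Finset.mem_filter] at hφ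
      obtain ⟨⟨hφ, hE⟩, hb⟩ := hφ
      obtain ⟨b2, -, -, -, -, -, -, b7⟩ := he φ hφ
      rw [hE] at b2
      rw [hb] at b7
      exact ⟨(hRs φ hφ).1, (hRs φ hφ).2.2, b2, b7⟩)
    have hlogU : Real.log (UY B a E) ≤ Real.log B := by
      have h5 : UY B a E ≤ B := by
        refine hUY.2.trans ?_
        calc B ^ (1 / (a : ℝ)) ≤ B ^ (1 : ℝ) := by
              refine Real.rpow_le_rpow_of_exponent_le hB1 ?_
              rw [div_le_one haR]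
              exact ha1
          _ = B := Real.rpow_one B
      exact Real.log_le_log (by linarith) h5
    have hlogU0 : 0 ≤ Real.log (UY B a E) := Real.log_nonneg hUY1
    have h6 : (1 + Real.log (UY B a E)) ^ (β - 1) ≤ (2 * Real.log B) ^ (β - 1) :=
      pow_le_pow_left₀ (by linarith) (by linarith) _
    have h7 : ∀ ε ∈ Fintype.piFinset (fun _ : Fin l => U),
        SWU D.toRD0 (cX Dg.xc l M) (XsX Dg.xc l M) bc.2 (((p : ℝ) ^ l)⁻¹) (bx bc.1 ε) E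
          (UY B a E) ≤ C₂ * nr E ^ η * UY B a E * (2 * Real.log B) ^ (β - 1) := by
      intro ε hε
      rw [Fintype.mem_piFinset] at hε
      refine (hub (bx bc.1 ε) E bc.2 (lgup_bs D.toRD0 U hU E bc.1 hbs ε hε) hcs hind
        (UY B a E) hUY1).trans ?_
      exact mul_le_mul_of_nonneg_left h6 (by positivity)
    have h8 : ∑ ε ∈ Fintype.piFinset (fun _ : Fin l => U),
        SWU D.toRD0 (cX Dg.xc l M) (XsX Dg.xc l M) bc.2 (((p : ℝ) ^ l)⁻¹) (bx bc.1 ε) E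
          (UY B a E) ≤ (U.card : ℝ) ^ l *
            (C₂ * nr E ^ η * UY B a E * (2 * Real.log B) ^ (β - 1)) := by
      refine (Finset.sum_le_sum h7).trans (le_of_eq ?_)
      rw [Finset.sum_const, Fintype.card_piFinset_const, nsmul_eq_mul]
      push_cast
      rfl
    refine h3.trans ?_
    calc (C₁ : ℝ) * (Nat.card G : ℝ) ^ E.card *
          ∑ ε ∈ Fintype.piFinset (fun _ : Fin l => U),
            SWU D.toRD0 (cX Dg.xc l M) (XsX Dg.xc l M) bc.2 (((p : ℝ) ^ l)⁻¹) (bx bc.1 ε) E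
              (UY B a E)
        ≤ (C₁ : ℝ) * (Nat.card G : ℝ) ^ E.card * ((U.card : ℝ) ^ l *
            (C₂ * nr E ^ η * UY B a E * (2 * Real.log B) ^ (β - 1))) :=
          mul_le_mul_of_nonneg_left h8 (by positivity)
      _ = _ := by
          rw [hC₁']
          ring
  have hcardE : ∀ E : Finset (Pl K), (((Rs.filter fun φ => (e φ).1 = E).card : ℕ) : ℝ) ≤
      ((U.card : ℝ) * (p : ℝ) ^ E.card) ^ m * (C₁' * (Nat.card G : ℝ) ^ E.card *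
          (C₂ * nr E ^ η * UY B a E * (2 * Real.log B) ^ (β - 1))) := by
    intro E
    have hmap : ∀ φ ∈ Rs.filter fun φ => (e φ).1 = E,
        (e φ).2 ∈ Bb D.toRD0 U E (d + 1) ×ˢ Bb D.toRD0 U E M := by
      intro φ hφ
      rw [Finset.mem_filter] at hφ
      obtain ⟨-, b3, -⟩ := he φ hφ.1
      rw [hφ.2] at b3
      exact Finset.mem_product.2 b3
    have hUY := uy_le B hB1 a E
    have hUY0 : 0 ≤ UY B a E := hUY.1
    have hnr := one_le_nr E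
    rw [Finset.card_eq_sum_card_fiberwise hmap]
    push_cast
    calc ∑ b ∈ Bb D.toRD0 U E (d + 1) ×ˢ Bb D.toRD0 U E M,
          (((Rs.filter fun φ => (e φ).1 = E).filter fun φ => (e φ).2 = b).card : ℝ) ≤
        ∑ b ∈ Bb D.toRD0 U E (d + 1) ×ˢ Bb D.toRD0 U E M, C₁' * (Nat.card G : ℝ) ^ E.card *
          (C₂ * nr E ^ η * UY B a E * (2 * Real.log B) ^ (β - 1)) :=
          Finset.sum_le_sum fun b _ => hfib E b
      _ = (((Bb D.toRD0 U E (d + 1)).card : ℝ) * ((Bb D.toRD0 U E M).card : ℝ)) *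
          (C₁' * (Nat.card G : ℝ) ^ E.card *
          (C₂ * nr E ^ η * UY B a E * (2 * Real.log B) ^ (β - 1))) := by
          rw [Finset.sum_const, nsmul_eq_mul, Finset.card_product]
          push_cast
          rfl
      _ ≤ _ := by
          refine mul_le_mul_of_nonneg_right ?_ (by positivity)
          have h5 := ubb_card D.toRD0 U E (d + 1)
          have h6 := ubb_card D.toRD0 U E M
          have h7 := Nat.mul_le_mul h5 h6
          rw [← pow_add, ← hm] at h7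
          exact_mod_cast h7
  have hmapE : ∀ φ ∈ Rs, (e φ).1 ∈ AF K B := by
    intro φ hφ
    obtain ⟨-, -, -, -, -, -, b6, -⟩ := he φ hφ
    exact mem_AF.2 b6
  have hQ : ∀ E : Finset (Pl K), ((U.card : ℝ) * (p : ℝ) ^ E.card) ^ m *
      (C₁' * (Nat.card G : ℝ) ^ E.card *
          (C₂ * nr E ^ η * UY B a E * (2 * Real.log B) ^ (β - 1))) =
      (C₁' * (U.card : ℝ) ^ m * C₂ * X * (2 * Real.log B) ^ (β - 1)) *
        (q ^ E.card * nr E ^ η * ∏ v ∈ E, (nm v : ℝ) ^ (-((co a v : ℝ) / (a : ℝ)))) := by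
    intro E
    have e1 : q ^ E.card = (Nat.card G : ℝ) ^ E.card * ((p : ℝ) ^ E.card) ^ m := by
      rw [hq, mul_pow, ← pow_mul, ← pow_mul, mul_comm m]
    have e2 : UY B a E = X * ∏ v ∈ E, (nm v : ℝ) ^ (-((co a v : ℝ) / (a : ℝ))) := by
      rw [hX]
      rfl
    rw [e1, e2, mul_pow]
    ring
  have hcard := Finset.card_eq_sum_card_fiberwise (f := fun φ => (e φ).1) (s := Rs) (t := AF K B)
    (fun φ hφ => hmapE φ hφ)
  have hlogp : 0 ≤ Real.log B ^ (β - 1) := by positivity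
  rw [← hX]
  calc (Rs.card : ℝ) = ∑ E ∈ AF K B, (((Rs.filter fun φ => (e φ).1 = E).card : ℕ) : ℝ) := by
        rw [hcard]
        push_cast
        rfl
    _ ≤ ∑ E ∈ AF K B, (C₁' * (U.card : ℝ) ^ m * C₂ * X * (2 * Real.log B) ^ (β - 1)) *
        (q ^ E.card * nr E ^ η * ∏ v ∈ E, (nm v : ℝ) ^ (-((co a v : ℝ) / (a : ℝ)))) := by
        refine Finset.sum_le_sum fun E _ => ?_
        rw [← hQ E]
        exact hcardE E
    _ = (C₁' * (U.card : ℝ) ^ m * C₂ * X * (2 * Real.log B) ^ (β - 1)) *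
        ∑ E ∈ AF K B, (q ^ E.card * nr E ^ η *
          ∏ v ∈ E, (nm v : ℝ) ^ (-((co a v : ℝ) / (a : ℝ)))) := by
        rw [Finset.mul_sum]
    _ ≤ (C₁' * (U.card : ℝ) ^ m * C₂ * X * (2 * Real.log B) ^ (β - 1)) * C₃ := by
        refine mul_le_mul_of_nonneg_left (hsum _) ?_
        positivity
    _ = (C₁' * (U.card : ℝ) ^ m * C₂ * C₃ * 2 ^ (β - 1)) * (X * Real.log B ^ (β - 1)) := by
        rw [mul_pow]
        ring
    _ ≤ (C₁' * (U.card : ℝ) ^ m * C₂ * C₃ * 2 ^ (β - 1) + 1) *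
        (X * Real.log B ^ (β - 1)) := by
        refine mul_le_mul_of_nonneg_right (by linarith) (by positivity)
    _ = (C₁' * (U.card : ℝ) ^ m * C₂ * C₃ * 2 ^ (β - 1) + 1) * X *
        Real.log B ^ (β - 1) := by ring

end H77.AB
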