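import Pool.Agent.H77.AB.LFa
import Pool.Agent.H77.AB.LCl
import Pool.Agent.H77.AB.LGup
import Pool.Agent.H77.AB.GAx
import Pool.Agent.H77.AB.GXx
import Pool.Agent.H77.AB.GXr
import Pool.Agent.H38.BG.AMain

/-!
# H77-AB-LFIN: the upper bound for nilpotent groups with an abelian maximal subgroup

`cmain`: `G ≤ S_n` transitive and nilpotent, `p` a prime, the elements of least index are exactly the elements of order `p`, `M ≤ G` of index `p` centralises `M ∩ T`, `T` the subgroup generated by the elements of order `p`. Then for all number fields `K ≥ K₀` the number of extensions with `G` is at most `C B^{1/ind} (log B)^{β - 1}`.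
-/

set_option autoImplicit false

open scoped NumberField
open IsDedekindDomain H38.ML

noncomputable section

namespace H77.AB

open H63.MA H38.BB H38.BG

theorem cmain_aux {n : ℕ} (hn : 2 ≤ n) (G : Subgroup (Equiv.Perm (Fin n)))
    (hG : MulAction.IsPretransitive G (Fin n)) (hnil : Group.IsNilpotent G) {p : ℕ} [NeZero p]
    (hp : p.Prime) (hI : ∀ h : G, h ≠ 1 → (ind (h : Equiv.Perm (Fin n)) = indG G ↔ h ^ p = 1))
    {d M l N₀ : ℕ} (Dg : GX p d M l N₀ G)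
    (hall : ∀ h : G, h ≠ 1 → h ^ p = 1 → ∃ i, IsConj h (Dg.g i))
    (hub : ∀ (K : Type) [Field K] [NumberField K] (ζ : K), IsPrimitiveRoot ζ p →
      ∀ D : RD K p ζ, ∀ η : ℝ, 0 < η → ∃ C : ℝ, 0 < C ∧ ∀ (b' : Fin (d + l + 1) → Kˣ)
      (E : Finset (Pl K)) (c₂ : Fin M → Kˣ), BS2 D.toRD0 b' E → BS2 D.toRD0 c₂ E → Ind p c₂ →
        ∀ Y : ℝ, 1 ≤ Y →
        SWU D.toRD0 (cX Dg.xc l M) (XsX Dg.xc l M) c₂ (((p : ℝ) ^ l)⁻¹) b' E Y ≤
          C * nr E ^ η * Y * (1 + Real.log Y) ^ (N₀ - 1)) :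
    ∃ K₀ : IntermediateField ℚ QBar, NumberField K₀ ∧
      ∀ K : IntermediateField ℚ QBar, K₀ ≤ K → ∀ _ : NumberField K,
        ∃ C B₀ : ℝ, 0 < C ∧ ∀ B : ℝ, B₀ ≤ B → ∃ k : ℕ,
          Spec.nK K QBar G B = (k : ℕ∞) ∧
          (k : ℝ) ≤ C * B ^ (1 / (indG G : ℝ)) *
            Real.log B ^ (Spec.betaAll K QBar G - 1) := by
  obtain ⟨ha, ⟨g₀, hg₀, hg₀'⟩, hmin, hcj, hJ⟩ := pidx_pos hn G hG
  have hcardpos : 0 < Nat.card G := Nat.card_pos
  have hpd : p ∣ Nat.card G := by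
    have h2 := (hI g₀ hg₀).1 hg₀'
    have h3 : orderOf g₀ = p := orderOf_eq_prime h2 hg₀ (hp := ⟨hp⟩)
    rw [← h3]
    exact orderOf_dvd_natCard g₀
  have hI' : ∀ h : G, (h ≠ 1 ∧ ind (h : Equiv.Perm (Fin n)) = indG G) ↔
      ∃ i, IsConj h (Dg.g i) := by
    intro h
    constructor
    · rintro ⟨h1, h2⟩
      exact hall h h1 ((hI h h1).1 h2)
    · rintro ⟨i, hi⟩
      have h1 : h ≠ 1 := by
        intro h1
        rw [h1] at hi
        exact Dg.ne i (isConj_one_right.1 hi)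
      have h3 : h ^ p = 1 := by
        have h4 : IsConj (h ^ p) ((Dg.g i) ^ p) := hi.pow p
        rw [Dg.pow i] at h4
        exact isConj_one_left.1 h4
      exact ⟨h1, (hI h h1).2 h3⟩
  obtain ⟨K₀, hK₀, hK⟩ := akn G
  refine ⟨K₀, hK₀, fun K hKK hKf => ?_⟩
  obtain ⟨⟨φ₀, hs, hφ₀⟩, ⟨z, hz⟩, i, hi⟩ := hK K hKK hKf
  have hp2 : H63.MA.MOne p K := by
    by_cases h2 : p = 2
    · exact ⟨i, by rw [h2]; exact hi⟩
    · exact H63.MA.mone_odd hp h2 K
  obtain ⟨r, hr⟩ := hpd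
  have hζ : IsPrimitiveRoot (z ^ r) p := hz.pow hcardpos (by rw [hr]; ring)
  obtain ⟨D, hD, hun⟩ := ard (Ω := QBar) hp hp2 hζ φ₀ hφ₀ (Nat.card G) hcardpos
  obtain ⟨L⟩ := exists_LDs QBar hp hζ D.toRD0
  rw [lbet G K z hz Dg.g Dg.uni hI']
  refine afu hn G hG K D.toRD0 L N₀ ?_
  exact lgup hp hζ D L hnil Dg z hz hD (indG G) ha
    (fun H => n - orbs (H.map G.subtype))
    (fun H hH => by
      have := hJ H hH
      omega)
    (fun g hg h => by
      refine (hI' g).1 ⟨hg, le_antisymm ?_ (hmin g hg)⟩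
      have h1 : (Subgroup.zpowers g).map G.subtype =
          Subgroup.zpowers (g : Equiv.Perm (Fin n)) := by
        rw [MonoidHom.map_zpowers]
        rfl
      rw [h1] at h
      exact h) N₀ (hub K (z ^ r) hζ D)

theorem cmain {n : ℕ} (hn : 2 ≤ n) (G : Subgroup (Equiv.Perm (Fin n)))
    (hG : MulAction.IsPretransitive G (Fin n)) (hnil : Group.IsNilpotent G) {p : ℕ}
    (hp : p.Prime) (hI : ∀ h : G, h ≠ 1 → (ind (h : Equiv.Perm (Fin n)) = indG G ↔ h ^ p = 1))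
    (M : Subgroup G) (hi : M.index = p)
    (hM : ∀ m ∈ M, ∀ a ∈ M, a ∈ Subgroup.closure {g : G | g ^ p = 1} → m * a = a * m) :
    ∃ K₀ : IntermediateField ℚ QBar, NumberField K₀ ∧
      ∀ K : IntermediateField ℚ QBar, K₀ ≤ K → ∀ _ : NumberField K,
        ∃ C B₀ : ℝ, 0 < C ∧ ∀ B : ℝ, B₀ ≤ B → ∃ k : ℕ,
          Spec.nK K QBar G B = (k : ℕ∞) ∧
          (k : ℝ) ≤ C * B ^ (1 / (indG G : ℝ)) *
            Real.log B ^ (Spec.betaAll K QBar G - 1) := by
  have : NeZero p := ⟨hp.ne_zero⟩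
  obtain ⟨N₀, g, pow, ne, uni, all⟩ := lcl G p
  obtain ⟨ha, ⟨g₀, hg₀, hg₀'⟩, -, -, -⟩ := pidx_pos hn G hG
  have hN₀ : 1 ≤ N₀ := by
    obtain ⟨i, -⟩ := all g₀ hg₀ ((hI g₀ hg₀).1 hg₀')
    have := i.2
    omega
  by_cases hX : ∃ s : G, s ^ p = 1 ∧ s ∉ M
  · obtain ⟨s, hs, hsM⟩ := hX
    obtain ⟨A, _, _, ax, hax, hker, hA, hran⟩ := gax hnil hp M hi hM s hs hsM
    by_cases hAn : Nontrivial A
    · obtain ⟨d, m, l, Dg, hDg, hc, hN, h1⟩ := gxx hp hA ax g pow ne uni all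
      refine cmain_aux hn G hG hnil hp hI Dg (by rw [hDg]; exact all) ?_
      intro K _ _ ζ hζ D η hη
      exact hub_x hp hζ D Dg hc hN h1 η hη
    · -- `M ∩ T` is trivial, so all elements of order `p` are central
      have hsub : Subsingleton A := not_nontrivial_iff_subsingleton.1 hAn
      have hbot : ∀ a : G, a ∈ M → a ∈ Subgroup.closure {g : G | g ^ p = 1} → a = 1 := by
        intro a h1 h2
        obtain ⟨x, hx⟩ := (hran a).2 ⟨h1, h2⟩
        rw [← hx, Subsingleton.elim x 1, map_one]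
      have hcen : ∀ a : G, a ^ p = 1 → ∀ h : G, a * h * a⁻¹ * h⁻¹ = 1 := by
        intro a ha h
        have hT : a ∈ Subgroup.closure {g : G | g ^ p = 1} := Subgroup.subset_closure ha
        have hT' : h * a⁻¹ * h⁻¹ ∈ Subgroup.closure {g : G | g ^ p = 1} := by
          apply Subgroup.subset_closure
          show (h * a⁻¹ * h⁻¹) ^ p = 1
          rw [conj_pow, inv_pow, ha, inv_one, mul_one, mul_inv_cancel]
        refine hbot _ ?_ ?_
        · rw [← hker, MonoidHom.mem_ker]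
          simp only [map_mul, map_inv]
          rw [mul_comm (ax.χ a) (ax.χ h), mul_inv_cancel_right, mul_inv_cancel]
        · have h3 : a * h * a⁻¹ * h⁻¹ = a * (h * a⁻¹ * h⁻¹) := by group
          rw [h3]
          exact mul_mem hT hT'
      obtain ⟨K₀, hK₀, hK⟩ := amain hn G hG (by
        intro a ha1 ha2 h k
        rw [hcen a ((hI a ha1).1 ha2) h, mul_one, one_mul])
      exact ⟨K₀, hK₀, fun K hKK hKf => (hK K hKK hKf).2 hnil⟩
  · have hM' : ∀ a : G, a ^ p = 1 → a ∈ M ∧ ∀ m ∈ M, m * a = a * m := by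
      intro a ha
      have haM : a ∈ M := by
        by_contra h
        exact hX ⟨a, ha, h⟩
      exact ⟨haM, fun m hm => hM m hm a haM (Subgroup.subset_closure ha)⟩
    obtain ⟨Dg, hDg, hx⟩ := gxr hnil hp M hi hM' g pow ne uni
    refine cmain_aux hn G hG hnil hp hI Dg (by rw [hDg]; exact all) ?_
    intro K _ _ ζ hζ D η hη
    exact hub_r hp hζ D Dg hx hN₀ η hη

end H77.AB
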