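import Pool.Agent.H77.AB.WDef
import Pool.Agent.H38.BG.TDef
import Pool.Agent.H38.TD.Grp3
import Pool.Agent.H63.BU.UDef

/-!
# H77-AB-ADAT: definitions for the group theory and the Galois part

* `XC p d N₀`: numerical class data: `isx` the x-classes, `cen` the central classes, `a i ∈ F_p`, `t i ∈ F_p^d`.
* `xv a b e`: the vector `(a, b, e)`. `IX X l M`: the refined classes `(i, η, copy)` (`i ∈ isx`, `η ∈ F_p^l`, `copy < p^M`) and `i ∉ isx`; `NX` their number, `eX : Fin NX ≃ IX`; `vX` the vectors, `ThX` the subspaces, `cX` the class data (`CR`), `XsX` the x-classes; `bse` the underlying class.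
* `ann D`: the annihilator of a subspace.
* `JS s W`: the subgroup generated by the `s v s⁻¹ v⁻¹`, `v ∈ W`.
* `GX p d M l N₀ G`: the group data for the Galois part. `GX.xc` the numerical class data, `GX.c0` the unrefined class data.
* `AX p A G`: the abelian normal subgroup `j(A) = M ∩ T` of `G` and the element `s` of order `p` outside `M = ker χ`; `AX.W = {a : j a = [s, h], h ∈ M}`.
* `TyX`: primes of type `i`; `n1`: the number of characters ramified at most at the set `x` (and at `S0`) with the local conditions at `x`; `bx b ε`: the Kummer elements `(b, ε)`.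
-/

set_option autoImplicit false

open scoped NumberField
open IsDedekindDomain
open scoped Classical

noncomputable section

namespace H77.AB

open H63.MA H38.BB H38.BG

/-- numerical class data -/
structure XC (p d N₀ : ℕ) where
  isx : Finset (Fin N₀)
  cen : Finset (Fin N₀)
  a : Fin N₀ → ZMod p
  t : Fin N₀ → Fin d → ZMod p

/-- the vector `(a, b, e)` -/
def xv {p d l : ℕ} (a : ZMod p) (b : Fin d → ZMod p) (e : Fin l → ZMod p) :
    Fin (d + l + 1) → ZMod p := Fin.cons a (Fin.append b e)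

/-- the refined classes -/
def IX {p d N₀ : ℕ} (X : XC p d N₀) (l M : ℕ) : Type :=
  ({i : Fin N₀ // i ∈ X.isx} × (Fin l → ZMod p) × Fin (p ^ M)) ⊕ {i : Fin N₀ // i ∉ X.isx}

instance {p d N₀ : ℕ} [NeZero p] (X : XC p d N₀) (l M : ℕ) : Fintype (IX X l M) :=
  inferInstanceAs (Fintype
    (({i : Fin N₀ // i ∈ X.isx} × (Fin l → ZMod p) × Fin (p ^ M)) ⊕ {i : Fin N₀ // i ∉ X.isx}))

/-- the number of the refined classes -/
def NX {p d N₀ : ℕ} [NeZero p] (X : XC p d N₀) (l M : ℕ) : ℕ := Fintype.card (IX X l M)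

/-- an enumeration of the refined classes -/
def eX {p d N₀ : ℕ} [NeZero p] (X : XC p d N₀) (l M : ℕ) : Fin (NX X l M) ≃ IX X l M :=
  (Fintype.equivFin (IX X l M)).symm

/-- the underlying class -/
def bse {p d N₀ : ℕ} (X : XC p d N₀) {l M : ℕ} : IX X l M → Fin N₀
  | Sum.inl q => q.1.1
  | Sum.inr i => i.1

/-- the vectors of the refined classes -/
def vX {p d N₀ : ℕ} (X : XC p d N₀) {l M : ℕ} : IX X l M → Fin (d + l + 1) → ZMod p
  | Sum.inl q => xv (X.a q.1.1) (X.t q.1.1) q.2.1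
  | Sum.inr i => xv 0 (X.t i.1) 0

theorem adat_dt_add {p n : ℕ} (θ θ' x : Fin n → ZMod p) : dt (θ + θ') x = dt θ x + dt θ' x := by
  simp only [dt, Pi.add_apply, add_mul, Finset.sum_add_distrib]

theorem adat_dt_smul {p n : ℕ} (r : ZMod p) (θ x : Fin n → ZMod p) :
    dt (r • θ) x = r * dt θ x := by
  simp only [dt, Pi.smul_apply, smul_eq_mul, Finset.mul_sum, mul_assoc]

theorem adat_dt_zero {p n : ℕ} (x : Fin n → ZMod p) : dt (0 : Fin n → ZMod p) x = 0 := by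
  simp [dt]

/-- the vectors orthogonal to `x` -/
def orth {p n : ℕ} (x : Fin n → ZMod p) : Submodule (ZMod p) (Fin n → ZMod p) where
  carrier := {θ | dt θ x = 0}
  add_mem' := by
    intro a b ha hb
    simp only [Set.mem_setOf_eq] at *
    rw [adat_dt_add, ha, hb, add_zero]
  zero_mem' := adat_dt_zero x
  smul_mem' := by
    intro r a ha
    simp only [Set.mem_setOf_eq] at *
    rw [adat_dt_smul, ha, mul_zero]

/-- the line of the coordinate `0` -/
def line0 (p n : ℕ) : Submodule (ZMod p) (Fin (n + 1) → ZMod p) where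
  carrier := {θ | ∀ k, k ≠ 0 → θ k = 0}
  add_mem' := by
    intro a b ha hb k hk
    rw [Pi.add_apply, ha k hk, hb k hk, add_zero]
  zero_mem' := fun k _ => rfl
  smul_mem' := by
    intro r a ha k hk
    rw [Pi.smul_apply, ha k hk, smul_zero]

/-- the subspaces of the refined classes -/
def ThX {p d N₀ : ℕ} (X : XC p d N₀) {l M : ℕ} :
    IX X l M → Submodule (ZMod p) (Fin (d + l + 1) → ZMod p)
  | Sum.inl q => orth (xv (X.a q.1.1) (X.t q.1.1) q.2.1)
  | Sum.inr i => if i.1 ∈ X.cen then ⊥ else line0 p (d + l)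

theorem adat_self {p d N₀ : ℕ} (X : XC p d N₀) {l M : ℕ} (q : IX X l M) :
    ∀ θ ∈ ThX X q, dt θ (vX X q) = 0 := by
  rcases q with q | i
  · intro θ hθ
    exact hθ
  · intro θ hθ
    by_cases hc : i.1 ∈ X.cen
    · have h : θ ∈ (⊥ : Submodule (ZMod p) (Fin (d + l + 1) → ZMod p)) := by
        simpa only [ThX, if_pos hc] using hθ
      rw [(Submodule.mem_bot _).1 h]
      exact adat_dt_zero _
    · have h : θ ∈ line0 p (d + l) := by simpa only [ThX, if_neg hc] using hθ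
      unfold dt
      refine Finset.sum_eq_zero fun k _ => ?_
      by_cases hk : k = 0
      · rw [hk]
        simp [vX, xv]
      · rw [h k hk, zero_mul]

/-- the refined class data -/
def cX {p d N₀ : ℕ} [NeZero p] (X : XC p d N₀) (l M : ℕ) : CR p (d + l + 1) (NX X l M) where
  x k := vX X (eX X l M k)
  Θ k := ThX X (eX X l M k)
  self k := adat_self X (eX X l M k)

/-- the refined x-classes -/
def XsX {p d N₀ : ℕ} [NeZero p] (X : XC p d N₀) (l M : ℕ) : Finset (Fin (NX X l M)) :=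
  Finset.univ.filter fun k => ∃ q, eX X l M k = Sum.inl q

/-- the annihilator -/
def ann {p d : ℕ} (D : Submodule (ZMod p) (Fin d → ZMod p)) :
    Submodule (ZMod p) (Fin d → ZMod p) where
  carrier := {θ | ∀ b ∈ D, dt θ b = 0}
  add_mem' := by
    intro a b ha hb x hx
    rw [adat_dt_add, ha x hx, hb x hx, add_zero]
  zero_mem' := fun x _ => adat_dt_zero x
  smul_mem' := by
    intro r a ha x hx
    rw [adat_dt_smul, ha x hx, mul_zero]

/-- the commutators with `s` -/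
def JS {G : Type} [Group G] (s : G) (W : Subgroup G) : Subgroup G :=
  Subgroup.closure {w | ∃ v ∈ W, w = s * v * s⁻¹ * v⁻¹}

/-- group data for the Galois part -/
structure GX (p d M l N₀ : ℕ) (G : Type) [Group G] where
  χ : G →* Multiplicative (ZMod p)
  τ : G →* Multiplicative (Fin d → ZMod p)
  ψ : G →* Multiplicative (Fin M → ZMod p)
  χs : Function.Surjective χ
  ψs : Function.Surjective ψ
  g : Fin N₀ → G
  pow : ∀ i, g i ^ p = 1
  ne : ∀ i, g i ≠ 1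
  uni : ∀ i j, IsConj (g i) (g j) → i = j
  isx : Finset (Fin N₀)
  cen : Finset (Fin N₀)
  xne : ∀ i ∈ isx, χ (g i) ≠ 1
  rz : ∀ i, i ∉ isx → χ (g i) = 1
  pz : ∀ i, ψ (g i) = 1
  W : Subgroup G
  wn : W.Normal
  wc : ∀ a ∈ W, ∀ b ∈ W, a * b = b * a
  wχ : ∀ w ∈ W, χ w = 1
  s : G
  act : ∀ h : G, ∀ w ∈ W, h * w * h⁻¹ =
    s ^ (Multiplicative.toAdd (χ h)).val * w * (s ^ (Multiplicative.toAdd (χ h)).val)⁻¹
  nm : ∀ w ∈ W, ((List.range p).map fun k => s ^ k * w * (s ^ k)⁻¹).prod = 1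
  cls : ∀ i ∈ isx, ∀ h, IsConj h (g i) → h * (g i)⁻¹ ∈ W
  rel : ∀ i ∈ isx, ∀ F t, IsConj t (g i) → F * t = t * F → ψ F = 1 ∧
    ∀ k, Multiplicative.toAdd (χ t) * Multiplicative.toAdd (τ F) k =
      Multiplicative.toAdd (χ F) * Multiplicative.toAdd (τ t) k
  rc : ∀ i ∈ cen, i ∉ isx ∧ τ (g i) = 1 ∧ ∀ h, IsConj h (g i) → h = g i
  rnc : ∀ i, i ∉ isx → i ∉ cen → Nat.card {h : G // IsConj h (g i)} ≤ p ∧
    ∀ F t, IsConj t (g i) → F * t = t * F → χ F = 1
  cW : Nat.card W = p ^ (d + M + l)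
  cJ : Nat.card (JS s W) = p ^ l

/-- the numerical class data -/
def GX.xc {p d M l N₀ : ℕ} {G : Type} [Group G] (Dg : GX p d M l N₀ G) : XC p d N₀ where
  isx := Dg.isx
  cen := Dg.cen
  a i := Multiplicative.toAdd (Dg.χ (Dg.g i))
  t i := Multiplicative.toAdd (Dg.τ (Dg.g i))

/-- the unrefined class data -/
def GX.c0 {p d M l N₀ : ℕ} {G : Type} [Group G] (Dg : GX p d M l N₀ G) : CR p (d + 1) N₀ where
  x i := Fin.cons (Multiplicative.toAdd (Dg.χ (Dg.g i))) (Multiplicative.toAdd (Dg.τ (Dg.g i)))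
  Θ _ := ⊥
  self i θ hθ := by
    rw [(Submodule.mem_bot _).1 hθ]
    exact adat_dt_zero _

/-- the abelian normal subgroup `j(A)` and the element `s` of order `p` -/
structure AX (p : ℕ) (A G : Type) [CommGroup A] [Group G] where
  j : A →* G
  jinj : Function.Injective j
  θ : A ≃* A
  s : G
  sp : s ^ p = 1
  χ : G →* Multiplicative (ZMod p)
  χs : χ s = Multiplicative.ofAdd 1
  χj : ∀ a, χ (j a) = 1
  cj : ∀ h a, χ h = 1 → h * j a * h⁻¹ = j a
  cs : ∀ a, s * j a * s⁻¹ = j (θ a)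
  com : ∀ h, χ h = 1 → ∃ a, s * h * s⁻¹ * h⁻¹ = j a
  tor : ∀ g : G, g ^ p = 1 → ∃ (a : A) (k : ℕ), g = j a * s ^ k

/-- the commutators of `s` with `ker χ` -/
def AX.W {p : ℕ} {A G : Type} [CommGroup A] [Group G] (ax : AX p A G) : Subgroup A where
  carrier := {a | ∃ h, ax.χ h = 1 ∧ ax.s * h * ax.s⁻¹ * h⁻¹ = ax.j a}
  one_mem' := ⟨1, map_one _, by rw [map_one]; group⟩
  mul_mem' := by
    rintro a b ⟨h, h1, h2⟩ ⟨k, k1, k2⟩
    refine ⟨h * k, by rw [map_mul, h1, k1, one_mul], ?_⟩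
    have e : ax.s * (h * k) * ax.s⁻¹ * (h * k)⁻¹ =
        (ax.s * h * ax.s⁻¹ * h⁻¹) * (h * (ax.s * k * ax.s⁻¹ * k⁻¹) * h⁻¹) := by group
    rw [e, h2, k2, ax.cj h b h1, map_mul]
  inv_mem' := by
    rintro a ⟨h, h1, h2⟩
    refine ⟨h⁻¹, by rw [map_inv, h1, inv_one], ?_⟩
    have e : ax.s * h⁻¹ * ax.s⁻¹ * h⁻¹⁻¹ = h⁻¹ * (ax.s * h * ax.s⁻¹ * h⁻¹)⁻¹ * h⁻¹⁻¹ := by group
    rw [e, h2, ← map_inv, ax.cj h⁻¹ a⁻¹ (by rw [map_inv, h1, inv_one])]

section loc

variable {K : Type} [Field K] [NumberField K] {p : ℕ} {ζ : K} {Ω : Type} [Field Ω] [Algebra K Ω]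

/-- primes of type `i` -/
def TyX {D : RD0 K p ζ} {d M l N₀ : ℕ} {G : Type} [Group G] (Dg : GX p d M l N₀ G)
    (L : LDs D Ω) (φ : Gal(Ω/K) →* G) (i : Fin N₀) (v : Pl K) : Prop :=
  D.Gd v ∧ IsConj (φ (L.t v)) (Dg.g i) ∧ ∀ τ ∈ inr L v, φ τ ^ p = 1

/-- the Kummer elements of the characters ramified at most at `x` and `S0` with the local conditions at `x` -/
def n1S (D : RD0 K p ζ) [NeZero p] (U : Finset Kˣ) (x : Finset (Pl K)) (k₀ : Kˣ) :
    Finset (Kˣ × (↥x → ZMod p)) :=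
  (U ×ˢ (Finset.univ : Finset (↥x → ZMod p))).filter fun e => ∀ v : ↥x,
    ((ord v.1 k₀ : ℤ) : ZMod p) * D.LL v.1 (e.1 * ∏ w : ↥x, D.pi w.1 ^ (e.2 w).val) =
      e.2 v * D.LL v.1 k₀

/-- their number -/
def n1 (D : RD0 K p ζ) [NeZero p] (U : Finset Kˣ) (x : Finset (Pl K)) (k₀ : Kˣ) : ℕ :=
  (n1S D U x k₀).card

/-- the Kummer elements `(b, ε)` -/
def bx {d l : ℕ} (b : Fin (d + 1) → Kˣ) (ε : Fin l → Kˣ) : Fin (d + l + 1) → Kˣ :=
  Fin.cons (b 0) (Fin.append (Fin.tail b) ε)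

/-- the term of `f` in `SWU` -/
def swt {m N : ℕ} (D : RD0 K p ζ) (c : CR p (m + 1) N) (Xs : Finset (Fin N)) {M : ℕ}
    (c₂ : Fin M → Kˣ) (u : ℝ) (b : Fin (m + 1) → Kˣ) (E : Finset (Pl K)) (Y : ℝ)
    (f : Fin N → Finset (Pl K)) : ℝ :=
  if Dj f ∧ (∀ i, Disjoint (f i) E) ∧ ∏ i, nr (f i) ≤ Y ∧ ¬ IsPow p (akR D c b f 0) then
    wtR c f (fun v k => D.LL v (akR D c b f k)) * ∏ i, ∏ v ∈ f i, ww D c₂ u (i ∈ Xs) v else 0

theorem swu_eq {m N : ℕ} (D : RD0 K p ζ) (c : CR p (m + 1) N) (Xs : Finset (Fin N)) {M : ℕ}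
    (c₂ : Fin M → Kˣ) (u : ℝ) (b : Fin (m + 1) → Kˣ) (E : Finset (Pl K)) (Y : ℝ) :
    SWU D c Xs c₂ u b E Y =
      ∑ f ∈ Fintype.piFinset (fun _ : Fin N => GF D Y), swt D c Xs c₂ u b E Y f := rfl

/-- the local conditions at the typed primes, for the Kummer elements `b` of `(χ, τ)` and `c₂` of `ψ` -/
def LocC {d M l N₀ : ℕ} {G : Type} [Group G] (D : RD0 K p ζ) (Dg : GX p d M l N₀ G)
    (b : Fin (d + 1) → Kˣ) (c₂ : Fin M → Kˣ) (f : Fin N₀ → Finset (Pl K)) : Prop :=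
  (∀ i ∈ Dg.isx, ∀ v ∈ f i, (∀ j, D.LL v (c₂ j) = 0) ∧
    ∀ k : Fin d, Multiplicative.toAdd (Dg.χ (Dg.g i)) * D.LL v (akR D Dg.c0 b f k.succ) =
      Multiplicative.toAdd (Dg.τ (Dg.g i)) k * D.LL v (akR D Dg.c0 b f 0)) ∧
  ∀ i, i ∉ Dg.isx → i ∉ Dg.cen → ∀ v ∈ f i, D.LL v (akR D Dg.c0 b f 0) = 0

/-- the typed primes outside `ker χ` -/
def xpr {d M l N₀ : ℕ} {G : Type} [Group G] (Dg : GX p d M l N₀ G)
    (f : Fin N₀ → Finset (Pl K)) : Finset (Pl K) := Dg.isx.biUnion f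

end loc

end H77.AB
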