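import Pool.Agent.H77.AB.WDef
import Pool.Agent.H63.MB.BPhA

/-!
# [H77 AB MSK] the mask as a character sum, 50-90 lines

* `msk_re`: `mk D c₂ v = p^{-M} ∑_z Re ep(z · (LL v (c₂ j))_j)`: orthogonality, `alem_orth` (H63/MA/ALem): `∑_z ep(dt z y) = p^M [y = 0]` for `y : Fin M → ZMod p`, take real parts (`dt` is symmetric).
* `msk_ch`: `aph_rec2` (H63/MB/BPhA) for `θ = z` (with `c₂` in place of `b`, `M` in place of `m`) gives `κ z` with `z · (LL v (c₂ j))_j = ∑_{w ∈ E} lam w * dord c₂ z w * LL w (pi v) + κ z · q v`, which is `fE` by definition. If `z ≠ 0` and all `lam w * dord c₂ z w`, `w ∈ E`, and `κ z` were `0`, then `LL v (bp c₂ z) = z · (LL v (c₂ j))_j = 0` for all good `v` (`aph_bp` in H63/MA/APh),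
  contradiction to `D.non (bp c₂ z)` with `F = ∅` (as in the header of H38/BB/CUbt, see `ubt_chs` there).
* `ww_le`: `0 ≤ ww ≤ 1` for `0 ≤ u ≤ 1`. `mw_ge`: `u * (p^M)⁻¹ ≤ mw` and `0 ≤ mw ≤ 1`.
-/

set_option autoImplicit false

open scoped NumberField
open IsDedekindDomain
open scoped Classical

noncomputable section

namespace H77.AB

open H63.MA H38.BB

variable {K : Type} [Field K] [NumberField K] {p : ℕ} {ζ : K}

theorem msk_re [NeZero p] (hp : p.Prime) (D : RD0 K p ζ) {M : ℕ} (c₂ : Fin M → Kˣ) (v : Pl K) :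
    mk D c₂ v = ((p : ℝ) ^ M)⁻¹ *
      ∑ z : Fin M → ZMod p, (ep p (dt z (fun j => D.LL v (c₂ j)))).re := by
  have hpM : ((p : ℝ) ^ M) ≠ 0 := pow_ne_zero _ (Nat.cast_ne_zero.mpr hp.ne_zero)
  have h1 := alem_orth hp (fun j => D.LL v (c₂ j))
  have h2 : ∑ z : Fin M → ZMod p, (ep p (dt z (fun j => D.LL v (c₂ j)))).re =
      (if (fun j => D.LL v (c₂ j)) = 0 then (p : ℂ) ^ M else 0).re := by
    rw [← h1, Complex.re_sum]
  rw [h2]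
  unfold mk
  by_cases h : ∀ j, D.LL v (c₂ j) = 0
  · have h3 : (fun j => D.LL v (c₂ j)) = 0 := funext h
    rw [if_pos h, if_pos h3]
    have h4 : ((p : ℂ) ^ M).re = (p : ℝ) ^ M := by
      rw [← Complex.ofReal_natCast, ← Complex.ofReal_pow, Complex.ofReal_re]
    rw [h4, inv_mul_cancel₀ hpM]
  · have h3 : ¬ (fun j => D.LL v (c₂ j)) = 0 := fun h3 => h (fun j => congrFun h3 j)
    rw [if_neg h, if_neg h3, Complex.zero_re, mul_zero]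

theorem msk_ch (hp : p.Prime) (hζ : IsPrimitiveRoot ζ p) (D : RD K p ζ) {M : ℕ}
    (c₂ : Fin M → Kˣ) (E : Finset (Pl K)) (hb : BS2 D.toRD0 c₂ E) (hi : Ind p c₂) :
    ∃ κ : (Fin M → ZMod p) → Fin D.r → ZMod p,
      (∀ z v, D.Gd v → dt z (fun j => D.LL v (c₂ j)) =
        fE D.toRD0 E (fun w => D.lam w * dord c₂ z w) (κ z) v) ∧
      ∀ z, z ≠ 0 → (∃ w ∈ E, D.lam w * dord c₂ z w ≠ 0) ∨ κ z ≠ 0 := by
  choose κ hκ using fun z => aph_rec2 D c₂ E hb z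
  refine ⟨κ, fun z v hv => hκ z v hv, fun z hz => ?_⟩
  by_contra hcon
  push Not at hcon
  obtain ⟨h1, h2⟩ := hcon
  obtain ⟨v, hv, _, _, hne⟩ := D.non (bp c₂ z) (hi z hz) ∅
  apply hne
  rw [aph_bp hp hζ D.toRD0 c₂ z hv.1, hκ z v hv, h2]
  have h3 : dt (0 : Fin D.r → ZMod p) (D.q v) = 0 := by simp [dt]
  rw [h3, add_zero]
  exact Finset.sum_eq_zero fun w hw => by rw [h1 w hw, zero_mul]

theorem ww_le (D : RD0 K p ζ) {M : ℕ} (c₂ : Fin M → Kˣ) {u : ℝ} (hu : 0 ≤ u) (hu1 : u ≤ 1)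
    (x : Prop) (v : Pl K) : 0 ≤ ww D c₂ u x v ∧ ww D c₂ u x v ≤ 1 := by
  unfold ww mk
  split_ifs
  · rw [mul_one]
    exact ⟨hu, hu1⟩
  · rw [mul_zero]
    exact ⟨le_refl _, zero_le_one⟩
  · exact ⟨zero_le_one, le_refl _⟩

theorem mw_ge {p : ℕ} (hp : p.Prime) (M : ℕ) {u : ℝ} (hu : 0 ≤ u) (hu1 : u ≤ 1) (x : Prop) :
    u * ((p : ℝ) ^ M)⁻¹ ≤ mw p M u x ∧ 0 ≤ mw p M u x ∧ mw p M u x ≤ 1 := by
  have hp1 : (1 : ℝ) ≤ (p : ℝ) ^ M := one_le_pow₀ (by exact_mod_cast hp.one_lt.le)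
  have hi1 : ((p : ℝ) ^ M)⁻¹ ≤ 1 := inv_le_one_of_one_le₀ hp1
  have hi0 : 0 ≤ ((p : ℝ) ^ M)⁻¹ := by positivity
  have hm : u * ((p : ℝ) ^ M)⁻¹ ≤ 1 := by
    calc u * ((p : ℝ) ^ M)⁻¹ ≤ 1 * 1 := mul_le_mul hu1 hi1 hi0 zero_le_one
      _ = 1 := one_mul 1
  unfold mw
  split_ifs
  · exact ⟨le_refl _, mul_nonneg hu hi0, hm⟩
  · exact ⟨hm, zero_le_one, le_refl _⟩

end H77.AB
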