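import Pool.Agent.H77.AB.Hrc
import Pool.Agent.H77.AB.Msk

/-!
# [H77 AB ABSB] the absolute bound, 60-100 lines

`hrc` for `t v = ∑_{a ∈ Lg} ww(a ∈ X) v` (`0 ≤ t ≤ #J` by `ww_le`; take `A₀ = #J + 1`), index type `ι = J × (Fin M → ZMod p)`: for `a ∈ Lg ∩ X` by `msk_re` and `msk_ch`: `ww v = u p^{-M} ∑_z Re ep(fE E (μ_z) (κ_z) v)` for good `v`, `μ_z w = lam w * dord c₂ z w`; for `a ∈ Lg \ X`: `ww v = 1 = Re ep(fE E 0 0 v)` (index `z = 0`).
So `μ (a, z) = μ_z`, `κ (a, z) = κ_z` for `a ∈ X`, `0` for `a ∉ X`, and `cf (a, z) = 0` if `a ∉ Lg`; `u p^{-M}` if `a ∈ Lg ∩ X`; `[z = 0]` if `a ∈ Lg \ X` (`0 ≤ cf ≤ 1`). For `a ∈ X` and `z ≠ 0` the character is not trivial (`msk_ch`; here `Ind` is used), so the sum of the `cf` over the trivial ones is at most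
`∑_{a ∈ Lg ∩ X} u p^{-M} + #(Lg \ X) = ∑_{a ∈ Lg} mw`. (For `z = 0`, `a ∈ X` the term is counted in the bound whether or not `κ_0 = 0`, `cf ≥ 0`.)
-/

set_option autoImplicit false

open scoped NumberField
open IsDedekindDomain
open scoped Classical

noncomputable section

namespace H77.AB

open H63.MA H38.BB

theorem absb {K : Type} [Field K] [NumberField K] {p : ℕ} {ζ : K} [NeZero p] (hp : p.Prime)
    (hζ : IsPrimitiveRoot ζ p) (D : RD K p ζ) (J : Type) [Fintype J] (M : ℕ) (u η : ℝ)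
    (hu : 0 ≤ u) (hu1 : u ≤ 1) (hη : 0 < η) :
    ∃ C : ℝ, 0 < C ∧ ∀ (E : Finset (Pl K)) (c₂ : Fin M → Kˣ), BS2 D.toRD0 c₂ E → Ind p c₂ →
      ∀ (X Lg : Finset J) (Y : ℝ), 3 ≤ Y →
        ∑ n ∈ (GF D.toRD0 Y).filter (fun n => Disjoint n E),
          ∏ v ∈ n, ∑ a ∈ Lg, ww D.toRD0 c₂ u (a ∈ X) v ≤
          C * nr E ^ η * Y * Real.log Y ^ (∑ a ∈ Lg, mw p M u (a ∈ X) - 1) := by
  obtain ⟨C, hC, hall⟩ := hrc hp hζ D (J × (Fin M → ZMod p)) ((Fintype.card J : ℝ) + 1) η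
    (by positivity) hη
  refine ⟨C, hC, fun E c₂ hb hi X Lg Y hY => ?_⟩
  obtain ⟨κ, hκ, hκ2⟩ := msk_ch hp hζ D c₂ E hb hi
  have hpM : (1 : ℝ) ≤ (p : ℝ) ^ M := one_le_pow₀ (by exact_mod_cast hp.one_lt.le)
  have hpM1 : ((p : ℝ) ^ M)⁻¹ ≤ 1 := inv_le_one_of_one_le₀ hpM
  have hpM0 : 0 ≤ ((p : ℝ) ^ M)⁻¹ := by positivity
  have hup : 0 ≤ u * ((p : ℝ) ^ M)⁻¹ ∧ u * ((p : ℝ) ^ M)⁻¹ ≤ 1 :=
    ⟨mul_nonneg hu hpM0, mul_le_one₀ hu1 hpM0 hpM1⟩
  obtain ⟨μ', hμ'⟩ : ∃ μ' : J × (Fin M → ZMod p) → Pl K → ZMod p, μ' = fun j =>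
      if j.1 ∈ X then fun w => D.lam w * dord c₂ j.2 w else 0 := ⟨_, rfl⟩
  obtain ⟨κ', hκ'⟩ : ∃ κ' : J × (Fin M → ZMod p) → Fin D.r → ZMod p, κ' = fun j =>
      if j.1 ∈ X then κ j.2 else 0 := ⟨_, rfl⟩
  obtain ⟨cf, hcf⟩ : ∃ cf : J × (Fin M → ZMod p) → ℝ, cf = fun j =>
      if j.1 ∈ Lg then (if j.1 ∈ X then u * ((p : ℝ) ^ M)⁻¹ else if j.2 = 0 then 1 else 0)
        else 0 := ⟨_, rfl⟩
  have hcf01 : ∀ j, 0 ≤ cf j ∧ cf j ≤ 1 := by
    intro j
    rw [hcf]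
    simp only
    split_ifs
    · exact hup
    · exact ⟨zero_le_one, le_rfl⟩
    · exact ⟨le_rfl, zero_le_one⟩
    · exact ⟨le_rfl, zero_le_one⟩
  have hcard : (0 : ℝ) ≤ Fintype.card J := Nat.cast_nonneg _
  refine hall E hb.1 μ' κ' cf (fun v => ∑ a ∈ Lg, ww D.toRD0 c₂ u (a ∈ X) v)
    (∑ a ∈ Lg, mw p M u (a ∈ X)) (fun j => ⟨(hcf01 j).1, (hcf01 j).2.trans (by linarith)⟩)
    (fun v => ⟨?_, ?_⟩) (fun v hv _ => ?_) ?_ Y hY
  · exact Finset.sum_nonneg fun a _ => (ww_le D.toRD0 c₂ hu hu1 _ v).1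
  · have h1 : ∑ a ∈ Lg, ww D.toRD0 c₂ u (a ∈ X) v ≤ ∑ _a ∈ Lg, (1 : ℝ) :=
      Finset.sum_le_sum fun a _ => (ww_le D.toRD0 c₂ hu hu1 _ v).2
    rw [Finset.sum_const, nsmul_eq_mul, mul_one] at h1
    have h2 : (Lg.card : ℝ) ≤ Fintype.card J := by exact_mod_cast Finset.card_le_univ Lg
    linarith
  · rw [Fintype.sum_prod_type]
    have e1 : ∑ a ∈ Lg, ww D.toRD0 c₂ u (a ∈ X) v =
        ∑ a : J, if a ∈ Lg then ww D.toRD0 c₂ u (a ∈ X) v else 0 := by
      rw [← Finset.sum_filter]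
      congr 1
      ext a
      simp
    rw [e1]
    refine Finset.sum_le_sum fun a _ => ?_
    rw [hcf, hμ', hκ']
    simp only
    by_cases ha : a ∈ Lg
    · by_cases hx : a ∈ X
      · simp only [if_pos ha, if_pos hx]
        unfold ww
        rw [if_pos hx, msk_re hp D.toRD0 c₂ v, ← mul_assoc, Finset.mul_sum]
        refine (Finset.sum_le_sum fun z _ => ?_)
        rw [hκ z v hv]
      · simp only [if_pos ha, if_neg hx]
        unfold ww
        rw [if_neg hx]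
        have e2 : fE D.toRD0 E (0 : Pl K → ZMod p) 0 v = 0 := by
          unfold fE dt
          simp
        rw [e2, ep_zero]
        simp
    · simp only [if_neg ha, zero_mul]
      exact (Finset.sum_const_zero).ge
  · rw [Finset.sum_filter, Fintype.sum_prod_type]
    have e1 : ∑ a ∈ Lg, mw p M u (a ∈ X) =
        ∑ a : J, if a ∈ Lg then mw p M u (a ∈ X) else 0 := by
      rw [← Finset.sum_filter]
      congr 1
      ext a
      simp
    rw [e1]
    refine Finset.sum_le_sum fun a _ => ?_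
    have e3 : ∀ z : Fin M → ZMod p,
        (if (∀ w ∈ E, μ' (a, z) w = 0) ∧ κ' (a, z) = 0 then cf (a, z) else 0) ≤
          if z = 0 then (if a ∈ Lg then mw p M u (a ∈ X) else 0) else 0 := by
      intro z
      by_cases hz : z = 0
      · rw [if_pos hz]
        have e4 : cf (a, z) = if a ∈ Lg then mw p M u (a ∈ X) else 0 := by
          rw [hcf]
          simp only [if_pos hz]
          unfold mw
          by_cases hx : a ∈ X
          · simp only [if_pos hx]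
          · simp only [if_neg hx]
        rw [← e4]
        split_ifs
        · exact le_rfl
        · exact (hcf01 _).1
      · rw [if_neg hz]
        by_cases hx : a ∈ X
        · rw [if_neg]
          rintro ⟨h1, h2⟩
          rw [hμ'] at h1
          rw [hκ'] at h2
          simp only [if_pos hx] at h1 h2
          rcases hκ2 z hz with ⟨w, hw, h3⟩ | h3
          · exact h3 (h1 w hw)
          · exact h3 h2
        · have e4 : cf (a, z) = 0 := by
            rw [hcf]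
            simp only [if_neg hz, if_neg hx, ite_self]
          rw [e4, ite_self]
    refine (Finset.sum_le_sum fun z _ => e3 z).trans (le_of_eq ?_)
    rw [Finset.sum_ite_eq' Finset.univ (0 : Fin M → ZMod p), if_pos (Finset.mem_univ _)]

end H77.AB
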