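import Pool.Agent.H77.AB.Part
import Pool.Agent.H77.AB.AbsB

/-!
# [H77 AB BLKA] absolute bound for a block, 100-150 lines

Proof. If `E` contains a prime of `S0` there is nothing special: `BS2` excludes it. In `TW` take absolute values: `|ep| = 1`, `|Wt a (s a)| ≤ 1` for `a ∉ Lg` and `|Wt a (g a)| = ∏_{v ∈ g a} ww v` for `a ∈ Lg` (`ww_le`). Drop the conditions `z < nr (g a)`. Put `Y' = Y / sn Lg s` (`∏_a nr (g a) = sn Lg s * ∏_{a ∈ Lg} nr (g a)`, `sn` in H63/MA/AKSum).
So `|TW| ≤ ∑_g ∏_{a ∈ Lg} ∏_{v ∈ g a} ww v` over the pairwise disjoint families `(g a)_{a ∈ Lg}` of sets in `GF Y'` disjoint from `E` with `∏_{a ∈ Lg} nr (g a) ≤ Y'`. By `part` with `ι = J` (or `{a // a ∈ Lg}`), `κ = Unit`, `F = 1`, `h f a v = if a ∈ Lg then ww(a ∈ X) v else 0` (the families with `g a ≠ ∅` for some `a ∉ Lg` have product `0`;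
replace `g` by the family which is `∅` outside `Lg`) this is `∑_{n ∈ GF Y', n ∩ E = ∅} ∏_{v ∈ n} ∑_{a ∈ Lg} ww v`, and `absb` applies to `Y' ≥ Y^{1/2} ≥ 3`: `≤ C (nr E)^η Y' (log Y')^{γ - 1}`, `γ = ∑ mw`. If `γ ≥ 1`: `(log Y')^{γ-1} ≤ (log Y)^{γ-1}` (`sn ≥ 1`). If `γ < 1`: `log Y' ≥ (1/2) log Y`, so
`(log Y')^{γ-1} ≤ 2^{1-γ} (log Y)^{γ-1} ≤ 2 (log Y)^{γ-1}` (`γ ≥ 0`).
-/

set_option autoImplicit false

open scoped NumberField
open IsDedekindDomain
open scoped Classical

noncomputable section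

namespace H77.AB

open H63.MA H38.BB

/-- the product formula for the large variables -/
theorem blka_part {K : Type} [Field K] [NumberField K] {p : ℕ} {ζ : K} (D : RD0 K p ζ)
    {J : Type} [Fintype J] (E : Finset (Pl K)) (Y : ℝ) (h : J → Pl K → ℝ) :
    ∑ g ∈ Fintype.piFinset (fun _ : J => GF D Y),
      (if Dj g ∧ (∀ a, Disjoint (g a) E) ∧ ∏ a, nr (g a) ≤ Y then
        ∏ a, ∏ v ∈ g a, h a v else 0) =
    ∑ n ∈ (GF D Y).filter (fun n => Disjoint n E), ∏ v ∈ n, ∑ a, h a v := by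
  have h1 := part (ι := J) (κ := Unit) D (fun _ => ()) E Y (fun _ => 1)
    (fun _ a v => ((h a v : ℝ) : ℂ))
  have e0 : ∀ F : Unit → ℝ, ∏ i, F i = F () := fun F => by simp
  have e0' : ∀ F : Unit → ℂ, ∏ i, F i = F () := fun F => by simp
  have h2 : ∑ f ∈ Fintype.piFinset (fun _ : Unit => GF D Y),
      (if Dj f ∧ (∀ i, Disjoint (f i) E) ∧ ∏ i, nr (f i) ≤ Y then
        (fun _ : Unit → Finset (Pl K) => (1 : ℂ)) f * ∏ i, ∏ v ∈ f i,
          ∑ a ∈ Finset.univ.filter (fun a : J => (fun _ : J => ()) a = i),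
          (fun (_ : Unit → Finset (Pl K)) a v => ((h a v : ℝ) : ℂ)) f a v else 0) =
      ((∑ n ∈ (GF D Y).filter (fun n => Disjoint n E), ∏ v ∈ n, ∑ a, h a v : ℝ) : ℂ) := by
    rw [Finset.sum_filter]
    push_cast
    refine Finset.sum_nbij' (fun f => f ()) (fun n _ => n) ?_ ?_ ?_ ?_ ?_
    · intro f hf
      exact Fintype.mem_piFinset.1 hf ()
    · intro n hn
      exact Fintype.mem_piFinset.2 fun _ => hn
    · intro f _
      funext i
      rfl
    · intro n _
      rfl
    · intro f hf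
      have e1 : (f ()) ∈ GF D Y := Fintype.mem_piFinset.1 hf ()
      have e2 : (Dj f ∧ (∀ i, Disjoint (f i) E) ∧ ∏ i, nr (f i) ≤ Y) ↔ Disjoint (f ()) E := by
        constructor
        · intro h
          exact h.2.1 ()
        · intro h
          refine ⟨fun a a' haa => absurd (Subsingleton.elim a a') haa, fun _ => h, ?_⟩
          rw [e0]
          exact (rx_mem_GF.1 e1).1
      by_cases h : Disjoint (f ()) E
      · rw [if_pos (e2.2 h), if_pos h, e0', one_mul]
        push_cast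
        refine Finset.prod_congr rfl fun v _ => ?_
        refine Finset.sum_congr ?_ fun a _ => rfl
        ext a
        simp
      · rw [if_neg (fun h' => h (e2.1 h')), if_neg h, Complex.ofReal_zero]
  have h1' := h2.symm.trans h1
  have h3 : ((∑ g ∈ Fintype.piFinset (fun _ : J => GF D Y),
      (if Dj g ∧ (∀ a, Disjoint (g a) E) ∧ ∏ a, nr (g a) ≤ Y then
        ∏ a, ∏ v ∈ g a, h a v else 0) : ℝ) : ℂ) =
      ∑ g ∈ Fintype.piFinset (fun _ : J => GF D Y),
      if Dj g ∧ (∀ a, Disjoint (g a) E) ∧ ∏ a, nr (g a) ≤ Y then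
        ∏ a, ∏ v ∈ g a, ((h a v : ℝ) : ℂ) else 0 := by
    rw [Complex.ofReal_sum]
    refine Finset.sum_congr rfl fun g _ => ?_
    split_ifs
    · push_cast
      rfl
    · exact Complex.ofReal_zero
  simp only [one_mul] at h1'
  rw [← h3] at h1'
  exact (Complex.ofReal_injective h1').symm

/-- removing the small variables -/
theorem blka_drop {K : Type} [Field K] [NumberField K] {p : ℕ} {ζ : K} (D : RD0 K p ζ)
    {m : ℕ} {J : Type} [Fintype J] (P : PD p m J) (b : Fin m → Kˣ) (E : Finset (Pl K)) {M : ℕ}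
    (c₂ : Fin M → Kˣ) {u : ℝ} (hu : 0 ≤ u) (hu1 : u ≤ 1) (X Lg : Finset J)
    (s : J → Finset (Pl K)) (Y z : ℝ) :
    ‖TW D P b E (Wt D c₂ u X) Y z Lg s‖ ≤
      ∑ n ∈ (GF D (Y / sn Lg s)).filter (fun n => Disjoint n E),
        ∏ v ∈ n, ∑ a ∈ Lg, ww D c₂ u (a ∈ X) v := by
  have hsn : 0 < sn Lg s := by
    unfold sn
    exact Finset.prod_pos fun a _ => lt_of_lt_of_le one_pos (one_le_nr _)
  obtain ⟨h, hh⟩ : ∃ h : J → Pl K → ℝ, h = fun a v =>
      if a ∈ Lg then ww D c₂ u (a ∈ X) v else 0 := ⟨_, rfl⟩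
  have hh0 : ∀ a v, 0 ≤ h a v := by
    intro a v
    rw [hh]
    simp only
    split_ifs
    · exact (ww_le D c₂ hu hu1 _ v).1
    · exact le_rfl
  have hsum : ∀ v, ∑ a, h a v = ∑ a ∈ Lg, ww D c₂ u (a ∈ X) v := by
    intro v
    rw [hh]
    simp only
    rw [← Finset.sum_filter]
    refine Finset.sum_congr ?_ fun a _ => rfl
    ext a
    simp
  have hpart := blka_part D E (Y / sn Lg s) h
  simp only [hsum] at hpart
  rw [← hpart]
  unfold TW
  refine (norm_sum_le _ _).trans ?_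
  obtain ⟨cut, hcut⟩ : ∃ cut : (J → Finset (Pl K)) → J → Finset (Pl K), cut = fun g a =>
      if a ∈ Lg then g a else ∅ := ⟨_, rfl⟩
  obtain ⟨G, hG⟩ : ∃ G : (J → Finset (Pl K)) → ℝ, G = fun g =>
      if Dj g ∧ (∀ a, Disjoint (g a) E) ∧ ∏ a, nr (g a) ≤ Y / sn Lg s then
        ∏ a, ∏ v ∈ g a, h a v else 0 := ⟨_, rfl⟩
  obtain ⟨F, hF⟩ : ∃ F : (J → Finset (Pl K)) → ℝ, F = fun g =>
      ‖(if Dj g ∧ (∀ a, Disjoint (g a) E) ∧ (∀ a ∈ Lg, z < nr (g a)) ∧ ∏ a, nr (g a) ≤ Y then
        (∏ a, Wt D c₂ u X a (g a)) * ep p (ph D P b g) else 0 : ℂ)‖ := ⟨_, rfl⟩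
  have hG0 : ∀ g, 0 ≤ G g := by
    intro g
    rw [hG]
    simp only
    split_ifs
    · exact Finset.prod_nonneg fun a _ => Finset.prod_nonneg fun v _ => hh0 a v
    · exact le_rfl
  have hnr : ∀ g : J → Finset (Pl K), (∀ a, a ∉ Lg → g a = s a) →
      ∏ a, nr (g a) = (∏ a, nr (cut g a)) * sn Lg s := by
    intro g hg
    unfold sn
    rw [Finset.prod_filter, ← Finset.prod_mul_distrib]
    refine Finset.prod_congr rfl fun a _ => ?_
    rw [hcut]
    simp only
    by_cases ha : a ∈ Lg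
    · rw [if_pos ha, if_neg (fun h => h ha), mul_one]
    · have e1 : nr (∅ : Finset (Pl K)) = 1 := by
        unfold nr
        exact Finset.prod_empty
      rw [if_neg ha, if_pos ha, hg a ha, e1, one_mul]
  have hmem : ∀ g ∈ Fintype.piFinset (fun a => if a ∈ Lg then GF D Y else {s a}),
      (∀ a, a ∉ Lg → g a = s a) ∧ ∀ a, a ∈ Lg → g a ∈ GF D Y := by
    intro g hg
    rw [Fintype.mem_piFinset] at hg
    refine ⟨fun a ha => ?_, fun a ha => ?_⟩
    · have := hg a
      rw [if_neg ha, Finset.mem_singleton] at this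
      exact this
    · have := hg a
      rwa [if_pos ha] at this
  have hle : ∀ g ∈ Fintype.piFinset (fun a => if a ∈ Lg then GF D Y else {s a}),
      F g ≤ G (cut g) ∧ (G (cut g) ≠ 0 → cut g ∈ Fintype.piFinset
        (fun _ : J => GF D (Y / sn Lg s))) := by
    intro g hg
    obtain ⟨hg1, hg2⟩ := hmem g hg
    constructor
    · rw [hF]
      simp only
      by_cases hc : Dj g ∧ (∀ a, Disjoint (g a) E) ∧ (∀ a ∈ Lg, z < nr (g a)) ∧
          ∏ a, nr (g a) ≤ Y
      · rw [if_pos hc, norm_mul, ep_norm, mul_one, norm_prod, hG]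
        simp only
        have hc' : Dj (cut g) ∧ (∀ a, Disjoint (cut g a) E) ∧
            ∏ a, nr (cut g a) ≤ Y / sn Lg s := by
          refine ⟨fun a a' haa => ?_, fun a => ?_, ?_⟩
          · rw [hcut]
            simp only
            split_ifs
            · exact hc.1 a a' haa
            · exact Finset.disjoint_empty_right _
            · exact Finset.disjoint_empty_left _
            · exact Finset.disjoint_empty_left _
          · rw [hcut]
            simp only
            split_ifs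
            · exact hc.2.1 a
            · exact Finset.disjoint_empty_left _
          · rw [le_div_iff₀ hsn, ← hnr g hg1]
            exact hc.2.2.2
        rw [if_pos hc']
        refine Finset.prod_le_prod (fun a _ => norm_nonneg _) fun a _ => ?_
        have hW : ‖Wt D c₂ u X a (g a)‖ = ∏ v ∈ g a, ww D c₂ u (a ∈ X) v := by
          unfold Wt
          rw [Complex.norm_real, Real.norm_of_nonneg]
          exact Finset.prod_nonneg fun v _ => (ww_le D c₂ hu hu1 _ v).1
        rw [hW, hcut, hh]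
        simp only
        by_cases ha : a ∈ Lg
        · simp only [if_pos ha]
          exact le_rfl
        · simp only [if_neg ha]
          rw [Finset.prod_empty]
          exact Finset.prod_le_one (fun v _ => (ww_le D c₂ hu hu1 _ v).1)
            fun v _ => (ww_le D c₂ hu hu1 _ v).2
      · rw [if_neg hc, norm_zero]
        exact hG0 _
    · intro hne
      rw [hG] at hne
      simp only at hne
      have hc : Dj (cut g) ∧ (∀ a, Disjoint (cut g a) E) ∧
          ∏ a, nr (cut g a) ≤ Y / sn Lg s := by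
        by_contra hcon
        rw [if_neg hcon] at hne
        exact hne rfl
      rw [Fintype.mem_piFinset]
      intro a
      rw [rx_mem_GF]
      constructor
      · refine le_trans ?_ hc.2.2
        rw [← Finset.mul_prod_erase _ _ (Finset.mem_univ a)]
        have e1 : 1 ≤ ∏ x ∈ Finset.univ.erase a, nr (cut g x) := by
          calc (1 : ℝ) = ∏ x ∈ Finset.univ.erase a, (1 : ℝ) := Finset.prod_const_one.symm
            _ ≤ _ := Finset.prod_le_prod (fun _ _ => zero_le_one) fun x _ => one_le_nr _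
        exact le_mul_of_one_le_right (by linarith [one_le_nr (cut g a)]) e1
      · intro v hv
        by_cases ha : a ∈ Lg
        · have e1 : cut g a = g a := by
            rw [hcut]
            simp only [if_pos ha]
          rw [e1] at hv
          exact (rx_mem_GF.1 (hg2 a ha)).2 v hv
        · have e1 : cut g a = ∅ := by
            rw [hcut]
            simp only [if_neg ha]
          rw [e1] at hv
          exact absurd hv (Finset.notMem_empty v)
  have hinj : ∀ g ∈ Fintype.piFinset (fun a => if a ∈ Lg then GF D Y else {s a}),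
      ∀ g' ∈ Fintype.piFinset (fun a => if a ∈ Lg then GF D Y else {s a}),
        cut g = cut g' → g = g' := by
    intro g hg g' hg' he
    funext a
    by_cases ha : a ∈ Lg
    · have e1 := congrFun he a
      rw [hcut] at e1
      simp only [if_pos ha] at e1
      exact e1
    · rw [(hmem g hg).1 a ha, (hmem g' hg').1 a ha]
  have hgoal : ∑ g ∈ Fintype.piFinset (fun a => if a ∈ Lg then GF D Y else {s a}), F g ≤
      ∑ g ∈ Fintype.piFinset (fun _ : J => GF D (Y / sn Lg s)), G g := by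
    calc ∑ g ∈ Fintype.piFinset (fun a => if a ∈ Lg then GF D Y else {s a}), F g ≤
        ∑ g ∈ Fintype.piFinset (fun a => if a ∈ Lg then GF D Y else {s a}), G (cut g) :=
          Finset.sum_le_sum fun g hg => (hle g hg).1
      _ = ∑ g ∈ (Fintype.piFinset (fun a => if a ∈ Lg then GF D Y else {s a})).image cut, G g := by
          rw [Finset.sum_image]
          intro g hg g' hg' he
          exact hinj g hg g' hg' he
      _ = ∑ g ∈ ((Fintype.piFinset (fun a => if a ∈ Lg then GF D Y else {s a})).image cut).filter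
            (fun g => G g ≠ 0), G g := (Finset.sum_filter_ne_zero _).symm
      _ ≤ _ := by
          refine Finset.sum_le_sum_of_subset_of_nonneg ?_ fun g _ _ => hG0 g
          intro g hg
          rw [Finset.mem_filter, Finset.mem_image] at hg
          obtain ⟨⟨g', hg', rfl⟩, hne⟩ := hg
          exact (hle g' hg').2 hne
  rw [hF, hG] at hgoal
  exact hgoal

theorem blka {K : Type} [Field K] [NumberField K] {p : ℕ} {ζ : K} [NeZero p] (hp : p.Prime)
    (hζ : IsPrimitiveRoot ζ p) (D : RD K p ζ) {m : ℕ} {J : Type} [Fintype J] (P : PD p m J)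
    (M : ℕ) (u η : ℝ) (hu : 0 ≤ u) (hu1 : u ≤ 1) (hη : 0 < η) :
    ∃ C : ℝ, 0 < C ∧ ∀ (X : Finset J) (b : Fin m → Kˣ) (E : Finset (Pl K)) (c₂ : Fin M → Kˣ),
      BS2 D.toRD0 c₂ E → Ind p c₂ → ∀ (Lg : Finset J) (s : J → Finset (Pl K)) (Y z : ℝ),
        9 ≤ Y → sn Lg s ≤ Y ^ (1 / 2 : ℝ) →
        ‖TW D.toRD0 P b E (Wt D.toRD0 c₂ u X) Y z Lg s‖ ≤
          C * nr E ^ η * (Y / sn Lg s) *
            Real.log Y ^ (∑ a ∈ Lg, mw p M u (a ∈ X) - 1) := by
  obtain ⟨C, hC, hall⟩ := absb hp hζ D J M u η hu hu1 hη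
  refine ⟨2 * C, by positivity, fun X b E c₂ hb hi Lg s Y z hY hsY => ?_⟩
  have hY0 : 0 < Y := by linarith
  have hsn1 : 1 ≤ sn Lg s := by
    unfold sn
    calc (1 : ℝ) = ∏ a ∈ Finset.univ.filter (fun a => a ∉ Lg), (1 : ℝ) :=
          Finset.prod_const_one.symm
      _ ≤ _ := Finset.prod_le_prod (fun _ _ => zero_le_one) fun x _ => one_le_nr _
  have hsn : 0 < sn Lg s := by linarith
  have hhalf : Y ^ (1 / 2 : ℝ) * Y ^ (1 / 2 : ℝ) = Y := by
    rw [← Real.rpow_add hY0]
    norm_num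
  have hh0 : 0 < Y ^ (1 / 2 : ℝ) := Real.rpow_pos_of_pos hY0 _
  have hh3 : 3 ≤ Y ^ (1 / 2 : ℝ) := by
    by_contra hcon
    push Not at hcon
    nlinarith
  obtain ⟨Y', hY'⟩ : ∃ Y', Y' = Y / sn Lg s := ⟨_, rfl⟩
  have hY'1 : Y ^ (1 / 2 : ℝ) ≤ Y' := by
    rw [hY', le_div_iff₀ hsn]
    calc Y ^ (1 / 2 : ℝ) * sn Lg s ≤ Y ^ (1 / 2 : ℝ) * Y ^ (1 / 2 : ℝ) :=
          mul_le_mul_of_nonneg_left hsY hh0.le
      _ = Y := hhalf
  have hY'Y : Y' ≤ Y := by
    rw [hY']
    exact div_le_self hY0.le hsn1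
  have hY'0 : 0 < Y' := by linarith
  have h1 := blka_drop D.toRD0 P b E c₂ hu hu1 X Lg s Y z
  rw [← hY'] at h1 ⊢
  have h2 := hall E c₂ hb hi X Lg Y' (by linarith)
  refine h1.trans (h2.trans ?_)
  obtain ⟨γ, hγ⟩ : ∃ γ, γ = ∑ a ∈ Lg, mw p M u (a ∈ X) := ⟨_, rfl⟩
  rw [← hγ]
  have hγ0 : 0 ≤ γ := by
    rw [hγ]
    exact Finset.sum_nonneg fun a _ => (mw_ge hp M hu hu1 _).2.1
  have hL3 : 0 < Real.log Y' := Real.log_pos (by linarith)
  have hLY : 0 < Real.log Y := Real.log_pos (by linarith)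
  have hLL : Real.log Y' ≤ Real.log Y := Real.log_le_log hY'0 hY'Y
  have hLh : 1 / 2 * Real.log Y ≤ Real.log Y' := by
    have e1 := Real.log_le_log hh0 hY'1
    rwa [Real.log_rpow hY0] at e1
  have hkey : Real.log Y' ^ (γ - 1) ≤ 2 * Real.log Y ^ (γ - 1) := by
    have hp0 : 0 < Real.log Y ^ (γ - 1) := Real.rpow_pos_of_pos hLY _
    rcases le_or_gt 1 γ with hg | hg
    · have e1 : Real.log Y' ^ (γ - 1) ≤ Real.log Y ^ (γ - 1) :=
        Real.rpow_le_rpow hL3.le hLL (by linarith)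
      linarith
    · have e1 : Real.log Y' ^ (γ - 1) ≤ (1 / 2 * Real.log Y) ^ (γ - 1) :=
        Real.rpow_le_rpow_of_nonpos (by positivity) hLh (by linarith)
      rw [Real.mul_rpow (by norm_num) hLY.le] at e1
      have e2 : (1 / 2 : ℝ) ^ (γ - 1) ≤ 2 := by
        have e3 : (1 / 2 : ℝ) ^ (γ - 1) = 2 ^ (1 - γ) := by
          rw [one_div, Real.inv_rpow (by norm_num), ← Real.rpow_neg (by norm_num)]
          congr 1
          ring
        rw [e3]
        calc (2 : ℝ) ^ (1 - γ) ≤ 2 ^ (1 : ℝ) :=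
              Real.rpow_le_rpow_of_exponent_le (by norm_num) (by linarith)
          _ = 2 := Real.rpow_one 2
      exact e1.trans (mul_le_mul_of_nonneg_right e2 hp0.le)
  have hnrE : 0 ≤ nr E ^ η := Real.rpow_nonneg (by linarith [one_le_nr E]) _
  have hC0 : 0 ≤ C * nr E ^ η * Y' := by positivity
  calc C * nr E ^ η * Y' * Real.log Y' ^ (γ - 1) ≤
      C * nr E ^ η * Y' * (2 * Real.log Y ^ (γ - 1)) := mul_le_mul_of_nonneg_left hkey hC0
    _ = 2 * C * nr E ^ η * Y' * Real.log Y ^ (γ - 1) := by ring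

end H77.AB
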