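import Pool.Agent.H77.AB.WDef
import Pool.Agent.H63.MB.BPhB

/-!
# [H77 AB PHU] the phase of pairwise unlinked large variables, 150-250 lines (adaptation of `ph_cls2`, H63/MB/BPhB)

`Lg` pairwise unlinked (no condition on the small variables and on `E`). For all admissible `g` with `g = s` outside `Lg`: `ph g = ∑_{a ∈ Lg} ∑_{v ∈ g a} fE E' (muU a) 0 v + F (classes)`, `E' = akbE E Lg s = E ∪ ⋃_{l ∉ Lg} s l` (H63/MA/AKB), `muU` in WDef.

Proof (copy the proofs of `ph_cls` in H63/MA/APh.lean and `ph_cls2` in H63/MB/BPhB.lean). If no admissible `g` exists take anything. Otherwise the `s l`, `l ∉ Lg`, are pairwise disjoint, disjoint from `E` and good. `ph g` (H63/MA/ADef) is the sum of the linear terms `∑_{v ∈ g a} θ_a · (LL v (b k))_k` and of the terms `(θ_a · x_{a'}) Lf (g a) (pf (g a'))`, over all `a, a'`.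
(1) Terms with all indices outside `Lg`: a constant `c₀` (depends only on `s`). (2) Linear terms of `a ∈ Lg`: `aph_rec2` (H63/MB/BPhA) for `θ_a`: `∑_{v ∈ g a} (∑_{w ∈ E} lam w * dord b θ_a w * LL w (pi v) + κ_a · q v)`; the second part is `κ_a · qf (g a)`. (3) `a ∈ Lg`, `l ∉ Lg`: `(θ_a · x_l) Lf (g a) (pf (s l)) + (θ_l · x_a) Lf (s l) (pf (g a))`
`= lk a l * Lf (s l) (pf (g a)) + (θ_a · x_l) η(qf (s l), qf (g a))` by `aph_swap` (`lf_swap`; `g a`, `s l` disjoint and good) and `Lf (s l) (pf (g a)) = ∑_{w ∈ s l} ∑_{v ∈ g a} LL w (pi v)` (`aph_W`). (4) `a ≠ a'` in `Lg`: the two terms together are `(θ_a · x_{a'}) (Lf (g a) (pf (g a')) - Lf (g a') (pf (g a)))` as `lk a a' = 0`, i.e. `(θ_a · x_{a'}) η(qf (g a'), qf (g a))`; the term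
`(a, a)` has coefficient `θ_a · x_a = 0`. To sum over unordered pairs use an injective function `ρ` from `J` to `ℕ` (`Fintype.equivFin`) (or, as the expression is symmetric: `(θ_a · x_{a'}) η(q', q) = -(θ_{a'} · x_a) η(q', q)`). So `F q = c₀ + ∑_{a ∈ Lg} κ_a · q a + ∑_{a ∈ Lg, l ∉ Lg} (θ_a · x_l) η(qf (s l), q a) + ∑_{a, a' ∈ Lg, ρ a < ρ a'} (θ_a · x_{a'}) η(q a', q a)`.
The remaining terms are, for `a ∈ Lg`, `v ∈ g a`: `∑_{w ∈ E} lam w * dord * LL w (pi v) + ∑_{l ∉ Lg} lk a l ∑_{w ∈ s l} LL w (pi v) = ∑_{w ∈ E'} muU a w * LL w (pi v)` (the sets `E`, `s l` are pairwise disjoint; for `w ∈ E'` the second sum in `muU` has at most one nonzero term), `= fE D E' (muU a) 0 v`.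
-/

set_option autoImplicit false

open scoped NumberField
open IsDedekindDomain
open scoped Classical

noncomputable section

namespace H77.AB

open H63.MA H38.BB

private theorem phu_fE {K : Type} [Field K] [NumberField K] {p : ℕ} {ζ : K} {m : ℕ} {J : Type}
    [Fintype J] (D : RD K p ζ) (P : PD p m J) (b : Fin m → Kˣ) (E : Finset (Pl K))
    (Lg : Finset J) (s : J → Finset (Pl K)) (a : J) (v : Pl K) (Lo : Finset J)
    (hmLo : ∀ l, l ∈ Lo ↔ l ∉ Lg) :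
    fE D.toRD0 (akbE E Lg s) (muU D P b E Lg s a) 0 v =
      ∑ w ∈ E, D.lam w * dord b (P.θ a) w * D.LL w (D.pi v) +
        ∑ l ∈ Lo, P.lk a l * ∑ w ∈ s l, D.LL w (D.pi v) := by
  have hLo : (Finset.univ.filter fun l => l ∉ Lg) = Lo := by
    ext l
    rw [Finset.mem_filter, hmLo]
    simp
  have h0 : dt (0 : Fin D.r → ZMod p) (D.q v) = 0 := by
    unfold dt
    simp
  have hE : E ⊆ akbE E Lg s := by
    unfold akbE
    exact Finset.subset_union_left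
  have hs : ∀ l ∈ Lo, s l ⊆ akbE E Lg s := by
    intro l hl
    unfold akbE
    refine Finset.Subset.trans ?_ Finset.subset_union_right
    refine Finset.subset_biUnion_of_mem s ?_
    rw [hLo]
    exact hl
  unfold fE muU
  rw [h0, add_zero, hLo]
  have h1 : ∀ w, ((if w ∈ E then D.lam w * dord b (P.θ a) w else 0) +
      ∑ l ∈ Lo, if w ∈ s l then P.lk a l else 0) * D.LL w (D.pi v) =
      (if w ∈ E then D.lam w * dord b (P.θ a) w * D.LL w (D.pi v) else 0) +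
      ∑ l ∈ Lo, if w ∈ s l then P.lk a l * D.LL w (D.pi v) else 0 := by
    intro w
    rw [add_mul, Finset.sum_mul]
    congr 1
    · split_ifs
      · rfl
      · rw [zero_mul]
    · refine Finset.sum_congr rfl fun l _ => ?_
      split_ifs
      · rfl
      · rw [zero_mul]
  rw [Finset.sum_congr rfl fun w _ => h1 w, Finset.sum_add_distrib, Finset.sum_comm]
  congr 1
  · rw [← Finset.sum_filter]
    refine Finset.sum_congr ?_ fun _ _ => rfl
    ext w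
    rw [Finset.mem_filter]
    exact ⟨fun h => h.2, fun h => ⟨hE h, h⟩⟩
  · refine Finset.sum_congr rfl fun l hl => ?_
    rw [Finset.mul_sum, ← Finset.sum_filter]
    refine Finset.sum_congr ?_ fun _ _ => rfl
    ext w
    rw [Finset.mem_filter]
    exact ⟨fun h => h.2, fun h => ⟨hs l hl h, h⟩⟩

theorem phU {K : Type} [Field K] [NumberField K] {p : ℕ} {ζ : K} {m : ℕ} {J : Type}
    [Fintype J] (hp : p.Prime) (hζ : IsPrimitiveRoot ζ p) (D : RD K p ζ)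
    (P : PD p m J) (b : Fin m → Kˣ) (E : Finset (Pl K)) (hb : BS2 D.toRD0 b E) (Lg : Finset J)
    (s : J → Finset (Pl K)) (h1 : ∀ a ∈ Lg, ∀ a' ∈ Lg, P.lk a a' = 0) :
    ∃ F : (J → Fin D.r → ZMod p) → ZMod p, ∀ g : J → Finset (Pl K), Adm2 D.toRD0 E g →
      (∀ l, l ∉ Lg → g l = s l) →
        ph D.toRD0 P b g =
          ∑ a ∈ Lg, ∑ v ∈ g a, fE D.toRD0 (akbE E Lg s) (muU D P b E Lg s a) 0 v +
            F fun a => qf D.toRD0 (g a) := by
  have : Fact p.Prime := ⟨hp⟩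
  choose κ' hκ' using fun a => aph_rec2 D b E hb (P.θ a)
  obtain ⟨c, hc⟩ : ∃ c : J → J → ZMod p, ∀ a a', dt (P.θ a) (P.x a') = c a a' :=
    ⟨fun a a' => dt (P.θ a) (P.x a'), fun _ _ => rfl⟩
  have hlk' : ∀ a l, P.lk a l = c a l + c l a := by
    intro a l
    unfold PD.lk
    rw [hc, hc]
  have hlk : ∀ a l, P.lk a l = 0 → c l a = -c a l := by
    intro a l h
    rw [hlk'] at h
    linear_combination h
  obtain ⟨ρ, hρ⟩ := exists_injective_nat (Fin m → ZMod p)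
  obtain ⟨c', hc'⟩ : ∃ c' : J → J → ZMod p, ∀ a a',
      (if ρ (P.x a) < ρ (P.x a') then c a a' else 0) = c' a a' :=
    ⟨fun a a' => if ρ (P.x a) < ρ (P.x a') then c a a' else 0, fun _ _ => rfl⟩
  obtain ⟨Lo, hLo⟩ : ∃ Lo : Finset J, Lo = Finset.univ \ Lg := ⟨_, rfl⟩
  have hmLo : ∀ l, l ∈ Lo ↔ l ∉ Lg := by
    intro l
    rw [hLo, Finset.mem_sdiff]
    simp
  have hsum : ∀ F : J → ZMod p, ∑ l, F l = ∑ l ∈ Lg, F l + ∑ l ∈ Lo, F l := by
    intro F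
    rw [hLo, add_comm]
    exact (Finset.sum_sdiff (Finset.subset_univ Lg)).symm
  refine ⟨fun q => ∑ l ∈ Lo, ∑ v ∈ s l, dt (P.θ l) (fun k => D.LL v (b k)) +
    ∑ l ∈ Lo, ∑ l' ∈ Lo, c l l' * Lf D.toRD0 (s l) (pf D.toRD0 (s l')) +
    ∑ a ∈ Lg, dt (κ' a) (q a) +
    ∑ a ∈ Lg, ∑ l ∈ Lo, c a l * aphE D (qf D.toRD0 (s l)) (q a) +
    ∑ a ∈ Lg, ∑ a' ∈ Lg, c' a a' * aphE D (q a') (q a), ?_⟩
  intro g hg2 hgs
  have hg := hg2.1
  have hgs' : ∀ l ∈ Lo, g l = s l := fun l hl => hgs l ((hmLo l).1 hl)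
  have e1 : ∑ a ∈ Lg, ∑ v ∈ g a, dt (P.θ a) (fun k => D.LL v (b k)) =
      ∑ a ∈ Lg, ∑ v ∈ g a, ∑ w ∈ E, D.lam w * dord b (P.θ a) w * D.LL w (D.pi v) +
      ∑ a ∈ Lg, dt (κ' a) (qf D.toRD0 (g a)) := by
    rw [← Finset.sum_add_distrib]
    refine Finset.sum_congr rfl fun a _ => ?_
    rw [← aph_dt_qf, ← Finset.sum_add_distrib]
    exact Finset.sum_congr rfl fun v hv => hκ' a v (hg.1 a v hv)
  have e2 : ∑ l ∈ Lo, ∑ v ∈ g l, dt (P.θ l) (fun k => D.LL v (b k)) =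
      ∑ l ∈ Lo, ∑ v ∈ s l, dt (P.θ l) (fun k => D.LL v (b k)) :=
    Finset.sum_congr rfl fun l hl => by rw [hgs' l hl]
  obtain ⟨W, hW⟩ : ∃ W : J → J → ZMod p, ∀ a a', Lf D.toRD0 (g a) (pf D.toRD0 (g a')) = W a a' :=
    ⟨_, fun _ _ => rfl⟩
  have hsw : ∀ a a', a ≠ a' → W a a' - W a' a = aphE D (qf D.toRD0 (g a')) (qf D.toRD0 (g a)) := by
    intro a a' h
    rw [← hW, ← hW, aph_swap hp hζ D (hg.1 a) (hg.1 a') (hg.2 a a' h)]
    ring
  have e3 : ∑ a, ∑ a', dt (P.θ a) (P.x a') * Lf D.toRD0 (g a) (pf D.toRD0 (g a')) =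
      ∑ a ∈ Lg, ∑ a' ∈ Lg, c a a' * W a a' +
      ∑ a ∈ Lg, ∑ l ∈ Lo, (c a l * W a l + c l a * W l a) +
      ∑ l ∈ Lo, ∑ l' ∈ Lo, c l l' * W l l' := by
    simp only [hc, hW]
    rw [hsum]
    simp only [hsum]
    simp only [Finset.sum_add_distrib]
    rw [Finset.sum_comm (s := Lo) (t := Lg)]
    ring
  have e4 : ∑ l ∈ Lo, ∑ l' ∈ Lo, c l l' * W l l' =
      ∑ l ∈ Lo, ∑ l' ∈ Lo, c l l' * Lf D.toRD0 (s l) (pf D.toRD0 (s l')) :=
    Finset.sum_congr rfl fun l hl => Finset.sum_congr rfl fun l' hl' => by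
      rw [← hW, hgs' l hl, hgs' l' hl']
  have e5 : ∑ a ∈ Lg, ∑ l ∈ Lo, (c a l * W a l + c l a * W l a) =
      ∑ a ∈ Lg, ∑ l ∈ Lo, P.lk a l * ∑ v ∈ g a, ∑ w ∈ s l, D.LL w (D.pi v) +
      ∑ a ∈ Lg, ∑ l ∈ Lo, c a l * aphE D (qf D.toRD0 (s l)) (qf D.toRD0 (g a)) := by
    rw [← Finset.sum_add_distrib]
    refine Finset.sum_congr rfl fun a ha => ?_
    rw [← Finset.sum_add_distrib]
    refine Finset.sum_congr rfl fun l hl => ?_
    have hlo := (hmLo l).1 hl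
    have hal : a ≠ l := fun h => hlo (h ▸ ha)
    have f2 := hsw a l hal
    rw [hgs' l hl] at f2
    have f3 : W l a = ∑ v ∈ g a, ∑ w ∈ s l, D.LL w (D.pi v) := by
      rw [← hW, aph_W hp hζ D.toRD0 (hg.1 l), hgs' l hl, Finset.sum_comm]
    rw [← f2, ← f3, hlk']
    ring
  have e6 : ∑ a ∈ Lg, ∑ a' ∈ Lg, c a a' * W a a' =
      ∑ a ∈ Lg, ∑ a' ∈ Lg, c' a a' * aphE D (qf D.toRD0 (g a')) (qf D.toRD0 (g a)) := by
    have f1 : ∀ a ∈ Lg, ∀ a' ∈ Lg, c a a' = c' a a' - c' a' a := by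
      intro a ha a' ha'
      rw [← hc', ← hc']
      rcases lt_trichotomy (ρ (P.x a)) (ρ (P.x a')) with h | h | h
      · rw [if_pos h, if_neg (not_lt.2 h.le), sub_zero]
      · rw [if_neg h.not_lt, if_neg h.symm.not_lt, sub_zero, ← hc, ← hρ h]
        exact P.self a
      · rw [if_neg (not_lt.2 h.le), if_pos h, zero_sub, hlk a a' (h1 a ha a' ha'), neg_neg]
    have f2 : ∑ a ∈ Lg, ∑ a' ∈ Lg, c a a' * W a a' =
        ∑ a ∈ Lg, ∑ a' ∈ Lg, c' a a' * W a a' - ∑ a ∈ Lg, ∑ a' ∈ Lg, c' a' a * W a a' := by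
      rw [← Finset.sum_sub_distrib]
      refine Finset.sum_congr rfl fun a ha => ?_
      rw [← Finset.sum_sub_distrib]
      refine Finset.sum_congr rfl fun a' ha' => ?_
      rw [f1 a ha a' ha']
      ring
    rw [f2, Finset.sum_comm (f := fun a a' => c' a' a * W a a'), ← Finset.sum_sub_distrib]
    refine Finset.sum_congr rfl fun a ha => ?_
    rw [← Finset.sum_sub_distrib]
    refine Finset.sum_congr rfl fun a' ha' => ?_
    by_cases h : a = a'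
    · subst h
      have f3 : c' a a = 0 := by
        rw [← hc', if_neg (lt_irrefl _)]
      rw [f3]
      ring
    · rw [← hsw a a' h]
      ring
  have e8 : ∑ a ∈ Lg, ∑ v ∈ g a, fE D.toRD0 (akbE E Lg s) (muU D P b E Lg s a) 0 v =
      ∑ a ∈ Lg, ∑ v ∈ g a, ∑ w ∈ E, D.lam w * dord b (P.θ a) w * D.LL w (D.pi v) +
      ∑ a ∈ Lg, ∑ l ∈ Lo, P.lk a l * ∑ v ∈ g a, ∑ w ∈ s l, D.LL w (D.pi v) := by
    rw [← Finset.sum_add_distrib]
    refine Finset.sum_congr rfl fun a _ => ?_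
    have f1 : ∑ l ∈ Lo, P.lk a l * ∑ v ∈ g a, ∑ w ∈ s l, D.LL w (D.pi v) =
        ∑ v ∈ g a, ∑ l ∈ Lo, P.lk a l * ∑ w ∈ s l, D.LL w (D.pi v) := by
      rw [Finset.sum_comm]
      refine Finset.sum_congr rfl fun l _ => ?_
      rw [Finset.mul_sum]
    rw [f1, ← Finset.sum_add_distrib]
    refine Finset.sum_congr rfl fun v _ => ?_
    exact phu_fE D P b E Lg s a v Lo hmLo
  unfold ph
  rw [hsum, e1, e2, e3, e4, e5, e6, e8]
  beta_reduce
  ring

end H77.AB
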