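import Pool.Agent.H77.AB.Hrc
import Pool.Agent.H77.AB.Msk

/-!
# [H77 AB SAV] saving from a nontrivial relative character, 120-180 lines

`f v = ∑_{a' ∈ Lg} w_{a'}(v) Ψ_{a'}(v)`, `w_{a'} = ww(a' ∈ X)`, `Ψ_{a'}(v) = ep(fE E' (μ a') (κ a') v)`. There are `r ∈ Lg`, `r ∉ X` (so `w_r = 1`), `a ∈ Lg` and `w₀ ∈ E' \ E` with `μ a w₀ ≠ μ r w₀` (so `a ≠ r`). `∑_n ∏_{v ∈ n} |f v|` is smaller than the absolute bound by `(log Y)^{-mw(a)/2}`.

Proof. (1) `|1 + w z| ≤ 1 + w - (w/2)(1 - Re z)` for `0 ≤ w ≤ 1`, `|z| = 1`: `|1 + w z|^2 = (1+w)^2 - 2w(1 - Re z) ≤ ((1 + w) - (w/2)(1 - Re z))^2` as `2 (1+w) (w/2) ≤ 2w`; and the right side is `≥ 1 + w - w ≥ 0`. With `|Ψ_r + w_a Ψ_a| = |1 + w_a Ψ_a conj Ψ_r|` and `Ψ_a conj Ψ_r = ep(fE E' (μ a - μ r) (κ a - κ r) v)` (`fE` is linear in `(μ, κ)`):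
`|f v| ≤ ∑_{a' ∈ Lg} w_{a'}(v) - (w_a(v)/2) (1 - Re ep(fE E' (μ a - μ r) (κ a - κ r) v))`.
(2) Write the right side as a nonnegative combination of characters and apply `hrc` with `E'` (`A₀ = #J + 1`, `t v = |f v| ≤ #J`), `ι = (J × (Fin M → ZMod p)) × Bool`. For `a' ∈ Lg ∩ X`: `w_{a'} = u p^{-M} ∑_z Re ep(fE E μ_z κ_z v)` (`msk_re`, `msk_ch`; `μ_z w = lam w * dord c₂ z w` for `w ∈ E`, extended by `0` to `E'`: `fE D E μ κ = fE D E' (μ restricted to E) κ`, `Finset.sum_subset`); for `a' ∈ Lg \ X`: `w_{a'} = 1`.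
If `a ∈ X`: `-w_a/2 = -(u/2) p^{-M} ∑_z Re ep(..)` makes the coefficient of `((a, z), false)` equal to `u p^{-M} / 2 ≥ 0`, and `(w_a/2) Re Ψ = (u/2) p^{-M} ∑_z Re ep(fE E μ_z κ_z v + fE E' (μ a - μ r) (κ a - κ r) v)` (`mk D c₂ v` is real and equal to `p^{-M} ∑_z ep(..)`: `∑_z ep` is real, or use `msk_re` and `Re (x) * Re (y)` with `x` real: the sum over `z` of the imaginary parts vanishes by
`z ↦ -z`), coefficients `u p^{-M} / 2` of `((a, z), true)`, whose characters have `μ w₀ = μ a w₀ - μ r w₀ ≠ 0` (`w₀ ∉ E`), so they are not trivial. If `a ∉ X` (`w_a = 1`): coefficient `1/2` of `((a, 0), false)` and `1/2` of `((a, 0), true)` (character `(μ a - μ r, κ a - κ r)`, not trivial).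
The characters of `((a', z), false)`, `a' ∈ X`, `z ≠ 0`, are not trivial by `msk_ch` (`E ⊆ E'`). So the sum of the coefficients of the trivial characters is at most `∑_{a' ∈ Lg} mw - mw(a)/2`.
-/

set_option autoImplicit false

open scoped NumberField
open IsDedekindDomain
open scoped Classical

noncomputable section

namespace H77.AB

open H63.MA H38.BB

/-- `|1 + w z| ≤ 1 + w - (w/2)(1 - Re z)` -/
theorem sav_one {w : ℝ} (h0 : 0 ≤ w) (h1 : w ≤ 1) {z : ℂ} (hz : ‖z‖ = 1) :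
    ‖1 + (w : ℂ) * z‖ ≤ 1 + w - w / 2 * (1 - z.re) := by
  have hre : z.re ≤ 1 := (Complex.re_le_norm z).trans hz.le
  have hre' : -1 ≤ z.re := by
    have h2 := (Complex.abs_re_le_norm z).trans hz.le
    exact (abs_le.1 h2).1
  have hpos : 0 ≤ 1 + w - w / 2 * (1 - z.re) := by nlinarith
  have hsq : z.re ^ 2 + z.im ^ 2 = 1 := by
    have h3 := Complex.sq_norm z
    rw [hz, Complex.normSq_apply] at h3
    nlinarith
  have hn : ‖1 + (w : ℂ) * z‖ ^ 2 = 1 + w ^ 2 + 2 * w * z.re := by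
    rw [Complex.sq_norm, Complex.normSq_apply]
    simp only [Complex.add_re, Complex.one_re, Complex.mul_re, Complex.ofReal_re,
      Complex.ofReal_im, zero_mul, sub_zero, Complex.add_im, Complex.one_im, Complex.mul_im,
      zero_add, add_zero]
    nlinarith
  refine le_of_sq_le_sq ?_ hpos
  rw [hn]
  nlinarith [mul_nonneg h0 (sub_nonneg.2 hre), mul_nonneg (mul_nonneg h0 (sub_nonneg.2 h1))
    (sub_nonneg.2 hre), sq_nonneg (w / 2 * (1 - z.re))]

variable {K : Type} [Field K] [NumberField K] {p : ℕ} {ζ : K}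

/-- `fE` is additive -/
theorem sav_fE_add (D : RD0 K p ζ) (E : Finset (Pl K)) (μ μ' : Pl K → ZMod p)
    (κ κ' : Fin D.r → ZMod p) (v : Pl K) :
    fE D E (fun w => μ w + μ' w) (κ + κ') v = fE D E μ κ v + fE D E μ' κ' v := by
  unfold fE dt
  have h1 : ∑ w ∈ E, (μ w + μ' w) * D.LL w (D.pi v) =
      ∑ w ∈ E, μ w * D.LL w (D.pi v) + ∑ w ∈ E, μ' w * D.LL w (D.pi v) := by
    rw [← Finset.sum_add_distrib]
    exact Finset.sum_congr rfl fun w _ => add_mul _ _ _
  have h2 : ∑ k, (κ + κ') k * D.q v k = ∑ k, κ k * D.q v k + ∑ k, κ' k * D.q v k := by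
    rw [← Finset.sum_add_distrib]
    exact Finset.sum_congr rfl fun k _ => by rw [Pi.add_apply, add_mul]
  rw [h1, h2]
  ring

theorem sav_fE_zero (D : RD0 K p ζ) (E : Finset (Pl K)) (v : Pl K) :
    fE D E (fun _ => 0) 0 v = 0 := by
  unfold fE dt
  simp

/-- restriction of the coefficients -/
theorem sav_fE_sub (D : RD0 K p ζ) {E E' : Finset (Pl K)} (h : E ⊆ E') (μ : Pl K → ZMod p)
    (κ : Fin D.r → ZMod p) (v : Pl K) :
    fE D E' (fun w => if w ∈ E then μ w else 0) κ v = fE D E μ κ v := by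
  unfold fE
  congr 1
  rw [← Finset.sum_subset h (f := fun w => (if w ∈ E then μ w else 0) * D.LL w (D.pi v))]
  · exact Finset.sum_congr rfl fun w hw => by rw [if_pos hw]
  · intro w _ hw
    rw [if_neg hw, zero_mul]

/-- coefficients of the expansion of the weight -/
def savA (p M : ℕ) (u : ℝ) (x : Prop) (z : Fin M → ZMod p) : ℝ :=
  if x then u * ((p : ℝ) ^ M)⁻¹ else if z = 0 then 1 else 0

def savMu {M : ℕ} (D : RD K p ζ) (c₂ : Fin M → Kˣ) (E : Finset (Pl K)) (x : Prop)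
    (z : Fin M → ZMod p) (w : Pl K) : ZMod p :=
  if x then (if w ∈ E then D.lam w * dord c₂ z w else 0) else 0

def savKa {M r : ℕ} (κz : (Fin M → ZMod p) → Fin r → ZMod p) (x : Prop)
    (z : Fin M → ZMod p) : Fin r → ZMod p := if x then κz z else 0

theorem sav_exp [NeZero p] (hp : p.Prime) (D : RD K p ζ) {M : ℕ} (c₂ : Fin M → Kˣ)
    {E E' : Finset (Pl K)} (hE : E ⊆ E') (κz : (Fin M → ZMod p) → Fin D.r → ZMod p)
    (hκ : ∀ z v, D.Gd v → dt z (fun j => D.LL v (c₂ j)) =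
        fE D.toRD0 E (fun w => D.lam w * dord c₂ z w) (κz z) v) (u : ℝ) (x : Prop) (v : Pl K)
    (hv : D.Gd v) :
    ((ww D.toRD0 c₂ u x v : ℝ) : ℂ) = ∑ z : Fin M → ZMod p, ((savA p M u x z : ℝ) : ℂ) *
      ep p (fE D.toRD0 E' (savMu D c₂ E x z) (savKa κz x z) v) := by
  by_cases hx : x
  · have h1 : ∀ z : Fin M → ZMod p, ((savA p M u x z : ℝ) : ℂ) *
        ep p (fE D.toRD0 E' (savMu D c₂ E x z) (savKa κz x z) v) =
        ((u * ((p : ℝ) ^ M)⁻¹ : ℝ) : ℂ) * ep p (dt z (fun j => D.LL v (c₂ j))) := by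
      intro z
      have h2 : savMu D c₂ E x z = fun w => if w ∈ E then D.lam w * dord c₂ z w else 0 := by
        funext w
        exact if_pos hx
      have h3 : savKa κz x z = κz z := if_pos hx
      rw [h2, h3, sav_fE_sub D.toRD0 hE, ← hκ z v hv, savA, if_pos hx]
    rw [Finset.sum_congr rfl fun z _ => h1 z, ← Finset.mul_sum, alem_orth hp, ww, if_pos hx, mk]
    have hp0 : (p : ℂ) ≠ 0 := by
      exact_mod_cast hp.ne_zero
    by_cases h4 : ∀ j, D.LL v (c₂ j) = 0
    · rw [if_pos h4, if_pos (show (fun j => D.LL v (c₂ j)) = 0 from funext h4)]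
      push_cast
      field_simp
    · rw [if_neg h4, if_neg (fun h5 : (fun j => D.LL v (c₂ j)) = 0 => h4 fun j => congrFun h5 j)]
      push_cast
      ring
  · have h1 : ∀ z : Fin M → ZMod p, ((savA p M u x z : ℝ) : ℂ) *
        ep p (fE D.toRD0 E' (savMu D c₂ E x z) (savKa κz x z) v) = if z = 0 then 1 else 0 := by
      intro z
      have h2 : savMu D c₂ E x z = fun _ => 0 := by
        funext w
        exact if_neg hx
      have h3 : savKa κz x z = 0 := if_neg hx
      rw [h2, h3, sav_fE_zero, ep_zero, mul_one, savA, if_neg hx]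
      split_ifs <;> simp
    rw [Finset.sum_congr rfl fun z _ => h1 z, Finset.sum_ite_eq' Finset.univ, ww, if_neg hx]
    simp

theorem sav_A_nonneg (p M : ℕ) {u : ℝ} (hu : 0 ≤ u) (x : Prop) (z : Fin M → ZMod p) :
    0 ≤ savA p M u x z := by
  unfold savA
  split_ifs
  · positivity
  · exact zero_le_one
  · exact le_rfl

theorem sav_A_le {p : ℕ} (hp : p.Prime) (M : ℕ) {u : ℝ} (hu : 0 ≤ u) (hu1 : u ≤ 1) (x : Prop)
    (z : Fin M → ZMod p) : savA p M u x z ≤ 1 := by
  unfold savA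
  split_ifs
  · have h1 : (1 : ℝ) ≤ (p : ℝ) ^ M := one_le_pow₀ (by exact_mod_cast hp.one_le)
    have h2 : ((p : ℝ) ^ M)⁻¹ ≤ 1 := inv_le_one_of_one_le₀ h1
    have h3 : 0 ≤ ((p : ℝ) ^ M)⁻¹ := by positivity
    nlinarith
  · exact le_rfl
  · exact zero_le_one

/-- the trivial characters of one weight -/
theorem sav_triv [NeZero p] (D : RD K p ζ) {M : ℕ} (c₂ : Fin M → Kˣ)
    {E E' : Finset (Pl K)} (hE : E ⊆ E') (κz : (Fin M → ZMod p) → Fin D.r → ZMod p)
    (hκ : ∀ z, z ≠ 0 → (∃ w ∈ E, D.lam w * dord c₂ z w ≠ 0) ∨ κz z ≠ 0) {u : ℝ} (hu : 0 ≤ u)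
    (x : Prop) :
    ∑ z ∈ Finset.univ.filter (fun z : Fin M → ZMod p =>
      (∀ w ∈ E', savMu D c₂ E x z w = 0) ∧ savKa κz x z = 0), savA p M u x z ≤ mw p M u x := by
  by_cases hx : x
  · have h1 : Finset.univ.filter (fun z : Fin M → ZMod p =>
        (∀ w ∈ E', savMu D c₂ E x z w = 0) ∧ savKa κz x z = 0) ⊆ {0} := by
      intro z hz
      rw [Finset.mem_filter] at hz
      rw [Finset.mem_singleton]
      by_contra hne
      rcases hκ z hne with ⟨w, hw, h2⟩ | h2
      · apply h2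
        have h3 := hz.2.1 w (hE hw)
        rw [savMu, if_pos hx, if_pos hw] at h3
        exact h3
      · apply h2
        have h3 := hz.2.2
        rw [savKa, if_pos hx] at h3
        exact h3
    calc _ ≤ ∑ z ∈ ({0} : Finset (Fin M → ZMod p)), savA p M u x z :=
          Finset.sum_le_sum_of_subset_of_nonneg h1 fun z _ _ => sav_A_nonneg p M hu x z
      _ = mw p M u x := by
          rw [Finset.sum_singleton, savA, if_pos hx, mw, if_pos hx]
  · calc _ ≤ ∑ z : Fin M → ZMod p, savA p M u x z :=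
          Finset.sum_le_sum_of_subset_of_nonneg (Finset.filter_subset _ _)
            fun z _ _ => sav_A_nonneg p M hu x z
      _ = mw p M u x := by
          have h2 : ∀ z : Fin M → ZMod p, savA p M u x z = if z = 0 then 1 else 0 := fun z => by
            rw [savA, if_neg hx]
          rw [Finset.sum_congr rfl fun z _ => h2 z, Finset.sum_ite_eq' Finset.univ, mw, if_neg hx]
          simp

theorem sav {K : Type} [Field K] [NumberField K] {p : ℕ} {ζ : K} [NeZero p] (hp : p.Prime)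
    (hζ : IsPrimitiveRoot ζ p) (D : RD K p ζ) (J : Type) [Fintype J] (M : ℕ) (u η : ℝ)
    (hu : 0 ≤ u) (hu1 : u ≤ 1) (hη : 0 < η) :
    ∃ C : ℝ, 0 < C ∧ ∀ (E E' : Finset (Pl K)) (c₂ : Fin M → Kˣ), E ⊆ E' →
      (∀ w ∈ E', w ∉ D.S0) → BS2 D.toRD0 c₂ E → Ind p c₂ →
      ∀ (X Lg : Finset J) (μ : J → Pl K → ZMod p) (κ : J → Fin D.r → ZMod p) (r a : J),
        r ∈ Lg → r ∉ X → a ∈ Lg → (∃ w ∈ E', w ∉ E ∧ μ a w ≠ μ r w) → ∀ Y : ℝ, 3 ≤ Y →
          ∑ n ∈ (GF D.toRD0 Y).filter (fun n => Disjoint n E'),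
            ∏ v ∈ n, ‖∑ a' ∈ Lg, ((ww D.toRD0 c₂ u (a' ∈ X) v : ℝ) : ℂ) *
              ep p (fE D.toRD0 E' (μ a') (κ a') v)‖ ≤
            C * nr E' ^ η * Y *
              Real.log Y ^ (∑ a' ∈ Lg, mw p M u (a' ∈ X) - mw p M u (a ∈ X) / 2 - 1) := by
  obtain ⟨C, hC, H⟩ := hrc hp hζ D (J × (Fin M → ZMod p) × Bool) (Fintype.card J + 1) η
    (by positivity) hη
  refine ⟨C, hC, ?_⟩
  intro E E' c₂ hEE hE' hb hi X Lg μ κ r a hr hrX ha hw Y hY
  obtain ⟨w₀, hw₀', hw₀, hμ⟩ := hw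
  obtain ⟨κz, hκ1, hκ2⟩ := msk_ch hp hζ D c₂ E hb hi
  have har : a ≠ r := by
    rintro rfl
    exact hμ rfl
  let W : J → Pl K → ℝ := fun a' v => ww D.toRD0 c₂ u (a' ∈ X) v
  let μ₂ : J × (Fin M → ZMod p) × Bool → Pl K → ZMod p := fun j w =>
    savMu D c₂ E (j.1 ∈ X) j.2.1 w + if j.2.2 then μ a w - μ r w else 0
  let κ₂ : J × (Fin M → ZMod p) × Bool → Fin D.r → ZMod p := fun j =>
    savKa κz (j.1 ∈ X) j.2.1 + if j.2.2 then κ a - κ r else 0
  let cf : J × (Fin M → ZMod p) × Bool → ℝ := fun j =>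
    if j.2.2 then (if j.1 = a then savA p M u (j.1 ∈ X) j.2.1 / 2 else 0)
    else (if j.1 ∈ Lg then savA p M u (j.1 ∈ X) j.2.1 * (if j.1 = a then 1 / 2 else 1) else 0)
  let t : Pl K → ℝ := fun v => ‖∑ a' ∈ Lg, ((ww D.toRD0 c₂ u (a' ∈ X) v : ℝ) : ℂ) *
              ep p (fE D.toRD0 E' (μ a') (κ a') v)‖
  have hA0 := fun (x : Prop) (z : Fin M → ZMod p) => sav_A_nonneg p M hu x z
  have hA1 := fun (x : Prop) (z : Fin M → ZMod p) => sav_A_le hp M hu hu1 x z
  have hJ : (0 : ℝ) ≤ Fintype.card J := Nat.cast_nonneg _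
  have hcf : ∀ j, 0 ≤ cf j ∧ cf j ≤ (Fintype.card J + 1 : ℝ) := by
    rintro ⟨a', z, bb⟩
    have h1 := hA0 (a' ∈ X) z
    have h2 := hA1 (a' ∈ X) z
    simp only [cf]
    split_ifs <;> constructor <;> linarith
  have ht : ∀ v, 0 ≤ t v ∧ t v ≤ (Fintype.card J + 1 : ℝ) := by
    intro v
    refine ⟨norm_nonneg _, ?_⟩
    have h1 : t v ≤ ∑ a' ∈ Lg, 1 := by
      refine (norm_sum_le _ _).trans (Finset.sum_le_sum fun a' _ => ?_)
      have h2 := ww_le D.toRD0 c₂ hu hu1 (a' ∈ X) v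
      rw [norm_mul, ep_norm, mul_one, Complex.norm_real, Real.norm_eq_abs, abs_of_nonneg h2.1]
      exact h2.2
    have h3 : ∑ a' ∈ Lg, (1 : ℝ) = Lg.card := by simp
    have h4 : (Lg.card : ℝ) ≤ Fintype.card J := by exact_mod_cast Finset.card_le_univ Lg
    linarith
  have hmain : ∀ v, D.Gd v → v ∉ E' →
      t v ≤ ∑ j, cf j * (ep p (fE D.toRD0 E' (μ₂ j) (κ₂ j) v)).re := by
    intro v hv _
    have hww := fun a' : J => ww_le D.toRD0 c₂ hu hu1 (a' ∈ X) v
    set Ψ : J → ℂ := fun a' => ep p (fE D.toRD0 E' (μ a') (κ a') v) with hΨ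
    set χ : ℂ := ep p (fE D.toRD0 E' (fun w => μ a w - μ r w) (κ a - κ r) v) with hχ
    have hexp := fun a' : J => sav_exp hp D c₂ hEE κz hκ1 u (a' ∈ X) v hv
    -- `Ψ a = Ψ r * χ`
    have hΨa : Ψ a = Ψ r * χ := by
      have h1 : fE D.toRD0 E' (μ a) (κ a) v = fE D.toRD0 E' (μ r) (κ r) v +
          fE D.toRD0 E' (fun w => μ a w - μ r w) (κ a - κ r) v := by
        rw [← sav_fE_add]
        congr 1
        · funext w
          ring
        · abel
      simp only [hΨ, hχ]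
      rw [h1, ep_add hp]
    have hWr : W r v = 1 := by
      simp only [W, ww]
      rw [if_neg hrX]
    -- the norm
    have h2 : t v ≤ ∑ a' ∈ Lg, W a' v - W a v / 2 * (1 - χ.re) := by
      have hra : r ∈ Lg.erase a := Finset.mem_erase.2 ⟨har.symm, hr⟩
      have e1 : ∑ a' ∈ Lg, ((W a' v : ℝ) : ℂ) * Ψ a' = ((W a v : ℝ) : ℂ) * Ψ a +
          (((W r v : ℝ) : ℂ) * Ψ r + ∑ a' ∈ (Lg.erase a).erase r, ((W a' v : ℝ) : ℂ) * Ψ a') := by
        rw [Finset.add_sum_erase _ (fun a' => ((W a' v : ℝ) : ℂ) * Ψ a') hra,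
          Finset.add_sum_erase _ (fun a' => ((W a' v : ℝ) : ℂ) * Ψ a') ha]
      have e2 : ∑ a' ∈ Lg, W a' v = W a v + (1 + ∑ a' ∈ (Lg.erase a).erase r, W a' v) := by
        rw [← hWr, Finset.add_sum_erase _ (fun a' => W a' v) hra,
          Finset.add_sum_erase _ (fun a' => W a' v) ha]
      have e3 : ‖∑ a' ∈ (Lg.erase a).erase r, ((W a' v : ℝ) : ℂ) * Ψ a'‖ ≤
          ∑ a' ∈ (Lg.erase a).erase r, W a' v := by
        refine (norm_sum_le _ _).trans (Finset.sum_le_sum fun a' _ => ?_)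
        rw [norm_mul, hΨ, ep_norm, mul_one, Complex.norm_real, Real.norm_eq_abs,
          abs_of_nonneg (hww a').1]
      have e4 : ‖((W a v : ℝ) : ℂ) * Ψ a + ((W r v : ℝ) : ℂ) * Ψ r‖ ≤
          1 + W a v - W a v / 2 * (1 - χ.re) := by
        have h3 : ((W a v : ℝ) : ℂ) * Ψ a + ((W r v : ℝ) : ℂ) * Ψ r =
            Ψ r * (1 + ((W a v : ℝ) : ℂ) * χ) := by
          rw [hΨa, hWr]
          push_cast
          ring
        rw [h3, norm_mul]
        have h4 : ‖Ψ r‖ = 1 := ep_norm p _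
        rw [h4, one_mul]
        exact sav_one (hww a).1 (hww a).2 (ep_norm p _)
      have e5 : t v = ‖∑ a' ∈ Lg, ((W a' v : ℝ) : ℂ) * Ψ a'‖ := rfl
      rw [e5, e1, ← add_assoc, e2]
      refine (norm_add_le _ _).trans ?_
      linarith
    -- the expansion of the right hand side
    have h5 : ∀ a' : J, W a' v = ∑ z : Fin M → ZMod p, savA p M u (a' ∈ X) z *
        (ep p (fE D.toRD0 E' (savMu D c₂ E (a' ∈ X) z) (savKa κz (a' ∈ X) z) v)).re := by
      intro a'
      have h6 := congrArg Complex.re (hexp a')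
      rw [Complex.ofReal_re, Complex.re_sum] at h6
      rw [show W a' v = ww D.toRD0 c₂ u (a' ∈ X) v from rfl, h6]
      exact Finset.sum_congr rfl fun z _ => Complex.re_ofReal_mul _ _
    have h7 : W a v * χ.re = ∑ z : Fin M → ZMod p, savA p M u (a ∈ X) z *
        (ep p (fE D.toRD0 E' (fun w => savMu D c₂ E (a ∈ X) z w + (μ a w - μ r w))
          (savKa κz (a ∈ X) z + (κ a - κ r)) v)).re := by
      have h8 : ((W a v : ℝ) : ℂ) * χ = ∑ z : Fin M → ZMod p, ((savA p M u (a ∈ X) z : ℝ) : ℂ) *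
          ep p (fE D.toRD0 E' (fun w => savMu D c₂ E (a ∈ X) z w + (μ a w - μ r w))
          (savKa κz (a ∈ X) z + (κ a - κ r)) v) := by
        rw [show ((W a v : ℝ) : ℂ) = ((ww D.toRD0 c₂ u (a ∈ X) v : ℝ) : ℂ) from rfl, hexp a,
          Finset.sum_mul]
        refine Finset.sum_congr rfl fun z _ => ?_
        rw [sav_fE_add, ep_add hp, mul_assoc]
      have h9 := congrArg Complex.re h8
      rw [Complex.re_ofReal_mul, Complex.re_sum] at h9
      rw [h9]
      exact Finset.sum_congr rfl fun z _ => Complex.re_ofReal_mul _ _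
    have h10 : ∑ j, cf j * (ep p (fE D.toRD0 E' (μ₂ j) (κ₂ j) v)).re =
        ∑ a' ∈ Lg, W a' v - W a v / 2 * (1 - χ.re) := by
      have h11 : ∑ j, cf j * (ep p (fE D.toRD0 E' (μ₂ j) (κ₂ j) v)).re =
          ∑ a' : J, ∑ z : Fin M → ZMod p, ((if a' = a then savA p M u (a' ∈ X) z / 2 *
            (ep p (fE D.toRD0 E' (fun w => savMu D c₂ E (a' ∈ X) z w + (μ a w - μ r w))
              (savKa κz (a' ∈ X) z + (κ a - κ r)) v)).re else 0) +
            (if a' ∈ Lg then savA p M u (a' ∈ X) z * (if a' = a then 1 / 2 else 1) *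
            (ep p (fE D.toRD0 E' (savMu D c₂ E (a' ∈ X) z) (savKa κz (a' ∈ X) z) v)).re
              else 0)) := by
        rw [Fintype.sum_prod_type]
        refine Finset.sum_congr rfl fun a' _ => ?_
        rw [Fintype.sum_prod_type]
        refine Finset.sum_congr rfl fun z _ => ?_
        rw [Fintype.sum_bool]
        have m1 : μ₂ (a', z, true) = fun w => savMu D c₂ E (a' ∈ X) z w + (μ a w - μ r w) := by
          funext w
          simp [μ₂]
        have m2 : μ₂ (a', z, false) = savMu D c₂ E (a' ∈ X) z := by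
          funext w
          simp [μ₂]
        have k1 : κ₂ (a', z, true) = savKa κz (a' ∈ X) z + (κ a - κ r) := by simp [κ₂]
        have k2 : κ₂ (a', z, false) = savKa κz (a' ∈ X) z := by simp [κ₂]
        have c1 : cf (a', z, true) = if a' = a then savA p M u (a' ∈ X) z / 2 else 0 := by
          simp [cf]
        have c2 : cf (a', z, false) = if a' ∈ Lg then savA p M u (a' ∈ X) z *
            (if a' = a then 1 / 2 else 1) else 0 := by simp [cf]
        rw [m1, m2, k1, k2, c1, c2, ite_mul, ite_mul, zero_mul, zero_mul]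
      rw [h11]
      have h12 : ∀ a' : J, ∑ z : Fin M → ZMod p, ((if a' = a then savA p M u (a' ∈ X) z / 2 *
            (ep p (fE D.toRD0 E' (fun w => savMu D c₂ E (a' ∈ X) z w + (μ a w - μ r w))
              (savKa κz (a' ∈ X) z + (κ a - κ r)) v)).re else 0) +
            (if a' ∈ Lg then savA p M u (a' ∈ X) z * (if a' = a then 1 / 2 else 1) *
            (ep p (fE D.toRD0 E' (savMu D c₂ E (a' ∈ X) z) (savKa κz (a' ∈ X) z) v)).re
              else 0)) =
          (if a' = a then W a v * χ.re / 2 else 0) +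
            (if a' ∈ Lg then W a' v * (if a' = a then 1 / 2 else 1) else 0) := by
        intro a'
        rw [Finset.sum_add_distrib]
        congr 1
        · by_cases h13 : a' = a
          · subst h13
            simp only [if_true]
            rw [h7, Finset.sum_div]
            exact Finset.sum_congr rfl fun z _ => by ring
          · simp [h13]
        · by_cases h14 : a' ∈ Lg
          · simp only [if_pos h14]
            rw [h5 a', Finset.sum_mul]
            exact Finset.sum_congr rfl fun z _ => by ring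
          · simp [h14]
      rw [Finset.sum_congr rfl fun a' _ => h12 a', Finset.sum_add_distrib,
        Finset.sum_ite_eq' Finset.univ, if_pos (Finset.mem_univ a),
        ← Finset.sum_filter, Finset.filter_mem_eq_inter, Finset.univ_inter]
      have h15 : ∑ a' ∈ Lg, W a' v * (if a' = a then 1 / 2 else 1) =
          ∑ a' ∈ Lg, W a' v - W a v / 2 := by
        have h16 : ∀ a' ∈ Lg, W a' v * (if a' = a then 1 / 2 else 1) =
            W a' v - if a' = a then W a v / 2 else 0 := by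
          intro a' _
          by_cases h17 : a' = a
          · subst h17
            simp only [if_true]
            ring
          · simp [h17]
        rw [Finset.sum_congr rfl h16, Finset.sum_sub_distrib, Finset.sum_ite_eq' Lg, if_pos ha]
      rw [h15]
      ring
    rw [h10]
    exact h2
  have hγ : ∑ j ∈ Finset.univ.filter (fun j => (∀ w ∈ E', μ₂ j w = 0) ∧ κ₂ j = 0), cf j ≤
      ∑ a' ∈ Lg, mw p M u (a' ∈ X) - mw p M u (a ∈ X) / 2 := by
    have h1 : ∑ j ∈ Finset.univ.filter (fun j => (∀ w ∈ E', μ₂ j w = 0) ∧ κ₂ j = 0), cf j ≤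
        ∑ a' : J, (if a' ∈ Lg then mw p M u (a' ∈ X) * (if a' = a then 1 / 2 else 1) else 0) := by
      rw [Finset.sum_filter, Fintype.sum_prod_type]
      refine Finset.sum_le_sum fun a' _ => ?_
      rw [Fintype.sum_prod_type]
      have h2 : ∀ z : Fin M → ZMod p, ∑ bb : Bool,
          (if (∀ w ∈ E', μ₂ (a', z, bb) w = 0) ∧ κ₂ (a', z, bb) = 0 then cf (a', z, bb) else 0) =
          (if (∀ w ∈ E', savMu D c₂ E (a' ∈ X) z w = 0) ∧ savKa κz (a' ∈ X) z = 0 then
            savA p M u (a' ∈ X) z else 0) *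
            (if a' ∈ Lg then (if a' = a then 1 / 2 else 1) else 0) := by
        intro z
        rw [Fintype.sum_bool]
        have m2 : μ₂ (a', z, false) = savMu D c₂ E (a' ∈ X) z := by
          funext w
          simp [μ₂]
        have k2 : κ₂ (a', z, false) = savKa κz (a' ∈ X) z := by simp [κ₂]
        have c2 : cf (a', z, false) = if a' ∈ Lg then savA p M u (a' ∈ X) z *
            (if a' = a then 1 / 2 else 1) else 0 := by simp [cf]
        have t1 : (if (∀ w ∈ E', μ₂ (a', z, true) w = 0) ∧ κ₂ (a', z, true) = 0 then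
            cf (a', z, true) else 0) = 0 := by
          by_cases h3 : a' = a
          · subst h3
            rw [if_neg]
            rintro ⟨h4, -⟩
            have h5 := h4 w₀ hw₀'
            have h6 : μ₂ (a', z, true) w₀ = μ a' w₀ - μ r w₀ := by
              simp [μ₂, savMu, hw₀]
            rw [h6, sub_eq_zero] at h5
            exact hμ h5
          · have c1 : cf (a', z, true) = 0 := by simp [cf, h3]
            rw [c1, ite_self]
        rw [t1, zero_add, m2, k2, c2]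
        split_ifs <;> ring
      rw [Finset.sum_congr rfl fun z _ => h2 z, ← Finset.sum_mul, ← Finset.sum_filter]
      have h3 := sav_triv D c₂ hEE κz hκ2 hu (a' ∈ X)
      by_cases h4 : a' ∈ Lg
      · rw [if_pos h4, if_pos h4]
        refine mul_le_mul_of_nonneg_right h3 ?_
        split_ifs <;> norm_num
      · rw [if_neg h4, if_neg h4, mul_zero]
    refine h1.trans (le_of_eq ?_)
    rw [← Finset.sum_filter, Finset.filter_mem_eq_inter, Finset.univ_inter]
    have h16 : ∀ a' ∈ Lg, mw p M u (a' ∈ X) * (if a' = a then 1 / 2 else 1) =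
        mw p M u (a' ∈ X) - if a' = a then mw p M u (a ∈ X) / 2 else 0 := by
      intro a' _
      by_cases h17 : a' = a
      · subst h17
        simp only [if_true]
        ring
      · simp [h17]
    rw [Finset.sum_congr rfl h16, Finset.sum_sub_distrib, Finset.sum_ite_eq' Lg, if_pos ha]
  exact H E' hE' μ₂ κ₂ cf t _ hcf ht hmain hγ Y hY

end H77.AB
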