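import Pool.Agent.H77.AB.Part
import Pool.Agent.H77.AB.Sav
import Pool.Agent.H77.AB.PhU
import Pool.Agent.H63.MA.AKC

/-!
# [H77 AB BLKS0] the complete sum over pairwise unlinked large variables, with a linked small variable, 200-280 lines

`Lg` pairwise unlinked, `r ∈ Lg`, `r ∉ X`, `x r = 0`, `θ r = 0`; `a ∈ Lg` and a small variable `l ∉ Lg`, `s l ≠ ∅`, with `lk a l ≠ 0`. No size conditions (`z = 0`). Then the sum is smaller than the absolute bound by `(log Y)^{-mw(a)/2}`.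

Proof. `E' = akbE E Lg s = E ∪ ⋃_{l ∉ Lg} s l` (outside `S0` by `BS2` and because the `s l` are good). If the `s l`, `l ∉ Lg`, are not pairwise disjoint or not disjoint from `E` there are no terms. Let `F` be as in `phU`. For `g` in the sum (`Dj g`, disjoint from `E`, all sets good): the weights of the small variables are constants of absolute value `≤ 1`, `ph g = ∑_{a' ∈ Lg} ∑_{v ∈ g a'} fE E' μ_{a'} 0 v + F (classes)`,
`μ_{a'} = muU D P b E Lg s a'`. As in `kpm2`/`kpc` (H63/MB/BKM, H63/MA/AKC) expand `q ↦ ep (F q)`, as a function of the classes `q a' ∈ (ZMod p)^r` of the large variables (index type `{a // a ∈ Lg} × Fin r` or `J × Fin r` with the classes of the small variables fixed: `q l = qf (s l)`), by `akc_inv`, `akc_norm` (H63/MA/AKC): `ep (F q) = ∑_χ c_χ ep(∑_{a'} χ_{a'} · q_{a'})`, `|c_χ| ≤ 1`, a fixed finite number of `χ`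
(`p^{r #J}`). `χ_{a'} · qf (g a') = ∑_{v ∈ g a'} χ_{a'} · q v`, so for each `χ` the term is `∏_{a' ∈ Lg} ∏_{v ∈ g a'} ww(a' ∈ X) v * ep(fE E' μ_{a'} χ_{a'} v)` (`fE` is additive in `κ`, `ep` multiplicative). Sum over `g` by `part` with `κ = Unit`, `ι = J`, `h f a' v = if a' ∈ Lg then ww v * ep(fE …) else 0`, the set `E'` and `Y' = Y / sn Lg s` in place of `E`, `Y` (as in BLKA: a family `g` in the sum is the same as
a family on `Lg` disjoint from `E'`, pairwise disjoint, with `∏_{a' ∈ Lg} nr ≤ Y'`): it is `∑_{n ∈ GF Y', n ∩ E' = ∅} ∏_{v ∈ n} ∑_{a' ∈ Lg} ww v * ep(fE E' μ_{a'} χ_{a'} v)`, at most `∑_n ∏ |…|` in absolute value, and `sav` applies (with `E ⊆ E'`, `Y' ≥ Y^{1/2} ≥ 3`): let `w₀ ∈ s l`. Then `w₀ ∈ E'`, `w₀ ∉ E`, `muU a w₀ = lk a l ≠ 0` (`w₀` is in no other `s l'`),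
`muU r w₀ = lk r l = θ_r · x_l + θ_l · x_r = 0`. Finally `(log Y')^{γ'-1}` against `(log Y)^{γ'-1}`, `γ' = ∑ mw - mw(a)/2 ≥ 0`, as in BLKA (factor at most 2).
-/

set_option autoImplicit false

open scoped NumberField
open IsDedekindDomain
open scoped Classical

noncomputable section

namespace H77.AB

open H63.MA H38.BB

private theorem blks0_split {J R : Type} [Fintype J] [CommMonoid R] (Lg : Finset J) (f : J → R) :
    ∏ a, f a = (∏ a ∈ Lg, f a) * ∏ a ∈ Finset.univ.filter (fun a => a ∉ Lg), f a := by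
  rw [← Finset.prod_filter_mul_prod_filter_not Finset.univ (fun a => a ∈ Lg) f]
  congr 1
  apply Finset.prod_congr _ fun _ _ => rfl
  ext a
  simp

private theorem blks0_sn {K : Type} [Field K] [NumberField K] {J : Type} [Fintype J]
    (Lg : Finset J) (s : J → Finset (Pl K)) : 1 ≤ sn Lg s := by
  unfold sn
  calc (1 : ℝ) = ∏ _a ∈ Finset.univ.filter (fun a => a ∉ Lg), (1 : ℝ) := by
        rw [Finset.prod_const_one]
    _ ≤ _ := Finset.prod_le_prod (fun _ _ => zero_le_one) fun l _ => one_le_nr _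

private theorem blks0_one {K : Type} [Field K] [NumberField K] {J : Type}
    (T : Finset J) (g : J → Finset (Pl K)) : 1 ≤ ∏ a ∈ T, nr (g a) := by
  calc (1 : ℝ) = ∏ _a ∈ T, (1 : ℝ) := by
        rw [Finset.prod_const_one]
    _ ≤ _ := Finset.prod_le_prod (fun _ _ => zero_le_one) fun l _ => one_le_nr _

private theorem blks0_le {K : Type} [Field K] [NumberField K] {J : Type}
    (T : Finset J) (g : J → Finset (Pl K)) {a : J} (ha : a ∈ T) :
    nr (g a) ≤ ∏ a ∈ T, nr (g a) := by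
  rw [← Finset.mul_prod_erase T (fun a => nr (g a)) ha]
  have h1 := blks0_one (T.erase a) g
  have h2 := one_le_nr (g a)
  nlinarith

private theorem blks0_nr_empty {K : Type} [Field K] [NumberField K] :
    nr (∅ : Finset (Pl K)) = 1 := by
  unfold nr
  rw [Finset.prod_empty]

private theorem blks0_fold {K : Type} [Field K] [NumberField K] {p : ℕ} {ζ : K}
    (D : RD0 K p ζ) {J : Type} [Fintype J] (E : Finset (Pl K)) (Lg : Finset J)
    (s : J → Finset (Pl K)) (Y : ℝ) (H : J → Pl K → ℂ)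
    (hs : ∀ l, l ∉ Lg → ∀ l', l' ∉ Lg → l ≠ l' → Disjoint (s l) (s l'))
    (hE : ∀ l, l ∉ Lg → Disjoint (s l) E) :
    ‖∑ g ∈ Fintype.piFinset (fun a => if a ∈ Lg then GF D Y else {s a}),
      (if Dj g ∧ (∀ a, Disjoint (g a) E) ∧ (∀ a ∈ Lg, (0 : ℝ) < nr (g a)) ∧
        ∏ a, nr (g a) ≤ Y then ∏ a ∈ Lg, ∏ v ∈ g a, H a v else 0)‖ ≤
    ∑ n ∈ (GF D (Y / sn Lg s)).filter (fun n => Disjoint n (akbE E Lg s)),
      ∏ v ∈ n, ‖∑ a ∈ Lg, H a v‖ := by
  have hsn1 := blks0_sn Lg s
  have hsn : 0 < sn Lg s := by linarith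
  have hEE : ∀ n : Finset (Pl K), Disjoint n (akbE E Lg s) ↔
      Disjoint n E ∧ ∀ l, l ∉ Lg → Disjoint n (s l) := by
    intro n
    unfold akbE
    rw [Finset.disjoint_union_right, Finset.disjoint_biUnion_right]
    simp
  have hA : ∑ g ∈ Fintype.piFinset (fun a => if a ∈ Lg then GF D Y else {s a}),
      (if Dj g ∧ (∀ a, Disjoint (g a) E) ∧ (∀ a ∈ Lg, (0 : ℝ) < nr (g a)) ∧
        ∏ a, nr (g a) ≤ Y then ∏ a ∈ Lg, ∏ v ∈ g a, H a v else 0) =
      ∑ g ∈ Fintype.piFinset (fun _ : J => GF D (Y / sn Lg s)),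
        (if Dj g ∧ (∀ a, Disjoint (g a) (akbE E Lg s)) ∧ ∏ a, nr (g a) ≤ Y / sn Lg s then
          (fun _ : Unit → Finset (Pl K) => (1 : ℂ)) (unC (fun _ : J => ()) g) *
            ∏ a, ∏ v ∈ g a, (fun _ a v => if a ∈ Lg then H a v else 0 :
              (Unit → Finset (Pl K)) → J → Pl K → ℂ) (unC (fun _ : J => ()) g) a v else 0) := by
    have hprod : ∀ g : J → Finset (Pl K), (∀ a, a ∉ Lg → g a = ∅) →
        ∏ a, ∏ v ∈ g a, (if a ∈ Lg then H a v else 0) = ∏ a ∈ Lg, ∏ v ∈ g a, H a v := by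
      intro g hg
      rw [blks0_split Lg]
      have e1 : ∏ a ∈ Finset.univ.filter (fun a => a ∉ Lg),
          ∏ v ∈ g a, (if a ∈ Lg then H a v else 0) = 1 := by
        apply Finset.prod_eq_one
        intro a ha
        rw [hg a (Finset.mem_filter.1 ha).2, Finset.prod_empty]
      rw [e1, mul_one]
      apply Finset.prod_congr rfl
      intro a ha
      apply Finset.prod_congr rfl
      intro v _
      rw [if_pos ha]
    have hmem : ∀ g, g ∈ Fintype.piFinset (fun a => if a ∈ Lg then GF D Y else {s a}) ↔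
        (∀ a ∈ Lg, g a ∈ GF D Y) ∧ ∀ a, a ∉ Lg → g a = s a := by
      intro g
      rw [Fintype.mem_piFinset]
      constructor
      · intro h
        refine ⟨fun a ha => ?_, fun a ha => ?_⟩
        · have := h a
          rwa [if_pos ha] at this
        · have := h a
          rwa [if_neg ha, Finset.mem_singleton] at this
      · rintro ⟨h1, h2⟩ a
        by_cases ha : a ∈ Lg
        · rw [if_pos ha]
          exact h1 a ha
        · rw [if_neg ha, Finset.mem_singleton]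
          exact h2 a ha
    have hcond : ∀ g g' : J → Finset (Pl K), (∀ a, a ∉ Lg → g a = s a) →
        (∀ a, a ∉ Lg → g' a = ∅) → (∀ a ∈ Lg, g a = g' a) →
        ((Dj g ∧ (∀ a, Disjoint (g a) E) ∧ (∀ a ∈ Lg, (0 : ℝ) < nr (g a)) ∧
          ∏ a, nr (g a) ≤ Y) ↔
        (Dj g' ∧ (∀ a, Disjoint (g' a) (akbE E Lg s)) ∧ ∏ a, nr (g' a) ≤ Y / sn Lg s)) := by
      intro g g' h1 h2 h3
      have hn : ∏ a, nr (g a) = (∏ a, nr (g' a)) * sn Lg s := by
        rw [blks0_split Lg, blks0_split Lg (fun a => nr (g' a))]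
        have e1 : ∏ a ∈ Finset.univ.filter (fun a => a ∉ Lg), nr (g' a) = 1 := by
          apply Finset.prod_eq_one
          intro a ha
          rw [h2 a (Finset.mem_filter.1 ha).2, blks0_nr_empty]
        have e2 : ∏ a ∈ Finset.univ.filter (fun a => a ∉ Lg), nr (g a) = sn Lg s := by
          unfold sn
          apply Finset.prod_congr rfl
          intro a ha
          rw [h1 a (Finset.mem_filter.1 ha).2]
        have e3 : ∏ a ∈ Lg, nr (g a) = ∏ a ∈ Lg, nr (g' a) := by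
          apply Finset.prod_congr rfl
          intro a ha
          rw [h3 a ha]
        rw [e1, e2, e3, mul_one]
      constructor
      · rintro ⟨c1, c2, c3, c4⟩
        refine ⟨?_, ?_, ?_⟩
        · intro a a' haa
          by_cases ha : a ∈ Lg
          · by_cases ha' : a' ∈ Lg
            · rw [← h3 a ha, ← h3 a' ha']
              exact c1 a a' haa
            · rw [h2 a' ha']
              exact Finset.disjoint_empty_right _
          · rw [h2 a ha]
            exact Finset.disjoint_empty_left _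
        · intro a
          by_cases ha : a ∈ Lg
          · rw [← h3 a ha, hEE]
            refine ⟨c2 a, fun l hl => ?_⟩
            rw [← h1 l hl]
            exact c1 a l (fun h => hl (h ▸ ha))
          · rw [h2 a ha]
            exact Finset.disjoint_empty_left _
        · rw [le_div_iff₀ hsn, ← hn]
          exact c4
      · rintro ⟨c1, c2, c4⟩
        refine ⟨?_, ?_, fun a _ => lt_of_lt_of_le one_pos (one_le_nr _), ?_⟩
        · intro a a' haa
          by_cases ha : a ∈ Lg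
          · by_cases ha' : a' ∈ Lg
            · rw [h3 a ha, h3 a' ha']
              exact c1 a a' haa
            · rw [h3 a ha, h1 a' ha']
              exact ((hEE _).1 (c2 a)).2 a' ha'
          · by_cases ha' : a' ∈ Lg
            · rw [h1 a ha, h3 a' ha']
              exact (((hEE _).1 (c2 a')).2 a ha).symm
            · rw [h1 a ha, h1 a' ha']
              exact hs a ha a' ha' haa
        · intro a
          by_cases ha : a ∈ Lg
          · rw [h3 a ha]
            exact ((hEE _).1 (c2 a)).1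
          · rw [h1 a ha]
            exact hE a ha
        · rw [hn, ← le_div_iff₀ hsn]
          exact c4
    refine Finset.sum_bij_ne_zero (fun g _ _ => fun a => if a ∈ Lg then g a else ∅) ?_ ?_ ?_ ?_
    · intro g hg hne
      rw [hmem] at hg
      have hc : Dj g ∧ (∀ a, Disjoint (g a) E) ∧ (∀ a ∈ Lg, (0 : ℝ) < nr (g a)) ∧
          ∏ a, nr (g a) ≤ Y := by
        by_contra hc
        exact hne (if_neg hc)
      have hc' := (hcond g (fun a => if a ∈ Lg then g a else ∅) hg.2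
        (fun a ha => if_neg ha) (fun a ha => (if_pos ha).symm)).1 hc
      rw [Fintype.mem_piFinset]
      intro a
      rw [akb_mem_GF]
      refine ⟨?_, ?_⟩
      · exact (blks0_le Finset.univ _ (Finset.mem_univ a)).trans hc'.2.2
      · intro v hv
        by_cases ha : a ∈ Lg
        · rw [if_pos ha] at hv
          exact ((akb_mem_GF D).1 (hg.1 a ha)).2 v hv
        · rw [if_neg ha] at hv
          exact absurd hv (Finset.notMem_empty v)
    · intro g₁ hg₁ _ g₂ hg₂ _ he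
      rw [hmem] at hg₁ hg₂
      funext a
      by_cases ha : a ∈ Lg
      · have := congrFun he a
        simpa only [if_pos ha] using this
      · rw [hg₁.2 a ha, hg₂.2 a ha]
    · intro g' hg' hne
      have hc' : Dj g' ∧ (∀ a, Disjoint (g' a) (akbE E Lg s)) ∧
          ∏ a, nr (g' a) ≤ Y / sn Lg s := by
        by_contra hc
        exact hne (if_neg hc)
      rw [if_pos hc'] at hne
      have hemp : ∀ a, a ∉ Lg → g' a = ∅ := by
        intro a ha
        by_contra hne'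
        obtain ⟨v, hv⟩ := Finset.nonempty_iff_ne_empty.2 hne'
        apply hne
        rw [one_mul]
        apply Finset.prod_eq_zero (Finset.mem_univ a)
        apply Finset.prod_eq_zero hv
        exact if_neg ha
      obtain ⟨g, hg⟩ : ∃ g : J → Finset (Pl K), ∀ a, g a = if a ∈ Lg then g' a else s a :=
        ⟨_, fun _ => rfl⟩
      have g1 : ∀ a, a ∉ Lg → g a = s a := fun a ha => by rw [hg, if_neg ha]
      have g2 : ∀ a ∈ Lg, g a = g' a := fun a ha => by rw [hg, if_pos ha]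
      have hc := (hcond g g' g1 hemp g2).2 hc'
      rw [Fintype.mem_piFinset] at hg'
      have hgm : g ∈ Fintype.piFinset (fun a => if a ∈ Lg then GF D Y else {s a}) := by
        rw [hmem]
        refine ⟨fun a ha => ?_, g1⟩
        rw [akb_mem_GF]
        refine ⟨(blks0_le Finset.univ _ (Finset.mem_univ a)).trans hc.2.2.2, ?_⟩
        rw [g2 a ha]
        exact ((akb_mem_GF D).1 (hg' a)).2
      refine ⟨g, hgm, ?_, ?_⟩
      · rw [if_pos hc]
        rw [one_mul, hprod g' hemp] at hne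
        have e1 : ∏ a ∈ Lg, ∏ v ∈ g a, H a v = ∏ a ∈ Lg, ∏ v ∈ g' a, H a v := by
          apply Finset.prod_congr rfl
          intro a ha
          rw [g2 a ha]
        rw [e1]
        exact hne
      · funext a
        by_cases ha : a ∈ Lg
        · rw [if_pos ha, g2 a ha]
        · rw [if_neg ha, hemp a ha]
    · intro g hg hne
      rw [hmem] at hg
      have hc : Dj g ∧ (∀ a, Disjoint (g a) E) ∧ (∀ a ∈ Lg, (0 : ℝ) < nr (g a)) ∧
          ∏ a, nr (g a) ≤ Y := by
        by_contra hc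
        exact hne (if_neg hc)
      have hc' := (hcond g (fun a => if a ∈ Lg then g a else ∅) hg.2
        (fun a ha => if_neg ha) (fun a ha => (if_pos ha).symm)).1 hc
      rw [if_pos hc, if_pos hc', one_mul]
      have h5 := hprod (fun a => if a ∈ Lg then g a else ∅) (fun a ha => if_neg ha)
      refine Eq.trans ?_ h5.symm
      apply Finset.prod_congr rfl
      intro a ha
      rw [if_pos ha]
  rw [hA, ← part D (fun _ : J => ()) (akbE E Lg s) (Y / sn Lg s)
    (fun _ : Unit → Finset (Pl K) => (1 : ℂ))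
    (fun _ a v => if a ∈ Lg then H a v else 0)]
  refine (norm_sum_le _ _).trans ?_
  have hB : ∑ n ∈ (GF D (Y / sn Lg s)).filter (fun n => Disjoint n (akbE E Lg s)),
      ∏ v ∈ n, ‖∑ a ∈ Lg, H a v‖ =
      ∑ f ∈ Fintype.piFinset (fun _ : Unit => GF D (Y / sn Lg s)),
        if Disjoint (f ()) (akbE E Lg s) then ∏ v ∈ f (), ‖∑ a ∈ Lg, H a v‖ else 0 := by
    rw [Finset.sum_filter]
    refine Finset.sum_bij (fun n _ => fun _ => n) ?_ ?_ ?_ ?_
    · intro n hn
      rw [Fintype.mem_piFinset]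
      exact fun _ => hn
    · intro n _ n' _ h
      exact congrFun h ()
    · intro f hf
      rw [Fintype.mem_piFinset] at hf
      exact ⟨f (), hf (), rfl⟩
    · intro n _
      rfl
  rw [hB]
  apply Finset.sum_le_sum
  intro f _
  by_cases hc : Dj f ∧ (∀ i, Disjoint (f i) (akbE E Lg s)) ∧ ∏ i, nr (f i) ≤ Y / sn Lg s
  · rw [if_pos hc, if_pos (hc.2.1 ()), one_mul, Fintype.prod_unique, norm_prod]
    apply le_of_eq
    apply Finset.prod_congr rfl
    intro v _
    congr 1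
    rw [Finset.filter_true_of_mem (fun _ _ => rfl)]
    rw [← Finset.sum_filter]
    apply Finset.sum_congr _ fun _ _ => rfl
    ext a
    simp
  · rw [if_neg hc, norm_zero]
    split_ifs
    · exact Finset.prod_nonneg fun _ _ => norm_nonneg _
    · exact le_rfl

private theorem blks0_num {Y S γ : ℝ} (hY : 9 ≤ Y) (hS : 1 ≤ S) (hSY : S ≤ Y ^ (1 / 2 : ℝ))
    (hγ : 0 ≤ γ) :
    3 ≤ Y / S ∧ Real.log (Y / S) ^ (γ - 1) ≤ 2 * Real.log Y ^ (γ - 1) := by
  have hY0 : 0 < Y := by linarith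
  have hS0 : 0 < S := by linarith
  have h1 : Y ^ (1 / 2 : ℝ) * Y ^ (1 / 2 : ℝ) = Y := by
    rw [← Real.rpow_add hY0]
    norm_num
  have h3 : (3 : ℝ) ≤ Y ^ (1 / 2 : ℝ) := by
    have h4 : (9 : ℝ) ^ (1 / 2 : ℝ) ≤ Y ^ (1 / 2 : ℝ) :=
      Real.rpow_le_rpow (by norm_num) hY (by norm_num)
    have h5 : (9 : ℝ) ^ (1 / 2 : ℝ) = 3 := by
      rw [show (9 : ℝ) = 3 ^ (2 : ℝ) by norm_num, ← Real.rpow_mul (by norm_num)]
      norm_num
    linarith
  have h6 : Y ^ (1 / 2 : ℝ) ≤ Y / S := by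
    rw [le_div_iff₀ hS0]
    calc Y ^ (1 / 2 : ℝ) * S ≤ Y ^ (1 / 2 : ℝ) * Y ^ (1 / 2 : ℝ) :=
          mul_le_mul_of_nonneg_left hSY (by linarith)
      _ = Y := h1
  have hlogY : 0 < Real.log Y := Real.log_pos (by linarith)
  have h7 : Real.log Y / 2 ≤ Real.log (Y / S) := by
    have h8 := Real.log_le_log (by linarith) h6
    rw [Real.log_rpow hY0] at h8
    linarith
  have h9 : Real.log (Y / S) ≤ Real.log Y := by
    apply Real.log_le_log (by positivity)
    rw [div_le_iff₀ hS0]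
    nlinarith
  refine ⟨by linarith, ?_⟩
  have h10 : 0 ≤ Real.log Y ^ (γ - 1) := Real.rpow_nonneg hlogY.le _
  rcases le_total 1 γ with h | h
  · have h11 : Real.log (Y / S) ^ (γ - 1) ≤ Real.log Y ^ (γ - 1) :=
      Real.rpow_le_rpow (by linarith) h9 (by linarith)
    linarith
  · have h11 : Real.log (Y / S) ^ (γ - 1) ≤ (Real.log Y / 2) ^ (γ - 1) :=
      Real.rpow_le_rpow_of_nonpos (by linarith) h7 (by linarith)
    have h12 : (Real.log Y / 2) ^ (γ - 1) = Real.log Y ^ (γ - 1) * (2 : ℝ) ^ (1 - γ) := by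
      rw [Real.div_rpow hlogY.le (by norm_num), div_eq_mul_inv, ← Real.rpow_neg (by norm_num)]
      congr 2
      ring
    have h13 : (2 : ℝ) ^ (1 - γ) ≤ 2 := by
      calc (2 : ℝ) ^ (1 - γ) ≤ (2 : ℝ) ^ (1 : ℝ) :=
            Real.rpow_le_rpow_of_exponent_le (by norm_num) (by linarith)
        _ = 2 := Real.rpow_one 2
    rw [h12] at h11
    nlinarith

theorem blks0 {K : Type} [Field K] [NumberField K] {p : ℕ} {ζ : K} [NeZero p] (hp : p.Prime)
    (hζ : IsPrimitiveRoot ζ p) (D : RD K p ζ) {m : ℕ} {J : Type} [Fintype J] (P : PD p m J)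
    (M : ℕ) (u η : ℝ) (hu : 0 ≤ u) (hu1 : u ≤ 1) (hη : 0 < η) :
    ∃ C : ℝ, 0 < C ∧ ∀ (X : Finset J) (b : Fin m → Kˣ) (E : Finset (Pl K)) (c₂ : Fin M → Kˣ),
      BS2 D.toRD0 b E → BS2 D.toRD0 c₂ E → Ind p c₂ →
      ∀ (Lg : Finset J) (s : J → Finset (Pl K)) (Y : ℝ), 9 ≤ Y → sn Lg s ≤ Y ^ (1 / 2 : ℝ) →
        (∀ l, l ∉ Lg → ∀ v ∈ s l, D.Gd v) → (∀ a ∈ Lg, ∀ a' ∈ Lg, P.lk a a' = 0) →
        ∀ r ∈ Lg, r ∉ X → P.x r = 0 → P.θ r = 0 → ∀ a ∈ Lg, ∀ l, l ∉ Lg → s l ≠ ∅ →
          P.lk a l ≠ 0 →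
          ‖TW D.toRD0 P b E (Wt D.toRD0 c₂ u X) Y 0 Lg s‖ ≤
            C * nr (akbE E Lg s) ^ η * (Y / sn Lg s) *
              Real.log Y ^ (∑ a' ∈ Lg, mw p M u (a' ∈ X) - mw p M u (a ∈ X) / 2 - 1) := by
  obtain ⟨C₀, hC₀, hsav⟩ := sav hp hζ D J M u η hu hu1 hη
  have hp0 : (0 : ℝ) < p := by exact_mod_cast hp.pos
  obtain ⟨N, hN⟩ : ∃ N : ℝ, N = (p : ℝ) ^ Fintype.card (J × Fin D.r) := ⟨_, rfl⟩
  have hN0 : 0 < N := by rw [hN]; positivity
  refine ⟨N * (C₀ * 2), by positivity, ?_⟩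
  intro X b E c₂ hb hc₂ hind Lg s Y hY hsnY hs hlk r hr hrX hxr hθr a ha l hl hsl hlkal
  have hsn1 := blks0_sn Lg s
  have hsn : 0 < sn Lg s := by linarith
  have hlogY : 0 ≤ Real.log Y := Real.log_nonneg (by linarith)
  have hmw0 : ∀ x : Prop, 0 ≤ mw p M u x := fun x => (mw_ge hp M hu hu1 x).2.1
  have hnrE : 0 ≤ nr (akbE E Lg s) := (zero_le_one.trans (one_le_nr _))
  have hYS : 0 ≤ Y / sn Lg s := div_nonneg (by linarith) hsn.le
  by_cases hcons : (∀ l, l ∉ Lg → ∀ l', l' ∉ Lg → l ≠ l' → Disjoint (s l) (s l')) ∧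
      ∀ l, l ∉ Lg → Disjoint (s l) E
  swap
  · have h0 : TW D.toRD0 P b E (Wt D.toRD0 c₂ u X) Y 0 Lg s = 0 := by
      unfold TW
      apply Finset.sum_eq_zero
      intro g hg
      rw [Fintype.mem_piFinset] at hg
      have hgs : ∀ l, l ∉ Lg → g l = s l := by
        intro l hl
        have := hg l
        rwa [if_neg hl, Finset.mem_singleton] at this
      apply if_neg
      rintro ⟨c1, c2, -, -⟩
      apply hcons
      refine ⟨fun l hl l' hl' hll => ?_, fun l hl => ?_⟩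
      · rw [← hgs l hl, ← hgs l' hl']
        exact c1 l l' hll
      · rw [← hgs l hl]
        exact c2 l
    rw [h0, norm_zero]
    have h1 := Real.rpow_nonneg hlogY
      (∑ a' ∈ Lg, mw p M u (a' ∈ X) - mw p M u (a ∈ X) / 2 - 1)
    have h2 := Real.rpow_nonneg hnrE η
    positivity
  obtain ⟨hs1, hs2⟩ := hcons
  obtain ⟨F, hF⟩ := phU hp hζ D P b E hb Lg s hlk
  obtain ⟨Φ, hΦ⟩ : ∃ Φ : (J × Fin D.r → ZMod p) → ℂ, ∀ q, Φ q =
      ep p (F fun l i => q (l, i)) := ⟨_, fun _ => rfl⟩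
  have hΦ1 : ∀ q, ‖Φ q‖ ≤ 1 := by
    intro q
    rw [hΦ, ep_norm]
  obtain ⟨H, hH⟩ : ∃ H : (J × Fin D.r → ZMod p) → J → Pl K → ℂ, ∀ χ a v, H χ a v =
      ((ww D.toRD0 c₂ u (a ∈ X) v : ℝ) : ℂ) * ep p (fE D.toRD0 (akbE E Lg s)
        (muU D P b E Lg s a) (fun i => χ (a, i)) v) := ⟨_, fun _ _ _ => rfl⟩
  obtain ⟨cc, hcc⟩ : ∃ cc : (J × Fin D.r → ZMod p) → ℂ, ∀ χ, cc χ =
      (∏ a ∈ Finset.univ.filter (fun a => a ∉ Lg), Wt D.toRD0 c₂ u X a (s a)) *
        ep p (∑ a ∈ Finset.univ.filter (fun a => a ∉ Lg), ∑ i, χ (a, i) * qf D.toRD0 (s a) i) :=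
    ⟨_, fun _ => rfl⟩
  have hWt : ∀ (a : J) (n : Finset (Pl K)), ‖Wt D.toRD0 c₂ u X a n‖ ≤ 1 := by
    intro a n
    unfold Wt
    rw [Complex.norm_real, Real.norm_eq_abs, abs_of_nonneg
      (Finset.prod_nonneg fun v _ => (ww_le D.toRD0 c₂ hu hu1 _ v).1)]
    exact Finset.prod_le_one (fun v _ => (ww_le D.toRD0 c₂ hu hu1 _ v).1)
      fun v _ => (ww_le D.toRD0 c₂ hu hu1 _ v).2
  have hcc1 : ∀ χ, ‖cc χ‖ ≤ 1 := by
    intro χ
    rw [hcc, norm_mul, ep_norm, mul_one, norm_prod]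
    exact Finset.prod_le_one (fun _ _ => norm_nonneg _) fun a _ => hWt a _
  -- the expansion
  have hTW : TW D.toRD0 P b E (Wt D.toRD0 c₂ u X) Y 0 Lg s =
      ∑ χ : J × Fin D.r → ZMod p, akcC p Φ χ * cc χ *
        ∑ g ∈ Fintype.piFinset (fun a => if a ∈ Lg then GF D.toRD0 Y else {s a}),
          (if Dj g ∧ (∀ a, Disjoint (g a) E) ∧ (∀ a ∈ Lg, (0 : ℝ) < nr (g a)) ∧
            ∏ a, nr (g a) ≤ Y then ∏ a ∈ Lg, ∏ v ∈ g a, H χ a v else 0) := by
    unfold TW
    simp only [Finset.mul_sum]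
    rw [Finset.sum_comm]
    apply Finset.sum_congr rfl
    intro g hg
    rw [Fintype.mem_piFinset] at hg
    by_cases hc : Dj g ∧ (∀ a, Disjoint (g a) E) ∧ (∀ a ∈ Lg, (0 : ℝ) < nr (g a)) ∧
        ∏ a, nr (g a) ≤ Y
    · have hgs : ∀ l, l ∉ Lg → g l = s l := by
        intro l hl
        have := hg l
        rwa [if_neg hl, Finset.mem_singleton] at this
      have hgood : ∀ a, ∀ v ∈ g a, D.Gd v := by
        intro l v hv
        by_cases hl : l ∈ Lg
        · have := hg l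
          rw [if_pos hl, akb_mem_GF] at this
          exact this.2 v hv
        · rw [hgs l hl] at hv
          exact hs l hl v hv
      have hadm : Adm2 D.toRD0 E g := ⟨⟨hgood, hc.1⟩, hc.2.1⟩
      simp only [if_pos hc]
      rw [hF g hadm hgs, ep_add hp]
      have e1 := akc_inv hp Φ (fun x : J × Fin D.r => qf D.toRD0 (g x.1) x.2)
      rw [hΦ] at e1
      have e1' : ep p (F fun a => qf D.toRD0 (g a)) = ∑ χ : J × Fin D.r → ZMod p,
          akcC p Φ χ * ep p (∑ x, χ x * qf D.toRD0 (g x.1) x.2) := e1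
      rw [e1', Finset.mul_sum, Finset.mul_sum]
      apply Finset.sum_congr rfl
      intro χ _
      -- the weights
      have e2 : ∏ a, Wt D.toRD0 c₂ u X a (g a) =
          (∏ a ∈ Lg, ∏ v ∈ g a, ((ww D.toRD0 c₂ u (a ∈ X) v : ℝ) : ℂ)) *
          ∏ a ∈ Finset.univ.filter (fun a => a ∉ Lg), Wt D.toRD0 c₂ u X a (s a) := by
        rw [blks0_split Lg]
        congr 1
        · apply Finset.prod_congr rfl
          intro a _
          unfold Wt
          push_cast
          rfl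
        · apply Finset.prod_congr rfl
          intro a ha
          rw [hgs a (Finset.mem_filter.1 ha).2]
      -- the phases
      have e3 : ∑ a ∈ Lg, ∑ v ∈ g a, fE D.toRD0 (akbE E Lg s) (muU D P b E Lg s a) 0 v +
          ∑ x, χ x * qf D.toRD0 (g x.1) x.2 =
          ∑ a ∈ Lg, ∑ v ∈ g a, fE D.toRD0 (akbE E Lg s) (muU D P b E Lg s a)
            (fun i => χ (a, i)) v +
          ∑ a ∈ Finset.univ.filter (fun a => a ∉ Lg), ∑ i, χ (a, i) * qf D.toRD0 (s a) i := by
        have e4 : ∑ x, χ x * qf D.toRD0 (g x.1) x.2 =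
            ∑ a ∈ Lg, ∑ i, χ (a, i) * qf D.toRD0 (g a) i +
            ∑ a ∈ Finset.univ.filter (fun a => a ∉ Lg), ∑ i, χ (a, i) * qf D.toRD0 (s a) i := by
          rw [Fintype.sum_prod_type, ← Finset.sum_filter_add_sum_filter_not Finset.univ
            (fun a => a ∈ Lg)]
          congr 1
          · apply Finset.sum_congr _ fun _ _ => rfl
            ext a
            simp
          · apply Finset.sum_congr rfl
            intro a ha
            change ∑ y, χ (a, y) * qf D.toRD0 (g a) y = _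
            rw [hgs a (Finset.mem_filter.1 ha).2]
        rw [e4, ← add_assoc, ← Finset.sum_add_distrib]
        congr 1
        apply Finset.sum_congr rfl
        intro a _
        have e5 : ∑ i, χ (a, i) * qf D.toRD0 (g a) i =
            ∑ v ∈ g a, dt (fun i => χ (a, i)) (D.q v) := by
          unfold qf dt
          rw [Finset.sum_comm]
          apply Finset.sum_congr rfl
          intro i _
          rw [Finset.sum_apply, Finset.mul_sum]
        rw [e5, ← Finset.sum_add_distrib]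
        apply Finset.sum_congr rfl
        intro v _
        have e6 : dt (0 : Fin D.r → ZMod p) (D.q v) = 0 := by
          unfold dt
          simp
        unfold fE
        rw [e6, add_zero]
      have e7 : ep p (∑ a ∈ Lg, ∑ v ∈ g a, fE D.toRD0 (akbE E Lg s) (muU D P b E Lg s a) 0 v) *
          ep p (∑ x, χ x * qf D.toRD0 (g x.1) x.2) =
          (∏ a ∈ Lg, ∏ v ∈ g a, ep p (fE D.toRD0 (akbE E Lg s) (muU D P b E Lg s a)
            (fun i => χ (a, i)) v)) *
          ep p (∑ a ∈ Finset.univ.filter (fun a => a ∉ Lg),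
            ∑ i, χ (a, i) * qf D.toRD0 (s a) i) := by
        rw [← ep_add hp, e3, ep_add hp, akc_ep_sum hp]
        congr 1
        apply Finset.prod_congr rfl
        intro a _
        rw [akc_ep_sum hp]
      have e8 : ∏ a ∈ Lg, ∏ v ∈ g a, H χ a v =
          (∏ a ∈ Lg, ∏ v ∈ g a, ((ww D.toRD0 c₂ u (a ∈ X) v : ℝ) : ℂ)) *
          ∏ a ∈ Lg, ∏ v ∈ g a, ep p (fE D.toRD0 (akbE E Lg s) (muU D P b E Lg s a)
            (fun i => χ (a, i)) v) := by
        rw [← Finset.prod_mul_distrib]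
        apply Finset.prod_congr rfl
        intro a _
        rw [← Finset.prod_mul_distrib]
        apply Finset.prod_congr rfl
        intro v _
        rw [hH]
      rw [e8, hcc, e2]
      linear_combination (∏ a ∈ Lg, ∏ v ∈ g a, ((ww D.toRD0 c₂ u (a ∈ X) v : ℝ) : ℂ)) *
        (∏ a ∈ Finset.univ.filter (fun a => a ∉ Lg), Wt D.toRD0 c₂ u X a (s a)) *
        akcC p Φ χ * e7
    · simp only [if_neg hc, mul_zero, Finset.sum_const_zero]
  -- the estimate for one character
  obtain ⟨γ, hγ⟩ : ∃ γ : ℝ, γ = ∑ a' ∈ Lg, mw p M u (a' ∈ X) - mw p M u (a ∈ X) / 2 := ⟨_, rfl⟩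
  have hγ0 : 0 ≤ γ := by
    have h1 := Finset.single_le_sum (f := fun a' => mw p M u (a' ∈ X))
      (fun a' _ => hmw0 (a' ∈ X)) ha
    have h2 := hmw0 (a ∈ X)
    rw [hγ]
    linarith
  obtain ⟨hY3, hnum⟩ := blks0_num hY hsn1 hsnY hγ0
  have hone : ∀ χ : J × Fin D.r → ZMod p,
      ‖∑ g ∈ Fintype.piFinset (fun a => if a ∈ Lg then GF D.toRD0 Y else {s a}),
          (if Dj g ∧ (∀ a, Disjoint (g a) E) ∧ (∀ a ∈ Lg, (0 : ℝ) < nr (g a)) ∧
            ∏ a, nr (g a) ≤ Y then ∏ a ∈ Lg, ∏ v ∈ g a, H χ a v else 0)‖ ≤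
      C₀ * 2 * nr (akbE E Lg s) ^ η * (Y / sn Lg s) * Real.log Y ^ (γ - 1) := by
    intro χ
    refine (blks0_fold D.toRD0 E Lg s Y (H χ) hs1 hs2).trans ?_
    have hE' : ∀ w ∈ akbE E Lg s, w ∉ D.S0 := by
      intro w hw
      unfold akbE at hw
      rw [Finset.mem_union, Finset.mem_biUnion] at hw
      rcases hw with hw | ⟨l', hl', hw⟩
      · exact hb.1 w hw
      · exact (hs l' (Finset.mem_filter.1 hl').2 w hw).1
    have hex : ∃ w ∈ akbE E Lg s, w ∉ E ∧ muU D P b E Lg s a w ≠ muU D P b E Lg s r w := by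
      obtain ⟨w, hw⟩ := Finset.nonempty_iff_ne_empty.2 hsl
      have hwE : w ∉ E := fun h => (Finset.disjoint_left.1 (hs2 l hl) hw) h
      have hval : ∀ a', muU D P b E Lg s a' w = P.lk a' l := by
        intro a'
        unfold muU
        rw [if_neg hwE, zero_add, Finset.sum_eq_single l]
        · rw [if_pos hw]
        · intro l' hl' hne
          rw [if_neg]
          intro hw'
          exact Finset.disjoint_left.1 (hs1 l hl l' (Finset.mem_filter.1 hl').2 (Ne.symm hne))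
            hw hw'
        · intro h
          exact absurd (Finset.mem_filter.2 ⟨Finset.mem_univ l, hl⟩) h
      refine ⟨w, ?_, hwE, ?_⟩
      · unfold akbE
        rw [Finset.mem_union, Finset.mem_biUnion]
        exact Or.inr ⟨l, Finset.mem_filter.2 ⟨Finset.mem_univ l, hl⟩, hw⟩
      · rw [hval, hval]
        have h0 : P.lk r l = 0 := by
          unfold PD.lk dt
          rw [hxr, hθr]
          simp
        rw [h0]
        exact hlkal
    have h1 := hsav E (akbE E Lg s) c₂ (by unfold akbE; exact Finset.subset_union_left) hE' hc₂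
      hind X Lg (muU D P b E Lg s) (fun a' i => χ (a', i)) r a hr hrX ha hex
      (Y / sn Lg s) hY3
    rw [← hγ] at h1
    have h2 : ∑ n ∈ (GF D.toRD0 (Y / sn Lg s)).filter (fun n => Disjoint n (akbE E Lg s)),
        ∏ v ∈ n, ‖∑ a ∈ Lg, H χ a v‖ ≤
        C₀ * nr (akbE E Lg s) ^ η * (Y / sn Lg s) * Real.log (Y / sn Lg s) ^ (γ - 1) := by
      refine le_trans (le_of_eq ?_) h1
      apply Finset.sum_congr rfl
      intro n _
      apply Finset.prod_congr rfl
      intro v _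
      congr 1
      apply Finset.sum_congr rfl
      intro a' _
      rw [hH]
    refine h2.trans ?_
    have h3 : 0 ≤ C₀ * nr (akbE E Lg s) ^ η * (Y / sn Lg s) := by
      have := Real.rpow_nonneg hnrE η
      positivity
    calc _ ≤ C₀ * nr (akbE E Lg s) ^ η * (Y / sn Lg s) * (2 * Real.log Y ^ (γ - 1)) :=
          mul_le_mul_of_nonneg_left hnum h3
      _ = _ := by ring
  obtain ⟨B, hB⟩ : ∃ B : ℝ, B = C₀ * 2 * nr (akbE E Lg s) ^ η * (Y / sn Lg s) *
      Real.log Y ^ (γ - 1) := ⟨_, rfl⟩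
  have hB0 : 0 ≤ B := by
    rw [hB]
    have h1 := Real.rpow_nonneg hlogY (γ - 1)
    have h2 := Real.rpow_nonneg hnrE η
    positivity
  have hone' : ∀ χ ∈ (Finset.univ : Finset (J × Fin D.r → ZMod p)),
      ‖akcC p Φ χ * cc χ *
        ∑ g ∈ Fintype.piFinset (fun a => if a ∈ Lg then GF D.toRD0 Y else {s a}),
          (if Dj g ∧ (∀ a, Disjoint (g a) E) ∧ (∀ a ∈ Lg, (0 : ℝ) < nr (g a)) ∧
            ∏ a, nr (g a) ≤ Y then ∏ a ∈ Lg, ∏ v ∈ g a, H χ a v else 0)‖ ≤ B := by
    intro χ _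
    rw [norm_mul, norm_mul]
    have h1 : ‖akcC p Φ χ‖ * ‖cc χ‖ ≤ 1 :=
      mul_le_one₀ (akc_norm hp Φ hΦ1 χ) (norm_nonneg _) (hcc1 χ)
    calc _ ≤ 1 * B := mul_le_mul h1 (by rw [hB]; exact hone χ) (norm_nonneg _) zero_le_one
      _ = B := one_mul B
  rw [hTW]
  refine (norm_sum_le_of_le _ hone').trans ?_
  rw [Finset.sum_const, Finset.card_univ, Fintype.card_fun, ZMod.card, nsmul_eq_mul]
  have e1 : (((p ^ Fintype.card (J × Fin D.r) : ℕ)) : ℝ) = N := by
    rw [hN]
    push_cast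
    rfl
  rw [e1, ← hγ, hB]
  apply le_of_eq
  ring

end H77.AB
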