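import Pool.Agent.H77.AB.WDef

/-!
# [H77 AB THR] one threshold: large and small variables, 60-120 lines

* `dec1`: for `T ≤ Y` every `g : J → GF Y` determines `Lg = {a : T < nr (g a)}` and `s a = ∅` for `a ∈ Lg`, `s a = g a ∈ GF T` for `a ∉ Lg`; conversely for `Lg`, `s` with `s a ∈ GF T` (`a ∉ Lg`), `s a = ∅` (`a ∈ Lg`) the `g` with `g a = s a` for `a ∉ Lg` and `T < nr (g a)` for `a ∈ Lg` are exactly those with these data. So
  `∑_g w g = ∑_{Lg} ∑_s ∑_{g}` (a simple case of `athr` in H63/MA/AThr; `Finset.sum_comm`, or: for fixed `g` the sum over `(Lg, s)` has exactly one nonzero term).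
* `thr_sum`: `smf_sum` (H63/MA/AThr) for `j = 0`, `z = fun _ => T`: the condition of `SmF` is empty for `j = 0`; its hypothesis is `af_inv K` (H63/MA/ADivJ). `sn Lg s = ∏_{a ∉ Lg} nr (s a)` (H63/MA/AKSum). Enlarge the constant to be `≥ 1`.
-/

set_option autoImplicit false

open scoped NumberField
open IsDedekindDomain
open scoped Classical

noncomputable section

namespace H77.AB

open H63.MA H38.BB

variable {K : Type} [Field K] [NumberField K] {p : ℕ} {ζ : K}

/-- the relation between `g` and the pair `(Lg, s)` -/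
def thrA {J : Type} (T : ℝ) (Lg : Finset J) (s g : J → Finset (Pl K)) : Prop :=
  (∀ a, a ∉ Lg → g a = s a) ∧ ∀ a ∈ Lg, T < nr (g a)

theorem thr_facts {J : Type} [Fintype J] (D : RD0 K p ζ) (T : ℝ) {Lg : Finset J}
    {s g : J → Finset (Pl K)}
    (hs : s ∈ Fintype.piFinset (fun a => if a ∈ Lg then {∅} else GF D T)) (hA : thrA T Lg s g) :
    Lg = Finset.univ.filter (fun a => T < nr (g a)) ∧ s = fun a => if a ∈ Lg then ∅ else g a := by
  rw [Fintype.mem_piFinset] at hs
  constructor
  · ext a
    rw [Finset.mem_filter]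
    constructor
    · intro ha
      exact ⟨Finset.mem_univ _, hA.2 a ha⟩
    · rintro ⟨-, ha⟩
      by_contra hn
      have h1 := hs a
      rw [if_neg hn] at h1
      unfold GF at h1
      rw [Finset.mem_filter, mem_AF] at h1
      rw [hA.1 a hn] at ha
      exact absurd h1.1 (not_le.2 ha)
  · funext a
    by_cases ha : a ∈ Lg
    · rw [if_pos ha]
      have h1 := hs a
      rw [if_pos ha, Finset.mem_singleton] at h1
      exact h1
    · rw [if_neg ha]
      exact (hA.1 a ha).symm

theorem dec1 {J : Type} [Fintype J] (D : RD0 K p ζ) (T Y : ℝ) (hT : T ≤ Y)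
    (w : (J → Finset (Pl K)) → ℂ) :
    ∑ g ∈ Fintype.piFinset (fun _ : J => GF D Y), w g =
      ∑ Lg : Finset J, ∑ s ∈ Fintype.piFinset (fun a => if a ∈ Lg then {∅} else GF D T),
        ∑ g ∈ Fintype.piFinset (fun a => if a ∈ Lg then GF D Y else {s a}),
          if ∀ a ∈ Lg, T < nr (g a) then w g else 0 := by
  -- the inner sums as sums over all families
  have hin : ∀ (Lg : Finset J), ∀ s ∈ Fintype.piFinset (fun a => if a ∈ Lg then {∅} else GF D T),
      ∑ g ∈ Fintype.piFinset (fun a => if a ∈ Lg then GF D Y else {s a}),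
        (if ∀ a ∈ Lg, T < nr (g a) then w g else 0) =
      ∑ g ∈ Fintype.piFinset (fun _ : J => GF D Y), if thrA T Lg s g then w g else 0 := by
    intro Lg s hs
    rw [Fintype.mem_piFinset] at hs
    rw [← Finset.sum_filter, ← Finset.sum_filter]
    refine congrArg (fun S => ∑ g ∈ S, w g) ?_
    ext g
    rw [Finset.mem_filter, Finset.mem_filter, Fintype.mem_piFinset, Fintype.mem_piFinset]
    unfold thrA
    constructor
    · rintro ⟨h1, h2⟩
      refine ⟨fun a => ?_, fun a ha => ?_, h2⟩
      · have h3 := h1 a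
        by_cases ha : a ∈ Lg
        · rw [if_pos ha] at h3
          exact h3
        · rw [if_neg ha, Finset.mem_singleton] at h3
          have h4 := hs a
          rw [if_neg ha] at h4
          rw [h3]
          exact athr_GF_mono D hT h4
      · have h3 := h1 a
        rw [if_neg ha, Finset.mem_singleton] at h3
        exact h3
    · rintro ⟨h1, h2, h3⟩
      refine ⟨fun a => ?_, h3⟩
      by_cases ha : a ∈ Lg
      · rw [if_pos ha]
        exact h1 a
      · rw [if_neg ha, Finset.mem_singleton]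
        exact h2 a ha
  have hR : ∑ Lg : Finset J, ∑ s ∈ Fintype.piFinset (fun a => if a ∈ Lg then {∅} else GF D T),
        ∑ g ∈ Fintype.piFinset (fun a => if a ∈ Lg then GF D Y else {s a}),
          (if ∀ a ∈ Lg, T < nr (g a) then w g else 0) =
      ∑ g ∈ Fintype.piFinset (fun _ : J => GF D Y), ∑ Lg : Finset J,
        ∑ s ∈ Fintype.piFinset (fun a => if a ∈ Lg then {∅} else GF D T),
          if thrA T Lg s g then w g else 0 := by
    symm
    rw [Finset.sum_comm]
    refine Finset.sum_congr rfl fun Lg _ => ?_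
    rw [Finset.sum_comm]
    exact Finset.sum_congr rfl fun s hs => (hin Lg s hs).symm
  rw [hR]
  refine Finset.sum_congr rfl fun g hg => ?_
  rw [Fintype.mem_piFinset] at hg
  obtain ⟨L₀, hL₀⟩ : ∃ L₀ : Finset J, L₀ = Finset.univ.filter (fun a => T < nr (g a)) :=
    ⟨_, rfl⟩
  obtain ⟨s₀, hs₀⟩ : ∃ s₀ : J → Finset (Pl K), s₀ = fun a => if a ∈ L₀ then ∅ else g a :=
    ⟨_, rfl⟩
  have hmL : ∀ a, a ∈ L₀ ↔ T < nr (g a) := by
    intro a
    rw [hL₀, Finset.mem_filter]
    exact ⟨fun h => h.2, fun h => ⟨Finset.mem_univ _, h⟩⟩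
  have hA : thrA T L₀ s₀ g := by
    constructor
    · intro a ha
      rw [hs₀]
      show g a = if a ∈ L₀ then ∅ else g a
      rw [if_neg ha]
    · intro a ha
      exact (hmL a).1 ha
  have hS : s₀ ∈ Fintype.piFinset (fun a => if a ∈ L₀ then {∅} else GF D T) := by
    rw [Fintype.mem_piFinset]
    intro a
    rw [hs₀]
    show (if a ∈ L₀ then ∅ else g a) ∈ (if a ∈ L₀ then {∅} else GF D T)
    by_cases ha : a ∈ L₀
    · rw [if_pos ha, if_pos ha]
      exact Finset.mem_singleton_self _
    · rw [if_neg ha, if_neg ha]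
      have h1 := hg a
      unfold GF at h1 ⊢
      rw [Finset.mem_filter, mem_AF] at h1 ⊢
      exact ⟨not_lt.1 fun h => ha ((hmL a).2 h), h1.2⟩
  symm
  rw [Finset.sum_eq_single L₀]
  · rw [Finset.sum_eq_single s₀]
    · rw [if_pos hA]
    · intro s hs hne
      rw [if_neg]
      intro hA'
      exact hne ((thr_facts D T hs hA').2.trans hs₀.symm)
    · intro h
      exact absurd hS h
  · intro L _ hne
    refine Finset.sum_eq_zero fun s hs => ?_
    rw [if_neg]
    intro hA'
    exact hne ((thr_facts D T hs hA').1.trans hL₀.symm)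
  · intro h
    exact absurd (Finset.mem_univ _) h

theorem thr_sum (K : Type) [Field K] [NumberField K] (J : Type) [Fintype J] :
    ∃ C : ℝ, 1 ≤ C ∧ ∀ (p : ℕ) (ζ : K) (D : RD0 K p ζ) (T : ℝ) (Lg : Finset J), 1 ≤ T →
      ∑ s ∈ Fintype.piFinset (fun a => if a ∈ Lg then {∅} else GF D T), (sn Lg s)⁻¹ ≤
        C * (1 + Real.log T) ^ Fintype.card J := by
  obtain ⟨C, hC, h⟩ := smf_sum K (J := J) (af_inv K)
  refine ⟨max C 1, le_max_right _ _, ?_⟩
  intro p ζ D T Lg hT
  have h1 := h p ζ D (fun _ => T) 0 Lg hT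
  have h2 : SmF D (fun _ => T) 0 Lg = Fintype.piFinset (fun a => if a ∈ Lg then {∅} else GF D T) := by
    unfold SmF
    rw [Finset.filter_eq_self]
    intro s _ j' hj'
    exact absurd hj' (Nat.not_lt_zero _)
  rw [h2] at h1
  refine le_trans h1 ?_
  have hlog : 0 ≤ Real.log T := Real.log_nonneg hT
  exact mul_le_mul_of_nonneg_right (le_max_left _ _) (by positivity)

end H77.AB
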