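import Pool.Agent.H77.AB.Exc
import Pool.Agent.H77.AB.BlkA
import Pool.Agent.H77.AB.BlkS0
import Pool.Agent.H77.AB.Thr

/-!
# [H77 AB BLKS] a block with a linked small variable, 100-160 lines

Proof. `exc`. Term `U = ∅`: only `t = ∅`, the family is `s`: `blks0`: `≤ C₀ (nr E')^η (Y/sn) (log Y)^{γ - mw(a)/2 - 1}`, `γ = ∑_{Lg} mw`, `mw(a)/2 ≥ u p^{-M} / 2` (`mw_ge`), `log Y ≥ 1`; `nr E' ≤ nr E * T^{#J}` (`akb_nr_union`, `akb_nr_biUnion` in H63/MA/AKB; `nr (s l) ≤ T`), so `(nr E')^η ≤ (nr E)^η (T^{#J})^η`.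
Terms `U ≠ ∅`: for `t` with `t a ∈ GF T` (`a ∈ U`) the family `s' = (if a ∈ U then t a else s a)` has `sn (Lg \ U) s' = sn Lg s * ∏_{a ∈ U} nr (t a) ≤ T^{#J}` (`≤ Y^{1/4} ≤ Y^{1/2}`), and `blka` gives `≤ C₁ (nr E)^η (Y / sn (Lg \ U) s') (log Y)^{∑_{Lg \ U} mw - 1}`; `∑_{Lg \ U} mw ≤ γ - u p^{-M} ≤ γ - u p^{-M}/2` (`mw_ge`). The sum over `t` of `∏_{a ∈ U} (nr (t a))^{-1}` is at most `C₂ (1 + log T)^{#J}`
(`thr_sum` with the set `univ \ U` in place of `Lg`: `sn (univ \ U) t = ∏_{a ∈ U} nr (t a)`). There are at most `2^{#J}` sets `U`, and `(1 + log T)^{#J} ≥ 1`, `(T^{#J})^η ≥ 1`. (`T ≤ Y` follows from `(T^{#J})… ≤ Y^{1/4}` if `J` is not empty (`Lg` contains `r`), `T ≥ 1`.)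
-/

set_option autoImplicit false

open scoped NumberField
open IsDedekindDomain
open scoped Classical

noncomputable section

namespace H77.AB

open H63.MA H38.BB

theorem blks_sn {K : Type} [Field K] [NumberField K] {J : Type} [Fintype J] (Lg U : Finset J)
    (hU : U ⊆ Lg) (s t : J → Finset (Pl K)) :
    sn (Lg \ U) (fun a => if a ∈ U then t a else s a) = sn Lg s * sn (Finset.univ \ U) t := by
  unfold sn
  have h1 : Finset.univ.filter (fun a => a ∉ Lg \ U) =
      Finset.univ.filter (fun a => a ∉ Lg) ∪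
        Finset.univ.filter (fun a => a ∉ Finset.univ \ U) := by
    ext a
    simp only [Finset.mem_filter, Finset.mem_univ, true_and, Finset.mem_sdiff, Finset.mem_union]
    tauto
  have h2 : Disjoint (Finset.univ.filter (fun a => a ∉ Lg))
      (Finset.univ.filter (fun a => a ∉ Finset.univ \ U)) := by
    rw [Finset.disjoint_left]
    intro a ha hb
    simp only [Finset.mem_filter, Finset.mem_univ, true_and, Finset.mem_sdiff, not_not] at ha hb
    exact ha (hU hb)
  rw [h1, Finset.prod_union h2]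
  congr 1
  · apply Finset.prod_congr rfl
    intro a ha
    simp only [Finset.mem_filter, Finset.mem_univ, true_and] at ha
    have h3 : a ∉ U := fun h => ha (hU h)
    simp only [if_neg h3]
  · apply Finset.prod_congr rfl
    intro a ha
    simp only [Finset.mem_filter, Finset.mem_univ, true_and, Finset.mem_sdiff, not_not] at ha
    simp only [if_pos ha]

theorem blks_sn_le {K : Type} [Field K] [NumberField K] {J : Type} [Fintype J] (Lg : Finset J)
    (s : J → Finset (Pl K)) (T : ℝ) (hT : 1 ≤ T) (hs : ∀ a, a ∉ Lg → nr (s a) ≤ T) :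
    sn Lg s ≤ T ^ Fintype.card J := by
  unfold sn
  calc ∏ a ∈ Finset.univ.filter (fun a => a ∉ Lg), nr (s a)
      ≤ ∏ _a ∈ Finset.univ.filter (fun a => a ∉ Lg), T := by
        apply Finset.prod_le_prod
        · intro a _
          exact (akb_nr_pos (s a)).le
        · intro a ha
          exact hs a (by simpa using ha)
    _ = T ^ (Finset.univ.filter (fun a => a ∉ Lg)).card := by rw [Finset.prod_const]
    _ ≤ T ^ Fintype.card J := pow_le_pow_right₀ hT (Finset.card_le_univ _)

theorem blks_akbE {K : Type} [Field K] [NumberField K] {J : Type} [Fintype J]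
    (E : Finset (Pl K)) (Lg : Finset J)
    (s : J → Finset (Pl K)) (T : ℝ) (hT : 1 ≤ T) (hs : ∀ a, a ∉ Lg → nr (s a) ≤ T) :
    nr (akbE E Lg s) ≤ nr E * T ^ Fintype.card J := by
  unfold akbE
  refine (akb_nr_union _ _).trans ?_
  apply mul_le_mul_of_nonneg_left _ (akb_nr_pos E).le
  refine (akb_nr_biUnion _ s T hT (fun l hl => hs l (by simpa using hl))).trans ?_
  exact pow_le_pow_right₀ hT (Finset.card_le_univ _)

theorem blks {K : Type} [Field K] [NumberField K] {p : ℕ} {ζ : K} [NeZero p] (hp : p.Prime)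
    (hζ : IsPrimitiveRoot ζ p) (D : RD K p ζ) {m : ℕ} {J : Type} [Fintype J] (P : PD p m J)
    (M : ℕ) (u η : ℝ) (hu : 0 ≤ u) (hu1 : u ≤ 1) (hη : 0 < η) :
    ∃ C : ℝ, 0 < C ∧ ∀ (X : Finset J) (b : Fin m → Kˣ) (E : Finset (Pl K)) (c₂ : Fin M → Kˣ),
      BS2 D.toRD0 b E → BS2 D.toRD0 c₂ E → Ind p c₂ →
      ∀ (Lg : Finset J) (s : J → Finset (Pl K)) (Y T : ℝ), 9 ≤ Y → 1 ≤ T →
        T ^ Fintype.card J ≤ Y ^ (1 / 4 : ℝ) →
        (∀ l, l ∉ Lg → (∀ v ∈ s l, D.Gd v) ∧ nr (s l) ≤ T) →
        (∀ a ∈ Lg, ∀ a' ∈ Lg, P.lk a a' = 0) →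
        (∃ r ∈ Lg, r ∉ X ∧ P.x r = 0 ∧ P.θ r = 0) →
        (∃ a ∈ Lg, ∃ l, l ∉ Lg ∧ s l ≠ ∅ ∧ P.lk a l ≠ 0) →
          ‖TW D.toRD0 P b E (Wt D.toRD0 c₂ u X) Y T Lg s‖ ≤
            C * nr E ^ η * (T ^ Fintype.card J) ^ η * (1 + Real.log T) ^ Fintype.card J *
              (Y / sn Lg s) *
              Real.log Y ^ (∑ a' ∈ Lg, mw p M u (a' ∈ X) - u * ((p : ℝ) ^ M)⁻¹ / 2 - 1) := by
  obtain ⟨C₀, hC₀, h0⟩ := blks0 hp hζ D P M u η hu hu1 hη
  obtain ⟨C₁, hC₁, h1⟩ := blka hp hζ D P M u η hu hu1 hη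
  obtain ⟨C₂, hC₂, h2⟩ := thr_sum K J
  refine ⟨2 ^ Fintype.card J * (C₀ + C₁ * C₂), by positivity, ?_⟩
  intro X b E c₂ hb hc₂ hi Lg s Y T hY hT hTY hs hlk hr ha
  obtain ⟨r, hrL, hrX, hrx, hrθ⟩ := hr
  obtain ⟨a, haL, l, hlL, hsl, hal⟩ := ha
  have hY0 : (0 : ℝ) < Y := by linarith
  have hY1 : (1 : ℝ) ≤ Y := by linarith
  have hT0 : (0 : ℝ) < T := by linarith
  have hlog : 1 ≤ Real.log Y := by
    rw [Real.le_log_iff_exp_le hY0]
    linarith [Real.exp_one_lt_d9]
  have hcard : Fintype.card J ≠ 0 := by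
    have : Nonempty J := ⟨r⟩
    exact Fintype.card_ne_zero
  have hTle : T ≤ Y := by
    calc T ≤ T ^ Fintype.card J := le_self_pow₀ hT hcard
      _ ≤ Y ^ (1 / 4 : ℝ) := hTY
      _ ≤ Y ^ (1 : ℝ) := Real.rpow_le_rpow_of_exponent_le hY1 (by norm_num)
      _ = Y := Real.rpow_one Y
  have hY42 : Y ^ (1 / 4 : ℝ) ≤ Y ^ (1 / 2 : ℝ) :=
    Real.rpow_le_rpow_of_exponent_le hY1 (by norm_num)
  have hE0 : 0 < nr E := akb_nr_pos E
  have hsn0 : 0 < sn Lg s := aks_sn_pos Lg s
  have hlogT : 0 ≤ Real.log T := Real.log_nonneg hT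
  have hTJ : 1 ≤ T ^ Fintype.card J := one_le_pow₀ hT
  have hTη : 1 ≤ (T ^ Fintype.card J) ^ η := Real.one_le_rpow hTJ hη.le
  have hLT : 1 ≤ (1 + Real.log T) ^ Fintype.card J := one_le_pow₀ (by linarith)
  obtain ⟨γ, hγ⟩ : ∃ γ, γ = ∑ a' ∈ Lg, mw p M u (a' ∈ X) := ⟨_, rfl⟩
  obtain ⟨c, hc⟩ : ∃ c, c = u * ((p : ℝ) ^ M)⁻¹ := ⟨_, rfl⟩
  obtain ⟨Q, hQ⟩ : ∃ Q, Q = Real.log Y ^ (γ - c / 2 - 1) := ⟨_, rfl⟩
  have hQ0 : 0 < Q := by
    rw [hQ]
    exact Real.rpow_pos_of_pos (by linarith) _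
  have hc0 : 0 ≤ c := by
    rw [hc]
    positivity
  have hmw : ∀ x : Prop, c ≤ mw p M u x ∧ 0 ≤ mw p M u x ∧ mw p M u x ≤ 1 := by
    intro x
    rw [hc]
    exact mw_ge hp M hu hu1 x
  obtain ⟨R, hR⟩ : ∃ R, R = nr E ^ η * (T ^ Fintype.card J) ^ η *
      (1 + Real.log T) ^ Fintype.card J * (Y / sn Lg s) * Q := ⟨_, rfl⟩
  have hR0 : 0 ≤ R := by
    rw [hR]
    positivity
  have goal1 : ‖TW D.toRD0 P b E (Wt D.toRD0 c₂ u X) Y T Lg s‖ ≤
      2 ^ Fintype.card J * (C₀ + C₁ * C₂) * R := by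
    rw [exc D.toRD0 P b E (Wt D.toRD0 c₂ u X) Y T hTle Lg s]
    have key : ∀ U ∈ Lg.powerset, ‖(-1 : ℂ) ^ U.card *
        ∑ t ∈ Fintype.piFinset (fun a => if a ∈ U then GF D.toRD0 T else {∅}),
          TW D.toRD0 P b E (Wt D.toRD0 c₂ u X) Y 0 (Lg \ U)
            (fun a => if a ∈ U then t a else s a)‖ ≤ (C₀ + C₁ * C₂) * R := by
      intro U hU
      have hUL : U ⊆ Lg := Finset.mem_powerset.mp hU
      have hn : ‖(-1 : ℂ) ^ U.card‖ = 1 := by
        rw [norm_pow, norm_neg, norm_one, one_pow]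
      rw [norm_mul, hn, one_mul]
      by_cases hU0 : U = ∅
      · subst hU0
        have e1 : Fintype.piFinset (fun a : J => if a ∈ (∅ : Finset J) then GF D.toRD0 T
            else {∅}) = {fun _ => (∅ : Finset (Pl K))} := by
          ext t
          simp only [Fintype.mem_piFinset, Finset.notMem_empty, if_false,
            Finset.mem_singleton]
          constructor
          · intro h
            funext a
            exact h a
          · intro h a
            rw [h]
        rw [e1, Finset.sum_singleton]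
        have e2 : (fun a => if a ∈ (∅ : Finset J) then (∅ : Finset (Pl K)) else s a) = s := by
          funext a
          simp
        have e3 : Lg \ (∅ : Finset J) = Lg := Finset.sdiff_empty
        rw [e3, e2]
        have h3 := h0 X b E c₂ hb hc₂ hi Lg s Y hY
          (((blks_sn_le Lg s T hT fun a h => (hs a h).2).trans hTY).trans hY42)
          (fun l h => (hs l h).1) hlk r hrL hrX hrx hrθ a haL l hlL hsl hal
        refine h3.trans ?_
        rw [← hγ]
        have h4 : nr (akbE E Lg s) ^ η ≤ nr E ^ η * (T ^ Fintype.card J) ^ η := by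
          rw [← Real.mul_rpow hE0.le (by positivity)]
          exact Real.rpow_le_rpow (akb_nr_pos _).le
            (blks_akbE E Lg s T hT fun a h => (hs a h).2) hη.le
        have h5 : Real.log Y ^ (γ - mw p M u (a ∈ X) / 2 - 1) ≤ Q := by
          rw [hQ]
          apply Real.rpow_le_rpow_of_exponent_le hlog
          linarith [(hmw (a ∈ X)).1]
        have h6 : C₀ * nr (akbE E Lg s) ^ η * (Y / sn Lg s) *
            Real.log Y ^ (γ - mw p M u (a ∈ X) / 2 - 1) ≤
            C₀ * (nr E ^ η * (T ^ Fintype.card J) ^ η) * (Y / sn Lg s) * Q := by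
          apply mul_le_mul _ h5 (Real.rpow_nonneg (by linarith) _) (by positivity)
          apply mul_le_mul_of_nonneg_right _ (by positivity)
          exact mul_le_mul_of_nonneg_left h4 hC₀.le
        refine h6.trans ?_
        have h7 : C₀ * (nr E ^ η * (T ^ Fintype.card J) ^ η) * (Y / sn Lg s) * Q ≤ C₀ * R := by
          have h8 : (nr E ^ η * (T ^ Fintype.card J) ^ η) * (Y / sn Lg s) * Q ≤
              (nr E ^ η * (T ^ Fintype.card J) ^ η) * (Y / sn Lg s) * Q *
                (1 + Real.log T) ^ Fintype.card J :=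
            le_mul_of_one_le_right (by positivity) hLT
          calc C₀ * (nr E ^ η * (T ^ Fintype.card J) ^ η) * (Y / sn Lg s) * Q
              = C₀ * ((nr E ^ η * (T ^ Fintype.card J) ^ η) * (Y / sn Lg s) * Q) := by ring
            _ ≤ C₀ * ((nr E ^ η * (T ^ Fintype.card J) ^ η) * (Y / sn Lg s) * Q *
                (1 + Real.log T) ^ Fintype.card J) := mul_le_mul_of_nonneg_left h8 hC₀.le
            _ = C₀ * R := by rw [hR]; ring
        refine h7.trans ?_
        apply mul_le_mul_of_nonneg_right _ hR0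
        have : 0 ≤ C₁ * C₂ := by positivity
        linarith
      · obtain ⟨a₀, ha₀⟩ := Finset.nonempty_iff_ne_empty.mpr hU0
        have hexp : ∑ a' ∈ Lg \ U, mw p M u (a' ∈ X) ≤ γ - c := by
          have h3 : ∑ a' ∈ Lg \ U, mw p M u (a' ∈ X) + ∑ a' ∈ U, mw p M u (a' ∈ X) = γ := by
            rw [hγ]
            exact Finset.sum_sdiff hUL
          have h4 : mw p M u (a₀ ∈ X) ≤ ∑ a' ∈ U, mw p M u (a' ∈ X) :=
            Finset.single_le_sum (f := fun a' => mw p M u (a' ∈ X))
              (fun a' _ => (hmw (a' ∈ X)).2.1) ha₀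
          linarith [(hmw (a₀ ∈ X)).1]
        have h5 : Real.log Y ^ (∑ a' ∈ Lg \ U, mw p M u (a' ∈ X) - 1) ≤ Q := by
          rw [hQ]
          apply Real.rpow_le_rpow_of_exponent_le hlog
          linarith
        have hset : Fintype.piFinset (fun a => if a ∈ U then GF D.toRD0 T else {∅}) =
            Fintype.piFinset (fun a => if a ∈ Finset.univ \ U then {∅} else GF D.toRD0 T) := by
          congr 1
          funext a
          by_cases h : a ∈ U
          · rw [if_pos h, if_neg (by simp [h])]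
          · rw [if_neg h, if_pos (by simp [h])]
        have hterm : ∀ t ∈ Fintype.piFinset (fun a => if a ∈ U then GF D.toRD0 T else {∅}),
            ‖TW D.toRD0 P b E (Wt D.toRD0 c₂ u X) Y 0 (Lg \ U)
              (fun a => if a ∈ U then t a else s a)‖ ≤
            C₁ * nr E ^ η * (Y / sn Lg s) * Q * (sn (Finset.univ \ U) t)⁻¹ := by
          intro t ht
          rw [Fintype.mem_piFinset] at ht
          have hsn' : ∀ a', a' ∉ Lg \ U → nr (if a' ∈ U then t a' else s a') ≤ T := by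
            intro a' ha'
            by_cases h : a' ∈ U
            · rw [if_pos h]
              have := ht a'
              rw [if_pos h] at this
              exact (rx_mem_GF.mp this).1
            · rw [if_neg h]
              apply (hs a' _).2
              intro h'
              exact ha' (Finset.mem_sdiff.mpr ⟨h', h⟩)
          have h3 := h1 X b E c₂ hc₂ hi (Lg \ U) (fun a => if a ∈ U then t a else s a) Y 0 hY
            (((blks_sn_le (Lg \ U) _ T hT hsn').trans hTY).trans hY42)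
          refine h3.trans ?_
          rw [blks_sn Lg U hUL s t]
          have hst : 0 < sn (Finset.univ \ U) t := aks_sn_pos _ _
          have e1 : C₁ * nr E ^ η * (Y / sn Lg s) * Q * (sn (Finset.univ \ U) t)⁻¹ =
              C₁ * nr E ^ η * (Y / (sn Lg s * sn (Finset.univ \ U) t)) * Q := by
            field_simp
          rw [e1]
          exact mul_le_mul_of_nonneg_left h5 (by positivity)
        have hsum := h2 p ζ D.toRD0 T (Finset.univ \ U) hT
        calc ‖∑ t ∈ Fintype.piFinset (fun a => if a ∈ U then GF D.toRD0 T else {∅}),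
              TW D.toRD0 P b E (Wt D.toRD0 c₂ u X) Y 0 (Lg \ U)
                (fun a => if a ∈ U then t a else s a)‖
            ≤ ∑ t ∈ Fintype.piFinset (fun a => if a ∈ U then GF D.toRD0 T else {∅}),
              ‖TW D.toRD0 P b E (Wt D.toRD0 c₂ u X) Y 0 (Lg \ U)
                (fun a => if a ∈ U then t a else s a)‖ := norm_sum_le _ _
          _ ≤ ∑ t ∈ Fintype.piFinset (fun a => if a ∈ U then GF D.toRD0 T else {∅}),
              C₁ * nr E ^ η * (Y / sn Lg s) * Q * (sn (Finset.univ \ U) t)⁻¹ :=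
              Finset.sum_le_sum hterm
          _ = C₁ * nr E ^ η * (Y / sn Lg s) * Q *
              ∑ t ∈ Fintype.piFinset
                (fun a => if a ∈ Finset.univ \ U then {∅} else GF D.toRD0 T),
                (sn (Finset.univ \ U) t)⁻¹ := by
              rw [← Finset.mul_sum, hset]
          _ ≤ C₁ * nr E ^ η * (Y / sn Lg s) * Q *
              (C₂ * (1 + Real.log T) ^ Fintype.card J) :=
              mul_le_mul_of_nonneg_left hsum (by positivity)
          _ = C₁ * C₂ * (nr E ^ η * (1 + Real.log T) ^ Fintype.card J * (Y / sn Lg s) * Q) := by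
              ring
          _ ≤ C₁ * C₂ * R := by
              apply mul_le_mul_of_nonneg_left _ (by positivity)
              have h8 : nr E ^ η * (1 + Real.log T) ^ Fintype.card J * (Y / sn Lg s) * Q ≤
                  nr E ^ η * (1 + Real.log T) ^ Fintype.card J * (Y / sn Lg s) * Q *
                    (T ^ Fintype.card J) ^ η := le_mul_of_one_le_right (by positivity) hTη
              refine h8.trans (le_of_eq ?_)
              rw [hR]
              ring
          _ ≤ (C₀ + C₁ * C₂) * R := by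
              apply mul_le_mul_of_nonneg_right _ hR0
              linarith
    refine (norm_sum_le_of_le _ key).trans ?_
    rw [Finset.sum_const, Finset.card_powerset, nsmul_eq_mul]
    have h9 : ((2 ^ Lg.card : ℕ) : ℝ) ≤ 2 ^ Fintype.card J := by
      push_cast
      exact pow_le_pow_right₀ (by norm_num) (Finset.card_le_univ _)
    calc ((2 ^ Lg.card : ℕ) : ℝ) * ((C₀ + C₁ * C₂) * R)
        ≤ 2 ^ Fintype.card J * ((C₀ + C₁ * C₂) * R) :=
          mul_le_mul_of_nonneg_right h9 (by positivity)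
      _ = _ := by ring
  refine goal1.trans (le_of_eq ?_)
  rw [hR, hQ, hγ, hc]
  ring

end H77.AB
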