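import Pool.Agent.H77.AB.WDef

/-!
# [H77 AB EXC] removing the size conditions by inclusion-exclusion, 80-140 lines

Proof. For `g` in the sum of `TW`: `∏_{a ∈ Lg} [T < nr (g a)] = ∏_{a ∈ Lg} (1 - [nr (g a) ≤ T]) = ∑_{U ⊆ Lg} (-1)^{#U} ∏_{a ∈ U} [nr (g a) ≤ T]` (`Finset.prod_sub`/`Finset.prod_one_sub`, or `Finset.prod_add` with `-[..]`). For fixed `U` the `g ∈ piFinset (if a ∈ Lg then GF Y else {s a})` with `nr (g a) ≤ T` for `a ∈ U` (then `g a ∈ GF T`: `rx_mem_GF`; conversely `GF T ⊆ GF Y` as `T ≤ Y`) are sorted by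
`t a = g a` for `a ∈ U`, `t a = ∅` for `a ∉ U`: they are the `g ∈ piFinset (if a ∈ Lg \ U then GF Y else {if a ∈ U then t a else s a})`. The condition `0 < nr (g a)` in `TW … Y 0 (Lg \ U) …` always holds (`one_le_nr`); the other conditions and the terms are the same.
-/

set_option autoImplicit false

open scoped NumberField
open IsDedekindDomain
open scoped Classical

noncomputable section

namespace H77.AB

open H63.MA H38.BB

private theorem exc_prod {J : Type} (Lg : Finset J) (x : J → ℂ) :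
    ∏ a ∈ Lg, (1 - x a) = ∑ U ∈ Lg.powerset, (-1) ^ U.card * ∏ a ∈ U, x a := by
  have h1 : ∀ a ∈ Lg, 1 - x a = -x a + 1 := fun a _ => by ring
  rw [Finset.prod_congr rfl h1, Finset.prod_add]
  refine Finset.sum_congr rfl fun U _ => ?_
  rw [Finset.prod_const_one, mul_one, Finset.prod_neg]

theorem exc {K : Type} [Field K] [NumberField K] {p : ℕ} {ζ : K} {m : ℕ} {J : Type} [Fintype J]
    (D : RD0 K p ζ) (P : PD p m J) (b : Fin m → Kˣ) (E : Finset (Pl K))
    (W : J → Finset (Pl K) → ℂ) (Y T : ℝ) (hT : T ≤ Y) (Lg : Finset J)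
    (s : J → Finset (Pl K)) :
    TW D P b E W Y T Lg s =
      ∑ U ∈ Lg.powerset, (-1) ^ U.card *
        ∑ t ∈ Fintype.piFinset (fun a => if a ∈ U then GF D T else {∅}),
          TW D P b E W Y 0 (Lg \ U) (fun a => if a ∈ U then t a else s a) := by
  obtain ⟨F, hF⟩ : ∃ F : (J → Finset (Pl K)) → ℂ, F = fun g =>
    if Dj g ∧ (∀ a, Disjoint (g a) E) ∧ ∏ a, nr (g a) ≤ Y then
      (∏ a, W a (g a)) * ep p (ph D P b g) else 0 := ⟨_, rfl⟩
  have hFg : ∀ g, F g = if Dj g ∧ (∀ a, Disjoint (g a) E) ∧ ∏ a, nr (g a) ≤ Y then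
      (∏ a, W a (g a)) * ep p (ph D P b g) else 0 := fun g => by rw [hF]
  have hx : ∀ n : Finset (Pl K), ((if T < nr n then 1 else 0 : ℂ)) =
      1 - (if nr n ≤ T then 1 else 0 : ℂ) := by
    intro n
    by_cases h : T < nr n
    · rw [if_pos h, if_neg (not_le.mpr h), sub_zero]
    · rw [if_neg h, if_pos (not_lt.mp h), sub_self]
  have h1 : TW D P b E W Y T Lg s =
      ∑ g ∈ Fintype.piFinset (fun a => if a ∈ Lg then GF D Y else {s a}),
        (∏ a ∈ Lg, (1 - (if nr (g a) ≤ T then 1 else 0 : ℂ))) * F g := by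
    unfold TW
    refine Finset.sum_congr rfl fun g _ => ?_
    have h2 : ∏ a ∈ Lg, (1 - (if nr (g a) ≤ T then 1 else 0 : ℂ)) =
        if ∀ a ∈ Lg, T < nr (g a) then 1 else 0 := by
      rw [Finset.prod_congr rfl fun a _ => (hx (g a)).symm]
      by_cases h : ∀ a ∈ Lg, T < nr (g a)
      · rw [if_pos h]
        refine Finset.prod_eq_one fun a ha => if_pos (h a ha)
      · rw [if_neg h]
        push Not at h
        obtain ⟨a, ha, hn⟩ := h
        exact Finset.prod_eq_zero ha (if_neg (not_lt.mpr hn))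
    rw [h2, hFg g]
    by_cases h : ∀ a ∈ Lg, T < nr (g a)
    · rw [if_pos h, one_mul]
      by_cases h3 : Dj g ∧ (∀ a, Disjoint (g a) E) ∧ ∏ a, nr (g a) ≤ Y
      · rw [if_pos h3, if_pos ⟨h3.1, h3.2.1, h, h3.2.2⟩]
      · rw [if_neg h3, if_neg fun h4 => h3 ⟨h4.1, h4.2.1, h4.2.2.2⟩]
    · rw [if_neg h, zero_mul, if_neg fun h4 => h h4.2.2.1]
  have h0 : ∀ (U : Finset J) (s' : J → Finset (Pl K)), TW D P b E W Y 0 (Lg \ U) s' =
      ∑ g ∈ Fintype.piFinset (fun a => if a ∈ Lg \ U then GF D Y else {s' a}), F g := by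
    intro U s'
    unfold TW
    refine Finset.sum_congr rfl fun g _ => ?_
    rw [hFg g]
    by_cases h3 : Dj g ∧ (∀ a, Disjoint (g a) E) ∧ ∏ a, nr (g a) ≤ Y
    · rw [if_pos h3, if_pos ⟨h3.1, h3.2.1, fun a _ => lt_of_lt_of_le one_pos (one_le_nr _),
        h3.2.2⟩]
    · rw [if_neg h3, if_neg fun h4 => h3 ⟨h4.1, h4.2.1, h4.2.2.2⟩]
  rw [h1]
  simp only [h0, exc_prod, Finset.sum_mul]
  rw [Finset.sum_comm]
  refine Finset.sum_congr rfl fun U hU => ?_
  rw [Finset.mem_powerset] at hU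
  simp only [mul_assoc]
  rw [← Finset.mul_sum]
  congr 1
  have h5 : ∀ g : J → Finset (Pl K), ∏ a ∈ U, (if nr (g a) ≤ T then 1 else 0 : ℂ) =
      if ∀ a ∈ U, nr (g a) ≤ T then 1 else 0 := by
    intro g
    by_cases h : ∀ a ∈ U, nr (g a) ≤ T
    · rw [if_pos h]
      exact Finset.prod_eq_one fun a ha => if_pos (h a ha)
    · rw [if_neg h]
      push Not at h
      obtain ⟨a, ha, hn⟩ := h
      exact Finset.prod_eq_zero ha (if_neg (not_le.mpr hn))
  simp only [h5, ite_mul, one_mul, zero_mul]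
  rw [← Finset.sum_filter]
  have hmap : ∀ g ∈ (Fintype.piFinset (fun a => if a ∈ Lg then GF D Y else {s a})).filter
      (fun g => ∀ a ∈ U, nr (g a) ≤ T), (fun a => if a ∈ U then g a else ∅) ∈
      Fintype.piFinset (fun a => if a ∈ U then GF D T else {∅}) := by
    intro g hg
    rw [Finset.mem_filter, Fintype.mem_piFinset] at hg
    rw [Fintype.mem_piFinset]
    intro a
    by_cases ha : a ∈ U
    · simp only [if_pos ha]
      have h6 := hg.1 a
      rw [if_pos (hU ha), rx_mem_GF] at h6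
      rw [rx_mem_GF]
      exact ⟨hg.2 a ha, h6.2⟩
    · simp only [if_neg ha]
      exact Finset.mem_singleton_self _
  rw [← Finset.sum_fiberwise_of_maps_to hmap]
  refine Finset.sum_congr rfl fun t ht => Finset.sum_congr ?_ fun _ _ => rfl
  rw [Fintype.mem_piFinset] at ht
  ext g
  rw [Finset.mem_filter, Finset.mem_filter, Fintype.mem_piFinset, Fintype.mem_piFinset]
  constructor
  · rintro ⟨⟨h6, h7⟩, h8⟩ a
    have h9 := h6 a
    by_cases ha : a ∈ U
    · have h10 : a ∉ Lg \ U := fun h => (Finset.mem_sdiff.mp h).2 ha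
      rw [if_neg h10, if_pos ha, Finset.mem_singleton]
      have := congrFun h8 a
      simp only [if_pos ha] at this
      exact this
    · by_cases hl : a ∈ Lg
      · rw [if_pos (Finset.mem_sdiff.mpr ⟨hl, ha⟩)]
        rw [if_pos hl] at h9
        exact h9
      · have h10 : a ∉ Lg \ U := fun h => hl (Finset.mem_sdiff.mp h).1
        rw [if_neg h10, if_neg ha]
        rw [if_neg hl] at h9
        exact h9
  · intro h6
    have key : ∀ a ∈ U, g a = t a := by
      intro a ha
      have h7 := h6 a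
      have h10 : a ∉ Lg \ U := fun h => (Finset.mem_sdiff.mp h).2 ha
      rw [if_neg h10, if_pos ha, Finset.mem_singleton] at h7
      exact h7
    have key2 : ∀ a ∈ U, t a ∈ GF D T := by
      intro a ha
      have := ht a
      rw [if_pos ha] at this
      exact this
    refine ⟨⟨fun a => ?_, fun a ha => ?_⟩, ?_⟩
    · have h7 := h6 a
      by_cases ha : a ∈ U
      · rw [if_pos (hU ha), key a ha]
        have h8 := rx_mem_GF.mp (key2 a ha)
        rw [rx_mem_GF]
        exact ⟨h8.1.trans hT, h8.2⟩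
      · by_cases hl : a ∈ Lg
        · rw [if_pos hl]
          rw [if_pos (Finset.mem_sdiff.mpr ⟨hl, ha⟩)] at h7
          exact h7
        · have h10 : a ∉ Lg \ U := fun h => hl (Finset.mem_sdiff.mp h).1
          rw [if_neg h10, if_neg ha] at h7
          rw [if_neg hl]
          exact h7
    · rw [key a ha]
      exact (rx_mem_GF.mp (key2 a ha)).1
    · funext a
      by_cases ha : a ∈ U
      · simp only [if_pos ha]
        exact key a ha
      · simp only [if_neg ha]
        have := ht a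
        rw [if_neg ha, Finset.mem_singleton] at this
        exact this.symm

end H77.AB
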