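import Pool.Agent.H77.AB.GWb

/-!
# [H77 AB GCA] counting the classes outside ker χ, 120-180 lines (finite group theory)

`g : Fin N₀ → G` are representatives of the classes of the elements `h ≠ 1` with `h^p = 1`. `isx = {i : χ (g i) ≠ 1}`. `τ : G → F_p^d` with `τ s = 1`, `τ (j w) = 1` for `w ∈ W`.

Proof. Elements `h` with `h^p = 1`, `χ h = ofAdd j`, `j ≠ 0`: `h = j a s^k` (`ax.tor`), `k ≡ j` modulo `p` (`χ (s^k) = ofAdd k`, `χ (j a) = 1`), so we may take `k = j.val` (`s^p = 1`), `¬ p ∣ k`, and `h^p = j (N a) = 1` iff `N a = 1` (`gwb_pow`, `jinj`): for each `j ≠ 0`, `a ↦ j a * s^{j.val}` is a bijection from `ker N` to the set of these elements, `τ h = τ (j a)`. Each class is `j(W) h` (`gwb_cls`), it has `#W` elements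
and `χ`, `τ` are constant on it. The classes of these elements are the `i ∈ isx` with `a i = j`. So:
* `#{i ∈ isx : a i = j, t i = b} * #W = #{a ∈ ker N : τ (j a) = b}` for `j ≠ 0` (the set of the elements is the disjoint union of the classes), which is `0` or `#{a ∈ ker N : τ (j a) = 1}` (a coset of the kernel of `τ ∘ j` on `ker N`).
* `W ≤ {a ∈ ker N : τ (j a) = 1}` (`gwb_N`), so `#{a ∈ ker N : τ (j a) = 1} = h₀ * #W` (Lagrange).
* for `j = 0` there is no `i ∈ isx` with `a i = 0` (`a i = toAdd (χ (g i))`).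
* summing over `j ≠ 0` (`p - 1` values) and all `b`: `#isx * #W = (p - 1) * #ker N`.
-/

set_option autoImplicit false

open scoped Classical

noncomputable section

namespace H77.AB

open H38.TD

theorem gca_chis {A G : Type} [CommGroup A] [Group G] {p : ℕ} (ax : AX p A G) (k : ℕ) :
    ax.χ (ax.s ^ k) = Multiplicative.ofAdd (k : ZMod p) := by
  rw [map_pow, ax.χs, ← ofAdd_nsmul, nsmul_eq_mul, mul_one]

theorem gca_conj {H V : Type} [Group H] [CommGroup V] (f : H →* V) {x y : H} (h : IsConj x y) :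
    f x = f y := by
  obtain ⟨c, hc⟩ := isConj_iff.1 h
  rw [← hc, map_mul, map_mul, map_inv, mul_comm (f c), mul_assoc, mul_inv_cancel, mul_one]

theorem gca_chi {A G : Type} [CommGroup A] [Group G] {p : ℕ} (ax : AX p A G) (a : A) (k : ℕ) :
    Multiplicative.toAdd (ax.χ (ax.j a * ax.s ^ k)) = (k : ZMod p) := by
  rw [map_mul, ax.χj, one_mul, gca_chis, toAdd_ofAdd]

theorem gca_rep {A G : Type} [CommGroup A] [Group G] {p : ℕ} [NeZero p] (ax : AX p A G) (h : G)
    (hh : h ^ p = 1) : ∃ a : A, h = ax.j a * ax.s ^ (Multiplicative.toAdd (ax.χ h)).val := by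
  obtain ⟨a, k, hak⟩ := ax.tor h hh
  refine ⟨a, ?_⟩
  have h1 : (Multiplicative.toAdd (ax.χ h)).val = k % p := by
    rw [hak, gca_chi, ZMod.val_natCast]
  rw [h1]
  have h2 : ax.s ^ k = ax.s ^ (k % p) := by
    conv_lhs => rw [← Nat.div_add_mod k p, pow_add, pow_mul, ax.sp, one_pow, one_mul]
  rw [← h2]
  exact hak

theorem gca_ndvd {p : ℕ} [NeZero p] {j : ZMod p} (hj : j ≠ 0) : ¬ p ∣ j.val := by
  have h1 : 0 < j.val := Nat.pos_of_ne_zero fun h => hj ((ZMod.val_eq_zero j).1 h)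
  exact Nat.not_dvd_of_pos_of_lt h1 (ZMod.val_lt j)

theorem gca {A G : Type} [CommGroup A] [Finite A] [Group G] [Finite G] {p : ℕ} (hp : p.Prime)
    [NeZero p] (hA : IsPGroup p A) (ax : AX p A G) {N₀ d : ℕ} (g : Fin N₀ → G)
    (pow : ∀ i, g i ^ p = 1) (ne : ∀ i, g i ≠ 1) (uni : ∀ i j, IsConj (g i) (g j) → i = j)
    (all : ∀ h : G, h ≠ 1 → h ^ p = 1 → ∃ i, IsConj h (g i))
    (τ : G →* Multiplicative (Fin d → ZMod p)) (hs : τ ax.s = 1)
    (hw : ∀ w ∈ ax.W, τ (ax.j w) = 1) :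
    ∃ h₀ : ℕ, h₀ * Nat.card ax.W = Nat.card {a : A // nh ax.θ p a = 1 ∧ τ (ax.j a) = 1} ∧
      (∀ (j : ZMod p) (b : Fin d → ZMod p),
        (Finset.univ.filter fun i : Fin N₀ => ax.χ (g i) ≠ 1 ∧
          Multiplicative.toAdd (ax.χ (g i)) = j ∧ Multiplicative.toAdd (τ (g i)) = b).card ≤ h₀) ∧
      (Finset.univ.filter fun i : Fin N₀ => ax.χ (g i) ≠ 1).card * Nat.card ax.W =
        (p - 1) * Nat.card (nh ax.θ p).ker := by
  -- representatives
  choose a ha using fun i => gca_rep ax (g i) (pow i)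
  have hχne : ∀ i, ax.χ (g i) ≠ 1 → Multiplicative.toAdd (ax.χ (g i)) ≠ 0 := by
    intro i h h0
    exact h h0
  have hN : ∀ i, ax.χ (g i) ≠ 1 → nh ax.θ p (a i) = 1 := by
    intro i hi
    have h1 := gwb_pow hp ax (a i) _ (gca_ndvd (hχne i hi))
    rw [← ha i, pow i] at h1
    apply ax.jinj
    rw [← h1, map_one]
  have hτ : ∀ i, τ (g i) = τ (ax.j (a i)) := by
    intro i
    have h1 := congrArg τ (ha i)
    rw [map_mul, map_pow, hs, one_pow, mul_one] at h1
    exact h1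
  -- the classes
  have hcls : ∀ i, ax.χ (g i) ≠ 1 → ∀ (b : A),
      IsConj (g i) (ax.j b * ax.s ^ (Multiplicative.toAdd (ax.χ (g i))).val) ↔
        ∃ w ∈ ax.W, b = w * a i := by
    intro i hi b
    have h1 := gwb_cls hp hA ax (a i) _ (gca_ndvd (hχne i hi))
      (ax.j b * ax.s ^ (Multiplicative.toAdd (ax.χ (g i))).val)
    rw [← ha i] at h1
    rw [h1]
    constructor
    · rintro ⟨w, hw, h2⟩
      refine ⟨w, hw, ?_⟩
      have h3 := ha i
      have h4 : ax.j b * ax.s ^ (Multiplicative.toAdd (ax.χ (g i))).val =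
          ax.j (w * a i) * ax.s ^ (Multiplicative.toAdd (ax.χ (g i))).val := by
        rw [h2, map_mul, mul_assoc, ← h3]
      exact ax.jinj (mul_right_cancel h4)
    · rintro ⟨w, hw, rfl⟩
      refine ⟨w, hw, ?_⟩
      rw [map_mul, mul_assoc, ← ha i]
  have hinj : ∀ i i', ax.χ (g i) ≠ 1 → Multiplicative.toAdd (ax.χ (g i)) =
      Multiplicative.toAdd (ax.χ (g i')) → ∀ w ∈ ax.W, ∀ w' ∈ ax.W, a i * w = a i' * w' →
        i = i' ∧ w = w' := by
    intro i i' hi hii w hw w' hw' h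
    have h1 : i = i' := by
      apply uni
      have h2 : g i' = ax.j (a i') * ax.s ^ (Multiplicative.toAdd (ax.χ (g i))).val := by
        rw [hii]
        exact ha i'
      rw [h2, hcls i hi]
      refine ⟨w * w'⁻¹, ax.W.mul_mem hw (ax.W.inv_mem hw'), ?_⟩
      have h3 : a i' = a i * w * w'⁻¹ := by rw [h, mul_inv_cancel_right]
      rw [h3]
      rw [mul_comm (a i) w, mul_assoc, mul_comm (a i), mul_assoc]
    refine ⟨h1, ?_⟩
    rw [h1] at h
    exact mul_left_cancel h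
  -- the kernel
  obtain ⟨K₀, hK₀⟩ : ∃ K₀ : Subgroup A, K₀ = (nh ax.θ p).ker ⊓ (τ.comp ax.j).ker := ⟨_, rfl⟩
  have hmK : ∀ x, x ∈ K₀ ↔ nh ax.θ p x = 1 ∧ τ (ax.j x) = 1 := by
    intro x
    rw [hK₀, Subgroup.mem_inf, MonoidHom.mem_ker, MonoidHom.mem_ker, MonoidHom.comp_apply]
  have hWK : ax.W ≤ K₀ := by
    intro w h
    rw [hmK]
    exact ⟨gwb_N ax h, hw w h⟩
  have hWpos : 0 < Nat.card ax.W := Nat.card_pos
  obtain ⟨h₀, hh₀⟩ := Subgroup.card_dvd_of_le hWK
  have hcK : Nat.card {x : A // nh ax.θ p x = 1 ∧ τ (ax.j x) = 1} = Nat.card K₀ :=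
    Nat.card_congr (Equiv.subtypeEquivRight fun x => (hmK x).symm)
  refine ⟨h₀, by rw [hcK, hh₀, mul_comm], fun j b => ?_, ?_⟩
  · by_cases hj : j = 0
    · have h1 : (Finset.univ.filter fun i : Fin N₀ => ax.χ (g i) ≠ 1 ∧
          Multiplicative.toAdd (ax.χ (g i)) = j ∧ Multiplicative.toAdd (τ (g i)) = b) = ∅ := by
        rw [Finset.filter_eq_empty_iff]
        rintro i - ⟨h2, h3, -⟩
        rw [hj] at h3
        exact hχne i h2 h3
      rw [h1, Finset.card_empty]
      exact Nat.zero_le _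
    · refine Nat.le_of_mul_le_mul_right ?_ hWpos
      rw [mul_comm h₀, ← hh₀]
      obtain ⟨S, hS⟩ : ∃ S : Finset (Fin N₀), S = Finset.univ.filter fun i : Fin N₀ =>
          ax.χ (g i) ≠ 1 ∧ Multiplicative.toAdd (ax.χ (g i)) = j ∧
            Multiplicative.toAdd (τ (g i)) = b := ⟨_, rfl⟩
      rw [← hS]
      have hmS : ∀ i, i ∈ S ↔ ax.χ (g i) ≠ 1 ∧ Multiplicative.toAdd (ax.χ (g i)) = j ∧
            Multiplicative.toAdd (τ (g i)) = b := by
        intro i
        rw [hS, Finset.mem_filter]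
        exact ⟨fun h => h.2, fun h => ⟨Finset.mem_univ _, h⟩⟩
      rcases S.eq_empty_or_nonempty with hE | ⟨i₀, hi₀⟩
      · rw [hE, Finset.card_empty, zero_mul]
        exact Nat.zero_le _
      · have h1 : S.card * Nat.card ax.W = Nat.card (S × ax.W) := by
          rw [Nat.card_prod, Nat.card_eq_fintype_card (α := S), Fintype.card_coe]
        rw [h1]
        have hval : ∀ q : S × ax.W, a q.1 * q.2 * (a i₀)⁻¹ ∈ K₀ := by
          rintro ⟨⟨i, hi⟩, ⟨w, hw'⟩⟩
          rw [hmK]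
          have e1 := (hmS i).1 hi
          have e2 := (hmS i₀).1 hi₀
          have e3 := (hmK w).1 (hWK hw')
          have e4 : τ (ax.j (a i)) = τ (ax.j (a i₀)) := by
            rw [← hτ, ← hτ]
            exact Multiplicative.toAdd.injective (e1.2.2.trans e2.2.2.symm)
          constructor
          · change nh ax.θ p (a i * w * (a i₀)⁻¹) = 1
            rw [map_mul, map_mul, map_inv, hN i e1.1, hN i₀ e2.1, e3.1]
            simp
          · change τ (ax.j (a i * w * (a i₀)⁻¹)) = 1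
            rw [map_mul, map_mul, map_inv, map_mul, map_mul, map_inv, e3.2, e4, mul_one,
              mul_inv_cancel]
        let F : S × ax.W → K₀ := fun q => ⟨a q.1 * q.2 * (a i₀)⁻¹, hval q⟩
        refine Nat.card_le_card_of_injective F ?_
        rintro ⟨⟨i, hi⟩, ⟨w, hw'⟩⟩ ⟨⟨i', hi'⟩, ⟨w', hw''⟩⟩ hq
        have e1 := (hmS i).1 hi
        have e2 := (hmS i').1 hi'
        have e3 : a i * w * (a i₀)⁻¹ = a i' * w' * (a i₀)⁻¹ := congrArg Subtype.val hq
        obtain ⟨e4, e5⟩ := hinj i i' e1.1 (e1.2.1.trans e2.2.1.symm) w hw' w' hw''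
          (mul_right_cancel e3)
        subst e4
        subst e5
        rfl
  · have h1 : (Finset.univ.filter fun i : Fin N₀ => ax.χ (g i) ≠ 1).card * Nat.card ax.W =
        Nat.card ({i : Fin N₀ // ax.χ (g i) ≠ 1} × ax.W) := by
      rw [Nat.card_prod, Nat.card_eq_fintype_card (α := {i : Fin N₀ // ax.χ (g i) ≠ 1}),
        Fintype.card_subtype]
    have h2 : (p - 1) * Nat.card (nh ax.θ p).ker =
        Nat.card ({j : ZMod p // j ≠ 0} × (nh ax.θ p).ker) := by
      rw [Nat.card_prod, Nat.card_eq_fintype_card (α := {j : ZMod p // j ≠ 0}),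
        Fintype.card_subtype, Finset.filter_ne', Finset.card_erase_of_mem (Finset.mem_univ _),
        Finset.card_univ, ZMod.card]
    rw [h1, h2]
    have hval : ∀ q : {i : Fin N₀ // ax.χ (g i) ≠ 1} × ax.W,
        a q.1 * q.2 ∈ (nh ax.θ p).ker := by
      rintro ⟨⟨i, hi⟩, ⟨w, hw'⟩⟩
      rw [MonoidHom.mem_ker]
      change nh ax.θ p (a i * w) = 1
      rw [map_mul, hN i hi, ((hmK w).1 (hWK hw')).1, one_mul]
    let F : {i : Fin N₀ // ax.χ (g i) ≠ 1} × ax.W → {j : ZMod p // j ≠ 0} × (nh ax.θ p).ker :=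
      fun q => (⟨Multiplicative.toAdd (ax.χ (g q.1)), hχne q.1 q.1.2⟩, ⟨a q.1 * q.2, hval q⟩)
    refine Nat.card_eq_of_bijective F ⟨?_, ?_⟩
    · rintro ⟨⟨i, hi⟩, ⟨w, hw'⟩⟩ ⟨⟨i', hi'⟩, ⟨w', hw''⟩⟩ hq
      have e1 : Multiplicative.toAdd (ax.χ (g i)) = Multiplicative.toAdd (ax.χ (g i')) :=
        congrArg Subtype.val (congrArg Prod.fst hq)
      have e2 : a i * w = a i' * w' := congrArg Subtype.val (congrArg Prod.snd hq)
      obtain ⟨e4, e5⟩ := hinj i i' hi e1 w hw' w' hw'' e2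
      subst e4
      subst e5
      rfl
    · rintro ⟨⟨j, hj⟩, ⟨b, hb⟩⟩
      have hb' : nh ax.θ p b = 1 := hb
      have e1 : (ax.j b * ax.s ^ j.val) ^ p = 1 := by
        rw [gwb_pow hp ax b j.val (gca_ndvd hj), hb', map_one]
      have e2 : Multiplicative.toAdd (ax.χ (ax.j b * ax.s ^ j.val)) = j := by
        rw [gca_chi, ZMod.natCast_zmod_val]
      have e3 : ax.j b * ax.s ^ j.val ≠ 1 := by
        intro h
        rw [h, map_one, toAdd_one] at e2
        exact hj e2.symm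
      obtain ⟨i, hi⟩ := all _ e3 e1
      have e4 : Multiplicative.toAdd (ax.χ (g i)) = j := by
        rw [← gca_conj ax.χ hi, e2]
      have e5 : ax.χ (g i) ≠ 1 := by
        intro h
        rw [h, toAdd_one] at e4
        exact hj e4.symm
      have e6 := (hcls i e5 b).1 (by
        rw [e4]
        exact hi.symm)
      obtain ⟨w, hw', e7⟩ := e6
      refine ⟨(⟨i, e5⟩, ⟨w, hw'⟩), ?_⟩
      refine Prod.ext (Subtype.ext e4) (Subtype.ext ?_)
      change a i * w = b
      rw [e7, mul_comm]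

end H77.AB
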