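import Pool.Agent.H77.AB.ADat

/-!
# [H77 AB GWB] basic facts on `AX`, 120-200 lines (finite group theory)

`ax : AX p A G`, `W = ax.W = {a : j a = [s, h], h ∈ ker χ}` (ADat), `N = nh θ p` (`∏_{k<p} θ^k a`, H38/TD/Defs), `A` a finite `p`-group.
* `gwb_tp`: `θ^p = 1`: `j (θ^p a) = s^p j(a) s^{-p} = j a`.
* `gwb_act`: `h j(a) h⁻¹ = j (θ^k a)`, `k = (χ h).val`: `h = s^k m` with `m = s^{-k} h`, `χ m = 1` (`χ s = ofAdd 1`, so `χ (s^k) = ofAdd k = χ h`), `m j(a) m⁻¹ = j a`, `s^k j(a) s^{-k} = j (θ^k a)`.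
* `gwb_J`: `θ a * a⁻¹ ∈ W`: `h = j a`. `gwb_th`: `θ w ∈ W` for `w ∈ W`: `s [s, h] s⁻¹ = [s, s h s⁻¹]`.
* `gwb_N`: `W ≤ ker N`: `j (N w) = ∏_{k<p} s^k [s, h] s^{-k}`, `s^k [s,h] s^{-k} = (s^{k+1} h s^{-k-1}) (s^k h s^{-k})⁻¹`, and the product in the order `k = p-1, …, 0` telescopes to `s^p h s^{-p} h⁻¹ = 1`; `A` is commutative, so the order is irrelevant (induction on the number of factors).
* `gwb_pow`: for `¬ p ∣ k`: `(j a * s^k)^p = j (N a)`: `(j a s^k)^p = j(∏_{i<p} θ^{ik} a) s^{kp}`, `s^{kp} = 1` and `ik` runs through all residues modulo `p` (as `grpa_pd_pow_p` in H38/TD/Grp1.lean, its proof can be copied: there `G` is generated by `j(A)` and `s`, which is not used for this formula).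
* `gwb_cls`: for `¬ p ∣ k`: the elements conjugate to `t = j a * s^k` are exactly the `j w * t`, `w ∈ W`. `⊆`: conjugation by `m ∈ ker χ`: `m t m⁻¹ = j a m s^k m⁻¹ = [m, s^k] t` (`[m, s^k] = m s^k m⁻¹ s^{-k} ∈ j(W)`: it is the inverse of `[s^k, m] = ∏_{i<k} s^i [s,m] s^{-i}` (suitable order), a product of elements of `j(W)`, `gwb_th`; it commutes with `j a`);
  conjugation by `s`: `s t s⁻¹ = j (θ a) s^k = j (θ a * a⁻¹) t`. Every element of `G` is `s^i m`; and conjugation maps `j(W) t` to `j(W) t` (`W` is stable under `θ` and centralised by `ker χ`). `⊇`: `m ↦ [s^k, m]` has image `{j(w θ(w) ⋯ θ^{k-1}(w)) : w ∈ W}` (`w` with `j w = [s, m]`), and `λ : w ↦ w θ(w) ⋯ θ^{k-1}(w)` is an injective endomorphism of the finite group `W`: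
  if `λ(w) = 1` then `θ(λ(w)) λ(w)⁻¹ = θ^k(w) w⁻¹ = 1`, so `θ^k w = w`, and `θ w = w` (`k` is invertible modulo `p`, `θ^p = 1`: `grpa_fix_of_pow` in H38/TD/Grp1.lean), so `λ(w) = w^k = 1`, and `w = 1` as `A` is a `p`-group and `¬ p ∣ k`. So `λ` is surjective on `W`, every `j w`, `w ∈ W`, is some `[m, s^k]`.
* `gwb_comm`: `F` commutes with `t = j a * s^k`… is not needed here.
-/

set_option autoImplicit false

open scoped Classical

noncomputable section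

namespace H77.AB

open H38.TD

variable {A G : Type} [CommGroup A] [Group G] {p : ℕ}

private theorem gwb_conj_pow (ax : AX p A G) (k : ℕ) (a : A) :
    ax.s ^ k * ax.j a = ax.j ((ax.θ ^ k : MulAut A) a) * ax.s ^ k := by
  induction k with
  | zero => simp
  | succ k ih =>
    have h1 : ax.s * ax.j ((ax.θ ^ k : MulAut A) a) =
        ax.j (ax.θ ((ax.θ ^ k : MulAut A) a)) * ax.s := by
      rw [← ax.cs, inv_mul_cancel_right]
    rw [pow_succ', mul_assoc, ih, ← mul_assoc, h1, pow_succ', MulAut.mul_apply, mul_assoc]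

theorem gwb_tp (ax : AX p A G) (a : A) : (ax.θ ^ p : MulAut A) a = a := by
  have h := gwb_conj_pow ax p a
  rw [ax.sp, one_mul, mul_one] at h
  exact (ax.jinj h).symm

private theorem gwb_split (ax : AX p A G) [NeZero p] (h : G) :
    ax.χ ((ax.s ^ (Multiplicative.toAdd (ax.χ h)).val)⁻¹ * h) = 1 := by
  have h1 : ax.χ (ax.s ^ (Multiplicative.toAdd (ax.χ h)).val) = ax.χ h := by
    rw [map_pow, ax.χs, ← ofAdd_nsmul, nsmul_eq_mul, mul_one, ZMod.natCast_zmod_val]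
    rfl
  rw [map_mul, map_inv, h1, inv_mul_cancel]

theorem gwb_act (ax : AX p A G) [NeZero p] (h : G) (a : A) :
    h * ax.j a * h⁻¹ = ax.j ((ax.θ ^ (Multiplicative.toAdd (ax.χ h)).val : MulAut A) a) := by
  obtain ⟨k, hk⟩ : ∃ k : ℕ, k = (Multiplicative.toAdd (ax.χ h)).val := ⟨_, rfl⟩
  have h1 := gwb_split ax h
  rw [← hk] at h1 ⊢
  obtain ⟨m, hm⟩ : ∃ m : G, m = (ax.s ^ k)⁻¹ * h := ⟨_, rfl⟩
  rw [← hm] at h1
  have h2 : h = ax.s ^ k * m := by rw [hm]; group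
  have h3 := ax.cj m a h1
  have h4 : h * ax.j a * h⁻¹ = ax.s ^ k * (m * ax.j a * m⁻¹) * (ax.s ^ k)⁻¹ := by
    rw [h2]; group
  rw [h4, h3, gwb_conj_pow, mul_inv_cancel_right]

theorem gwb_J (ax : AX p A G) (a : A) : ax.θ a * a⁻¹ ∈ ax.W := by
  refine ⟨ax.j a, ax.χj a, ?_⟩
  rw [ax.cs, map_mul, map_inv]

theorem gwb_th (ax : AX p A G) (w : A) (hw : w ∈ ax.W) : ax.θ w ∈ ax.W := by
  obtain ⟨h, h1, h2⟩ := hw
  refine ⟨ax.s * h * ax.s⁻¹, ?_, ?_⟩
  · rw [map_mul, map_mul, h1, mul_one, ← map_mul, mul_inv_cancel, map_one]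
  · have e : ax.s * (ax.s * h * ax.s⁻¹) * ax.s⁻¹ * (ax.s * h * ax.s⁻¹)⁻¹ =
        ax.s * (ax.s * h * ax.s⁻¹ * h⁻¹) * ax.s⁻¹ := by group
    rw [e, h2, ax.cs]

/-- the commutator of `s ^ n` and `h` -/
private theorem gwb_tel (ax : AX p A G) (h : G) (w : A)
    (hw : ax.s * h * ax.s⁻¹ * h⁻¹ = ax.j w) (n : ℕ) :
    ax.j (nh ax.θ n w) = ax.s ^ n * h * (ax.s ^ n)⁻¹ * h⁻¹ := by
  induction n with
  | zero =>
    have h1 : nh ax.θ 0 w = 1 := by
      show ∏ k ∈ Finset.range 0, (ax.θ ^ k : MulAut A) w = 1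
      rw [Finset.prod_range_zero]
    rw [h1, map_one]
    group
  | succ n ih =>
    have h1 : nh ax.θ (n + 1) w = (ax.θ ^ n : MulAut A) w * nh ax.θ n w := by
      show ∏ k ∈ Finset.range (n + 1), (ax.θ ^ k : MulAut A) w =
        (ax.θ ^ n : MulAut A) w * ∏ k ∈ Finset.range n, (ax.θ ^ k : MulAut A) w
      rw [Finset.prod_range_succ, mul_comm]
    have h2 : ax.j ((ax.θ ^ n : MulAut A) w) = ax.s ^ n * ax.j w * (ax.s ^ n)⁻¹ := by
      rw [gwb_conj_pow, mul_inv_cancel_right]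
    rw [h1, map_mul, ih, h2, ← hw, pow_succ]
    group

private theorem gwb_nhW (ax : AX p A G) (w : A) (hw : w ∈ ax.W) (n : ℕ) :
    nh ax.θ n w ∈ ax.W := by
  have h1 : ∀ k : ℕ, (ax.θ ^ k : MulAut A) w ∈ ax.W := by
    intro k
    induction k with
    | zero => simpa using hw
    | succ k ih =>
      rw [pow_succ', MulAut.mul_apply]
      exact gwb_th ax _ ih
  show ∏ k ∈ Finset.range n, (ax.θ ^ k : MulAut A) w ∈ ax.W
  exact Subgroup.prod_mem _ fun k _ => h1 k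

theorem gwb_N (ax : AX p A G) : ax.W ≤ (nh ax.θ p).ker := by
  rintro w ⟨h, h1, h2⟩
  rw [MonoidHom.mem_ker]
  apply ax.jinj
  rw [gwb_tel ax h w h2 p, ax.sp, map_one]
  group

private theorem gwb_pd_pow (ax : AX p A G) (k : ℕ) (a : A)
    (m : ℕ) : (ax.j a * ax.s ^ k) ^ m =
      ax.j (∏ i ∈ Finset.range m, (ax.θ ^ (i * k) : MulAut A) a) * ax.s ^ (m * k) := by
  induction m with
  | zero => simp
  | succ m ih =>
    rw [pow_succ, ih, Finset.prod_range_succ, map_mul, mul_assoc, ← mul_assoc (ax.s ^ (m * k)),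
      gwb_conj_pow, mul_assoc, mul_assoc, ← pow_add, ← mul_assoc, Nat.add_mul, one_mul]
    exact mul_assoc _ _ _

theorem gwb_pow (hp : p.Prime) (ax : AX p A G) (a : A) (k : ℕ) (hk : ¬ p ∣ k) :
    (ax.j a * ax.s ^ k) ^ p = ax.j (nh ax.θ p a) := by
  have hmod : ∀ m : ℕ, (ax.θ ^ m : MulAut A) a = (ax.θ ^ (m % p) : MulAut A) a := by
    intro m
    have h1 : (ax.θ ^ p : MulAut A) = 1 := by
      ext x
      exact gwb_tp ax x
    rw [pow_eq_pow_mod m h1]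
  rw [gwb_pd_pow, pow_mul, ax.sp, one_pow, mul_one]
  congr 1
  show _ = ∏ i ∈ Finset.range p, (ax.θ ^ i : MulAut A) a
  have hinj : Set.InjOn (fun i => i * k % p) (Finset.range p : Set ℕ) := by
    intro i hi i' hi' h
    rw [Finset.mem_coe, Finset.mem_range] at hi hi'
    have h1 : i * k ≡ i' * k [MOD p] := h
    have h2 : Nat.gcd p k = 1 := (Nat.Prime.coprime_iff_not_dvd hp).2 hk
    have h3 := Nat.ModEq.cancel_right_of_coprime h2 h1
    exact Nat.ModEq.eq_of_lt_of_lt h3 hi hi'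
  have himg : (Finset.range p).image (fun i => i * k % p) = Finset.range p := by
    apply Finset.eq_of_subset_of_card_le
    · intro x hx
      obtain ⟨i, _, rfl⟩ := Finset.mem_image.1 hx
      exact Finset.mem_range.2 (Nat.mod_lt _ hp.pos)
    · rw [Finset.card_image_of_injOn hinj]
  calc ∏ i ∈ Finset.range p, (ax.θ ^ (i * k) : MulAut A) a
      = ∏ i ∈ Finset.range p, (ax.θ ^ (i * k % p) : MulAut A) a :=
        Finset.prod_congr rfl fun i _ => hmod _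
    _ = ∏ i ∈ (Finset.range p).image (fun i => i * k % p), (ax.θ ^ i : MulAut A) a := by
        rw [Finset.prod_image hinj]
    _ = ∏ i ∈ Finset.range p, (ax.θ ^ i : MulAut A) a := by rw [himg]

/-- `nh θ k` is injective -/
private theorem gwb_inj [Finite A] (hp : p.Prime) (hA : IsPGroup p A) (ax : AX p A G) (k : ℕ)
    (hk : ¬ p ∣ k) (w : A) (hw : nh ax.θ k w = 1) : w = 1 := by
  have h1 := Finset.prod_range_succ (fun i => (ax.θ ^ i : MulAut A) w) k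
  rw [Finset.prod_range_succ'] at h1
  have h2 : ∏ i ∈ Finset.range k, (ax.θ ^ (i + 1) : MulAut A) w = 1 := by
    have e : ∀ i, (ax.θ ^ (i + 1) : MulAut A) w = ax.θ ((ax.θ ^ i : MulAut A) w) := by
      intro i
      rw [pow_succ', MulAut.mul_apply]
    simp only [e]
    rw [← map_prod]
    have hw' : ∏ i ∈ Finset.range k, (ax.θ ^ i : MulAut A) w = 1 := hw
    rw [hw', map_one]
  have hw' : ∏ i ∈ Finset.range k, (ax.θ ^ i : MulAut A) w = 1 := hw
  rw [h2, hw', one_mul, one_mul, pow_zero, MulAut.one_apply] at h1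
  have h3 : ax.θ w = w := grpa_fix_of_pow hp ax.θ w (gwb_tp ax w) k hk h1.symm
  have h4 : ∀ i : ℕ, (ax.θ ^ i : MulAut A) w = w := by
    intro i
    rw [grpa_it_pow]
    exact Function.iterate_fixed h3 i
  simp only [h4, Finset.prod_const, Finset.card_range] at hw'
  have h5 : orderOf w ∣ k := orderOf_dvd_of_pow_eq_one hw'
  obtain ⟨n, hn⟩ := hA w
  have h6 : orderOf w ∣ p ^ n := orderOf_dvd_of_pow_eq_one hn
  obtain ⟨i, -, hi⟩ := (Nat.dvd_prime_pow hp).1 h6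
  have h7 : i = 0 := by
    by_contra h0
    apply hk
    refine dvd_trans ?_ h5
    rw [hi]
    exact dvd_pow_self p h0
  rw [h7, pow_zero] at hi
  exact orderOf_eq_one_iff.1 hi

/-- conjugation by elements of `ker χ` -/
private theorem gwb_conjm (ax : AX p A G) (a : A) (k : ℕ) (m : G) (hm : ax.χ m = 1) (w : A)
    (hw : ax.s * m * ax.s⁻¹ * m⁻¹ = ax.j w) :
    m * (ax.j a * ax.s ^ k) * m⁻¹ = ax.j (nh ax.θ k w)⁻¹ * (ax.j a * ax.s ^ k) := by
  have h1 := gwb_tel ax m w hw k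
  have h2 : m * (ax.j a * ax.s ^ k) * m⁻¹ =
      (m * ax.j a * m⁻¹) * (ax.s ^ k * m * (ax.s ^ k)⁻¹ * m⁻¹)⁻¹ * ax.s ^ k := by group
  rw [h2, ax.cj m a hm, ← h1, ← map_inv, ← map_mul, mul_comm a, map_mul, mul_assoc]

theorem gwb_cls [Finite A] (hp : p.Prime) (hA : IsPGroup p A) (ax : AX p A G) (a : A) (k : ℕ)
    (hk : ¬ p ∣ k) (h : G) :
    IsConj (ax.j a * ax.s ^ k) h ↔ ∃ w ∈ ax.W, h = ax.j w * (ax.j a * ax.s ^ k) := by
  have : NeZero p := ⟨hp.ne_zero⟩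
  constructor
  · intro hc
    obtain ⟨c, hc⟩ := isConj_iff.1 hc
    -- stability under `ker χ`
    have hm : ∀ m : G, ax.χ m = 1 → ∀ x, (∃ w ∈ ax.W, x = ax.j w * (ax.j a * ax.s ^ k)) →
        ∃ w ∈ ax.W, m * x * m⁻¹ = ax.j w * (ax.j a * ax.s ^ k) := by
      rintro m hm x ⟨w, hw, rfl⟩
      obtain ⟨w₀, hw₀⟩ := ax.com m hm
      have h0 : w₀ ∈ ax.W := ⟨m, hm, hw₀⟩
      refine ⟨w * (nh ax.θ k w₀)⁻¹, mul_mem hw (inv_mem (gwb_nhW ax w₀ h0 k)), ?_⟩
      have e : m * (ax.j w * (ax.j a * ax.s ^ k)) * m⁻¹ =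
          (m * ax.j w * m⁻¹) * (m * (ax.j a * ax.s ^ k) * m⁻¹) := by group
      rw [e, ax.cj m w hm, gwb_conjm ax a k m hm w₀ hw₀, map_mul, mul_assoc]
    have hs : ∀ x, (∃ w ∈ ax.W, x = ax.j w * (ax.j a * ax.s ^ k)) →
        ∃ w ∈ ax.W, ax.s * x * ax.s⁻¹ = ax.j w * (ax.j a * ax.s ^ k) := by
      rintro x ⟨w, hw, rfl⟩
      refine ⟨ax.θ w * (ax.θ a * a⁻¹), mul_mem (gwb_th ax w hw) (gwb_J ax a), ?_⟩
      have e : ax.s * (ax.j w * (ax.j a * ax.s ^ k)) * ax.s⁻¹ =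
          (ax.s * ax.j w * ax.s⁻¹) * (ax.s * ax.j a * ax.s⁻¹) * ax.s ^ k := by
        have e0 : ax.s ^ k * ax.s⁻¹ = ax.s⁻¹ * ax.s ^ k := by
          group
        calc ax.s * (ax.j w * (ax.j a * ax.s ^ k)) * ax.s⁻¹
            = ax.s * ax.j w * ax.j a * (ax.s ^ k * ax.s⁻¹) := by group
          _ = ax.s * ax.j w * ax.j a * (ax.s⁻¹ * ax.s ^ k) := by rw [e0]
          _ = _ := by group
      rw [e, ax.cs, ax.cs]
      have e1 : ax.j (ax.θ w * (ax.θ a * a⁻¹)) * (ax.j a * ax.s ^ k) =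
          ax.j (ax.θ w * (ax.θ a * a⁻¹) * a) * ax.s ^ k := by
        rw [map_mul ax.j _ a, mul_assoc]
      have e2 : ax.θ w * (ax.θ a * a⁻¹) * a = ax.θ w * ax.θ a := by group
      rw [e1, e2, map_mul]
    have hsn : ∀ (n : ℕ) (x : G), (∃ w ∈ ax.W, x = ax.j w * (ax.j a * ax.s ^ k)) →
        ∃ w ∈ ax.W, ax.s ^ n * x * (ax.s ^ n)⁻¹ = ax.j w * (ax.j a * ax.s ^ k) := by
      intro n
      induction n with
      | zero =>
        intro x hx
        simpa using hx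
      | succ n ih =>
        intro x hx
        have h1 := hs _ (ih x hx)
        have e : ax.s * (ax.s ^ n * x * (ax.s ^ n)⁻¹) * ax.s⁻¹ =
            ax.s ^ (n + 1) * x * (ax.s ^ (n + 1))⁻¹ := by
          rw [pow_succ']
          group
        rw [e] at h1
        exact h1
    have h1 := gwb_split ax c
    obtain ⟨n, hn⟩ : ∃ n : ℕ, n = (Multiplicative.toAdd (ax.χ c)).val := ⟨_, rfl⟩
    rw [← hn] at h1
    obtain ⟨w, hw, hw2⟩ := hsn n _ (hm _ h1 (ax.j a * ax.s ^ k)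
      ⟨1, one_mem _, by rw [map_one, one_mul]⟩)
    refine ⟨w, hw, ?_⟩
    rw [← hw2, ← hc]
    group
  · rintro ⟨w, hw, rfl⟩
    obtain ⟨lam, hlam⟩ : ∃ lam : ax.W → ax.W, ∀ x, ((lam x : ax.W) : A) = nh ax.θ k x :=
      ⟨fun x => ⟨nh ax.θ k x, gwb_nhW ax x x.2 k⟩, fun x => rfl⟩
    have hinj : Function.Injective lam := by
      intro x y hxy
      have h1 : nh ax.θ k (x : A) = nh ax.θ k (y : A) := by
        rw [← hlam, ← hlam, hxy]
      have h2 : nh ax.θ k ((x : A) * (y : A)⁻¹) = 1 := by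
        rw [map_mul, map_inv, h1, mul_inv_cancel]
      have h3 := gwb_inj hp hA ax k hk _ h2
      exact Subtype.ext (mul_inv_eq_one.1 h3)
    obtain ⟨x, hx⟩ := Finite.surjective_of_injective hinj ⟨w⁻¹, inv_mem hw⟩
    have hx' : nh ax.θ k (x : A) = w⁻¹ := by
      rw [← hlam, hx]
    obtain ⟨m, hm1, hm2⟩ := x.2
    rw [isConj_iff]
    refine ⟨m, ?_⟩
    rw [gwb_conjm ax a k m hm1 x hm2, hx', inv_inv]

end H77.AB
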