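import Mathlib

/-!
# [H77 AB TSS] sets on which the quadratic form vanishes on all differences, 80-130 lines (linear algebra over F_p)

`B : V × W → F_p` bilinear, `V, W` finite. If `S ⊆ V × W` satisfies `B(u₁ - v₁, u₂ - v₂) = 0` for all `u, v ∈ S` then `#S ≤ #W * #(left kernel of B)`.

Proof. `S` empty: clear. Let `w ∈ S`, `q(x, y) = B(x, y)`. For `u, v ∈ S`: `0 = q(u - v) = q((u - w) - (v - w)) = q(u - w) + q(v - w) - B(u₁ - w₁, v₂ - w₂) - B(v₁ - w₁, u₂ - w₂)`, so the polar form `B(x, y') + B(x', y)` vanishes on the pairs of the differences `u - w`, and `q(u - w) = 0`. Let `Σ` be the span of the `u - w`, `u ∈ S`: the polar form vanishes on `Σ × Σ`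
(bilinear) and so `q` vanishes on `Σ` (`q` of a sum is the sum of the `q` plus polar terms, `q(r x) = r² q(x)`; induction `Submodule.span_induction`). `u ↦ u - w` embeds `S` in `Σ`, so it suffices that `#Σ ≤ #W #ker B`. Let `Σ_L ⊆ V` be the image of the projection `Σ → V`, `Σ_W = {y : (0, y) ∈ Σ}` (`≅` kernel of the projection), `#Σ = #Σ_L #Σ_W`.
For `(x, y') ∈ Σ` and `y ∈ Σ_W`: `(x, y' + y) ∈ Σ`, so `B(x, y) = q(x, y' + y) - q(x, y') = 0`. So `Σ_W ⊆ N := {y : B(x, y) = 0 for all x ∈ Σ_L}`. The map `Σ_L → Hom(W/N, F_p)`, `x ↦ B(x, ·)`, has kernel `Σ_L ∩ ker B`, and `#Hom(W/N, F_p) = #(W/N)` (`Module.Dual`, `Module.finrank` of the dual; `Module.card_eq_pow_finrank`), so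
`#Σ_L ≤ #(Σ_L ∩ ker B) #W / #N`, i.e. `#Σ_L #N ≤ #(Σ_L ∩ ker B) #W ≤ #ker B #W`, and `#Σ = #Σ_L #Σ_W ≤ #Σ_L #N`.
-/

set_option autoImplicit false

namespace H77.AB

theorem tss_card {p : ℕ} (hp : p.Prime) {V : Type} [AddCommGroup V] [Module (ZMod p) V]
    [Finite V] : Nat.card V = p ^ Module.finrank (ZMod p) V := by
  have : Fact p.Prime := ⟨hp⟩
  have := Fintype.ofFinite V
  have h := Module.card_eq_pow_finrank (K := ZMod p) (V := V)
  rw [Nat.card_eq_fintype_card, h, ZMod.card]

theorem tss {p : ℕ} (hp : p.Prime) {V W : Type} [AddCommGroup V] [Module (ZMod p) V] [Finite V]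
    [AddCommGroup W] [Module (ZMod p) W] [Finite W]
    (B : V →ₗ[ZMod p] W →ₗ[ZMod p] ZMod p) (S : Finset (V × W))
    (hS : ∀ u ∈ S, ∀ v ∈ S, B (u.1 - v.1) (u.2 - v.2) = 0) :
    S.card ≤ Nat.card W * Nat.card (LinearMap.ker B) := by
  classical
  have : Fact p.Prime := ⟨hp⟩
  rcases S.eq_empty_or_nonempty with he | ⟨w, hw⟩
  · rw [he]; simp
  have : Module.Finite (ZMod p) V := Module.Finite.of_finite
  have : Module.Finite (ZMod p) W := Module.Finite.of_finite
  -- the span of the differences
  set G : Set (V × W) := {z | ∃ u ∈ S, z = u - w} with hG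
  set Q : Submodule (ZMod p) (V × W) := Submodule.span (ZMod p) G with hQ
  have q0 : ∀ z ∈ G, B z.1 z.2 = 0 := by
    rintro z ⟨u, hu, rfl⟩
    exact hS u hu w hw
  have pol0 : ∀ z ∈ G, ∀ z' ∈ G, B z.1 z'.2 + B z'.1 z.2 = 0 := by
    rintro z ⟨u, hu, rfl⟩ z' ⟨v, hv, rfl⟩
    have h1 := hS u hu v hv
    have h2 := hS u hu w hw
    have h3 := hS v hv w hw
    have e1 : u.1 - v.1 = (u.1 - w.1) - (v.1 - w.1) := by abel
    have e2 : u.2 - v.2 = (u.2 - w.2) - (v.2 - w.2) := by abel
    rw [e1, e2] at h1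
    simp only [map_sub, LinearMap.sub_apply] at h1 h2 h3
    have h4 : B (u - w).1 (v - w).2 + B (v - w).1 (u - w).2 =
        B (u.1 - w.1) (v.2 - w.2) + B (v.1 - w.1) (u.2 - w.2) := rfl
    rw [h4]
    simp only [map_sub, LinearMap.sub_apply]
    linear_combination h2 + h3 - h1
  have pol1 : ∀ z ∈ Q, ∀ z' ∈ G, B z.1 z'.2 + B z'.1 z.2 = 0 := by
    intro z hz z' hz'
    induction hz using Submodule.span_induction with
    | mem x hx => exact pol0 x hx z' hz'
    | zero => simp
    | add x y _ _ hx hy =>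
      rw [Prod.fst_add, Prod.snd_add, map_add, LinearMap.add_apply, map_add]
      linear_combination hx + hy
    | smul a x _ hx =>
      rw [Prod.smul_fst, Prod.smul_snd, map_smul, LinearMap.smul_apply, map_smul, ← smul_add, hx,
        smul_zero]
  have pol2 : ∀ z ∈ Q, ∀ z' ∈ Q, B z.1 z'.2 + B z'.1 z.2 = 0 := by
    intro z hz z' hz'
    induction hz' using Submodule.span_induction with
    | mem x hx => exact pol1 z hz x hx
    | zero => simp
    | add x y _ _ hx hy =>
      rw [Prod.fst_add, Prod.snd_add, map_add, LinearMap.map_add, LinearMap.add_apply]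
      linear_combination hx + hy
    | smul a x _ hx =>
      rw [Prod.smul_fst, Prod.smul_snd, map_smul, LinearMap.map_smul, LinearMap.smul_apply,
        ← smul_add, hx, smul_zero]
  have q1 : ∀ z ∈ Q, B z.1 z.2 = 0 := by
    intro z hz
    induction hz using Submodule.span_induction with
    | mem x hx => exact q0 x hx
    | zero => simp
    | add x y hxm hym hx hy =>
      have h := pol2 x hxm y hym
      rw [Prod.fst_add, Prod.snd_add]
      simp only [map_add, LinearMap.add_apply]
      linear_combination hx + hy + h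
    | smul a x _ hx =>
      rw [Prod.smul_fst, Prod.smul_snd]
      simp only [map_smul, LinearMap.smul_apply, hx, smul_zero]
  have c1 : S.card ≤ Nat.card Q := by
    have := Fintype.ofFinite (V × W)
    have := Fintype.ofFinite Q
    rw [Nat.card_eq_fintype_card, ← Fintype.card_coe]
    refine Fintype.card_le_of_injective (fun u : ↥S => (⟨u.1 - w, Submodule.subset_span
      ⟨u.1, u.2, rfl⟩⟩ : Q)) ?_
    intro u v huv
    have h := congrArg Subtype.val huv
    exact Subtype.ext (sub_left_injective h)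
  -- the two pieces
  set f : Q →ₗ[ZMod p] V := (LinearMap.fst (ZMod p) V W).comp Q.subtype with hf
  have r1 := LinearMap.finrank_range_add_finrank_ker f
  set L : Submodule (ZMod p) V := LinearMap.range f with hL
  set N : Submodule (ZMod p) W := (L.map B).dualCoannihilator with hN
  have r2 : Module.finrank (ZMod p) (LinearMap.ker f) ≤ Module.finrank (ZMod p) N := by
    have hmem : ∀ z : LinearMap.ker f, (z : Q).1.2 ∈ N := by
      intro z
      rw [hN, Submodule.mem_dualCoannihilator]
      rintro φ ⟨x, ⟨t, rfl⟩, rfl⟩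
      have hz0 : ((z : Q) : V × W).1 = 0 := z.2
      have h1 := q1 t.1 t.2
      have h2 := q1 (t.1 + (z : Q).1) (Q.add_mem t.2 (z : Q).2)
      rw [Prod.fst_add, Prod.snd_add, hz0, add_zero, map_add, h1, zero_add] at h2
      exact h2
    let g : LinearMap.ker f →ₗ[ZMod p] N :=
      { toFun := fun z => ⟨(z : Q).1.2, hmem z⟩
        map_add' := fun a b => rfl
        map_smul' := fun a b => rfl }
    refine LinearMap.finrank_le_finrank_of_injective (f := g) ?_
    intro a b hab
    have h1 : ((a : Q) : V × W).2 = ((b : Q) : V × W).2 := congrArg Subtype.val hab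
    have ha : ((a : Q) : V × W).1 = 0 := a.2
    have hb : ((b : Q) : V × W).1 = 0 := b.2
    exact Subtype.ext (Subtype.ext (Prod.ext (ha.trans hb.symm) h1))
  have r3 := Subspace.finrank_add_finrank_dualCoannihilator_eq (K := ZMod p) (V := W) (L.map B)
  have r4 := LinearMap.finrank_range_add_finrank_ker (B.domRestrict L)
  have r5 : LinearMap.range (B.domRestrict L) = L.map B := by
    ext φ
    constructor
    · rintro ⟨x, rfl⟩
      exact ⟨x.1, x.2, rfl⟩
    · rintro ⟨x, hx, rfl⟩
      exact ⟨⟨x, hx⟩, rfl⟩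
  have r6 : Module.finrank (ZMod p) (LinearMap.ker (B.domRestrict L)) ≤
      Module.finrank (ZMod p) (LinearMap.ker B) := by
    let g : LinearMap.ker (B.domRestrict L) →ₗ[ZMod p] LinearMap.ker B :=
      { toFun := fun z => ⟨(z : L).1, z.2⟩
        map_add' := fun a b => rfl
        map_smul' := fun a b => rfl }
    refine LinearMap.finrank_le_finrank_of_injective (f := g) ?_
    intro a b hab
    have h1 : ((a : L) : V) = ((b : L) : V) := congrArg (fun z : LinearMap.ker B => (z : V)) hab
    exact Subtype.ext (Subtype.ext h1)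
  rw [r5] at r4
  refine c1.trans ?_
  rw [tss_card hp (V := Q), tss_card hp (V := W), tss_card hp (V := LinearMap.ker B), ← pow_add]
  refine Nat.pow_le_pow_right hp.pos ?_
  have r7 : Module.finrank (ZMod p) (L.map B) + Module.finrank (ZMod p) N =
      Module.finrank (ZMod p) W := r3
  omega

end H77.AB
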