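import Pool.Agent.H77.AB.ADat
import Pool.Agent.H77.AB.Tss

/-!
# [H77 AB H1X] the combinatorial inequality (H1) for the refined class data, 200-300 lines (finite linear algebra)

`X : XC p d N₀`, `cX X l M` (ADat). Refined indices `a = (k, θ)`, `θ ∈ Θ_k`, linking number `lk a a' = θ · x' + θ' · x`. Hypotheses: `a i ≠ 0`, `t i ∈ I` for the x-classes; at most `h₀` x-classes with given `(a, t)`; `t = 0` for the central classes; and for every set `R` of classes not in `isx`, with `D = span {t i : i ∈ R}`: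
`(p-1) h₀ #(ann D) #(I ∩ D) + #{i ∉ isx : t i ∈ D} ≤ N₀`. Claim: a set `U` of pairwise unlinked indices containing an x-type has mean weight `≤ N₀`; the mean weight is `p^{-l} (p^M)⁻¹` for x-types, `1` for the others.

Proof. Coordinates of `F_p^{d+l+1}`: `θ = (θ⁰, θ^B, θ^e)`, `dt θ (xv a b e) = θ⁰ a + θ^B · b + θ^e · e` (`Fin.sum_univ_succ`, `Fin.sum_univ_add`, `Fin.cons`, `Fin.append_left/right`). Let `(k₀, θ₀) ∈ U` be an x-type, `eX k₀ = inl (i₀, η₀, _)`, `a₀ = a i₀ ≠ 0`. `R` := the set of the `i ∉ isx` such that some `(k, θ) ∈ U` has `eX k = inr i`, `D` := span of the `t i`, `i ∈ R`.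
(1) For `i ∈ R` there is exactly one such `(k, θ)`: `k` is determined by `i`; if `i` is central `Θ = ⊥`; otherwise `θ = τ e_0` (`line0`), and `0 = lk = θ₀ · x + θ · x₀ = θ₀^B · t i + τ a₀` determines `τ`. So the weight of the non-x-types in `U` is `#R ≤ #{i ∉ isx : t i ∈ D}`.
(2) If `(k, θ) ∈ U` is another x-type with class `i'`, `a' = a i'`: `τ = -θ^B · t i / a'` as well, so `(θ₀^B / a₀ - θ^B / a') · t i = 0` for all `i ∈ R` (for central `i`, `t i = 0`): `θ^B / a' ∈ θ₀^B / a₀ + ann D`.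
(3) Normalised vector of an x-type `(k, θ)`, `eX k = inl (i, η, _)`: `n = (t i / a i, η / a i ; θ^B / a i - θ₀^B / a₀, θ^e / a i) ∈ V × W`, `V = I × F_p^l`, `W = ann D × F_p^l`. With `B((b, e), (ψ, f)) = ψ · b + f · e`: for two x-types `(k, θ), (k', θ') ∈ U` divide `0 = θ · x' + θ' · x` by `a i a i'`, and use `θ · x = 0`, `θ' · x' = 0`
(`θ⁰/a = -θ^B · t/a² - θ^e · η/a²`): the result is `0 = -B(n₁ - n₁', n₂ - n₂')`. So the set `S` of the normalised vectors satisfies the hypothesis of `tss`: `#S ≤ #W #ker B`, `#W = #(ann D) p^l`, and the left kernel is `{(b, 0) : b ∈ I, ψ · b = 0 for all ψ ∈ ann D}`, `#ker B ≤ #(I ∩ D)` because the double annihilator of `D` is `D` (`dt` is nondegenerate; e.g. by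
counting `#(ann D) #D = p^d`, or by extending a basis; Mathlib: `Submodule.exists_le_ker_of_notMem`/`Subspace.dualAnnihilator_dualCoannihilator_eq`: for `b ∉ D` there is a linear form vanishing on `D` and not at `b`, and every linear form on `F_p^d` is `dt ψ ·`).
(4) The number of x-types in `U` is at most `(p-1) h₀ p^M #S`: for a given normalised vector and `a i = j ≠ 0` (`p - 1` values): `t i` is determined, so at most `h₀` classes `i`; `η`, `θ^B`, `θ^e` are determined, `θ⁰` by `θ · x = 0`; `p^M` copies. So their weight is at most `(p-1) h₀ p^M #(ann D) p^l #(I ∩ D) p^{-l} p^{-M} = (p-1) h₀ #(ann D) #(I ∩ D)`. Add (1) and use the hypothesis.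
-/

set_option autoImplicit false

open scoped Classical

noncomputable section

namespace H77.AB

open H63.MA H38.BB

private theorem h1x_badd {p n : ℕ} (θ x x' : Fin n → ZMod p) :
    dt θ (x + x') = dt θ x + dt θ x' := by
  simp only [dt, Pi.add_apply, mul_add, Finset.sum_add_distrib]

private theorem h1x_bsub {p n : ℕ} (θ x x' : Fin n → ZMod p) :
    dt θ (x - x') = dt θ x - dt θ x' := by
  simp only [dt, Pi.sub_apply, mul_sub, Finset.sum_sub_distrib]

private theorem h1x_asub {p n : ℕ} (θ θ' x : Fin n → ZMod p) :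
    dt (θ - θ') x = dt θ x - dt θ' x := by
  simp only [dt, Pi.sub_apply, sub_mul, Finset.sum_sub_distrib]

private theorem h1x_bsmul {p n : ℕ} (r : ZMod p) (θ x : Fin n → ZMod p) :
    dt θ (r • x) = r * dt θ x := by
  simp only [dt, Pi.smul_apply, smul_eq_mul, Finset.mul_sum]
  exact Finset.sum_congr rfl fun k _ => by ring

private theorem h1x_bzero {p n : ℕ} (θ : Fin n → ZMod p) : dt θ 0 = 0 := by
  simp [dt]

private theorem h1x_comm {p n : ℕ} (θ x : Fin n → ZMod p) : dt θ x = dt x θ := by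
  unfold dt
  exact Finset.sum_congr rfl fun k _ => mul_comm _ _

/-- the pairing of the normalised vectors -/
private def h1xB {p d : ℕ} (l : ℕ) (I A : Submodule (ZMod p) (Fin d → ZMod p)) :
    (I × (Fin l → ZMod p)) →ₗ[ZMod p] (A × (Fin l → ZMod p)) →ₗ[ZMod p] ZMod p :=
  LinearMap.mk₂ (ZMod p) (fun v w => dt (w.1 : Fin d → ZMod p) (v.1 : Fin d → ZMod p) + dt w.2 v.2)
    (by
      intro v v' w
      simp only [Prod.fst_add, Prod.snd_add, Submodule.coe_add, h1x_badd]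
      ring)
    (by
      intro c v w
      simp only [Prod.smul_fst, Prod.smul_snd, Submodule.coe_smul, h1x_bsmul, smul_eq_mul]
      ring)
    (by
      intro v w w'
      simp only [Prod.fst_add, Prod.snd_add, Submodule.coe_add, adat_dt_add]
      ring)
    (by
      intro c v w
      simp only [Prod.smul_fst, Prod.smul_snd, Submodule.coe_smul, adat_dt_smul, smul_eq_mul]
      ring)

private theorem h1xB_apply {p d : ℕ} (l : ℕ) (I A : Submodule (ZMod p) (Fin d → ZMod p))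
    (v : I × (Fin l → ZMod p)) (w : A × (Fin l → ZMod p)) :
    h1xB l I A v w = dt (w.1 : Fin d → ZMod p) (v.1 : Fin d → ZMod p) + dt w.2 v.2 := rfl

/-- the double annihilator -/
private theorem h1x_dann {p d : ℕ} (hp : p.Prime) (D : Submodule (ZMod p) (Fin d → ZMod p))
    (b : Fin d → ZMod p) (h : ∀ ψ ∈ ann D, dt ψ b = 0) : b ∈ D := by
  haveI : Fact p.Prime := ⟨hp⟩
  by_contra hb
  obtain ⟨f, h1, h2⟩ := Submodule.exists_le_ker_of_notMem hb
  have h3 : ∀ x, dt (fun k => f (fun j => if k = j then 1 else 0)) x = f x := by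
    intro x
    rw [LinearMap.pi_apply_eq_sum_univ f x]
    unfold dt
    exact Finset.sum_congr rfl fun k _ => by rw [smul_eq_mul, mul_comm]
  refine h1 ?_
  rw [← h3]
  refine h _ fun x hx => ?_
  rw [h3]
  exact h2 hx

private theorem h1x_ker {p d : ℕ} (hp : p.Prime) (l : ℕ)
    (I D : Submodule (ZMod p) (Fin d → ZMod p)) :
    Nat.card (LinearMap.ker (h1xB l I (ann D))) ≤
      Nat.card (I ⊓ D : Submodule (ZMod p) (Fin d → ZMod p)) := by
  haveI : NeZero p := ⟨hp.ne_zero⟩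
  have h1 : ∀ u : LinearMap.ker (h1xB l I (ann D)), ∀ w : (ann D) × (Fin l → ZMod p),
      dt (w.1 : Fin d → ZMod p) (u.1.1 : Fin d → ZMod p) + dt w.2 u.1.2 = 0 := by
    intro u w
    have h2 : h1xB l I (ann D) u.1 = 0 := LinearMap.mem_ker.1 u.2
    have h3 := congrArg (fun g => g w) h2
    exact h3
  have h2 : ∀ u : LinearMap.ker (h1xB l I (ann D)), (u.1.1 : Fin d → ZMod p) ∈ D := by
    intro u
    refine h1x_dann hp D _ fun ψ hψ => ?_
    have h3 := h1 u (⟨ψ, hψ⟩, 0)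
    rw [adat_dt_zero, add_zero] at h3
    exact h3
  have h3 : ∀ u : LinearMap.ker (h1xB l I (ann D)), u.1.2 = 0 := by
    intro u
    funext k
    have h4 := h1 u (0, Pi.single k 1)
    have h5 : dt (Pi.single k 1 : Fin l → ZMod p) u.1.2 = u.1.2 k := by
      unfold dt
      rw [Finset.sum_eq_single k]
      · rw [Pi.single_eq_same, one_mul]
      · intro j _ hj
        rw [Pi.single_eq_of_ne hj, zero_mul]
      · intro h
        exact absurd (Finset.mem_univ k) h
    rw [h5] at h4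
    have h6 : dt ((0 : ann D) : Fin d → ZMod p) (u.1.1 : Fin d → ZMod p) = 0 := by
      rw [Submodule.coe_zero, adat_dt_zero]
    rw [h6, zero_add] at h4
    exact h4
  refine Nat.card_le_card_of_injective
    (fun u : LinearMap.ker (h1xB l I (ann D)) =>
      (⟨(u.1.1 : Fin d → ZMod p), ⟨u.1.1.2, h2 u⟩⟩ :
        (I ⊓ D : Submodule (ZMod p) (Fin d → ZMod p)))) ?_
  intro u u' h
  have h4 : (u.1.1 : Fin d → ZMod p) = (u'.1.1 : Fin d → ZMod p) :=
    congrArg (fun z : (I ⊓ D : Submodule (ZMod p) (Fin d → ZMod p)) => (z : Fin d → ZMod p)) h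
  refine Subtype.ext (Prod.ext (Subtype.ext h4) ?_)
  rw [h3 u, h3 u']

/-- the core of the argument -/
private theorem h1x_core {p d l M h₀ N₀ : ℕ} (hp : p.Prime) (isx : Finset (Fin N₀))
    (ac : Fin N₀ → ZMod p) (t : Fin N₀ → Fin d → ZMod p)
    (I : Submodule (ZMod p) (Fin d → ZMod p)) (hx0 : ∀ i ∈ isx, ac i ≠ 0)
    (hI : ∀ i ∈ isx, t i ∈ I)
    (hf : ∀ (j : ZMod p) (b : Fin d → ZMod p),
      (isx.filter fun i => ac i = j ∧ t i = b).card ≤ h₀)
    {J : Type} (U : Finset J) (P : J → Prop) (A : J → ZMod p) (bs : J → Fin N₀)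
    (E : J → Fin l → ZMod p) (θ0 : J → ZMod p) (θB : J → Fin d → ZMod p)
    (θE : J → Fin l → ZMod p) (cp : J → ℕ)
    (hlk : ∀ a ∈ U, ∀ a' ∈ U, θ0 a * A a' + dt (θB a) (t (bs a')) + dt (θE a) (E a') +
      (θ0 a' * A a + dt (θB a') (t (bs a)) + dt (θE a') (E a)) = 0)
    (hself : ∀ a ∈ U, θ0 a * A a + dt (θB a) (t (bs a)) + dt (θE a) (E a) = 0)
    (hX : ∀ a ∈ U, P a → bs a ∈ isx ∧ A a = ac (bs a) ∧ cp a < p ^ M)
    (hR : ∀ a ∈ U, ¬ P a → bs a ∉ isx ∧ A a = 0 ∧ E a = 0 ∧ θB a = 0 ∧ θE a = 0)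
    (injX : ∀ a ∈ U, ∀ a' ∈ U, P a → P a' → bs a = bs a' → E a = E a' → cp a = cp a' →
      θ0 a = θ0 a' → θB a = θB a' → θE a = θE a' → a = a')
    (injR : ∀ a ∈ U, ∀ a' ∈ U, ¬ P a → ¬ P a' → bs a = bs a' → θ0 a = θ0 a' → a = a')
    (a₀ : J) (ha₀ : a₀ ∈ U) (hP₀ : P a₀) :
    ∃ R : Finset (Fin N₀), (∀ i ∈ R, i ∉ isx) ∧
      (U.filter fun a => P a).card ≤ h₀ * (((Nat.card
        (ann (Submodule.span (ZMod p) (t '' (R : Set (Fin N₀))))) * p ^ l) *
          Nat.card (I ⊓ Submodule.span (ZMod p) (t '' (R : Set (Fin N₀))) :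
            Submodule (ZMod p) (Fin d → ZMod p))) * ((p - 1) * p ^ M)) ∧
      (U.filter fun a => ¬ P a).card ≤ (Finset.univ.filter fun i => i ∉ isx ∧
          t i ∈ Submodule.span (ZMod p) (t '' (R : Set (Fin N₀)))).card := by
  haveI : Fact p.Prime := ⟨hp⟩
  haveI : NeZero p := ⟨hp.ne_zero⟩
  have hA : ∀ a ∈ U, P a → A a ≠ 0 := by
    intro a ha hPa
    rw [(hX a ha hPa).2.1]
    exact hx0 _ (hX a ha hPa).1
  -- an x-type and another type
  have hXR : ∀ a ∈ U, P a → ∀ b ∈ U, ¬ P b → θ0 b * A a + dt (θB a) (t (bs b)) = 0 := by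
    intro a ha hPa b hb hPb
    have h1 := hlk b hb a ha
    obtain ⟨-, h2, h3, h4, h5⟩ := hR b hb hPb
    rw [h2, h3, h4, h5, adat_dt_zero, adat_dt_zero, h1x_bzero, mul_zero] at h1
    simpa using h1
  set R : Finset (Fin N₀) := (U.filter fun a => ¬ P a).image bs with hRdef
  set D : Submodule (ZMod p) (Fin d → ZMod p) :=
    Submodule.span (ZMod p) (t '' (R : Set (Fin N₀))) with hDdef
  have hRm : ∀ i ∈ R, ∃ b ∈ U, ¬ P b ∧ bs b = i := by
    intro i hi
    obtain ⟨b, hb, rfl⟩ := Finset.mem_image.1 hi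
    exact ⟨b, (Finset.mem_filter.1 hb).1, (Finset.mem_filter.1 hb).2, rfl⟩
  refine ⟨R, ?_, ?_, ?_⟩
  · intro i hi
    obtain ⟨b, hb, hPb, rfl⟩ := hRm i hi
    exact (hR b hb hPb).1
  · -- the x-types
    have hann : ∀ a ∈ U, P a → (A a)⁻¹ • θB a - (A a₀)⁻¹ • θB a₀ ∈ ann D := by
      intro a ha hPa
      have h1 : D ≤ orth ((A a)⁻¹ • θB a - (A a₀)⁻¹ • θB a₀) := by
        rw [hDdef, Submodule.span_le]
        rintro x ⟨i, hi, rfl⟩
        obtain ⟨b, hb, hPb, rfl⟩ := hRm i (by simpa using hi)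
        have h2 := hXR a ha hPa b hb hPb
        have h3 := hXR a₀ ha₀ hP₀ b hb hPb
        have h4 := hA a ha hPa
        have h5 := hA a₀ ha₀ hP₀
        show dt (t (bs b)) ((A a)⁻¹ • θB a - (A a₀)⁻¹ • θB a₀) = 0
        rw [h1x_comm, h1x_asub, adat_dt_smul, adat_dt_smul]
        have h6 : dt (θB a) (t (bs b)) = -(θ0 b * A a) := by linear_combination h2
        have h7 : dt (θB a₀) (t (bs b)) = -(θ0 b * A a₀) := by linear_combination h3
        rw [h6, h7]
        field_simp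
        ring
      intro b hb
      have h2 : dt b ((A a)⁻¹ • θB a - (A a₀)⁻¹ • θB a₀) = 0 := h1 hb
      rw [h1x_comm]
      exact h2
    have hTI : ∀ a ∈ U, P a → (A a)⁻¹ • t (bs a) ∈ I := fun a ha hPa =>
      I.smul_mem _ (hI _ (hX a ha hPa).1)
    let Ux : Finset J := U.filter fun a => P a
    have hU : ∀ a : {a // a ∈ Ux}, a.1 ∈ U ∧ P a.1 := fun a => Finset.mem_filter.1 a.2
    let nv : {a // a ∈ Ux} → (I × (Fin l → ZMod p)) × (ann D × (Fin l → ZMod p)) := fun a =>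
      ((⟨(A a.1)⁻¹ • t (bs a.1), hTI a.1 (hU a).1 (hU a).2⟩, (A a.1)⁻¹ • E a.1),
        (⟨(A a.1)⁻¹ • θB a.1 - (A a₀)⁻¹ • θB a₀, hann a.1 (hU a).1 (hU a).2⟩,
          (A a.1)⁻¹ • θE a.1))
    let S : Finset ((I × (Fin l → ZMod p)) × (ann D × (Fin l → ZMod p))) :=
      Ux.attach.image nv
    have hSc : S.card ≤ (Nat.card (ann D) * p ^ l) * Nat.card (I ⊓ D :
        Submodule (ZMod p) (Fin d → ZMod p)) := by
      have h1 := tss hp (h1xB l I (ann D)) S (by
        intro u hu v hv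
        obtain ⟨a, -, rfl⟩ := Finset.mem_image.1 hu
        obtain ⟨a', -, rfl⟩ := Finset.mem_image.1 hv
        rw [h1xB_apply]
        have g1 := hA a.1 (hU a).1 (hU a).2
        have g2 := hA a'.1 (hU a').1 (hU a').2
        have g3 := hlk a.1 (hU a).1 a'.1 (hU a').1
        have g4 := hself a.1 (hU a).1
        have g5 := hself a'.1 (hU a').1
        show dt (((A a.1)⁻¹ • θB a.1 - (A a₀)⁻¹ • θB a₀) - ((A a'.1)⁻¹ • θB a'.1 -
          (A a₀)⁻¹ • θB a₀)) ((A a.1)⁻¹ • t (bs a.1) - (A a'.1)⁻¹ • t (bs a'.1)) +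
          dt ((A a.1)⁻¹ • θE a.1 - (A a'.1)⁻¹ • θE a'.1)
            ((A a.1)⁻¹ • E a.1 - (A a'.1)⁻¹ • E a'.1) = 0
        simp only [h1x_asub, h1x_bsub, adat_dt_smul, h1x_bsmul]
        have g6 : (A a.1)⁻¹ * A a.1 = 1 := inv_mul_cancel₀ g1
        have g7 : (A a'.1)⁻¹ * A a'.1 = 1 := inv_mul_cancel₀ g2
        linear_combination ((A a.1)⁻¹ * (A a.1)⁻¹) * g4 + ((A a'.1)⁻¹ * (A a'.1)⁻¹) * g5 -
          ((A a.1)⁻¹ * (A a'.1)⁻¹) * g3 + 
          ((A a'.1)⁻¹ * θ0 a'.1 - (A a.1)⁻¹ * θ0 a.1) * g6 +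
          ((A a.1)⁻¹ * θ0 a.1 - (A a'.1)⁻¹ * θ0 a'.1) * g7)
      have h2 : Nat.card (ann D × (Fin l → ZMod p)) = Nat.card (ann D) * p ^ l := by
        rw [Nat.card_prod, Nat.card_fun, Nat.card_zmod, Nat.card_fin]
      rw [h2] at h1
      exact h1.trans (Nat.mul_le_mul_left _ (h1x_ker hp l I D))
    let F : {a // a ∈ Ux} → ((I × (Fin l → ZMod p)) × (ann D × (Fin l → ZMod p))) ×
      (ZMod p × ℕ) := fun a => (nv a, (A a.1, cp a.1))
    have h1 : Ux.attach.card ≤ h₀ * (Ux.attach.image F).card := by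
      refine Finset.card_le_mul_card_image _ _ fun y _ => ?_
      refine le_trans ?_ (hf y.2.1 (y.2.1 • (y.1.1.1 : Fin d → ZMod p)))
      refine Finset.card_le_card_of_injOn (fun a => bs a.1) ?_ ?_
      · intro a ha
        have ha' := (Finset.mem_filter.1 (Finset.mem_coe.1 ha)).2
        have g1 := hA a.1 (hU a).1 (hU a).2
        rw [← ha']
        simp only [Finset.coe_filter, Set.mem_setOf_eq]
        refine ⟨(hX a.1 (hU a).1 (hU a).2).1, (hX a.1 (hU a).1 (hU a).2).2.1.symm, ?_⟩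
        show t (bs a.1) = A a.1 • ((A a.1)⁻¹ • t (bs a.1))
        rw [smul_smul, mul_inv_cancel₀ g1, one_smul]
      · intro a ha a' ha' hbs
        have e1 := (Finset.mem_filter.1 (Finset.mem_coe.1 ha)).2
        have e2 := (Finset.mem_filter.1 (Finset.mem_coe.1 ha')).2
        have e3 : F a = F a' := e1.trans e2.symm
        have g1 := hA a.1 (hU a).1 (hU a).2
        have hAA : A a.1 = A a'.1 := congrArg (fun z => z.2.1) e3
        have hcc : cp a.1 = cp a'.1 := congrArg (fun z => z.2.2) e3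
        have hEE0 : (A a.1)⁻¹ • E a.1 = (A a'.1)⁻¹ • E a'.1 := congrArg (fun z => z.1.1.2) e3
        have hBB0 : (A a.1)⁻¹ • θB a.1 - (A a₀)⁻¹ • θB a₀ = (A a'.1)⁻¹ • θB a'.1 -
          (A a₀)⁻¹ • θB a₀ := congrArg (fun z => (z.1.2.1 : Fin d → ZMod p)) e3
        have hTT0 : (A a.1)⁻¹ • θE a.1 = (A a'.1)⁻¹ • θE a'.1 := congrArg (fun z => z.1.2.2) e3
        have hcan : ∀ {n : ℕ} (x y : Fin n → ZMod p), (A a.1)⁻¹ • x = (A a'.1)⁻¹ • y → x = y := by
          intro n x y hxy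
          rw [← hAA] at hxy
          have := congrArg (fun z => A a.1 • z) hxy
          simpa [smul_smul, mul_inv_cancel₀ g1] using this
        have hEE := hcan _ _ hEE0
        have hBB := hcan _ _ (sub_left_injective hBB0)
        have hTT := hcan _ _ hTT0
        have hbs' : bs a.1 = bs a'.1 := hbs
        have s1 := hself a.1 (hU a).1
        have s2 := hself a'.1 (hU a').1
        rw [← hAA, ← hbs', ← hEE, ← hBB, ← hTT] at s2
        have s3 : θ0 a.1 = θ0 a'.1 := by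
          refine mul_right_cancel₀ g1 ?_
          linear_combination s1 - s2
        exact Subtype.ext (injX a.1 (hU a).1 a'.1 (hU a').1 (hU a).2 (hU a').2 hbs' hEE hcc s3
          hBB hTT)
    have h2 : (Ux.attach.image F).card ≤ S.card * ((p - 1) * p ^ M) := by
      have h3 : Ux.attach.image F ⊆
          S ×ˢ ((Finset.univ.erase (0 : ZMod p)) ×ˢ (Finset.range (p ^ M))) := by
        intro y hy
        obtain ⟨a, ha, rfl⟩ := Finset.mem_image.1 hy
        rw [Finset.mem_product, Finset.mem_product]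
        exact ⟨Finset.mem_image_of_mem _ ha,
          Finset.mem_erase.2 ⟨hA a.1 (hU a).1 (hU a).2, Finset.mem_univ _⟩,
          Finset.mem_range.2 (hX a.1 (hU a).1 (hU a).2).2.2⟩
      refine (Finset.card_le_card h3).trans ?_
      rw [Finset.card_product, Finset.card_product, Finset.card_erase_of_mem (Finset.mem_univ _),
        Finset.card_univ, ZMod.card, Finset.card_range]
    rw [Finset.card_attach] at h1
    exact h1.trans (Nat.mul_le_mul_left _ (h2.trans (Nat.mul_le_mul_right _ hSc)))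
  · -- the other types
    refine Finset.card_le_card_of_injOn bs ?_ ?_
    · intro a ha
      have ha' := Finset.mem_filter.1 (Finset.mem_coe.1 ha)
      simp only [Finset.coe_filter, Set.mem_setOf_eq, Finset.mem_univ, true_and]
      refine ⟨(hR a ha'.1 ha'.2).1, Submodule.subset_span ⟨bs a, ?_, rfl⟩⟩
      exact Finset.mem_coe.2 (Finset.mem_image_of_mem bs (Finset.mem_filter.2 ha'))
    · intro a ha a' ha' hbs
      have e1 := Finset.mem_filter.1 (Finset.mem_coe.1 ha)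
      have e2 := Finset.mem_filter.1 (Finset.mem_coe.1 ha')
      have g1 := hXR a₀ ha₀ hP₀ a e1.1 e1.2
      have g2 := hXR a₀ ha₀ hP₀ a' e2.1 e2.2
      rw [← hbs] at g2
      refine injR a e1.1 a' e2.1 e1.2 e2.2 hbs ?_
      refine mul_right_cancel₀ (hA a₀ ha₀ hP₀) ?_
      linear_combination g1 - g2

/-- the coordinates of a refined class -/
private def h1x_av {p d N₀ : ℕ} (X : XC p d N₀) {l M : ℕ} : IX X l M → ZMod p
  | Sum.inl q => X.a q.1.1
  | Sum.inr _ => 0

private def h1x_ev {p d N₀ : ℕ} (X : XC p d N₀) {l M : ℕ} : IX X l M → Fin l → ZMod p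
  | Sum.inl q => q.2.1
  | Sum.inr _ => 0

private def h1x_cp {p d N₀ : ℕ} (X : XC p d N₀) {l M : ℕ} : IX X l M → ℕ
  | Sum.inl q => q.2.2.1
  | Sum.inr _ => 0

private theorem h1x_vX {p d N₀ : ℕ} (X : XC p d N₀) {l M : ℕ} (q : IX X l M) :
    vX X q = xv (h1x_av X q) (X.t (bse X q)) (h1x_ev X q) := by
  rcases q with q | q <;> rfl

private def h1x_pB {p d l : ℕ} (θ : Fin (d + l + 1) → ZMod p) (k : Fin d) : ZMod p :=
  θ (Fin.castAdd l k).succ

private def h1x_pE {p d l : ℕ} (θ : Fin (d + l + 1) → ZMod p) (k : Fin l) : ZMod p :=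
  θ (Fin.natAdd d k).succ

private theorem h1x_dt {p d l : ℕ} (θ : Fin (d + l + 1) → ZMod p) (a : ZMod p)
    (b : Fin d → ZMod p) (e : Fin l → ZMod p) :
    dt θ (xv a b e) = θ 0 * a + dt (h1x_pB θ) b + dt (h1x_pE θ) e := by
  unfold dt xv
  rw [Fin.sum_univ_succ, Fin.sum_univ_add]
  simp only [Fin.cons_zero, Fin.cons_succ, Fin.append_left, Fin.append_right]
  exact (add_assoc _ _ _).symm

private theorem h1x_ext {p d l : ℕ} {θ θ' : Fin (d + l + 1) → ZMod p} (h0 : θ 0 = θ' 0)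
    (hB : h1x_pB θ = h1x_pB θ') (hE : h1x_pE θ = h1x_pE θ') : θ = θ' := by
  funext k
  refine Fin.cases h0 (fun k => ?_) k
  refine Fin.addCases (fun k => ?_) (fun k => ?_) k
  · exact congrFun hB k
  · exact congrFun hE k

theorem h1X {p d N₀ : ℕ} (hp : p.Prime) [NeZero p] (X : XC p d N₀) (l M h₀ : ℕ)
    (I : Submodule (ZMod p) (Fin d → ZMod p)) (hx0 : ∀ i ∈ X.isx, X.a i ≠ 0)
    (hI : ∀ i ∈ X.isx, X.t i ∈ I)
    (hf : ∀ (j : ZMod p) (b : Fin d → ZMod p),
      (X.isx.filter fun i => X.a i = j ∧ X.t i = b).card ≤ h₀)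
    (hc : ∀ i ∈ X.cen, X.t i = 0)
    (hD : ∀ R : Finset (Fin N₀), (∀ i ∈ R, i ∉ X.isx) →
      (p - 1) * h₀ * Nat.card (ann (Submodule.span (ZMod p) (X.t '' (R : Set (Fin N₀))))) *
          Nat.card (I ⊓ Submodule.span (ZMod p) (X.t '' (R : Set (Fin N₀))) :
            Submodule (ZMod p) (Fin d → ZMod p)) +
        (Finset.univ.filter fun i => i ∉ X.isx ∧
          X.t i ∈ Submodule.span (ZMod p) (X.t '' (R : Set (Fin N₀)))).card ≤ N₀) :
    H1 (cX X l M) (XsX X l M) (((p : ℝ) ^ l)⁻¹) M N₀ := by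
  intro U hU hex
  obtain ⟨a₀, ha₀, hP₀⟩ := hex
  have hmem : ∀ k : Fin (NX X l M), k ∈ XsX X l M ↔ ∃ q, eX X l M k = Sum.inl q := by
    intro k
    simp only [XsX, Finset.mem_filter, Finset.mem_univ, true_and]
  have hnm : ∀ k : Fin (NX X l M), k ∉ XsX X l M → ∃ q, eX X l M k = Sum.inr q := by
    intro k hk
    rw [hmem] at hk
    rcases h : eX X l M k with q | q
    · exact absurd ⟨q, h⟩ hk
    · exact ⟨q, rfl⟩
  have hpd : ∀ a b : (cX X l M).J, dt a.2.1 (vX X (eX X l M b.1)) =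
      a.2.1 0 * h1x_av X (eX X l M b.1) + dt (h1x_pB a.2.1) (X.t (bse X (eX X l M b.1))) +
        dt (h1x_pE a.2.1) (h1x_ev X (eX X l M b.1)) := by
    intro a b
    rw [h1x_vX, h1x_dt]
  have hsig : ∀ a b : (cX X l M).J, a.1 = b.1 → a.2.1 = b.2.1 → a = b := by
    rintro ⟨k, θ, hθ⟩ ⟨k', θ', hθ'⟩ h1 h2
    simp only at h1 h2
    subst h1
    subst h2
    rfl
  obtain ⟨P, hPd⟩ : ∃ P : (cX X l M).J → Prop, P = fun a => a.1 ∈ XsX X l M := ⟨_, rfl⟩
  have hPi : ∀ a, P a ↔ a.1 ∈ XsX X l M := fun a => by rw [hPd]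
  obtain ⟨R, hR1, hR2, hR3⟩ := h1x_core (l := l) (M := M) (h₀ := h₀) hp X.isx X.a X.t I hx0 hI hf U
    P
    (fun a => h1x_av X (eX X l M a.1)) (fun a => bse X (eX X l M a.1))
    (fun a => h1x_ev X (eX X l M a.1)) (fun a => a.2.1 0) (fun a => h1x_pB a.2.1)
    (fun a => h1x_pE a.2.1) (fun a => h1x_cp X (eX X l M a.1))
    (by
      intro a ha a' ha'
      have h1 := hU a ha a' ha'
      have h2 : dt a.2.1 (vX X (eX X l M a'.1)) + dt a'.2.1 (vX X (eX X l M a.1)) = 0 := h1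
      rw [hpd, hpd] at h2
      exact h2)
    (by
      intro a _
      have h2 : dt a.2.1 (vX X (eX X l M a.1)) = 0 := (cX X l M).self a.1 _ a.2.2
      rw [hpd] at h2
      exact h2)
    (by
      intro a _ hPa
      obtain ⟨q, hq⟩ := (hmem a.1).1 ((hPi a).1 hPa)
      rw [hq]
      exact ⟨q.1.2, rfl, q.2.2.2⟩)
    (by
      intro a _ hPa
      obtain ⟨q, hq⟩ := hnm a.1 (fun h => hPa ((hPi a).2 h))
      have h1 : a.2.1 ∈ ThX X (eX X l M a.1) := a.2.2
      have h2 : ∀ k : Fin (d + l), a.2.1 k.succ = 0 := by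
        intro k
        rw [hq] at h1
        by_cases hc' : q.1 ∈ X.cen
        · have h3 : a.2.1 ∈ (⊥ : Submodule (ZMod p) (Fin (d + l + 1) → ZMod p)) := by
            simpa only [ThX, if_pos hc'] using h1
          rw [(Submodule.mem_bot _).1 h3]
          rfl
        · have h3 : a.2.1 ∈ line0 p (d + l) := by simpa only [ThX, if_neg hc'] using h1
          exact h3 _ (Fin.succ_ne_zero k)
      rw [hq]
      refine ⟨q.2, rfl, rfl, ?_, ?_⟩
      · funext k
        exact h2 _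
      · funext k
        exact h2 _)
    (by
      intro a _ a' _ hPa hPa' hb hE hcc h0 hB hE'
      obtain ⟨q, hq⟩ := (hmem a.1).1 ((hPi a).1 hPa)
      obtain ⟨q', hq'⟩ := (hmem a'.1).1 ((hPi a').1 hPa')
      rw [hq, hq'] at hb hE hcc
      refine hsig a a' ?_ (h1x_ext h0 hB hE')
      apply (eX X l M).injective
      rw [hq, hq']
      congr 1
      exact Prod.ext (Subtype.ext hb) (Prod.ext hE (Fin.ext hcc)))
    (by
      intro a ha a' ha' hPa0 hPa0' hb h0
      have hPa : a.1 ∉ XsX X l M := fun h => hPa0 ((hPi a).2 h)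
      have hPa' : a'.1 ∉ XsX X l M := fun h => hPa0' ((hPi a').2 h)
      obtain ⟨q, hq⟩ := hnm a.1 hPa
      obtain ⟨q', hq'⟩ := hnm a'.1 hPa'
      have h1 : ∀ b : (cX X l M).J, b.1 ∉ XsX X l M → ∀ k : Fin (d + l), b.2.1 k.succ = 0 := by
        intro b hPb k
        obtain ⟨r, hr⟩ := hnm b.1 hPb
        have h1 : b.2.1 ∈ ThX X (eX X l M b.1) := b.2.2
        rw [hr] at h1
        by_cases hc' : r.1 ∈ X.cen
        · have h3 : b.2.1 ∈ (⊥ : Submodule (ZMod p) (Fin (d + l + 1) → ZMod p)) := by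
            simpa only [ThX, if_pos hc'] using h1
          rw [(Submodule.mem_bot _).1 h3]
          rfl
        · have h3 : b.2.1 ∈ line0 p (d + l) := by simpa only [ThX, if_neg hc'] using h1
          exact h3 _ (Fin.succ_ne_zero k)
      rw [hq, hq'] at hb
      refine hsig a a' ?_ ?_
      · apply (eX X l M).injective
        rw [hq, hq']
        congr 1
        exact Subtype.ext hb
      · funext k
        refine Fin.cases h0 (fun k => ?_) k
        rw [h1 a hPa k, h1 a' hPa' k])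
    a₀ ha₀ ((hPi a₀).2 hP₀)
  set D : Submodule (ZMod p) (Fin d → ZMod p) :=
    Submodule.span (ZMod p) (X.t '' (R : Set (Fin N₀))) with hDdef
  have hfin := hD R hR1
  rw [← hDdef] at hfin
  have hp0 : (0 : ℝ) < (p : ℝ) := by exact_mod_cast hp.pos
  -- the mean weights
  have e1 : ∑ a ∈ U, mw p M (((p : ℝ) ^ l)⁻¹) (a.1 ∈ XsX X l M) =
      ((U.filter fun a => P a).card : ℝ) * (((p : ℝ) ^ l)⁻¹ * ((p : ℝ) ^ M)⁻¹) +
      ((U.filter fun a => ¬ P a).card : ℝ) := by
    rw [← Finset.sum_filter_add_sum_filter_not U (fun a => P a)]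
    congr 1
    · rw [Finset.sum_congr rfl (g := fun _ => ((p : ℝ) ^ l)⁻¹ * ((p : ℝ) ^ M)⁻¹) fun a ha => by
        unfold mw
        rw [if_pos ((hPi a).1 (Finset.mem_filter.1 ha).2)], Finset.sum_const, nsmul_eq_mul]
    · rw [Finset.sum_congr rfl (g := fun _ => (1 : ℝ)) fun a ha => by
        unfold mw
        rw [if_neg (fun h => (Finset.mem_filter.1 ha).2 ((hPi a).2 h))], Finset.sum_const,
          nsmul_eq_mul, mul_one]
  rw [e1]
  have e2 : ((U.filter fun a => P a).card : ℝ) ≤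
      ((p - 1 : ℕ) * h₀ * Nat.card (ann D) * Nat.card (I ⊓ D :
        Submodule (ZMod p) (Fin d → ZMod p)) : ℝ) * ((p : ℝ) ^ l * (p : ℝ) ^ M) := by
    have h1 : ((U.filter fun a => P a).card : ℝ) ≤ ((h₀ * (((Nat.card
        (ann D) * p ^ l) * Nat.card (I ⊓ D :
            Submodule (ZMod p) (Fin d → ZMod p))) * ((p - 1) * p ^ M)) : ℕ) : ℝ) := by
      exact Nat.cast_le.2 hR2
    refine h1.trans (le_of_eq ?_)
    push_cast
    ring
  have e3 : ((U.filter fun a => P a).card : ℝ) *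
      (((p : ℝ) ^ l)⁻¹ * ((p : ℝ) ^ M)⁻¹) ≤
      ((p - 1 : ℕ) * h₀ * Nat.card (ann D) * Nat.card (I ⊓ D :
        Submodule (ZMod p) (Fin d → ZMod p)) : ℝ) := by
    have h1 : (0 : ℝ) < (p : ℝ) ^ l * (p : ℝ) ^ M := by positivity
    rw [← mul_inv, ← div_eq_mul_inv, div_le_iff₀ h1]
    exact e2
  have e4 : ((U.filter fun a => ¬ P a).card : ℝ) ≤
      ((Finset.univ.filter fun i => i ∉ X.isx ∧ X.t i ∈ D).card : ℝ) := by
    exact Nat.cast_le.2 hR3
  have e5 : ((p - 1 : ℕ) * h₀ * Nat.card (ann D) * Nat.card (I ⊓ D :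
        Submodule (ZMod p) (Fin d → ZMod p)) : ℝ) +
      ((Finset.univ.filter fun i => i ∉ X.isx ∧ X.t i ∈ D).card : ℝ) ≤ (N₀ : ℝ) := by
    have h1 : ((((p - 1) * h₀ * Nat.card (ann D) * Nat.card (I ⊓ D :
        Submodule (ZMod p) (Fin d → ZMod p)) + (Finset.univ.filter fun i => i ∉ X.isx ∧
          X.t i ∈ D).card : ℕ)) : ℝ) ≤ (N₀ : ℝ) := by
      exact Nat.cast_le.2 hfin
    push_cast at h1
    push_cast
    exact h1
  linarith

end H77.AB
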