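import Pool.Agent.H77.AB.WDef
import Pool.Agent.H38.BB.CUbt

/-!
# [H77 AB HRC] upper bound for a multiplicative function bounded by a nonnegative combination of characters, 100-160 lines (as `ubt_three` in H38/BB/CUbt)

`0 ≤ t v ≤ A₀`, `t v ≤ ∑_j cf j * Re ep(fE E (μ j) (κ j) v)` for good `v ∉ E`, `0 ≤ cf j ≤ A₀`; `γ ≥` the sum of the `cf j` over the `j` with trivial character (`μ j = 0` on `E`, `κ j = 0`). Then `∑_{n ∈ GF Y, n ∩ E = ∅} ∏_{v ∈ n} t v ≤ C (nr E)^η Y (log Y)^(γ-1)` for `Y ≥ 3`.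

Proof (copy `ubt_three`). `t' v = if v ∈ E then 0 else t v`; the sum is at most `∑_{n ∈ GF Y} ∏ t' v`, by `hr` and `mer` (H38/BB) with `s = 1 + 1/log Y ∈ (1, 2]` at most `C₁ (Y / log Y) exp(∑_{v good, v ∉ E} t v (nm v)^{-s})`, and the exponent is `≤ ∑_j cf j S_j`, `S_j = ∑_{v good, v ∉ E} Re ep(fE E (μ j) (κ j) v) (nm v)^{-s}` (all series converge absolutely: `pz_summable`, compare `ubt_summable`).
Trivial `j`: `fE = 0`, `S_j ≤ PZ univ s ≤ log (1/(s-1)) + C₂ = log log Y + C₂` (`pz_all`; compare `ubt_zero` and its use). The other `j`: `chs` (H38/BB/CChs) with `η' = η / (A₀ #ι + 1)`: `S_j ≤ η' log (nr E) + C₃` (`log (nr E) ≥ 0`). So the exponent is `≤ γ' log log Y + η log (nr E) + C₄` with `γ' = ∑_{trivial} cf j ≤ γ`; `log log Y ≥ 0` for `Y ≥ 3`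
(`log 3 > 1`), so `exp(…) ≤ C₅ (nr E)^η (log Y)^γ`, and `(log Y)^{-1} (log Y)^γ = (log Y)^(γ-1)`. (Here `cf j ≥ 0` and `cf j ≤ A₀` are used, and the constants depend only on `K, D, ι, A₀, η`.)
-/

set_option autoImplicit false

open scoped NumberField
open IsDedekindDomain
open scoped Classical

noncomputable section

namespace H77.AB

open H63.MA H38.BB

theorem hrc_summable {K : Type} [Field K] [NumberField K] {p : ℕ} {ζ : K} (D : RD0 K p ζ)
    (E : Finset (Pl K)) (f : Pl K → ℝ) (A : ℝ) (hf : ∀ v, |f v| ≤ A) {s : ℝ} (hs : 1 < s) :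
    Summable fun v : Pl K => if D.Gd v ∧ v ∉ E then f v * (nm v : ℝ) ^ (-s) else 0 := by
  refine Summable.of_norm_bounded ((pz_summable K hs).mul_left A) fun v => ?_
  have h0 : 0 ≤ (nm v : ℝ) ^ (-s) := Real.rpow_nonneg (Nat.cast_nonneg _) _
  have hA : 0 ≤ A := (abs_nonneg _).trans (hf v)
  split_ifs
  · rw [norm_mul, Real.norm_eq_abs, Real.norm_of_nonneg h0]
    exact mul_le_mul_of_nonneg_right (hf v) h0
  · rw [norm_zero]
    exact mul_nonneg hA h0

theorem hrc_le {K : Type} [Field K] [NumberField K] {p : ℕ} {ζ : K} (D : RD0 K p ζ)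
    (E : Finset (Pl K)) (f : Pl K → ℝ) (hf : ∀ v, |f v| ≤ 1) {s : ℝ} (hs : 1 < s) :
    (∑' v : Pl K, if D.Gd v ∧ v ∉ E then f v * (nm v : ℝ) ^ (-s) else 0) ≤
      PZ (Set.univ : Set (Pl K)) s := by
  unfold PZ
  refine Summable.tsum_le_tsum (fun v => ?_) (hrc_summable D E f 1 hf hs)
    ((pz_summable K hs).indicator _)
  rw [Set.indicator_univ]
  have h0 : 0 ≤ (nm v : ℝ) ^ (-s) := Real.rpow_nonneg (Nat.cast_nonneg _) _
  split_ifs
  · calc _ ≤ 1 * (nm v : ℝ) ^ (-s) := mul_le_mul_of_nonneg_right (abs_le.1 (hf v)).2 h0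
      _ = _ := one_mul _
  · exact h0

theorem hrc {K : Type} [Field K] [NumberField K] {p : ℕ} {ζ : K} [NeZero p] (hp : p.Prime)
    (hζ : IsPrimitiveRoot ζ p) (D : RD K p ζ) (ι : Type) [Fintype ι] (A₀ η : ℝ) (hA : 0 ≤ A₀)
    (hη : 0 < η) :
    ∃ C : ℝ, 0 < C ∧ ∀ (E : Finset (Pl K)), (∀ w ∈ E, w ∉ D.S0) →
      ∀ (μ : ι → Pl K → ZMod p) (κ : ι → Fin D.r → ZMod p) (cf : ι → ℝ) (t : Pl K → ℝ) (γ : ℝ),
        (∀ j, 0 ≤ cf j ∧ cf j ≤ A₀) → (∀ v, 0 ≤ t v ∧ t v ≤ A₀) →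
        (∀ v, D.Gd v → v ∉ E →
          t v ≤ ∑ j, cf j * (ep p (fE D.toRD0 E (μ j) (κ j) v)).re) →
        ∑ j ∈ Finset.univ.filter (fun j => (∀ w ∈ E, μ j w = 0) ∧ κ j = 0), cf j ≤ γ →
        ∀ Y : ℝ, 3 ≤ Y →
          ∑ n ∈ (GF D.toRD0 Y).filter (fun n => Disjoint n E), ∏ v ∈ n, t v ≤
            C * nr E ^ η * Y * Real.log Y ^ (γ - 1) := by
  obtain ⟨C₁, hC₁, hhr⟩ := hr K A₀ hA
  obtain ⟨C₂, hC₂, hmer⟩ := mer K A₀ hA
  obtain ⟨Cp, hCp⟩ := pz_all K
  have hNn : (0 : ℝ) ≤ Fintype.card ι := Nat.cast_nonneg _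
  obtain ⟨Q, hQ⟩ : ∃ Q : ℝ, Q = Fintype.card ι * A₀ := ⟨_, rfl⟩
  have hQ0 : 0 ≤ Q := by rw [hQ]; positivity
  obtain ⟨C₃, hC₃, hchs⟩ := chs hp hζ D (η / (Q + 1)) (by positivity)
  obtain ⟨C₄, hC₄⟩ : ∃ C₄ : ℝ, C₄ = Q * |Cp| + Q * C₃ + C₂ := ⟨_, rfl⟩
  refine ⟨C₁ * Real.exp C₄, by positivity, fun E hE μ κ cf t γ hcf ht htc hγ Y hY => ?_⟩
  have hY0 : 0 < Y := by linarith
  have hL1 : 1 ≤ Real.log Y := by
    rw [Real.le_log_iff_exp_le hY0]
    linarith [Real.exp_one_lt_d9]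
  have hL0 : 0 < Real.log Y := by linarith
  have hnrE : 1 ≤ nr E := one_le_nr E
  have hnrE0 : 0 < nr E := by linarith
  have hlE : 0 ≤ Real.log (nr E) := Real.log_nonneg hnrE
  obtain ⟨s, hs⟩ : ∃ s : ℝ, s = 1 + 1 / Real.log Y := ⟨_, rfl⟩
  have hs1 : 1 < s := by
    rw [hs]
    have : 0 < 1 / Real.log Y := by positivity
    linarith
  have hs2 : s ≤ 2 := by
    rw [hs]
    have : 1 / Real.log Y ≤ 1 := by
      rw [div_le_one hL0]
      exact hL1
    linarith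
  obtain ⟨t', ht'⟩ : ∃ t' : Pl K → ℝ, t' = fun v => if v ∈ E then 0 else t v := ⟨_, rfl⟩
  have htb : ∀ v, 0 ≤ t' v ∧ t' v ≤ A₀ := by
    intro v
    rw [ht']
    simp only
    split_ifs
    · exact ⟨le_rfl, hA⟩
    · exact ht v
  have h1 : ∑ n ∈ (GF D.toRD0 Y).filter (fun n => Disjoint n E), ∏ v ∈ n, t v ≤
      ∑ n ∈ GF D.toRD0 Y, ∏ v ∈ n, t' v := by
    have h2 : ∑ n ∈ (GF D.toRD0 Y).filter (fun n => Disjoint n E), ∏ v ∈ n, t v =
        ∑ n ∈ (GF D.toRD0 Y).filter (fun n => Disjoint n E), ∏ v ∈ n, t' v := by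
      refine Finset.sum_congr rfl fun n hn => Finset.prod_congr rfl fun v hv => ?_
      rw [ht']
      simp only
      rw [if_neg (Finset.disjoint_left.1 (Finset.mem_filter.1 hn).2 hv)]
    rw [h2]
    refine Finset.sum_le_sum_of_subset_of_nonneg (Finset.filter_subset _ _) fun n _ _ => ?_
    exact Finset.prod_nonneg fun v _ => (htb v).1
  refine h1.trans ((hhr p ζ D.toRD0 t' htb Y (by linarith)).trans ?_)
  -- the series
  obtain ⟨G, hG⟩ : ∃ G : ι → Pl K → ℝ, G = fun j v => if D.Gd v ∧ v ∉ E then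
      (ep p (fE D.toRD0 E (μ j) (κ j) v)).re * (nm v : ℝ) ^ (-s) else 0 := ⟨_, rfl⟩
  have hGs : ∀ j, Summable (G j) := by
    intro j
    rw [hG]
    exact hrc_summable D.toRD0 E (fun v => (ep p (fE D.toRD0 E (μ j) (κ j) v)).re) 1
      (fun v => ubt_re_le p _) hs1
  have hT : (∑' v : Pl K, if D.Gd v then t' v * (nm v : ℝ) ^ (-(1 + 1 / Real.log Y)) else 0) ≤
      ∑ j, cf j * ∑' v, G j v := by
    rw [← hs]
    have e1 : ∑ j, cf j * ∑' v, G j v = ∑' v, ∑ j, cf j * G j v := by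
      rw [Summable.tsum_finsetSum (fun j _ => (hGs j).mul_left (cf j))]
      exact Finset.sum_congr rfl fun j _ => tsum_mul_left.symm
    rw [e1]
    refine Summable.tsum_le_tsum (fun v => ?_) ?_
      (summable_sum fun j _ => (hGs j).mul_left (cf j))
    · rw [ht', hG]
      simp only
      have h0 : 0 ≤ (nm v : ℝ) ^ (-s) := Real.rpow_nonneg (Nat.cast_nonneg _) _
      by_cases hv : D.Gd v
      · by_cases hvE : v ∈ E
        · rw [if_pos hv, if_pos hvE, zero_mul]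
          refine (Finset.sum_eq_zero fun j _ => ?_).ge
          rw [if_neg (fun h => h.2 hvE), mul_zero]
        · rw [if_pos hv, if_neg hvE]
          refine (mul_le_mul_of_nonneg_right (htc v hv hvE) h0).trans (le_of_eq ?_)
          rw [Finset.sum_mul]
          refine Finset.sum_congr rfl fun j _ => ?_
          rw [if_pos ⟨hv, hvE⟩, mul_assoc]
      · rw [if_neg hv]
        refine (Finset.sum_eq_zero fun j _ => ?_).ge
        rw [if_neg (fun h => hv h.1), mul_zero]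
    · refine Summable.of_norm_bounded ((pz_summable K hs1).mul_left A₀) fun v => ?_
      have h0 : 0 ≤ (nm v : ℝ) ^ (-s) := Real.rpow_nonneg (Nat.cast_nonneg _) _
      split_ifs
      · rw [norm_mul, Real.norm_of_nonneg (htb v).1, Real.norm_of_nonneg h0]
        exact mul_le_mul_of_nonneg_right (htb v).2 h0
      · rw [norm_zero]
        exact mul_nonneg hA h0
  have hη' : 0 ≤ η / (Q + 1) * Real.log (nr E) + C₃ := by positivity
  have hlog : Real.log (1 / (s - 1)) = Real.log (Real.log Y) := by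
    rw [hs]
    congr 1
    rw [add_sub_cancel_left, one_div_one_div]
  have hll : 0 ≤ Real.log (Real.log Y) := Real.log_nonneg hL1
  have hG0 : ∀ j, ∑' v, G j v ≤ Real.log (Real.log Y) + |Cp| := by
    intro j
    have h2 : ∑' v, G j v ≤ PZ (Set.univ : Set (Pl K)) s := by
      rw [hG]
      exact hrc_le D.toRD0 E (fun v => (ep p (fE D.toRD0 E (μ j) (κ j) v)).re)
        (fun v => ubt_re_le p _) hs1
    have h3 := (abs_le.1 (hCp s hs1 hs2)).2
    rw [hlog] at h3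
    have h4 := le_abs_self Cp
    linarith
  obtain ⟨tr, htr⟩ : ∃ tr : Finset ι, tr =
      Finset.univ.filter (fun j => (∀ w ∈ E, μ j w = 0) ∧ κ j = 0) := ⟨_, rfl⟩
  rw [← htr] at hγ
  have hj : ∀ j, cf j * ∑' v, G j v ≤
      (if j ∈ tr then cf j * Real.log (Real.log Y) else 0) +
        (A₀ * |Cp| + A₀ * (η / (Q + 1) * Real.log (nr E) + C₃)) := by
    intro j
    have e1 : 0 ≤ A₀ * (η / (Q + 1) * Real.log (nr E) + C₃) := mul_nonneg hA hη'
    have e2 : 0 ≤ A₀ * |Cp| := mul_nonneg hA (abs_nonneg _)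
    split_ifs with h
    · have e3 := mul_le_mul_of_nonneg_left (hG0 j) (hcf j).1
      have e4 : cf j * |Cp| ≤ A₀ * |Cp| := mul_le_mul_of_nonneg_right (hcf j).2 (abs_nonneg _)
      nlinarith
    · have hne : (∃ w ∈ E, μ j w ≠ 0) ∨ κ j ≠ 0 := by
        by_contra hcon
        push Not at hcon
        apply h
        rw [htr, Finset.mem_filter]
        exact ⟨Finset.mem_univ _, hcon⟩
      have e3 : ∑' v, G j v ≤ η / (Q + 1) * Real.log (nr E) + C₃ := by
        rw [hG]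
        exact hchs E (μ j) (κ j) hE hne s hs1 hs2
      have e4 := mul_le_mul_of_nonneg_left e3 (hcf j).1
      have e5 := mul_le_mul_of_nonneg_right (hcf j).2 hη'
      linarith
  have hTb : (∑' v : Pl K, if D.Gd v then t' v * (nm v : ℝ) ^ (-(1 + 1 / Real.log Y)) else 0) ≤
      γ * Real.log (Real.log Y) + η * Real.log (nr E) + (Q * |Cp| + Q * C₃) := by
    refine hT.trans ((Finset.sum_le_sum fun j _ => hj j).trans ?_)
    rw [Finset.sum_add_distrib, Finset.sum_const, Finset.card_univ, nsmul_eq_mul,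
      ← Finset.sum_filter]
    have e1 : (Finset.univ.filter fun j => j ∈ tr) = tr := by
      ext j
      simp
    rw [e1, ← Finset.sum_mul]
    have e2 := mul_le_mul_of_nonneg_right hγ hll
    have e3 : (Fintype.card ι : ℝ) * (A₀ * |Cp| + A₀ * (η / (Q + 1) * Real.log (nr E) + C₃)) =
        Q * |Cp| + Q * (η / (Q + 1)) * Real.log (nr E) + Q * C₃ := by
      rw [hQ]
      ring
    rw [e3]
    have e4 : Q * (η / (Q + 1)) ≤ η := by
      rw [mul_div_assoc', div_le_iff₀ (by linarith)]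
      nlinarith
    have e5 := mul_le_mul_of_nonneg_right e4 hlE
    linarith
  have hexp : Real.exp (∑ v ∈ gdY D.toRD0 Y, t' v / nm v) ≤
      Real.log Y ^ γ * nr E ^ η * Real.exp C₄ := by
    have h2 := (hmer p ζ D.toRD0 t' htb Y hY).trans (add_le_add_left hTb C₂)
    have h3 : Real.log Y ^ γ * nr E ^ η * Real.exp C₄ = Real.exp
        (γ * Real.log (Real.log Y) + η * Real.log (nr E) + (Q * |Cp| + Q * C₃) + C₂) := by
      rw [Real.rpow_def_of_pos hnrE0, Real.rpow_def_of_pos hL0, mul_comm (Real.log (nr E)) η,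
        mul_comm (Real.log (Real.log Y)) γ, add_assoc _ _ C₂, Real.exp_add, Real.exp_add, hC₄]
    rw [h3]
    exact Real.exp_le_exp.2 h2
  have h5 : 0 ≤ C₁ * (Y / Real.log Y) := by positivity
  refine (mul_le_mul_of_nonneg_left hexp h5).trans (le_of_eq ?_)
  rw [Real.rpow_sub_one hL0.ne']
  field_simp

end H77.AB
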