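import Pool.Agent.H77.AB.LDat

/-!
# [H77 AB JSB] the subgroups of W stable under s, 120-180 lines (finite group theory)

`Dg : GX p d M l N₀ G` (ADat; only the fields `χs W wn wc act nm cW` are used), `Stb Dg V`: `V ≤ W` and `s V s⁻¹ ⊆ V`; `JS s V` = the subgroup generated by the `s v s⁻¹ v⁻¹`, `v ∈ V`. `W` is abelian (`wc`), `V ≤ W`.
* `jsb_mem`: the set of the `s v s⁻¹ v⁻¹` is already a subgroup: `(s a s⁻¹ a⁻¹)(s b s⁻¹ b⁻¹) = s (ab) s⁻¹ (ab)⁻¹` (elements of `V` commute), `(s a s⁻¹ a⁻¹)⁻¹ = s a⁻¹ s⁻¹ a`. (`Subgroup.closure_induction`.)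
* `jsb_stb`: `JS s V ≤ V`, and `s (s v s⁻¹ v⁻¹) s⁻¹ = s v' s⁻¹ v'⁻¹` for `v' = s v s⁻¹`.
* `jsb_conj`: `h V h⁻¹ ⊆ V` for all `h ∈ G`: by `act` it is conjugation by a power of `s`.
* `jsb_com`: for `h ∈ G`, `w ∈ V`, `k = (toAdd (χ h)).val`: `h w h⁻¹ w⁻¹ = (s w s⁻¹ w⁻¹)^k z` with `z ∈ JS s (JS s V)`. By `act`, `h w h⁻¹ = s^k w s^{-k}`; induction on `k`: `s^(k+1) w s^{-(k+1)} w⁻¹ = s^k (s w s⁻¹ w⁻¹) s^{-k} (s^k w s^{-k} w⁻¹)`, and `s^k j s^{-k} = j z'` with `z' ∈ JS s (JS s V)` for `j ∈ JS s V` (induction: `s j s⁻¹ = j (s j s⁻¹ j⁻¹)`, everything commutes).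
* `jsb_pow`: `w^p ∈ JS s V` for `w ∈ V`: `nm` says `∏_{k<p} s^k w s^{-k} = 1` (`List.range p`), and `s^k w s^{-k} = z_k w` with `z_k ∈ JS s V` (same induction), so `1 = (∏ z_k) w^p` (induction over `List.range n`: the product of the first `n` terms is `z w^n` with `z ∈ JS s V`).
* `jsb_lt`: `V ≠ ⊥` implies `#(JS s V) < #V`. Otherwise `JS s V = V` (`JS s V ≤ V`, finite), so the homomorphism `w ↦ s w s⁻¹ w⁻¹` of `V` is surjective, hence injective (`Finite.injective_iff_surjective`), so `s w s⁻¹ = w` only for `w = 1`. Let `f : V → V`, `f w = s w s⁻¹`. `f^p = id`: choose `h` with `χ h = ofAdd 1` (`χs`); `(1 : ZMod p).val = 1`, so `h w h⁻¹ = s w s⁻¹`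
for `w ∈ W` and so `h^k w h^{-k} = s^k w s^{-k}`; `χ (h^p) = 1`, `(0 : ZMod p).val = 0`, so `h^p w h^{-p} = w` by `act`. Now `Equiv.Perm.card_fixedPoints_modEq` (`f ^ p ^ 1 = 1` in `Function.End V`): `#V ≡ #fixed points = 1 (mod p)`; but `p ∣ #V` because `#V ∣ #W = p^(d+M+l)` (`cW`, `Subgroup.card_dvd_of_le`) and `#V ≠ 1` (`Nat.dvd_prime_pow`). Contradiction.
-/

set_option autoImplicit false

open scoped Classical

noncomputable section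

namespace H77.AB

theorem jsb_cm {p d M l N₀ : ℕ} {G : Type} [Group G] (Dg : GX p d M l N₀ G) (V : Subgroup G)
    (hV : Stb Dg V) {a b : G} (ha : a ∈ V) (hb : b ∈ V) : a * b = b * a :=
  Dg.wc a (hV.1 ha) b (hV.1 hb)

theorem jsb_mem {p d M l N₀ : ℕ} {G : Type} [Group G] (Dg : GX p d M l N₀ G) (V : Subgroup G)
    (hV : Stb Dg V) (w : G) : w ∈ JS Dg.s V ↔ ∃ v ∈ V, w = Dg.s * v * Dg.s⁻¹ * v⁻¹ := by
  constructor
  · intro hw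
    unfold JS at hw
    refine Subgroup.closure_induction
      (p := fun w _ => ∃ v ∈ V, w = Dg.s * v * Dg.s⁻¹ * v⁻¹) ?_ ?_ ?_ ?_ hw
    · intro x hx
      exact hx
    · exact ⟨1, V.one_mem, by group⟩
    · rintro x y _ _ ⟨a, ha, rfl⟩ ⟨b, hb, rfl⟩
      refine ⟨a * b, V.mul_mem ha hb, ?_⟩
      have h1 := jsb_cm Dg V hV (V.inv_mem ha) (V.mul_mem (hV.2 b hb) (V.inv_mem hb))
      calc Dg.s * a * Dg.s⁻¹ * a⁻¹ * (Dg.s * b * Dg.s⁻¹ * b⁻¹)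
          = Dg.s * a * Dg.s⁻¹ * (a⁻¹ * (Dg.s * b * Dg.s⁻¹ * b⁻¹)) := by group
        _ = Dg.s * a * Dg.s⁻¹ * ((Dg.s * b * Dg.s⁻¹ * b⁻¹) * a⁻¹) := by rw [h1]
        _ = Dg.s * (a * b) * Dg.s⁻¹ * (a * b)⁻¹ := by group
    · rintro x _ ⟨a, ha, rfl⟩
      refine ⟨a⁻¹, V.inv_mem ha, ?_⟩
      have h1 := jsb_cm Dg V hV ha (hV.2 a⁻¹ (V.inv_mem ha))
      calc (Dg.s * a * Dg.s⁻¹ * a⁻¹)⁻¹ = a * (Dg.s * a⁻¹ * Dg.s⁻¹) := by group
        _ = Dg.s * a⁻¹ * Dg.s⁻¹ * a := h1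
        _ = Dg.s * a⁻¹ * Dg.s⁻¹ * a⁻¹⁻¹ := by group
  · rintro ⟨v, hv, rfl⟩
    exact Subgroup.subset_closure ⟨v, hv, rfl⟩

theorem jsb_stb {p d M l N₀ : ℕ} {G : Type} [Group G] (Dg : GX p d M l N₀ G) (V : Subgroup G)
    (hV : Stb Dg V) : JS Dg.s V ≤ V ∧ Stb Dg (JS Dg.s V) := by
  have h1 : JS Dg.s V ≤ V := by
    intro w hw
    obtain ⟨v, hv, rfl⟩ := (jsb_mem Dg V hV w).1 hw
    exact V.mul_mem (hV.2 v hv) (V.inv_mem hv)
  refine ⟨h1, fun w hw => hV.1 (h1 hw), ?_⟩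
  intro w hw
  obtain ⟨v, hv, rfl⟩ := (jsb_mem Dg V hV w).1 hw
  refine (jsb_mem Dg V hV _).2 ⟨Dg.s * v * Dg.s⁻¹, hV.2 v hv, ?_⟩
  group

theorem jsb_spow {p d M l N₀ : ℕ} {G : Type} [Group G] (Dg : GX p d M l N₀ G) (V : Subgroup G)
    (hV : Stb Dg V) (w : G) (hw : w ∈ V) (k : ℕ) : Dg.s ^ k * w * (Dg.s ^ k)⁻¹ ∈ V := by
  induction k with
  | zero => simpa using hw
  | succ k ih =>
    have e : Dg.s ^ (k + 1) * w * (Dg.s ^ (k + 1))⁻¹ =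
        Dg.s * (Dg.s ^ k * w * (Dg.s ^ k)⁻¹) * Dg.s⁻¹ := by
      rw [pow_succ']
      group
    rw [e]
    exact hV.2 _ ih

theorem jsb_conj {p d M l N₀ : ℕ} {G : Type} [Group G] (Dg : GX p d M l N₀ G) (V : Subgroup G)
    (hV : Stb Dg V) (h : G) : ∀ w ∈ V, h * w * h⁻¹ ∈ V := by
  intro w hw
  rw [Dg.act h w (hV.1 hw)]
  exact jsb_spow Dg V hV w hw _

theorem jsb_z {p d M l N₀ : ℕ} {G : Type} [Group G] (Dg : GX p d M l N₀ G) (V : Subgroup G)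
    (hV : Stb Dg V) (j : G) (hj : j ∈ V) (k : ℕ) :
    ∃ z ∈ JS Dg.s V, Dg.s ^ k * j * (Dg.s ^ k)⁻¹ = j * z := by
  induction k with
  | zero => exact ⟨1, Subgroup.one_mem _, by simp⟩
  | succ k ih =>
    obtain ⟨z, hz, hzz⟩ := ih
    have hst := jsb_stb Dg V hV
    have hc : Dg.s * j * Dg.s⁻¹ * j⁻¹ ∈ JS Dg.s V := (jsb_mem Dg V hV _).2 ⟨j, hj, rfl⟩
    refine ⟨(Dg.s * j * Dg.s⁻¹ * j⁻¹) * (Dg.s * z * Dg.s⁻¹),
      Subgroup.mul_mem _ hc (hst.2.2 z hz), ?_⟩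
    have h1 := jsb_cm Dg V hV hj (hst.1 hc)
    calc Dg.s ^ (k + 1) * j * (Dg.s ^ (k + 1))⁻¹
        = Dg.s * (Dg.s ^ k * j * (Dg.s ^ k)⁻¹) * Dg.s⁻¹ := by
          rw [pow_succ']
          group
      _ = Dg.s * (j * z) * Dg.s⁻¹ := by rw [hzz]
      _ = (Dg.s * j * Dg.s⁻¹ * j⁻¹) * j * (Dg.s * z * Dg.s⁻¹) := by group
      _ = j * (Dg.s * j * Dg.s⁻¹ * j⁻¹) * (Dg.s * z * Dg.s⁻¹) := by rw [h1]
      _ = j * ((Dg.s * j * Dg.s⁻¹ * j⁻¹) * (Dg.s * z * Dg.s⁻¹)) := by rw [mul_assoc]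

theorem jsb_comk {p d M l N₀ : ℕ} {G : Type} [Group G] (Dg : GX p d M l N₀ G) (V : Subgroup G)
    (hV : Stb Dg V) (w : G) (hw : w ∈ V) (k : ℕ) : ∃ z ∈ JS Dg.s (JS Dg.s V),
      Dg.s ^ k * w * (Dg.s ^ k)⁻¹ * w⁻¹ = (Dg.s * w * Dg.s⁻¹ * w⁻¹) ^ k * z := by
  have hst := jsb_stb Dg V hV
  have hst2 := jsb_stb Dg _ hst.2
  have hc : Dg.s * w * Dg.s⁻¹ * w⁻¹ ∈ JS Dg.s V := (jsb_mem Dg V hV _).2 ⟨w, hw, rfl⟩
  induction k with
  | zero => exact ⟨1, Subgroup.one_mem _, by simp⟩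
  | succ k ih =>
    obtain ⟨z, hz, hzz⟩ := ih
    obtain ⟨z', hz', hzz'⟩ := jsb_z Dg (JS Dg.s V) hst.2 (Dg.s * w * Dg.s⁻¹ * w⁻¹) hc k
    refine ⟨z' * z, Subgroup.mul_mem _ hz' hz, ?_⟩
    have h1 := jsb_cm Dg (JS Dg.s V) hst.2 (Subgroup.pow_mem _ hc k) (hst2.1 hz')
    calc Dg.s ^ (k + 1) * w * (Dg.s ^ (k + 1))⁻¹ * w⁻¹
        = (Dg.s ^ k * (Dg.s * w * Dg.s⁻¹ * w⁻¹) * (Dg.s ^ k)⁻¹) *
          (Dg.s ^ k * w * (Dg.s ^ k)⁻¹ * w⁻¹) := by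
          rw [pow_succ]
          group
      _ = (Dg.s * w * Dg.s⁻¹ * w⁻¹) * z' * ((Dg.s * w * Dg.s⁻¹ * w⁻¹) ^ k * z) := by
          rw [hzz, hzz']
      _ = (Dg.s * w * Dg.s⁻¹ * w⁻¹) * (z' * (Dg.s * w * Dg.s⁻¹ * w⁻¹) ^ k) * z := by
          simp only [mul_assoc]
      _ = (Dg.s * w * Dg.s⁻¹ * w⁻¹) * ((Dg.s * w * Dg.s⁻¹ * w⁻¹) ^ k * z') * z := by rw [h1]
      _ = (Dg.s * w * Dg.s⁻¹ * w⁻¹) ^ (k + 1) * (z' * z) := by
          rw [pow_succ']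
          simp only [mul_assoc]

theorem jsb_com {p d M l N₀ : ℕ} {G : Type} [Group G] (Dg : GX p d M l N₀ G) (V : Subgroup G)
    (hV : Stb Dg V) (h : G) : ∀ w ∈ V, ∃ z ∈ JS Dg.s (JS Dg.s V), h * w * h⁻¹ * w⁻¹ =
      (Dg.s * w * Dg.s⁻¹ * w⁻¹) ^ (Multiplicative.toAdd (Dg.χ h)).val * z := by
  intro w hw
  obtain ⟨z, hz, hzz⟩ := jsb_comk Dg V hV w hw (Multiplicative.toAdd (Dg.χ h)).val
  refine ⟨z, hz, ?_⟩
  rw [← hzz, Dg.act h w (hV.1 hw)]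

theorem jsb_pown {p d M l N₀ : ℕ} {G : Type} [Group G] (Dg : GX p d M l N₀ G) (V : Subgroup G)
    (hV : Stb Dg V) (w : G) (hw : w ∈ V) (n : ℕ) : ∃ z ∈ JS Dg.s V,
      ((List.range n).map fun k => Dg.s ^ k * w * (Dg.s ^ k)⁻¹).prod = z * w ^ n := by
  have hst := jsb_stb Dg V hV
  induction n with
  | zero => exact ⟨1, Subgroup.one_mem _, by simp⟩
  | succ n ih =>
    obtain ⟨z, hz, hzz⟩ := ih
    obtain ⟨z', hz', hzz'⟩ := jsb_z Dg V hV w hw n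
    refine ⟨z * z', Subgroup.mul_mem _ hz hz', ?_⟩
    have h1 := jsb_cm Dg V hV (Subgroup.pow_mem _ hw (n + 1)) (hst.1 hz')
    rw [List.range_succ, List.map_append, List.prod_append, hzz]
    simp only [List.map_cons, List.map_nil, List.prod_cons, List.prod_nil, mul_one]
    rw [hzz']
    calc z * w ^ n * (w * z') = z * (w ^ (n + 1) * z') := by
          rw [pow_succ]
          simp only [mul_assoc]
      _ = z * (z' * w ^ (n + 1)) := by rw [h1]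
      _ = z * z' * w ^ (n + 1) := by simp only [mul_assoc]

theorem jsb_pow {p d M l N₀ : ℕ} {G : Type} [Group G] (Dg : GX p d M l N₀ G) (V : Subgroup G)
    (hV : Stb Dg V) : ∀ w ∈ V, w ^ p ∈ JS Dg.s V := by
  intro w hw
  obtain ⟨z, hz, hzz⟩ := jsb_pown Dg V hV w hw p
  rw [Dg.nm w (hV.1 hw)] at hzz
  have h1 : w ^ p = z⁻¹ := (inv_eq_of_mul_eq_one_right hzz.symm).symm
  rw [h1]
  exact Subgroup.inv_mem _ hz

theorem jsb_hpow {p d M l N₀ : ℕ} {G : Type} [Group G] (hp : p.Prime) (Dg : GX p d M l N₀ G)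
    (V : Subgroup G) (hV : Stb Dg V) (w : G) (hw : w ∈ V) : ∃ h : G, Dg.χ (h ^ p) = 1 ∧
      ∀ k : ℕ, Dg.s ^ k * w * (Dg.s ^ k)⁻¹ = h ^ k * w * (h ^ k)⁻¹ := by
  haveI : Fact p.Prime := ⟨hp⟩
  obtain ⟨h, hh⟩ := Dg.χs (Multiplicative.ofAdd 1)
  refine ⟨h, ?_, ?_⟩
  · rw [map_pow, hh, ← ofAdd_nsmul]
    simp
  · intro k
    induction k with
    | zero => simp
    | succ k ih =>
      have h2 : Dg.s ^ k * w * (Dg.s ^ k)⁻¹ ∈ Dg.W := hV.1 (jsb_spow Dg V hV w hw k)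
      have h3 := Dg.act h _ h2
      rw [hh, toAdd_ofAdd, ZMod.val_one, pow_one] at h3
      calc Dg.s ^ (k + 1) * w * (Dg.s ^ (k + 1))⁻¹
          = Dg.s * (Dg.s ^ k * w * (Dg.s ^ k)⁻¹) * Dg.s⁻¹ := by
            rw [pow_succ']
            group
        _ = h * (Dg.s ^ k * w * (Dg.s ^ k)⁻¹) * h⁻¹ := h3.symm
        _ = h * (h ^ k * w * (h ^ k)⁻¹) * h⁻¹ := by rw [ih]
        _ = h ^ (k + 1) * w * (h ^ (k + 1))⁻¹ := by
            rw [pow_succ']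
            group

theorem jsb_per {p d M l N₀ : ℕ} {G : Type} [Group G] (hp : p.Prime) (Dg : GX p d M l N₀ G)
    (V : Subgroup G) (hV : Stb Dg V) (w : G) (hw : w ∈ V) :
    Dg.s ^ p * w * (Dg.s ^ p)⁻¹ = w := by
  obtain ⟨h, h1, h2⟩ := jsb_hpow hp Dg V hV w hw
  rw [h2 p, Dg.act (h ^ p) w (hV.1 hw), h1]
  simp

theorem jsb_lt {p d M l N₀ : ℕ} {G : Type} [Group G] [Finite G] (hp : p.Prime)
    (Dg : GX p d M l N₀ G) (V : Subgroup G) (hV : Stb Dg V) (hne : V ≠ ⊥) :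
    Nat.card (JS Dg.s V) < Nat.card V := by
  haveI : Fact p.Prime := ⟨hp⟩
  by_contra hcon
  push Not at hcon
  have hst := jsb_stb Dg V hV
  have hJ : JS Dg.s V = V := Subgroup.eq_of_le_of_card_ge hst.1 hcon
  have hmem : ∀ w : V, Dg.s * (w : G) * Dg.s⁻¹ * (w : G)⁻¹ ∈ V := fun w =>
    V.mul_mem (hV.2 w w.2) (V.inv_mem w.2)
  have hsur : Function.Surjective
      (fun w : V => (⟨Dg.s * (w : G) * Dg.s⁻¹ * (w : G)⁻¹, hmem w⟩ : V)) := by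
    intro w
    have hw : (w : G) ∈ JS Dg.s V := by
      rw [hJ]
      exact w.2
    obtain ⟨v, hv, h⟩ := (jsb_mem Dg V hV w).1 hw
    exact ⟨⟨v, hv⟩, Subtype.ext h.symm⟩
  have hinj := Finite.injective_iff_surjective.2 hsur
  have hfix : ∀ w : V, Dg.s * (w : G) * Dg.s⁻¹ = w → w = 1 := by
    intro w hw
    apply hinj
    apply Subtype.ext
    change Dg.s * (w : G) * Dg.s⁻¹ * (w : G)⁻¹ = Dg.s * 1 * Dg.s⁻¹ * (1 : G)⁻¹
    rw [hw]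
    group
  let f : Function.End V := fun w => ⟨Dg.s * (w : G) * Dg.s⁻¹, hV.2 w w.2⟩
  have hfk : ∀ (k : ℕ) (w : V), (((f ^ k) w : V) : G) = Dg.s ^ k * (w : G) * (Dg.s ^ k)⁻¹ := by
    intro k
    induction k with
    | zero =>
      intro w
      rw [pow_zero, pow_zero]
      change (w : G) = 1 * (w : G) * 1⁻¹
      group
    | succ k ih =>
      intro w
      rw [pow_succ']
      change Dg.s * (((f ^ k) w : V) : G) * Dg.s⁻¹ = _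
      rw [ih w, pow_succ']
      group
  have hfp : f ^ p ^ 1 = 1 := by
    rw [pow_one]
    funext w
    apply Subtype.ext
    rw [hfk p w]
    exact jsb_per hp Dg V hV w w.2
  haveI : Fintype V := Fintype.ofFinite V
  have hmod := Equiv.Perm.card_fixedPoints_modEq (f := f) (p := p) (n := 1) hfp
  have hone : Fintype.card (Function.fixedPoints f) = 1 := by
    rw [Fintype.card_eq_one_iff]
    refine ⟨⟨1, ?_⟩, ?_⟩
    · apply Subtype.ext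
      change Dg.s * (1 : G) * Dg.s⁻¹ = 1
      group
    · rintro ⟨w, hw⟩
      apply Subtype.ext
      apply hfix w
      exact congrArg Subtype.val hw
  rw [hone, ← Nat.card_eq_fintype_card] at hmod
  have hd : Nat.card V ∣ p ^ (d + M + l) := by
    rw [← Dg.cW]
    exact Subgroup.card_dvd_of_le hV.1
  obtain ⟨k, -, hk⟩ := (Nat.dvd_prime_pow hp).1 hd
  rcases Nat.eq_zero_or_pos k with h0 | h0
  · rw [h0, pow_zero] at hk
    exact hne (Subgroup.card_eq_one.1 hk)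
  · have h2 : p ∣ Nat.card V := by
      rw [hk]
      exact dvd_pow_self p h0.ne'
    have h3 : Nat.card V ≡ 0 [MOD p] := (Nat.modEq_zero_iff_dvd).2 h2
    have h4 : (1 : ℕ) ≡ 0 [MOD p] := hmod.symm.trans h3
    have h5 : p ∣ 1 := (Nat.modEq_zero_iff_dvd).1 h4
    exact hp.one_lt.ne' (Nat.dvd_one.1 h5)

end H77.AB
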