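import Pool.Agent.H77.AB.JSB
import Pool.Agent.H77.AB.GV

/-!
# [H77 AB JSC] coordinates of V / JS s V, 100-160 lines (finite group theory)

`Stb Dg V` (LDat), `V₁ = JS s V`, `V₂ = JS s V₁`. `Crd V V' c` (LDat): `c : G → Fin e → ZMod p` is additive on `V`, zero exactly on `V'`, and surjective on `V`.
* `jsc1`: for `Stb Dg V` there are `e` and `c` with `Crd V (JS s V) c`, `#V = p^e #(JS s V)`.
Proof. `V` is commutative (`Dg.wc`; make it a `CommGroup` locally), `Q = V ⧸ (JS s V).subgroupOf V` is a commutative group of exponent `p` (`jsb_pow`), finite. `gv hp _ ⊤` gives `f : Q → Multiplicative (Fin d → ZMod p)`, injective (`h` is trivial on `⊤`) and surjective, `#Q = #⊤ = p^d`. `c a = toAdd (f [a])` for `a ∈ V`, `0` otherwise. `#V = #Q #V₁` (`Subgroup.card_eq_card_quotient_mul_card_subgroup`, `Subgroup.subgroupOfEquivOfLe`).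
* `jsc`: apply `jsc1` to `V` and to `V₁` (`jsb_stb`): `c`, `c₁`; `#V₂` is a power of `p` because it divides `#W = p^(d+M+l)` (`Dg.cW`, `Nat.dvd_prime_pow`). The matrix: choose `a k ∈ V` with `c (a k) = Pi.single k 1` and put `J j k = c₁ (s (a k) s⁻¹ (a k)⁻¹) j`. For `w ∈ V`: `w = (∏_k (a k)^{(c w k).val}) z`, `z ∈ V₁` (both sides have the same `c`); `v ↦ s v s⁻¹ v⁻¹` is a homomorphism on `V` (`V` commutative), it maps `V` to `V₁` and `z ∈ V₁` to `V₂`, where `c₁ = 0`,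
so `c₁ (s w s⁻¹ w⁻¹) = ∑_k (c w k) c₁ (s (a k) s⁻¹ (a k)⁻¹) = mv J (c w)` (`mv` in Pool/Agent/H38/BG/TDef.lean: `mv J x j = ∑_k J j k * x k`). Surjective: for `y` take `b ∈ V₁` with `c₁ b = y`, `b = s v s⁻¹ v⁻¹` with `v ∈ V` (`jsb_mem`), so `y = mv J (c v)`.
-/

set_option autoImplicit false

open scoped Classical

noncomputable section

namespace H77.AB

open H38.BG

theorem jsc1 {p d M l N₀ : ℕ} {G : Type} [Group G] [Finite G] (hp : p.Prime)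
    (Dg : GX p d M l N₀ G) (V : Subgroup G) (hV : Stb Dg V) :
    ∃ (e : ℕ) (c : G → Fin e → ZMod p), Nat.card V = p ^ e * Nat.card (JS Dg.s V) ∧
      Crd V (JS Dg.s V) c := by
  letI cg : CommGroup V := { (inferInstance : Group V) with
    mul_comm := fun a b => Subtype.ext (jsb_cm Dg V hV a.2 b.2) }
  have hst := jsb_stb Dg V hV
  let N : Subgroup V := (JS Dg.s V).subgroupOf V
  have hmk : ∀ a b : V, (QuotientGroup.mk a : V ⧸ N) = QuotientGroup.mk b ↔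
      (a : G)⁻¹ * (b : G) ∈ JS Dg.s V := by
    intro a b
    rw [QuotientGroup.eq]
    exact Iff.rfl
  have hQ : ∀ q : V ⧸ N, q ^ p = 1 := by
    intro q
    obtain ⟨a, rfl⟩ := QuotientGroup.mk_surjective q
    rw [← QuotientGroup.mk_pow]
    refine (QuotientGroup.eq_one_iff _).2 ?_
    exact jsb_pow Dg V hV a a.2
  obtain ⟨e, M', f, h, h1, h2, h3, h4, h5, h6⟩ := gv hp hQ (⊤ : Subgroup (V ⧸ N))
  have hQc : Nat.card (V ⧸ N) = p ^ e := by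
    rw [← h2]
    exact (Nat.card_congr Subgroup.topEquiv.toEquiv).symm
  have hNc : Nat.card N = Nat.card (JS Dg.s V) :=
    Nat.card_congr (Subgroup.subgroupOfEquivOfLe hst.1).toEquiv
  refine ⟨e, fun a => if ha : a ∈ V then
    Multiplicative.toAdd (f (QuotientGroup.mk (⟨a, ha⟩ : V))) else 0, ?_, ?_, ?_, ?_⟩
  · rw [Subgroup.card_eq_card_quotient_mul_card_subgroup N, hQc, hNc]
  · intro a ha b hb
    have hab : a * b ∈ V := V.mul_mem ha hb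
    simp only [dif_pos ha, dif_pos hb, dif_pos hab]
    have e1 : (QuotientGroup.mk (⟨a * b, hab⟩ : V) : V ⧸ N) =
        QuotientGroup.mk (⟨a, ha⟩ : V) * QuotientGroup.mk (⟨b, hb⟩ : V) := rfl
    rw [e1, map_mul, toAdd_mul]
  · intro a ha
    simp only [dif_pos ha]
    constructor
    · intro h0
      have e1 : f (QuotientGroup.mk (⟨a, ha⟩ : V)) = 1 := by
        rw [← ofAdd_toAdd (f _), h0, ofAdd_zero]
      have e2 := h3 _ e1 (h5 _ (Subgroup.mem_top _))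
      have e3 : (⟨a, ha⟩ : V) ∈ N := (QuotientGroup.eq_one_iff (⟨a, ha⟩ : V)).1 e2
      exact e3
    · intro h0
      have e2 : (QuotientGroup.mk (⟨a, ha⟩ : V) : V ⧸ N) = 1 :=
        (QuotientGroup.eq_one_iff _).2 h0
      rw [e2, map_one, toAdd_one]
  · intro x
    obtain ⟨q, -, hq⟩ := h6 (Multiplicative.ofAdd x)
    obtain ⟨a, rfl⟩ := QuotientGroup.mk_surjective q
    refine ⟨a, a.2, ?_⟩
    simp only [dif_pos a.2]
    have e1 : (⟨(a : G), a.2⟩ : V) = a := rfl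
    rw [e1, hq, toAdd_ofAdd]

theorem jsc_lin {p e e₁ : ℕ} (g : (Fin e → ZMod p) →+ (Fin e₁ → ZMod p)) :
    ∃ J : Fin e₁ → Fin e → ZMod p, ∀ x, g x = mv J x := by
  refine ⟨fun j k => g (Pi.single k 1) j, fun x => ?_⟩
  have h1 : g x = (g.toZModLinearMap p) x := rfl
  have h2 : x = ∑ k, x k • (Pi.single k (1 : ZMod p) : Fin e → ZMod p) := by
    rw [← Finset.univ_sum_single x]
    refine Finset.sum_congr rfl fun k _ => ?_
    rw [← Pi.single_smul, smul_eq_mul, mul_one, Finset.univ_sum_single]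
  rw [h1]
  conv_lhs => rw [h2]
  rw [map_sum]
  funext j
  rw [Finset.sum_apply]
  unfold mv
  refine Finset.sum_congr rfl fun k _ => ?_
  rw [map_smul, Pi.smul_apply, smul_eq_mul, mul_comm]
  rfl

theorem jsc {p d M l N₀ : ℕ} {G : Type} [Group G] [Finite G] (hp : p.Prime)
    (Dg : GX p d M l N₀ G) (V : Subgroup G) (hV : Stb Dg V) :
    ∃ (e e₁ l₁ : ℕ) (c : G → Fin e → ZMod p) (c₁ : G → Fin e₁ → ZMod p)
      (J : Fin e₁ → Fin e → ZMod p), Nat.card V = p ^ (e + (e₁ + l₁)) ∧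
      Nat.card (JS Dg.s V) = p ^ (e₁ + l₁) ∧ Nat.card (JS Dg.s (JS Dg.s V)) = p ^ l₁ ∧
      Crd V (JS Dg.s V) c ∧ Crd (JS Dg.s V) (JS Dg.s (JS Dg.s V)) c₁ ∧
      (∀ w ∈ V, c₁ (Dg.s * w * Dg.s⁻¹ * w⁻¹) = mv J (c w)) ∧ Function.Surjective (mv J) := by
  have hst := jsb_stb Dg V hV
  have hst2 := jsb_stb Dg _ hst.2
  obtain ⟨e, c, h1, hc⟩ := jsc1 hp Dg V hV
  obtain ⟨e₁, c₁, h2, hc1⟩ := jsc1 hp Dg _ hst.2
  have hd : Nat.card (JS Dg.s (JS Dg.s V)) ∣ p ^ (d + M + l) := by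
    rw [← Dg.cW]
    exact Subgroup.card_dvd_of_le hst2.2.1
  obtain ⟨l₁, -, h3⟩ := (Nat.dvd_prime_pow hp).1 hd
  have hcom : ∀ w ∈ V, Dg.s * w * Dg.s⁻¹ * w⁻¹ ∈ JS Dg.s V := fun w hw =>
    (jsb_mem Dg V hV _).2 ⟨w, hw, rfl⟩
  have hcommul : ∀ a ∈ V, ∀ b ∈ V, Dg.s * (a * b) * Dg.s⁻¹ * (a * b)⁻¹ =
      (Dg.s * a * Dg.s⁻¹ * a⁻¹) * (Dg.s * b * Dg.s⁻¹ * b⁻¹) := by
    intro a ha b hb
    have e1 := jsb_cm Dg V hV (V.inv_mem ha) (V.mul_mem (hV.2 b hb) (V.inv_mem hb))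
    symm
    calc Dg.s * a * Dg.s⁻¹ * a⁻¹ * (Dg.s * b * Dg.s⁻¹ * b⁻¹)
        = Dg.s * a * Dg.s⁻¹ * (a⁻¹ * (Dg.s * b * Dg.s⁻¹ * b⁻¹)) := by group
      _ = Dg.s * a * Dg.s⁻¹ * ((Dg.s * b * Dg.s⁻¹ * b⁻¹) * a⁻¹) := by rw [e1]
      _ = Dg.s * (a * b) * Dg.s⁻¹ * (a * b)⁻¹ := by group
  -- the additive function
  have hF : ∀ a ∈ V, ∀ b ∈ V, c₁ (Dg.s * (a * b) * Dg.s⁻¹ * (a * b)⁻¹) =
      c₁ (Dg.s * a * Dg.s⁻¹ * a⁻¹) + c₁ (Dg.s * b * Dg.s⁻¹ * b⁻¹) := by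
    intro a ha b hb
    rw [hcommul a ha b hb, hc1.1 _ (hcom a ha) _ (hcom b hb)]
  have hF0 : ∀ a ∈ JS Dg.s V, c₁ (Dg.s * a * Dg.s⁻¹ * a⁻¹) = 0 := by
    intro a ha
    refine (hc1.2.1 _ (hcom a (hst.1 ha))).2 ?_
    exact (jsb_mem Dg _ hst.2 _).2 ⟨a, ha, rfl⟩
  have hinv : ∀ a ∈ V, c a⁻¹ = - c a := by
    intro a ha
    have e0 : c 1 = 0 := (hc.2.1 1 V.one_mem).2 (Subgroup.one_mem _)
    have e1 := hc.1 a ha a⁻¹ (V.inv_mem ha)
    rw [mul_inv_cancel, e0] at e1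
    exact (neg_eq_of_add_eq_zero_right e1.symm).symm
  have hFc : ∀ a ∈ V, ∀ b ∈ V, c a = c b →
      c₁ (Dg.s * a * Dg.s⁻¹ * a⁻¹) = c₁ (Dg.s * b * Dg.s⁻¹ * b⁻¹) := by
    intro a ha b hb hab
    have e1 : c (b⁻¹ * a) = 0 := by
      rw [hc.1 _ (V.inv_mem hb) _ ha, hinv b hb, hab, neg_add_cancel]
    have e2 := (hc.2.1 _ (V.mul_mem (V.inv_mem hb) ha)).1 e1
    have e3 := hF b hb (b⁻¹ * a) (V.mul_mem (V.inv_mem hb) ha)
    rw [hF0 _ e2, add_zero, mul_inv_cancel_left] at e3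
    exact e3
  choose a haV ha using hc.2.2
  let g : (Fin e → ZMod p) →+ (Fin e₁ → ZMod p) :=
    { toFun := fun x => c₁ (Dg.s * a x * Dg.s⁻¹ * (a x)⁻¹)
      map_zero' := by
        apply hF0
        exact (hc.2.1 _ (haV 0)).1 (ha 0)
      map_add' := by
        intro x y
        rw [← hF _ (haV x) _ (haV y)]
        apply hFc _ (haV _) _ (V.mul_mem (haV x) (haV y))
        rw [ha, hc.1 _ (haV x) _ (haV y), ha, ha] }
  obtain ⟨J, hJ⟩ := jsc_lin g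
  have hg : ∀ w ∈ V, c₁ (Dg.s * w * Dg.s⁻¹ * w⁻¹) = mv J (c w) := by
    intro w hw
    rw [← hJ]
    exact hFc _ hw _ (haV _) (ha _).symm
  refine ⟨e, e₁, l₁, c, c₁, J, ?_, ?_, h3, hc, hc1, hg, ?_⟩
  · rw [h1, h2, h3, ← pow_add, ← pow_add]
  · rw [h2, h3, ← pow_add]
  · intro y
    obtain ⟨b, hb, hby⟩ := hc1.2.2 y
    obtain ⟨v, hv, rfl⟩ := (jsb_mem Dg V hV b).1 hb
    exact ⟨c v, by rw [← hg v hv, hby]⟩

end H77.AB
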