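import Pool.Agent.H77.AB.WDef

/-!
# [H77 AB KPAW] two linked large variables with arbitrary single variable weights, 250-350 lines (adaptation of `kpa2`, H63/MB/BKA, for one block)

`TW` (WDef) is small if two large variables are linked: for every `A` there are `B₁`, `X₀` with `|TW| ≤ Y / sn * (log Y)^(-A)` if `z ≥ (log Y)^{B₁}`.

Proof (copy `bka_core` and the same-block case of `kpa2` in H63/MB/BKA.lean, or `aka_core`, `kpa` in H63/MA/AKA.lean; there is only one block, `∏_a nr (g a) ≤ Y`). Let `a ≠ a' ∈ Lg`, `lk a a' ≠ 0` (`a ≠ a'`, as `lk a a = 2 θ_a · x_a = 0`). Write the sum over `g` as the sum over the other large variables (`g' : J → Finset`, `g' a = g' a' = ∅`) of the double sum over `n = g a`, `n' = g a'` (`akb_split` in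
H63/MA/AKB.lean twice). By `ph_two` (H63/MA/APh; `Adm` follows from the conditions: all sets good and pairwise disjoint) the phase of `g = update (update g' a n) a' n'` is `c₁ n + c₂ n' + e * Lf n (pf n') - dt (θ a') (x a) * ∑ eta i j qf n' i * qf n j`, `e = lk a a' ≠ 0`. Sort the pairs `(n, n')` by the classes `(qf n, qf n') = (q, q')`
(`p^{2r}` pairs): for given `(q, q')` the inner sum is a constant of absolute value `≤ 1` (the weights of the other variables, the bilinear term) times `∑_{n, n'} α n β n' ep(e Lf n (pf n'))` over `z < nr n`, `z < nr n'`, `nr n * nr n' ≤ Y / ∏_{l ≠ a, a'} nr (g' l)`, `Disjoint n n'`, where `α n = W a n * ep(c₁ n)` if `qf n = q` and `n` is disjoint from `E` and the other `g' l`, `0` otherwise; `β` in the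
same way with `W a'`. `|α|, |β| ≤ 1` because `|W| ≤ 1`. `bilH` (H63/MA/ABilB) with `Y' = Y / ∏ nr (g' l)` (`≥ 1`, otherwise there are no terms; the sets in `GF D Y` with `nr n * nr n' ≤ Y'` are in `GF D Y'`) gives `≤ C Y' z^{-δ} (1 + log Y)^{A₁}`. The sum over the other large variables of `Y'` is `≤ C₂ (Y / sn) (1 + log Y)^{A₂}` by `ks2_same` (H63/MA/AKSum, `t = 1`, `blk` the constant map to `Fin 1`,
`X = Y`). Total `≤ C' (Y / sn) z^{-δ} (1 + log Y)^{A₃}`; take `B₁ δ ≥ A₃ + A + 1` (`akb_num` in H63/MA/AKB.lean with `z₁ = 1` gives `B₁`, `X₀`).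
-/

set_option autoImplicit false

open scoped NumberField
open IsDedekindDomain
open scoped Classical

noncomputable section

namespace H77.AB

open H63.MA H38.BB

theorem kpw_core {K : Type} [Field K] [NumberField K] {p : ℕ} {ζ : K} {m t : ℕ} {J : Type}
    [Fintype J] (hp : p.Prime) (hζ : IsPrimitiveRoot ζ p) (D : RD K p ζ) (P : PD p m J)
    (blk : J → Fin t) (X z₂ : ℝ) (Y : Fin t → ℝ) (b : Fin m → Kˣ) (E : Finset (Pl K))
    (Lg : Finset J) (s : J → Finset (Pl K)) (hs : ∀ l, l ∉ Lg → ∀ v ∈ s l, D.Gd v)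
    (W : J → Finset (Pl K) → ℂ) (hW : ∀ l n, ‖W l n‖ ≤ 1) (a a' : J) (haa : a ≠ a')
    (ha : a ∈ Lg) (ha' : a' ∈ Lg) (g : J → Finset (Pl K)) (hga : g a = ∅) (hga' : g a' = ∅)
    (hgs : ∀ l, l ∉ Lg → g l = s l) (hgL : ∀ l ∈ Lg, l ≠ a → l ≠ a' → g l ∈ GF D.toRD0 X)
    (sz : Finset (Pl K) → Finset (Pl K) → Prop)
    (hsz : ∀ n n', (∀ i, bn blk i (Function.update (Function.update g a n) a' n') ≤ Y i) ↔
      sz n n') (Bd : ℝ) (hBd : 0 ≤ Bd)
    (hbil : ∀ α β : Finset (Pl K) → ℂ, (∀ n, ‖α n‖ ≤ 1) → (∀ n, ‖β n‖ ≤ 1) →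
      ‖∑ n ∈ GF D.toRD0 X, ∑ n' ∈ GF D.toRD0 X,
        if z₂ < nr n ∧ z₂ < nr n' ∧ sz n n' ∧ Disjoint n n' then
          α n * β n' * ep p (P.lk a a' * Lf D.toRD0 n (pf D.toRD0 n')) else 0‖ ≤ Bd) :
    ‖∑ n ∈ GF D.toRD0 X, ∑ n' ∈ GF D.toRD0 X,
      if Cond2 E blk Y Lg z₂ (Function.update (Function.update g a n) a' n') then
        (∏ l, W l (Function.update (Function.update g a n) a' n' l)) *
          ep p (ph D.toRD0 P b (Function.update (Function.update g a n) a' n')) else 0‖ ≤
      (p : ℝ) ^ (2 * D.r) * Bd := by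
  have hNZ : NeZero p := ⟨hp.ne_zero⟩
  have hp0 : (0 : ℝ) ≤ p := Nat.cast_nonneg p
  by_cases hex : ∃ n₀ ∈ GF D.toRD0 X, ∃ n₀' ∈ GF D.toRD0 X,
    Cond2 E blk Y Lg z₂ (Function.update (Function.update g a n₀) a' n₀')
  swap
  · have h0 : ∑ n ∈ GF D.toRD0 X, ∑ n' ∈ GF D.toRD0 X,
      (if Cond2 E blk Y Lg z₂ (Function.update (Function.update g a n) a' n') then
        (∏ l, W l (Function.update (Function.update g a n) a' n' l)) *
          ep p (ph D.toRD0 P b (Function.update (Function.update g a n) a' n')) else 0) = 0 := by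
      apply Finset.sum_eq_zero
      intro n hn
      apply Finset.sum_eq_zero
      intro n' hn'
      rw [if_neg]
      intro hc
      exact hex ⟨n, hn, n', hn', hc⟩
    rw [h0, norm_zero]
    positivity
  obtain ⟨n₀, hn₀, n₀', hn₀', ⟨c1, c2, c3⟩, c4⟩ := hex
  have u1 : ∀ n n' : Finset (Pl K), Function.update (Function.update g a n) a' n' a = n := by
    intro n n'
    rw [Function.update_of_ne haa, Function.update_self]
  have u2 : ∀ n n' : Finset (Pl K), Function.update (Function.update g a n) a' n' a' = n' := by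
    intro n n'
    rw [Function.update_self]
  have u3 : ∀ l, l ≠ a → l ≠ a' → ∀ n n' : Finset (Pl K),
      Function.update (Function.update g a n) a' n' l = g l := by
    intro l h1 h2 n n'
    rw [Function.update_of_ne h2, Function.update_of_ne h1]
  have hdis : ∀ l l', l ≠ l' → Disjoint (g l) (g l') := by
    intro l l' hll
    by_cases hl : l = a
    · rw [hl, hga]
      exact Finset.disjoint_empty_left _
    · by_cases hl2 : l = a'
      · rw [hl2, hga']
        exact Finset.disjoint_empty_left _
      · by_cases hl' : l' = a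
        · rw [hl', hga]
          exact Finset.disjoint_empty_right _
        · by_cases hl2' : l' = a'
          · rw [hl2', hga']
            exact Finset.disjoint_empty_right _
          · have := c1 l l' hll
            rwa [u3 l hl hl2, u3 l' hl' hl2'] at this
  have hGd : ∀ l, ∀ v ∈ g l, D.Gd v := by
    intro l v hv
    by_cases hl : l ∈ Lg
    · by_cases hla : l = a
      · rw [hla, hga] at hv
        exact absurd hv (Finset.notMem_empty v)
      · by_cases hla' : l = a'
        · rw [hla', hga'] at hv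
          exact absurd hv (Finset.notMem_empty v)
        · exact ((akb_mem_GF D.toRD0).1 (hgL l hl hla hla')).2 v hv
    · rw [hgs l hl] at hv
      exact hs l hl v hv
  obtain ⟨c₁, c₂, hph⟩ := ph_two hp hζ D P b g a a' haa
  have hgE : ∀ l, l ≠ a → l ≠ a' → Disjoint (g l) E := by
    intro l h1 h2
    have := c4 l
    rwa [u3 l h1 h2] at this
  obtain ⟨F, hF⟩ : ∃ F : Finset (Pl K), F = E ∪ ((Finset.univ.erase a).erase a').biUnion g :=
    ⟨_, rfl⟩
  have hdF : ∀ n : Finset (Pl K), Disjoint n F ↔
      Disjoint n E ∧ ∀ l, l ≠ a → l ≠ a' → Disjoint n (g l) := by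
    intro n
    rw [hF, Finset.disjoint_union_right, Finset.disjoint_biUnion_right]
    constructor
    · rintro ⟨h0, h1⟩
      refine ⟨h0, fun l hl hl' => ?_⟩
      exact h1 l (Finset.mem_erase.2 ⟨hl', Finset.mem_erase.2 ⟨hl, Finset.mem_univ l⟩⟩)
    · rintro ⟨h0, h1⟩
      refine ⟨h0, fun l hl => ?_⟩
      rw [Finset.mem_erase, Finset.mem_erase] at hl
      exact h1 l hl.2.1 hl.1
  have hcond : ∀ n n' : Finset (Pl K),
      Cond2 E blk Y Lg z₂ (Function.update (Function.update g a n) a' n') ↔
      ((Disjoint n F ∧ Disjoint n' F) ∧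
        (z₂ < nr n ∧ z₂ < nr n' ∧ sz n n' ∧ Disjoint n n')) := by
    intro n n'
    constructor
    · rintro ⟨⟨d1, d2, d3⟩, d4⟩
      refine ⟨⟨?_, ?_⟩, ?_, ?_, (hsz n n').1 d3, ?_⟩
      · rw [hdF]
        refine ⟨?_, fun l hl hl' => ?_⟩
        · have := d4 a
          rwa [u1] at this
        · have := d1 a l hl.symm
          rwa [u1, u3 l hl hl'] at this
      · rw [hdF]
        refine ⟨?_, fun l hl hl' => ?_⟩
        · have := d4 a'
          rwa [u2] at this
        · have := d1 a' l hl'.symm
          rwa [u2, u3 l hl hl'] at this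
      · have := d2 a ha
        rwa [u1] at this
      · have := d2 a' ha'
        rwa [u2] at this
      · have := d1 a a' haa
        rwa [u1, u2] at this
    · rintro ⟨⟨d1, d2⟩, d3, d4, d5, d6⟩
      rw [hdF] at d1 d2
      obtain ⟨e1, d1⟩ := d1
      obtain ⟨e2, d2⟩ := d2
      refine ⟨⟨?_, ?_, (hsz n n').2 d5⟩, ?_⟩
      rotate_left 2
      · intro l
        by_cases hl : l = a
        · rw [hl, u1]
          exact e1
        · by_cases hl2 : l = a'
          · rw [hl2, u2]
            exact e2
          · rw [u3 l hl hl2]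
            exact hgE l hl hl2
      · intro l l' hll
        by_cases hl : l = a
        · by_cases hl2' : l' = a'
          · rw [hl, hl2', u1, u2]
            exact d6
          · have hl' : l' ≠ a := by
              rintro rfl
              exact hll hl
            rw [hl, u1, u3 l' hl' hl2']
            exact d1 l' hl' hl2'
        · by_cases hl2 : l = a'
          · by_cases hl' : l' = a
            · rw [hl2, hl', u1, u2]
              exact d6.symm
            · have hl2' : l' ≠ a' := by
                rintro rfl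
                exact hll hl2
              rw [hl2, u2, u3 l' hl' hl2']
              exact d2 l' hl' hl2'
          · by_cases hl' : l' = a
            · rw [hl', u1, u3 l hl hl2]
              exact (d1 l hl hl2).symm
            · by_cases hl2' : l' = a'
              · rw [hl2', u2, u3 l hl hl2]
                exact (d2 l hl hl2).symm
              · rw [u3 l hl hl2, u3 l' hl' hl2']
                exact hdis l l' hll
      · intro l hl
        by_cases hla : l = a
        · rw [hla, u1]
          exact d3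
        · by_cases hla' : l = a'
          · rw [hla', u2]
            exact d4
          · have := c2 l hl
            rwa [u3 l hla hla'] at this ⊢
  obtain ⟨coef, hcoef⟩ : ∃ coef : (Fin D.r → ZMod p) × (Fin D.r → ZMod p) → ℂ, ∀ x, coef x =
      (∏ l ∈ (Finset.univ.erase a).erase a', W l (g l)) *
        ep p (-(dt (P.θ a') (P.x a) * ∑ i, ∑ j, D.eta i j * x.2 i * x.1 j)) := ⟨_, fun _ => rfl⟩
  have hcoef1 : ∀ x, ‖coef x‖ ≤ 1 := by
    intro x
    rw [hcoef, norm_mul, ep_norm, mul_one, norm_prod]
    exact Finset.prod_le_one (fun l _ => norm_nonneg _) fun l _ => hW l _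
  obtain ⟨α, hα⟩ : ∃ α : (Fin D.r → ZMod p) → Finset (Pl K) → ℂ, ∀ q n, α q n =
      if qf D.toRD0 n = q ∧ Disjoint n F then W a n * ep p (c₁ n) else 0 := ⟨_, fun _ _ => rfl⟩
  obtain ⟨β, hβ⟩ : ∃ β : (Fin D.r → ZMod p) → Finset (Pl K) → ℂ, ∀ q n, β q n =
      if qf D.toRD0 n = q ∧ Disjoint n F then W a' n * ep p (c₂ n) else 0 := ⟨_, fun _ _ => rfl⟩
  have hα1 : ∀ q n, ‖α q n‖ ≤ 1 := by
    intro q n
    rw [hα]
    split_ifs
    · rw [norm_mul, ep_norm, mul_one]
      exact hW _ _
    · rw [norm_zero]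
      exact zero_le_one
  have hβ1 : ∀ q n, ‖β q n‖ ≤ 1 := by
    intro q n
    rw [hβ]
    split_ifs
    · rw [norm_mul, ep_norm, mul_one]
      exact hW _ _
    · rw [norm_zero]
      exact zero_le_one
  obtain ⟨G, hG⟩ : ∃ G : (Fin D.r → ZMod p) × (Fin D.r → ZMod p) → Finset (Pl K) →
      Finset (Pl K) → ℂ, ∀ x n n', G x n n' =
      if z₂ < nr n ∧ z₂ < nr n' ∧ sz n n' ∧ Disjoint n n' then
        α x.1 n * β x.2 n' * ep p (P.lk a a' * Lf D.toRD0 n (pf D.toRD0 n')) else 0 :=
    ⟨_, fun _ _ _ => rfl⟩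
  have hterm : ∀ n ∈ GF D.toRD0 X, ∀ n' ∈ GF D.toRD0 X,
      (if Cond2 E blk Y Lg z₂ (Function.update (Function.update g a n) a' n') then
        (∏ l, W l (Function.update (Function.update g a n) a' n' l)) *
          ep p (ph D.toRD0 P b (Function.update (Function.update g a n) a' n')) else 0) =
      ∑ x, coef x * G x n n' := by
    intro n hn n' hn'
    have hnn := (akb_mem_GF D.toRD0).1 hn
    have hnn' := (akb_mem_GF D.toRD0).1 hn'
    by_cases hc : Cond2 E blk Y Lg z₂ (Function.update (Function.update g a n) a' n')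
    · rw [if_pos hc]
      obtain ⟨⟨d1, d2⟩, d3⟩ := (hcond n n').1 hc
      have hadm : Adm D.toRD0 (Function.update (Function.update g a n) a' n') := by
        refine ⟨?_, hc.1.1⟩
        intro l v hv
        by_cases hl : l = a
        · rw [hl, u1] at hv
          exact hnn.2 v hv
        · by_cases hl' : l = a'
          · rw [hl', u2] at hv
            exact hnn'.2 v hv
          · rw [u3 l hl hl'] at hv
            exact hGd l v hv
      rw [Finset.sum_eq_single (qf D.toRD0 n, qf D.toRD0 n')]
      · rw [hG, if_pos d3, hα, hβ, if_pos ⟨rfl, d1⟩, if_pos ⟨rfl, d2⟩, hcoef, hph n n' hadm]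
        have e1 : ∏ l, W l (Function.update (Function.update g a n) a' n' l) =
            W a n * (W a' n' * ∏ l ∈ (Finset.univ.erase a).erase a', W l (g l)) := by
          rw [← Finset.mul_prod_erase Finset.univ _ (Finset.mem_univ a), u1,
            ← Finset.mul_prod_erase (Finset.univ.erase a) _
              (Finset.mem_erase.2 ⟨haa.symm, Finset.mem_univ a'⟩), u2]
          congr 2
          refine Finset.prod_congr rfl fun l hl => ?_
          rw [Finset.mem_erase, Finset.mem_erase] at hl
          rw [u3 l hl.2.1 hl.1]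
        rw [e1, sub_eq_add_neg, ep_add hp, ep_add hp, ep_add hp]
        ring
      · intro x _ hx
        rw [hG, if_pos d3, hα, hβ]
        by_cases h1 : qf D.toRD0 n = x.1
        · by_cases h2 : qf D.toRD0 n' = x.2
          · exact absurd (Prod.ext h1.symm h2.symm) hx
          · rw [if_neg (show ¬ (qf D.toRD0 n' = x.2 ∧ Disjoint n' F) from fun h => h2 h.1)]
            ring
        · rw [if_neg (show ¬ (qf D.toRD0 n = x.1 ∧ Disjoint n F) from fun h => h1 h.1)]
          ring
      · intro hx
        exact absurd (Finset.mem_univ _) hx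
    · rw [if_neg hc]
      symm
      apply Finset.sum_eq_zero
      intro x _
      rw [hG]
      by_cases d3 : z₂ < nr n ∧ z₂ < nr n' ∧ sz n n' ∧ Disjoint n n'
      · rw [if_pos d3, hα, hβ]
        by_cases d1 : Disjoint n F
        · by_cases d2 : Disjoint n' F
          · exact absurd ((hcond n n').2 ⟨⟨d1, d2⟩, d3⟩) hc
          · rw [if_neg (show ¬ (qf D.toRD0 n' = x.2 ∧ Disjoint n' F) from fun h => d2 h.2)]
            ring
        · rw [if_neg (show ¬ (qf D.toRD0 n = x.1 ∧ Disjoint n F) from fun h => d1 h.2)]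
          ring
      · rw [if_neg d3, mul_zero]
  have hsum : ∑ n ∈ GF D.toRD0 X, ∑ n' ∈ GF D.toRD0 X,
      (if Cond2 E blk Y Lg z₂ (Function.update (Function.update g a n) a' n') then
        (∏ l, W l (Function.update (Function.update g a n) a' n' l)) *
          ep p (ph D.toRD0 P b (Function.update (Function.update g a n) a' n')) else 0) =
      ∑ x, coef x * ∑ n ∈ GF D.toRD0 X, ∑ n' ∈ GF D.toRD0 X, G x n n' := by
    have e1 : ∀ n ∈ GF D.toRD0 X, ∑ n' ∈ GF D.toRD0 X,
      (if Cond2 E blk Y Lg z₂ (Function.update (Function.update g a n) a' n') then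
        (∏ l, W l (Function.update (Function.update g a n) a' n' l)) *
          ep p (ph D.toRD0 P b (Function.update (Function.update g a n) a' n')) else 0) =
        ∑ x, coef x * ∑ n' ∈ GF D.toRD0 X, G x n n' := by
      intro n hn
      rw [Finset.sum_congr rfl (hterm n hn), Finset.sum_comm]
      apply Finset.sum_congr rfl
      intro x _
      rw [Finset.mul_sum]
    rw [Finset.sum_congr rfl e1, Finset.sum_comm]
    apply Finset.sum_congr rfl
    intro x _
    rw [Finset.mul_sum]
  rw [hsum]
  have hone : ∀ x, ‖coef x * ∑ n ∈ GF D.toRD0 X, ∑ n' ∈ GF D.toRD0 X, G x n n'‖ ≤ Bd := by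
    intro x
    have h1 := hbil (α x.1) (β x.2) (hα1 x.1) (hβ1 x.2)
    have h2 : ∑ n ∈ GF D.toRD0 X, ∑ n' ∈ GF D.toRD0 X, G x n n' =
        ∑ n ∈ GF D.toRD0 X, ∑ n' ∈ GF D.toRD0 X,
        if z₂ < nr n ∧ z₂ < nr n' ∧ sz n n' ∧ Disjoint n n' then
          α x.1 n * β x.2 n' * ep p (P.lk a a' * Lf D.toRD0 n (pf D.toRD0 n')) else 0 :=
      Finset.sum_congr rfl fun n _ => Finset.sum_congr rfl fun n' _ => hG x n n'
    rw [← h2] at h1
    rw [norm_mul]
    calc ‖coef x‖ * _ ≤ 1 * Bd := mul_le_mul (hcoef1 x) h1 (norm_nonneg _) zero_le_one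
      _ = Bd := one_mul _
  refine (norm_sum_le _ _).trans ((Finset.sum_le_sum fun x _ => hone x).trans (le_of_eq ?_))
  rw [Finset.sum_const, Finset.card_univ, Fintype.card_prod, Fintype.card_fun, ZMod.card,
    Fintype.card_fin, nsmul_eq_mul]
  push_cast
  ring

theorem kpaW {K : Type} [Field K] [NumberField K] {p : ℕ} {ζ : K} {m : ℕ} {J : Type}
    [Fintype J] (hp : p.Prime) (hζ : IsPrimitiveRoot ζ p) (D : RD K p ζ) (P : PD p m J) (A : ℝ) :
    ∃ (B₁ : ℕ) (X₀ : ℝ), 3 ≤ X₀ ∧ ∀ (Y z : ℝ), X₀ ≤ Y → Real.log Y ^ B₁ ≤ z →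
      ∀ (b : Fin m → Kˣ) (E : Finset (Pl K)) (Lg : Finset J) (s : J → Finset (Pl K)),
        (∀ l, l ∉ Lg → ∀ v ∈ s l, D.Gd v) →
      ∀ W : J → Finset (Pl K) → ℂ, (∀ a n, ‖W a n‖ ≤ 1) →
        (∃ a ∈ Lg, ∃ a' ∈ Lg, P.lk a a' ≠ 0) →
        ‖TW D.toRD0 P b E W Y z Lg s‖ ≤ Y / sn Lg s * Real.log Y ^ (-A) := by
  obtain ⟨CH, AH, δH, hCH, hAH, hδH, hδH1, hbH⟩ := bilH hp hζ D
  obtain ⟨blk, hblk⟩ : ∃ blk : J → Fin 1, blk = fun _ => 0 := ⟨_, rfl⟩
  obtain ⟨C₂, A₂, hC₂, hA₂, hks⟩ := ks2_same K blk
  obtain ⟨N, hN⟩ : ∃ N : ℝ, N = (p : ℝ) ^ (2 * D.r) := ⟨_, rfl⟩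
  have hp1 : (1 : ℝ) ≤ p := by exact_mod_cast hp.one_lt.le
  have hN1 : 1 ≤ N := by
    rw [hN]
    exact one_le_pow₀ hp1
  obtain ⟨B, X₀, hX₀, hnum⟩ := akb_num (N * CH * C₂) 0 (AH + A₂) δH A (by positivity) le_rfl
    (by positivity) hδH
  refine ⟨B, X₀, hX₀, ?_⟩
  intro X z₂ hX hB2 b E Lg s hs W hW hex
  obtain ⟨Y, hYd⟩ : ∃ Y : Fin 1 → ℝ, ∀ i, Y i = X := ⟨fun _ => X, fun _ => rfl⟩
  obtain ⟨a, ha, a', ha', hlk⟩ := hex
  have haa : a ≠ a' := by
    rintro rfl
    apply hlk
    unfold PD.lk
    rw [P.self, add_zero]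
  have hX3 : 3 ≤ X := hX₀.trans hX
  have hX1 : 1 ≤ X := by linarith
  have hY : ∀ i, 0 < Y i ∧ Y i ≤ X := fun i => by
    rw [hYd]
    exact ⟨by linarith, le_rfl⟩
  have hlX : 1 ≤ Real.log X := by
    rw [Real.le_log_iff_exp_le (by linarith)]
    linarith [Real.exp_one_lt_d9]
  have hz₂ : 1 ≤ z₂ := (one_le_pow₀ hlX).trans hB2
  have hsn : 0 < sn Lg s := by
    unfold sn
    exact Finset.prod_pos fun l _ => akb_nr_pos _
  have hPYe : ∏ i, Y i = X := by
    rw [Fin.prod_univ_one, hYd]
  have hPY : 0 < ∏ i, Y i := Finset.prod_pos fun i _ => (hY i).1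
  have hq0 : 0 ≤ (∏ i, Y i) / sn Lg s := div_nonneg hPY.le hsn.le
  have n1 := hnum X 1 z₂ hX le_rfl (by rw [one_pow]; exact hz₂) hB2
  rw [Real.rpow_zero, mul_one] at n1
  have hL0 : 0 < 1 + Real.log X := by linarith
  have hbnall : ∀ g : J → Finset (Pl K), bn blk 0 g = ∏ l, nr (g l) := by
    intro g
    unfold bn
    refine Finset.prod_congr ?_ fun _ _ => rfl
    rw [Finset.filter_true_of_mem]
    intro l _
    rw [hblk]
  have hcd : ∀ g : J → Finset (Pl K), (Dj g ∧ (∀ l, Disjoint (g l) E) ∧
      (∀ l ∈ Lg, z₂ < nr (g l)) ∧ ∏ l, nr (g l) ≤ X) ↔ Cond2 E blk Y Lg z₂ g := by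
    intro g
    constructor
    · rintro ⟨h1, h2, h3, h4⟩
      refine ⟨⟨h1, h3, fun i => ?_⟩, h2⟩
      have hi : i = 0 := Subsingleton.elim _ _
      rw [hi]
      change bn blk 0 g ≤ Y 0
      rw [hbnall, hYd]
      exact h4
    · rintro ⟨⟨h1, h3, h4⟩, h2⟩
      refine ⟨h1, h2, h3, ?_⟩
      rw [← hbnall, ← hYd 0]
      exact h4 0
  rw [show X / sn Lg s = (∏ i, Y i) / sn Lg s by rw [hPYe]]
  -- splitting
  obtain ⟨tt, htt⟩ : ∃ tt : J → Finset (Finset (Pl K)), tt = fun l =>
      if l ∈ Lg then GF D.toRD0 X else {s l} := ⟨_, rfl⟩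
  have htta : tt a = GF D.toRD0 X := by
    rw [htt]
    exact if_pos ha
  have htta' : tt a' = GF D.toRD0 X := by
    rw [htt]
    exact if_pos ha'
  obtain ⟨S, hS⟩ : ∃ S : (J → Finset (Pl K)) → ℂ, ∀ g, S g =
      ∑ n ∈ GF D.toRD0 X, ∑ n' ∈ GF D.toRD0 X,
      if Cond2 E blk Y Lg z₂ (Function.update (Function.update g a n) a' n') then
        (∏ l, W l (Function.update (Function.update g a n) a' n' l)) *
          ep p (ph D.toRD0 P b (Function.update (Function.update g a n) a' n')) else 0 :=
    ⟨_, fun _ => rfl⟩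
  have hTT : TW D.toRD0 P b E W X z₂ Lg s =
      ∑ g ∈ Fintype.piFinset (Function.update (Function.update tt a' {∅}) a {∅}), S g := by
    have e1 := akb_split tt a' ∅ (fun g => if Cond2 E blk Y Lg z₂ g then
      (∏ l, W l (g l)) * ep p (ph D.toRD0 P b g) else 0)
    have e2 := akb_split (Function.update tt a' {∅}) a ∅ (fun g => ∑ n' ∈ tt a',
      if Cond2 E blk Y Lg z₂ (Function.update g a' n') then
      (∏ l, W l (Function.update g a' n' l)) *
        ep p (ph D.toRD0 P b (Function.update g a' n')) else 0)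
    rw [Function.update_of_ne haa, htta] at e2
    have e3 : TW D.toRD0 P b E W X z₂ Lg s = ∑ g ∈ Fintype.piFinset tt,
        (if Cond2 E blk Y Lg z₂ g then
          (∏ l, W l (g l)) * ep p (ph D.toRD0 P b g) else 0) := by
      rw [htt]
      unfold TW
      refine Finset.sum_congr rfl fun g _ => ?_
      by_cases hc : Cond2 E blk Y Lg z₂ g
      · rw [if_pos hc, if_pos ((hcd g).2 hc)]
      · rw [if_neg hc, if_neg (fun h0 => hc ((hcd g).1 h0))]
    rw [e3, e1, e2]
    apply Finset.sum_congr rfl
    intro g _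
    rw [hS, htta']
  have hmem : ∀ g ∈ Fintype.piFinset (Function.update (Function.update tt a' {∅}) a {∅}),
      g a = ∅ ∧ g a' = ∅ ∧ (∀ l, l ∉ Lg → g l = s l) ∧
      ∀ l ∈ Lg, l ≠ a → l ≠ a' → g l ∈ GF D.toRD0 X := by
    intro g hg
    rw [Fintype.mem_piFinset] at hg
    refine ⟨?_, ?_, ?_, ?_⟩
    · have := hg a
      rwa [Function.update_self, Finset.mem_singleton] at this
    · have := hg a'
      rwa [Function.update_of_ne haa.symm, Function.update_self, Finset.mem_singleton] at this
    · intro l hl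
      have hla : l ≠ a := by
        rintro rfl
        exact hl ha
      have hla' : l ≠ a' := by
        rintro rfl
        exact hl ha'
      have := hg l
      rw [Function.update_of_ne hla, Function.update_of_ne hla', htt] at this
      change g l ∈ (if l ∈ Lg then GF D.toRD0 X else {s l}) at this
      rwa [if_neg hl, Finset.mem_singleton] at this
    · intro l hl hla hla'
      have := hg l
      rw [Function.update_of_ne hla, Function.update_of_ne hla', htt] at this
      change g l ∈ (if l ∈ Lg then GF D.toRD0 X else {s l}) at this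
      rwa [if_pos hl] at this
  have hsub : Fintype.piFinset (Function.update (Function.update tt a' {∅}) a {∅}) ⊆
      fam K X Lg ((Lg.erase a).erase a') s := by
    intro g hg
    obtain ⟨g1, g1', g2, g3⟩ := hmem g hg
    unfold fam
    rw [Fintype.mem_piFinset]
    intro l
    by_cases hl : l ∈ Lg
    · by_cases hla : l = a
      · have h3 : l ∉ (Lg.erase a).erase a' := by
          intro h4
          rw [Finset.mem_erase, Finset.mem_erase] at h4
          exact h4.2.1 hla
        rw [if_neg h3, if_pos hl, Finset.mem_singleton, hla]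
        exact g1
      · by_cases hla' : l = a'
        · have h3 : l ∉ (Lg.erase a).erase a' := by
            intro h4
            rw [Finset.mem_erase] at h4
            exact h4.1 hla'
          rw [if_neg h3, if_pos hl, Finset.mem_singleton, hla']
          exact g1'
        · have h3 : l ∈ (Lg.erase a).erase a' := by
            rw [Finset.mem_erase, Finset.mem_erase]
            exact ⟨hla', hla, hl⟩
          rw [if_pos h3, mem_AF]
          exact ((akb_mem_GF D.toRD0).1 (g3 l hl hla hla')).1
    · have h3 : l ∉ (Lg.erase a).erase a' := by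
        intro h4
        rw [Finset.mem_erase, Finset.mem_erase] at h4
        exact hl h4.2.2
      rw [if_neg h3, if_neg hl, Finset.mem_singleton]
      exact g2 l hl
  -- sum of the estimates
  have hfin : ∀ (c₀ : ℝ) (w : (J → Finset (Pl K)) → ℝ), 0 ≤ c₀ → (∀ g, 0 ≤ w g) →
      (∀ g : J → Finset (Pl K), g a = ∅ → g a' = ∅ → (∀ l, l ∉ Lg → g l = s l) →
        (∀ l ∈ Lg, l ≠ a → l ≠ a' → g l ∈ GF D.toRD0 X) → (∀ i, bn blk i g ≤ Y i) →
        ‖S g‖ ≤ c₀ * w g) →
      ‖TW D.toRD0 P b E W X z₂ Lg s‖ ≤ c₀ *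
        ∑ g ∈ (fam K X Lg ((Lg.erase a).erase a') s).filter (fun g => ∀ i, bn blk i g ≤ Y i),
          w g := by
    intro c₀ w hc₀ hw hSw
    obtain ⟨Bd, hBd⟩ : ∃ Bd : (J → Finset (Pl K)) → ℝ, ∀ g, Bd g =
        (if ∀ i, bn blk i g ≤ Y i then w g else 0) := ⟨_, fun _ => rfl⟩
    have hBd0 : ∀ g, 0 ≤ Bd g := by
      intro g
      rw [hBd]
      split_ifs
      · exact hw g
      · exact le_rfl
    rw [hTT]
    calc ‖∑ g ∈ Fintype.piFinset (Function.update (Function.update tt a' {∅}) a {∅}), S g‖
        ≤ ∑ g ∈ Fintype.piFinset (Function.update (Function.update tt a' {∅}) a {∅}),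
          c₀ * Bd g := by
          refine (norm_sum_le _ _).trans (Finset.sum_le_sum fun g hg => ?_)
          obtain ⟨g1, g1', g2, g3⟩ := hmem g hg
          by_cases hbn : ∀ i, bn blk i g ≤ Y i
          · rw [hBd, if_pos hbn]
            exact hSw g g1 g1' g2 g3 hbn
          · have h0 : S g = 0 := by
              rw [hS]
              apply Finset.sum_eq_zero
              intro n _
              apply Finset.sum_eq_zero
              intro n' _
              rw [if_neg]
              intro hc
              apply hbn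
              intro i
              have h1 : bn blk i (Function.update (Function.update g a n) a' n') ≤ Y i := hc.1.2.2 i
              refine le_trans ?_ h1
              unfold bn
              apply Finset.prod_le_prod
              · intro l _
                exact (akb_nr_pos _).le
              · intro l _
                by_cases hl' : l = a'
                · rw [hl', g1', Function.update_self]
                  exact nr_mono (Finset.empty_subset _)
                · rw [Function.update_of_ne hl']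
                  by_cases hl : l = a
                  · rw [hl, g1, Function.update_self]
                    exact nr_mono (Finset.empty_subset _)
                  · rw [Function.update_of_ne hl]
            rw [h0, norm_zero]
            exact mul_nonneg hc₀ (hBd0 g)
      _ ≤ ∑ g ∈ fam K X Lg ((Lg.erase a).erase a') s, c₀ * Bd g :=
          Finset.sum_le_sum_of_subset_of_nonneg hsub fun g _ _ => mul_nonneg hc₀ (hBd0 g)
      _ = _ := by
          rw [← Finset.mul_sum, Finset.sum_filter]
          congr 1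
          exact Finset.sum_congr rfl fun g _ => hBd g
  have hbn0 : ∀ i (g : J → Finset (Pl K)), 0 < bn blk i g := fun i g =>
    lt_of_lt_of_le one_pos (akb_one_le_bn blk i g)
  have hGFsub : ∀ y : ℝ, y ≤ X → GF D.toRD0 y ⊆ GF D.toRD0 X := by
    intro y hy n hn
    rw [akb_mem_GF] at hn ⊢
    exact ⟨hn.1.trans hy, hn.2⟩
  have hbb : blk a = blk a' := Subsingleton.elim _ _
  have h1 := hfin (N * (CH * z₂ ^ (-δH) * (1 + Real.log X) ^ AH))
    (fun g => Y (blk a) / bn blk (blk a) g) (by positivity)
    (fun g => div_nonneg (hY _).1.le (hbn0 _ _).le) (by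
      intro g g1 g1' g2 g3 hbn
      obtain ⟨y, hy⟩ : ∃ y, y = Y (blk a) / bn blk (blk a) g := ⟨_, rfl⟩
      have hy1 : 1 ≤ y := by
        rw [hy, le_div_iff₀ (hbn0 _ _), one_mul]
        exact hbn _
      have hyX : y ≤ X := by
        rw [hy]
        exact (div_le_self (hY _).1.le (akb_one_le_bn blk _ g)).trans (hY _).2
      have hly : Real.log y ≤ Real.log X := Real.log_le_log (by linarith) hyX
      have hly0 : 0 ≤ Real.log y := Real.log_nonneg hy1
      show ‖S g‖ ≤ N * (CH * z₂ ^ (-δH) * (1 + Real.log X) ^ AH) *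
        (Y (blk a) / bn blk (blk a) g)
      rw [← hy]
      have hcore := kpw_core hp hζ D P blk X z₂ Y b E Lg s hs W hW a a'
        haa ha ha' g g1 g1' g2 g3 (fun n n' => nr n * nr n' ≤ y) (by
          intro n n'
          have e1 : bn blk (blk a) (Function.update (Function.update g a n) a' n') =
              nr n * nr n' * bn blk (blk a) g := by
            have e2 := akb_bn_same blk a' (Function.update g a n)
              (by rw [Function.update_of_ne haa.symm, g1']) n'
            rw [← hbb, akb_bn_same blk a g g1] at e2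
            rw [e2]
            ring
          constructor
          · intro h2
            have h3 := h2 (blk a)
            rw [e1] at h3
            rw [hy, le_div_iff₀ (hbn0 _ _)]
            exact h3
          · intro h2 i
            by_cases hi : i = blk a
            · rw [hi, e1]
              rw [hy, le_div_iff₀ (hbn0 _ _)] at h2
              exact h2
            · rw [akb_bn_ne blk a' i (by rw [← hbb]; exact hi), akb_bn_ne blk a i hi]
              exact hbn i) (CH * y * z₂ ^ (-δH) * (1 + Real.log X) ^ AH) (by positivity) (by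
          intro α β hα hβ
          have h2 := hbH (P.lk a a') hlk α β hα hβ y z₂ hy1 hz₂
          have h3 : ∑ n ∈ GF D.toRD0 X, ∑ n' ∈ GF D.toRD0 X,
              (if z₂ < nr n ∧ z₂ < nr n' ∧ nr n * nr n' ≤ y ∧ Disjoint n n' then
              α n * β n' * ep p (P.lk a a' * Lf D.toRD0 n (pf D.toRD0 n')) else 0) =
              ∑ n ∈ GF D.toRD0 y, ∑ n' ∈ GF D.toRD0 y,
              (if z₂ < nr n ∧ z₂ < nr n' ∧ nr n * nr n' ≤ y ∧ Disjoint n n' then
              α n * β n' * ep p (P.lk a a' * Lf D.toRD0 n (pf D.toRD0 n')) else 0) := by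
            symm
            have e1 : ∀ n : Finset (Pl K), ∑ n' ∈ GF D.toRD0 y,
              (if z₂ < nr n ∧ z₂ < nr n' ∧ nr n * nr n' ≤ y ∧ Disjoint n n' then
              α n * β n' * ep p (P.lk a a' * Lf D.toRD0 n (pf D.toRD0 n')) else 0) =
              ∑ n' ∈ GF D.toRD0 X,
              (if z₂ < nr n ∧ z₂ < nr n' ∧ nr n * nr n' ≤ y ∧ Disjoint n n' then
              α n * β n' * ep p (P.lk a a' * Lf D.toRD0 n (pf D.toRD0 n')) else 0) := by
              intro n
              apply Finset.sum_subset (hGFsub y hyX)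
              intro n' hn' hn'2
              rw [if_neg]
              rintro ⟨_, _, h5, _⟩
              apply hn'2
              rw [akb_mem_GF] at hn' ⊢
              refine ⟨?_, hn'.2⟩
              have := one_le_nr n
              have := one_le_nr n'
              nlinarith
            rw [Finset.sum_congr rfl fun n _ => e1 n]
            apply Finset.sum_subset (hGFsub y hyX)
            intro n hn hn2
            apply Finset.sum_eq_zero
            intro n' _
            rw [if_neg]
            rintro ⟨_, _, h5, _⟩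
            apply hn2
            rw [akb_mem_GF] at hn ⊢
            refine ⟨?_, hn.2⟩
            have := one_le_nr n
            have := one_le_nr n'
            nlinarith
          rw [h3]
          refine h2.trans ?_
          have h4 : (1 + Real.log y) ^ AH ≤ (1 + Real.log X) ^ AH :=
            Real.rpow_le_rpow (by linarith) (by linarith) hAH
          gcongr)
      rw [hS]
      refine hcore.trans (le_of_eq ?_)
      rw [hN]
      ring)
  have h2 := hks Lg s Y X hX1 hY a ha a' ha' haa hbb
  refine h1.trans ?_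
  have h3 : 0 ≤ N * (CH * z₂ ^ (-δH) * (1 + Real.log X) ^ AH) := by positivity
  refine (mul_le_mul_of_nonneg_left h2 h3).trans ?_
  have h4 : (1 + Real.log X) ^ (AH + A₂) = (1 + Real.log X) ^ AH * (1 + Real.log X) ^ A₂ :=
    Real.rpow_add hL0 _ _
  rw [h4] at n1
  calc N * (CH * z₂ ^ (-δH) * (1 + Real.log X) ^ AH) *
        (C₂ * (∏ i, Y i) / sn Lg s * (1 + Real.log X) ^ A₂)
      = (∏ i, Y i) / sn Lg s * (N * CH * C₂ * z₂ ^ (-δH) *
        ((1 + Real.log X) ^ AH * (1 + Real.log X) ^ A₂)) := by ring
    _ ≤ _ := mul_le_mul_of_nonneg_left n1 hq0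

end H77.AB
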