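import Pool.Agent.H77.AB.LDat

/-!
# [H77 AB LEXA] the refined families, 120-180 lines (finite sets)

`X : XC p d N₀`, `f : Fin N₀ → Finset (Pl K)` pairwise disjoint (`Dj f`), labels `η : Pl K → F_p^l`, copies `κ : Pl K → Fin (p^M)`; `F = rf X l M f η κ` (LDat): `F k = {v ∈ f i : η v = e, κ v = c}` if `eX k = inl (i, e, c)`, `F k = f i` if `eX k = inr i`. `eX : Fin NX ≃ IX` is a bijection. Every `v ∈ f i` is in `F k` for exactly one `k` over `i` (`bse (eX k) = i`): `k = eX⁻¹ (inl (i, η v, κ v))` for `i ∈ isx`, `k = eX⁻¹ (inr i)` otherwise.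
* `lexa_un`: `unC (fun k => bse X (eX X l M k)) F = f` (`unC`: WDef).
* `lexa_dj`: `Dj F` (`Dj` : pairwise disjoint, file MA). `lexa_sub`: `F k ⊆ f (bse (eX k))`.
* `lexa_sum`: `∑_k ∑_{v ∈ F k} h k v = ∑_i ∑_{v ∈ f i} h (k(i, v)) v`, used in the form `lexa_prod`: for a commutative monoid valued `h` with `h k v = h' v` whenever `v ∈ F k`, `bse (eX k) = i`: `∏_k ∏_{v ∈ F k} h k v = ∏_i ∏_{v ∈ f i} h' i v` (`Finset.prod_biUnion`/`Finset.prod_fiberwise`: for fixed `i`, `f i` is the disjoint union of the `F k` with `bse (eX k) = i`).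
* `lexa_nr`: `∏_k nr (F k) = ∏_i nr (f i)` (`nr n = ∏_{v ∈ n} nm v`).
* `lexa_ak0`: `akR D (cX X l M) b' F 0 = b' 0 * ∏_i ∏_{w ∈ f i} pi w ^ (if i ∈ isx then a i else 0).val` (`(cX X l M).x k = vX X (eX k)`, `vX (inl (i, e, c)) = xv (a i) (t i) e`, `vX (inr i) = xv 0 (t i) 0`, `xv a b e 0 = a`: `Fin.cons_zero`).
* `lexa_ak1`: the coordinate `(Fin.castAdd l k).succ`, `k < d`: exponent `t i k` (`Fin.cons_succ`, `Fin.append_left`).
* `lexa_ak2`: the coordinate `(Fin.natAdd d j).succ`, `j < l`: exponent `(η w j).val` for `w ∈ f i`, `i ∈ isx`, and `0` for the others (`Fin.append_right`): `= b' _ * ∏_{w ∈ isx.biUnion f} pi w ^ (η w j).val` (`Finset.prod_biUnion` with `Dj f`).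
* `lexa_inj`: `F` determines `η v`, `κ v` for `v ∈ f i`, `i ∈ isx`.
-/

set_option autoImplicit false

open scoped NumberField
open IsDedekindDomain
open scoped Classical

noncomputable section

namespace H77.AB

open H63.MA H38.BB H38.BG H63.BU

variable {K : Type} [Field K] [NumberField K] {p : ℕ} [NeZero p] {ζ : K} {d N₀ : ℕ}

/-- the refined class of `v ∈ f i` -/
def lexaKey (X : XC p d N₀) {l M : ℕ} (η : Pl K → Fin l → ZMod p) (κ : Pl K → Fin (p ^ M))
    (i : Fin N₀) (v : Pl K) : IX X l M :=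
  if h : i ∈ X.isx then Sum.inl (⟨i, h⟩, η v, κ v) else Sum.inr ⟨i, h⟩

omit [NumberField K] [NeZero p] in
theorem lexa_key_pos [NumberField K] (X : XC p d N₀) {l M : ℕ} (η : Pl K → Fin l → ZMod p)
    (κ : Pl K → Fin (p ^ M)) (i : Fin N₀) (v : Pl K) (h : i ∈ X.isx) :
    lexaKey X η κ i v = Sum.inl (⟨i, h⟩, η v, κ v) := dif_pos h

omit [NumberField K] [NeZero p] in
theorem lexa_key_neg [NumberField K] (X : XC p d N₀) {l M : ℕ} (η : Pl K → Fin l → ZMod p)
    (κ : Pl K → Fin (p ^ M)) (i : Fin N₀) (v : Pl K) (h : i ∉ X.isx) :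
    lexaKey X η κ i v = Sum.inr ⟨i, h⟩ := dif_neg h

omit [NumberField K] [NeZero p] in
theorem lexa_key_bse [NumberField K] (X : XC p d N₀) {l M : ℕ} (η : Pl K → Fin l → ZMod p)
    (κ : Pl K → Fin (p ^ M)) (i : Fin N₀) (v : Pl K) : bse X (lexaKey X η κ i v) = i := by
  by_cases h : i ∈ X.isx
  · rw [lexa_key_pos X η κ i v h]
    rfl
  · rw [lexa_key_neg X η κ i v h]
    rfl

theorem lexa_mem (X : XC p d N₀) (l M : ℕ) (f : Fin N₀ → Finset (Pl K))
    (η : Pl K → Fin l → ZMod p) (κ : Pl K → Fin (p ^ M)) (k : Fin (NX X l M)) (v : Pl K) :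
    v ∈ rf X l M f η κ k ↔ v ∈ f (bse X (eX X l M k)) ∧
      eX X l M k = lexaKey X η κ (bse X (eX X l M k)) v := by
  unfold rf
  generalize eX X l M k = e
  rcases e with q | i
  · rw [lexa_key_pos X η κ (bse X (Sum.inl q)) v q.1.2]
    change v ∈ (f q.1.1).filter _ ↔ v ∈ f q.1.1 ∧ _
    rw [Finset.mem_filter]
    refine and_congr_right fun _ => ?_
    constructor
    · rintro ⟨h1, h2⟩
      have h3 : q = (q.1, η v, κ v) := by rw [h1, h2]
      exact congrArg Sum.inl h3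
    · intro h
      have h3 : q = (q.1, η v, κ v) := Sum.inl_injective h
      exact ⟨(congrArg (fun z => z.2.1) h3).symm, (congrArg (fun z => z.2.2) h3).symm⟩
  · rw [lexa_key_neg X η κ (bse X (Sum.inr i)) v i.2]
    change v ∈ f i.1 ↔ v ∈ f i.1 ∧ _
    exact ⟨fun h => ⟨h, rfl⟩, fun h => h.1⟩

theorem lexa_key_mem (X : XC p d N₀) (l M : ℕ) (f : Fin N₀ → Finset (Pl K))
    (η : Pl K → Fin l → ZMod p) (κ : Pl K → Fin (p ^ M)) (i : Fin N₀) (v : Pl K)
    (hv : v ∈ f i) : v ∈ rf X l M f η κ ((eX X l M).symm (lexaKey X η κ i v)) := by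
  rw [lexa_mem, Equiv.apply_symm_apply, lexa_key_bse]
  exact ⟨hv, rfl⟩

omit [NeZero p] in
theorem lexa_unmem {ι κ : Type} [Fintype ι] (cl : ι → κ) (g : ι → Finset (Pl K)) (i : κ)
    (v : Pl K) : v ∈ unC cl g i ↔ ∃ a, cl a = i ∧ v ∈ g a := by
  unfold unC
  simp only [Finset.mem_biUnion, Finset.mem_filter, Finset.mem_univ, true_and]

theorem lexa_un (X : XC p d N₀) (l M : ℕ) (f : Fin N₀ → Finset (Pl K))
    (η : Pl K → Fin l → ZMod p) (κ : Pl K → Fin (p ^ M)) :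
    unC (fun k => bse X (eX X l M k)) (rf X l M f η κ) = f := by
  funext i
  ext v
  rw [lexa_unmem]
  constructor
  · rintro ⟨k, hk, hv⟩
    have h1 := ((lexa_mem X l M f η κ k v).1 hv).1
    have h2 : bse X (eX X l M k) = i := hk
    rwa [h2] at h1
  · intro hv
    refine ⟨(eX X l M).symm (lexaKey X η κ i v), ?_, lexa_key_mem X l M f η κ i v hv⟩
    change bse X (eX X l M ((eX X l M).symm (lexaKey X η κ i v))) = i
    rw [Equiv.apply_symm_apply]
    exact lexa_key_bse X η κ i v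

theorem lexa_sub (X : XC p d N₀) (l M : ℕ) (f : Fin N₀ → Finset (Pl K))
    (η : Pl K → Fin l → ZMod p) (κ : Pl K → Fin (p ^ M)) (k : Fin (NX X l M)) :
    rf X l M f η κ k ⊆ f (bse X (eX X l M k)) := fun v hv =>
  ((lexa_mem X l M f η κ k v).1 hv).1

theorem lexa_dj (X : XC p d N₀) (l M : ℕ) (f : Fin N₀ → Finset (Pl K)) (hf : Dj f)
    (η : Pl K → Fin l → ZMod p) (κ : Pl K → Fin (p ^ M)) : Dj (rf X l M f η κ) := by
  intro k k' hkk
  rw [Finset.disjoint_left]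
  intro v hv hv'
  obtain ⟨h1, h2⟩ := (lexa_mem X l M f η κ k v).1 hv
  obtain ⟨h3, h4⟩ := (lexa_mem X l M f η κ k' v).1 hv'
  by_cases hb : bse X (eX X l M k) = bse X (eX X l M k')
  · rw [hb] at h2
    exact hkk ((eX X l M).injective (h2.trans h4.symm))
  · exact Finset.disjoint_left.1 (hf _ _ hb) h1 h3

theorem lexa_prod {R : Type} [CommMonoid R] (X : XC p d N₀) (l M : ℕ)
    (f : Fin N₀ → Finset (Pl K)) (η : Pl K → Fin l → ZMod p) (κ : Pl K → Fin (p ^ M))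
    (h : Fin (NX X l M) → Pl K → R) (h' : Fin N₀ → Pl K → R)
    (hh : ∀ k, ∀ v ∈ rf X l M f η κ k, h k v = h' (bse X (eX X l M k)) v) :
    ∏ k, ∏ v ∈ rf X l M f η κ k, h k v = ∏ i, ∏ v ∈ f i, h' i v := by
  rw [Finset.prod_sigma', Finset.prod_sigma']
  refine Finset.prod_nbij'
    (fun x : (_ : Fin (NX X l M)) × Pl K => (⟨bse X (eX X l M x.1), x.2⟩ : (_ : Fin N₀) × Pl K))
    (fun y : (_ : Fin N₀) × Pl K => (⟨(eX X l M).symm (lexaKey X η κ y.1 y.2), y.2⟩ :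
      (_ : Fin (NX X l M)) × Pl K)) ?_ ?_ ?_ ?_ ?_
  · rintro ⟨k, v⟩ hx
    rw [Finset.mem_sigma] at hx ⊢
    exact ⟨Finset.mem_univ _, lexa_sub X l M f η κ k hx.2⟩
  · rintro ⟨i, v⟩ hx
    rw [Finset.mem_sigma] at hx ⊢
    exact ⟨Finset.mem_univ _, lexa_key_mem X l M f η κ i v hx.2⟩
  · rintro ⟨k, v⟩ hx
    rw [Finset.mem_sigma] at hx
    have h1 := ((lexa_mem X l M f η κ k v).1 hx.2).2
    change (⟨(eX X l M).symm (lexaKey X η κ (bse X (eX X l M k)) v), v⟩ :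
      (_ : Fin (NX X l M)) × Pl K) = ⟨k, v⟩
    rw [← h1, Equiv.symm_apply_apply]
  · rintro ⟨i, v⟩ hx
    change (⟨bse X (eX X l M ((eX X l M).symm (lexaKey X η κ i v))), v⟩ :
      (_ : Fin N₀) × Pl K) = ⟨i, v⟩
    rw [Equiv.apply_symm_apply, lexa_key_bse]
  · rintro ⟨k, v⟩ hx
    rw [Finset.mem_sigma] at hx
    exact hh k v hx.2

theorem lexa_nr (X : XC p d N₀) (l M : ℕ) (f : Fin N₀ → Finset (Pl K))
    (η : Pl K → Fin l → ZMod p) (κ : Pl K → Fin (p ^ M)) :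
    ∏ k, nr (rf X l M f η κ k) = ∏ i, nr (f i) := by
  unfold nr
  exact lexa_prod X l M f η κ (fun _ v => (nm v : ℝ)) (fun _ v => (nm v : ℝ))
    fun _ _ _ => rfl

omit [NeZero p] in
theorem lexa_v0 (X : XC p d N₀) {l M : ℕ} (e : IX X l M) :
    vX X e 0 = if bse X e ∈ X.isx then X.a (bse X e) else 0 := by
  rcases e with q | i
  · exact (if_pos (show bse X (Sum.inl q : IX X l M) ∈ X.isx from q.1.2)).symm
  · exact (if_neg (show bse X (Sum.inr i : IX X l M) ∉ X.isx from i.2)).symm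

omit [NeZero p] in
theorem lexa_v1 (X : XC p d N₀) {l M : ℕ} (e : IX X l M) (k : Fin d) :
    vX X e (Fin.castAdd l k).succ = X.t (bse X e) k := by
  rcases e with q | i
  · change (Fin.cons (X.a q.1.1) (Fin.append (X.t q.1.1) q.2.1) : Fin (d + l + 1) → ZMod p)
      (Fin.castAdd l k).succ = _
    rw [Fin.cons_succ, Fin.append_left]
    rfl
  · change (Fin.cons 0 (Fin.append (X.t i.1) 0) : Fin (d + l + 1) → ZMod p)
      (Fin.castAdd l k).succ = _
    rw [Fin.cons_succ, Fin.append_left]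
    rfl

omit [NumberField K] [NeZero p] in
theorem lexa_v2 [NumberField K] (X : XC p d N₀) {l M : ℕ} (η : Pl K → Fin l → ZMod p)
    (κ : Pl K → Fin (p ^ M)) (i : Fin N₀) (v : Pl K) (j : Fin l) :
    vX X (lexaKey X η κ i v) (Fin.natAdd d j).succ = if i ∈ X.isx then η v j else 0 := by
  by_cases h : i ∈ X.isx
  · rw [lexa_key_pos X η κ i v h, if_pos h]
    change (Fin.cons (X.a i) (Fin.append (X.t i) (η v)) : Fin (d + l + 1) → ZMod p)
      (Fin.natAdd d j).succ = _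
    rw [Fin.cons_succ, Fin.append_right]
  · rw [lexa_key_neg X η κ i v h, if_neg h]
    change (Fin.cons 0 (Fin.append (X.t i) 0) : Fin (d + l + 1) → ZMod p)
      (Fin.natAdd d j).succ = _
    rw [Fin.cons_succ, Fin.append_right]
    rfl

theorem lexa_ak0 (D : RD0 K p ζ) (X : XC p d N₀) (l M : ℕ) (f : Fin N₀ → Finset (Pl K))
    (η : Pl K → Fin l → ZMod p) (κ : Pl K → Fin (p ^ M)) (b' : Fin (d + l + 1) → Kˣ) :
    akR D (cX X l M) b' (rf X l M f η κ) 0 =
      b' 0 * ∏ i, ∏ w ∈ f i, D.pi w ^ (if i ∈ X.isx then X.a i else 0).val := by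
  unfold akR
  refine congrArg (b' 0 * ·) ?_
  refine lexa_prod X l M f η κ (fun k w => D.pi w ^ ((cX X l M).x k 0).val)
    (fun i w => D.pi w ^ (if i ∈ X.isx then X.a i else 0).val) fun k v _ => ?_
  change D.pi v ^ (vX X (eX X l M k) 0).val = _
  rw [lexa_v0]

theorem lexa_ak1 (D : RD0 K p ζ) (X : XC p d N₀) (l M : ℕ) (f : Fin N₀ → Finset (Pl K))
    (η : Pl K → Fin l → ZMod p) (κ : Pl K → Fin (p ^ M)) (b' : Fin (d + l + 1) → Kˣ)
    (k : Fin d) :
    akR D (cX X l M) b' (rf X l M f η κ) (Fin.castAdd l k).succ =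
      b' (Fin.castAdd l k).succ * ∏ i, ∏ w ∈ f i, D.pi w ^ (X.t i k).val := by
  unfold akR
  refine congrArg (b' (Fin.castAdd l k).succ * ·) ?_
  refine lexa_prod X l M f η κ
    (fun k' w => D.pi w ^ ((cX X l M).x k' (Fin.castAdd l k).succ).val)
    (fun i w => D.pi w ^ (X.t i k).val) fun k' v _ => ?_
  change D.pi v ^ (vX X (eX X l M k') (Fin.castAdd l k).succ).val = _
  rw [lexa_v1]

theorem lexa_ak2 (D : RD0 K p ζ) (X : XC p d N₀) (l M : ℕ) (f : Fin N₀ → Finset (Pl K))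
    (hf : Dj f) (η : Pl K → Fin l → ZMod p) (κ : Pl K → Fin (p ^ M))
    (b' : Fin (d + l + 1) → Kˣ) (j : Fin l) :
    akR D (cX X l M) b' (rf X l M f η κ) (Fin.natAdd d j).succ =
      b' (Fin.natAdd d j).succ * ∏ w ∈ X.isx.biUnion f, D.pi w ^ (η w j).val := by
  unfold akR
  refine congrArg (b' (Fin.natAdd d j).succ * ·) ?_
  rw [lexa_prod X l M f η κ
    (fun k' w => D.pi w ^ ((cX X l M).x k' (Fin.natAdd d j).succ).val)
    (fun i w => D.pi w ^ (if i ∈ X.isx then η w j else 0).val) ?_]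
  · rw [Finset.prod_biUnion fun a _ b _ hab => hf a b hab]
    symm
    rw [Finset.prod_subset (Finset.subset_univ X.isx)
      (f := fun i => ∏ w ∈ f i, D.pi w ^ (if i ∈ X.isx then η w j else 0).val) ?_ |>.symm]
    · refine Finset.prod_congr rfl fun i hi => ?_
      simp only [if_pos hi]
    · intro i _ hi
      simp only [if_neg hi, ZMod.val_zero, pow_zero, Finset.prod_const_one]
  · intro k v hv
    change D.pi v ^ (vX X (eX X l M k) (Fin.natAdd d j).succ).val = _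
    have h1 := ((lexa_mem X l M f η κ k v).1 hv).2
    rw [← lexa_v2 X η κ (bse X (eX X l M k)) v j, ← h1]

theorem lexa_inj (X : XC p d N₀) (l M : ℕ) (f : Fin N₀ → Finset (Pl K)) (hf : Dj f)
    (η η' : Pl K → Fin l → ZMod p) (κ κ' : Pl K → Fin (p ^ M))
    (h : rf X l M f η κ = rf X l M f η' κ') :
    ∀ v ∈ X.isx.biUnion f, η v = η' v ∧ κ v = κ' v := by
  intro v hv
  obtain ⟨i, hi, hvi⟩ := Finset.mem_biUnion.1 hv
  have h1 := lexa_key_mem X l M f η κ i v hvi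
  rw [h, lexa_mem, Equiv.apply_symm_apply, lexa_key_bse] at h1
  have h2 := h1.2
  rw [lexa_key_pos X η κ i v hi, lexa_key_pos X η' κ' i v hi] at h2
  have h3 := Sum.inl_injective h2
  exact ⟨congrArg (fun z => z.2.1) h3, congrArg (fun z => z.2.2) h3⟩

end H77.AB
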