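import Pool.Agent.H77.AB.LExA

/-!
# [H77 AB LEXB] the value of a refined term, 110-170 lines

`x = xpr Dg f = ⋃_{i ∈ isx} f i`, `F = rf Dg.xc l M f η κ` (LDat), `swt` (ADat) the term of `F` in `SWU` with `u = p^{-l}` and the Kummer elements `bx b ε = (b, ε)`. If `f` is pairwise disjoint, disjoint from `E`, `∏ nr (f i) ≤ Y`, `akR D Dg.c0 b f 0` is not a `p`-th power, the local conditions `LocC` hold, and for `v ∈ f i`, `i ∈ isx`, `j < l`: `χ(g i) LL v (ε j ∏_{w ∈ x} pi w ^ (η w j).val) = η v j LL v (akR D Dg.c0 b f 0)`, then the term is at least `(p^d)^{#x} ∏_{i ∉ isx} (#class_i)^{#(f i)}`.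

Proof. The conditions in `swt`: `lexa_dj`, `lexa_sub`, `lexa_nr`; `akR D (cX ..) (bx b ε) F 0 = akR D Dg.c0 b f 0` by `lexa_ak0` (`bx b ε 0 = b 0`; `Dg.c0.x i 0 = toAdd (χ (g i)) = Dg.xc.a i`, which is `0` for `i ∉ isx` by `Dg.rz`). Similarly `akR .. (Fin.castAdd l k).succ = akR D Dg.c0 b f k.succ` (`lexa_ak1`; `bx b ε (castAdd l k).succ = b k.succ`: `Fin.cons_succ`, `Fin.append_left`, `Fin.tail`) and `akR .. (Fin.natAdd d j).succ = ε j * ∏_{w ∈ x} pi w ^ (η w j).val` (`lexa_ak2`).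
`wtR` times the product of the `ww` is `∏_k ∏_{v ∈ F k} (factor * ww)` (`Finset.prod_mul_distrib`), and for `v ∈ F k`, `bse (eX k) = i`, it is `h' i := if i ∈ isx then p^d else if i ∈ cen then 1 else p`:
* `eX k = inl (i, e, c)`: `v ∈ f i`, `η v = e`. Let `Λ = (LL v (akR ..))`. For all coordinates `n`: `a i Λ n = (x k) n Λ 0` (`n = 0`: clear, `x k 0 = a i`; `n = (castAdd l k').succ`: the first condition of `LocC`; `n = (natAdd d j).succ`: the hypothesis on `η`). So for `θ ∈ Θ k = orth (x k)`: `a i dt θ Λ = dt θ (x k) Λ 0 = 0`, and `a i ≠ 0` (`Dg.xne`; `ZMod p` is a field): the condition holds, the factor is `#Θ k = p^(d+l)` (`lexb_orth`). `k ∈ XsX`, so `ww = p^{-l} mk`, `mk = 1` by `LocC`. `p^(d+l) p^{-l} = p^d`.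
* `eX k = inr i`: `k ∉ XsX` (the constructors are different), `ww = 1`. `i ∈ cen`: `Θ = ⊥`, the condition is `dt 0 _ = 0`, `#Θ = 1`. `i ∉ cen`: `Θ = line0`, `dt θ Λ = θ 0 Λ 0 = 0` (`Fin.sum_univ_succ`, the second condition of `LocC`), `#Θ = p` (`lexb_line`).
So by `lexa_prod` the term is `∏_i ∏_{v ∈ f i} h' i = (p^d)^{#x} ∏_{i ∉ isx} h'_i ^ {#(f i)}` (`Finset.prod_const`, `Finset.card_biUnion` with `Dj f`, split of the product over `i ∈ isx`, `i ∉ isx`), and `#class_i ≤ h' i` for `i ∉ isx` (`Dg.rc`: the class is `{g i}` for `i ∈ cen`; `Dg.rnc`: at most `p`).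
* `lexb_orth`: `θ ↦ Fin.tail θ` is a bijection from `orth x` (`x 0 ≠ 0`) to `F_p^n` (`θ 0 = -(∑ θ_k.succ x k.succ) / x 0`). `lexb_line`: `θ ↦ θ 0` is a bijection from `line0 p n` to `F_p`.
* `lexb_nonneg`: all terms `swt` are `≥ 0` for `u ≥ 0` (`wtR ≥ 0`: `ucnt_wt0` in H63/BU/UCnt; `mk ≥ 0`).
-/

set_option autoImplicit false

open scoped NumberField
open IsDedekindDomain
open scoped Classical

noncomputable section

namespace H77.AB

open H63.MA H38.BB H38.BG H63.BU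

theorem lexb_dts {p n : ℕ} (θ x : Fin (n + 1) → ZMod p) :
    dt θ x = θ 0 * x 0 + ∑ k : Fin n, θ k.succ * x k.succ := by
  unfold dt
  exact Fin.sum_univ_succ _

theorem lexb_orth {p n : ℕ} (hp : p.Prime) (x : Fin (n + 1) → ZMod p) (hx : x 0 ≠ 0) :
    Nat.card (orth x) = p ^ n := by
  haveI : Fact p.Prime := ⟨hp⟩
  have e : (orth x) ≃ (Fin n → ZMod p) :=
    { toFun := fun θ => Fin.tail θ.1
      invFun := fun t => ⟨Fin.cons (-(∑ k : Fin n, t k * x k.succ) / x 0) t, by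
        change dt _ x = 0
        rw [lexb_dts, Fin.cons_zero, div_mul_cancel₀ _ hx]
        simp only [Fin.cons_succ, neg_add_cancel]⟩
      left_inv := by
        rintro ⟨θ, hθ⟩
        apply Subtype.ext
        have h1 : dt θ x = 0 := hθ
        rw [lexb_dts] at h1
        have h2 : -(∑ k : Fin n, θ k.succ * x k.succ) / x 0 = θ 0 := by
          rw [div_eq_iff hx]
          exact (eq_neg_of_add_eq_zero_left h1).symm
        change (Fin.cons (-(∑ k : Fin n, θ k.succ * x k.succ) / x 0) (Fin.tail θ) :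
          Fin (n + 1) → ZMod p) = θ
        rw [h2]
        exact Fin.cons_self_tail θ
      right_inv := fun t => Fin.tail_cons _ _ }
  rw [Nat.card_congr e, Nat.card_eq_fintype_card, Fintype.card_fun, ZMod.card, Fintype.card_fin]

theorem lexb_line {p n : ℕ} (hp : p.Prime) : Nat.card (line0 p n) = p := by
  haveI : Fact p.Prime := ⟨hp⟩
  have e : (line0 p n) ≃ ZMod p :=
    { toFun := fun θ => θ.1 0
      invFun := fun t => ⟨fun k => if k = 0 then t else 0, fun k hk => if_neg hk⟩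
      left_inv := by
        rintro ⟨θ, hθ⟩
        apply Subtype.ext
        funext k
        by_cases hk : k = 0
        · subst hk
          change (if (0 : Fin (n + 1)) = 0 then θ 0 else 0) = θ 0
          exact if_pos rfl
        · exact (if_neg hk).trans (hθ k hk).symm
      right_inv := fun t => by
        change (if (0 : Fin (n + 1)) = 0 then t else 0) = t
        exact if_pos rfl }
  rw [Nat.card_congr e, Nat.card_zmod]

theorem lexb_ww {K : Type} [Field K] [NumberField K] {p : ℕ} {ζ : K} {M : ℕ}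
    (D : RD0 K p ζ) (c₂ : Fin M → Kˣ) (u : ℝ) (hu : 0 ≤ u) (x : Prop) (v : Pl K) :
    0 ≤ ww D c₂ u x v := by
  unfold ww mk
  split_ifs
  · rw [mul_one]
    exact hu
  · rw [mul_zero]
  · exact zero_le_one

theorem lexb_nonneg {K : Type} [Field K] [NumberField K] {p : ℕ} {ζ : K} {m N M : ℕ}
    (D : RD0 K p ζ) (c : CR p (m + 1) N) (Xs : Finset (Fin N)) (c₂ : Fin M → Kˣ) (u : ℝ)
    (hu : 0 ≤ u) (b : Fin (m + 1) → Kˣ) (E : Finset (Pl K)) (Y : ℝ)
    (f : Fin N → Finset (Pl K)) : 0 ≤ swt D c Xs c₂ u b E Y f := by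
  unfold swt
  split_ifs
  · refine mul_nonneg ?_ (Finset.prod_nonneg fun i _ => Finset.prod_nonneg fun v _ =>
      lexb_ww D c₂ u hu _ v)
    unfold wtR
    refine Finset.prod_nonneg fun i _ => Finset.prod_nonneg fun v _ => ?_
    split_ifs
    · exact Nat.cast_nonneg _
    · exact le_rfl
  · exact le_rfl

section main

variable {K : Type} [Field K] [NumberField K] {p : ℕ} [NeZero p] {ζ : K} {d M l N₀ : ℕ}
    {G : Type} [Group G]

theorem lexb_ak0 (D : RD0 K p ζ) (Dg : GX p d M l N₀ G)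
    (b : Fin (d + 1) → Kˣ) (ε : Fin l → Kˣ) (f : Fin N₀ → Finset (Pl K))
    (η : Pl K → Fin l → ZMod p) (κ : Pl K → Fin (p ^ M)) :
    akR D (cX Dg.xc l M) (bx b ε) (rf Dg.xc l M f η κ) 0 = akR D Dg.c0 b f 0 := by
  rw [lexa_ak0]
  unfold akR
  refine congrArg (b 0 * ·) ?_
  refine Finset.prod_congr rfl fun i _ => Finset.prod_congr rfl fun w _ => ?_
  refine congrArg (fun z : ZMod p => D.pi w ^ z.val) ?_
  change (if i ∈ Dg.isx then Multiplicative.toAdd (Dg.χ (Dg.g i)) else 0) =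
    Multiplicative.toAdd (Dg.χ (Dg.g i))
  by_cases h : i ∈ Dg.isx
  · rw [if_pos h]
  · rw [if_neg h, Dg.rz i h, toAdd_one]

theorem lexb_ak1 (D : RD0 K p ζ) (Dg : GX p d M l N₀ G)
    (b : Fin (d + 1) → Kˣ) (ε : Fin l → Kˣ) (f : Fin N₀ → Finset (Pl K))
    (η : Pl K → Fin l → ZMod p) (κ : Pl K → Fin (p ^ M)) (k : Fin d) :
    akR D (cX Dg.xc l M) (bx b ε) (rf Dg.xc l M f η κ) (Fin.castAdd l k).succ =
      akR D Dg.c0 b f k.succ := by
  rw [lexa_ak1]
  have e1 : bx b ε (Fin.castAdd l k).succ = b k.succ := by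
    unfold bx
    rw [Fin.cons_succ, Fin.append_left]
    rfl
  rw [e1]
  rfl

theorem lexb_ak2 (D : RD0 K p ζ) (Dg : GX p d M l N₀ G)
    (b : Fin (d + 1) → Kˣ) (ε : Fin l → Kˣ) (f : Fin N₀ → Finset (Pl K)) (hdj : Dj f)
    (η : Pl K → Fin l → ZMod p) (κ : Pl K → Fin (p ^ M)) (j : Fin l) :
    akR D (cX Dg.xc l M) (bx b ε) (rf Dg.xc l M f η κ) (Fin.natAdd d j).succ =
      ε j * ∏ w ∈ xpr Dg f, D.pi w ^ (η w j).val := by
  rw [lexa_ak2 D Dg.xc l M f hdj]
  have e1 : bx b ε (Fin.natAdd d j).succ = ε j := by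
    unfold bx
    rw [Fin.cons_succ, Fin.append_right]
  rw [e1]
  rfl

theorem lexb_fac (hp : p.Prime) (D : RD0 K p ζ) (Dg : GX p d M l N₀ G)
    (b : Fin (d + 1) → Kˣ) (c₂ : Fin M → Kˣ) (ε : Fin l → Kˣ) (f : Fin N₀ → Finset (Pl K))
    (hdj : Dj f) (hc : LocC D Dg b c₂ f)
    (η : Pl K → Fin l → ZMod p) (κ : Pl K → Fin (p ^ M))
    (hη : ∀ i ∈ Dg.isx, ∀ v ∈ f i, ∀ j : Fin l, Multiplicative.toAdd (Dg.χ (Dg.g i)) *
      D.LL v (ε j * ∏ w ∈ xpr Dg f, D.pi w ^ (η w j).val) =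
        η v j * D.LL v (akR D Dg.c0 b f 0))
    (k : Fin (NX Dg.xc l M)) (v : Pl K) (hv : v ∈ rf Dg.xc l M f η κ k) :
    (∀ θ ∈ (cX Dg.xc l M).Θ k, dt θ (fun n => D.LL v
        (akR D (cX Dg.xc l M) (bx b ε) (rf Dg.xc l M f η κ) n)) = 0) ∧
      (Nat.card ((cX Dg.xc l M).Θ k) : ℝ) *
      ww D c₂ (((p : ℝ) ^ l)⁻¹) (k ∈ XsX Dg.xc l M) v =
    if bse Dg.xc (eX Dg.xc l M k) ∈ Dg.isx then (p : ℝ) ^ d
      else if bse Dg.xc (eX Dg.xc l M k) ∈ Dg.cen then 1 else p := by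
  haveI : Fact p.Prime := ⟨hp⟩
  obtain ⟨h1, h2⟩ := (lexa_mem Dg.xc l M f η κ k v).1 hv
  change (∀ θ ∈ ThX Dg.xc (eX Dg.xc l M k), dt θ (fun n => D.LL v
        (akR D (cX Dg.xc l M) (bx b ε) (rf Dg.xc l M f η κ) n)) = 0) ∧
      (Nat.card (ThX Dg.xc (eX Dg.xc l M k)) : ℝ) * _ = _
  have hX : k ∈ XsX Dg.xc l M ↔ ∃ q, eX Dg.xc l M k = Sum.inl q := by
    unfold XsX
    rw [Finset.mem_filter]
    exact ⟨fun h => h.2, fun h => ⟨Finset.mem_univ _, h⟩⟩
  have hp0 : (p : ℝ) ≠ 0 := Nat.cast_ne_zero.2 hp.ne_zero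
  set i := bse Dg.xc (eX Dg.xc l M k) with hi
  clear_value i
  have a0 := lexb_ak0 D Dg b ε f η κ
  have a1 := lexb_ak1 D Dg b ε f η κ
  have a2 := lexb_ak2 D Dg b ε f hdj η κ
  by_cases hx : i ∈ Dg.isx
  · rw [lexa_key_pos Dg.xc η κ i v hx] at h2
    have hk : k ∈ XsX Dg.xc l M := hX.2 ⟨_, h2⟩
    rw [h2, if_pos hx]
    change (∀ θ ∈ orth (xv (Dg.xc.a i) (Dg.xc.t i) (η v)), dt θ (fun n => D.LL v
        (akR D (cX Dg.xc l M) (bx b ε) (rf Dg.xc l M f η κ) n)) = 0) ∧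
      (Nat.card (orth (xv (Dg.xc.a i) (Dg.xc.t i) (η v))) : ℝ) * _ = _
    have ha : Dg.xc.a i ≠ 0 := by
      intro h0
      apply Dg.xne i hx
      have h3 : Multiplicative.toAdd (Dg.χ (Dg.g i)) = 0 := h0
      rw [← ofAdd_toAdd (Dg.χ (Dg.g i)), h3, ofAdd_zero]
    have hcond : ∀ θ ∈ orth (xv (Dg.xc.a i) (Dg.xc.t i) (η v)), dt θ (fun n => D.LL v
        (akR D (cX Dg.xc l M) (bx b ε) (rf Dg.xc l M f η κ) n)) = 0 := by
      intro θ hθ
      have h3 : dt θ (xv (Dg.xc.a i) (Dg.xc.t i) (η v)) = 0 := hθ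
      have h4 : ∀ n, Dg.xc.a i * D.LL v
          (akR D (cX Dg.xc l M) (bx b ε) (rf Dg.xc l M f η κ) n) =
          xv (Dg.xc.a i) (Dg.xc.t i) (η v) n * D.LL v (akR D Dg.c0 b f 0) := by
        intro n
        refine Fin.cases ?_ (fun n => ?_) n
        · rw [a0]
          rfl
        · refine Fin.addCases (fun k' => ?_) (fun j => ?_) n
          · rw [a1 k']
            have e1 : xv (Dg.xc.a i) (Dg.xc.t i) (η v) (Fin.castAdd l k').succ =
                Dg.xc.t i k' := by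
              unfold xv
              rw [Fin.cons_succ, Fin.append_left]
            rw [e1]
            exact (hc.1 i hx v h1).2 k'
          · rw [a2 j]
            have e1 : xv (Dg.xc.a i) (Dg.xc.t i) (η v) (Fin.natAdd d j).succ = η v j := by
              unfold xv
              rw [Fin.cons_succ, Fin.append_right]
            rw [e1]
            exact hη i hx v h1 j
      have h5 : Dg.xc.a i * dt θ (fun n => D.LL v
          (akR D (cX Dg.xc l M) (bx b ε) (rf Dg.xc l M f η κ) n)) =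
          dt θ (xv (Dg.xc.a i) (Dg.xc.t i) (η v)) * D.LL v (akR D Dg.c0 b f 0) := by
        unfold dt
        rw [Finset.mul_sum, Finset.sum_mul]
        refine Finset.sum_congr rfl fun n _ => ?_
        rw [mul_assoc, ← h4 n]
        ring
      rw [h3, zero_mul] at h5
      exact (mul_eq_zero.1 h5).resolve_left ha
    have hmk : mk D c₂ v = 1 := by
      unfold mk
      exact if_pos (hc.1 i hx v h1).1
    have hww : ww D c₂ (((p : ℝ) ^ l)⁻¹) (k ∈ XsX Dg.xc l M) v = ((p : ℝ) ^ l)⁻¹ := by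
      unfold ww
      rw [if_pos hk, hmk, mul_one]
    refine ⟨hcond, ?_⟩
    rw [hww, lexb_orth hp _ ha, Nat.cast_pow, pow_add,
      mul_assoc, mul_inv_cancel₀ (pow_ne_zero _ hp0), mul_one]
  · rw [lexa_key_neg Dg.xc η κ i v hx] at h2
    have hk : k ∉ XsX Dg.xc l M := by
      intro hk
      obtain ⟨q, hq⟩ := hX.1 hk
      rw [h2] at hq
      exact Sum.inr_ne_inl hq
    have hww : ww D c₂ (((p : ℝ) ^ l)⁻¹) (k ∈ XsX Dg.xc l M) v = 1 := by
      unfold ww
      rw [if_neg hk]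
    rw [h2, if_neg hx, hww, mul_one]
    change (∀ θ ∈ (if i ∈ Dg.cen then (⊥ : Submodule (ZMod p) (Fin (d + l + 1) → ZMod p))
        else line0 p (d + l)), dt θ (fun n => D.LL v
        (akR D (cX Dg.xc l M) (bx b ε) (rf Dg.xc l M f η κ) n)) = 0) ∧
      (Nat.card ↥(if i ∈ Dg.cen then (⊥ : Submodule (ZMod p) (Fin (d + l + 1) → ZMod p))
        else line0 p (d + l)) : ℝ) = _
    by_cases hcn : i ∈ Dg.cen
    · simp only [if_pos hcn]
      refine ⟨?_, by rw [Nat.card_unique, Nat.cast_one]⟩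
      intro θ hθ
      rw [(Submodule.mem_bot _).1 hθ]
      exact adat_dt_zero _
    · simp only [if_neg hcn]
      refine ⟨?_, by rw [lexb_line hp]⟩
      intro θ hθ
      rw [lexb_dts]
      have h3 : D.LL v (akR D (cX Dg.xc l M) (bx b ε) (rf Dg.xc l M f η κ) 0) = 0 := by
        rw [a0]
        exact hc.2 i hx hcn v h1
      rw [h3, mul_zero, zero_add]
      refine Finset.sum_eq_zero fun n _ => ?_
      rw [hθ n.succ (Fin.succ_ne_zero n), zero_mul]

end main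

theorem lexb {K : Type} [Field K] [NumberField K] {p : ℕ} [NeZero p] {ζ : K} {d M l N₀ : ℕ}
    {G : Type} [Group G] [Finite G] (hp : p.Prime) (D : RD0 K p ζ) (Dg : GX p d M l N₀ G)
    (b : Fin (d + 1) → Kˣ) (c₂ : Fin M → Kˣ) (ε : Fin l → Kˣ) (f : Fin N₀ → Finset (Pl K))
    (E : Finset (Pl K)) (Y : ℝ) (hdj : Dj f) (hE : ∀ i, Disjoint (f i) E)
    (hY : ∏ i, nr (f i) ≤ Y) (hnp : ¬ IsPow p (akR D Dg.c0 b f 0)) (hc : LocC D Dg b c₂ f)
    (η : Pl K → Fin l → ZMod p) (κ : Pl K → Fin (p ^ M))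
    (hη : ∀ i ∈ Dg.isx, ∀ v ∈ f i, ∀ j : Fin l, Multiplicative.toAdd (Dg.χ (Dg.g i)) *
      D.LL v (ε j * ∏ w ∈ xpr Dg f, D.pi w ^ (η w j).val) =
        η v j * D.LL v (akR D Dg.c0 b f 0)) :
    ((p : ℝ) ^ d) ^ (xpr Dg f).card * ∏ i ∈ Finset.univ.filter (fun i => i ∉ Dg.isx),
        (Nat.card {h : G // IsConj h (Dg.g i)} : ℝ) ^ (f i).card ≤
      swt D (cX Dg.xc l M) (XsX Dg.xc l M) c₂ (((p : ℝ) ^ l)⁻¹) (bx b ε) E Y
        (rf Dg.xc l M f η κ) := by
  have hcond : Dj (rf Dg.xc l M f η κ) ∧ (∀ i, Disjoint (rf Dg.xc l M f η κ i) E) ∧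
      ∏ i, nr (rf Dg.xc l M f η κ i) ≤ Y ∧
      ¬ IsPow p (akR D (cX Dg.xc l M) (bx b ε) (rf Dg.xc l M f η κ) 0) := by
    refine ⟨lexa_dj Dg.xc l M f hdj η κ, fun k => ?_, ?_, ?_⟩
    · exact Finset.disjoint_of_subset_left (lexa_sub Dg.xc l M f η κ k) (hE _)
    · rw [lexa_nr]
      exact hY
    · rw [lexb_ak0]
      exact hnp
  unfold swt
  rw [if_pos hcond]
  unfold wtR
  rw [← Finset.prod_mul_distrib]
  simp only [← Finset.prod_mul_distrib]
  rw [lexa_prod Dg.xc l M f η κ _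
    (fun i _ => if i ∈ Dg.isx then (p : ℝ) ^ d else if i ∈ Dg.cen then 1 else p) ?_]
  swap
  · intro k v hv
    obtain ⟨q1, q2⟩ := lexb_fac hp D Dg b c₂ ε f hdj hc η κ hη k v hv
    rw [if_pos q1]
    exact q2
  simp only [Finset.prod_const]
  rw [← Finset.prod_filter_mul_prod_filter_not Finset.univ (fun i => i ∈ Dg.isx)]
  have h1 : ∏ i ∈ Finset.univ.filter (fun i => i ∈ Dg.isx),
      (if i ∈ Dg.isx then (p : ℝ) ^ d else if i ∈ Dg.cen then 1 else p) ^ (f i).card =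
      ((p : ℝ) ^ d) ^ (xpr Dg f).card := by
    have e1 : (xpr Dg f).card = ∑ i ∈ Dg.isx, (f i).card := by
      unfold xpr
      exact Finset.card_biUnion fun a _ c _ hac => hdj a c hac
    rw [e1, ← Finset.prod_pow_eq_pow_sum, Finset.filter_mem_eq_inter, Finset.univ_inter]
    refine Finset.prod_congr rfl fun i hi => ?_
    rw [if_pos hi]
  rw [h1]
  refine mul_le_mul_of_nonneg_left ?_ (pow_nonneg (pow_nonneg (Nat.cast_nonneg _) _) _)
  refine Finset.prod_le_prod (fun i _ => pow_nonneg (Nat.cast_nonneg _) _) fun i hi => ?_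
  have hx := (Finset.mem_filter.1 hi).2
  refine pow_le_pow_left₀ (Nat.cast_nonneg _) ?_ _
  rw [if_neg hx]
  by_cases hcn : i ∈ Dg.cen
  · rw [if_pos hcn]
    haveI : Subsingleton {h : G // IsConj h (Dg.g i)} := by
      constructor
      rintro ⟨a, ha⟩ ⟨b', hb'⟩
      apply Subtype.ext
      exact ((Dg.rc i hcn).2.2 a ha).trans ((Dg.rc i hcn).2.2 b' hb').symm
    have h2 : Nat.card {h : G // IsConj h (Dg.g i)} ≤ 1 := Finite.card_le_one_iff_subsingleton.2
      inferInstance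
    exact_mod_cast h2
  · rw [if_neg hcn]
    exact_mod_cast (Dg.rnc i hx hcn).1

end H77.AB
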