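import Pool.Agent.H77.AB.LExB

/-!
# [H77 AB LEXP] the bound of a family by the refined terms, 100-150 lines

`x = xpr Dg f`, `k₀ = akR D Dg.c0 b f 0`. Claim: `∏_{i ∉ isx} (#class_i)^{#(f i)} (p^{d+M})^{#x} n1^l ≤ ∑_{ε ∈ U^l} ∑_{F over f} swt (F)`, where `F` runs through the families in `GF D Y` with `unC (bse ∘ eX) F = f`.

Proof. Consider the pairs `(q, κ₀)`: `q : Fin l → n1S D U x k₀` (so `q j = (u_j, η_j)`, `u_j ∈ U`, `η_j : x → ZMod p`, `(ord v k₀) LL v (u_j ∏_{w : x} pi w ^ (η_j w).val) = η_j v LL v k₀` for `v ∈ x`) and `κ₀ : x → Fin (p^M)`: there are `n1^l (p^M)^{#x}` of them. Map `(q, κ₀)` to `(ε, F)`: `ε j = u_j`, `F = rf Dg.xc l M f η κ` with `η v j = η_j v`, `κ v = κ₀ v` for `v ∈ x` (`0` outside `x`).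
The map is injective: `ε` gives the `u_j`, `lexa_inj` the `η_j`, `κ₀`. It takes values in the index set of the sum: `F k ∈ GF D Y` because `F k ⊆ f i ∈ GF D Y` (`lexa_sub`; `GF D Y` = sets of good primes of norm `≤ Y`: `atupa_mem_GF` in H63/MA, `nr` is monotone since `nm v ≥ 1`), `unC … F = f` (`lexa_un`). By `lexb` every term in the image is at least `(p^d)^{#x} ∏_{i ∉ isx} …`: `hη` follows from the condition in `n1S`, because `ord v k₀ = χ(g i)` in `ZMod p` for `v ∈ f i`, `i ∈ isx` (`lexp_ord`)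
and `∏_{w : ↥x} = ∏_{w ∈ x}` (`Finset.prod_coe_sort`/`Finset.prod_attach`). All terms are `≥ 0` (`lexb_nonneg`). Sum: `#image * (p^d)^{#x} ∏ … = n1^l (p^M)^{#x} (p^d)^{#x} ∏ …`. (Write the double sum as a sum over `Finset.sigma`/product, `Finset.sum_product'`, `Finset.sum_le_sum_of_subset_of_nonneg`, `Finset.sum_image`, `Finset.card_nsmul_le_sum`.)
* `lexp_ord`: `akR D Dg.c0 b f 0 = b 0 * ∏_i ∏_{w ∈ f i} pi w ^ (χ(g i)).val`; `ord v (b 0) = 0` since `v ∉ S0`, `v ∉ E` (`BS2`, Pool/Agent/H63/MB/BDef.lean), the order of the product is `∑_i if v ∈ f i then (χ(g i)).val else 0` (`gupb_ord` in H63/MA/GUpB), a single term because `Dj f`; `ZMod.natCast_zmod_val`.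
-/

set_option autoImplicit false

open scoped NumberField
open IsDedekindDomain
open scoped Classical

noncomputable section

namespace H77.AB

open H63.MA H38.BB H38.BG H63.BU

theorem lexp_ord {K : Type} [Field K] [NumberField K] {p : ℕ} [NeZero p] {ζ : K}
    {d M l N₀ : ℕ} {G : Type} [Group G] (D : RD0 K p ζ) (Dg : GX p d M l N₀ G)
    (b : Fin (d + 1) → Kˣ) (f : Fin N₀ → Finset (Pl K)) (E : Finset (Pl K)) (hdj : Dj f)
    (hE : ∀ i, Disjoint (f i) E) (hS : ∀ i, ∀ v ∈ f i, v ∉ D.S0) (hb : BS2 D b E)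
    (i : Fin N₀) (v : Pl K) (hv : v ∈ f i) :
    ((ord v (akR D Dg.c0 b f 0) : ℤ) : ZMod p) = Multiplicative.toAdd (Dg.χ (Dg.g i)) := by
  have hvS : v ∉ D.S0 := hS i v hv
  have hvE : v ∉ E := fun h => Finset.disjoint_left.1 (hE i) hv h
  unfold akR
  rw [ord_mul, hb.2 0 v hvS hvE, zero_add,
    gupb_ord D f hS (fun i => (Dg.c0.x i 0).val) v hvS, Finset.sum_eq_single i]
  · rw [if_pos hv, Int.cast_natCast, ZMod.natCast_zmod_val]
    rfl
  · intro j _ hj
    rw [if_neg]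
    intro h
    exact Finset.disjoint_left.1 (hdj j i hj) h hv
  · intro h
    exact absurd (Finset.mem_univ i) h

/-- the labels of a family of characters -/
def lexp_eta {K : Type} [Field K] [NumberField K] {p l : ℕ} (x : Finset (Pl K))
    (q : Fin l → Kˣ × (↥x → ZMod p)) : Pl K → Fin l → ZMod p := fun v j =>
  if h : v ∈ x then (q j).2 ⟨v, h⟩ else 0

/-- the copies -/
def lexp_kap {K : Type} [Field K] [NumberField K] {n : ℕ} (hn : 0 < n) (x : Finset (Pl K))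
    (κ : ↥x → Fin n) : Pl K → Fin n := fun v => if h : v ∈ x then κ ⟨v, h⟩ else ⟨0, hn⟩

theorem lexp {K : Type} [Field K] [NumberField K] {p : ℕ} [NeZero p] {ζ : K} {d M l N₀ : ℕ}
    {G : Type} [Group G] [Finite G] (hp : p.Prime) (D : RD0 K p ζ) (Dg : GX p d M l N₀ G)
    (U : Finset Kˣ) (b : Fin (d + 1) → Kˣ) (c₂ : Fin M → Kˣ) (f : Fin N₀ → Finset (Pl K))
    (E : Finset (Pl K)) (Y : ℝ) (hb : BS2 D b E) (hdj : Dj f) (hE : ∀ i, Disjoint (f i) E)
    (hY : ∏ i, nr (f i) ≤ Y) (hGF : ∀ i, f i ∈ GF D Y)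
    (hnp : ¬ IsPow p (akR D Dg.c0 b f 0)) (hc : LocC D Dg b c₂ f) :
    (∏ i ∈ Finset.univ.filter (fun i => i ∉ Dg.isx),
        (Nat.card {h : G // IsConj h (Dg.g i)} : ℝ) ^ (f i).card) *
      ((p : ℝ) ^ (d + M)) ^ (xpr Dg f).card *
      (n1 D U (xpr Dg f) (akR D Dg.c0 b f 0) : ℝ) ^ l ≤
    ∑ ε ∈ Fintype.piFinset (fun _ : Fin l => U),
      ∑ F ∈ (Fintype.piFinset fun _ : Fin (NX Dg.xc l M) => GF D Y).filter
        (fun F => unC (fun k => bse Dg.xc (eX Dg.xc l M k)) F = f),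
        swt D (cX Dg.xc l M) (XsX Dg.xc l M) c₂ (((p : ℝ) ^ l)⁻¹) (bx b ε) E Y F := by
  have hpM : 0 < p ^ M := pow_pos hp.pos M
  have hS : ∀ i, ∀ v ∈ f i, v ∉ D.S0 := fun i v hv => ((atupa_mem_GF.1 (hGF i)).2 v hv).1
  set x := xpr Dg f with hx
  set k₀ := akR D Dg.c0 b f 0 with hk₀
  have hxi : ∀ i ∈ Dg.isx, ∀ v ∈ f i, v ∈ x := by
    intro i hi v hv
    rw [hx]
    exact Finset.mem_biUnion.2 ⟨i, hi, hv⟩
  set A : Finset ((Fin l → Kˣ × (↥x → ZMod p)) × (↥x → Fin (p ^ M))) :=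
    (Fintype.piFinset fun _ : Fin l => n1S D U x k₀) ×ˢ Finset.univ with hA
  set Φ : ((Fin l → Kˣ × (↥x → ZMod p)) × (↥x → Fin (p ^ M))) →
      (Fin l → Kˣ) × (Fin (NX Dg.xc l M) → Finset (Pl K)) := fun q =>
    (fun j => (q.1 j).1, rf Dg.xc l M f (lexp_eta x q.1) (lexp_kap hpM x q.2)) with hΦ
  set T : Finset ((Fin l → Kˣ) × (Fin (NX Dg.xc l M) → Finset (Pl K))) :=
    (Fintype.piFinset fun _ : Fin l => U) ×ˢ
      (Fintype.piFinset fun _ : Fin (NX Dg.xc l M) => GF D Y).filter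
        (fun F => unC (fun k => bse Dg.xc (eX Dg.xc l M k)) F = f) with hT
  set S : (Fin l → Kˣ) × (Fin (NX Dg.xc l M) → Finset (Pl K)) → ℝ := fun t =>
    swt D (cX Dg.xc l M) (XsX Dg.xc l M) c₂ (((p : ℝ) ^ l)⁻¹) (bx b t.1) E Y t.2 with hSdef
  set V : ℝ := ((p : ℝ) ^ d) ^ x.card * ∏ i ∈ Finset.univ.filter (fun i => i ∉ Dg.isx),
        (Nat.card {h : G // IsConj h (Dg.g i)} : ℝ) ^ (f i).card with hV
  have hmem : ∀ q ∈ A, Φ q ∈ T := by
    intro q hq
    rw [hA, Finset.mem_product] at hq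
    rw [hT, hΦ, Finset.mem_product, Finset.mem_filter]
    refine ⟨?_, ?_, ?_⟩
    · rw [Fintype.mem_piFinset]
      intro j
      have h1 := Fintype.mem_piFinset.1 hq.1 j
      unfold n1S at h1
      exact (Finset.mem_product.1 (Finset.mem_filter.1 h1).1).1
    · rw [Fintype.mem_piFinset]
      intro k
      have h1 := lexa_sub Dg.xc l M f (lexp_eta x q.1) (lexp_kap hpM x q.2) k
      have h2 := atupa_mem_GF.1 (hGF (bse Dg.xc (eX Dg.xc l M k)))
      exact atupa_mem_GF.2 ⟨le_trans (nr_mono h1) h2.1, fun v hv => h2.2 v (h1 hv)⟩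
    · exact lexa_un Dg.xc l M f _ _
  have hval : ∀ q ∈ A, V ≤ S (Φ q) := by
    intro q hq
    rw [hA, Finset.mem_product] at hq
    rw [hV, hSdef, hΦ]
    refine lexb hp D Dg b c₂ _ f E Y hdj hE hY hnp hc _ _ ?_
    intro i hi v hv j
    have hvx : v ∈ x := hxi i hi v hv
    have h1 := Fintype.mem_piFinset.1 hq.1 j
    unfold n1S at h1
    have h2 := (Finset.mem_filter.1 h1).2 ⟨v, hvx⟩
    rw [lexp_ord D Dg b f E hdj hE hS hb i v hv] at h2
    have h3 : ∏ w ∈ xpr Dg f, D.pi w ^ (lexp_eta x q.1 w j).val =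
        ∏ w : ↥x, D.pi w.1 ^ ((q.1 j).2 w).val := by
      rw [← hx, ← Finset.prod_coe_sort x (fun w => D.pi w ^ (lexp_eta x q.1 w j).val)]
      refine Finset.prod_congr rfl fun w _ => ?_
      unfold lexp_eta
      rw [dif_pos w.2]
    have h4 : lexp_eta x q.1 v j = (q.1 j).2 ⟨v, hvx⟩ := by
      unfold lexp_eta
      rw [dif_pos hvx]
    rw [h3, h4]
    exact h2
  have hinj : Set.InjOn Φ (A : Set _) := by
    intro q _ q' _ h
    have h1 : (fun j => (q.1 j).1) = fun j => (q'.1 j).1 := congrArg Prod.fst h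
    have h2 : rf Dg.xc l M f (lexp_eta x q.1) (lexp_kap hpM x q.2) =
        rf Dg.xc l M f (lexp_eta x q'.1) (lexp_kap hpM x q'.2) := congrArg Prod.snd h
    have h3 := lexa_inj Dg.xc l M f hdj _ _ _ _ h2
    apply Prod.ext
    · funext j
      apply Prod.ext
      · exact congrFun h1 j
      · funext v
        have h4 := congrFun (h3 v.1 v.2).1 j
        unfold lexp_eta at h4
        rw [dif_pos v.2, dif_pos v.2] at h4
        exact h4
    · funext v
      have h4 := (h3 v.1 v.2).2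
      unfold lexp_kap at h4
      rw [dif_pos v.2, dif_pos v.2] at h4
      exact h4
  have hS0 : ∀ t, 0 ≤ S t := by
    intro t
    rw [hSdef]
    exact lexb_nonneg D _ _ c₂ _ (by positivity) _ E Y _
  have hcard : (A.card : ℝ) = (n1 D U x k₀ : ℝ) ^ l * ((p : ℝ) ^ M) ^ x.card := by
    rw [hA, Finset.card_product, Fintype.card_piFinset, Finset.prod_const, Finset.card_univ,
      Finset.card_univ, Fintype.card_fin, Fintype.card_fun, Fintype.card_fin, Fintype.card_coe]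
    unfold n1
    push_cast
    rfl
  calc (∏ i ∈ Finset.univ.filter (fun i => i ∉ Dg.isx),
        (Nat.card {h : G // IsConj h (Dg.g i)} : ℝ) ^ (f i).card) *
      ((p : ℝ) ^ (d + M)) ^ x.card * (n1 D U x k₀ : ℝ) ^ l = A.card * V := by
        rw [hcard, hV, pow_add, mul_pow]
        ring
    _ = ∑ _q ∈ A, V := by rw [Finset.sum_const, nsmul_eq_mul]
    _ ≤ ∑ q ∈ A, S (Φ q) := Finset.sum_le_sum hval
    _ = ∑ t ∈ A.image Φ, S t := by rw [Finset.sum_image hinj]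
    _ ≤ ∑ t ∈ T, S t := by
        apply Finset.sum_le_sum_of_subset_of_nonneg
        · intro t ht
          obtain ⟨q, hq, rfl⟩ := Finset.mem_image.1 ht
          exact hmem q hq
        · intro t _ _
          exact hS0 t
    _ = _ := by rw [hT, Finset.sum_product]

end H77.AB
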