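import Pool.Agent.H77.AB.Part
import Pool.Agent.H63.MB.BEx

/-!
# [H77 AB MXB] the part with a large x-variable as a sum over refined families, 120-180 lines

`part` with `κ = Mx c Xs`, `ι = c.J`, `cl = toMx c Xs`, `F g' = if BigX T g' ∧ ¬ IsPow p (akR D c b (unC Mx.cl g') 0) then 1 else 0` and `h g' a v = ww(a.1 ∈ Xs) v * ep(θ_a · (LL v (akR D c b (unC Mx.cl g') k))_k)`. The only `a'` with `toMx a' = inl a` is `a` itself, and `h = hMx` there; the `a'` with `toMx a' = inr i` are the `⟨i, θ⟩`, `θ ∈ Θ i`, `ww = 1`, and `∑_θ ep(θ · F v) = #Θ_i [Θ_i ⊥ F v] = hMx (inr i)`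
(`rx_char` in H38/BB/CExp). So `MXS … (BigX T)` is the sum over the `g : c.J → GF Y` (`Dj g`, disjoint from `E`, `∏ nr ≤ Y`) of `F (unC (toMx c Xs) g) * ∏_a ∏_{v ∈ g a} h`. Here: `unC Mx.cl (unC (toMx c Xs) g) = unR c g` (both are the union of the `g a` with `a.1 = i`; `rx_mem`); `unC (toMx c Xs) g (inl a) = g a`, so `BigX T` says that some `a` with `a.1 ∈ Xs` has `T < nr (g a)`;
`∏_a ∏_{v ∈ g a} h = (∏_a Wt … a (g a)) * ep(∑_a ∑_{v ∈ g a} θ_a · LL v (akR (unR c g)))` and the exponent is `ph D c.pd b g` by `rx_phase` (the `g a` are sets of good primes, so outside `S0`; `Wt` is formed with `X = univ.filter (a.1 ∈ Xs)`, `a ∈ X` iff `a.1 ∈ Xs`).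
If `BigX` holds then `akR D c b (unR c g) 0` is not a `p`-th power: some `a` with `a.1 ∈ Xs` has `1 ≤ T < nr (g a)`, so there is `v ∈ g a`, and `ord v (akR 0) = (c.x a.1 0).val ≢ 0` modulo `p` (`ord v (b 0) = 0` as `v ∉ S0`, `v ∉ E`; `D.pi_self`, `D.pi_ne`; the sets of `unR c g` are pairwise disjoint; compare `bex_ord_prod` in H63/MB/BEx and `atupb_spf`), while the order of a `p`-th power is divisible by `p`.
-/

set_option autoImplicit false

open scoped NumberField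
open IsDedekindDomain
open scoped Classical

noncomputable section

namespace H77.AB

open H63.MA H38.BB

section

variable {K : Type} [Field K] [NumberField K] {p : ℕ} {ζ : K} {m N : ℕ}

theorem mxb_pos {c : CR p m N} {Xs : Finset (Fin N)} {a : c.J} (h : a.1 ∈ Xs) :
    toMx c Xs a = (Sum.inl ⟨a, h⟩ : Mx c Xs) := dif_pos h

theorem mxb_neg {c : CR p m N} {Xs : Finset (Fin N)} {a : c.J} (h : a.1 ∉ Xs) :
    toMx c Xs a = (Sum.inr ⟨a.1, h⟩ : Mx c Xs) := dif_neg h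

theorem mxb_cl {c : CR p m N} {Xs : Finset (Fin N)} (a : c.J) : Mx.cl (toMx c Xs a) = a.1 := by
  by_cases h : a.1 ∈ Xs
  · rw [mxb_pos h]
    rfl
  · rw [mxb_neg h]
    rfl

theorem mxb_mem {ι κ : Type} [Fintype ι] {cl : ι → κ} {g : ι → Finset (Pl K)} {i : κ}
    {v : Pl K} : v ∈ unC cl g i ↔ ∃ a, cl a = i ∧ v ∈ g a := by
  unfold unC
  simp only [Finset.mem_biUnion, Finset.mem_filter, Finset.mem_univ, true_and]

theorem mxb_un [NeZero p] {c : CR p m N} {Xs : Finset (Fin N)} (g : c.J → Finset (Pl K)) :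
    unC (Mx.cl (c := c) (Xs := Xs)) (unC (toMx c Xs) g) = unR c g := by
  funext i
  ext v
  rw [mxb_mem, rx_mem]
  constructor
  · rintro ⟨a, ha, hv⟩
    obtain ⟨a', ha', hv'⟩ := mxb_mem.1 hv
    refine ⟨a', ?_, hv'⟩
    rw [← mxb_cl (Xs := Xs) a', ha', ha]
  · rintro ⟨a, ha, hv⟩
    exact ⟨toMx c Xs a, by rw [mxb_cl, ha], mxb_mem.2 ⟨a, rfl, hv⟩⟩

theorem mxb_toMx_inl {c : CR p m N} {Xs : Finset (Fin N)} (a : c.J)
    (b : {a : c.J // a.1 ∈ Xs}) : toMx c Xs a = Sum.inl b ↔ a = b.1 := by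
  constructor
  · intro h
    by_cases h1 : a.1 ∈ Xs
    · rw [mxb_pos h1] at h
      exact congrArg Subtype.val (Sum.inl.inj h)
    · rw [mxb_neg h1] at h
      exact absurd h Sum.inr_ne_inl
  · intro h
    subst h
    exact mxb_pos b.2

theorem mxb_toMx_inr {c : CR p m N} {Xs : Finset (Fin N)} (a : c.J)
    (i : {i : Fin N // i ∉ Xs}) : toMx c Xs a = Sum.inr i ↔ a.1 = i.1 := by
  constructor
  · intro h
    by_cases h1 : a.1 ∈ Xs
    · rw [mxb_pos h1] at h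
      exact absurd h Sum.inl_ne_inr
    · rw [mxb_neg h1] at h
      exact congrArg Subtype.val (Sum.inr.inj h)
  · intro h
    have h1 : a.1 ∉ Xs := by
      rw [h]
      exact i.2
    have h2 : (⟨a.1, h1⟩ : {i : Fin N // i ∉ Xs}) = i := Subtype.ext h
    rw [mxb_neg h1, h2]

theorem mxb_inl [NeZero p] {c : CR p m N} {Xs : Finset (Fin N)} (g : c.J → Finset (Pl K))
    (b : {a : c.J // a.1 ∈ Xs}) : unC (toMx c Xs) g (Sum.inl b) = g b.1 := by
  ext v
  constructor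
  · intro hv
    obtain ⟨a, ha, hv⟩ := mxb_mem.1 hv
    rwa [(mxb_toMx_inl a b).1 ha] at hv
  · intro hv
    exact mxb_mem.2 ⟨b.1, (mxb_toMx_inl b.1 b).2 rfl, hv⟩

theorem mxb_big [NeZero p] {c : CR p m N} {Xs : Finset (Fin N)} (T : ℝ)
    (g : c.J → Finset (Pl K)) :
    BigX T (unC (toMx c Xs) g) ↔ ∃ a : c.J, a.1 ∈ Xs ∧ T < nr (g a) := by
  unfold BigX
  constructor
  · rintro ⟨a, ha⟩
    rw [mxb_inl] at ha
    exact ⟨a.1, a.2, ha⟩
  · rintro ⟨a, ha, h⟩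
    refine ⟨⟨a, ha⟩, ?_⟩
    rw [mxb_inl]
    exact h

/-- the factors of the refined expansion -/
def mxbH (D : RD0 K p ζ) (c : CR p m N) (Xs : Finset (Fin N)) {M : ℕ} (c₂ : Fin M → Kˣ) (u : ℝ)
    (b : Fin m → Kˣ) (f : Fin N → Finset (Pl K)) (a : c.J) (v : Pl K) : ℂ :=
  ((ww D c₂ u (a.1 ∈ Xs) v : ℝ) : ℂ) * ep p (dt (c.pd.θ a) (fun k => D.LL v (akR D c b f k)))

theorem mxb_sum [NeZero p] (hp : p.Prime) (D : RD0 K p ζ) (c : CR p m N) (Xs : Finset (Fin N))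
    {M : ℕ} (c₂ : Fin M → Kˣ) (u : ℝ) (b : Fin m → Kˣ) (f : Fin N → Finset (Pl K))
    (a : Mx c Xs) (v : Pl K) :
    ∑ a' ∈ Finset.univ.filter (fun a' : c.J => toMx c Xs a' = a), mxbH D c Xs c₂ u b f a' v =
      hMx D c Xs c₂ u b f a v := by
  rcases a with a | i
  · have h1 : (Finset.univ.filter fun a' : c.J => toMx c Xs a' = Sum.inl a) = {a.1} := by
      ext a'
      rw [Finset.mem_filter, mxb_toMx_inl, Finset.mem_singleton]
      simp
    have h2 : ∑ a' ∈ Finset.univ.filter (fun a' : c.J => toMx c Xs a' = Sum.inl a),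
        mxbH D c Xs c₂ u b f a' v = mxbH D c Xs c₂ u b f a.1 v := by
      rw [h1, Finset.sum_singleton]
    have h3 : hMx D c Xs c₂ u b f (Sum.inl a) v = ((ww D c₂ u True v : ℝ) : ℂ) *
        ep p (dt a.1.2.1 (fun k => D.LL v (akR D c b f k))) := rfl
    have h4 : ww D c₂ u (a.1.1 ∈ Xs) v = ww D c₂ u True v := by
      unfold ww
      rw [if_pos a.2, if_pos trivial]
    refine h2.trans ?_
    rw [h3]
    unfold mxbH
    rw [h4]
    rfl
  · have h1 : (Finset.univ.filter fun a' : c.J => toMx c Xs a' = Sum.inr i) =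
        (Finset.univ : Finset c.J).filter fun a' => a'.1 = i.1 := by
      ext a'
      rw [Finset.mem_filter, mxb_toMx_inr, Finset.mem_filter]
    have h2 : ∑ a' ∈ Finset.univ.filter (fun a' : c.J => toMx c Xs a' = Sum.inr i),
        mxbH D c Xs c₂ u b f a' v =
        ∑ a' ∈ (Finset.univ : Finset c.J).filter (fun a' => a'.1 = i.1),
          ep p (dt (c.pd.θ a') (fun k => D.LL v (akR D c b f k))) := by
      rw [h1]
      refine Finset.sum_congr rfl fun a' ha' => ?_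
      have h3 : a'.1 ∉ Xs := by
        rw [(Finset.mem_filter.1 ha').2]
        exact i.2
      unfold mxbH ww
      rw [if_neg h3, Complex.ofReal_one, one_mul]
    have h4 : ∑ a' ∈ (Finset.univ : Finset c.J).filter (fun a' => a'.1 = i.1),
        ep p (dt (c.pd.θ a') (fun k => D.LL v (akR D c b f k))) =
        ∑ θ : {θ : Fin m → ZMod p // θ ∈ c.Θ i.1},
          ep p (dt θ.1 (fun k => D.LL v (akR D c b f k))) :=
      (rx_sum_filter c Finset.univ i.1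
        (fun a' => ep p (dt (c.pd.θ a') (fun k => D.LL v (akR D c b f k))))).trans
        (Finset.sum_congr rfl fun θ _ => if_pos (Finset.mem_univ _))
    refine h2.trans (h4.trans ?_)
    rw [← rx_char hp]
    by_cases hh : ∀ θ ∈ c.Θ i.1, dt θ (fun k => D.LL v (akR D c b f k)) = 0
    · have h5 : hMx D c Xs c₂ u b f (Sum.inr i) v = (Nat.card (c.Θ i.1) : ℂ) :=
        @if_pos _ _ hh _ _ _
      rw [h5, if_pos hh]
      push_cast
      rfl
    · have h5 : hMx D c Xs c₂ u b f (Sum.inr i) v = 0 := @if_neg _ _ hh _ _ _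
      rw [h5, if_neg hh]
      push_cast
      rfl

theorem mxb_prod [NeZero p] (hp : p.Prime) (hζ : IsPrimitiveRoot ζ p) (D : RD K p ζ)
    (c : CR p m N) (Xs : Finset (Fin N)) {M : ℕ} (c₂ : Fin M → Kˣ) (u : ℝ) (b : Fin m → Kˣ)
    (g : c.J → Finset (Pl K)) (hg : Dj g) (hg0 : ∀ a, ∀ v ∈ g a, v ∉ D.S0) :
    ∏ a, ∏ v ∈ g a, mxbH D.toRD0 c Xs c₂ u b (unR c g) a v =
      (∏ a, Wt D.toRD0 c₂ u (Finset.univ.filter fun a : c.J => a.1 ∈ Xs) a (g a)) *
        ep p (ph D.toRD0 c.pd b g) := by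
  rw [← rx_phase hp hζ D c b g hg hg0, aexp_ep_sum hp, ← Finset.prod_mul_distrib]
  refine Finset.prod_congr rfl fun a _ => ?_
  rw [aexp_ep_sum hp]
  unfold mxbH Wt
  rw [Finset.prod_mul_distrib, Complex.ofReal_prod]
  congr 1
  refine Finset.prod_congr rfl fun v _ => ?_
  unfold ww
  by_cases h : a.1 ∈ Xs
  · have h' : a ∈ Finset.univ.filter fun a : c.J => a.1 ∈ Xs :=
      Finset.mem_filter.2 ⟨Finset.mem_univ _, h⟩
    rw [if_pos h, if_pos h']
  · have h' : a ∉ Finset.univ.filter fun a : c.J => a.1 ∈ Xs := fun h1 =>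
      h (Finset.mem_filter.1 h1).2
    rw [if_neg h, if_neg h']

theorem mxb_pow [NeZero p] (D : RD0 K p ζ) (c : CR p m N) (b : Fin m → Kˣ) (E : Finset (Pl K))
    (hb : BS2 D b E) (f : Fin N → Finset (Pl K)) (hf : Dj f)
    (hf0 : ∀ i, ∀ v ∈ f i, v ∉ D.S0) (hfE : ∀ i, Disjoint (f i) E) (i : Fin N) (v : Pl K)
    (hv : v ∈ f i) (k : Fin m) (hx : c.x i k ≠ 0) : ¬ IsPow p (akR D c b f k) := by
  rintro ⟨y, hy⟩
  have h1 : ord v (akR D c b f k) = ((c.x i k).val : ℤ) := by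
    unfold akR
    rw [ord_mul, hb.2 k v (hf0 i v hv) (Finset.disjoint_left.1 (hfE i) hv), zero_add,
      bex_ord_prod D f hf hf0 (fun i => (c.x i k).val) i v hv]
  rw [← hy, ord_pow] at h1
  have h2 : (p : ℤ) ∣ ((c.x i k).val : ℤ) := ⟨_, h1.symm⟩
  have h3 : p ∣ (c.x i k).val := by exact_mod_cast h2
  have h4 : (c.x i k).val < p := ZMod.val_lt _
  have h5 : (c.x i k).val = 0 := Nat.eq_zero_of_dvd_of_lt h3 h4
  exact hx ((ZMod.val_eq_zero _).1 h5)

end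

theorem mx_p2 {K : Type} [Field K] [NumberField K] {p : ℕ} {ζ : K} {m N : ℕ} [NeZero p]
    (hp : p.Prime) (hζ : IsPrimitiveRoot ζ p) (D : RD K p ζ) (c : CR p (m + 1) N)
    (Xs : Finset (Fin N)) (hx : ∀ i ∈ Xs, c.x i 0 ≠ 0) {M : ℕ} (c₂ : Fin M → Kˣ) (u : ℝ)
    (b : Fin (m + 1) → Kˣ) (E : Finset (Pl K)) (hb : BS2 D.toRD0 b E) (Y T : ℝ) (hT : 1 ≤ T) :
    MXS D.toRD0 c Xs c₂ u b E Y (BigX T) = P2S D.toRD0 c Xs c₂ u b E Y T := by
  have hpart := part (ι := c.J) (κ := Mx c Xs) D.toRD0 (toMx c Xs) E Y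
    (fun g' => if BigX T g' ∧ ¬ IsPow p (akR D.toRD0 c b (unC Mx.cl g') 0) then 1 else 0)
    (fun g' a v => mxbH D.toRD0 c Xs c₂ u b (unC Mx.cl g') a v)
  have hL : MXS D.toRD0 c Xs c₂ u b E Y (BigX T) =
      ∑ f ∈ Fintype.piFinset (fun _ : Mx c Xs => GF D.toRD0 Y),
      (if Dj f ∧ (∀ i, Disjoint (f i) E) ∧ ∏ i, nr (f i) ≤ Y then
        (if BigX T f ∧ ¬ IsPow p (akR D.toRD0 c b (unC Mx.cl f) 0) then 1 else 0) *
          ∏ i, ∏ v ∈ f i, ∑ a ∈ Finset.univ.filter (fun a => toMx c Xs a = i),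
            mxbH D.toRD0 c Xs c₂ u b (unC Mx.cl f) a v else 0) := by
    unfold MXS
    refine Finset.sum_congr rfl fun f _ => ?_
    have h1 : ∏ i, ∏ v ∈ f i, ∑ a ∈ Finset.univ.filter (fun a => toMx c Xs a = i),
        mxbH D.toRD0 c Xs c₂ u b (unC Mx.cl f) a v =
        ∏ a, ∏ v ∈ f a, hMx D.toRD0 c Xs c₂ u b (unC Mx.cl f) a v :=
      Finset.prod_congr rfl fun i _ => Finset.prod_congr rfl fun v _ =>
        mxb_sum hp D.toRD0 c Xs c₂ u b (unC Mx.cl f) i v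
    rw [h1]
  rw [hL, hpart]
  unfold P2S
  refine Finset.sum_congr rfl fun g hg => ?_
  by_cases hC : Dj g ∧ (∀ a, Disjoint (g a) E) ∧ ∏ a, nr (g a) ≤ Y
  · rw [if_pos hC, if_pos hC]
    obtain ⟨hD, hE, -⟩ := hC
    have hg0 : ∀ a, ∀ v ∈ g a, v ∉ D.S0 := fun a v hv =>
      ((rx_mem_GF.1 (Fintype.mem_piFinset.1 hg a)).2 v hv).1
    rw [mxb_un, mxb_prod hp hζ D c Xs c₂ u b g hD hg0]
    congr 1
    by_cases hB : ∃ a : c.J, a.1 ∈ Xs ∧ T < nr (g a)
    · rw [if_pos hB, if_pos]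
      refine ⟨(mxb_big T g).2 hB, ?_⟩
      obtain ⟨a, ha, hT'⟩ := hB
      have hne : (g a).Nonempty := by
        rw [Finset.nonempty_iff_ne_empty]
        intro h0
        rw [h0, nr, Finset.prod_empty] at hT'
        linarith
      obtain ⟨v, hv⟩ := hne
      refine mxb_pow D.toRD0 c b E hb (unR c g) (rx_dj hD) ?_ ((rx_disj c g E).2 hE) a.1 v
        (rx_mem.2 ⟨a, rfl, hv⟩) 0 (hx a.1 ha)
      intro i w hw
      obtain ⟨a', -, ha'⟩ := rx_mem.1 hw
      exact hg0 a' w ha'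
    · rw [if_neg hB, if_neg]
      intro h
      exact hB ((mxb_big T g).1 h.1)
  · rw [if_neg hC, if_neg hC]

end H77.AB
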