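import Mathlib

/-!
# [H77 AB NUM] a numerical lemma, 30-60 lines

For `Y` large: `log Y ≥ 1`, `(1 + log ((log Y)^B))^n ≤ (log Y)^ε` and `((log Y)^B)^n ≤ Y^(1/8)`.
Proof. `x = log Y → ∞`. `log (x^B) = B log x`, `(1 + B log x)^n = o(x^ε)` (`isLittleO_log_rpow_atTop`, or `isLittleO_pow_log_id_atTop`; compare `aup_large` in H63/MA/AUp.lean), and `(log Y)^{Bn} = o(Y^(1/8))` (`isLittleO_log_rpow_rpow_atTop` or `Real.isLittleO_pow_log_id_atTop` applied to a power of `Y`).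
-/

set_option autoImplicit false

namespace H77.AB

private theorem num_one (c : ℝ) {r : ℝ} (hr : 0 < r) :
    ∀ᶠ x : ℝ in Filter.atTop, 1 + c * Real.log x ≤ x ^ r := by
  have h1 : (fun x : ℝ => 1 + c * Real.log x) =o[Filter.atTop] fun x : ℝ => x ^ r := by
    refine Asymptotics.IsLittleO.add ?_ ?_
    · rw [Asymptotics.isLittleO_const_left]
      right
      have h2 : Filter.Tendsto (fun x : ℝ => x ^ r) Filter.atTop Filter.atTop :=
        tendsto_rpow_atTop hr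
      exact tendsto_norm_atTop_atTop.comp h2
    · exact (isLittleO_log_rpow_atTop hr).const_mul_left c
  filter_upwards [h1.bound one_pos, Filter.eventually_ge_atTop (1 : ℝ)] with x hx hx1
  rw [one_mul, Real.norm_eq_abs, Real.norm_eq_abs,
    abs_of_nonneg (Real.rpow_nonneg (by linarith) r)] at hx
  exact (le_abs_self _).trans hx

private theorem num_pow {x t r s : ℝ} {n : ℕ} (hx : 1 ≤ x) (ht : 0 ≤ t) (h : t ≤ x ^ r)
    (hs : r * n ≤ s) : t ^ n ≤ x ^ s := by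
  calc t ^ n ≤ (x ^ r) ^ n := pow_le_pow_left₀ ht h n
    _ = x ^ (r * n) := by rw [← Real.rpow_natCast, ← Real.rpow_mul (by linarith)]
    _ ≤ x ^ s := Real.rpow_le_rpow_of_exponent_le hx hs

theorem num (B n : ℕ) (ε : ℝ) (hε : 0 < ε) : ∃ Y₀ : ℝ, 9 ≤ Y₀ ∧ ∀ Y : ℝ, Y₀ ≤ Y →
    1 ≤ Real.log Y ∧ (1 + Real.log (Real.log Y ^ B)) ^ n ≤ Real.log Y ^ ε ∧
      (Real.log Y ^ B) ^ n ≤ Y ^ (1 / 8 : ℝ) := by
  have hn : (0 : ℝ) < (n : ℝ) + 1 := by positivity
  have hBn : (0 : ℝ) < ((B * n : ℕ) : ℝ) + 1 := by positivity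
  have e1 := Real.tendsto_log_atTop.eventually (num_one B (r := ε / (n + 1)) (by positivity))
  have e2 := num_one 1 (r := (1 / 8) / (((B * n : ℕ) : ℝ) + 1)) (by positivity)
  have e3 := Real.tendsto_log_atTop.eventually (Filter.eventually_ge_atTop (1 : ℝ))
  have e4 := Filter.eventually_ge_atTop (9 : ℝ)
  obtain ⟨Y₀, hY₀⟩ := Filter.eventually_atTop.1 (((e1.and e2).and e3).and e4)
  refine ⟨max Y₀ 9, le_max_right _ _, ?_⟩
  intro Y hY
  obtain ⟨⟨⟨h1, h2⟩, h3⟩, h4⟩ := hY₀ Y ((le_max_left _ _).trans hY)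
  refine ⟨h3, ?_, ?_⟩
  · rw [Real.log_pow]
    refine num_pow h3 ?_ h1 ?_
    · have : 0 ≤ Real.log (Real.log Y) := Real.log_nonneg h3
      positivity
    · rw [div_mul_eq_mul_div, div_le_iff₀ hn]
      nlinarith
  · rw [← pow_mul]
    refine num_pow (by linarith) (by linarith) (r := (1 / 8) / (((B * n : ℕ) : ℝ) + 1)) ?_ ?_
    · linarith
    · rw [div_mul_eq_mul_div, div_le_iff₀ hBn]
      nlinarith

end H77.AB
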