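import Pool.Agent.H77.AB.Part
import Pool.Agent.H77.AB.Hrc
import Pool.Agent.H77.AB.Msk
import Pool.Agent.H77.AB.Thr
import Pool.Agent.H77.AB.Num

/-!
# [H77 AB P1] Part I: all x-variables are small, 180-260 lines

The classes `i ∉ Xs` have `x i 0 = 0` and `Θ i ⊆ F_p e_0`; `N_R` is their number. `|MXS (all x-variables ≤ T)| ≤ C (nr E)^η Y (log Y)^(N_R - 1/2)`, `T = (log Y)^B`.

Proof. A mixed family `g` is a pair `(x, r)`, `x a = g (inl a) ∈ GF T`, `r i = g (inr i) ∈ GF Y`. `|hMx (inl a) v| ≤ 1` (`ww_le`). Let `k₀ = akR D c b (unC Mx.cl g) 0`; since `x i 0 = 0` for `i ∉ Xs` it depends only on `x`: `k₀ = b 0 * ∏_{i ∈ Xs} ∏_{w ∈ ⋃ x a} pi w ^ (c.x i 0).val`. For `i ∉ Xs`, `θ ∈ Θ i`: `θ · (LL v (akR k))_k = θ 0 * LL v k₀`.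
So the absolute value of the term is at most `[k₀ not a p-th power] ∏_i ∏_{v ∈ r i} A_i(v)`, `A_i(v) = #Θ_i [θ 0 * LL v k₀ = 0 for all θ ∈ Θ_i]`. Fix `x` with `k₀` not a `p`-th power; `E' = E ∪ ⋃ x a` (outside `S0`), `b' k = if k = 0 then k₀ else 1`: `BS2 D b' E'` (`ord v k₀ = 0` outside `S0 ∪ E'`: `D.pi_ne`). The `r i` are pairwise disjoint, disjoint from `E'`, `∏ nr (r i) ≤ Y' = Y / ∏ nr (x a)`.
`part` with `κ = Unit`, `ι = {i // i ∉ Xs}`, `F = 1`, `h f i v = A_i(v)`: the sum over `r` is `∑_{n ∈ GF Y', n ∩ E' = ∅} ∏_{v ∈ n} ∑_{i ∉ Xs} A_i(v)`. `A_i(v) = ∑_{θ ∈ Θ_i} Re ep(θ · (LL v (b' k))_k)` (`rx_char`), and `θ · (LL v (b' k))_k = fE E' (fun w => lam w * dord b' θ w) κ_θ v` (`aph_rec2` in H63/MB/BPhA); for `θ ≠ 0` in `Θ_i` this character is not trivial: otherwise `LL v (bp b' θ) = 0` for all good `v`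
(`aph_bp`), so `bp b' θ = k₀ ^ (θ 0).val` is a `p`-th power (`D.non`), and so is `k₀` (`θ 0 ≠ 0`, Bezout). `hrc` with `ι = c.J` (`cf a = 1` if `a.1 ∉ Xs`, `0` otherwise; `A₀ = #J + 1`), `η'` and `Y' ≥ Y^{1/2} ≥ 3` (`∏ nr (x a) ≤ T^{#J} ≤ Y^{1/8}`, `num`): `≤ C₁ (nr E')^{η'} Y' (log Y')^{N_R - 1} ≤ 2 C₁ (nr E')^{η'} Y' (log Y)^{N_R - 1}` (`log Y' ≥ (1/2) log Y`).
`nr E' ≤ nr E * T^{#J}` (`akb_nr_union`, `akb_nr_biUnion` in H63/MA/AKB). With `η' = min η (1 / (4 B #J + 4))`: `(nr E')^{η'} ≤ (nr E)^η (log Y)^{1/4}` (`T^{#J} = (log Y)^{B #J}`, `nr E ≥ 1`). The sum over `x` of `∏ (nr (x a))^{-1}` is at most `C₂ (1 + log T)^{#J} ≤ C₂ (log Y)^{1/4}` (`thr_sum` for `J' = {a : c.J // a.1 ∈ Xs}`, `Lg = ∅`, and `num` with `n ≥ #J'`).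
Total exponent of `log Y`: `N_R - 1 + 1/4 + 1/4`.
-/

set_option autoImplicit false

open scoped NumberField
open IsDedekindDomain
open scoped Classical

noncomputable section

namespace H77.AB

open H63.MA H38.BB

section aux

variable {K : Type} [Field K] [NumberField K] {p : ℕ} {ζ : K} {m N : ℕ}

private theorem p1_inst {T X : Type} [Fintype T] (i1 i2 : DecidableEq T) (t : T → Finset X) :
    @Fintype.piFinset T i1 _ (fun _ => X) t = @Fintype.piFinset T i2 _ (fun _ => X) t := by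
  rw [Subsingleton.elim i1 i2]

/-- the mixed family of a pair -/
private def p1g {c : CR p m N} {Xs : Finset (Fin N)}
    (x : {a : c.J // a.1 ∈ Xs} → Finset (Pl K)) (r : {i : Fin N // i ∉ Xs} → Finset (Pl K)) :
    Mx c Xs → Finset (Pl K) := Sum.elim x r

private theorem p1_split [NeZero p] (c : CR p m N) (Xs : Finset (Fin N))
    (S : Finset (Finset (Pl K))) (F : (Mx c Xs → Finset (Pl K)) → ℝ) :
    ∑ g ∈ Fintype.piFinset (fun _ : Mx c Xs => S), F g =
      ∑ x ∈ Fintype.piFinset (fun _ : {a : c.J // a.1 ∈ Xs} => S),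
        ∑ r ∈ Fintype.piFinset (fun _ : {i : Fin N // i ∉ Xs} => S), F (p1g x r) := by
  rw [← Finset.sum_product']
  refine Finset.sum_nbij' (fun g => (fun a => g (Sum.inl a), fun i => g (Sum.inr i)))
    (fun q => p1g q.1 q.2) ?_ ?_ ?_ ?_ ?_
  · intro g hg
    rw [Fintype.mem_piFinset] at hg
    rw [Finset.mem_product, Fintype.mem_piFinset, Fintype.mem_piFinset]
    exact ⟨fun a => hg _, fun i => hg _⟩
  · rintro ⟨x, r⟩ h
    rw [Finset.mem_product, Fintype.mem_piFinset, Fintype.mem_piFinset] at h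
    rw [Fintype.mem_piFinset]
    rintro (a | i)
    · exact h.1 a
    · exact h.2 i
  · intro g _
    funext a
    rcases a with a | i
    · rfl
    · rfl
  · rintro ⟨x, r⟩ _
    rfl
  · intro g _
    congr 1
    funext a
    rcases a with a | i
    · rfl
    · rfl

private theorem p1_unC {ι κ : Type} [Fintype ι] (cl : ι → κ) (g g' : ι → Finset (Pl K)) (i : κ)
    (h : ∀ a, cl a = i → g a = g' a) : unC cl g i = unC cl g' i := by
  unfold unC
  refine Finset.biUnion_congr rfl fun a ha => ?_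
  rw [Finset.mem_filter] at ha
  exact h a ha.2

private theorem p1_mem_unC {ι κ : Type} [Fintype ι] (cl : ι → κ) (g : ι → Finset (Pl K)) (i : κ)
    (v : Pl K) : v ∈ unC cl g i ↔ ∃ a, cl a = i ∧ v ∈ g a := by
  unfold unC
  rw [Finset.mem_biUnion]
  constructor
  · rintro ⟨a, ha, hv⟩
    rw [Finset.mem_filter] at ha
    exact ⟨a, ha.2, hv⟩
  · rintro ⟨a, ha, hv⟩
    exact ⟨a, Finset.mem_filter.2 ⟨Finset.mem_univ _, ha⟩, hv⟩

private theorem p1_ak [NeZero p] (D : RD0 K p ζ) (c : CR p (m + 1) N) (Xs : Finset (Fin N))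
    (hr : ∀ i, i ∉ Xs → c.x i 0 = 0) (b : Fin (m + 1) → Kˣ) (g : Mx c Xs → Finset (Pl K)) :
    akR D c b (unC Mx.cl g) 0 =
      akR D c b (unC Mx.cl (p1g (c := c) (fun a => g (Sum.inl a)) fun _ => ∅)) 0 := by
  unfold akR
  congr 1
  refine Finset.prod_congr rfl fun i _ => ?_
  by_cases hi : i ∈ Xs
  · have h : unC Mx.cl g i =
        unC Mx.cl (p1g (c := c) (fun a => g (Sum.inl a)) fun _ => ∅) i := by
      refine p1_unC _ _ _ i fun a ha2 => ?_
      rcases a with a | j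
      · rfl
      · exfalso
        apply j.2
        have : j.1 = i := ha2
        rw [this]
        exact hi
    rw [h]
  · have h : ∀ f : Finset (Pl K), ∏ w ∈ f, D.pi w ^ (c.x i 0).val = 1 := by
      intro f
      rw [hr i hi, ZMod.val_zero]
      simp
    rw [h, h]

/-- the majorant of a factor -/
private def p1A (D : RD0 K p ζ) (c : CR p (m + 1) N) (k₀ : Kˣ) (i : Fin N) (v : Pl K) : ℝ :=
  if ∀ θ ∈ c.Θ i, θ 0 * D.LL v k₀ = 0 then (Nat.card (c.Θ i) : ℝ) else 0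

private theorem p1A_nonneg (D : RD0 K p ζ) (c : CR p (m + 1) N) (k₀ : Kˣ) (i : Fin N)
    (v : Pl K) : 0 ≤ p1A D c k₀ i v := by
  unfold p1A
  split_ifs
  · exact Nat.cast_nonneg _
  · exact le_rfl

private theorem p1_dt {θ : Fin (m + 1) → ZMod p} (h : ∀ k, k ≠ 0 → θ k = 0)
    (y : Fin (m + 1) → ZMod p) : dt θ y = θ 0 * y 0 := by
  unfold dt
  rw [Finset.sum_eq_single 0]
  · intro k _ hk
    rw [h k hk, zero_mul]
  · intro h
    exact absurd (Finset.mem_univ _) h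

private theorem p1_term [NeZero p] (D : RD0 K p ζ) (c : CR p (m + 1) N)
    (Xs : Finset (Fin N))
    (hr : ∀ i, i ∉ Xs → c.x i 0 = 0 ∧ ∀ θ ∈ c.Θ i, ∀ k, k ≠ 0 → θ k = 0) {M : ℕ}
    (c₂ : Fin M → Kˣ) {u : ℝ} (hu : 0 ≤ u) (hu1 : u ≤ 1) (b : Fin (m + 1) → Kˣ)
    (f : Fin N → Finset (Pl K)) (g : Mx c Xs → Finset (Pl K)) :
    ‖∏ a, ∏ v ∈ g a, hMx D c Xs c₂ u b f a v‖ ≤
      ∏ i : {i : Fin N // i ∉ Xs}, ∏ v ∈ g (Sum.inr i), p1A D c (akR D c b f 0) i.1 v := by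
  have h1 : ‖∏ a, ∏ v ∈ g a, hMx D c Xs c₂ u b f a v‖ =
      (∏ a : {a : c.J // a.1 ∈ Xs}, ∏ v ∈ g (Sum.inl a), ‖hMx D c Xs c₂ u b f (Sum.inl a) v‖) *
      ∏ i : {i : Fin N // i ∉ Xs}, ∏ v ∈ g (Sum.inr i), ‖hMx D c Xs c₂ u b f (Sum.inr i) v‖ := by
    rw [norm_prod]
    simp only [norm_prod]
    exact Fintype.prod_sum_type _
  rw [h1]
  have h2 : ∀ (i : {i : Fin N // i ∉ Xs}) (v : Pl K),
      ‖hMx D c Xs c₂ u b f (Sum.inr i) v‖ = p1A D c (akR D c b f 0) i.1 v := by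
    intro i v
    unfold p1A
    have he : (∀ θ ∈ c.Θ i.1, dt θ (fun k => D.LL v (akR D c b f k)) = 0) ↔
        ∀ θ ∈ c.Θ i.1, θ 0 * D.LL v (akR D c b f 0) = 0 := by
      refine forall_congr' fun θ => forall_congr' fun hθ => ?_
      rw [p1_dt ((hr i.1 i.2).2 θ hθ)]
    by_cases h : ∀ θ ∈ c.Θ i.1, θ 0 * D.LL v (akR D c b f 0) = 0
    · have h5 : hMx D c Xs c₂ u b f (Sum.inr i) v = (Nat.card (c.Θ i.1) : ℂ) :=
        if_pos (he.2 h)
      rw [if_pos h, h5, Complex.norm_natCast]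
    · have h5 : hMx D c Xs c₂ u b f (Sum.inr i) v = 0 := if_neg (fun h' => h (he.1 h'))
      rw [if_neg h, h5, norm_zero]
  have h3 : ∀ (a : {a : c.J // a.1 ∈ Xs}) (v : Pl K),
      ‖hMx D c Xs c₂ u b f (Sum.inl a) v‖ ≤ 1 := by
    intro a v
    show ‖((ww D c₂ u True v : ℝ) : ℂ) * ep p _‖ ≤ 1
    have h4 := ww_le D c₂ hu hu1 True v
    rw [norm_mul, ep_norm, mul_one, Complex.norm_real, Real.norm_eq_abs, abs_of_nonneg h4.1]
    exact h4.2
  simp only [h2]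
  refine mul_le_of_le_one_left ?_ ?_
  · exact Finset.prod_nonneg fun i _ => Finset.prod_nonneg fun v _ => p1A_nonneg D c _ _ v
  · exact Finset.prod_le_one (fun a _ => Finset.prod_nonneg fun v _ => norm_nonneg _)
      fun a _ => Finset.prod_le_one (fun v _ => norm_nonneg _) fun v _ => h3 a v

/-- the element `b'` -/
private def p1b (m : ℕ) (k₀ : Kˣ) (k : Fin (m + 1)) : Kˣ := if k = 0 then k₀ else 1

/-- the coefficients -/
private def p1cf (c : CR p (m + 1) N) (Xs : Finset (Fin N)) (j : c.J) : ℝ :=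
  if j.1 ∉ Xs then 1 else 0

private theorem p1_hrc [NeZero p] (hp : p.Prime)
    (D : RD K p ζ) (c : CR p (m + 1) N) (Xs : Finset (Fin N))
    (hr : ∀ i, i ∉ Xs → c.x i 0 = 0 ∧ ∀ θ ∈ c.Θ i, ∀ k, k ≠ 0 → θ k = 0)
    (k₀ : Kˣ) (hk : ¬ IsPow p k₀) (E : Finset (Pl K)) (hb : BS2 D.toRD0 (p1b m k₀) E) :
    ∃ (μ : c.J → Pl K → ZMod p) (κ : c.J → Fin D.r → ZMod p),
      (∀ v, D.Gd v → ∑ i : {i : Fin N // i ∉ Xs}, p1A D.toRD0 c k₀ i.1 v ≤
        ∑ j : c.J, p1cf c Xs j * (ep p (fE D.toRD0 E (μ j) (κ j) v)).re) ∧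
      ∑ j ∈ Finset.univ.filter (fun j => (∀ w ∈ E, μ j w = 0) ∧ κ j = 0), p1cf c Xs j ≤
        ((Finset.univ.filter fun i => i ∉ Xs).card : ℝ) := by
  have : Fact p.Prime := ⟨hp⟩
  choose κ hκ using fun j : c.J => aph_rec2 D (p1b m k₀) E hb j.2.1
  refine ⟨fun j w => D.lam w * dord (p1b m k₀) j.2.1 w, κ, ?_, ?_⟩
  · intro v hv
    apply le_of_eq
    rw [rx_sum_J]
    have h1 : ∀ i : Fin N, (∑ θ : {θ : Fin (m + 1) → ZMod p // θ ∈ c.Θ i},
        p1cf c Xs (⟨i, θ⟩ : c.J) * (ep p (fE D.toRD0 E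
          (fun w => D.lam w * dord (p1b m k₀) (⟨i, θ⟩ : c.J).2.1 w) (κ ⟨i, θ⟩) v)).re) =
        if i ∉ Xs then p1A D.toRD0 c k₀ i v else 0 := by
      intro i
      by_cases hi : i ∈ Xs
      · rw [if_neg (not_not.2 hi)]
        refine Finset.sum_eq_zero fun θ _ => ?_
        have h2 : p1cf c Xs (⟨i, θ⟩ : c.J) = 0 := if_neg (not_not.2 hi)
        rw [h2, zero_mul]
      · rw [if_pos hi]
        have h2 : ∀ θ : {θ : Fin (m + 1) → ZMod p // θ ∈ c.Θ i},
            p1cf c Xs (⟨i, θ⟩ : c.J) = 1 := fun θ => if_pos hi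
        have h3 := congrArg Complex.re (rx_char hp (c.Θ i) (fun k => D.LL v (p1b m k₀ k)))
        rw [Complex.ofReal_re, Complex.re_sum] at h3
        have h4 : p1A D.toRD0 c k₀ i v = if ∀ δ ∈ c.Θ i,
            dt δ (fun k => D.LL v (p1b m k₀ k)) = 0 then (Nat.card (c.Θ i) : ℝ) else 0 := by
          unfold p1A
          have he : (∀ θ ∈ c.Θ i, dt θ (fun k => D.LL v (p1b m k₀ k)) = 0) ↔
              ∀ θ ∈ c.Θ i, θ 0 * D.LL v k₀ = 0 := by
            refine forall_congr' fun θ => forall_congr' fun hθ => ?_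
            rw [p1_dt ((hr i hi).2 θ hθ)]
            simp [p1b]
          by_cases h : ∀ θ ∈ c.Θ i, θ 0 * D.LL v k₀ = 0
          · rw [if_pos h, if_pos (he.2 h)]
          · rw [if_neg h, if_neg (fun h' => h (he.1 h'))]
        rw [h4, h3]
        refine Finset.sum_congr rfl fun θ _ => ?_
        rw [h2, one_mul]
        congr 2
        exact (hκ ⟨i, θ⟩ v hv).symm
    rw [Finset.sum_congr rfl fun i _ => h1 i, ← Finset.sum_filter]
    exact (Finset.sum_subtype (Finset.univ.filter fun i => i ∉ Xs) (by simp)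
      (fun i => p1A D.toRD0 c k₀ i v)).symm
  · have h1 : ∑ j ∈ Finset.univ.filter (fun j : c.J => (∀ w ∈ E,
        D.lam w * dord (p1b m k₀) j.2.1 w = 0) ∧ κ j = 0), p1cf c Xs j =
        (((Finset.univ.filter (fun j : c.J => (∀ w ∈ E,
          D.lam w * dord (p1b m k₀) j.2.1 w = 0) ∧ κ j = 0)).filter
            fun j => j.1 ∉ Xs).card : ℝ) := by
      unfold p1cf
      rw [Finset.sum_boole]
    rw [h1]
    have h2 : ((Finset.univ.filter (fun j : c.J => (∀ w ∈ E,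
          D.lam w * dord (p1b m k₀) j.2.1 w = 0) ∧ κ j = 0)).filter
            fun j => j.1 ∉ Xs).card ≤ (Finset.univ.filter fun i => i ∉ Xs).card := by
      have hz : ∀ j : c.J, ((∀ w ∈ E, D.lam w * dord (p1b m k₀) j.2.1 w = 0) ∧ κ j = 0) →
          j.1 ∉ Xs → j.2.1 = 0 := by
        rintro j ⟨h3, h4⟩ hj
        have h5 := (hr j.1 hj).2 j.2.1 j.2.2
        obtain ⟨v, hv, _, _, hne⟩ := D.non k₀ hk ∅
        have h6 := hκ j v hv
        rw [p1_dt h5, h4] at h6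
        have h7 : dt (0 : Fin D.r → ZMod p) (D.q v) = 0 := by simp [dt]
        rw [h7, add_zero, Finset.sum_eq_zero fun w hw => by rw [h3 w hw, zero_mul]] at h6
        have h8 : D.LL v (p1b m k₀ 0) = D.LL v k₀ := by simp [p1b]
        rw [h8] at h6
        have h9 : j.2.1 0 = 0 := (mul_eq_zero.1 h6).resolve_right hne
        funext k
        by_cases hk0 : k = 0
        · rw [hk0, h9]
          rfl
        · rw [h5 k hk0]
          rfl
      refine Finset.card_le_card_of_injOn (fun j : c.J => j.1) ?_ ?_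
      · intro j hj
        rw [Finset.mem_coe, Finset.mem_filter, Finset.mem_filter] at hj
        rw [Finset.mem_coe, Finset.mem_filter]
        exact ⟨Finset.mem_univ _, hj.2⟩
      · intro j hj j' hj' h
        rw [Finset.mem_coe, Finset.mem_filter, Finset.mem_filter] at hj hj'
        have e1 := hz j hj.1.2 hj.2
        have e2 := hz j' hj'.1.2 hj'.2
        obtain ⟨i, θ, hθ⟩ := j
        obtain ⟨i', θ', hθ'⟩ := j'
        simp only at h e1 e2
        subst h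
        subst e1
        subst e2
        rfl
    exact_mod_cast h2

/-- the sum over one variable -/
private theorem p1_part (D : RD0 K p ζ) {ι : Type} [Fintype ι] [DecidableEq ι] (E : Finset (Pl K)) (Y : ℝ)
    (h : ι → Pl K → ℝ) :
    ∑ g ∈ Fintype.piFinset (fun _ : ι => GF D Y),
      (if Dj g ∧ (∀ a, Disjoint (g a) E) ∧ ∏ a, nr (g a) ≤ Y then
        ∏ a, ∏ v ∈ g a, h a v else 0) =
    ∑ n ∈ (GF D Y).filter (fun n => Disjoint n E), ∏ v ∈ n, ∑ a, h a v := by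
  have h1 := part (ι := ι) (κ := Unit) D (fun _ => ()) E Y (fun _ => 1)
    (fun _ a v => ((h a v : ℝ) : ℂ))
  have h2 : (∑ f ∈ Fintype.piFinset (fun _ : Unit => GF D Y),
      (if Dj f ∧ (∀ i, Disjoint (f i) E) ∧ ∏ i, nr (f i) ≤ Y then
        (1 : ℂ) * ∏ i, ∏ v ∈ f i, ∑ a ∈ Finset.univ.filter (fun _ : ι => () = i),
          ((h a v : ℝ) : ℂ) else 0)) =
      ((∑ n ∈ (GF D Y).filter (fun n => Disjoint n E), ∏ v ∈ n, ∑ a, h a v : ℝ) : ℂ) := by
    rw [Finset.sum_filter, Complex.ofReal_sum]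
    refine Finset.sum_nbij' (fun f => f ()) (fun n _ => n) ?_ ?_ ?_ ?_ ?_
    · intro f hf
      exact Fintype.mem_piFinset.1 hf ()
    · intro n hn
      exact Fintype.mem_piFinset.2 fun _ => hn
    · intro f _
      rfl
    · intro n _
      rfl
    · intro f hf
      have hf1 := (akb_mem_GF D).1 (Fintype.mem_piFinset.1 hf ())
      have hD : Dj f := fun a a' hne => absurd (Subsingleton.elim a a') hne
      by_cases hE : Disjoint (f ()) E
      · have hc : Dj f ∧ (∀ i, Disjoint (f i) E) ∧ ∏ i, nr (f i) ≤ Y := by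
          refine ⟨hD, fun i => hE, ?_⟩
          rw [Fintype.prod_unique]
          exact hf1.1
        rw [if_pos hc, if_pos hE, one_mul, Fintype.prod_unique, Complex.ofReal_prod]
        refine Finset.prod_congr rfl fun v _ => ?_
        rw [Complex.ofReal_sum]
        refine Finset.sum_congr ?_ fun _ _ => rfl
        ext a
        simp
      · have hc : ¬ (Dj f ∧ (∀ i, Disjoint (f i) E) ∧ ∏ i, nr (f i) ≤ Y) :=
          fun h => hE (h.2.1 ())
        rw [if_neg hc, if_neg hE, Complex.ofReal_zero]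
  rw [h2] at h1
  have h3 : (∑ g ∈ Fintype.piFinset (fun _ : ι => GF D Y),
      (if Dj g ∧ (∀ a, Disjoint (g a) E) ∧ ∏ a, nr (g a) ≤ Y then
        (1 : ℂ) * ∏ a, ∏ v ∈ g a, ((h a v : ℝ) : ℂ) else 0)) =
      ((∑ g ∈ Fintype.piFinset (fun _ : ι => GF D Y),
      (if Dj g ∧ (∀ a, Disjoint (g a) E) ∧ ∏ a, nr (g a) ≤ Y then
        ∏ a, ∏ v ∈ g a, h a v else 0) : ℝ) : ℂ) := by
    rw [Complex.ofReal_sum]
    refine Finset.sum_congr rfl fun g _ => ?_
    split_ifs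
    · rw [one_mul, Complex.ofReal_prod]
      refine Finset.prod_congr rfl fun a _ => ?_
      rw [Complex.ofReal_prod]
    · rw [Complex.ofReal_zero]
  rw [h3] at h1
  exact_mod_cast h1.symm

private theorem p1_inner [NeZero p] (D : RD0 K p ζ) (c : CR p (m + 1) N) (Xs : Finset (Fin N))
    (k₀ : Kˣ) (E : Finset (Pl K)) (Y : ℝ) (x : {a : c.J // a.1 ∈ Xs} → Finset (Pl K)) :
    ∑ r ∈ Fintype.piFinset (fun _ : {i : Fin N // i ∉ Xs} => GF D Y),
      (if Dj (p1g x r) ∧ (∀ a, Disjoint (p1g x r a) E) ∧ ∏ a, nr (p1g x r a) ≤ Y then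
        ∏ i : {i : Fin N // i ∉ Xs}, ∏ v ∈ r i, p1A D c k₀ i.1 v else 0) ≤
      ∑ n ∈ (GF D (Y / ∏ a, nr (x a))).filter
        (fun n => Disjoint n (E ∪ Finset.univ.biUnion x)),
        ∏ v ∈ n, ∑ i : {i : Fin N // i ∉ Xs}, p1A D c k₀ i.1 v := by
  rw [← p1_part D (E ∪ Finset.univ.biUnion x) (Y / ∏ a, nr (x a))
    (fun (i : {i : Fin N // i ∉ Xs}) v => p1A D c k₀ i.1 v), ← Finset.sum_filter,
    ← Finset.sum_filter]
  have hxp : 0 < ∏ a, nr (x a) := Finset.prod_pos fun a _ => akb_nr_pos _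
  refine Finset.sum_le_sum_of_subset_of_nonneg ?_ ?_
  · intro r hr
    rw [Finset.mem_filter, Fintype.mem_piFinset] at hr
    obtain ⟨h1, h2, h3, h4⟩ := hr
    have h5 : ∏ a, nr (p1g x r a) = (∏ a, nr (x a)) * ∏ i, nr (r i) :=
      Fintype.prod_sum_type _
    rw [h5] at h4
    have h6 : ∏ i, nr (r i) ≤ Y / ∏ a, nr (x a) := by
      rw [le_div_iff₀ hxp, mul_comm]
      exact h4
    rw [Finset.mem_filter, Fintype.mem_piFinset]
    refine ⟨fun i => ?_, ?_, ?_, h6⟩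
    · rw [akb_mem_GF]
      refine ⟨le_trans ?_ h6, ((akb_mem_GF D).1 (h1 i)).2⟩
      rw [← Finset.mul_prod_erase Finset.univ (fun i => nr (r i)) (Finset.mem_univ i)]
      refine le_mul_of_one_le_right (akb_nr_pos _).le ?_
      calc (1 : ℝ) = ∏ _j ∈ Finset.univ.erase i, (1 : ℝ) := by rw [Finset.prod_const_one]
        _ ≤ _ := Finset.prod_le_prod (fun _ _ => zero_le_one) fun j _ => one_le_nr (r j)
    · intro i i' hne
      exact h2 (Sum.inr i) (Sum.inr i') fun h => hne (Sum.inr_injective h)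
    · intro i
      rw [Finset.disjoint_union_right]
      refine ⟨h3 (Sum.inr i), ?_⟩
      rw [Finset.disjoint_biUnion_right]
      intro a _
      exact h2 (Sum.inr i) (Sum.inl a) (by simp)
  · intro r _ _
    exact Finset.prod_nonneg fun i _ => Finset.prod_nonneg fun v _ => p1A_nonneg D c _ _ v

private theorem p1_bs [NeZero p] (D : RD0 K p ζ) (c : CR p (m + 1) N) (Xs : Finset (Fin N))
    (b : Fin (m + 1) → Kˣ) (E : Finset (Pl K)) (hb : BS2 D b E)
    (x : {a : c.J // a.1 ∈ Xs} → Finset (Pl K)) (hx : ∀ a, ∀ v ∈ x a, D.Gd v) :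
    BS2 D (p1b m (akR D c b (unC Mx.cl (p1g (c := c) x fun _ => ∅)) 0))
      (E ∪ Finset.univ.biUnion x) := by
  refine ⟨?_, ?_⟩
  · intro v hv
    rw [Finset.mem_union, Finset.mem_biUnion] at hv
    rcases hv with hv | ⟨a, _, hv⟩
    · exact hb.1 v hv
    · exact (hx a v hv).1
  · intro k v hv0 hvE
    rw [Finset.mem_union, Finset.mem_biUnion] at hvE
    unfold p1b
    split_ifs with hk
    · unfold akR
      rw [ord_mul, ord_prod, hb.2 0 v hv0 (fun h => hvE (Or.inl h)), zero_add]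
      refine Finset.sum_eq_zero fun i _ => ?_
      rw [ord_prod]
      refine Finset.sum_eq_zero fun w hw => ?_
      obtain ⟨a, _, hw⟩ := (p1_mem_unC _ _ _ _).1 hw
      rcases a with a | j
      · have hw' : w ∈ x a := hw
        have hne : v ≠ w := by
          intro h
          rw [h] at hvE
          exact hvE (Or.inr ⟨a, Finset.mem_univ _, hw'⟩)
        rw [ord_pow, D.pi_ne w v (hx a w hw').1 hv0 hne, mul_zero]
      · have hw' : w ∈ (∅ : Finset (Pl K)) := hw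
        simp at hw'
    · exact ord_one v

private theorem p1_log {L L' : ℝ} (hL : 1 ≤ L) (h1 : L / 2 ≤ L') (h2 : L' ≤ L) (k : ℕ) :
    L' ^ ((k : ℝ) - 1) ≤ 2 * L ^ ((k : ℝ) - 1) := by
  have hL'0 : 0 < L' := by linarith
  have hL0 : 0 < L := by linarith
  rcases Nat.eq_zero_or_pos k with hk | hk
  · rw [hk, Nat.cast_zero, zero_sub, Real.rpow_neg_one, Real.rpow_neg_one]
    calc L'⁻¹ ≤ (L / 2)⁻¹ := inv_anti₀ (by linarith) h1
      _ = 2 * L⁻¹ := by
        rw [inv_div, div_eq_mul_inv]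
  · have hk1 : (1 : ℝ) ≤ k := by exact_mod_cast hk
    have h3 : L' ^ ((k : ℝ) - 1) ≤ L ^ ((k : ℝ) - 1) :=
      Real.rpow_le_rpow hL'0.le h2 (by linarith)
    have h4 : 0 ≤ L ^ ((k : ℝ) - 1) := Real.rpow_nonneg hL0.le _
    linarith

end aux

theorem p1 {K : Type} [Field K] [NumberField K] {p : ℕ} {ζ : K} {m N : ℕ} [NeZero p]
    (hp : p.Prime) (hζ : IsPrimitiveRoot ζ p) (D : RD K p ζ) (c : CR p (m + 1) N)
    (Xs : Finset (Fin N)) (hr : ∀ i, i ∉ Xs → c.x i 0 = 0 ∧ ∀ θ ∈ c.Θ i, ∀ k, k ≠ 0 → θ k = 0)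
    (M : ℕ) (u η : ℝ) (hu : 0 ≤ u) (hu1 : u ≤ 1) (hη : 0 < η) (B : ℕ) :
    ∃ C Y₀ : ℝ, 0 < C ∧ 9 ≤ Y₀ ∧ ∀ (b : Fin (m + 1) → Kˣ) (E : Finset (Pl K))
      (c₂ : Fin M → Kˣ), BS2 D.toRD0 b E → ∀ Y : ℝ, Y₀ ≤ Y →
        ‖MXS D.toRD0 c Xs c₂ u b E Y (fun g => ¬ BigX (Real.log Y ^ B) g)‖ ≤
          C * nr E ^ η * Y *
            Real.log Y ^ (((Finset.univ.filter fun i => i ∉ Xs).card : ℝ) - 1 / 2) := by
  classical
  set n : ℕ := Fintype.card c.J with hn
  set η' : ℝ := min η (1 / (4 * B * n + 4)) with hη'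
  have hBn : (0 : ℝ) < 4 * B * n + 4 := by positivity
  have hη'0 : 0 < η' := lt_min hη (div_pos one_pos hBn)
  set A₀ : ℝ := (∑ i : {i : Fin N // i ∉ Xs}, (Nat.card (c.Θ i.1) : ℝ)) + 1 with hA₀
  have hA₀1 : 1 ≤ A₀ := by
    have : 0 ≤ ∑ i : {i : Fin N // i ∉ Xs}, (Nat.card (c.Θ i.1) : ℝ) :=
      Finset.sum_nonneg fun i _ => Nat.cast_nonneg _
    linarith
  obtain ⟨C₁, hC₁, hhrc⟩ := hrc hp hζ D c.J A₀ η' (by linarith) hη'0
  obtain ⟨C₂, hC₂, hthr⟩ := thr_sum K {a : c.J // a.1 ∈ Xs}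
  obtain ⟨Y₁, hY₁, hnum⟩ := num B n (1 / 4) (by norm_num)
  set NR : ℕ := (Finset.univ.filter fun i => i ∉ Xs).card with hNR
  refine ⟨2 * C₁ * C₂, Y₁, by positivity, hY₁, ?_⟩
  intro b E c₂ hb Y hY
  have hY9 : 9 ≤ Y := hY₁.trans hY
  have hY1 : 1 ≤ Y := by linarith
  have hY0 : 0 < Y := by linarith
  obtain ⟨hL1, hLT, hTn⟩ := hnum Y hY
  set L : ℝ := Real.log Y with hL
  have hL0 : 0 < L := by linarith
  set T : ℝ := L ^ B with hT
  have hT1 : 1 ≤ T := one_le_pow₀ hL1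
  have hlogT : 0 ≤ Real.log T := Real.log_nonneg hT1
  have hE1 : 1 ≤ nr E := one_le_nr E
  have hcard : Fintype.card {a : c.J // a.1 ∈ Xs} ≤ n := Fintype.card_subtype_le _
  have hr0 : ∀ i, i ∉ Xs → c.x i 0 = 0 := fun i hi => (hr i hi).1
  -- the norm of a term
  set k₀ : ({a : c.J // a.1 ∈ Xs} → Finset (Pl K)) → Kˣ := fun x =>
    akR D.toRD0 c b (unC Mx.cl (p1g (c := c) x fun _ => ∅)) 0 with hk₀
  set w : ({a : c.J // a.1 ∈ Xs} → Finset (Pl K)) → ({i : Fin N // i ∉ Xs} → Finset (Pl K)) →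
      ℝ := fun x r =>
    if (Dj (p1g x r) ∧ (∀ a, Disjoint (p1g x r a) E) ∧ ∏ a, nr (p1g x r a) ≤ Y) ∧
      (∀ a, nr (x a) ≤ T) ∧ ¬ IsPow p (k₀ x) then
      ∏ i : {i : Fin N // i ∉ Xs}, ∏ v ∈ r i, p1A D.toRD0 c (k₀ x) i.1 v else 0 with hw
  have hstep1 : ‖MXS D.toRD0 c Xs c₂ u b E Y (fun g => ¬ BigX T g)‖ ≤
      ∑ x ∈ Fintype.piFinset (fun _ : {a : c.J // a.1 ∈ Xs} => GF D.toRD0 Y),
        ∑ r ∈ Fintype.piFinset (fun _ : {i : Fin N // i ∉ Xs} => GF D.toRD0 Y), w x r := by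
    unfold MXS
    refine (norm_sum_le _ _).trans ?_
    rw [p1_split]
    refine Finset.sum_le_sum fun x _ => Finset.sum_le_sum fun r _ => ?_
    have hak : akR D.toRD0 c b (unC Mx.cl (p1g x r)) 0 = k₀ x :=
      p1_ak D.toRD0 c Xs hr0 b (p1g x r)
    have hbig : (¬ BigX T (p1g x r)) ↔ ∀ a, nr (x a) ≤ T := by
      unfold BigX
      rw [not_exists]
      exact forall_congr' fun a => not_lt
    have hnn : 0 ≤ ∏ i : {i : Fin N // i ∉ Xs}, ∏ v ∈ r i, p1A D.toRD0 c (k₀ x) i.1 v :=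
      Finset.prod_nonneg fun i _ => Finset.prod_nonneg fun v _ => p1A_nonneg _ c _ _ v
    rw [hw]
    by_cases hA : Dj (p1g x r) ∧ (∀ a, Disjoint (p1g x r a) E) ∧ ∏ a, nr (p1g x r a) ≤ Y
    · rw [if_pos hA]
      by_cases hB : (¬ BigX T (p1g x r)) ∧ ¬ IsPow p (akR D.toRD0 c b (unC Mx.cl (p1g x r)) 0)
      · have hB' : (Dj (p1g x r) ∧ (∀ a, Disjoint (p1g x r a) E) ∧
            ∏ a, nr (p1g x r a) ≤ Y) ∧ (∀ a, nr (x a) ≤ T) ∧ ¬ IsPow p (k₀ x) := by
          rw [hak] at hB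
          exact ⟨hA, hbig.1 hB.1, hB.2⟩
        rw [if_pos hB]
        simp only [if_pos hB']
        rw [one_mul]
        have h := p1_term D.toRD0 c Xs hr c₂ hu hu1 b (unC Mx.cl (p1g x r)) (p1g x r)
        rw [hak] at h
        exact h
      · rw [if_neg hB, zero_mul, norm_zero]
        simp only
        split_ifs
        · exact hnn
        · exact le_rfl
    · rw [if_neg hA, norm_zero]
      simp only
      split_ifs
      · exact hnn
      · exact le_rfl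
  -- one x
  set KC : ℝ := 2 * C₁ * nr E ^ η * L ^ (1 / 4 : ℝ) * Y * L ^ ((NR : ℝ) - 1) with hKC
  have hEη0 : 0 ≤ nr E ^ η := Real.rpow_nonneg (by linarith) _
  have hL40 : 0 ≤ L ^ (1 / 4 : ℝ) := Real.rpow_nonneg hL0.le _
  have hLN0 : 0 ≤ L ^ ((NR : ℝ) - 1) := Real.rpow_nonneg hL0.le _
  have hKC0 : 0 ≤ KC := by positivity
  have hone : ∀ x ∈ Fintype.piFinset (fun _ : {a : c.J // a.1 ∈ Xs} => GF D.toRD0 Y),
      ∑ r ∈ Fintype.piFinset (fun _ : {i : Fin N // i ∉ Xs} => GF D.toRD0 Y), w x r ≤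
        if ∀ a, nr (x a) ≤ T then KC * (∏ a, nr (x a))⁻¹ else 0 := by
    intro x hx
    rw [Fintype.mem_piFinset] at hx
    have hxg : ∀ a, ∀ v ∈ x a, D.toRD0.Gd v := fun a => ((akb_mem_GF D.toRD0).1 (hx a)).2
    have hq0 : 0 < ∏ a, nr (x a) := Finset.prod_pos fun a _ => akb_nr_pos _
    by_cases hxT : ∀ a, nr (x a) ≤ T
    swap
    · rw [if_neg hxT]
      apply le_of_eq
      refine Finset.sum_eq_zero fun r _ => ?_
      rw [hw]
      exact if_neg fun h => hxT h.2.1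
    rw [if_pos hxT]
    by_cases hk : IsPow p (k₀ x)
    · have : ∑ r ∈ Fintype.piFinset (fun _ : {i : Fin N // i ∉ Xs} => GF D.toRD0 Y), w x r = 0 := by
        refine Finset.sum_eq_zero fun r _ => ?_
        rw [hw]
        exact if_neg fun h => h.2.2 hk
      rw [this]
      positivity
    set q : ℝ := ∏ a, nr (x a) with hq
    have hq1 : 1 ≤ q := by
      rw [hq]
      calc (1 : ℝ) = ∏ _a : {a : c.J // a.1 ∈ Xs}, (1 : ℝ) := by rw [Finset.prod_const_one]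
        _ ≤ _ := Finset.prod_le_prod (fun _ _ => zero_le_one) fun a _ => one_le_nr (x a)
    have hqT : q ≤ T ^ n := by
      rw [hq]
      calc ∏ a, nr (x a) ≤ ∏ _a : {a : c.J // a.1 ∈ Xs}, T :=
            Finset.prod_le_prod (fun a _ => (akb_nr_pos _).le) fun a _ => hxT a
        _ = T ^ Fintype.card {a : c.J // a.1 ∈ Xs} := by rw [Finset.prod_const, Finset.card_univ]
        _ ≤ T ^ n := pow_le_pow_right₀ hT1 hcard
    have hqY : q ≤ Y ^ (1 / 8 : ℝ) := hqT.trans hTn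
    set E' : Finset (Pl K) := E ∪ Finset.univ.biUnion x with hE'
    have hbs := p1_bs D.toRD0 c Xs b E hb x hxg
    obtain ⟨μ, κ, h1, h2⟩ := p1_hrc hp D c Xs hr (k₀ x) hk E' hbs
    have hsum1 : ∑ r ∈ Fintype.piFinset (fun _ : {i : Fin N // i ∉ Xs} => GF D.toRD0 Y), w x r ≤
        ∑ r ∈ Fintype.piFinset (fun _ : {i : Fin N // i ∉ Xs} => GF D.toRD0 Y),
          (if Dj (p1g x r) ∧ (∀ a, Disjoint (p1g x r a) E) ∧ ∏ a, nr (p1g x r a) ≤ Y then
            ∏ i : {i : Fin N // i ∉ Xs}, ∏ v ∈ r i, p1A D.toRD0 c (k₀ x) i.1 v else 0) := by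
      refine Finset.sum_le_sum fun r _ => ?_
      have hnn : 0 ≤ ∏ i : {i : Fin N // i ∉ Xs}, ∏ v ∈ r i, p1A D.toRD0 c (k₀ x) i.1 v :=
        Finset.prod_nonneg fun i _ => Finset.prod_nonneg fun v _ => p1A_nonneg _ c _ _ v
      rw [hw]
      simp only
      by_cases hA : Dj (p1g x r) ∧ (∀ a, Disjoint (p1g x r a) E) ∧ ∏ a, nr (p1g x r a) ≤ Y
      · rw [if_pos hA]
        split_ifs
        · exact le_rfl
        · exact hnn
      · have hA' : ¬ ((Dj (p1g x r) ∧ (∀ a, Disjoint (p1g x r a) E) ∧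
            ∏ a, nr (p1g x r a) ≤ Y) ∧ (∀ a, nr (x a) ≤ T) ∧ ¬ IsPow p (k₀ x)) :=
          fun h => hA h.1
        rw [if_neg hA, if_neg hA']
    have hsum2 := p1_inner D.toRD0 c Xs (k₀ x) E Y x
    have hlogY' : Real.log (Y / q) = L - Real.log q := Real.log_div hY0.ne' (by linarith)
    have hlogq : Real.log q ≤ 1 / 8 * L := by
      have := Real.log_le_log (by linarith : 0 < q) hqY
      rwa [Real.log_rpow hY0] at this
    have hlogq0 : 0 ≤ Real.log q := Real.log_nonneg hq1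
    have hY'3 : 3 ≤ Y / q := by
      rw [le_div_iff₀ (by linarith)]
      have e1 : q ≤ Y ^ (1 / 2 : ℝ) :=
        hqY.trans (Real.rpow_le_rpow_of_exponent_le hY1 (by norm_num))
      have e2 : (3 : ℝ) ≤ Y ^ (1 / 2 : ℝ) := by
        rw [← Real.sqrt_eq_rpow]
        exact Real.le_sqrt_of_sq_le (by linarith)
      have e3 : Y ^ (1 / 2 : ℝ) * Y ^ (1 / 2 : ℝ) = Y := by
        rw [← Real.rpow_add hY0]
        norm_num
      calc 3 * q ≤ Y ^ (1 / 2 : ℝ) * Y ^ (1 / 2 : ℝ) :=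
            mul_le_mul e2 e1 (by linarith) (by positivity)
        _ = Y := e3
    have hsum3 := hhrc E' hbs.1 μ κ (p1cf c Xs)
      (fun v => ∑ i : {i : Fin N // i ∉ Xs}, p1A D.toRD0 c (k₀ x) i.1 v) NR (by
        intro j
        unfold p1cf
        split_ifs
        · exact ⟨le_rfl, by linarith⟩
        · exact ⟨by norm_num, hA₀1⟩) (by
        intro v
        refine ⟨Finset.sum_nonneg fun i _ => p1A_nonneg _ c _ _ v, ?_⟩
        have : ∑ i : {i : Fin N // i ∉ Xs}, p1A D.toRD0 c (k₀ x) i.1 v ≤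
            ∑ i : {i : Fin N // i ∉ Xs}, (Nat.card (c.Θ i.1) : ℝ) := by
          refine Finset.sum_le_sum fun i _ => ?_
          unfold p1A
          split_ifs
          · exact le_rfl
          · exact Nat.cast_nonneg _
        linarith) (fun v hv _ => h1 v hv) h2 (Y / q) hY'3
    refine (hsum1.trans hsum2).trans (hsum3.trans ?_)
    have g1 : nr E' ^ η' ≤ nr E ^ η * L ^ (1 / 4 : ℝ) := by
      have e1 : nr E' ≤ nr E * T ^ n := by
        rw [hE']
        refine (akb_nr_union _ _).trans ?_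
        refine mul_le_mul_of_nonneg_left ?_ (by linarith)
        refine (akb_nr_biUnion Finset.univ x T hT1 fun a _ => hxT a).trans ?_
        rw [Finset.card_univ]
        exact pow_le_pow_right₀ hT1 hcard
      have e2 : nr E' ^ η' ≤ (nr E * T ^ n) ^ η' :=
        Real.rpow_le_rpow (akb_nr_pos _).le e1 hη'0.le
      have e3 : (nr E * T ^ n) ^ η' = nr E ^ η' * (T ^ n) ^ η' :=
        Real.mul_rpow (by linarith) (by positivity)
      have e4 : nr E ^ η' ≤ nr E ^ η :=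
        Real.rpow_le_rpow_of_exponent_le hE1 (min_le_left _ _)
      have e5 : (T ^ n) ^ η' ≤ L ^ (1 / 4 : ℝ) := by
        rw [hT, ← pow_mul, ← Real.rpow_natCast, ← Real.rpow_mul hL0.le]
        refine Real.rpow_le_rpow_of_exponent_le hL1 ?_
        have h9 : η' ≤ 1 / (4 * B * n + 4) := min_le_right _ _
        have h10 : ((B * n : ℕ) : ℝ) * η' ≤ ((B * n : ℕ) : ℝ) * (1 / (4 * B * n + 4)) :=
          mul_le_mul_of_nonneg_left h9 (Nat.cast_nonneg _)
        refine h10.trans ?_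
        rw [mul_one_div, div_le_div_iff₀ hBn (by norm_num)]
        push_cast
        linarith
      rw [e3] at e2
      refine e2.trans (mul_le_mul e4 e5 (Real.rpow_nonneg (by positivity) _) hEη0)
    have g2 : Real.log (Y / q) ^ ((NR : ℝ) - 1) ≤ 2 * L ^ ((NR : ℝ) - 1) := by
      refine p1_log hL1 ?_ ?_ NR
      · rw [hlogY']
        linarith
      · rw [hlogY']
        linarith
    have g3 : 0 ≤ Real.log (Y / q) ^ ((NR : ℝ) - 1) := Real.rpow_nonneg (by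
      rw [hlogY']
      linarith) _
    have g4 : 0 ≤ Y / q := by positivity
    calc C₁ * nr E' ^ η' * (Y / q) * Real.log (Y / q) ^ ((NR : ℝ) - 1)
        ≤ C₁ * (nr E ^ η * L ^ (1 / 4 : ℝ)) * (Y / q) * (2 * L ^ ((NR : ℝ) - 1)) := by
          have g5 : C₁ * nr E' ^ η' * (Y / q) ≤ C₁ * (nr E ^ η * L ^ (1 / 4 : ℝ)) * (Y / q) :=
            mul_le_mul_of_nonneg_right (mul_le_mul_of_nonneg_left g1 hC₁.le) g4
          exact mul_le_mul g5 g2 g3 (by positivity)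
      _ = KC * q⁻¹ := by
          rw [hKC, div_eq_mul_inv]
          ring
  refine hstep1.trans ((Finset.sum_le_sum hone).trans ?_)
  rw [← Finset.sum_filter]
  have hlast : ∑ x ∈ (Fintype.piFinset
      (fun _ : {a : c.J // a.1 ∈ Xs} => GF D.toRD0 Y)).filter (fun x => ∀ a, nr (x a) ≤ T),
      KC * (∏ a, nr (x a))⁻¹ ≤
      ∑ s ∈ Fintype.piFinset (fun a : {a : c.J // a.1 ∈ Xs} =>
        if a ∈ (∅ : Finset {a : c.J // a.1 ∈ Xs}) then {∅} else GF D.toRD0 T),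
        KC * (sn ∅ s)⁻¹ := by
    have e : ∀ s : {a : c.J // a.1 ∈ Xs} → Finset (Pl K), sn ∅ s = ∏ a, nr (s a) := by
      intro s
      unfold sn
      refine Finset.prod_congr ?_ fun _ _ => rfl
      ext a
      simp
    simp only [e]
    refine Finset.sum_le_sum_of_subset_of_nonneg ?_ ?_
    · intro x hx
      have hx2 := (Finset.mem_filter.1 hx).2
      have hx1 := Fintype.mem_piFinset.1 (Finset.mem_filter.1 hx).1
      refine Fintype.mem_piFinset.2 fun a => ?_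
      rw [if_neg (Finset.notMem_empty a), akb_mem_GF]
      exact ⟨hx2 a, ((akb_mem_GF D.toRD0).1 (hx1 a)).2⟩
    · intro x _ _
      have : 0 < ∏ a, nr (x a) := Finset.prod_pos fun a _ => akb_nr_pos _
      positivity
  refine hlast.trans ?_
  rw [← Finset.mul_sum]
  have hts : ∑ s ∈ Fintype.piFinset (fun a : {a : c.J // a.1 ∈ Xs} =>
        if a ∈ (∅ : Finset {a : c.J // a.1 ∈ Xs}) then {∅} else GF D.toRD0 T),
        (sn ∅ s)⁻¹ ≤ C₂ * (1 + Real.log T) ^ Fintype.card {a : c.J // a.1 ∈ Xs} := by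
    have h := hthr p ζ D.toRD0 T ∅ hT1
    refine le_trans (le_of_eq ?_) h
    refine Finset.sum_congr ?_ fun _ _ => rfl
    refine (p1_inst _ (fun a b => Classical.propDecidable (a = b)) _).trans ?_
    refine congrArg _ ?_
    funext a
    by_cases ha : a ∈ (∅ : Finset {a : c.J // a.1 ∈ Xs})
    · exact absurd ha (Finset.notMem_empty a)
    · rw [if_neg ha, if_neg ha]
  have hts2 : (1 + Real.log T) ^ Fintype.card {a : c.J // a.1 ∈ Xs} ≤ L ^ (1 / 4 : ℝ) :=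
    (pow_le_pow_right₀ (by linarith) hcard).trans hLT
  calc _ ≤ KC * (C₂ * L ^ (1 / 4 : ℝ)) := by
        refine mul_le_mul_of_nonneg_left (hts.trans ?_) hKC0
        exact mul_le_mul_of_nonneg_left hts2 (by linarith)
    _ = 2 * C₁ * C₂ * nr E ^ η * Y * (L ^ (1 / 4 : ℝ) * L ^ (1 / 4 : ℝ) *
          L ^ ((NR : ℝ) - 1)) := by
        rw [hKC]
        ring
    _ = 2 * C₁ * C₂ * nr E ^ η * Y * L ^ ((NR : ℝ) - 1 / 2) := by
        rw [← Real.rpow_add hL0, ← Real.rpow_add hL0]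
        congr 2
        ring

end H77.AB
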