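import Pool.Agent.H77.AB.KpaW
import Pool.Agent.H77.AB.BlkS
import Pool.Agent.H77.AB.Num

/-!
# [H77 AB P2] Part II: some x-variable is large, 180-260 lines

`|P2S| ≤ C (nr E)^η Y (log Y)^(β-1)` with `T = (log Y)^B`, under (H1) (`H1 c Xs u M β`) and the existence of a class `i₀ ∉ Xs` with `x = 0`.

Proof. `J = c.J`, `P = c.pd`, `X = univ.filter (a.1 ∈ Xs)`, `δ = u p^{-M} > 0`, `r₀ = ⟨i₀, 0⟩ ∈ J`: `P.x r₀ = 0`, `P.θ r₀ = 0`, so `lk r₀ a = 0` for all `a`; `r₀ ∉ X`, `mw = 1`. `B` = the `B₁` of `kpaW` for the exponent `2`; `η' = min η (δ / (4 B #J + 4))`; `C`'s from `kpaW`, `blka` (with `η`), `blks` (with `η'`), `thr_sum`; `Y₀` large (`num` with `n = 2 #J`, `ε` the minimum of `δ/4`, `1/2` and `ε₀` below).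
`dec1` with `T = (log Y)^B ≤ Y`. For `g` in the inner sum (`g a = s a` with `nr ≤ T` for `a ∉ Lg`, `T < nr (g a)` for `a ∈ Lg`), the condition `∃ a, a.1 ∈ Xs ∧ T < nr (g a)` holds iff `Lg ∩ X ≠ ∅`. So the inner sum is `0` or `TW D c.pd b E (Wt D c₂ u X) Y T Lg s`. Let `Lg ∩ X ≠ ∅`; `s a = ∅` for `a ∈ Lg`, `s a ∈ GF T` for `a ∉ Lg`; `sn Lg s ≤ T^{#J} ≤ Y^{1/8}`.
(a) `Lg` has a linked pair: `kpaW` (`|Wt| ≤ 1` by `ww_le`): `≤ (Y/sn) (log Y)^{-2}`; the sum over `s` is `≤ C (1 + log T)^{#J} Y (log Y)^{-2} ≤ C Y (log Y)^{-1} ≤ C Y (log Y)^{β-1}`.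
(b) `Lg` pairwise unlinked. `γ = ∑_{Lg} mw ≤ β` by (H1) (`mw p M u (a.1 ∈ Xs)`).
(b1) `γ < β`: there are finitely many `Lg`, so there is `ε₀ > 0` (independent of everything else) with `γ ≤ β - ε₀` for all of these. `blka` and the sum over `s`: `≤ C (nr E)^η Y (log Y)^{γ-1} (1 + log T)^{#J} ≤ C (nr E)^η Y (log Y)^{β-1}`.
(b2) `γ = β`. Then `r₀ ∈ Lg`: otherwise `insert r₀ Lg` contradicts (H1). `s` identically `∅`: one term, `blka` (`sn = 1`): `≤ C (nr E)^η Y (log Y)^{β-1}`. Otherwise there is `l ∉ Lg` with `s l ≠ ∅`; some `a ∈ Lg` has `lk a l ≠ 0`, since otherwise `insert l Lg` is pairwise unlinked (`lk l l = 2 θ_l · x_l = 0`, `lk` is symmetric) of weight `γ + mw l > β` (`mw_ge`, `δ > 0`), contradicting (H1).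
`blks` with `η'`: `≤ C (nr E)^{η'} (T^{#J})^{η'} (1 + log T)^{#J} (Y/sn) (log Y)^{β - δ/2 - 1}`; the sum over `s` gives another factor `C (1 + log T)^{#J}`; `(T^{#J})^{η'} ≤ (log Y)^{δ/4}`, `(1 + log T)^{2 #J} ≤ (log Y)^{δ/4}`, `(nr E)^{η'} ≤ (nr E)^η`. There are `2^{#J}` sets `Lg`.
-/

set_option autoImplicit false

open scoped NumberField
open IsDedekindDomain
open scoped Classical

noncomputable section

namespace H77.AB

open H63.MA H38.BB

private theorem p2_mem_GF {K : Type} [Field K] [NumberField K] {p : ℕ} {ζ : K} (D : RD0 K p ζ)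
    {y : ℝ} {n : Finset (Pl K)} : n ∈ GF D y ↔ nr n ≤ y ∧ ∀ v ∈ n, D.Gd v := by
  unfold GF
  rw [Finset.mem_filter, mem_AF]

private theorem p2_sn_le {K : Type} [Field K] [NumberField K] {p : ℕ} {ζ : K} {J : Type}
    [Fintype J] (_D : RD0 K p ζ) {T : ℝ} (hT : 1 ≤ T) {Lg : Finset J} {s : J → Finset (Pl K)}
    (hs : ∀ l, l ∉ Lg → nr (s l) ≤ T) : sn Lg s ≤ T ^ Fintype.card J := by
  unfold sn
  calc ∏ a ∈ Finset.univ.filter (fun a => a ∉ Lg), nr (s a)
      ≤ ∏ _a ∈ Finset.univ.filter (fun a => a ∉ Lg), T :=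
        Finset.prod_le_prod (fun a _ => (aks_nr_pos (s a)).le) fun a ha =>
          hs a (Finset.mem_filter.1 ha).2
    _ ≤ T ^ Fintype.card J := by
      rw [Finset.prod_const]
      exact pow_le_pow_right₀ hT (Finset.card_le_univ _)

private theorem p2_wt_le {K : Type} [Field K] [NumberField K] {p : ℕ} {ζ : K} (D : RD0 K p ζ)
    {M : ℕ} (c₂ : Fin M → Kˣ) {u : ℝ} (hu : 0 ≤ u) (hu1 : u ≤ 1) {J : Type} (X : Finset J) (a : J)
    (n : Finset (Pl K)) : ‖Wt D c₂ u X a n‖ ≤ 1 := by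
  unfold Wt
  rw [Complex.norm_real, Real.norm_eq_abs, abs_of_nonneg]
  · exact Finset.prod_le_one (fun v _ => (ww_le D c₂ hu hu1 _ v).1)
      fun v _ => (ww_le D c₂ hu hu1 _ v).2
  · exact Finset.prod_nonneg fun v _ => (ww_le D c₂ hu hu1 _ v).1

/-- the sum `P2S` through the sums `TW` -/
private theorem p2_dec {K : Type} [Field K] [NumberField K] {p : ℕ} {ζ : K} {m N : ℕ} [NeZero p]
    (D : RD0 K p ζ) (c : CR p m N) (Xs : Finset (Fin N)) {M : ℕ} (u : ℝ) (b : Fin m → Kˣ)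
    (E : Finset (Pl K)) (c₂ : Fin M → Kˣ) {Y T : ℝ} (hTY : T ≤ Y) :
    P2S D c Xs c₂ u b E Y T = ∑ Lg : Finset c.J,
      ∑ s ∈ Fintype.piFinset (fun a => if a ∈ Lg then {∅} else GF D T),
        (if ∃ a ∈ Lg, a.1 ∈ Xs then 1 else 0) *
          TW D c.pd b E (Wt D c₂ u (Finset.univ.filter fun a : c.J => a.1 ∈ Xs)) Y T Lg s := by
  unfold P2S
  rw [dec1 D T Y hTY]
  refine Finset.sum_congr rfl fun Lg _ => Finset.sum_congr rfl fun s hs => ?_
  unfold TW
  rw [Finset.mul_sum]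
  refine Finset.sum_congr rfl fun g hg => ?_
  rw [Fintype.mem_piFinset] at hs hg
  have hsm : ∀ a, a ∉ Lg → nr (g a) ≤ T := by
    intro a ha
    have h1 := hg a
    have h2 := hs a
    rw [if_neg ha, Finset.mem_singleton] at h1
    rw [if_neg ha, p2_mem_GF] at h2
    rw [h1]
    exact h2.1
  by_cases hA : ∀ a ∈ Lg, T < nr (g a)
  · have he : (∃ a : c.J, a.1 ∈ Xs ∧ T < nr (g a)) ↔ ∃ a ∈ Lg, a.1 ∈ Xs := by
      constructor
      · rintro ⟨a, h1, h2⟩
        by_cases ha : a ∈ Lg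
        · exact ⟨a, ha, h1⟩
        · exact absurd h2 (not_lt.2 (hsm a ha))
      · rintro ⟨a, h1, h2⟩
        exact ⟨a, h2, hA a h1⟩
    rw [if_pos hA]
    by_cases hB : Dj g ∧ (∀ a, Disjoint (g a) E) ∧ ∏ a, nr (g a) ≤ Y
    · have hB' : Dj g ∧ (∀ a, Disjoint (g a) E) ∧ (∀ a ∈ Lg, T < nr (g a)) ∧
          ∏ a, nr (g a) ≤ Y := ⟨hB.1, hB.2.1, hA, hB.2.2⟩
      rw [if_pos hB, if_pos hB']
      by_cases hC : ∃ a ∈ Lg, a.1 ∈ Xs
      · have hC' := he.2 hC
        rw [if_pos hC, if_pos hC']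
      · have hC' : ¬ ∃ a : c.J, a.1 ∈ Xs ∧ T < nr (g a) := fun h => hC (he.1 h)
        simp only [if_neg hC, if_neg hC', zero_mul]
    · have hB' : ¬ (Dj g ∧ (∀ a, Disjoint (g a) E) ∧ (∀ a ∈ Lg, T < nr (g a)) ∧
          ∏ a, nr (g a) ≤ Y) := fun h => hB ⟨h.1, h.2.1, h.2.2.2⟩
      rw [if_neg hB, if_neg hB', mul_zero]
  · have hB' : ¬ (Dj g ∧ (∀ a, Disjoint (g a) E) ∧ (∀ a ∈ Lg, T < nr (g a)) ∧
        ∏ a, nr (g a) ≤ Y) := fun h => hA h.2.2.1
    rw [if_neg hA, if_neg hB', mul_zero]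

private theorem p2_final {A Y L e f q : ℝ} (hA : 0 ≤ A) (hY : 0 ≤ Y) (hL : 1 ≤ L) (hq : 1 ≤ q)
    (hef : e ≤ f) : A * Y * L ^ e ≤ A * q * Y * L ^ f := by
  have h1 : L ^ e ≤ L ^ f := Real.rpow_le_rpow_of_exponent_le hL hef
  have h2 : 0 ≤ L ^ f := Real.rpow_nonneg (by linarith) _
  calc A * Y * L ^ e ≤ A * Y * L ^ f := mul_le_mul_of_nonneg_left h1 (by positivity)
    _ ≤ (A * Y * L ^ f) * q := le_mul_of_one_le_right (by positivity) hq
    _ = _ := by ring

theorem p2 {K : Type} [Field K] [NumberField K] {p : ℕ} {ζ : K} {m N : ℕ} [NeZero p]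
    (hp : p.Prime) (hζ : IsPrimitiveRoot ζ p) (D : RD K p ζ) (c : CR p m N)
    (Xs : Finset (Fin N)) (M : ℕ) (u η : ℝ) (hu : 0 < u) (hu1 : u ≤ 1) (hη : 0 < η) (β : ℕ)
    (h1 : H1 c Xs u M β) (i₀ : Fin N) (hi₀ : i₀ ∉ Xs) (hx0 : c.x i₀ = 0) :
    ∃ (B : ℕ) (C Y₀ : ℝ), 0 < C ∧ 9 ≤ Y₀ ∧ ∀ (b : Fin m → Kˣ) (E : Finset (Pl K))
      (c₂ : Fin M → Kˣ), BS2 D.toRD0 b E → BS2 D.toRD0 c₂ E → Ind p c₂ → ∀ Y : ℝ, Y₀ ≤ Y →
        ‖P2S D.toRD0 c Xs c₂ u b E Y (Real.log Y ^ B)‖ ≤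
          C * nr E ^ η * Y * Real.log Y ^ ((β : ℝ) - 1) := by
  have hp1 : (1 : ℝ) ≤ (p : ℝ) ^ M := one_le_pow₀ (by exact_mod_cast hp.one_lt.le)
  set n : ℕ := Fintype.card c.J with hn
  set X : Finset c.J := Finset.univ.filter fun a : c.J => a.1 ∈ Xs with hX
  have hXm : ∀ a : c.J, (a ∈ X) = (a.1 ∈ Xs) := by
    intro a
    rw [hX]
    simp
  set δ : ℝ := u * ((p : ℝ) ^ M)⁻¹ with hδ
  have hδ0 : 0 < δ := by positivity
  set r₀ : c.J := ⟨i₀, ⟨0, (c.Θ i₀).zero_mem⟩⟩ with hr₀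
  have hn1 : 1 ≤ n := Fintype.card_pos_iff.2 ⟨r₀⟩
  have hxr : c.pd.x r₀ = 0 := hx0
  have hθr : c.pd.θ r₀ = 0 := rfl
  have hsym : ∀ a a' : c.J, c.pd.lk a a' = c.pd.lk a' a := fun a a' => add_comm _ _
  have hself : ∀ a : c.J, c.pd.lk a a = 0 := by
    intro a
    unfold PD.lk
    rw [c.pd.self a, add_zero]
  have hlr : ∀ a : c.J, c.pd.lk r₀ a = 0 := by
    intro a
    unfold PD.lk dt
    rw [hxr, hθr]
    simp
  -- constants
  obtain ⟨B, X₀, hX₀, hkp⟩ := kpaW hp hζ D c.pd 2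
  obtain ⟨CA, hCA, hblka⟩ := blka hp hζ D c.pd M u η hu.le hu1 hη
  set η' : ℝ := min η (δ / (4 * B * n + 4)) with hη'
  have hBn : (0 : ℝ) < 4 * B * n + 4 := by positivity
  have hη'0 : 0 < η' := lt_min hη (div_pos hδ0 hBn)
  obtain ⟨CS, hCS, hblks⟩ := blks hp hζ D c.pd M u η' hu.le hu1 hη'0
  obtain ⟨CT, hCT, hthr⟩ := thr_sum K c.J
  set γ : Finset c.J → ℝ := fun Lg => ∑ a ∈ Lg, mw p M u (a.1 ∈ Xs) with hγ
  obtain ⟨ε₀, hε₀, hε₀'⟩ : ∃ ε₀ : ℝ, 0 < ε₀ ∧ ∀ Lg : Finset c.J, γ Lg < β → γ Lg + ε₀ ≤ β := by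
    obtain ⟨L0, -, hmin⟩ := Finset.exists_min_image (Finset.univ : Finset (Finset c.J))
      (fun Lg => if γ Lg < β then (β : ℝ) - γ Lg else 1) Finset.univ_nonempty
    refine ⟨if γ L0 < β then (β : ℝ) - γ L0 else 1, ?_, ?_⟩
    · split_ifs with h
      · linarith
      · norm_num
    · intro Lg hLg
      have h := hmin Lg (Finset.mem_univ _)
      rw [if_pos hLg] at h
      linarith
  set ε : ℝ := min (δ / 4) (min (1 / 2) ε₀) with hε
  have hε0 : 0 < ε := lt_min (by positivity) (lt_min (by norm_num) hε₀)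
  have hε1 : ε ≤ δ / 4 := min_le_left _ _
  have hε2 : ε ≤ 1 / 2 := (min_le_right _ _).trans (min_le_left _ _)
  have hε3 : ε ≤ ε₀ := (min_le_right _ _).trans (min_le_right _ _)
  obtain ⟨Y₁, hY₁, hnum⟩ := num B (2 * n) ε hε0
  set CC : ℝ := CT + CA * CT + (CA + CS * CT) with hCC
  have hCT0 : 0 < CT := by linarith
  have hCC0 : 0 < CC := by positivity
  refine ⟨B, (Fintype.card (Finset c.J) : ℝ) * CC, max Y₁ X₀, ?_, le_max_of_le_left hY₁, ?_⟩
  · have : 0 < (Fintype.card (Finset c.J) : ℝ) := by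
      exact_mod_cast Fintype.card_pos
    positivity
  intro b E c₂ hb hc₂ hi Y hY
  have hYY₁ : Y₁ ≤ Y := (le_max_left _ _).trans hY
  have hYX₀ : X₀ ≤ Y := (le_max_right _ _).trans hY
  have hY9 : 9 ≤ Y := hY₁.trans hYY₁
  have hY1 : 1 ≤ Y := by linarith
  have hY0 : 0 < Y := by linarith
  obtain ⟨hL1, hLT2, hTn⟩ := hnum Y hYY₁
  set L : ℝ := Real.log Y with hL
  have hL0 : 0 < L := by linarith
  set T : ℝ := L ^ B with hT
  have hT1 : 1 ≤ T := one_le_pow₀ hL1
  set LT : ℝ := 1 + Real.log T with hLT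
  have hLT1 : 1 ≤ LT := by
    have := Real.log_nonneg hT1
    linarith
  have hLTn : LT ^ n ≤ L ^ ε := (pow_le_pow_right₀ hLT1 (by omega)).trans hLT2
  have hTn1 : T ^ n ≤ Y ^ (1 / 8 : ℝ) := (pow_le_pow_right₀ hT1 (by omega)).trans hTn
  have hTn4 : T ^ n ≤ Y ^ (1 / 4 : ℝ) :=
    hTn1.trans (Real.rpow_le_rpow_of_exponent_le hY1 (by norm_num))
  have hTn2 : T ^ n ≤ Y ^ (1 / 2 : ℝ) :=
    hTn1.trans (Real.rpow_le_rpow_of_exponent_le hY1 (by norm_num))
  have hTY : T ≤ Y := by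
    calc T ≤ T ^ n := le_self_pow₀ hT1 (by omega)
      _ ≤ Y ^ (1 / 2 : ℝ) := hTn2
      _ ≤ Y ^ (1 : ℝ) := Real.rpow_le_rpow_of_exponent_le hY1 (by norm_num)
      _ = Y := Real.rpow_one Y
  have hE1 : 1 ≤ nr E := one_le_nr E
  have hEη : 1 ≤ nr E ^ η := Real.one_le_rpow hE1 hη.le
  have hEη' : nr E ^ η' ≤ nr E ^ η := Real.rpow_le_rpow_of_exponent_le hE1 (min_le_left _ _)
  rw [p2_dec D.toRD0 c Xs u b E c₂ hTY]
  -- one set of large variables
  have hone : ∀ Lg : Finset c.J,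
      ‖∑ s ∈ Fintype.piFinset (fun a => if a ∈ Lg then {∅} else GF D.toRD0 T),
        (if ∃ a ∈ Lg, a.1 ∈ Xs then 1 else 0) *
          TW D.toRD0 c.pd b E (Wt D.toRD0 c₂ u X) Y T Lg s‖ ≤
        CC * nr E ^ η * Y * L ^ ((β : ℝ) - 1) := by
    intro Lg
    have hLf0 : 0 ≤ L ^ ((β : ℝ) - 1) := Real.rpow_nonneg hL0.le _
    have hEη0 : 0 ≤ nr E ^ η := by linarith
    by_cases hx : ∃ a ∈ Lg, a.1 ∈ Xs
    swap
    · rw [if_neg hx]
      simp only [zero_mul, Finset.sum_const_zero, norm_zero]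
      positivity
    rw [if_pos hx]
    simp only [one_mul]
    set S := Fintype.piFinset (fun a => if a ∈ Lg then {∅} else GF D.toRD0 T) with hS
    have hSm : ∀ s ∈ S, (∀ l ∈ Lg, s l = ∅) ∧
        ∀ l, l ∉ Lg → (∀ v ∈ s l, D.toRD0.Gd v) ∧ nr (s l) ≤ T := by
      intro s hs
      rw [hS, Fintype.mem_piFinset] at hs
      refine ⟨fun l hl => ?_, fun l hl => ?_⟩
      · have := hs l
        rwa [if_pos hl, Finset.mem_singleton] at this
      · have := hs l
        rw [if_neg hl, p2_mem_GF] at this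
        exact ⟨this.2, this.1⟩
    have hsn : ∀ s ∈ S, sn Lg s ≤ T ^ n := fun s hs =>
      p2_sn_le D.toRD0 hT1 fun l hl => ((hSm s hs).2 l hl).2
    have hsum : ∑ s ∈ S, (sn Lg s)⁻¹ ≤ CT * LT ^ n := hthr p ζ D.toRD0 T Lg hT1
    refine (norm_sum_le _ _).trans ?_
    by_cases hlk : ∃ a ∈ Lg, ∃ a' ∈ Lg, c.pd.lk a a' ≠ 0
    · -- (a)
      have h1 : ∀ s ∈ S, ‖TW D.toRD0 c.pd b E (Wt D.toRD0 c₂ u X) Y T Lg s‖ ≤
          (Y * L ^ (-2 : ℝ)) * (sn Lg s)⁻¹ := by
        intro s hs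
        have h2 := hkp Y T hYX₀ le_rfl b E Lg s (fun l hl => ((hSm s hs).2 l hl).1)
          (Wt D.toRD0 c₂ u X) (fun a n => p2_wt_le D.toRD0 c₂ hu.le hu1 X a n) hlk
        refine h2.trans (le_of_eq ?_)
        rw [div_eq_mul_inv]
        ring
      refine (Finset.sum_le_sum h1).trans ?_
      rw [← Finset.mul_sum]
      have h3 : 0 ≤ L ^ (-2 : ℝ) := Real.rpow_nonneg hL0.le _
      calc Y * L ^ (-2 : ℝ) * ∑ s ∈ S, (sn Lg s)⁻¹
          ≤ Y * L ^ (-2 : ℝ) * (CT * L ^ ε) := by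
            refine mul_le_mul_of_nonneg_left (hsum.trans ?_) (by positivity)
            exact mul_le_mul_of_nonneg_left hLTn hCT0.le
        _ = CT * Y * L ^ (-2 + ε) := by
            rw [Real.rpow_add hL0]
            ring
        _ ≤ CT * nr E ^ η * Y * L ^ ((β : ℝ) - 1) := by
            refine p2_final hCT0.le hY0.le hL1 hEη ?_
            have : (0 : ℝ) ≤ β := Nat.cast_nonneg β
            linarith
        _ ≤ CC * nr E ^ η * Y * L ^ ((β : ℝ) - 1) := by
            have : CT ≤ CC := by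
              rw [hCC]
              have h5 : 0 ≤ CA * CT := by positivity
              have h6 : 0 ≤ CA + CS * CT := by positivity
              linarith
            gcongr
    · -- (b)
      have hun : ∀ a ∈ Lg, ∀ a' ∈ Lg, c.pd.lk a a' = 0 := by
        intro a ha a' ha'
        by_contra h
        exact hlk ⟨a, ha, a', ha', h⟩
      have hγβ : γ Lg ≤ β := h1 Lg hun hx
      have hγX : ∑ a ∈ Lg, mw p M u (a ∈ X) = γ Lg := by
        rw [hγ]
        exact Finset.sum_congr rfl fun a _ => by rw [hXm a]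
      have hA : ∀ s ∈ S, ‖TW D.toRD0 c.pd b E (Wt D.toRD0 c₂ u X) Y T Lg s‖ ≤
          (CA * nr E ^ η * Y * L ^ (γ Lg - 1)) * (sn Lg s)⁻¹ := by
        intro s hs
        have h2 := hblka X b E c₂ hc₂ hi Lg s Y T hY9 ((hsn s hs).trans hTn2)
        rw [hγX] at h2
        refine h2.trans (le_of_eq ?_)
        rw [div_eq_mul_inv]
        ring
      rcases hγβ.lt_or_eq with hlt | heq
      · -- (b1)
        refine (Finset.sum_le_sum hA).trans ?_
        rw [← Finset.mul_sum]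
        have h3 : 0 ≤ L ^ (γ Lg - 1) := Real.rpow_nonneg hL0.le _
        have h4 := hε₀' Lg hlt
        calc CA * nr E ^ η * Y * L ^ (γ Lg - 1) * ∑ s ∈ S, (sn Lg s)⁻¹
            ≤ CA * nr E ^ η * Y * L ^ (γ Lg - 1) * (CT * L ^ ε) := by
              refine mul_le_mul_of_nonneg_left (hsum.trans ?_) (by positivity)
              exact mul_le_mul_of_nonneg_left hLTn hCT0.le
          _ = (CA * CT) * nr E ^ η * Y * L ^ (γ Lg - 1 + ε) := by
              rw [Real.rpow_add hL0]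
              ring
          _ ≤ (CA * CT) * nr E ^ η * Y * L ^ ((β : ℝ) - 1) := by
              have h5 : L ^ (γ Lg - 1 + ε) ≤ L ^ ((β : ℝ) - 1) :=
                Real.rpow_le_rpow_of_exponent_le hL1 (by linarith)
              gcongr
          _ ≤ CC * nr E ^ η * Y * L ^ ((β : ℝ) - 1) := by
              have : CA * CT ≤ CC := by
                rw [hCC]
                have h6 : 0 ≤ CA + CS * CT := by positivity
                linarith
              gcongr
      · -- (b2)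
        have hins : ∀ l : c.J, l ∉ Lg → (∀ a ∈ Lg, c.pd.lk a l = 0) → False := by
          intro l hl h
          have h2 := h1 (insert l Lg) (by
            intro a ha a' ha'
            rw [Finset.mem_insert] at ha ha'
            rcases ha with rfl | ha
            · rcases ha' with rfl | ha'
              · exact hself _
              · rw [hsym]
                exact h a' ha'
            · rcases ha' with rfl | ha'
              · exact h a ha
              · exact hun a ha a' ha') (by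
            obtain ⟨a, ha, ha2⟩ := hx
            exact ⟨a, Finset.mem_insert_of_mem ha, ha2⟩)
          rw [Finset.sum_insert hl] at h2
          have h3 := (mw_ge hp M hu.le hu1 (l.1 ∈ Xs)).1
          have h4 : ∑ a ∈ Lg, mw p M u (a.1 ∈ Xs) = β := heq
          rw [h4] at h2
          linarith
        have hrL : r₀ ∈ Lg := by
          by_contra h
          exact hins r₀ h fun a _ => by rw [hsym]; exact hlr a
        have hrX : r₀ ∉ X := by
          rw [hXm]
          exact hi₀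
        set K2 : ℝ := CS * nr E ^ η' * (T ^ n) ^ η' * LT ^ n * Y * L ^ (γ Lg - δ / 2 - 1) with hK2
        have hK20 : 0 ≤ K2 := by
          have e1 : 0 ≤ nr E ^ η' := Real.rpow_nonneg (by linarith) _
          have e2 : 0 ≤ (T ^ n) ^ η' := Real.rpow_nonneg (by positivity) _
          have e3 : 0 ≤ L ^ (γ Lg - δ / 2 - 1) := Real.rpow_nonneg hL0.le _
          positivity
        have hB : ∀ s ∈ S, ‖TW D.toRD0 c.pd b E (Wt D.toRD0 c₂ u X) Y T Lg s‖ ≤
            (if s = fun _ => ∅ then CA * nr E ^ η * Y * L ^ (γ Lg - 1) else 0) +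
              K2 * (sn Lg s)⁻¹ := by
          intro s hs
          have hsp := aks_sn_pos Lg s
          by_cases h0 : s = fun _ => ∅
          · rw [if_pos h0]
            refine (hA s hs).trans ?_
            have h5 : sn Lg s = 1 := by
              rw [h0]
              unfold sn nr
              simp
            rw [h5, inv_one, mul_one, mul_one]
            linarith
          · rw [if_neg h0, zero_add]
            obtain ⟨l, hl⟩ : ∃ l, s l ≠ ∅ := by
              by_contra hne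
              apply h0
              funext l
              by_contra h
              exact hne ⟨l, h⟩
            have hlL : l ∉ Lg := fun h => hl ((hSm s hs).1 l h)
            have h6 := hblks X b E c₂ hb hc₂ hi Lg s Y T hY9 hT1 hTn4 (hSm s hs).2 hun
              ⟨r₀, hrL, hrX, hxr, hθr⟩ (by
                by_contra hne
                apply hins l hlL
                intro a ha
                by_contra h
                exact hne ⟨a, ha, l, hlL, hl, h⟩)
            rw [hγX] at h6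
            refine h6.trans (le_of_eq ?_)
            rw [hK2, div_eq_mul_inv]
            ring
        refine (Finset.sum_le_sum hB).trans ?_
        rw [Finset.sum_add_distrib, ← Finset.mul_sum]
        have h7 : ∑ s ∈ S, (if s = fun _ => ∅ then CA * nr E ^ η * Y * L ^ (γ Lg - 1) else 0) ≤
            CA * nr E ^ η * Y * L ^ (γ Lg - 1) := by
          have h3 : 0 ≤ L ^ (γ Lg - 1) := Real.rpow_nonneg hL0.le _
          rw [Finset.sum_ite_eq']
          split_ifs
          · exact le_rfl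
          · positivity
        have h8 : K2 * ∑ s ∈ S, (sn Lg s)⁻¹ ≤ CS * CT * nr E ^ η * Y * L ^ ((β : ℝ) - 1) := by
          have e1 : (T ^ n) ^ η' ≤ L ^ (δ / 4) := by
            rw [hT, ← pow_mul, ← Real.rpow_natCast, ← Real.rpow_mul hL0.le]
            refine Real.rpow_le_rpow_of_exponent_le hL1 ?_
            have h9 : η' ≤ δ / (4 * B * n + 4) := min_le_right _ _
            have h10 : ((B * n : ℕ) : ℝ) * η' ≤ ((B * n : ℕ) : ℝ) * (δ / (4 * B * n + 4)) :=
              mul_le_mul_of_nonneg_left h9 (Nat.cast_nonneg _)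
            refine h10.trans ?_
            rw [mul_div_assoc', div_le_div_iff₀ hBn (by norm_num)]
            push_cast
            nlinarith
          have e2 : LT ^ n * LT ^ n ≤ L ^ (δ / 4) := by
            rw [← pow_add, ← two_mul]
            exact hLT2.trans (Real.rpow_le_rpow_of_exponent_le hL1 hε1)
          have e3 : 0 ≤ L ^ (γ Lg - δ / 2 - 1) := Real.rpow_nonneg hL0.le _
          have e4 : 0 ≤ (T ^ n) ^ η' := Real.rpow_nonneg (by positivity) _
          have e5 : 0 ≤ nr E ^ η' := Real.rpow_nonneg (by linarith) _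
          have e6 : 0 ≤ L ^ (δ / 4) := Real.rpow_nonneg hL0.le _
          calc K2 * ∑ s ∈ S, (sn Lg s)⁻¹ ≤ K2 * (CT * LT ^ n) :=
                mul_le_mul_of_nonneg_left hsum hK20
            _ = CS * CT * nr E ^ η' * Y * (T ^ n) ^ η' * (LT ^ n * LT ^ n) *
                  L ^ (γ Lg - δ / 2 - 1) := by
                rw [hK2]
                ring
            _ ≤ CS * CT * nr E ^ η * Y * L ^ (δ / 4) * L ^ (δ / 4) *
                  L ^ (γ Lg - δ / 2 - 1) := by
                gcongr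
            _ = CS * CT * nr E ^ η * Y * (L ^ (δ / 4) * L ^ (δ / 4) *
                  L ^ (γ Lg - δ / 2 - 1)) := by ring
            _ = CS * CT * nr E ^ η * Y * L ^ ((β : ℝ) - 1) := by
                rw [← Real.rpow_add hL0, ← Real.rpow_add hL0]
                congr 2
                rw [heq]
                ring
        have h9 : CA * nr E ^ η * Y * L ^ (γ Lg - 1) = CA * nr E ^ η * Y * L ^ ((β : ℝ) - 1) := by
          rw [heq]
        calc _ ≤ CA * nr E ^ η * Y * L ^ ((β : ℝ) - 1) +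
              CS * CT * nr E ^ η * Y * L ^ ((β : ℝ) - 1) :=
              add_le_add (h7.trans (le_of_eq h9)) h8
          _ = (CA + CS * CT) * nr E ^ η * Y * L ^ ((β : ℝ) - 1) := by ring
          _ ≤ CC * nr E ^ η * Y * L ^ ((β : ℝ) - 1) := by
              have : CA + CS * CT ≤ CC := by
                rw [hCC]
                have h6 : 0 ≤ CA * CT := by positivity
                linarith
              gcongr
  refine (norm_sum_le _ _).trans ((Finset.sum_le_sum fun Lg _ => hone Lg).trans (le_of_eq ?_))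
  rw [Finset.sum_const, nsmul_eq_mul, Finset.card_univ]
  ring

end H77.AB
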