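import Pool.Agent.H77.AB.Msk

/-!
# [H77 AB TRV] small `Y`, 40-80 lines

For `Y ≤ Y₀`: `SWU ≤ C`, `C` independent of `b`, `c₂`, `E`, `Y`. The families `f` have `f i ∈ GF D Y ⊆ AF K Y₀` (`mem_AF`, a finite set independent of `b, E`), so there are at most `(#AF K Y₀)^N`; `wtR ≤ ∏_i ∏_{v ∈ f i} #Θ_i ≤ (∏_i (#Θ_i)^{Q})` with `#(f i) ≤ Q`, `Q = ⌈Y₀⌉` (`2^{#n} ≤ nr n ≤ Y₀`: `two_pow_le_nr` in H63/MA/AFin, `#n ≤ 2^{#n}`; `#Θ_i ≥ 1`), and the factors `ww` are in `[0, 1]` (`ww_le`).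
-/

set_option autoImplicit false

open scoped NumberField
open IsDedekindDomain
open scoped Classical

noncomputable section

namespace H77.AB

open H63.MA H38.BB

theorem trv {K : Type} [Field K] [NumberField K] {p : ℕ} {ζ : K} {m N : ℕ} [NeZero p]
    (D : RD0 K p ζ) (c : CR p (m + 1) N) (Xs : Finset (Fin N)) (M : ℕ) (u : ℝ) (hu : 0 ≤ u)
    (hu1 : u ≤ 1) (Y₀ : ℝ) :
    ∃ C : ℝ, 0 < C ∧ ∀ (b : Fin (m + 1) → Kˣ) (E : Finset (Pl K)) (c₂ : Fin M → Kˣ) (Y : ℝ),
      Y ≤ Y₀ → SWU D c Xs c₂ u b E Y ≤ C := by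
  set B : Fin N → ℝ := fun i => (Nat.card (c.Θ i) : ℝ) with hB
  have hB1 : ∀ i, 1 ≤ B i := by
    intro i
    have : 0 < Nat.card (c.Θ i) := Nat.card_pos
    change (1 : ℝ) ≤ (Nat.card (c.Θ i) : ℝ)
    exact_mod_cast this
  set P : ℝ := ∏ i, B i ^ ⌈Y₀⌉₊ with hP
  have hP1 : 1 ≤ P := by
    rw [hP, ← Finset.prod_const_one (s := (Finset.univ : Finset (Fin N)))]
    exact Finset.prod_le_prod (fun _ _ => zero_le_one) fun i _ => one_le_pow₀ (hB1 i)
  refine ⟨((AF K Y₀).card : ℝ) ^ N * P + 1, by positivity, ?_⟩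
  intro b E c₂ Y hY
  unfold SWU
  have hsub : GF D Y ⊆ AF K Y₀ := by
    intro n hn
    rw [GF, Finset.mem_filter, mem_AF] at hn
    exact mem_AF.2 (hn.1.trans hY)
  have hterm : ∀ f ∈ Fintype.piFinset (fun _ : Fin N => GF D Y),
      (if Dj f ∧ (∀ i, Disjoint (f i) E) ∧ ∏ i, nr (f i) ≤ Y ∧ ¬ IsPow p (akR D c b f 0) then
      wtR c f (fun v k => D.LL v (akR D c b f k)) * ∏ i, ∏ v ∈ f i, ww D c₂ u (i ∈ Xs) v else 0)
        ≤ P := by
    intro f hf
    rw [Fintype.mem_piFinset] at hf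
    split_ifs with h
    · have hw : ∏ i, ∏ v ∈ f i, ww D c₂ u (i ∈ Xs) v ≤ 1 :=
        Finset.prod_le_one (fun i _ => Finset.prod_nonneg fun v _ => (ww_le D c₂ hu hu1 _ v).1)
          fun i _ => Finset.prod_le_one (fun v _ => (ww_le D c₂ hu hu1 _ v).1)
            fun v _ => (ww_le D c₂ hu hu1 _ v).2
      have hw0 : 0 ≤ ∏ i, ∏ v ∈ f i, ww D c₂ u (i ∈ Xs) v :=
        Finset.prod_nonneg fun i _ => Finset.prod_nonneg fun v _ => (ww_le D c₂ hu hu1 _ v).1
      have hR : wtR c f (fun v k => D.LL v (akR D c b f k)) ≤ P := by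
        unfold wtR
        rw [hP]
        refine Finset.prod_le_prod (fun i _ => Finset.prod_nonneg fun v _ => ?_) fun i _ => ?_
        · split_ifs
          · exact Nat.cast_nonneg _
          · exact le_refl 0
        · refine (Finset.prod_le_prod (g := fun _ => B i) (fun v _ => ?_) fun v _ => ?_).trans ?_
          · split_ifs
            · exact Nat.cast_nonneg _
            · exact le_refl 0
          · split_ifs
            · exact le_refl _
            · exact zero_le_one.trans (hB1 i)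
          · rw [Finset.prod_const]
            refine pow_le_pow_right₀ (hB1 i) ?_
            have h1 : nr (f i) ≤ Y₀ := mem_AF.1 (hsub (hf i))
            have h2 : ((f i).card : ℝ) ≤ (2 : ℝ) ^ (f i).card := by
              exact_mod_cast (Nat.lt_two_pow_self (n := (f i).card)).le
            have h3 : ((f i).card : ℝ) ≤ (⌈Y₀⌉₊ : ℝ) :=
              (h2.trans ((two_pow_le_nr (f i)).trans h1)).trans (Nat.le_ceil Y₀)
            exact_mod_cast h3
      calc _ ≤ P * 1 := mul_le_mul hR hw hw0 (zero_le_one.trans hP1)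
        _ = P := mul_one P
    · exact zero_le_one.trans hP1
  have h1 := Finset.sum_le_sum hterm
  rw [Finset.sum_const, nsmul_eq_mul, Fintype.card_piFinset, Finset.prod_const,
    Finset.card_univ, Fintype.card_fin] at h1
  have h2 : (((GF D Y).card ^ N : ℕ) : ℝ) ≤ ((AF K Y₀).card : ℝ) ^ N := by
    exact_mod_cast Nat.pow_le_pow_left (Finset.card_le_card hsub) N
  have h3 := mul_le_mul_of_nonneg_right h2 (zero_le_one.trans hP1)
  refine h1.trans (h3.trans ?_)
  linarith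

end H77.AB
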