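import Pool.Agent.H77.AB.MxA
import Pool.Agent.H77.AB.MxB
import Pool.Agent.H77.AB.P1
import Pool.Agent.H77.AB.P2
import Pool.Agent.H77.AB.Trv

/-!
# [H77 AB UB] the analytic upper bound, 60-110 lines

Proof. `p2` gives `B, C₂, Y₂`, `p1` (for this `B`) `C₁, Y₁`. For `Y ≥ Y₀ = max Y₁ Y₂`: `T = (log Y)^B ≥ 1` (`Y ≥ 9`). `SWU = MXS True` (`swu_mx`, `SWU` is real) `= MXS (¬ BigX T) + MXS (BigX T)` (split `if Q ∧ R then 1 else 0`), the second is `P2S` (`mx_p2`). So `SWU ≤ C₁ (nr E)^η Y (log Y)^{N_R - 1/2} + C₂ (nr E)^η Y (log Y)^{β-1}`, `N_R - 1/2 ≤ β - 1` (`N_R + 1 ≤ β`), `(log Y)^{β-1} ≤ (1 + log Y)^{β-1}` (`β ≥ 1`, so the real exponent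
`β - 1` is the natural number `β - 1`). For `1 ≤ Y ≤ Y₀`: `trv`, `nr E ≥ 1`, `Y ≥ 1`, `1 + log Y ≥ 1`.
-/

set_option autoImplicit false

open scoped NumberField
open IsDedekindDomain
open scoped Classical

noncomputable section

namespace H77.AB

open H63.MA H38.BB

private theorem ub_split {K : Type} [Field K] [NumberField K] {p : ℕ} {ζ : K} {m N : ℕ} [NeZero p]
    (D : RD0 K p ζ) (c : CR p (m + 1) N) (Xs : Finset (Fin N)) {M : ℕ}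
    (c₂ : Fin M → Kˣ) (u : ℝ) (b : Fin (m + 1) → Kˣ) (E : Finset (Pl K)) (Y T : ℝ) :
    MXS D c Xs c₂ u b E Y (fun _ => True) =
      MXS D c Xs c₂ u b E Y (fun g => ¬ BigX T g) + MXS D c Xs c₂ u b E Y (BigX T) := by
  unfold MXS
  rw [← Finset.sum_add_distrib]
  refine Finset.sum_congr rfl fun g _ => ?_
  split_ifs <;> simp_all

private theorem ub_beta {x : ℝ} (hx : 0 ≤ Real.log x) {β : ℕ} (hβ : 1 ≤ β) :
    Real.log x ^ ((β : ℝ) - 1) ≤ (1 + Real.log x) ^ (β - 1) := by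
  have h : ((β : ℝ) - 1) = ((β - 1 : ℕ) : ℝ) := by
    rw [Nat.cast_sub hβ, Nat.cast_one]
  rw [h, Real.rpow_natCast]
  exact pow_le_pow_left₀ hx (by linarith) _

theorem ubw {K : Type} [Field K] [NumberField K] {p : ℕ} {ζ : K} {m N : ℕ} [NeZero p]
    (hp : p.Prime) (hζ : IsPrimitiveRoot ζ p) (D : RD K p ζ) (c : CR p (m + 1) N)
    (Xs : Finset (Fin N)) (hx : ∀ i ∈ Xs, c.x i 0 ≠ 0)
    (hr : ∀ i, i ∉ Xs → c.x i 0 = 0 ∧ ∀ θ ∈ c.Θ i, ∀ k, k ≠ 0 → θ k = 0)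
    (M : ℕ) (u η : ℝ) (hu : 0 < u) (hu1 : u ≤ 1) (hη : 0 < η) (β : ℕ)
    (h1 : H1 c Xs u M β) (i₀ : Fin N) (hi₀ : i₀ ∉ Xs) (hx0 : c.x i₀ = 0)
    (hβ : (Finset.univ.filter fun i => i ∉ Xs).card + 1 ≤ β) :
    ∃ C : ℝ, 0 < C ∧ ∀ (b : Fin (m + 1) → Kˣ) (E : Finset (Pl K)) (c₂ : Fin M → Kˣ),
      BS2 D.toRD0 b E → BS2 D.toRD0 c₂ E → Ind p c₂ → ∀ Y : ℝ, 1 ≤ Y →
        SWU D.toRD0 c Xs c₂ u b E Y ≤ C * nr E ^ η * Y * (1 + Real.log Y) ^ (β - 1) := by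
  obtain ⟨B, C₂, Y₂, hC₂, hY₂, H2⟩ := p2 hp hζ D c Xs M u η hu hu1 hη β h1 i₀ hi₀ hx0
  obtain ⟨C₁, Y₁, hC₁, hY₁, H1'⟩ := p1 hp hζ D c Xs hr M u η hu.le hu1 hη B
  obtain ⟨C₃, hC₃, H3⟩ := trv D.toRD0 c Xs M u hu.le hu1 (max Y₁ Y₂)
  refine ⟨C₁ + C₂ + C₃, by positivity, fun b E c₂ hb hc₂ hI Y hY => ?_⟩
  have hE : 1 ≤ nr E ^ η := Real.one_le_rpow (one_le_nr E) hη.le
  have hlog : 0 ≤ Real.log Y := Real.log_nonneg hY
  have hL : 1 ≤ (1 + Real.log Y) ^ (β - 1) := one_le_pow₀ (by linarith)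
  have hY0 : 0 ≤ Y := by linarith
  have hβ1 : 1 ≤ β := by omega
  rcases le_total Y (max Y₁ Y₂) with hle | hge
  · have h1' : 1 ≤ nr E ^ η * Y * (1 + Real.log Y) ^ (β - 1) :=
      one_le_mul_of_one_le_of_one_le (one_le_mul_of_one_le_of_one_le hE hY) hL
    calc SWU D.toRD0 c Xs c₂ u b E Y ≤ C₃ := H3 b E c₂ Y hle
      _ ≤ (C₁ + C₂ + C₃) * 1 := by linarith
      _ ≤ (C₁ + C₂ + C₃) * (nr E ^ η * Y * (1 + Real.log Y) ^ (β - 1)) :=
          mul_le_mul_of_nonneg_left h1' (by positivity)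
      _ = _ := by ring
  · have hY1 : Y₁ ≤ Y := le_trans (le_max_left _ _) hge
    have hY2 : Y₂ ≤ Y := le_trans (le_max_right _ _) hge
    have hlog1 : 1 ≤ Real.log Y := by
      rw [← Real.log_exp 1]
      exact Real.log_le_log (Real.exp_pos _) (by
        have := Real.exp_one_lt_d9
        linarith)
    have hT : 1 ≤ Real.log Y ^ B := one_le_pow₀ hlog1
    have hx' : ∀ i ∈ Xs, c.x i 0 ≠ 0 := hx
    have e := swu_mx hp D.toRD0 c Xs c₂ u b E Y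
    rw [ub_split D.toRD0 c Xs c₂ u b E Y (Real.log Y ^ B),
      mx_p2 hp hζ D c Xs hx' c₂ u b E hb Y (Real.log Y ^ B) hT] at e
    have b1 := H1' b E c₂ hb Y hY1
    have b2 := H2 b E c₂ hb hc₂ hI Y hY2
    have hle1 : Real.log Y ^ (((Finset.univ.filter fun i => i ∉ Xs).card : ℝ) - 1 / 2) ≤
        Real.log Y ^ ((β : ℝ) - 1) := by
      refine Real.rpow_le_rpow_of_exponent_le hlog1 ?_
      have : ((((Finset.univ.filter fun i => i ∉ Xs).card + 1 : ℕ)) : ℝ) ≤ (β : ℝ) := by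
        exact_mod_cast hβ
      push_cast at this
      linarith
    have hb1 := ub_beta (x := Y) hlog hβ1
    have hEY : 0 ≤ nr E ^ η * Y := by positivity
    have n1 : SWU D.toRD0 c Xs c₂ u b E Y ≤
        ‖((SWU D.toRD0 c Xs c₂ u b E Y : ℝ) : ℂ)‖ := by
      rw [Complex.norm_real]
      exact le_abs_self _
    rw [e] at n1
    have n2 := n1.trans (norm_add_le _ _)
    have n3 : C₁ * nr E ^ η * Y *
        Real.log Y ^ (((Finset.univ.filter fun i => i ∉ Xs).card : ℝ) - 1 / 2) ≤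
        C₁ * nr E ^ η * Y * (1 + Real.log Y) ^ (β - 1) := by
      refine mul_le_mul_of_nonneg_left (hle1.trans hb1) ?_
      rw [mul_assoc]
      exact mul_nonneg hC₁.le hEY
    have n4 : C₂ * nr E ^ η * Y * Real.log Y ^ ((β : ℝ) - 1) ≤
        C₂ * nr E ^ η * Y * (1 + Real.log Y) ^ (β - 1) := by
      refine mul_le_mul_of_nonneg_left hb1 ?_
      rw [mul_assoc]
      exact mul_nonneg hC₂.le hEY
    have n5 : 0 ≤ C₃ * (nr E ^ η * Y) * (1 + Real.log Y) ^ (β - 1) := by positivity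
    have hfin : (C₁ + C₂ + C₃) * nr E ^ η * Y * (1 + Real.log Y) ^ (β - 1) =
        C₁ * nr E ^ η * Y * (1 + Real.log Y) ^ (β - 1) +
        C₂ * nr E ^ η * Y * (1 + Real.log Y) ^ (β - 1) +
        C₃ * (nr E ^ η * Y) * (1 + Real.log Y) ^ (β - 1) := by ring
    rw [hfin]
    linarith

end H77.AB
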