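import Pool.Agent.H77.AB.Part
import Pool.Agent.H77.AB.Msk
import Pool.Agent.H38.BB.CUb

/-!
# [H77 AB UB0] the analytic upper bound without x-classes, 60-100 lines

`Xs = ∅`, all classes have `x i 0 = 0`, `Θ i ⊆ F_p e_0`. Then `akR D c b f 0 = b 0 * ∏ ∏ pi w ^ 0 = b 0`. If `b 0` is a `p`-th power, `SWU = 0`. Otherwise: `ww = 1` (`i ∈ ∅` is false), and for `θ ∈ Θ i`, `θ · (LL v (akR k))_k = θ 0 * LL v (b 0) = θ · (LL v (b k))_k`, so `wtR c f (LL akR) = wtR c f (LL b)` and `SWU ≤ ∑_f wtR c f (LL v (b k))` over the pairwise disjoint `f` disjoint from `E` with `∏ nr ≤ Y`, which is `≤ ∑_{n ∈ GF Y, n ∩ E = ∅} ∏_{v ∈ n} tw D N c.Θ b v`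
(`part` with `κ = Unit`, or as in `ub_mw`, H38/BB/CUb). `ubt` (H38/BB/CUbt) with `Δ = c.Θ`: for `0 ≠ δ ∈ Θ i`, `bp b δ = (b 0) ^ (δ 0).val`, `δ 0 ≠ 0`, is not a `p`-th power because `b 0` is not (Bezout).
-/

set_option autoImplicit false

open scoped NumberField
open IsDedekindDomain
open scoped Classical

noncomputable section

namespace H77.AB

open H63.MA H38.BB

private theorem ub0_pow {K : Type} [Field K] {p : ℕ} (hp : p.Prime) (x : Kˣ) {t : ZMod p}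
    (ht : t ≠ 0) (h : IsPow p (x ^ t.val)) : IsPow p x := by
  haveI : Fact p.Prime := ⟨hp⟩
  obtain ⟨y, hy⟩ := h
  have h1 : (t.val * t⁻¹.val) % p = 1 := by
    have h2 : ((t.val * t⁻¹.val : ℕ) : ZMod p) = 1 := by
      rw [Nat.cast_mul, ZMod.natCast_zmod_val, ZMod.natCast_zmod_val, mul_inv_cancel₀ ht]
    have h3 : ((t.val * t⁻¹.val : ℕ) : ZMod p) = ((1 : ℕ) : ZMod p) := by rw [h2, Nat.cast_one]
    have h4 := (ZMod.natCast_eq_natCast_iff' _ _ _).1 h3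
    rw [h4, Nat.mod_eq_of_lt hp.one_lt]
  obtain ⟨q, hq⟩ : ∃ q, t.val * t⁻¹.val = p * q + 1 :=
    ⟨t.val * t⁻¹.val / p, by rw [← h1]; exact (Nat.div_add_mod _ _).symm⟩
  refine ⟨y ^ t⁻¹.val * (x ^ q)⁻¹, ?_⟩
  have h5 : (y ^ t⁻¹.val) ^ p = x ^ (p * q) * x := by
    rw [← pow_mul, mul_comm (t⁻¹.val), pow_mul, hy, ← pow_mul, hq, pow_succ]
  rw [mul_pow, h5, inv_pow, ← pow_mul, mul_comm q p, mul_comm (x ^ (p * q)) x,
    mul_inv_cancel_right]

theorem ubw0 {K : Type} [Field K] [NumberField K] {p : ℕ} {ζ : K} {m N : ℕ} [NeZero p]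
    (hp : p.Prime) (hζ : IsPrimitiveRoot ζ p) (D : RD K p ζ) (c : CR p (m + 1) N) (hN : 1 ≤ N)
    (hr : ∀ i, c.x i 0 = 0 ∧ ∀ θ ∈ c.Θ i, ∀ k, k ≠ 0 → θ k = 0) (M : ℕ) (u η : ℝ)
    (hη : 0 < η) :
    ∃ C : ℝ, 0 < C ∧ ∀ (b : Fin (m + 1) → Kˣ) (E : Finset (Pl K)) (c₂ : Fin M → Kˣ),
      BS2 D.toRD0 b E → ∀ Y : ℝ, 1 ≤ Y →
        SWU D.toRD0 c ∅ c₂ u b E Y ≤ C * nr E ^ η * Y * (1 + Real.log Y) ^ (N - 1) := by
  obtain ⟨C, hC, hubt⟩ := ubt hp hζ D (m + 1) N hN c.Θ η hη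
  refine ⟨C, hC, fun b E c₂ hb Y hY => ?_⟩
  have hak0 : ∀ f : Fin N → Finset (Pl K), akR D.toRD0 c b f 0 = b 0 := by
    intro f
    unfold akR
    have h1 : ∏ i, ∏ w ∈ f i, D.pi w ^ (c.x i 0).val = 1 := by
      refine Finset.prod_eq_one fun i _ => Finset.prod_eq_one fun w _ => ?_
      rw [(hr i).1, ZMod.val_zero, pow_zero]
    rw [h1, mul_one]
  have hY0 : 0 < Y := by linarith
  have hLY : 0 ≤ Real.log Y := Real.log_nonneg hY
  have hE0 : 0 < nr E := lt_of_lt_of_le one_pos (one_le_nr E)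
  by_cases hpow : IsPow p (b 0)
  · have h0 : SWU D.toRD0 c ∅ c₂ u b E Y = 0 := by
      unfold SWU
      refine Finset.sum_eq_zero fun f _ => ?_
      rw [if_neg]
      rintro ⟨-, -, -, h⟩
      rw [hak0] at h
      exact h hpow
    rw [h0]
    positivity
  have hbp : ∀ i, ∀ δ ∈ c.Θ i, δ ≠ 0 → ¬ IsPow p (bp b δ) := by
    intro i δ hδ hδ0 h
    have hk : ∀ k, k ≠ 0 → δ k = 0 := (hr i).2 δ hδ
    have h1 : bp b δ = b 0 ^ (δ 0).val := by
      unfold bp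
      rw [Finset.prod_eq_single (0 : Fin (m + 1))]
      · intro k _ hk0
        rw [hk k hk0, ZMod.val_zero, pow_zero]
      · intro h
        exact absurd (Finset.mem_univ _) h
    have h2 : δ 0 ≠ 0 := by
      intro h0
      apply hδ0
      funext k
      by_cases hk0 : k = 0
      · rw [hk0, h0]
        rfl
      · rw [hk k hk0]
        rfl
    rw [h1] at h
    exact hpow (ub0_pow hp (b 0) h2 h)
  have hwt : ∀ f : Fin N → Finset (Pl K),
      wtR c f (fun v k => D.LL v (akR D.toRD0 c b f k)) = wtR c f (fun v k => D.LL v (b k)) := by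
    intro f
    unfold wtR
    refine Finset.prod_congr rfl fun i _ => Finset.prod_congr rfl fun v _ => ?_
    have h1 : ∀ θ ∈ c.Θ i, dt θ (fun k => D.LL v (akR D.toRD0 c b f k)) =
        dt θ (fun k => D.LL v (b k)) := by
      intro θ hθ
      unfold dt
      refine Finset.sum_congr rfl fun k _ => ?_
      by_cases hk0 : k = 0
      · simp only [hk0, hak0]
      · rw [(hr i).2 θ hθ k hk0, zero_mul, zero_mul]
    have h2 : (∀ θ ∈ c.Θ i, dt θ (fun k => D.LL v (akR D.toRD0 c b f k)) = 0) ↔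
        ∀ θ ∈ c.Θ i, dt θ (fun k => D.LL v (b k)) = 0 :=
      ⟨fun h θ hθ => (h1 θ hθ).symm.trans (h θ hθ), fun h θ hθ => (h1 θ hθ).trans (h θ hθ)⟩
    by_cases h3 : ∀ θ ∈ c.Θ i, dt θ (fun k => D.LL v (b k)) = 0
    · rw [if_pos h3, if_pos (h2.2 h3)]
    · rw [if_neg h3, if_neg fun h => h3 (h2.1 h)]
  refine le_trans ?_ (hubt b E hb hbp Y hY)
  have hw : ∀ f ∈ Fintype.piFinset (fun _ : Fin N => GF D.toRD0 Y),
      (if Dj f ∧ (∀ i, Disjoint (f i) E) ∧ ∏ i, nr (f i) ≤ Y ∧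
          ¬ IsPow p (akR D.toRD0 c b f 0) then
        wtR c f (fun v k => D.LL v (akR D.toRD0 c b f k)) *
          ∏ i, ∏ v ∈ f i, ww D.toRD0 c₂ u (i ∈ (∅ : Finset (Fin N))) v else 0) ≤
      if Dj f ∧ (∀ i, Disjoint (f i) E) ∧ ∏ i, nr (f i) ≤ Y then
        wtR c f (fun v k => D.LL v (b k)) else 0 := by
    intro f _
    have h1 : ∏ i, ∏ v ∈ f i, ww D.toRD0 c₂ u (i ∈ (∅ : Finset (Fin N))) v = 1 := by
      refine Finset.prod_eq_one fun i _ => Finset.prod_eq_one fun w _ => ?_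
      unfold ww
      rw [if_neg (Finset.notMem_empty i)]
    rw [h1, mul_one, hwt f]
    split_ifs with a1 a2 a3
    · exact le_rfl
    · exact absurd ⟨a1.1, a1.2.1, a1.2.2.1⟩ a2
    · exact cub_wt0 _ _ _
    · exact le_rfl
  unfold SWU
  refine (Finset.sum_le_sum hw).trans ?_
  rw [← Finset.sum_filter]
  have hmap : ∀ f ∈ (Fintype.piFinset (fun _ : Fin N => GF D.toRD0 Y)).filter
      (fun f => Dj f ∧ (∀ i, Disjoint (f i) E) ∧ ∏ i, nr (f i) ≤ Y),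
      Finset.univ.biUnion f ∈ (GF D.toRD0 Y).filter (fun n => Disjoint n E) := by
    intro f hf
    rw [Finset.mem_filter, Fintype.mem_piFinset] at hf
    obtain ⟨hf1, hf2, hf3, hf4⟩ := hf
    rw [Finset.mem_filter, atupa_mem_GF]
    refine ⟨⟨?_, ?_⟩, ?_⟩
    · rw [cub_nr f hf2]; exact hf4
    · intro v hv
      obtain ⟨i, -, hi⟩ := Finset.mem_biUnion.1 hv
      exact (atupa_mem_GF.1 (hf1 i)).2 v hi
    · rw [Finset.disjoint_biUnion_left]
      exact fun i _ => hf3 i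
  rw [← Finset.sum_fiberwise_of_maps_to hmap]
  refine Finset.sum_le_sum fun n _ => ?_
  have htw : ∏ v ∈ n, tw D.toRD0 N c.Θ b v = ∑ G ∈ (Fintype.piFinset fun _ : Fin N =>
      n.powerset).filter (fun G => Dj G ∧ Finset.univ.biUnion G = n),
      wtR c G (fun v k => D.LL v (b k)) := by
    unfold tw wtR
    exact cub_split n _
  rw [htw]
  refine Finset.sum_le_sum_of_subset_of_nonneg ?_ fun f _ _ => cub_wt0 _ _ _
  intro f hf
  rw [Finset.mem_filter, Finset.mem_filter] at hf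
  obtain ⟨⟨-, hf2, -, -⟩, hf5⟩ := hf
  rw [Finset.mem_filter, Fintype.mem_piFinset]
  refine ⟨fun i => ?_, hf2, hf5⟩
  rw [Finset.mem_powerset, ← hf5]
  exact Finset.subset_biUnion_of_mem f (Finset.mem_univ i)

end H77.AB
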