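import Pool.Agent.H77.AB.LDat
import Pool.Agent.H77.AB.Ub
import Pool.Agent.H77.AB.Ub0

/-!
# H77-AB-LFA: the analytic bound for the class data of `GX`

* `lfa_x`: `(cX Dg.xc l M).x k 0 ≠ 0` for `k ∈ XsX`; `lfa_r`: for the others the coordinate `0` of `x` is `0` and the elements of `Θ` are supported on the coordinate `0`; `lfa_c`: a central class gives a refined class with `x = 0`; `lfa_card`: the number of the refined classes which are not x-classes.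
* `hub_x`, `hub_r`: the bound for `SWU`.
-/

set_option autoImplicit false

open scoped NumberField
open IsDedekindDomain
open scoped Classical

noncomputable section

namespace H77.AB

open H63.MA H38.BB H38.BG H63.BU

theorem lfa_x {p d M l N₀ : ℕ} [NeZero p] {G : Type} [Group G] (Dg : GX p d M l N₀ G) :
    ∀ k ∈ XsX Dg.xc l M, (cX Dg.xc l M).x k 0 ≠ 0 := by
  intro k hk
  obtain ⟨q, hq⟩ := (Finset.mem_filter.1 hk).2
  show vX Dg.xc (eX Dg.xc l M k) 0 ≠ 0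
  rw [hq]
  show Multiplicative.toAdd (Dg.χ (Dg.g q.1.1)) ≠ 0
  intro h
  exact Dg.xne q.1.1 q.1.2 (by
    have h2 := congrArg Multiplicative.ofAdd h
    rwa [ofAdd_toAdd, ofAdd_zero] at h2)

theorem lfa_inr {p d N₀ : ℕ} [NeZero p] (X : XC p d N₀) (l M : ℕ) (k : Fin (NX X l M))
    (hk : k ∉ XsX X l M) : ∃ i, eX X l M k = Sum.inr i := by
  rcases h : eX X l M k with q | i
  · exfalso
    apply hk
    unfold XsX
    rw [Finset.mem_filter]
    exact ⟨Finset.mem_univ _, q, h⟩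
  · exact ⟨i, rfl⟩

theorem lfa_r {p d M l N₀ : ℕ} [NeZero p] {G : Type} [Group G] (Dg : GX p d M l N₀ G) :
    ∀ k, k ∉ XsX Dg.xc l M → (cX Dg.xc l M).x k 0 = 0 ∧
      ∀ θ ∈ (cX Dg.xc l M).Θ k, ∀ j, j ≠ 0 → θ j = 0 := by
  intro k hk
  obtain ⟨i, hi⟩ := lfa_inr Dg.xc l M k hk
  refine ⟨?_, ?_⟩
  · show vX Dg.xc (eX Dg.xc l M k) 0 = 0
    rw [hi]
    rfl
  · intro θ hθ j hj
    change θ ∈ ThX Dg.xc (eX Dg.xc l M k) at hθ
    rw [hi] at hθ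
    by_cases hc : i.1 ∈ Dg.xc.cen
    · have h : θ ∈ (⊥ : Submodule (ZMod p) (Fin (d + l + 1) → ZMod p)) := by
        simpa only [ThX, if_pos hc] using hθ
      rw [(Submodule.mem_bot _).1 h]
      rfl
    · have h : θ ∈ line0 p (d + l) := by simpa only [ThX, if_neg hc] using hθ
      exact h j hj

theorem lfa_c {p d M l N₀ : ℕ} [NeZero p] {G : Type} [Group G] (Dg : GX p d M l N₀ G)
    (i₀ : Fin N₀) (hi₀ : i₀ ∈ Dg.cen) :
    ∃ k, k ∉ XsX Dg.xc l M ∧ (cX Dg.xc l M).x k = 0 := by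
  obtain ⟨h1, h2, -⟩ := Dg.rc i₀ hi₀
  have h1' : i₀ ∉ Dg.xc.isx := h1
  refine ⟨(eX Dg.xc l M).symm (Sum.inr ⟨i₀, h1'⟩), ?_, ?_⟩
  · intro hk
    obtain ⟨q, hq⟩ := (Finset.mem_filter.1 hk).2
    rw [Equiv.apply_symm_apply] at hq
    exact absurd hq (by simp)
  · show vX Dg.xc (eX Dg.xc l M _) = 0
    rw [Equiv.apply_symm_apply]
    show xv 0 (Multiplicative.toAdd (Dg.τ (Dg.g i₀))) 0 = 0
    rw [h2, toAdd_one]
    funext j
    refine Fin.cases rfl (fun j => ?_) j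
    show Fin.append (0 : Fin d → ZMod p) (0 : Fin l → ZMod p) j = 0
    refine Fin.addCases (fun j => ?_) (fun j => ?_) j
    · rw [Fin.append_left]; rfl
    · rw [Fin.append_right]; rfl

theorem lfa_card {p d N₀ : ℕ} [NeZero p] (X : XC p d N₀) (l M : ℕ) :
    (Finset.univ.filter fun k => k ∉ XsX X l M).card =
      (Finset.univ.filter fun i => i ∉ X.isx).card := by
  refine Finset.card_bij' (fun k _ => bse X (eX X l M k))
    (fun i hi => (eX X l M).symm (Sum.inr ⟨i, (Finset.mem_filter.1 hi).2⟩)) ?_ ?_ ?_ ?_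
  · intro k hk
    obtain ⟨i, hi⟩ := lfa_inr X l M k (Finset.mem_filter.1 hk).2
    rw [Finset.mem_filter]
    refine ⟨Finset.mem_univ _, ?_⟩
    rw [hi]
    exact i.2
  · intro i hi
    rw [Finset.mem_filter]
    refine ⟨Finset.mem_univ _, fun hk => ?_⟩
    obtain ⟨q, hq⟩ := (Finset.mem_filter.1 hk).2
    rw [Equiv.apply_symm_apply] at hq
    exact absurd hq (by simp)
  · intro k hk
    obtain ⟨i, hi⟩ := lfa_inr X l M k (Finset.mem_filter.1 hk).2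
    rw [Equiv.symm_apply_eq]
    simp only [hi]
    rfl
  · intro i hi
    show bse X (eX X l M _) = i
    rw [Equiv.apply_symm_apply]
    rfl

theorem hub_x {K : Type} [Field K] [NumberField K] {p : ℕ} [NeZero p] {ζ : K} {d M l N₀ : ℕ}
    {G : Type} [Group G] (hp : p.Prime) (hζ : IsPrimitiveRoot ζ p) (D : RD K p ζ)
    (Dg : GX p d M l N₀ G) (hc : ∃ i₀, i₀ ∈ Dg.cen)
    (hN : (Finset.univ.filter fun i => i ∉ Dg.isx).card + 1 ≤ N₀)
    (h1 : H1 (cX Dg.xc l M) (XsX Dg.xc l M) (((p : ℝ) ^ l)⁻¹) M N₀) (η : ℝ) (hη : 0 < η) :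
    ∃ C : ℝ, 0 < C ∧ ∀ (b' : Fin (d + l + 1) → Kˣ) (E : Finset (Pl K)) (c₂ : Fin M → Kˣ),
      BS2 D.toRD0 b' E → BS2 D.toRD0 c₂ E → Ind p c₂ → ∀ Y : ℝ, 1 ≤ Y →
        SWU D.toRD0 (cX Dg.xc l M) (XsX Dg.xc l M) c₂ (((p : ℝ) ^ l)⁻¹) b' E Y ≤
          C * nr E ^ η * Y * (1 + Real.log Y) ^ (N₀ - 1) := by
  obtain ⟨i₀, hi₀⟩ := hc
  obtain ⟨k₀, hk₀, hx0⟩ := lfa_c (l := l) (M := M) Dg i₀ hi₀
  have hp1 : (1 : ℝ) ≤ (p : ℝ) ^ l := one_le_pow₀ (by exact_mod_cast hp.one_lt.le)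
  refine ubw hp hζ D (cX Dg.xc l M) (XsX Dg.xc l M) (lfa_x Dg) (lfa_r Dg) M _ η
    (by positivity) (inv_le_one_of_one_le₀ hp1) hη N₀ h1 k₀ hk₀ hx0 ?_
  rw [lfa_card]
  exact hN

theorem hub_r {K : Type} [Field K] [NumberField K] {p : ℕ} [NeZero p] {ζ : K} {d M l N₀ : ℕ}
    {G : Type} [Group G] (hp : p.Prime) (hζ : IsPrimitiveRoot ζ p) (D : RD K p ζ)
    (Dg : GX p d M l N₀ G) (hx : Dg.isx = ∅) (hN : 1 ≤ N₀) (η : ℝ) (hη : 0 < η) :
    ∃ C : ℝ, 0 < C ∧ ∀ (b' : Fin (d + l + 1) → Kˣ) (E : Finset (Pl K)) (c₂ : Fin M → Kˣ),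
      BS2 D.toRD0 b' E → BS2 D.toRD0 c₂ E → Ind p c₂ → ∀ Y : ℝ, 1 ≤ Y →
        SWU D.toRD0 (cX Dg.xc l M) (XsX Dg.xc l M) c₂ (((p : ℝ) ^ l)⁻¹) b' E Y ≤
          C * nr E ^ η * Y * (1 + Real.log Y) ^ (N₀ - 1) := by
  have hXs : XsX Dg.xc l M = ∅ := by
    rw [Finset.eq_empty_iff_forall_notMem]
    intro k hk
    obtain ⟨q, hq⟩ := (Finset.mem_filter.1 hk).2
    have h2 : q.1.1 ∈ Dg.isx := q.1.2
    rw [hx] at h2
    exact absurd h2 (Finset.notMem_empty _)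
  have hNX : NX Dg.xc l M = N₀ := by
    have h3 := lfa_card Dg.xc l M
    have h4 : (Finset.univ.filter fun k => k ∉ XsX Dg.xc l M) = Finset.univ :=
      Finset.filter_true_of_mem fun k _ => by rw [hXs]; exact Finset.notMem_empty _
    have h5 : (Finset.univ.filter fun i => i ∉ Dg.xc.isx) = Finset.univ :=
      Finset.filter_true_of_mem fun i _ => by
        have h6 : Dg.xc.isx = ∅ := hx
        rw [h6]; exact Finset.notMem_empty _
    rw [h4, h5, Finset.card_univ, Finset.card_univ, Fintype.card_fin, Fintype.card_fin] at h3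
    exact h3
  obtain ⟨C, hC, h5⟩ := ubw0 hp hζ D (cX Dg.xc l M) (by rw [hNX]; exact hN)
    (fun k => lfa_r Dg k (by rw [hXs]; exact Finset.notMem_empty _)) M (((p : ℝ) ^ l)⁻¹) η hη
  refine ⟨C, hC, fun b' E c₂ hb _ _ Y hY => ?_⟩
  have h6 : SWU D.toRD0 (cX Dg.xc l M) ∅ c₂ (((p : ℝ) ^ l)⁻¹) b' E Y ≤
        C * nr E ^ η * Y * (1 + Real.log Y) ^ (N₀ - 1) := by
    have h8 := h5 b' E c₂ hb Y hY
    have h9 : NX Dg.xc l M - 1 = N₀ - 1 := by rw [hNX]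
    rwa [h9] at h8
  have h7 : ∀ Xs : Finset (Fin (NX Dg.xc l M)), Xs = ∅ →
      SWU D.toRD0 (cX Dg.xc l M) Xs c₂ (((p : ℝ) ^ l)⁻¹) b' E Y ≤
        C * nr E ^ η * Y * (1 + Real.log Y) ^ (N₀ - 1) := by
    rintro Xs rfl
    exact h6
  exact h7 _ hXs

end H77.AB
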