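import Pool.Agent.H77.AB.JSB
import Pool.Agent.H63.MA.GTame

/-!
# [H77 AB LRL] the local relation, 90-140 lines

`φ, φ₀ : Γ → G` of finite type, `φ σ (φ₀ σ)⁻¹ ∈ V` (`Stb Dg V`), `v ∉ S0`, `φ (inertia)` and `φ₀ (inertia)` of exponent `p`, `kk k₀ σ = χ (φ₀ σ)`. `c : G → ZMod p` is additive on `V₁ = JS s V` and zero on `V₂ = JS s V₁`. If `kk z σ = c (s u s⁻¹ u⁻¹)`, `u = φ σ (φ₀ σ)⁻¹`, for all `σ`, then `(ord v k₀) LL v z = (ord v z) LL v k₀`.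

Proof. `Φ = φ.prod φ₀ : Γ → G × G` is of finite type (`gtame_ft_prod` in Pool/Agent/H63/MA/GTame.lean, or directly: `E ⊔ E'`), and `Φ τ ^ p = 1` for `τ ∈ inr L v`. `tfrob_z` (Pool/Agent/H38/BG/TFrob.lean) for `Φ` and `a = ![k₀, z]` gives `F` with `Φ F` commuting with `Φ t`, `t = L.t v`, `kk k₀ F = LL v k₀`, `kk z F = LL v z`. Also `kk k₀ t = ord v k₀`, `kk z t = ord v z` (in `ZMod p`: `ld_kk_t hp hζ (fun h => hv (D.above v h)) (D.pi_self v hv) (L.ld v hv) a`,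
`L.t v = (L.ld v hv).t` is `gupb_t`; see `ukum` in Pool/Agent/H63/BU/UKum.lean, `hord`).
Let `A = φ₀ F`, `B = φ₀ t` (`A B = B A`), `u = φ F A⁻¹`, `u' = φ t B⁻¹`, both in `V`. `φ F φ t = u A u' B = u (A u' A⁻¹) A B` and `φ t φ F = u' (B u B⁻¹) B A`, so `u (A u' A⁻¹) = u' (B u B⁻¹)`; all four factors are in `V` (`jsb_conj`), commutative (`Dg.wc`), so `A u' A⁻¹ u'⁻¹ = B u B⁻¹ u⁻¹`. By `jsb_com`: `A u' A⁻¹ u'⁻¹ = (s u' s⁻¹ u'⁻¹)^{(χ A).val} z₁`, `B u B⁻¹ u⁻¹ = (s u s⁻¹ u⁻¹)^{(χ B).val} z₂`,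
`z₁, z₂ ∈ V₂`. Apply `c` (`c (x^k) = k c x` for `x ∈ V₁` by induction; `V₂ ≤ V₁` by `jsb_stb`): `(χ A) c(s u' s⁻¹ u'⁻¹) = (χ B) c(s u s⁻¹ u⁻¹)` in `ZMod p` (`ZMod.natCast_zmod_val`), i.e. `kk k₀ F * kk z t = kk k₀ t * kk z F`.
-/

set_option autoImplicit false

open scoped NumberField
open IsDedekindDomain
open scoped Classical

noncomputable section

namespace H77.AB

open H63.MA H38.BB H38.BG H63.BU

private theorem lrl_pow {p d M l N₀ : ℕ} {G : Type} [Group G] (Dg : GX p d M l N₀ G)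
    (V : Subgroup G) (c : G → ZMod p)
    (hc : ∀ a ∈ JS Dg.s V, ∀ b ∈ JS Dg.s V, c (a * b) = c a + c b)
    (hc0 : ∀ a ∈ JS Dg.s (JS Dg.s V), c a = 0) (x : G) (hx : x ∈ JS Dg.s V) (k : ℕ) :
    c (x ^ k) = (k : ZMod p) * c x := by
  induction k with
  | zero => rw [pow_zero, hc0 1 (one_mem _), Nat.cast_zero, zero_mul]
  | succ k ih =>
    rw [pow_succ, hc _ (pow_mem hx k) _ hx, ih, Nat.cast_succ]
    ring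

private theorem lrl_grp {p d M l N₀ : ℕ} {G : Type} [Group G] (Dg : GX p d M l N₀ G)
    (V : Subgroup G) (hV : Stb Dg V) (A B u u' : G) (hu : u ∈ V) (hu' : u' ∈ V)
    (h1 : (u * A) * (u' * B) = (u' * B) * (u * A)) (h2 : A * B = B * A) :
    A * u' * A⁻¹ * u'⁻¹ = B * u * B⁻¹ * u⁻¹ := by
  have hcm : ∀ x ∈ V, ∀ y ∈ V, x * y = y * x := fun x hx y hy => Dg.wc x (hV.1 hx) y (hV.1 hy)
  have hA : A * u' * A⁻¹ ∈ V := jsb_conj Dg V hV A u' hu'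
  have hB : B * u * B⁻¹ ∈ V := jsb_conj Dg V hV B u hu
  have h3 : u * (A * u' * A⁻¹) = u' * (B * u * B⁻¹) := by
    have h4 : u * (A * u' * A⁻¹) * (A * B) = u' * (B * u * B⁻¹) * (A * B) := by
      calc u * (A * u' * A⁻¹) * (A * B) = (u * A) * (u' * B) := by group
        _ = (u' * B) * (u * A) := h1
        _ = u' * (B * u * B⁻¹) * (B * A) := by group
        _ = u' * (B * u * B⁻¹) * (A * B) := by rw [h2]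
    exact mul_right_cancel h4
  have h5 : A * u' * A⁻¹ = u⁻¹ * (u' * (B * u * B⁻¹)) := by rw [← h3, inv_mul_cancel_left]
  calc A * u' * A⁻¹ * u'⁻¹ = u⁻¹ * (u' * (B * u * B⁻¹)) * u'⁻¹ := by rw [h5]
    _ = u⁻¹ * ((B * u * B⁻¹) * u') * u'⁻¹ := by rw [hcm u' hu' _ hB]
    _ = u⁻¹ * (B * u * B⁻¹) := by group
    _ = (B * u * B⁻¹) * u⁻¹ := hcm _ (inv_mem hu) _ hB

theorem lrl {K : Type} [Field K] [NumberField K] {Ω : Type} [Field Ω] [Algebra K Ω]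
    [IsAlgClosure K Ω] {p : ℕ} [NeZero p] {ζ : K} {d M l N₀ : ℕ} {G : Type} [Group G] [Finite G]
    (hp : p.Prime) (hζ : IsPrimitiveRoot ζ p) (D : RD0 K p ζ) (L : LDs D Ω)
    (Dg : GX p d M l N₀ G) (V : Subgroup G) (hV : Stb Dg V) (φ₀ φ : Gal(Ω/K) →* G)
    (h₀ : H38.ML.FT φ₀) (h : H38.ML.FT φ) (hφ : ∀ σ, φ σ * (φ₀ σ)⁻¹ ∈ V) (k₀ : Kˣ)
    (hk : ∀ σ : Gal(Ω/K), kk p ζ k₀ σ = Multiplicative.toAdd (Dg.χ (φ₀ σ))) (v : Pl K)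
    (hv : v ∉ D.S0) (he₀ : ∀ τ ∈ inr L v, φ₀ τ ^ p = 1) (he : ∀ τ ∈ inr L v, φ τ ^ p = 1)
    (c : G → ZMod p) (hc : ∀ a ∈ JS Dg.s V, ∀ b ∈ JS Dg.s V, c (a * b) = c a + c b)
    (hc0 : ∀ a ∈ JS Dg.s (JS Dg.s V), c a = 0) (z : Kˣ)
    (hz : ∀ σ : Gal(Ω/K), kk p ζ z σ =
      c (Dg.s * (φ σ * (φ₀ σ)⁻¹) * Dg.s⁻¹ * (φ σ * (φ₀ σ)⁻¹)⁻¹)) :
    ((ord v k₀ : ℤ) : ZMod p) * D.LL v z = ((ord v z : ℤ) : ZMod p) * D.LL v k₀ := by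
  obtain ⟨F, hFt, hFk⟩ := tfrob_z hp hζ L (φ.prod φ₀) (gtame_ft_prod _ _ h h₀) v hv
    (fun τ hτ => by
      rw [MonoidHom.prod_apply]
      exact Prod.ext (he τ hτ) (he₀ τ hτ)) ![k₀, z]
  have hF1 : φ F * φ (L.t v) = φ (L.t v) * φ F := congrArg Prod.fst hFt
  have hF2 : φ₀ F * φ₀ (L.t v) = φ₀ (L.t v) * φ₀ F := congrArg Prod.snd hFt
  have hk0F : kk p ζ k₀ F = D.LL v k₀ := hFk 0
  have hkzF : kk p ζ z F = D.LL v z := hFk 1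
  have hk0t : kk p ζ k₀ (L.t v) = ord v k₀ := by
    rw [gupb_t L hv]
    exact ld_kk_t hp hζ (fun h => hv (D.above v h)) (D.pi_self v hv) (L.ld v hv) k₀
  have hkzt : kk p ζ z (L.t v) = ord v z := by
    rw [gupb_t L hv]
    exact ld_kk_t hp hζ (fun h => hv (D.above v h)) (D.pi_self v hv) (L.ld v hv) z
  rw [← hk0F, ← hkzF, ← hk0t, ← hkzt]
  obtain ⟨A, hA⟩ : ∃ A, A = φ₀ F := ⟨_, rfl⟩
  obtain ⟨B, hB⟩ : ∃ B, B = φ₀ (L.t v) := ⟨_, rfl⟩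
  obtain ⟨u, hu⟩ : ∃ u, u = φ F * A⁻¹ := ⟨_, rfl⟩
  obtain ⟨u', hu'⟩ : ∃ u', u' = φ (L.t v) * B⁻¹ := ⟨_, rfl⟩
  have huV : u ∈ V := by rw [hu, hA]; exact hφ F
  have huV' : u' ∈ V := by rw [hu', hB]; exact hφ (L.t v)
  have e1 : φ F = u * A := by rw [hu, inv_mul_cancel_right]
  have e2 : φ (L.t v) = u' * B := by rw [hu', inv_mul_cancel_right]
  rw [e1, e2] at hF1
  rw [← hA, ← hB] at hF2
  have hg := lrl_grp Dg V hV A B u u' huV huV' hF1 hF2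
  obtain ⟨z₁, hz₁, hg₁⟩ := jsb_com Dg V hV A u' huV'
  obtain ⟨z₂, hz₂, hg₂⟩ := jsb_com Dg V hV B u huV
  have hV1 := (jsb_stb Dg V hV).2
  have hV2 := (jsb_stb Dg (JS Dg.s V) hV1).1
  have m1 : Dg.s * u' * Dg.s⁻¹ * u'⁻¹ ∈ JS Dg.s V := Subgroup.subset_closure ⟨u', huV', rfl⟩
  have m2 : Dg.s * u * Dg.s⁻¹ * u⁻¹ ∈ JS Dg.s V := Subgroup.subset_closure ⟨u, huV, rfl⟩
  have c1 : c (A * u' * A⁻¹ * u'⁻¹) =
      Multiplicative.toAdd (Dg.χ A) * c (Dg.s * u' * Dg.s⁻¹ * u'⁻¹) := by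
    rw [hg₁, hc _ (pow_mem m1 _) _ (hV2 hz₁), lrl_pow Dg V c hc hc0 _ m1, hc0 z₁ hz₁, add_zero,
      ZMod.natCast_zmod_val]
  have c2 : c (B * u * B⁻¹ * u⁻¹) =
      Multiplicative.toAdd (Dg.χ B) * c (Dg.s * u * Dg.s⁻¹ * u⁻¹) := by
    rw [hg₂, hc _ (pow_mem m2 _) _ (hV2 hz₂), lrl_pow Dg V c hc hc0 _ m2, hc0 z₂ hz₂, add_zero,
      ZMod.natCast_zmod_val]
  have z1 : kk p ζ z F = c (Dg.s * u * Dg.s⁻¹ * u⁻¹) := by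
    rw [hz F, hu, hA]
  have z2 : kk p ζ z (L.t v) = c (Dg.s * u' * Dg.s⁻¹ * u'⁻¹) := by
    rw [hz (L.t v), hu', hB]
  rw [hk F, hk (L.t v), ← hA, ← hB, z1, z2, ← c2, ← hg, c1, mul_comm]

end H77.AB
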