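import Pool.Agent.H77.AB.LKY

/-!
# [H77 AB LY] counting characters with the local relations, 90-140 lines

`Ys` a finite set of homomorphisms `y : Γ → F_p^e` of finite type, unramified outside `S0 ∪ x` (`Ux L x y`). `J` is a surjective matrix `F_p^e → F_p^e₁` (`mv J`, Pool/Agent/H38/BG/TDef.lean), and for `v ∈ x`, a coordinate `k` and every `z` with `kk z σ = mv J (y σ) k`: `(ord v k₀) LL v z = (ord v z) LL v k₀`. Then `#Ys ≤ #U^(e - e₁) (p^(e - e₁))^{#x} n1^{e₁}`, `n1 = n1 D U x k₀` (ADat: the number of the pairs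
`(u, η)`, `u ∈ U`, `η : x → ZMod p`, with `(ord v k₀) LL v a = η v LL v k₀` for `v ∈ x`, `a = u ∏_{w ∈ x} pi w ^ (η w).val`).
Proof. Let `Q` be a matrix with `e - e₁` rows such that `x ↦ (mv J x, mv Q x)` is injective (the kernel of `mv J` has dimension `e - e₁` because `mv J` is surjective, `LinearMap.finrank_range_add_finrank_ker`; take a linear projection of `F_p^e` onto the kernel (`Submodule.exists_leftInverse…`/`LinearMap.exists_leftInverse_of_injective`) in a basis of the kernel; a linear map `F_p^e → F_p^n` is `mv Q` with `Q j k` = the `j`-th coordinate of the image of `Pi.single k 1`).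
For `y ∈ Ys` and a row `r` of `J` or `Q` the homomorphism `σ ↦ ∑_k r k (y σ) k` to `Multiplicative (ZMod p)` is of finite type and unramified outside `S0 ∪ x` (composition of `y` with a homomorphism; `H38.ML.ft_comp`), so by `lky` it is `kc a(u, η)` for some `(u, η) ∈ U × (x → ZMod p)`; for a row of `J` the pair `(u, η)` is in `n1S D U x k₀`: `z = a(u, η)` satisfies `kk z σ = mv J (y σ) k`
(`kk p ζ a σ = toAdd (kc p ζ Ω a σ)` by definition), and `ord v z = (η v).val` for `v ∈ x` (`lky_ord`), `= η v` in `ZMod p`. The map `Ys → (Fin e₁ → n1S) × (Fin (e - e₁) → U × (x → ZMod p))` so obtained is injective: the pairs determine `mv J (y σ)` and `mv Q (y σ)` for all `σ`, hence `y`. Count (`Fintype.card_piFinset_const`/`Fintype.card_fun`): `n1^{e₁} (#U p^{#x})^{e - e₁}`.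
-/

set_option autoImplicit false

open scoped NumberField
open IsDedekindDomain
open scoped Classical

noncomputable section

namespace H77.AB

open H63.MA H38.BB H38.BG H63.BU

/-- the linear map of a matrix -/
private def ly_lin {p m u : ℕ} (ι : Fin m → Fin u → ZMod p) :
    (Fin u → ZMod p) →ₗ[ZMod p] (Fin m → ZMod p) where
  toFun := mv ι
  map_add' x y := by
    funext j
    simp only [mv, Pi.add_apply, mul_add, Finset.sum_add_distrib]
  map_smul' c x := by
    funext j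
    simp only [mv, Pi.smul_apply, smul_eq_mul, RingHom.id_apply, Finset.mul_sum]
    exact Finset.sum_congr rfl fun k _ => by ring

private theorem ly_mat {p m u : ℕ} (q : (Fin u → ZMod p) →ₗ[ZMod p] (Fin m → ZMod p))
    (x : Fin u → ZMod p) : mv (fun j k => q (fun i => if k = i then 1 else 0) j) x = q x := by
  rw [LinearMap.pi_apply_eq_sum_univ q x]
  funext j
  simp only [mv, Finset.sum_apply, Pi.smul_apply, smul_eq_mul]
  exact Finset.sum_congr rfl fun k _ => mul_comm _ _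

/-- a complementary matrix -/
private theorem ly_Q {p : ℕ} (hp : p.Prime) {e e₁ : ℕ} (J : Fin e₁ → Fin e → ZMod p)
    (hJ : Function.Surjective (mv J)) : ∃ Q : Fin (e - e₁) → Fin e → ZMod p,
      ∀ x x' : Fin e → ZMod p, mv J x = mv J x' → mv Q x = mv Q x' → x = x' := by
  have : Fact p.Prime := ⟨hp⟩
  have h1 : LinearMap.range (ly_lin J) = ⊤ := LinearMap.range_eq_top.2 hJ
  have h2 := LinearMap.finrank_range_add_finrank_ker (ly_lin J)
  rw [h1, finrank_top, Module.finrank_fin_fun, Module.finrank_fin_fun] at h2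
  have h3 : Module.finrank (ZMod p) (LinearMap.ker (ly_lin J)) =
      Module.finrank (ZMod p) (Fin (e - e₁) → ZMod p) := by
    rw [Module.finrank_fin_fun]
    omega
  let I : LinearMap.ker (ly_lin J) ≃ₗ[ZMod p] (Fin (e - e₁) → ZMod p) :=
    LinearEquiv.ofFinrankEq _ _ h3
  obtain ⟨g, hg⟩ := LinearMap.exists_leftInverse_of_injective
    (LinearMap.ker (ly_lin J)).subtype (Submodule.ker_subtype _)
  let q : (Fin e → ZMod p) →ₗ[ZMod p] (Fin (e - e₁) → ZMod p) := I.toLinearMap.comp g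
  refine ⟨fun j k => q (fun i => if k = i then 1 else 0) j, fun x x' hx hq => ?_⟩
  rw [ly_mat, ly_mat] at hq
  have h4 : x - x' ∈ LinearMap.ker (ly_lin J) := by
    rw [LinearMap.mem_ker, map_sub, sub_eq_zero]
    exact hx
  have h5 : q (x - x') = 0 := by rw [map_sub, hq, sub_self]
  have h6 : g (x - x') = ⟨x - x', h4⟩ := by
    have := congrArg (fun F => F ⟨x - x', h4⟩) hg
    exact this
  have h7 : I ⟨x - x', h4⟩ = 0 := by
    rw [← h6]
    exact h5
  have h8 : (⟨x - x', h4⟩ : LinearMap.ker (ly_lin J)) = 0 := (LinearEquiv.map_eq_zero_iff I).1 h7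
  have h9 : x - x' = 0 := congrArg Subtype.val h8
  exact sub_eq_zero.1 h9

/-- the homomorphism of a row -/
private def ly_row {p e : ℕ} (r : Fin e → ZMod p) :
    Multiplicative (Fin e → ZMod p) →* Multiplicative (ZMod p) :=
  AddMonoidHom.toMultiplicative
    { toFun := fun x => ∑ k, r k * x k
      map_zero' := by simp
      map_add' := fun x y => by simp only [Pi.add_apply, mul_add, Finset.sum_add_distrib] }

private theorem ly_row_apply {p e : ℕ} (r : Fin e → ZMod p)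
    (x : Multiplicative (Fin e → ZMod p)) :
    Multiplicative.toAdd (ly_row r x) = ∑ k, r k * Multiplicative.toAdd x k := rfl

theorem ly {K : Type} [Field K] [NumberField K] {Ω : Type} [Field Ω] [Algebra K Ω]
    [IsAlgClosure K Ω] {p : ℕ} [NeZero p] {ζ : K} (hp : p.Prime) (hζ : IsPrimitiveRoot ζ p)
    (D : RD0 K p ζ) (L : LDs D Ω) (U : Finset Kˣ) (hU : UR D U) (x : Finset (Pl K))
    (hx : ∀ v ∈ x, v ∉ D.S0) (k₀ : Kˣ) {e e₁ : ℕ} (J : Fin e₁ → Fin e → ZMod p)
    (hJ : Function.Surjective (mv J)) (Ys : Finset (Gal(Ω/K) →* Multiplicative (Fin e → ZMod p)))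
    (hY : ∀ y ∈ Ys, Ux L x y)
    (hrel : ∀ y ∈ Ys, ∀ v ∈ x, ∀ (k : Fin e₁) (z : Kˣ),
      (∀ σ : Gal(Ω/K), kk p ζ z σ = mv J (Multiplicative.toAdd (y σ)) k) →
      ((ord v k₀ : ℤ) : ZMod p) * D.LL v z = ((ord v z : ℤ) : ZMod p) * D.LL v k₀) :
    Ys.card ≤ U.card ^ (e - e₁) * (p ^ (e - e₁)) ^ x.card * n1 D U x k₀ ^ e₁ := by
  obtain ⟨Q, hQ⟩ := ly_Q hp J hJ
  -- the Kummer elements of a row
  have key : ∀ y ∈ Ys, ∀ r : Fin e → ZMod p, ∃ c : Kˣ × (↥x → ZMod p), c.1 ∈ U ∧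
      ∀ σ : Gal(Ω/K), kk p ζ (c.1 * ∏ w : ↥x, D.pi w.1 ^ (c.2 w).val) σ =
        ∑ k, r k * Multiplicative.toAdd (y σ) k := by
    intro y hy r
    have h1 : Ux L x ((ly_row r).comp y) := by
      refine ⟨H38.ML.ft_comp _ _ (hY y hy).1, fun v hv hvx τ hτ => ?_⟩
      rw [MonoidHom.comp_apply, (hY y hy).2 v hv hvx τ hτ, map_one]
    obtain ⟨u, hu, η, h2⟩ := lky hp hζ D L U hU x hx _ h1
    refine ⟨(u, η), hu, fun σ => ?_⟩
    unfold kk
    rw [← h2, MonoidHom.comp_apply, ly_row_apply]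
  have key1 : ∀ y ∈ Ys, ∀ j : Fin e₁, ∃ c ∈ n1S D U x k₀,
      ∀ σ : Gal(Ω/K), kk p ζ (c.1 * ∏ w : ↥x, D.pi w.1 ^ (c.2 w).val) σ =
        mv J (Multiplicative.toAdd (y σ)) j := by
    intro y hy j
    obtain ⟨c, hc, h1⟩ := key y hy (J j)
    refine ⟨c, ?_, h1⟩
    unfold n1S
    rw [Finset.mem_filter, Finset.mem_product]
    refine ⟨⟨hc, Finset.mem_univ _⟩, fun v => ?_⟩
    rw [hrel y hy v.1 v.2 j _ h1, lky_ord D c.1 (hU.1 _ hc) x hx c.2 v.1 (hx v.1 v.2),
      dif_pos v.2, Int.cast_natCast, ZMod.natCast_zmod_val]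
  have key2 : ∀ y ∈ Ys, ∀ j : Fin (e - e₁), ∃ c ∈ U ×ˢ (Finset.univ : Finset (↥x → ZMod p)),
      ∀ σ : Gal(Ω/K), kk p ζ (c.1 * ∏ w : ↥x, D.pi w.1 ^ (c.2 w).val) σ =
        mv Q (Multiplicative.toAdd (y σ)) j := by
    intro y hy j
    obtain ⟨c, hc, h1⟩ := key y hy (Q j)
    exact ⟨c, Finset.mem_product.2 ⟨hc, Finset.mem_univ _⟩, h1⟩
  have hex : ∀ y ∈ Ys, ∃ F : (Fin e₁ → Kˣ × (↥x → ZMod p)) ×
      (Fin (e - e₁) → Kˣ × (↥x → ZMod p)),
      F ∈ (Fintype.piFinset fun _ : Fin e₁ => n1S D U x k₀) ×ˢ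
        (Fintype.piFinset fun _ : Fin (e - e₁) =>
          U ×ˢ (Finset.univ : Finset (↥x → ZMod p))) ∧
      (∀ (j : Fin e₁) (σ : Gal(Ω/K)),
        kk p ζ ((F.1 j).1 * ∏ w : ↥x, D.pi w.1 ^ ((F.1 j).2 w).val) σ =
          mv J (Multiplicative.toAdd (y σ)) j) ∧
      ∀ (j : Fin (e - e₁)) (σ : Gal(Ω/K)),
        kk p ζ ((F.2 j).1 * ∏ w : ↥x, D.pi w.1 ^ ((F.2 j).2 w).val) σ =
          mv Q (Multiplicative.toAdd (y σ)) j := by
    intro y hy
    choose c1 h1 h1' using key1 y hy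
    choose c2 h2 h2' using key2 y hy
    exact ⟨(c1, c2), Finset.mem_product.2 ⟨Fintype.mem_piFinset.2 h1,
      Fintype.mem_piFinset.2 h2⟩, h1', h2'⟩
  choose! F hF using hex
  have hcard : Ys.card ≤ ((Fintype.piFinset fun _ : Fin e₁ => n1S D U x k₀) ×ˢ
        (Fintype.piFinset fun _ : Fin (e - e₁) =>
          U ×ˢ (Finset.univ : Finset (↥x → ZMod p)))).card := by
    refine Finset.card_le_card_of_injOn F (fun y hy => (hF y hy).1) ?_
    intro y hy y' hy' hyy
    have h1 := hF y hy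
    have h2 := hF y' hy'
    rw [← hyy] at h2
    refine MonoidHom.ext fun σ => ?_
    apply Multiplicative.toAdd.injective
    refine hQ _ _ ?_ ?_
    · funext j
      rw [← h1.2.1 j σ, h2.2.1 j σ]
    · funext j
      rw [← h1.2.2 j σ, h2.2.2 j σ]
  refine hcard.trans (le_of_eq ?_)
  rw [Finset.card_product, Fintype.card_piFinset_const, Fintype.card_piFinset_const,
    Finset.card_product, Finset.card_univ, Fintype.card_fun, ZMod.card, Fintype.card_coe]
  unfold n1
  rw [mul_pow, ← pow_mul, ← pow_mul, mul_comm x.card (e - e₁), mul_comm]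

end H77.AB
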