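import Pool.Agent.H77.AB.JSC
import Pool.Agent.H77.AB.LRL
import Pool.Agent.H77.AB.LY

/-!
# [H77 AB LIND] homomorphisms with given reduction modulo V, 120-180 lines

`V` stable (`Stb Dg V`), `#V = p^(e+lam)`, `#(JS s V) = p^lam`. `Rs` a finite set of homomorphisms `φ` close to `φ₀` (`Nr Dg L x V φ₀ φ`, LDat: finite type, `φ φ₀⁻¹ ∈ V`, equal to `φ₀` on the inertia groups outside `S0 ∪ x`, exponent `p` on inertia at `x`). Then `#Rs ≤ C (p^e)^{#x} n1^lam`, `C` depends only on `V` (and `Dg`, `D`, `U`).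

Proof. Induction on `n` for `#V ≤ n` (`Nat.card V ≥ 1`, so `n = 0` is void). If `V = ⊥`: `φ = φ₀`, `#Rs ≤ 1`, `e = lam = 0` (`p^0 = 1`), `C = 1`. Otherwise `V₁ = JS s V`, `#V₁ < #V` (`jsb_lt`), so the induction hypothesis applies to `V₁` (`jsb_stb`): constant `C₁`. `jsc` gives `e, e₁, l₁, c, c₁, J` (the given `e`, `lam` agree: `Nat.pow_right_injective`: `lam = e₁ + l₁`, `e` the same). `C = #U^(e - e₁) C₁`.
For `φ ∈ Rs` let `u σ = φ σ (φ₀ σ)⁻¹ ∈ V`, `y_φ σ = c (u σ)`: a homomorphism to `Multiplicative (Fin e → ZMod p)`: `u (σ τ) = φ σ (u τ) (φ σ)⁻¹ u σ`, and `φ σ (u τ) (φ σ)⁻¹ (u τ)⁻¹ ∈ V₁` (`jsb_com`, `jsb_stb`; `c = 0` on `V₁`); of finite type (it is `1` on `ker φ ∩ ker φ₀`: `E ⊔ E'`, `IntermediateField.fixingSubgroup_antitone`, as `ugsr_chi_ft`), trivial on the inertia groups outside `S0 ∪ x` (`φ = φ₀` there).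
Relation for `ly`: `mv J (c (u σ)) k = c₁ (s u s⁻¹ u⁻¹) k`, so `lrl` applies with `c := fun a => c₁ a k`. So the set `Ys` of the `y_φ` has at most `#U^(e-e₁) (p^(e-e₁))^{#x} n1^{e₁}` elements (`ly`).
The fibre through `φ'` (`y_φ = y_φ'`): `φ σ (φ' σ)⁻¹ = (u_φ σ)(u_φ' σ)⁻¹ ∈ V₁` (`c` of it is `0`), so `Nr Dg L x V₁ φ' φ` holds, `kk k₀ σ = χ (φ' σ)` (`χ = 1` on `V ≤ W`: `Dg.wχ`), exponent `p` for `φ'` at `x`. By induction it has at most `C₁ (p^{e₁})^{#x} n1^{l₁}` elements. Product (`Finset.card_le_mul_card_image`): `(p^(e-e₁))^{#x} (p^{e₁})^{#x} = (p^e)^{#x}` (`e₁ ≤ e` because `mv J` is surjective: `Fintype.card_le_of_surjective`, `Nat.pow_le_pow_iff_right`), `n1^{e₁+l₁} = n1^lam`.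
-/

set_option autoImplicit false

open scoped NumberField
open IsDedekindDomain
open scoped Classical

noncomputable section

namespace H77.AB

open H63.MA H38.BB H38.BG H63.BU

private theorem lind_com {p d M l N₀ : ℕ} {G : Type} [Group G] (Dg : GX p d M l N₀ G)
    (V : Subgroup G) (hV : Stb Dg V) (h w : G) (hw : w ∈ V) :
    h * w * h⁻¹ * w⁻¹ ∈ JS Dg.s V := by
  obtain ⟨z, hz, he⟩ := jsb_com Dg V hV h w hw
  rw [he]
  have h1 := jsb_stb Dg V hV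
  have h2 := jsb_stb Dg (JS Dg.s V) h1.2
  exact mul_mem (pow_mem ((jsb_mem Dg V hV _).2 ⟨w, hw, rfl⟩) _) (h2.1 hz)

private theorem lind_one {p e : ℕ} {G : Type} [Group G] {V V' : Subgroup G}
    {c : G → Fin e → ZMod p} (hc : Crd V V' c) : c 1 = 0 := by
  have h := hc.1 1 (one_mem _) 1 (one_mem _)
  rw [mul_one] at h
  exact left_eq_add.1 h

private theorem lind_inv {p e : ℕ} {G : Type} [Group G] {V V' : Subgroup G}
    {c : G → Fin e → ZMod p} (hc : Crd V V' c) {a : G} (ha : a ∈ V) : c a⁻¹ = - c a := by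
  have h := hc.1 a ha a⁻¹ (inv_mem ha)
  rw [mul_inv_cancel, lind_one hc] at h
  exact eq_neg_of_add_eq_zero_right h.symm

private theorem lind_hom {K : Type} [Field K] {Ω : Type} [Field Ω] [Algebra K Ω]
    {p d M l N₀ e : ℕ} {G : Type} [Group G] (Dg : GX p d M l N₀ G) (V : Subgroup G)
    (hV : Stb Dg V) (c : G → Fin e → ZMod p) (hc : Crd V (JS Dg.s V) c)
    (φ₀ φ : Gal(Ω/K) →* G) (hφ : ∀ σ, φ σ * (φ₀ σ)⁻¹ ∈ V) :
    ∃ y : Gal(Ω/K) →* Multiplicative (Fin e → ZMod p),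
      ∀ σ, y σ = Multiplicative.ofAdd (c (φ σ * (φ₀ σ)⁻¹)) := by
  refine ⟨MonoidHom.mk' (fun σ => Multiplicative.ofAdd (c (φ σ * (φ₀ σ)⁻¹))) ?_, fun σ => rfl⟩
  intro σ τ
  rw [← ofAdd_add]
  congr 1
  have h1 : φ (σ * τ) * (φ₀ (σ * τ))⁻¹ =
      (φ σ * (φ τ * (φ₀ τ)⁻¹) * (φ σ)⁻¹ * (φ τ * (φ₀ τ)⁻¹)⁻¹) *
        ((φ τ * (φ₀ τ)⁻¹) * (φ σ * (φ₀ σ)⁻¹)) := by
    rw [map_mul, map_mul]
    group
  have h2 := lind_com Dg V hV (φ σ) (φ τ * (φ₀ τ)⁻¹) (hφ τ)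
  have h3 := (jsb_stb Dg V hV).1 h2
  rw [h1, hc.1 _ h3 _ (mul_mem (hφ τ) (hφ σ)), (hc.2.1 _ h3).2 h2, zero_add,
    hc.1 _ (hφ τ) _ (hφ σ), add_comm]

private theorem lind_ft {K : Type} [Field K] {Ω : Type} [Field Ω] [Algebra K Ω] {G H : Type}
    [Group G] [Group H] (φ₀ φ : Gal(Ω/K) →* G) (h0 : H38.ML.FT φ₀) (h1 : H38.ML.FT φ)
    (y : Gal(Ω/K) →* H) (hy : ∀ σ, φ₀ σ = 1 → φ σ = 1 → y σ = 1) : H38.ML.FT y := by
  obtain ⟨E, hE, hle⟩ := h0
  obtain ⟨E', hE', hle'⟩ := h1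
  refine ⟨E ⊔ E', inferInstance, fun σ hσ => ?_⟩
  have h1 : σ ∈ E.fixingSubgroup := IntermediateField.fixingSubgroup_antitone le_sup_left hσ
  have h2 : σ ∈ E'.fixingSubgroup := IntermediateField.fixingSubgroup_antitone le_sup_right hσ
  exact hy σ (hle h1) (hle' h2)

theorem lind {K : Type} [Field K] [NumberField K] {Ω : Type} [Field Ω] [Algebra K Ω]
    [IsAlgClosure K Ω] {p : ℕ} [NeZero p] {ζ : K} {d M l N₀ : ℕ} {G : Type} [Group G] [Finite G]
    (hp : p.Prime) (hζ : IsPrimitiveRoot ζ p) (D : RD0 K p ζ) (L : LDs D Ω)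
    (Dg : GX p d M l N₀ G) (U : Finset Kˣ) (hU : UR D U) (n : ℕ) :
    ∀ V : Subgroup G, Stb Dg V → Nat.card V ≤ n → ∃ C : ℕ,
      ∀ (x : Finset (Pl K)) (k₀ : Kˣ) (φ₀ : Gal(Ω/K) →* G) (Rs : Finset (Gal(Ω/K) →* G))
        (e lam : ℕ), (∀ v ∈ x, v ∉ D.S0) → H38.ML.FT φ₀ →
        (∀ v ∈ x, ∀ τ ∈ inr L v, φ₀ τ ^ p = 1) →
        (∀ σ : Gal(Ω/K), kk p ζ k₀ σ = Multiplicative.toAdd (Dg.χ (φ₀ σ))) →
        (∀ φ ∈ Rs, Nr Dg L x V φ₀ φ) → Nat.card V = p ^ (e + lam) →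
        Nat.card (JS Dg.s V) = p ^ lam →
        Rs.card ≤ C * (p ^ e) ^ x.card * n1 D U x k₀ ^ lam := by
  have hinj : Function.Injective (fun k : ℕ => p ^ k) := Nat.pow_right_injective hp.two_le
  induction n with
  | zero =>
    intro V _ h
    have h1 : 0 < Nat.card V := Nat.card_pos
    omega
  | succ n ih =>
    intro V hV hn
    by_cases hbot : V = ⊥
    · subst hbot
      refine ⟨1, ?_⟩
      intro x k₀ φ₀ Rs e lam _ _ _ _ hR hcV _
      rw [Subgroup.card_bot] at hcV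
      have h0 : e + lam = 0 := hinj (by simpa using hcV.symm)
      have he : e = 0 := by omega
      have hl : lam = 0 := by omega
      subst he hl
      simp only [pow_zero, one_pow, mul_one]
      rw [Finset.card_le_one]
      have h1 : ∀ φ ∈ Rs, φ = φ₀ := by
        intro φ hφ
        apply MonoidHom.ext
        intro σ
        have h2 := (hR φ hφ).2.1 σ
        rw [Subgroup.mem_bot] at h2
        exact mul_inv_eq_one.1 h2
      intro a ha b hb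
      rw [h1 a ha, h1 b hb]
    · have hst := jsb_stb Dg V hV
      have hlt := jsb_lt hp Dg V hV hbot
      obtain ⟨C₁, hC₁⟩ := ih (JS Dg.s V) hst.2 (by omega)
      obtain ⟨e, e₁, l₁, c, c₁, J, k1, k2, k3, hc, hc₁, hJ, hJs⟩ := jsc hp Dg V hV
      have he₁ : e₁ ≤ e := by
        have h1 := Fintype.card_le_of_surjective _ hJs
        rw [Fintype.card_fun, Fintype.card_fun, Fintype.card_fin, Fintype.card_fin,
          ZMod.card] at h1
        exact (Nat.pow_le_pow_iff_right hp.one_lt).1 h1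
      refine ⟨U.card ^ (e - e₁) * C₁, ?_⟩
      intro x k₀ φ₀ Rs e' lam hx hft he0 hk hR hcV hcV1
      have hl : lam = e₁ + l₁ := hinj (by show p ^ lam = p ^ (e₁ + l₁); rw [← hcV1, ← k2])
      have hee : e' = e := by
        have h1 : e' + lam = e + (e₁ + l₁) :=
          hinj (by show p ^ (e' + lam) = p ^ (e + (e₁ + l₁)); rw [← hcV, ← k1])
        omega
      subst hl hee
      have hex : ∀ φ : Gal(Ω/K) →* G, ∃ y : Gal(Ω/K) →* Multiplicative (Fin e' → ZMod p),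
          φ ∈ Rs → ∀ σ, y σ = Multiplicative.ofAdd (c (φ σ * (φ₀ σ)⁻¹)) := by
        intro φ
        by_cases hφ : φ ∈ Rs
        · obtain ⟨y, hy⟩ := lind_hom Dg V hV c hc φ₀ φ (hR φ hφ).2.1
          exact ⟨y, fun _ => hy⟩
        · exact ⟨1, fun h => absurd h hφ⟩
      choose Y hY using hex
      have hYs := ly hp hζ D L U hU x hx k₀ J hJs (Rs.image Y) (by
        intro y hy
        obtain ⟨φ, hφ, rfl⟩ := Finset.mem_image.1 hy
        refine ⟨lind_ft φ₀ φ hft (hR φ hφ).1 _ ?_, ?_⟩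
        · intro σ h1 h2
          rw [hY φ hφ, h1, h2, inv_one, mul_one, lind_one hc, ofAdd_zero]
        · intro v hv hvx τ hτ
          rw [hY φ hφ, (hR φ hφ).2.2.1 v hv hvx τ hτ, mul_inv_cancel, lind_one hc, ofAdd_zero])
        (by
        intro y hy v hv k z hz
        obtain ⟨φ, hφ, rfl⟩ := Finset.mem_image.1 hy
        refine lrl hp hζ D L Dg V hV φ₀ φ hft (hR φ hφ).1 (hR φ hφ).2.1 k₀ hk v (hx v hv)
          (he0 v hv) ((hR φ hφ).2.2.2 v hv) (fun a => c₁ a k) ?_ ?_ z ?_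
        · intro a ha b hb
          show c₁ (a * b) k = c₁ a k + c₁ b k
          rw [hc₁.1 a ha b hb]
          rfl
        · intro a ha
          show c₁ a k = 0
          rw [(hc₁.2.1 a ((jsb_stb Dg _ hst.2).1 ha)).2 ha]
          rfl
        · intro σ
          rw [hz σ, hY φ hφ, toAdd_ofAdd, ← hJ _ ((hR φ hφ).2.1 σ)])
      have hfib : ∀ y ∈ Rs.image Y, (Rs.filter fun φ => Y φ = y).card ≤
          C₁ * (p ^ e₁) ^ x.card * n1 D U x k₀ ^ l₁ := by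
        intro y hy
        obtain ⟨φ', hφ', rfl⟩ := Finset.mem_image.1 hy
        refine hC₁ x k₀ φ' _ e₁ l₁ hx (hR φ' hφ').1 (hR φ' hφ').2.2.2 ?_ ?_ k2 k3
        · intro σ
          rw [hk σ]
          congr 1
          have h1 := Dg.wχ _ (hV.1 ((hR φ' hφ').2.1 σ))
          rw [map_mul, map_inv] at h1
          exact (mul_inv_eq_one.1 h1).symm
        · intro φ hφ
          rw [Finset.mem_filter] at hφ
          refine ⟨(hR φ hφ.1).1, ?_, ?_, (hR φ hφ.1).2.2.2⟩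
          · intro σ
            have h1 : c (φ σ * (φ₀ σ)⁻¹) = c (φ' σ * (φ₀ σ)⁻¹) := by
              have h2 := DFunLike.congr_fun hφ.2 σ
              rw [hY φ hφ.1, hY φ' hφ'] at h2
              exact Multiplicative.ofAdd.injective h2
            have h2 : φ σ * (φ' σ)⁻¹ = (φ σ * (φ₀ σ)⁻¹) * (φ' σ * (φ₀ σ)⁻¹)⁻¹ := by group
            rw [h2, ← hc.2.1 _ (mul_mem ((hR φ hφ.1).2.1 σ) (inv_mem ((hR φ' hφ').2.1 σ))),
              hc.1 _ ((hR φ hφ.1).2.1 σ) _ (inv_mem ((hR φ' hφ').2.1 σ)),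
              lind_inv hc ((hR φ' hφ').2.1 σ), h1, add_neg_cancel]
          · intro v hv hvx τ hτ
            rw [(hR φ hφ.1).2.2.1 v hv hvx τ hτ, (hR φ' hφ').2.2.1 v hv hvx τ hτ]
      have htot := Finset.card_le_mul_card_image (f := Y) Rs _ hfib
      refine htot.trans ((Nat.mul_le_mul_left _ hYs).trans (le_of_eq ?_))
      have hpe : p ^ e' = p ^ (e' - e₁) * p ^ e₁ := by
        rw [← pow_add, Nat.sub_add_cancel he₁]
      rw [hpe, mul_pow, pow_add]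
      ring

end H77.AB
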