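import Pool.Agent.H77.AB.LDat
import Pool.Agent.H63.BU.UOrd

/-!
# [H77 AB LKY] characters unramified outside S0 and x, 70-110 lines

`U` a finite set of representatives of the `S0`-units (`UR D U`), `x` a finite set of primes outside `S0`, `y : Γ → Multiplicative (ZMod p)` of finite type and trivial on the inertia groups outside `S0 ∪ x` (`Ux L x y`). Then `y = kc a` with `a = u ∏_{w ∈ x} pi w ^ (η w).val`, `u ∈ U`, `η : x → ZMod p`.
Proof. `y = kc z` for some `z` (`kc_all hp hζ y hy.1`). For `v ∉ S0`, `v ∉ x`: `p ∣ ord v z` by `uord` (Pool/Agent/H63/BU/UOrd.lean with `l = p`, `ξ = ζ`, `¬ Above p v` by `D.above`). Let `η w = (ord w z : ZMod p)`. `z / ∏_{w ∈ x} pi w ^ (η w).val` has orders divisible by `p` at all `v ∉ S0` (`lky_ord`; `ZMod.intCast_zmod_eq_zero_iff_dvd`), so it is `u₀ y₀^p` with an `S0`-unit `u₀` (`unit_of_ord`), `u₀ = u y₁^p` with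
`u ∈ U`; `kk z σ = kk a σ` (`kk_mul_arg`, `kk_eq_zero_iff` for `p`-th powers; as in `uord_fin`), `MonoidHom.ext`, `Multiplicative.toAdd.injective`.
* `lky_ord`: the order of `a` at `v ∉ S0` is `(η v).val` if `v ∈ x`, `0` otherwise (`ord_mul`, `ord_prod`, `ord_pow`, `D.pi_self`, `D.pi_ne`, `TUnit D.S0 u : ∀ v ∉ S0, ord v u = 0`; as `ukum_ordE` in UKum, `Finset.sum_eq_single`).
-/

set_option autoImplicit false

open scoped NumberField
open IsDedekindDomain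
open scoped Classical

noncomputable section

namespace H77.AB

open H63.MA H38.BB H38.BG H63.BU

theorem lky_ord {K : Type} [Field K] [NumberField K] {p : ℕ} {ζ : K} (D : RD0 K p ζ)
    (u : Kˣ) (hu : TUnit D.S0 u) (x : Finset (Pl K)) (hx : ∀ v ∈ x, v ∉ D.S0)
    (η : ↥x → ZMod p) (v : Pl K) (hv : v ∉ D.S0) :
    ord v (u * ∏ w : ↥x, D.pi w.1 ^ (η w).val) =
      if h : v ∈ x then ((η ⟨v, h⟩).val : ℤ) else 0 := by
  rw [ord_mul, hu v hv, zero_add, ord_prod]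
  by_cases h : v ∈ x
  · rw [dif_pos h, Finset.sum_eq_single (⟨v, h⟩ : ↥x)]
    · rw [ord_pow, D.pi_self v hv, mul_one]
    · intro w _ hne
      have hne' : v ≠ w.1 := fun h' => hne (Subtype.ext h'.symm)
      rw [ord_pow, D.pi_ne w.1 v (hx w.1 w.2) hv hne', mul_zero]
    · intro h'
      exact absurd (Finset.mem_univ _) h'
  · rw [dif_neg h]
    apply Finset.sum_eq_zero
    intro w _
    have hne : v ≠ w.1 := by
      intro h'
      exact h (h' ▸ w.2)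
    rw [ord_pow, D.pi_ne w.1 v (hx w.1 w.2) hv hne, mul_zero]

theorem lky {K : Type} [Field K] [NumberField K] {Ω : Type} [Field Ω] [Algebra K Ω]
    [IsAlgClosure K Ω] {p : ℕ} [NeZero p] {ζ : K} (hp : p.Prime) (hζ : IsPrimitiveRoot ζ p)
    (D : RD0 K p ζ) (L : LDs D Ω) (U : Finset Kˣ) (hU : UR D U) (x : Finset (Pl K))
    (hx : ∀ v ∈ x, v ∉ D.S0) (y : Gal(Ω/K) →* Multiplicative (ZMod p)) (hy : Ux L x y) :
    ∃ u ∈ U, ∃ η : ↥x → ZMod p, y = kc p ζ Ω (u * ∏ w : ↥x, D.pi w.1 ^ (η w).val) := by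
  obtain ⟨z, hz⟩ := kc_all hp hζ y hy.1
  have hTU1 : TUnit D.S0 (1 : Kˣ) := fun v _ => by rw [ord_one]
  obtain ⟨η, hη⟩ : ∃ η : ↥x → ZMod p, ∀ w, η w = ((ord w.1 z : ℤ) : ZMod p) := ⟨_, fun _ => rfl⟩
  have h1 : ∀ v, v ∉ D.S0 → (p : ℤ) ∣ ord v (z * (∏ w : ↥x, D.pi w.1 ^ (η w).val)⁻¹) := by
    intro v hv
    have h2 := lky_ord D 1 hTU1 x hx η v hv
    rw [one_mul] at h2
    rw [ord_mul, ord_inv, h2, ← sub_eq_add_neg]
    by_cases hvx : v ∈ x
    · rw [dif_pos hvx, ← ZMod.intCast_zmod_eq_zero_iff_dvd, Int.cast_sub, Int.cast_natCast,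
        ZMod.natCast_zmod_val, hη, sub_self]
    · rw [dif_neg hvx, sub_zero]
      refine uord hp hζ L hv (fun h => hv (D.above v h)) z fun τ hτ => ?_
      rw [← hz]
      exact hy.2 v hv hvx τ hτ
  obtain ⟨u₀, y₀, hu₀, hxy⟩ := uord_unit hp D _ h1
  obtain ⟨u, hu, y₁, hy₁⟩ := hU.2 u₀ hu₀
  refine ⟨u, hu, η, ?_⟩
  have hza : z = (u * ∏ w : ↥x, D.pi w.1 ^ (η w).val) * (y₁ * y₀) ^ p := by
    rw [mul_inv_eq_iff_eq_mul] at hxy
    rw [hxy, hy₁, mul_pow, mul_assoc u, mul_right_comm]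
  rw [hz]
  apply MonoidHom.ext
  intro σ
  have h5 : kk p ζ z σ = kk p ζ (u * ∏ w : ↥x, D.pi w.1 ^ (η w).val) σ := by
    have h6 : kk p ζ ((y₁ * y₀) ^ p) σ = 0 :=
      (kk_eq_zero_iff (Ω := Ω) hp hζ ((y₁ * y₀) ^ p)).2 ⟨y₁ * y₀, rfl⟩ σ
    conv_lhs => rw [hza]
    rw [kk_mul_arg hp hζ, h6, add_zero]
  exact Multiplicative.toAdd.injective h5

end H77.AB
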