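import Pool.Agent.H77.AB.LTot
import Pool.Agent.H77.AB.LExP
import Pool.Agent.H77.AB.LLd

/-!
# [H77 AB LSUM] the number of homomorphisms with given E and Kummer data, 90-130 lines (as ucnt)

`lsum`: there is `C` such that for all `B`, `E`, `b : Fin (d+1) → Kˣ` with `BS2 D b E`, `c₂ : Fin M → Kˣ` and every finite set `Rs` of homomorphisms `φ` of finite type with `∏_{v ∈ T} nm v ^ ix (φ (inertia)) ≤ B`, `E` = the ramified primes which are not of a type, and (for the family `f` of the typed primes) `k₀ = akR D Dg.c0 b f 0` not a `p`-th power, `kk k₀ σ = χ (φ σ)`, `LocC D Dg b c₂ f`: `#Rs ≤ C (#G)^{#E} ∑_{ε ∈ U^l} SWU (cX …) (bx b ε) E (UY B a E)`.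

Proof as `ucnt` in Pool/Agent/H63/BU/UCnt.lean (copy): `C` from `ltot`; `fam φ i` = the set of the primes of type `i` (`uinr_fin`, `llead_ty`); `lcnt_nr` (LLd) gives `∏ nr (f i) ≤ UY`, `Dj f`, `Disjoint (f i) E`, `f i ∈ GF D (UY B a E)` for `f = fam φ`. For `f ∈ piFinset (GF D (UY B a E))` the fibre `{φ ∈ Rs : fam φ = f}` is empty or has at most `C (#G)^{#E} ∏_{i ∉ isx} (#class_i)^{#(f i)} (p^{d+M})^{#x} n1^l` elements (`ltot` with `k₀ = akR D Dg.c0 b f 0`), so by `lexp` at most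
`C (#G)^{#E} ∑_ε ∑_{F over f} swt F`. Sum over `f` (`Finset.card_eq_sum_card_fiberwise`): exchange `∑_f` and `∑_ε` (`Finset.sum_comm`), `∑_f ∑_{F : unC … F = f} swt F ≤ ∑_F swt F = SWU` (`swu_eq`; the inner sums are over disjoint subsets of `piFinset (GF ..)`: `Finset.sum_fiberwise_le_sum_of_sum_fiber_nonneg`, or `Finset.sum_comm'` with `swt ≥ 0` (`lexb_nonneg`)).
-/

set_option autoImplicit false

open scoped NumberField
open IsDedekindDomain
open scoped Classical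

noncomputable section

namespace H77.AB

open H63.MA H38.BB H38.BG H63.BU

theorem lsum {K : Type} [Field K] [NumberField K] {Ω : Type} [Field Ω] [Algebra K Ω]
    [IsAlgClosure K Ω] {p : ℕ} [NeZero p] {ζ : K} {d M l N₀ : ℕ} {G : Type} [Group G] [Finite G]
    (hp : p.Prime) (hζ : IsPrimitiveRoot ζ p) (D : RD0 K p ζ) (L : LDs D Ω)
    (hnil : Group.IsNilpotent G) (Dg : GX p d M l N₀ G) (U : Finset Kˣ) (hU : UR D U) (z : K)
    (hz : IsPrimitiveRoot z (Nat.card G))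
    (hS : ∀ v : Pl K, ((Nat.card G : ℕ) : 𝓞 K) ∈ v.asIdeal → v ∈ D.S0) (a : ℕ) (ha : 0 < a)
    (ix : Subgroup G → ℕ) (h1 : ∀ H, H ≠ ⊥ → a ≤ ix H)
    (h2 : ∀ g : G, g ≠ 1 → ix (Subgroup.zpowers g) ≤ a → ∃ i, IsConj g (Dg.g i)) :
    ∃ C : ℕ, ∀ (B : ℝ) (E : Finset (Pl K)) (b : Fin (d + 1) → Kˣ) (c₂ : Fin M → Kˣ)
      (Rs : Finset (Gal(Ω/K) →* G)), BS2 D b E →
      (∀ φ ∈ Rs, H38.ML.FT φ ∧ (∀ T : Finset (Pl K), (∀ v ∈ T, v ∉ D.S0) →
          ∏ v ∈ T, (nm v : ℝ) ^ ix ((inr L v).map φ) ≤ B) ∧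
        (∀ v, v ∈ E ↔ Rm L φ v ∧ ∀ i, ¬ TyX Dg L φ i v) ∧
        ∀ f : Fin N₀ → Finset (Pl K), (∀ i v, v ∈ f i ↔ TyX Dg L φ i v) →
          (∀ σ : Gal(Ω/K), kk p ζ (akR D Dg.c0 b f 0) σ =
            Multiplicative.toAdd (Dg.χ (φ σ))) ∧
          ¬ IsPow p (akR D Dg.c0 b f 0) ∧ LocC D Dg b c₂ f) →
      (Rs.card : ℝ) ≤ C * (Nat.card G : ℝ) ^ E.card *
        ∑ ε ∈ Fintype.piFinset (fun _ : Fin l => U),
          SWU D (cX Dg.xc l M) (XsX Dg.xc l M) c₂ (((p : ℝ) ^ l)⁻¹) (bx b ε) E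
            (UY B a E) := by
  obtain ⟨C, hC⟩ := ltot hp hζ D L hnil Dg U hU z hz hS
  refine ⟨C, fun B E b c₂ Rs hb hRs => ?_⟩
  have hu : (0 : ℝ) ≤ (((p : ℝ) ^ l)⁻¹) := by positivity
  -- the families
  obtain ⟨fam, hfam⟩ : ∃ fam : (Gal(Ω/K) →* G) → Fin N₀ → Finset (Pl K),
      ∀ φ ∈ Rs, ∀ i v, v ∈ fam φ i ↔ TyX Dg L φ i v := by
    have hfin : ∀ φ ∈ Rs, ∀ i, {v : Pl K | TyX Dg L φ i v}.Finite := by
      intro φ hφ i
      refine (uinr_fin L φ (hRs φ hφ).1).subset ?_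
      intro v hv
      exact (llead_ty L Dg φ i v hv).1
    refine ⟨fun φ i => if h : {v : Pl K | TyX Dg L φ i v}.Finite then h.toFinset else ∅,
      fun φ hφ i v => ?_⟩
    dsimp only
    rw [dif_pos (hfin φ hφ i), Set.Finite.mem_toFinset]
    rfl
  obtain ⟨Z, hZ⟩ : ∃ Z : (Fin N₀ → Finset (Pl K)) → ℝ, Z = fun f =>
      ∑ ε ∈ Fintype.piFinset (fun _ : Fin l => U),
        ∑ F ∈ (Fintype.piFinset fun _ : Fin (NX Dg.xc l M) => GF D (UY B a E)).filter
          (fun F => unC (fun k => bse Dg.xc (eX Dg.xc l M k)) F = f),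
          swt D (cX Dg.xc l M) (XsX Dg.xc l M) c₂ (((p : ℝ) ^ l)⁻¹) (bx b ε) E (UY B a E) F :=
    ⟨_, rfl⟩
  have hZ0 : ∀ f, 0 ≤ Z f := by
    intro f
    rw [hZ]
    exact Finset.sum_nonneg fun ε _ => Finset.sum_nonneg fun F _ => lexb_nonneg _ _ _ _ _ hu _ _ _ _
  have hmap : ∀ φ ∈ Rs, fam φ ∈ Fintype.piFinset (fun _ : Fin N₀ => GF D (UY B a E)) := by
    intro φ hφ
    obtain ⟨r1, r2, r3, r4⟩ := hRs φ hφ
    obtain ⟨-, -, -, -, -, h6⟩ := lcnt_nr hp hζ D L Dg hS a ha ix h1 h2 φ r1 B r2 (fam φ) E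
      (hfam φ hφ) r3
    exact Fintype.mem_piFinset.2 h6
  have hfib : ∀ f ∈ Fintype.piFinset (fun _ : Fin N₀ => GF D (UY B a E)),
      ((Rs.filter fun φ => fam φ = f).card : ℝ) ≤ C * (Nat.card G : ℝ) ^ E.card * Z f := by
    intro f _
    by_cases hemp : (Rs.filter fun φ => fam φ = f) = ∅
    · rw [hemp, Finset.card_empty, Nat.cast_zero]
      have := hZ0 f
      positivity
    · obtain ⟨φ, hφ⟩ := Finset.nonempty_iff_ne_empty.2 hemp
      rw [Finset.mem_filter] at hφ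
      obtain ⟨hφ, hff⟩ := hφ
      obtain ⟨r1, r2, r3, r4⟩ := hRs φ hφ
      have hff' : ∀ i v, v ∈ f i ↔ TyX Dg L φ i v := by
        rw [← hff]
        exact hfam φ hφ
      obtain ⟨g1, g2, g3, -, -, g6⟩ := lcnt_nr hp hζ D L Dg hS a ha ix h1 h2 φ r1 B r2 f E
        hff' r3
      obtain ⟨-, s2, s3⟩ := r4 f hff'
      have h5 := hC E f (akR D Dg.c0 b f 0) (Rs.filter fun φ => fam φ = f)
        (fun ψ hψ => (hRs ψ (Finset.mem_filter.1 hψ).1).1)
        (fun ψ hψ => by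
          have h6 := Finset.mem_filter.1 hψ
          rw [← h6.2]
          exact hfam ψ h6.1)
        (fun ψ hψ => (hRs ψ (Finset.mem_filter.1 hψ).1).2.2.1)
        (fun ψ hψ => by
          have h6 := Finset.mem_filter.1 hψ
          refine ((hRs ψ h6.1).2.2.2 f ?_).1
          rw [← h6.2]
          exact hfam ψ h6.1)
      have h6 := lexp hp D Dg U b c₂ f E (UY B a E) hb g2 g3 g1 g6 s2 s3
      have h7 : ((Rs.filter fun φ => fam φ = f).card : ℝ) ≤
          C * (Nat.card G : ℝ) ^ E.card *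
          ((∏ i ∈ Finset.univ.filter (fun i => i ∉ Dg.isx),
            (Nat.card {h : G // IsConj h (Dg.g i)} : ℝ) ^ (f i).card) *
            ((p : ℝ) ^ (d + M)) ^ (xpr Dg f).card *
            (n1 D U (xpr Dg f) (akR D Dg.c0 b f 0) : ℝ) ^ l) := by
        have h8 : ((Rs.filter fun φ => fam φ = f).card : ℝ) ≤
            ((C * Nat.card G ^ E.card *
              (∏ i ∈ Finset.univ.filter (fun i => i ∉ Dg.isx),
                Nat.card {h : G // IsConj h (Dg.g i)} ^ (f i).card) *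
              (p ^ (d + M)) ^ (xpr Dg f).card *
              n1 D U (xpr Dg f) (akR D Dg.c0 b f 0) ^ l : ℕ) : ℝ) := by
          exact_mod_cast h5
        refine h8.trans (le_of_eq ?_)
        push_cast
        ring
      refine h7.trans ?_
      refine mul_le_mul_of_nonneg_left ?_ (by positivity)
      rw [hZ]
      exact h6
  have hsum : ∑ f ∈ Fintype.piFinset (fun _ : Fin N₀ => GF D (UY B a E)), Z f ≤
      ∑ ε ∈ Fintype.piFinset (fun _ : Fin l => U),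
        SWU D (cX Dg.xc l M) (XsX Dg.xc l M) c₂ (((p : ℝ) ^ l)⁻¹) (bx b ε) E (UY B a E) := by
    rw [hZ, Finset.sum_comm]
    refine Finset.sum_le_sum fun ε _ => ?_
    rw [swu_eq]
    exact Finset.sum_fiberwise_le_sum_of_sum_fiber_nonneg
      fun f _ => Finset.sum_nonneg fun F _ => lexb_nonneg _ _ _ _ _ hu _ _ _ _
  rw [Finset.card_eq_sum_card_fiberwise (fun φ hφ => Finset.mem_coe.2 (hmap φ (Finset.mem_coe.1 hφ))),
    Nat.cast_sum]
  refine (Finset.sum_le_sum hfib).trans ?_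
  rw [← Finset.mul_sum]
  exact mul_le_mul_of_nonneg_left hsum (by positivity)

end H77.AB
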