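import Pool.Agent.H77.AB.LInd
import Pool.Agent.H63.BU.UGsr
import Pool.Agent.H63.BU.UInr

/-!
# [H77 AB LTOT] the number of homomorphisms with given ramified primes and given chi, 120-180 lines

`ltot`: there is `C` such that for all finite sets `E`, `f i` of primes, every `k₀ : Kˣ` and every finite set `Rs` of homomorphisms `φ : Γ → G` of finite type with `f i` = the primes of type `i` (`TyX`), `E` = the other ramified primes, `kk k₀ σ = χ (φ σ)`: `#Rs ≤ C (#G)^{#E} ∏_{i ∉ isx} (#class_i)^{#(f i)} (p^{d+M})^{#x} n1^l`, `x = xpr Dg f = ⋃_{i ∈ isx} f i`, `n1 = n1 D U x k₀` (ADat).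

Proof (compare `ufib` in Pool/Agent/H63/BU/UFib.lean, much can be copied). Let `τ v ∈ inr L v` be as in `uinr_cyc` for `Rs`, `H = G`. `ρ φ = ((φ (τ v))_{v ∈ E}, (φ (L.t v))_{v ∈ f i, i ∉ isx})` takes values in a set with `(#G)^{#E} ∏_{i ∉ isx} (#class_i)^{#(f i)}` elements (as in `ufib`; e.g. put the trivial one-point set for `i ∈ isx`).
If `ρ φ = ρ φ'` then `φ = φ'` on `inr L v` for `v ∉ S0`, `v ∉ x` (as in `ufib`: `v ∈ E` by the choice of `τ v`; `v ∈ f i`, `i ∉ isx` by `tm_z`; the other `v`: both are unramified, `1 = 1`), and for `v ∈ f i`, `i ∈ isx`, `φ` and `φ'` agree modulo `W` on `inr L v`: `φ σ = φ (t v) ^ k` with `k = (kk (pi v) σ).val` for both (`tm_z`), and `φ (t v) (g i)⁻¹ ∈ W` (`Dg.cls`), so `φ (t v)`, `φ' (t v)` have the same image in `G ⧸ W` (`W` is normal: `Dg.wn`).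
For a fixed value of `ρ`: the homomorphisms `(QuotientGroup.mk' W).comp φ` (of finite type, `H38.ML.ft_comp`) agree on all inertia groups outside `S0`, so there are at most `C₁` of them (`ugsr` for `H = G ⧸ W`, `n = #G`; nilpotent by `inferInstance`, `#(G ⧸ W) ∣ #G`). For a fixed value of this as well choose `φ₀` in the fibre: every `φ` in the fibre satisfies `Nr Dg L x W φ₀ φ` (`φ σ (φ₀ σ)⁻¹ ∈ W`; at `v ∈ x` the exponent is `p` by `TyX`),
so by `lind` for `V = W` (`Stb Dg W`: `wn`; `e = d + M`, `lam = l`: `Dg.cW`, `Dg.cJ`; `v ∈ x` is outside `S0` by `TyX`) the fibre has at most `C₂ (p^{d+M})^{#x} n1^l` elements. `C = C₁ C₂` (`Finset.card_le_mul_card_image` twice, or `Finset.card_le_mul_card_image_of_maps_to` as in `ufib`).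
-/

set_option autoImplicit false

open scoped NumberField
open IsDedekindDomain
open scoped Classical

noncomputable section

namespace H77.AB

open H63.MA H38.BB H38.BG H63.BU

theorem ltot {K : Type} [Field K] [NumberField K] {Ω : Type} [Field Ω] [Algebra K Ω]
    [IsAlgClosure K Ω] {p : ℕ} [NeZero p] {ζ : K} {d M l N₀ : ℕ} {G : Type} [Group G] [Finite G]
    (hp : p.Prime) (hζ : IsPrimitiveRoot ζ p) (D : RD0 K p ζ) (L : LDs D Ω)
    (hnil : Group.IsNilpotent G) (Dg : GX p d M l N₀ G) (U : Finset Kˣ) (hU : UR D U) (z : K)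
    (hz : IsPrimitiveRoot z (Nat.card G))
    (hS : ∀ v : Pl K, ((Nat.card G : ℕ) : 𝓞 K) ∈ v.asIdeal → v ∈ D.S0) :
    ∃ C : ℕ, ∀ (E : Finset (Pl K)) (f : Fin N₀ → Finset (Pl K)) (k₀ : Kˣ)
      (Rs : Finset (Gal(Ω/K) →* G)), (∀ φ ∈ Rs, H38.ML.FT φ) →
      (∀ φ ∈ Rs, ∀ i v, v ∈ f i ↔ TyX Dg L φ i v) →
      (∀ φ ∈ Rs, ∀ v, v ∈ E ↔ Rm L φ v ∧ ∀ i, ¬ TyX Dg L φ i v) →
      (∀ φ ∈ Rs, ∀ σ : Gal(Ω/K), kk p ζ k₀ σ = Multiplicative.toAdd (Dg.χ (φ σ))) →
      Rs.card ≤ C * Nat.card G ^ E.card *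
        (∏ i ∈ Finset.univ.filter (fun i => i ∉ Dg.isx),
          Nat.card {h : G // IsConj h (Dg.g i)} ^ (f i).card) *
        (p ^ (d + M)) ^ (xpr Dg f).card * n1 D U (xpr Dg f) k₀ ^ l := by
  have hWn : Dg.W.Normal := Dg.wn
  have hqnil : Group.IsNilpotent (G ⧸ Dg.W) := inferInstance
  have hqdvd : Nat.card (G ⧸ Dg.W) ∣ Nat.card G :=
    Dvd.intro _ (Subgroup.card_eq_card_quotient_mul_card_subgroup Dg.W).symm
  obtain ⟨C₁, hC₁⟩ := ugsr D L (Nat.card G) Nat.card_pos z hz hS (G ⧸ Dg.W) hqnil hqdvd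
  have hstb : Stb Dg Dg.W := ⟨le_rfl, fun w hw => Dg.wn.conj_mem w hw Dg.s⟩
  obtain ⟨C₂, hC₂⟩ := lind hp hζ D L Dg U hU (Nat.card Dg.W) Dg.W hstb le_rfl
  refine ⟨C₁ * C₂, ?_⟩
  intro E f k₀ Rs hft hty hE hk
  have hfin : Fintype G := Fintype.ofFinite G
  have h1 := fun v => uinr_cyc L (Nat.card G) hS (H := G) rfl Rs hft v
  choose τ hτ hτ2 using h1
  set x := xpr Dg f with hx
  have hmx : ∀ v, v ∈ x ↔ ∃ i ∈ Dg.isx, v ∈ f i := by
    intro v
    rw [hx]
    unfold xpr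
    rw [Finset.mem_biUnion]
  let ρ : (Gal(Ω/K) →* G) → (↥E → G) × ((i : Fin N₀) → (↥(f i) → G)) := fun φ =>
    (fun v => φ (τ v.1), fun i v => if i ∈ Dg.isx then 1 else φ (L.t v.1))
  let T : Finset ((↥E → G) × ((i : Fin N₀) → (↥(f i) → G))) :=
    Finset.univ ×ˢ Fintype.piFinset (fun i => Fintype.piFinset
      (fun _ : ↥(f i) => if i ∈ Dg.isx then {1} else
        Finset.univ.filter fun h : G => IsConj h (Dg.g i)))
  have hmaps : ∀ φ ∈ Rs, ρ φ ∈ T := by
    intro φ hφ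
    show ρ φ ∈ Finset.univ ×ˢ _
    rw [Finset.mem_product]
    refine ⟨Finset.mem_univ _, ?_⟩
    rw [Fintype.mem_piFinset]
    intro i
    rw [Fintype.mem_piFinset]
    intro v
    by_cases hi : i ∈ Dg.isx
    · rw [if_pos hi, Finset.mem_singleton]
      show (if i ∈ Dg.isx then (1 : G) else φ (L.t v.1)) = 1
      rw [if_pos hi]
    · rw [if_neg hi, Finset.mem_filter]
      refine ⟨Finset.mem_univ _, ?_⟩
      show IsConj (if i ∈ Dg.isx then (1 : G) else φ (L.t v.1)) _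
      rw [if_neg hi]
      exact ((hty φ hφ i v.1).1 v.2).2.1
  -- agreement on the inertia groups
  have hag : ∀ φ ∈ Rs, ∀ φ' ∈ Rs, ρ φ = ρ φ' → ∀ v, v ∉ D.S0 → ∀ σ ∈ inr L v,
      (v ∉ x → φ σ = φ' σ) ∧
        QuotientGroup.mk' Dg.W (φ σ) = QuotientGroup.mk' Dg.W (φ' σ) := by
    intro φ hφ φ' hφ' hρ v hv σ hσ
    by_cases hvx : v ∈ x
    · refine ⟨fun h => absurd hvx h, ?_⟩
      obtain ⟨i, hi, hvi⟩ := (hmx v).1 hvx
      have t1 := (hty φ hφ i v).1 hvi
      have t2 := (hty φ' hφ' i v).1 hvi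
      have hq : ∀ a : G, IsConj a (Dg.g i) →
          QuotientGroup.mk' Dg.W a = QuotientGroup.mk' Dg.W (Dg.g i) := by
        intro a ha
        have h2 := Dg.cls i hi a ha
        rw [← mul_inv_eq_one, ← map_inv, ← map_mul]
        exact (QuotientGroup.eq_one_iff _).2 h2
      rw [tm_z hp hζ L φ (hft φ hφ) v hv t1.2.2 σ hσ,
        tm_z hp hζ L φ' (hft φ' hφ') v hv t2.2.2 σ hσ, map_pow, map_pow,
        hq _ t1.2.1, hq _ t2.2.1]
    · have key : φ σ = φ' σ := by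
        by_cases hvE : v ∈ E
        · obtain ⟨k, hk⟩ := hτ2 v σ hσ
          have h2 : φ (τ v) = φ' (τ v) := congrFun (congrArg Prod.fst hρ) ⟨v, hvE⟩
          rw [hk φ hφ, hk φ' hφ', h2]
        · by_cases hvf : ∃ i, v ∈ f i
          · obtain ⟨i, hi⟩ := hvf
            have hix : i ∉ Dg.isx := fun h => hvx ((hmx v).2 ⟨i, h, hi⟩)
            have h2 : (if i ∈ Dg.isx then (1 : G) else φ (L.t v)) =
                (if i ∈ Dg.isx then (1 : G) else φ' (L.t v)) :=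
              congrFun (congrFun (congrArg Prod.snd hρ) i) ⟨v, hi⟩
            rw [if_neg hix, if_neg hix] at h2
            rw [tm_z hp hζ L φ (hft φ hφ) v hv ((hty φ hφ i v).1 hi).2.2 σ hσ,
              tm_z hp hζ L φ' (hft φ' hφ') v hv ((hty φ' hφ' i v).1 hi).2.2 σ hσ, h2]
          · have hone : ∀ χ ∈ Rs, χ σ = 1 := by
              intro χ hχ
              by_contra h3
              exact hvE ((hE χ hχ v).2 ⟨⟨hv, σ, hσ, h3⟩, fun i hi => hvf ⟨i, (hty χ hχ i v).2 hi⟩⟩)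
            rw [hone φ hφ, hone φ' hφ']
      exact ⟨fun _ => key, by rw [key]⟩
  let F : (Gal(Ω/K) →* G) → (Gal(Ω/K) →* G ⧸ Dg.W) := fun φ => (QuotientGroup.mk' Dg.W).comp φ
  have hfib : ∀ b ∈ T, (Rs.filter fun φ => ρ φ = b).card ≤
      (C₂ * (p ^ (d + M)) ^ x.card * n1 D U x k₀ ^ l) * C₁ := by
    intro b _
    have him : ((Rs.filter fun φ => ρ φ = b).image F).card ≤ C₁ := by
      refine hC₁ _ ?_ ?_
      · intro ψ hψ
        obtain ⟨φ, hφ, rfl⟩ := Finset.mem_image.1 hψ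
        exact H38.ML.ft_comp _ _ (hft φ (Finset.mem_filter.1 hφ).1)
      · intro ψ hψ ψ' hψ' v hv σ hσ
        obtain ⟨φ, hφ, rfl⟩ := Finset.mem_image.1 hψ
        obtain ⟨φ', hφ', rfl⟩ := Finset.mem_image.1 hψ'
        rw [Finset.mem_filter] at hφ hφ'
        exact (hag φ hφ.1 φ' hφ'.1 (hφ.2.trans hφ'.2.symm) v hv σ hσ).2
    have hff : ∀ ψ ∈ (Rs.filter fun φ => ρ φ = b).image F,
        ((Rs.filter fun φ => ρ φ = b).filter fun φ => F φ = ψ).card ≤
          C₂ * (p ^ (d + M)) ^ x.card * n1 D U x k₀ ^ l := by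
      intro ψ hψ
      obtain ⟨φ₀, hφ₀, rfl⟩ := Finset.mem_image.1 hψ
      rw [Finset.mem_filter] at hφ₀
      refine hC₂ x k₀ φ₀ _ (d + M) l ?_ (hft φ₀ hφ₀.1) ?_ (hk φ₀ hφ₀.1) ?_ Dg.cW Dg.cJ
      · intro v hv
        obtain ⟨i, hi, hvi⟩ := (hmx v).1 hv
        exact ((hty φ₀ hφ₀.1 i v).1 hvi).1.1
      · intro v hv
        obtain ⟨i, hi, hvi⟩ := (hmx v).1 hv
        exact ((hty φ₀ hφ₀.1 i v).1 hvi).2.2
      · intro φ hφ
        rw [Finset.mem_filter, Finset.mem_filter] at hφ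
        refine ⟨hft φ hφ.1.1, ?_, ?_, ?_⟩
        · intro σ
          have h2 : QuotientGroup.mk' Dg.W (φ σ) = QuotientGroup.mk' Dg.W (φ₀ σ) :=
            DFunLike.congr_fun hφ.2 σ
          rw [← mul_inv_eq_one, ← map_inv, ← map_mul] at h2
          exact (QuotientGroup.eq_one_iff _).1 h2
        · intro v hv hvx σ hσ
          exact (hag φ hφ.1.1 φ₀ hφ₀.1 (hφ.1.2.trans hφ₀.2.symm) v hv σ hσ).1 hvx
        · intro v hv
          obtain ⟨i, hi, hvi⟩ := (hmx v).1 hv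
          exact ((hty φ hφ.1.1 i v).1 hvi).2.2
    have h2 := Finset.card_le_mul_card_image (f := F) (Rs.filter fun φ => ρ φ = b) _ hff
    exact h2.trans (Nat.mul_le_mul_left _ him)
  have h2 := Finset.card_le_mul_card_image_of_maps_to hmaps _ hfib
  have h3 : T.card = Nat.card G ^ E.card *
      ∏ i ∈ Finset.univ.filter (fun i => i ∉ Dg.isx),
        Nat.card {h : G // IsConj h (Dg.g i)} ^ (f i).card := by
    show (Finset.univ ×ˢ _ : Finset _).card = _
    rw [Finset.card_product, Fintype.card_piFinset, Finset.card_univ, Fintype.card_fun,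
      Fintype.card_coe, Nat.card_eq_fintype_card, Finset.prod_filter]
    congr 1
    refine Finset.prod_congr rfl fun i _ => ?_
    rw [Fintype.card_piFinset, Finset.prod_const, Finset.card_univ, Fintype.card_coe]
    by_cases hi : i ∈ Dg.isx
    · rw [if_pos hi, if_neg (not_not.2 hi), Finset.card_singleton, one_pow]
    · rw [if_neg hi, if_pos hi, Nat.card_eq_fintype_card, Fintype.card_subtype]
  rw [h3] at h2
  refine h2.trans (le_of_eq ?_)
  ring

end H77.AB
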