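import Pool.Agent.H77.AB.Part

/-!
# [H77 AB MXA] the mixed expansion, 60-110 lines

`SWU` is the sum over the mixed families (refined x-types, unrefined other classes): `part` with `κ = Fin N`, `ι = Mx c Xs`, `cl = Mx.cl`, `F f = if ¬ IsPow p (akR D c b f 0) then 1 else 0`, `h f = hMx D c Xs c₂ u b f`.
For `i ∈ Xs` the indices `a` with `cl a = i` are the `inl ⟨⟨i, θ⟩, _⟩`, `θ ∈ Θ i`, so `∑_a hMx f a v = ww(True) v * ∑_{θ ∈ Θ i} ep(θ · F v) = ww v * #Θ_i [Θ_i ⊥ F v]` (`rx_char` in H38/BB/CExp, `F v k = LL v (akR D c b f k)`); for `i ∉ Xs` there is only `inr i`, with `hMx = #Θ_i [Θ_i ⊥ F v]`, and `ww(i ∈ Xs) v = 1`. So the product is `wtR * ∏_i ∏_v ww(i ∈ Xs) v`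
(`wtR` in H38/BB/CDef is `∏_i ∏_{v ∈ f i}` of these indicators; `Complex.ofReal_prod`).
-/

set_option autoImplicit false

open scoped NumberField
open IsDedekindDomain
open scoped Classical

noncomputable section

namespace H77.AB

open H63.MA H38.BB

private theorem mxa_sum {K : Type} [Field K] [NumberField K] {p : ℕ} {m N : ℕ} [NeZero p]
    {c : CR p m N} {Xs : Finset (Fin N)} (G : Mx c Xs → ℂ) :
    ∑ a, G a = ∑ a : {a : c.J // a.1 ∈ Xs}, G (Sum.inl a) +
      ∑ j : {i : Fin N // i ∉ Xs}, G (Sum.inr j) :=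
  Fintype.sum_sum_type (G : {a : c.J // a.1 ∈ Xs} ⊕ {i : Fin N // i ∉ Xs} → ℂ)

private theorem mxa_term {K : Type} [Field K] [NumberField K] {p : ℕ} {ζ : K} {m N : ℕ}
    [NeZero p] (hp : p.Prime) (D : RD0 K p ζ) (c : CR p m N) (Xs : Finset (Fin N)) {M : ℕ}
    (c₂ : Fin M → Kˣ) (u : ℝ) (b : Fin m → Kˣ) (f : Fin N → Finset (Pl K)) (i : Fin N)
    (v : Pl K) :
    (((if ∀ θ ∈ c.Θ i, dt θ (fun k => D.LL v (akR D c b f k)) = 0 then
      (Nat.card (c.Θ i) : ℝ) else 0) * ww D c₂ u (i ∈ Xs) v : ℝ) : ℂ) =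
      ∑ a ∈ Finset.univ.filter (fun a : Mx c Xs => Mx.cl a = i),
        hMx D c Xs c₂ u b f a v := by
  rw [Finset.sum_filter, mxa_sum (K := K), Complex.ofReal_mul]
  by_cases hi : i ∈ Xs
  · have h2 : ∑ j : {i : Fin N // i ∉ Xs}, (if (Mx.cl (Sum.inr j : Mx c Xs)) = i then
        hMx D c Xs c₂ u b f (Sum.inr j) v else 0) = 0 := by
      refine Finset.sum_eq_zero fun j _ => ?_
      rw [if_neg]
      intro h
      apply j.2
      have h' : j.1 = i := h
      rw [h']
      exact hi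
    have h3 : ∑ a : {a : c.J // a.1 ∈ Xs}, (if (Mx.cl (Sum.inl a : Mx c Xs)) = i then
        hMx D c Xs c₂ u b f (Sum.inl a) v else 0) =
        ∑ a ∈ Finset.univ.filter (fun a : c.J => a.1 ∈ Xs), if a.1 = i then
          ((ww D c₂ u True v : ℝ) : ℂ) *
            ep p (dt a.2.1 (fun k => D.LL v (akR D c b f k))) else 0 := by
      rw [Finset.sum_subtype (Finset.univ.filter (fun a : c.J => a.1 ∈ Xs))
        (p := fun a : c.J => a.1 ∈ Xs) (fun x => by simp)]
      rfl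
    rw [h2, h3, add_zero, Finset.sum_filter]
    have h4 : ∀ a : c.J, (if a.1 ∈ Xs then if a.1 = i then
          ((ww D c₂ u True v : ℝ) : ℂ) *
            ep p (dt a.2.1 (fun k => D.LL v (akR D c b f k))) else 0 else 0) =
        if a.1 = i then ((ww D c₂ u True v : ℝ) : ℂ) *
            ep p (dt a.2.1 (fun k => D.LL v (akR D c b f k))) else 0 := by
      intro a
      by_cases ha : a.1 = i
      · rw [if_pos ha, if_pos (ha ▸ hi)]
      · rw [if_neg ha]
        split_ifs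
        all_goals rfl
    rw [Finset.sum_congr rfl fun a _ => h4 a, ← Finset.sum_filter,
      rx_sum_filter c Finset.univ i (fun a => ((ww D c₂ u True v : ℝ) : ℂ) *
            ep p (dt a.2.1 (fun k => D.LL v (akR D c b f k))))]
    have h5 : ∀ θ : {θ : Fin m → ZMod p // θ ∈ c.Θ i},
        (if (⟨i, θ⟩ : c.J) ∈ (Finset.univ : Finset c.J) then ((ww D c₂ u True v : ℝ) : ℂ) *
            ep p (dt θ.1 (fun k => D.LL v (akR D c b f k))) else 0) =
          ((ww D c₂ u True v : ℝ) : ℂ) * ep p (dt θ.1 (fun k => D.LL v (akR D c b f k))) :=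
      fun θ => if_pos (Finset.mem_univ _)
    have h6 : ww D c₂ u (i ∈ Xs) v = ww D c₂ u True v := by
      unfold ww
      rw [if_pos hi, if_pos trivial]
    rw [h6, rx_char hp (c.Θ i), mul_comm, Finset.mul_sum]
    exact (Finset.sum_congr rfl fun θ _ => h5 θ).symm
  · have h2 : ∑ a : {a : c.J // a.1 ∈ Xs}, (if (Mx.cl (Sum.inl a : Mx c Xs)) = i then
        hMx D c Xs c₂ u b f (Sum.inl a) v else 0) = 0 := by
      refine Finset.sum_eq_zero fun a _ => ?_
      rw [if_neg]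
      intro h
      apply hi
      have h' : a.1.1 = i := h
      rw [← h']
      exact a.2
    have h3 : ∑ j : {i : Fin N // i ∉ Xs}, (if (Mx.cl (Sum.inr j : Mx c Xs)) = i then
        hMx D c Xs c₂ u b f (Sum.inr j) v else 0) =
        hMx D c Xs c₂ u b f (Sum.inr ⟨i, hi⟩) v := by
      rw [Finset.sum_eq_single (⟨i, hi⟩ : {i : Fin N // i ∉ Xs})]
      · exact if_pos rfl
      · intro j _ hj
        rw [if_neg]
        intro h
        exact hj (Subtype.ext h)
      · intro h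
        exact absurd (Finset.mem_univ _) h
    have h6 : ww D c₂ u (i ∈ Xs) v = 1 := by
      unfold ww
      rw [if_neg hi]
    rw [h2, h3, zero_add, h6, Complex.ofReal_one, mul_one]
    by_cases h7 : ∀ θ ∈ c.Θ i, dt θ (fun k => D.LL v (akR D c b f k)) = 0
    · rw [if_pos h7, Complex.ofReal_natCast]
      simp only [hMx]
      rw [if_pos h7]
    · rw [if_neg h7, Complex.ofReal_zero]
      simp only [hMx]
      rw [if_neg h7]

theorem swu_mx {K : Type} [Field K] [NumberField K] {p : ℕ} {ζ : K} {m N : ℕ} [NeZero p]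
    (hp : p.Prime) (D : RD0 K p ζ) (c : CR p (m + 1) N) (Xs : Finset (Fin N)) {M : ℕ}
    (c₂ : Fin M → Kˣ) (u : ℝ) (b : Fin (m + 1) → Kˣ) (E : Finset (Pl K)) (Y : ℝ) :
    ((SWU D c Xs c₂ u b E Y : ℝ) : ℂ) = MXS D c Xs c₂ u b E Y (fun _ => True) := by
  have hpart := part D (Mx.cl : Mx c Xs → Fin N) E Y
    (fun f => if True ∧ ¬ IsPow p (akR D c b f 0) then (1 : ℂ) else 0)
    (fun f a v => hMx D c Xs c₂ u b f a v)
  have hR : MXS D c Xs c₂ u b E Y (fun _ => True) =
      ∑ f ∈ Fintype.piFinset (fun _ : Fin N => GF D Y),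
        (if Dj f ∧ (∀ i, Disjoint (f i) E) ∧ ∏ i, nr (f i) ≤ Y then
          (if True ∧ ¬ IsPow p (akR D c b f 0) then (1 : ℂ) else 0) *
            ∏ i, ∏ v ∈ f i, ∑ a ∈ Finset.univ.filter (fun a : Mx c Xs => Mx.cl a = i),
              hMx D c Xs c₂ u b f a v else 0) := by
    unfold MXS
    convert hpart.symm
  rw [hR]
  unfold SWU
  rw [Complex.ofReal_sum]
  refine Finset.sum_congr rfl fun f _ => ?_
  by_cases h1 : Dj f ∧ (∀ i, Disjoint (f i) E) ∧ ∏ i, nr (f i) ≤ Y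
  · rw [if_pos h1]
    by_cases h2 : IsPow p (akR D c b f 0)
    · rw [if_neg (fun h => h.2.2.2 h2), if_neg (fun h => h.2 h2), zero_mul, Complex.ofReal_zero]
    · rw [if_pos ⟨h1.1, h1.2.1, h1.2.2, h2⟩, if_pos ⟨trivial, h2⟩, one_mul]
      unfold wtR
      rw [← Finset.prod_mul_distrib, Complex.ofReal_prod]
      refine Finset.prod_congr rfl fun i _ => ?_
      rw [← Finset.prod_mul_distrib, Complex.ofReal_prod]
      refine Finset.prod_congr rfl fun v _ => ?_
      convert mxa_term hp D c Xs c₂ u b f i v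
  · rw [if_neg h1, if_neg (fun h => h1 ⟨h.1, h.2.1, h.2.2.1⟩), Complex.ofReal_zero]

end H77.AB
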