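import Pool.Agent.H77.AB.WDef

/-!
# [H77 AB PART] the general partition lemma, 120-200 lines

`cl : ι → κ` a map of finite types, `unC cl g i = ⋃_{cl a = i} g a` (WDef). `part`: multiply out `∏_i ∏_{v ∈ f i} ∑_{a, cl a = i} h f a v` and exchange the sums.

Proof. (1) Let `f : κ → Finset (Pl K)` be pairwise disjoint (`Dj f`), all `f i ∈ GF D Y`. Claim: `∏_i ∏_{v ∈ f i} ∑_{a, cl a = i} h a v = ∑_g ∏_a ∏_{v ∈ g a} h a v`, the sum over the `g ∈ (GF D Y)^ι` with `Dj g` and `unC cl g = f`.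
Let `n = ⋃_i f i` (disjoint union); the left side is `∏_{v ∈ n} ∑_{a : ι} h' v a` with `h' v a = if v ∈ f (cl a) then h a v else 0` (for `v ∈ f i`: `v ∈ f (cl a)` iff `cl a = i`, because the `f i` are pairwise disjoint; `Finset.prod_biUnion`). `aexp_split n h'` (H63/MA/AExp, `T = ι`; for the decidability instances compare `cub_split`, `cub_inst` in H38/BB/CUb):
it is the sum over the `G : ι → Finset` with `G a ⊆ n`, `Dj G`, `⋃ G a = n` of `∏_a ∏_{v ∈ G a} h' v a`. The product is `0` unless `G a ⊆ f (cl a)` for all `a`, and then it is `∏ ∏ h a v`. For `Dj G`, `⋃ G a = n`: `G a ⊆ f (cl a)` for all `a` iff `unC cl G = f` (if `v ∈ f i ⊆ n` then `v ∈ G a` for some `a`, so `v ∈ f (cl a)`, `cl a = i`); and then `G a ⊆ f (cl a)`, so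
`G a ∈ GF D Y` (`rx_mem_GF`, `nr_mono`; subsets of good sets). (Compare `rx_inner` in H38/BB/CExp.)
(2) Exchange: the sum over `f` and over the `g` with `Dj g`, `unC cl g = f` is the sum over the `g ∈ (GF D Y)^ι` with `Dj g`, provided all `unC cl g i ∈ GF D Y`, which follows from `∏_i nr (unC cl g i) = ∏_a nr (g a) ≤ Y` (all factors `≥ 1`; the product formula for disjoint unions as `rx_nr`: `nr` of a disjoint union is the product, `Finset.prod_fiberwise`). `Dj g` implies `Dj (unC cl g)`; `unC cl g i` is disjoint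
from `E` for all `i` iff all `g a` are. If a condition fails both sides have no term. (Compare `csel_gen` in H38/BB/CSel.)
-/

set_option autoImplicit false

open scoped NumberField
open IsDedekindDomain
open scoped Classical

noncomputable section

namespace H77.AB

open H63.MA H38.BB

variable {K : Type} [Field K] [NumberField K] {p : ℕ} {ζ : K}

theorem part_mem {ι κ : Type} [Fintype ι] {cl : ι → κ} {g : ι → Finset (Pl K)} {i : κ} {v : Pl K} :
    v ∈ unC cl g i ↔ ∃ a, cl a = i ∧ v ∈ g a := by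
  unfold unC
  simp only [Finset.mem_biUnion, Finset.mem_filter, Finset.mem_univ, true_and]

theorem part_dj {ι κ : Type} [Fintype ι] {cl : ι → κ} {g : ι → Finset (Pl K)} (hg : Dj g) :
    Dj (unC cl g) := by
  intro i i' hii'
  rw [Finset.disjoint_left]
  intro v hv hv'
  obtain ⟨a, ha, h1⟩ := part_mem.1 hv
  obtain ⟨a', ha', h2⟩ := part_mem.1 hv'
  have hne : a ≠ a' := by
    rintro rfl
    exact hii' (ha.symm.trans ha')
  exact Finset.disjoint_left.1 (hg a a' hne) h1 h2

theorem part_disj {ι κ : Type} [Fintype ι] (cl : ι → κ) (g : ι → Finset (Pl K))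
    (E : Finset (Pl K)) :
    (∀ i, Disjoint (unC cl g i) E) ↔ ∀ a, Disjoint (g a) E := by
  constructor
  · intro h a
    rw [Finset.disjoint_left]
    intro v hv
    exact Finset.disjoint_left.1 (h (cl a)) (part_mem.2 ⟨a, rfl, hv⟩)
  · intro h i
    rw [Finset.disjoint_left]
    intro v hv
    obtain ⟨a, -, ha⟩ := part_mem.1 hv
    exact Finset.disjoint_left.1 (h a) ha

theorem part_nr {ι κ : Type} [Fintype ι] [Fintype κ] (cl : ι → κ) (g : ι → Finset (Pl K))
    (hg : Dj g) : ∏ i, nr (unC cl g i) = ∏ a, nr (g a) := by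
  have h1 : ∀ i, nr (unC cl g i) = ∏ a ∈ Finset.univ.filter (fun a => cl a = i), nr (g a) := by
    intro i
    unfold unC nr
    rw [Finset.prod_biUnion]
    intro a _ a' _ hne
    exact hg a a' hne
  rw [Finset.prod_congr rfl fun i _ => h1 i]
  exact Finset.prod_fiberwise Finset.univ cl fun a => nr (g a)

theorem part_pi {ι : Type} [Fintype ι] {A : Finset (Finset (Pl K))} {g : ι → Finset (Pl K)} :
    g ∈ Fintype.piFinset (fun _ : ι => A) ↔ ∀ a, g a ∈ A := Fintype.mem_piFinset

theorem part_inner {ι κ : Type} [Fintype ι] [Fintype κ] [DecidableEq ι] [DecidableEq κ]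
    (D : RD0 K p ζ) (cl : ι → κ) (Y : ℝ)
    (f : κ → Finset (Pl K)) (hf : ∀ i, f i ∈ GF D Y) (hdj : Dj f) (h : ι → Pl K → ℂ) :
    ∏ i, ∏ v ∈ f i, ∑ a ∈ Finset.univ.filter (fun a => cl a = i), h a v =
      ∑ g ∈ (Fintype.piFinset (fun _ : ι => GF D Y)).filter (fun g => Dj g ∧ unC cl g = f),
        ∏ a, ∏ v ∈ g a, h a v := by
  have hS : ∀ n ∈ GF D Y, ∀ n' ⊆ n, n' ∈ GF D Y := by
    intro n hn n' hn'
    rw [rx_mem_GF] at hn ⊢
    exact ⟨(nr_mono hn').trans hn.1, fun v hv => hn.2 v (hn' hv)⟩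
  have hcl : ∀ i v, v ∈ f i → ∀ a, v ∈ f (cl a) → cl a = i := by
    intro i v hv a hva
    by_contra hne
    exact Finset.disjoint_left.1 (hdj (cl a) i hne) hva hv
  let h' : Pl K → ι → ℂ := fun v a => if v ∈ f (cl a) then h a v else 0
  have h1 : ∏ i, ∏ v ∈ f i, ∑ a ∈ Finset.univ.filter (fun a => cl a = i), h a v =
      ∏ v ∈ Finset.univ.biUnion f, ∑ a, h' v a := by
    rw [Finset.prod_biUnion (fun i _ i' _ hne => hdj i i' hne)]
    refine Finset.prod_congr rfl fun i _ => Finset.prod_congr rfl fun v hv => ?_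
    rw [Finset.sum_filter]
    refine Finset.sum_congr rfl fun a _ => ?_
    show _ = if v ∈ f (cl a) then h a v else 0
    by_cases ha : cl a = i
    · rw [if_pos ha, if_pos (by rw [ha]; exact hv)]
    · rw [if_neg ha, if_neg fun hva => ha (hcl i v hv a hva)]
  rw [h1, aexp_split]
  symm
  have h2 : ∑ g ∈ (Fintype.piFinset (fun _ : ι => GF D Y)).filter (fun g => Dj g ∧ unC cl g = f),
        ∏ a, ∏ v ∈ g a, h a v =
      ∑ g ∈ (Fintype.piFinset (fun _ : ι => GF D Y)).filter (fun g => Dj g ∧ unC cl g = f),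
        ∏ a, ∏ v ∈ g a, h' v a := by
    refine Finset.sum_congr rfl fun g hg => ?_
    obtain ⟨-, -, hg3⟩ := Finset.mem_filter.1 hg
    refine Finset.prod_congr rfl fun a _ => Finset.prod_congr rfl fun v hv => ?_
    show _ = if v ∈ f (cl a) then h a v else 0
    rw [if_pos]
    rw [← hg3]
    exact part_mem.2 ⟨a, rfl, hv⟩
  rw [h2]
  refine Finset.sum_subset ?_ ?_
  · intro g hg
    obtain ⟨-, hg2, hg3⟩ := Finset.mem_filter.1 hg
    refine Finset.mem_filter.2 ⟨part_pi.2 fun a => Finset.mem_powerset.2 ?_, hg2, ?_⟩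
    · intro v hv
      refine Finset.mem_biUnion.2 ⟨cl a, Finset.mem_univ _, ?_⟩
      rw [← hg3]
      exact part_mem.2 ⟨a, rfl, hv⟩
    · ext v
      rw [Finset.mem_biUnion, Finset.mem_biUnion]
      constructor
      · rintro ⟨a, -, hv⟩
        refine ⟨cl a, Finset.mem_univ _, ?_⟩
        rw [← hg3]
        exact part_mem.2 ⟨a, rfl, hv⟩
      · rintro ⟨i, -, hv⟩
        rw [← hg3] at hv
        obtain ⟨a, -, ha⟩ := part_mem.1 hv
        exact ⟨a, Finset.mem_univ _, ha⟩
  · intro g hg hg'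
    obtain ⟨hg1, hg2, hg3⟩ := Finset.mem_filter.1 hg
    by_contra hne
    apply hg'
    have hsub : ∀ a, g a ⊆ f (cl a) := by
      intro a v hv
      have h3 := Finset.prod_ne_zero_iff.1 hne a (Finset.mem_univ _)
      have h4 := Finset.prod_ne_zero_iff.1 h3 v hv
      by_contra h5
      exact h4 (if_neg h5)
    refine Finset.mem_filter.2 ⟨Fintype.mem_piFinset.2 fun a => hS _ (hf (cl a)) _ (hsub a),
      hg2, ?_⟩
    funext i
    ext v
    rw [part_mem]
    constructor
    · rintro ⟨a, rfl, hv⟩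
      exact hsub a hv
    · intro hv
      have h3 : v ∈ Finset.univ.biUnion g := by
        rw [hg3]
        exact Finset.mem_biUnion.2 ⟨i, Finset.mem_univ _, hv⟩
      obtain ⟨a, -, ha⟩ := Finset.mem_biUnion.1 h3
      exact ⟨a, hcl i v hv a (hsub a ha), ha⟩

theorem part {ι κ : Type} [Fintype ι] [Fintype κ] [DecidableEq ι] [DecidableEq κ]
    (D : RD0 K p ζ) (cl : ι → κ) (E : Finset (Pl K)) (Y : ℝ)
    (F : (κ → Finset (Pl K)) → ℂ) (h : (κ → Finset (Pl K)) → ι → Pl K → ℂ) :
    ∑ f ∈ Fintype.piFinset (fun _ : κ => GF D Y),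
      (if Dj f ∧ (∀ i, Disjoint (f i) E) ∧ ∏ i, nr (f i) ≤ Y then
        F f * ∏ i, ∏ v ∈ f i, ∑ a ∈ Finset.univ.filter (fun a => cl a = i), h f a v else 0) =
    ∑ g ∈ Fintype.piFinset (fun _ : ι => GF D Y),
      if Dj g ∧ (∀ a, Disjoint (g a) E) ∧ ∏ a, nr (g a) ≤ Y then
        F (unC cl g) * ∏ a, ∏ v ∈ g a, h (unC cl g) a v else 0 := by
  have key : ∀ f ∈ Fintype.piFinset (fun _ : κ => GF D Y),
      (if Dj f ∧ (∀ i, Disjoint (f i) E) ∧ ∏ i, nr (f i) ≤ Y then
        F f * ∏ i, ∏ v ∈ f i, ∑ a ∈ Finset.univ.filter (fun a => cl a = i), h f a v else 0) =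
      ∑ g ∈ Fintype.piFinset (fun _ : ι => GF D Y),
        if unC cl g = f then
          (if Dj g ∧ (∀ a, Disjoint (g a) E) ∧ ∏ a, nr (g a) ≤ Y then
            F (unC cl g) * ∏ a, ∏ v ∈ g a, h (unC cl g) a v else 0) else 0 := by
    intro f hf
    rw [Fintype.mem_piFinset] at hf
    by_cases hc : Dj f ∧ (∀ i, Disjoint (f i) E) ∧ ∏ i, nr (f i) ≤ Y
    · rw [if_pos hc]
      have e := part_inner D cl Y f hf hc.1 (h f)
      have e3 : F f * ∏ i, ∏ v ∈ f i, ∑ a ∈ Finset.univ.filter (fun a => cl a = i), h f a v =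
          ∑ g ∈ Fintype.piFinset (fun _ : ι => GF D Y),
            if Dj g ∧ unC cl g = f then F f * ∏ a, ∏ v ∈ g a, h f a v else 0 := by
        rw [← Finset.sum_filter, ← Finset.mul_sum]
        exact congrArg (fun z => F f * z) e
      rw [e3]
      refine Finset.sum_congr rfl fun g _ => ?_
      by_cases hg : unC cl g = f
      · rw [if_pos hg]
        by_cases hgd : Dj g
        · rw [if_pos ⟨hgd, hg⟩, if_pos, hg]
          refine ⟨hgd, ?_, ?_⟩
          · rw [← part_disj cl g E, hg]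
            exact hc.2.1
          · rw [← part_nr cl g hgd, hg]
            exact hc.2.2
        · rw [if_neg fun h3 => hgd h3.1, if_neg fun h3 => hgd h3.1]
      · rw [if_neg hg, if_neg fun h3 => hg h3.2]
    · rw [if_neg hc]
      symm
      refine Finset.sum_eq_zero fun g _ => ?_
      by_cases hg : unC cl g = f
      · rw [if_pos hg, if_neg]
        rintro ⟨h1, h2, h3⟩
        apply hc
        rw [← hg]
        exact ⟨part_dj h1, (part_disj cl g E).2 h2, by rw [part_nr cl g h1]; exact h3⟩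
      · rw [if_neg hg]
  rw [Finset.sum_congr rfl key, Finset.sum_comm]
  refine Finset.sum_congr rfl fun g hg => ?_
  rw [Fintype.mem_piFinset] at hg
  rw [Finset.sum_ite_eq]
  by_cases hc : Dj g ∧ (∀ a, Disjoint (g a) E) ∧ ∏ a, nr (g a) ≤ Y
  · rw [if_pos]
    rw [Fintype.mem_piFinset]
    intro i
    rw [rx_mem_GF]
    refine ⟨?_, ?_⟩
    · refine le_trans ?_ hc.2.2
      rw [← part_nr cl g hc.1]
      rw [← Finset.mul_prod_erase Finset.univ (fun i => nr (unC cl g i)) (Finset.mem_univ i)]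
      have h1 : (1 : ℝ) ≤ ∏ j ∈ Finset.univ.erase i, nr (unC cl g j) := by
        have := Finset.prod_le_prod (s := Finset.univ.erase i) (f := fun _ => (1 : ℝ))
          (g := fun j => nr (unC cl g j)) (fun _ _ => zero_le_one) (fun j _ => one_le_nr _)
        simpa using this
      have h2 := one_le_nr (unC cl g i)
      nlinarith
    · intro v hv
      obtain ⟨a, -, ha⟩ := part_mem.1 hv
      exact (rx_mem_GF.1 (hg a)).2 v ha
  · rw [if_neg hc]
    split_ifs <;> rfl

end H77.AB
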