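import Pool.Agent.H38.BB.CExp
import Pool.Agent.H63.MA.AKB

/-!
# H77-AB-WDEF: definitions for the analytic part (upper bound with weights)

Class data `c : CR p (m+1) N` (file H38/BB/CDef), a set `Xs` of classes (the x-classes), Kummer elements `c₂ : Fin M → Kˣ`, a weight `u`.
* `unC cl g i`: the union of the `g a` with `cl a = i`.
* `mk D c₂ v`: `1` if all symbols `LL v (c₂ j)` vanish, `0` otherwise. `ww D c₂ u x v`: `u * mk D c₂ v` if `x`, `1` otherwise; `mw p M u x`: its mean, `u / p^M` or `1`.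
* `Ind p c₂`: `c₂` is independent modulo `p`-th powers.
* `Wt D c₂ u X a n`: the weight `∏_{v ∈ n} ww` of a finite set `n` in the variable `a` (x-type iff `a ∈ X`).
* `TW D P b E W Y z Lg s`: the sum over the large variables `g a`, `a ∈ Lg` (`nr (g a) > z`), `g a = s a` outside `Lg`, with single variable weights `W`.
* `muU D P b E Lg s a w`: the coefficient of the phase of the large variable `a` at `w` (`w ∈ E` or `w ∈ s l`, `l ∉ Lg`).
* `SWU D c Xs c₂ u b E Y`: the sum over the families `f : Fin N → GF Y` with the spanning condition for the coordinate `0`.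
* `H1 c Xs u M β`: every set of pairwise unlinked refined indices containing an x-type has mean weight at most `β`.
* `Mx c Xs`: the mixed index set (refined x-types, unrefined other classes); `Mx.cl`, `toMx`, `hMx`, `MXS` (sum over mixed families), `P2S` (sum over refined families).
-/

set_option autoImplicit false

open scoped NumberField
open IsDedekindDomain
open scoped Classical

noncomputable section

namespace H77.AB

open H63.MA H38.BB

variable {K : Type} [Field K] [NumberField K] {p : ℕ} {ζ : K} {m N : ℕ}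

/-- the union over the fibres of `cl` -/
def unC {ι κ : Type} [Fintype ι] (cl : ι → κ) (g : ι → Finset (Pl K)) (i : κ) : Finset (Pl K) :=
  (Finset.univ.filter fun a => cl a = i).biUnion g

/-- the indicator of the primes at which all symbols of `c₂` vanish -/
def mk (D : RD0 K p ζ) {M : ℕ} (c₂ : Fin M → Kˣ) (v : Pl K) : ℝ :=
  if ∀ j, D.LL v (c₂ j) = 0 then 1 else 0

/-- the weight of a prime (`x`: the index is of x-type) -/
def ww (D : RD0 K p ζ) {M : ℕ} (c₂ : Fin M → Kˣ) (u : ℝ) (x : Prop) (v : Pl K) : ℝ :=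
  if x then u * mk D c₂ v else 1

/-- the mean weight -/
def mw (p M : ℕ) (u : ℝ) (x : Prop) : ℝ := if x then u * ((p : ℝ) ^ M)⁻¹ else 1

/-- independent modulo `p`-th powers -/
def Ind (p : ℕ) {M : ℕ} (c₂ : Fin M → Kˣ) : Prop :=
  ∀ z : Fin M → ZMod p, z ≠ 0 → ¬ IsPow p (bp c₂ z)

/-- the weight of a finite set in one variable -/
def Wt (D : RD0 K p ζ) {M : ℕ} (c₂ : Fin M → Kˣ) (u : ℝ) {J : Type} (X : Finset J) (a : J)
    (n : Finset (Pl K)) : ℂ := ((∏ v ∈ n, ww D c₂ u (a ∈ X) v : ℝ) : ℂ)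

/-- the sum over the large variables with single variable weights -/
def TW {J : Type} [Fintype J] (D : RD0 K p ζ) (P : PD p m J) (b : Fin m → Kˣ)
    (E : Finset (Pl K)) (W : J → Finset (Pl K) → ℂ) (Y z : ℝ) (Lg : Finset J)
    (s : J → Finset (Pl K)) : ℂ :=
  ∑ g ∈ Fintype.piFinset (fun a => if a ∈ Lg then GF D Y else {s a}),
    if Dj g ∧ (∀ a, Disjoint (g a) E) ∧ (∀ a ∈ Lg, z < nr (g a)) ∧ ∏ a, nr (g a) ≤ Y then
      (∏ a, W a (g a)) * ep p (ph D P b g) else 0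

/-- the coefficients of the phase of a large variable -/
def muU {J : Type} [Fintype J] (D : RD K p ζ) (P : PD p m J) (b : Fin m → Kˣ)
    (E : Finset (Pl K)) (Lg : Finset J) (s : J → Finset (Pl K)) (a : J) (w : Pl K) : ZMod p :=
  (if w ∈ E then D.lam w * dord b (P.θ a) w else 0) +
    ∑ l ∈ Finset.univ.filter (fun l => l ∉ Lg), if w ∈ s l then P.lk a l else 0

/-- the sum over the families with weights -/
def SWU (D : RD0 K p ζ) (c : CR p (m + 1) N) (Xs : Finset (Fin N)) {M : ℕ} (c₂ : Fin M → Kˣ)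
    (u : ℝ) (b : Fin (m + 1) → Kˣ) (E : Finset (Pl K)) (Y : ℝ) : ℝ :=
  ∑ f ∈ Fintype.piFinset (fun _ : Fin N => GF D Y),
    if Dj f ∧ (∀ i, Disjoint (f i) E) ∧ ∏ i, nr (f i) ≤ Y ∧ ¬ IsPow p (akR D c b f 0) then
      wtR c f (fun v k => D.LL v (akR D c b f k)) * ∏ i, ∏ v ∈ f i, ww D c₂ u (i ∈ Xs) v else 0

/-- every set of pairwise unlinked indices containing an x-type has mean weight at most `β` -/
def H1 (c : CR p m N) (Xs : Finset (Fin N)) (u : ℝ) (M β : ℕ) : Prop :=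
  ∀ U : Finset c.J, (∀ a ∈ U, ∀ a' ∈ U, c.pd.lk a a' = 0) → (∃ a ∈ U, a.1 ∈ Xs) →
    ∑ a ∈ U, mw p M u (a.1 ∈ Xs) ≤ β

/-- the mixed indices -/
def Mx (c : CR p m N) (Xs : Finset (Fin N)) : Type :=
  {a : c.J // a.1 ∈ Xs} ⊕ {i : Fin N // i ∉ Xs}

instance [NeZero p] (c : CR p m N) (Xs : Finset (Fin N)) : Fintype (Mx c Xs) :=
  inferInstanceAs (Fintype ({a : c.J // a.1 ∈ Xs} ⊕ {i : Fin N // i ∉ Xs}))

/-- the class of a mixed index -/
def Mx.cl {c : CR p m N} {Xs : Finset (Fin N)} : Mx c Xs → Fin N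
  | Sum.inl a => a.1.1
  | Sum.inr i => i.1

/-- the mixed index of a refined index -/
def toMx (c : CR p m N) (Xs : Finset (Fin N)) (a : c.J) : Mx c Xs :=
  if h : a.1 ∈ Xs then Sum.inl ⟨a, h⟩ else Sum.inr ⟨a.1, h⟩

/-- the factors of the mixed expansion -/
def hMx (D : RD0 K p ζ) (c : CR p m N) (Xs : Finset (Fin N)) {M : ℕ} (c₂ : Fin M → Kˣ) (u : ℝ)
    (b : Fin m → Kˣ) (f : Fin N → Finset (Pl K)) : Mx c Xs → Pl K → ℂ
  | Sum.inl a, v => ((ww D c₂ u True v : ℝ) : ℂ) *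
      ep p (dt a.1.2.1 (fun k => D.LL v (akR D c b f k)))
  | Sum.inr i, v => if ∀ θ ∈ c.Θ i.1, dt θ (fun k => D.LL v (akR D c b f k)) = 0 then
      (Nat.card (c.Θ i.1) : ℂ) else 0

/-- some refined x-variable is larger than `T` -/
def BigX {c : CR p m N} {Xs : Finset (Fin N)} (T : ℝ) (g : Mx c Xs → Finset (Pl K)) : Prop :=
  ∃ a : {a : c.J // a.1 ∈ Xs}, T < nr (g (Sum.inl a))

/-- the sum over the mixed families satisfying `Q` -/
def MXS [NeZero p] (D : RD0 K p ζ) (c : CR p (m + 1) N) (Xs : Finset (Fin N)) {M : ℕ}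
    (c₂ : Fin M → Kˣ) (u : ℝ) (b : Fin (m + 1) → Kˣ) (E : Finset (Pl K)) (Y : ℝ)
    (Q : (Mx c Xs → Finset (Pl K)) → Prop) : ℂ :=
  ∑ g ∈ Fintype.piFinset (fun _ : Mx c Xs => GF D Y),
    if Dj g ∧ (∀ a, Disjoint (g a) E) ∧ ∏ a, nr (g a) ≤ Y then
      (if Q g ∧ ¬ IsPow p (akR D c b (unC Mx.cl g) 0) then 1 else 0) *
        ∏ a, ∏ v ∈ g a, hMx D c Xs c₂ u b (unC Mx.cl g) a v else 0

/-- the sum over the refined families with a large x-variable -/
def P2S [NeZero p] (D : RD0 K p ζ) (c : CR p m N) (Xs : Finset (Fin N)) {M : ℕ}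
    (c₂ : Fin M → Kˣ) (u : ℝ) (b : Fin m → Kˣ) (E : Finset (Pl K)) (Y T : ℝ) : ℂ :=
  ∑ g ∈ Fintype.piFinset (fun _ : c.J => GF D Y),
    if Dj g ∧ (∀ a, Disjoint (g a) E) ∧ ∏ a, nr (g a) ≤ Y then
      (if ∃ a : c.J, a.1 ∈ Xs ∧ T < nr (g a) then 1 else 0) *
        ((∏ a, Wt D c₂ u (Finset.univ.filter fun a : c.J => a.1 ∈ Xs) a (g a)) *
          ep p (ph D c.pd b g)) else 0

end H77.AB
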